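import Pool.Agent.Lib.MP_dae8ad_gt.H.Ses0

/-! Inequalities for total Betti numbers. -/

open Finset Classical

noncomputable section

namespace Pool.Agent.HT

variable {V V' : Type} {K : Type} [Field K]

/-- A disjoint union of face-closed sets. -/
theorem betti_biUnion {J : Type} (I : Finset J) (F : J → Finset (List V)) {φ : V → V → ℤ}
    {s : Kˣ} (h : Sq (I.biUnion F) φ s) (hF : ∀ j ∈ I, Cl (F j) (I.biUnion F))
    (hd : ∀ i ∈ I, ∀ j ∈ I, i ≠ j → Disjoint (F i) (F j)) :
    betti (I.biUnion F) φ s ≤ ∑ j ∈ I, betti (F j) φ s := by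
  induction I using Finset.induction_on with
  | empty => simpa using betti_le_card (∅ : Finset (List V)) φ s
  | insert j I hj ih =>
    have e : ∀ l, l ∈ (insert j I).biUnion F \ F j ↔ l ∈ I.biUnion F := by
      intro l
      simp only [mem_sdiff, mem_biUnion, mem_insert]
      constructor
      · rintro ⟨⟨i, rfl | hi, hl⟩, h2⟩
        · exact absurd hl h2
        · exact ⟨i, hi, hl⟩
      · rintro ⟨i, hi, hl⟩
        exact ⟨⟨i, .inr hi, hl⟩, Finset.disjoint_left.1 (hd i (mem_insert_of_mem hi) j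
          (mem_insert_self _ _) fun e => hj (e ▸ hi)) hl⟩
    have hA := hF j (mem_insert_self _ _)
    have h1 := (betti_ses h hA).1
    have h2 := (sq_cl h hA).2
    rw [Finset.ext e] at h1 h2
    rw [sum_insert hj]
    refine h1.trans (Nat.add_le_add_left (ih h2 (fun i hi => ⟨subset_biUnion_of_mem F hi,
      fun l hl m hm => (hF i (mem_insert_of_mem hi)).2 l hl m ?_⟩) fun a ha b hb =>
        hd a (mem_insert_of_mem ha) b (mem_insert_of_mem hb)) _)
    exact (mem_sdiff.1 ((e m).2 hm)).1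

/-- The value of `g` at the first vertex. -/
def Ses_hd (g : V → ℤ) : List V → ℤ
  | u :: _ => g u
  | [] => 0

theorem Ses_ex {X : Finset (List V)} (hX : Cx X) {φ φ' : V → V → ℤ} (g : V → ℤ)
    (h : ∀ u v, [u, v] ∈ X → φ' u v = φ u v + g v - g u) {l m : List V} (hl : l ∈ X)
    (hm : m ∈ X) (hi : inc l m ≠ 0) : ex φ' l m + Ses_hd g l = Ses_hd g m + ex φ l m := by
  obtain ⟨u, l, rfl⟩ := List.exists_cons_of_ne_nil (hX l hl).1
  obtain ⟨v, m, rfl⟩ := List.exists_cons_of_ne_nil (hX m hm).1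
  simp only [ex, Ses_hd]
  split_ifs with huv
  · simp [huv]
  · have h1 : v ∈ u :: l := (inc_sublist hi).1.subset List.mem_cons_self
    have h2 : v ∈ l := (List.mem_cons.1 h1).resolve_left fun e => huv e.symm
    rw [h u v ((hX _ hl).2.2.1 _ (by simp) ((List.singleton_sublist.2 h2).cons_cons u))]
    ring

theorem Ses_cob {X S : Finset (List V)} (hX : Cx X) (hS : S ⊆ X) {φ φ' : V → V → ℤ}
    (g : V → ℤ) (h : ∀ u v, [u, v] ∈ X → φ' u v = φ u v + g v - g u) (s : Kˣ) :
    betti S φ' s = betti S φ s := by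
  let D : (List V → K) ≃ₗ[K] (List V → K) :=
    LinearEquiv.piCongrRight fun l => LinearEquiv.smulOfUnit (s ^ Ses_hd g l)
  have hD : ∀ c l, D c l = ((s ^ Ses_hd g l : Kˣ) : K) * c l := fun c l => rfl
  have key : ∀ c, bd S φ' s (D c) = D (bd S φ s c) := fun c => by
    funext m
    rw [hD, bd_apply, bd_apply]
    split_ifs with hm
    · rw [mul_sum]
      refine sum_congr rfl fun l hl => ?_
      by_cases hi : inc l m = 0
      · simp [hi]
      · have e : (s ^ ex φ' l m * s ^ Ses_hd g l : Kˣ) = s ^ Ses_hd g m * s ^ ex φ l m := by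
          rw [← zpow_add, ← zpow_add, Ses_ex hX g h (hS hl) (hS hm) hi]
        have e' := congrArg Units.val e
        rw [Units.val_mul, Units.val_mul] at e'
        rw [hD]
        linear_combination (inc l m : K) * c l * e'
    · simp
  have e1 : LinearMap.range (bd S φ' s) = (LinearMap.range (bd S φ s)).map (D : _ →ₗ[K] _) := by
    ext y
    simp only [Submodule.mem_map, LinearMap.mem_range, LinearEquiv.coe_coe]
    constructor
    · rintro ⟨c, rfl⟩
      exact ⟨_, ⟨D.symm c, rfl⟩, by rw [← key, D.apply_symm_apply]⟩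
    · rintro ⟨_, ⟨c, rfl⟩, rfl⟩
      exact ⟨D c, key c⟩
  have e2 : sup K S ⊓ LinearMap.ker (bd S φ' s) =
      (sup K S ⊓ LinearMap.ker (bd S φ s)).map (D : _ →ₗ[K] _) := by
    ext y
    obtain ⟨c, rfl⟩ := D.surjective y
    rw [Submodule.mem_map_equiv, D.symm_apply_apply]
    simp only [Submodule.mem_inf, mem_sup, LinearMap.mem_ker, key, hD, mul_eq_zero, Units.ne_zero,
      false_or, EmbeddingLike.map_eq_zero_iff]
  unfold betti dimK
  rw [e1, e2, LinearEquiv.finrank_map_eq, LinearEquiv.finrank_map_eq]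

theorem betti_congr {X S : Finset (List V)} (hX : Cx X) (hS : S ⊆ X) {φ φ' : V → V → ℤ}
    (h : ∀ u v, [u, v] ∈ X → φ' u v = φ u v) (s : Kˣ) : betti S φ' s = betti S φ s := by
  exact Ses_cob hX hS (fun _ => 0) (fun u v huv => by simp [h u v huv]) s

/-- Cohomologous cocycles: conjugate by the diagonal map `c l ↦ s ^ (g (head l)) * c l`. -/
theorem betti_cob {X S : Finset (List V)} (hX : Cx X) (hS : S ⊆ X) {φ φ' : V → V → ℤ}
    (g : V → ℤ) (h : ∀ u v, [u, v] ∈ X → φ' u v = φ u v + g v - g u) (s : Kˣ) :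
    betti S φ' s = betti S φ s := by
  exact Ses_cob hX hS g h s

theorem betti_smul (S : Finset (List V)) (φ : V → V → ℤ) (a : ℤ) (s : Kˣ) :
    betti S (fun u v => a * φ u v) s = betti S φ (s ^ a) := by
  have e : ∀ l m : List V, ex (fun u v => a * φ u v) l m = a * ex φ l m := by
    rintro (_ | ⟨u, l⟩) (_ | ⟨v, m⟩) <;> simp [ex]
  have : bd S (fun u v => a * φ u v) s = bd S φ (s ^ a) := by
    ext c m
    simp only [bd_apply, e, zpow_mul]
  unfold betti dimK
  rw [this]

theorem trans_zpow {F : Type} [Field F] [Algebra F K] {s : Kˣ} (hs : Transcendental F (s : K))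
    {a : ℤ} (ha : a ≠ 0) : Transcendental F ((s ^ a : Kˣ) : K) := by
  rw [Units.val_zpow_eq_zpow_val]
  intro h
  apply hs
  obtain ⟨n, rfl | rfl⟩ := a.eq_nat_or_neg
  · rw [zpow_natCast] at h
    exact h.of_pow (Nat.pos_of_ne_zero fun e => ha (by simp [e]))
  · rw [zpow_neg, zpow_natCast, IsAlgebraic.inv_iff] at h
    exact h.of_pow (Nat.pos_of_ne_zero fun e => ha (by simp [e]))

theorem exists_trans : ∃ s : ℂˣ, Transcendental ℚ (s : ℂ) := by
  have : ∃ x : ℂ, ¬ IsAlgebraic ℚ x := by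
    by_contra h
    push Not at h
    have h1 := Algebraic.countable ℚ ℂ
    rw [Set.eq_univ_of_forall (s := {x : ℂ | IsAlgebraic ℚ x}) h] at h1
    exact not_countable_complex h1
  obtain ⟨x, hx⟩ := this
  exact ⟨Units.mk0 x fun e => hx (e ▸ isAlgebraic_zero), hx⟩

end Pool.Agent.HT
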