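import Pool.Agent.Lib.MP_dae8ad_gt.H.Rank
import Pool.Agent.Lib.MP_dae8ad_gt.H.Ses

/-! Acyclicity from a matching that is triangular at infinity. -/

open Finset Classical

noncomputable section

namespace Pool.Agent.HT

variable {V V' : Type}

/-- Sketch: let `ν : B → A` be the bijection. All exponents in the block from `B` to `A` are
`≤ 0`, so the block is a square matrix `M (s⁻¹)` with `M` over `F[X]`, entries
`inc b a * X ^ (-ex φ b a).toNat`, rows indexed by `B` through `ν`. `M 0` is triangular for `wt`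
with diagonal `±1`, so it is injective and `det M 0 ≠ 0`; hence `det M ≠ 0`, `det M (s⁻¹) ≠ 0`,
and `bd S φ s` is injective on `sup K B`. `rank_ge` and `betti_eq` finish. -/
theorem acy_tri {F K : Type} [Field F] [Field K] [Algebra F K] {S A B : Finset (List V)}
    {φ : V → V → ℤ} {s : Kˣ} (hs : Transcendental F (s : K)) (hq : Sq S φ s)
    (hU : ∀ l, l ∈ S ↔ l ∈ A ∨ l ∈ B) (hd : Disjoint A B) (ν : List V → List V)
    (hν : Set.BijOn ν B A) (wt : List V → ℤ)
    (h1 : ∀ b ∈ B, (inc b (ν b) = 1 ∨ inc b (ν b) = -1) ∧ ex φ b (ν b) = 0)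
    (h2 : ∀ b ∈ B, ∀ a ∈ A, inc b a ≠ 0 → ex φ b a ≤ 0)
    (h3 : ∀ b ∈ B, ∀ a ∈ A, inc b a ≠ 0 → a ≠ ν b → ex φ b a = 0 → wt a < wt (ν b)) :
    betti S φ s = 0 := by
  let M : Matrix B B (Polynomial F) := Matrix.of fun a b =>
    (inc b (ν a) : Polynomial F) * Polynomial.X ^ (-ex φ b (ν a)).toNat
  have d0 : ((Polynomial.evalRingHom 0).mapMatrix M).det ≠ 0 := fun e => by
    obtain ⟨v, hv, e⟩ := Matrix.exists_mulVec_eq_zero_iff.2 e
    obtain ⟨a, ha, hm⟩ := exists_max_image (univ.filter fun b => v b ≠ 0) (fun b : B => wt (ν b))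
      ((Function.ne_iff.1 hv).imp fun b hb => mem_filter.2 ⟨mem_univ _, hb⟩)
    have e1 := congrFun e a
    rw [Matrix.mulVec, dotProduct, sum_eq_single a _ fun h => absurd (mem_univ _) h] at e1
    · refine (mem_filter.1 ha).2 ?_
      rcases (h1 a a.2).1 with h | h <;> simpa [M, h, (h1 a a.2).2] using e1
    · intro b _ hb
      by_contra hn
      have h4 : inc b (ν a) ≠ 0 := fun h => hn (by simp [M, h])
      have h5 : (-ex φ b (ν a)).toNat = 0 := by_contra fun h => hn (by simp [M, h])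
      have h6 := h2 b b.2 _ (hν.mapsTo a.2) h4
      exact (h3 b b.2 _ (hν.mapsTo a.2) h4
        (fun h => hb (Subtype.ext (hν.injOn a.2 b.2 h).symm)) (by omega)).not_ge
        (hm b (mem_filter.2 ⟨mem_univ _, right_ne_zero_of_mul hn⟩))
  have d1 : ((Polynomial.aeval (s : K)⁻¹ : Polynomial F →ₐ[F] K).toRingHom.mapMatrix M).det ≠ 0 :=
    fun e => by
      rw [← RingHom.map_det] at e d0
      exact hs (IsAlgebraic.inv_iff.1 ⟨_, fun h => d0 (by rw [h, map_zero]), e⟩)
  have hr := rank_ge (S := S) (J := B) (φ := φ) (s := s) fun c hc e => by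
    have e1 : (fun b : B => c b) = 0 := Matrix.eq_zero_of_mulVec_eq_zero d1 (funext fun a => by
      have e2 := congrFun e (ν a)
      rw [bd_apply, if_pos ((hU _).2 (.inl (hν.mapsTo a.2))),
        ← sum_subset (fun l hl => (hU l).2 (.inr hl))
          fun l _ hl => by rw [mem_sup.1 hc l hl, mul_zero], ← sum_coe_sort] at e2
      refine Eq.trans (sum_congr rfl fun b _ => congrArg (· * c b.1) ?_) e2
      by_cases h4 : inc b (ν a) = 0
      · simp [M, h4]
      obtain ⟨k, hk⟩ := Int.eq_ofNat_of_zero_le (neg_nonneg.2 (h2 b b.2 _ (hν.mapsTo a.2) h4))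
      simp [M, neg_eq_iff_eq_neg.1 hk])
    funext l
    by_cases hl : l ∈ B
    exacts [congrFun e1 ⟨l, hl⟩, mem_sup.1 hc l hl]
  have h4 := betti_eq hq
  have h5 : S.card = A.card + B.card := by
    rw [← card_union_of_disjoint hd]
    exact congrArg _ (Finset.ext fun l => (hU l).trans mem_union.symm)
  have h6 : B.card = A.card := card_nbij ν hν.mapsTo hν.injOn hν.surjOn
  omega

end Pool.Agent.HT
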