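import Pool.Agent.Lib.MP_dae8ad_gt.H.Homo0

/-! Selection of independent columns and semicontinuity. -/

open Finset Classical

noncomputable section

namespace Pool.Agent.HT

variable {V V' : Type}

variable {K : Type} [Field K]

theorem Rank_range (S : Finset (List V)) (φ : V → V → ℤ) (s : Kˣ) :
    LinearMap.range (bd S φ s) =
      Submodule.span K ((fun l => bd S φ s (Pi.single l 1)) '' (S : Set (List V))) := by
  refine le_antisymm ?_ (Submodule.span_le.2 ?_)
  · rintro _ ⟨c, rfl⟩
    have h : bd S φ s c = ∑ l ∈ S, c l • bd S φ s (Pi.single l 1) := by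
      funext m
      simp only [Finset.sum_apply, Pi.smul_apply, bd_apply, smul_eq_mul]
      split_ifs
      · refine sum_congr rfl fun l hl => ?_
        rw [sum_eq_single l (fun b _ hb => by simp [Pi.single_eq_of_ne hb]) fun h => absurd hl h]
        simp [mul_comm]
      · simp
    rw [h]
    exact Submodule.sum_mem _ fun l hl =>
      Submodule.smul_mem _ _ (Submodule.subset_span ⟨l, hl, rfl⟩)
  · rintro _ ⟨l, -, rfl⟩
    exact ⟨_, rfl⟩

theorem Rank_sum (J : Finset (List V)) (g : J → K) (l : List V) :
    (∑ j : J, g j • (Pi.single (j : List V) 1 : List V → K)) l =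
      if h : l ∈ J then g ⟨l, h⟩ else 0 := by
  simp only [Finset.sum_apply, Pi.smul_apply, smul_eq_mul]
  split_ifs with h
  · rw [sum_eq_single ⟨l, h⟩ (fun b _ hb => by
      rw [Pi.single_eq_of_ne fun e => hb (Subtype.ext e.symm), mul_zero]) (by simp)]
    simp
  · exact sum_eq_zero fun b _ => by
      rw [Pi.single_eq_of_ne fun e : l = b => h (e ▸ b.2), mul_zero]

theorem Rank_indep {S J : Finset (List V)} {φ : V → V → ℤ} {s : Kˣ} :
    (∀ c ∈ sup K J, bd S φ s c = 0 → c = 0) ↔
      LinearIndependent K fun j : J => bd S φ s (Pi.single (j : List V) 1) := by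
  rw [Fintype.linearIndependent_iff]
  constructor
  · intro h g hg j
    have h1 := h (∑ j : J, g j • Pi.single (j : List V) 1)
      (mem_sup.2 fun l hl => by rw [Rank_sum, dif_neg hl]) (by simpa only [map_sum, map_smul])
    have h2 := congrFun h1 j
    rwa [Rank_sum, dif_pos j.2] at h2
  · intro h c hc h0
    have h1 : c = ∑ j : J, c j • Pi.single (j : List V) 1 := by
      funext l
      rw [Rank_sum]
      split_ifs with hl
      · rfl
      · exact mem_sup.1 hc l hl
    have h2 := h (fun j => c j) (by rw [h1] at h0; simpa only [map_sum, map_smul] using h0)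
    rw [h1]
    exact sum_eq_zero fun j _ => by rw [h2 j, zero_smul]

/-- The image is spanned by the images of the basis chains; select a basis among them. -/
theorem rank_sel (S : Finset (List V)) (φ : V → V → ℤ) (s : Kˣ) :
    ∃ J ⊆ S, J.card = Module.finrank K (LinearMap.range (bd S φ s)) ∧
      ∀ c ∈ sup K J, bd S φ s c = 0 → c = 0 := by
  obtain ⟨b, hb, -, h1, h2⟩ := exists_linearIndepOn_extension
    (linearIndepOn_empty K fun l => bd S φ s (Pi.single l 1)) (Set.empty_subset (S : Set (List V)))
  lift b to Finset (List V) using S.finite_toSet.subset hb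
  refine ⟨b, by exact_mod_cast hb, ?_, Rank_indep.2 h2⟩
  have h3 := finrank_span_eq_card (show LinearIndependent K
    fun j : b => bd S φ s (Pi.single (j : List V) 1) from h2)
  rw [Fintype.card_coe] at h3
  rw [← h3, Rank_range, le_antisymm (Submodule.span_le.2 h1)
    (Submodule.span_mono (Set.image_mono hb)), Set.image_eq_range]
  rfl

theorem rank_ge {S J : Finset (List V)} {φ : V → V → ℤ} {s : Kˣ}
    (h : ∀ c ∈ sup K J, bd S φ s c = 0 → c = 0) :
    J.card ≤ Module.finrank K (LinearMap.range (bd S φ s)) := by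
  have : Module.Finite K (LinearMap.range (bd S φ s)) := by
    rw [Rank_range]
    exact Module.Finite.span_of_finite K (S.finite_toSet.image _)
  have h1 : LinearIndependent K fun j : J =>
      (⟨_, Pi.single (j : List V) 1, rfl⟩ : LinearMap.range (bd S φ s)) :=
    LinearIndependent.of_comp (LinearMap.range (bd S φ s)).subtype (Rank_indep.1 h)
  simpa using h1.fintype_card_le_finrank

/-- A matrix with independent columns has an invertible maximal minor. -/
theorem Rank_minor {ι κ : Type} [Fintype κ] [DecidableEq κ] (A : Matrix ι κ K)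
    (h : ∀ g, A.mulVec g = 0 → g = 0) : ∃ r : κ → ι, (A.submatrix r id).det ≠ 0 := by
  have hs : Submodule.span K (Set.range A.row) = ⊤ := by
    by_contra hne
    obtain ⟨f, hf, hle⟩ := Submodule.exists_le_ker_of_lt_top _ (lt_top_iff_ne_top.2 hne)
    have h1 : ∀ v : κ → K, f v = ∑ a, v a * f (Pi.single a 1) := fun v => by
      conv_lhs => rw [pi_eq_sum_univ' v]
      simp only [map_sum, map_smul, smul_eq_mul]
    have h2 := h (fun a => f (Pi.single a 1)) (funext fun i =>
      (h1 (A.row i)).symm.trans (hle (Submodule.subset_span ⟨i, rfl⟩)))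
    refine hf (LinearMap.ext fun v => ?_)
    rw [h1]
    exact sum_eq_zero fun a _ => by
      rw [show f (Pi.single a 1) = 0 from congrFun h2 a, mul_zero]
  obtain ⟨τ, r, -, h3, hl⟩ := exists_linearIndependent' K A.row
  rw [hs] at h3
  have : Finite τ := hl.finite
  have := Fintype.ofFinite τ
  have hc : Fintype.card κ = Fintype.card τ := by
    rw [← finrank_span_eq_card hl, h3, finrank_top, Module.finrank_fintype_fun_eq_card]
  let e := Fintype.equivOfCardEq hc
  have h1 : LinearIndependent K (A.submatrix (r ∘ e) id).row := hl.comp e e.injective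
  exact ⟨r ∘ e,
    ((Matrix.isUnit_iff_isUnit_det _).1 (Matrix.linearIndependent_rows_iff_isUnit.1 h1)).ne_zero⟩

/-- The columns `J` of the boundary matrix. -/
def Rank_mat (S J : Finset (List V)) (φ : V → V → ℤ) (s : Kˣ) : Matrix S J K :=
  Matrix.of fun m l => (inc (l : List V) m : K) * ((s ^ ex φ l m : Kˣ) : K)

theorem Rank_bd {S J : Finset (List V)} (hJ : J ⊆ S) (φ : V → V → ℤ) (s : Kˣ) {c : List V → K}
    (hc : c ∈ sup K J) (m : S) :
    bd S φ s c m = (Rank_mat S J φ s).mulVec (fun l => c l) m := by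
  rw [bd_apply, if_pos m.2, ← sum_subset hJ fun l _ hl => by rw [mem_sup.1 hc l hl, mul_zero],
    ← sum_coe_sort]
  rfl

theorem Rank_iff {S J : Finset (List V)} (hJ : J ⊆ S) (φ : V → V → ℤ) (s : Kˣ) :
    (∀ c ∈ sup K J, bd S φ s c = 0 → c = 0) ↔ ∀ g, (Rank_mat S J φ s).mulVec g = 0 → g = 0 := by
  constructor
  · intro h g hg
    have hc : (fun l => if h : l ∈ J then g ⟨l, h⟩ else 0) ∈ sup K J :=
      mem_sup.2 fun l hl => dif_neg hl
    have h1 := h _ hc (funext fun m => by
      by_cases hm : m ∈ S
      · rw [Rank_bd hJ φ s hc ⟨m, hm⟩]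
        simpa using congrFun hg ⟨m, hm⟩
      · rw [bd_apply, if_neg hm]
        rfl)
    funext j
    simpa using congrFun h1 j
  · intro h c hc h0
    have h1 := h (fun l => c l) (funext fun m => by rw [← Rank_bd hJ φ s hc m, h0]; rfl)
    funext l
    by_cases hl : l ∈ J
    · exact congrFun h1 ⟨l, hl⟩
    · exact mem_sup.1 hc l hl

theorem Rank_det {F : Type} [Field F] [Algebra F K] {S J : Finset (List V)} (φ : V → V → ℤ)
    (s : Kˣ) (r : J → S) {N : ℕ} (hN : ∀ (l : J) (m : S), 0 ≤ ex φ l m + N) :
    Polynomial.aeval (s : K) (Matrix.of fun m l : J => (inc (l : List V) (r m) : Polynomial F) *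
      Polynomial.X ^ (ex φ l (r m) + N).toNat).det =
      ((s : K) ^ N) ^ Fintype.card J * ((Rank_mat S J φ s).submatrix r id).det := by
  rw [AlgHom.map_det, ← Matrix.det_smul]
  refine congrArg _ (Matrix.ext fun m l => ?_)
  simp only [AlgHom.mapMatrix_apply, Matrix.map_apply, Matrix.of_apply, map_mul, map_intCast,
    map_pow, Polynomial.aeval_X, Matrix.smul_apply, Matrix.submatrix_apply, Rank_mat, id,
    smul_eq_mul, Units.val_zpow_eq_zpow_val]
  rw [← zpow_natCast, Int.toNat_of_nonneg (hN l (r m)), zpow_add₀ s.ne_zero, zpow_natCast]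
  ring

/-- The rank at a transcendental element is maximal. Sketch: take `J` from `rank_sel` for `s₀`.
The matrix `D s₀` with columns `J` has a left inverse over `K₀`, so its rows span and some
`J × J` minor is not zero. After multiplication by `X ^ N` the minor is the value at `s₀` of a
polynomial over `F`, which is not zero, so it does not vanish at `s`; use `rank_ge`. -/
theorem rank_semi {F K₀ : Type} [Field F] [Field K₀] [Algebra F K] [Algebra F K₀]
    (S : Finset (List V)) (φ : V → V → ℤ) {s : Kˣ} (hs : Transcendental F (s : K)) (s₀ : K₀ˣ) :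
    Module.finrank K₀ (LinearMap.range (bd S φ s₀)) ≤
      Module.finrank K (LinearMap.range (bd S φ s)) := by
  obtain ⟨J, hJ, hc, h⟩ := rank_sel S φ s₀
  obtain ⟨r, hr⟩ := Rank_minor _ ((Rank_iff hJ φ s₀).1 h)
  obtain ⟨N, hN⟩ : ∃ N : ℕ, ∀ (l : J) (m : S), 0 ≤ ex φ l m + N :=
    ⟨univ.sup fun p : J × S => (ex φ p.1 p.2).natAbs, fun l m => by
      have : (ex φ l m).natAbs ≤ _ :=
        le_sup (f := fun p : J × S => (ex φ p.1 p.2).natAbs) (mem_univ (l, m))
      omega⟩
  have h1 : ((Rank_mat S J φ s).submatrix r id).det ≠ 0 := fun h0 => by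
    have h2 := Rank_det (F := F) φ s r hN
    have h3 := Rank_det (F := F) φ s₀ r hN
    rw [h0, mul_zero] at h2
    rw [transcendental_iff.1 hs _ h2, map_zero] at h3
    exact mul_ne_zero (pow_ne_zero _ (pow_ne_zero _ s₀.ne_zero)) hr h3.symm
  rw [← hc]
  refine rank_ge ((Rank_iff hJ φ s).2 fun g hg => Matrix.eq_zero_of_mulVec_eq_zero h1 ?_)
  exact funext fun m => congrFun hg (r m)

end Pool.Agent.HT
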