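import Pool.Agent.Lib.MP_dae8ad_gt.H.Cov
import Pool.Agent.Lib.MP_dae8ad_gt.H.Rank
import Pool.Agent.Lib.MP_dae8ad_gt.H.Ses

/-! Betti numbers of finite cyclic covers. -/

open Finset Classical

noncomputable section

namespace Pool.Agent.HT

variable {V V' : Type}

/-- The `e`-th part of a cocycle on the `e`-fold cyclic cover. -/
def dv (φ : V → V → ℤ) (e : ℕ) (a b : V × ZMod e) : ℤ :=
  (φ a.1 b.1 + (a.2.val : ℤ) - (b.2.val : ℤ)) / e

theorem dv_mul (φ : V → V → ℤ) {e : ℕ} [NeZero e] {a b : V × ZMod e}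
    (h : b.2 = a.2 + (φ a.1 b.1 : ZMod e)) :
    e * dv φ e a b = φ a.1 b.1 + (a.2.val : ℤ) - (b.2.val : ℤ) := by
  refine Int.mul_ediv_cancel' ((ZMod.intCast_zmod_eq_zero_iff_dvd _ e).1 ?_)
  push_cast
  rw [ZMod.natCast_zmod_val, ZMod.natCast_zmod_val, h]
  ring

theorem coc_dv {X : Finset (List V)} {φ : V → V → ℤ} (hφ : Coc X φ) (e : ℕ) [NeZero e] :
    Coc (Up X (fun u v => (φ u v : ZMod e)) univ) (dv φ e) := by
  intro a b d h
  obtain ⟨⟨h1, h2⟩, -⟩ := mem_Up.1 h
  obtain ⟨h3, h4⟩ := List.pairwise_cons.1 h2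
  have k1 := dv_mul φ (h3 b (by simp))
  have k2 := dv_mul φ (h3 d (by simp))
  have k3 := dv_mul φ ((List.pairwise_cons.1 h4).1 d (by simp))
  have k4 := hφ a.1 b.1 d.1 h1
  refine mul_left_cancel₀ (Int.natCast_ne_zero.2 (NeZero.ne e)) ?_
  linear_combination k2 - k1 - k3 + k4

/-- The powers `X ^ i`, `i < e`, are independent over the image of the substitution `X ↦ X ^ e`.
Sketch: clear denominators and compare coefficients (`Polynomial.coeff_expand`). -/
theorem exists_expand (F : Type) [Field F] (e : ℕ) [NeZero e] :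
    ∃ f : RatFunc F →+* RatFunc F, f RatFunc.X = RatFunc.X ^ e ∧
      ∀ a : ZMod e → RatFunc F, ∑ i, f (a i) * RatFunc.X ^ i.val = 0 → a = 0 := by
  have he := Nat.pos_of_ne_zero (NeZero.ne e)
  have hi := IsFractionRing.injective (Polynomial F) (RatFunc F)
  have hg : Function.Injective ((algebraMap (Polynomial F) (RatFunc F)).comp
      (Polynomial.expand F e).toRingHom) := hi.comp (Polynomial.expand_injective he)
  have hf : ∀ p, IsFractionRing.lift hg (algebraMap (Polynomial F) (RatFunc F) p) =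
      algebraMap (Polynomial F) (RatFunc F) (Polynomial.expand F e p) :=
    IsFractionRing.lift_algebraMap hg
  refine ⟨IsFractionRing.lift hg, ?_, fun a ha => ?_⟩
  · rw [← RatFunc.algebraMap_X, hf, Polynomial.expand_X, map_pow]
  obtain ⟨b, hb⟩ := IsLocalization.exist_integer_multiples_of_finite
    (nonZeroDivisors (Polynomial F)) a
  choose p hp using hb
  simp only [Algebra.smul_def] at hp
  have h1 : ∑ i, Polynomial.expand F e (p i) * Polynomial.X ^ i.val = 0 := by
    refine hi ?_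
    rw [map_sum, map_zero, ← mul_zero (IsFractionRing.lift hg (algebraMap _ (RatFunc F) b.1)),
      ← ha, mul_sum]
    refine sum_congr rfl fun i _ => ?_
    rw [map_mul, map_pow, RatFunc.algebraMap_X, ← hf, hp, map_mul, mul_assoc]
  funext i
  have h2 : p i = 0 := by
    ext n
    have h3 := congrArg (Polynomial.coeff · (e * n + i.val)) h1
    simp only [Polynomial.finsetSum_coeff, Polynomial.coeff_zero] at h3
    rw [sum_eq_single i (fun j _ hj => ?_) (by simp), Polynomial.coeff_mul_X_pow,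
      Polynomial.coeff_expand_mul' he] at h3
    · exact h3
    · rw [Polynomial.coeff_mul_X_pow', Polynomial.coeff_expand he]
      split_ifs with h4 h5
      · refine absurd ?_ hj
        have h6 := (ZMod.natCast_eq_zero_iff _ e).2 h5
        rw [Nat.cast_sub h4] at h6
        simpa [sub_eq_zero, eq_comm] using h6
      · rfl
      · rfl
  have h3 := hp i
  rw [h2, map_zero] at h3
  exact (mul_eq_zero.1 h3.symm).resolve_left
    ((map_ne_zero_iff _ hi).2 (nonZeroDivisors.ne_zero b.2))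

section
variable {G : Type} [AddCommGroup G] {X : Finset (List V)} {c : V → V → G}

theorem CovB_surj (hX : Cx X) {L : List (V × G)} (h : L ∈ UpS X c) :
    ∃ l ∈ X, ∃ i, lf c l i = L := by
  cases L with
  | nil => exact absurd rfl (hX _ h.1).1
  | cons a L => exact ⟨_, h.1, a.2, (eq_lf h).symm⟩

theorem CovB_sum [Fintype G] {M : Type} [AddCommMonoid M] (hX : Cx X)
    (hc : CocS (X : Set (List V)) c) (g : List (V × G) → M) :
    ∑ L ∈ Up X c univ, g L = ∑ l ∈ X, ∑ i, g (lf c l i) := by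
  rw [← sum_product']
  symm
  refine sum_nbij (fun p => lf c p.1 p.2) (fun p hp => mem_Up.2
    ⟨lf_mem hX hc (mem_product.1 hp).1 _, fun _ _ => mem_univ _⟩) ?_ (fun L hL => ?_)
    fun _ _ => rfl
  · rintro ⟨l, i⟩ hl ⟨m, j⟩ - e
    obtain rfl : l = m := (lf_fst c l i).symm.trans ((congrArg _ e).trans (lf_fst c m j))
    cases l with
    | nil => exact absurd rfl (hX _ (mem_product.1 (mem_coe.1 hl)).1).1
    | cons u r => exact Prod.ext rfl (Prod.mk.inj (List.cons.inj e).1).2
  · obtain ⟨l, a, i, b⟩ := CovB_surj hX (mem_Up.1 (mem_coe.1 hL)).1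
    exact ⟨(l, i), mem_coe.2 (mem_product.2 ⟨a, mem_univ i⟩), b⟩

theorem CovB_ex (hX : Cx X) (hc : CocS (X : Set (List V)) c) {l m : List V} (hl : l ∈ X)
    (hm : m ∈ X) (h : inc l m ≠ 0) (i : G) : ∃ j, inc (lf c l i) (lf c m j) ≠ 0 := by
  obtain ⟨k, h1, h2⟩ := inc_ne h
  have h3 : ((lf c l i).eraseIdx k).map Prod.fst = m := by
    rw [← List.eraseIdx_map, lf_fst, h2]
  have h4 := lf_mem hX hc hl i
  obtain ⟨m', -, j, h5⟩ := CovB_surj hX (ups_sub hX h4
    (fun e => (hX m hm).1 (by rw [← h3, e, List.map_nil])) (List.eraseIdx_sublist _ k))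
  obtain rfl : m' = m := by rw [← h3, ← h5, lf_fst]
  refine ⟨j, ?_⟩
  rw [h5, inc_erase (List.Nodup.of_map Prod.fst (hX _ h4.1).2.1)
    (by rw [← List.length_map Prod.fst, lf_fst]; exact h1)]
  exact pow_ne_zero _ (by norm_num)

end

theorem CovB_loc {X : Finset (List V)} {φ : V → V → ℤ} {e : ℕ} [NeZero e] (hX : Cx X)
    (hc : CocS (X : Set (List V)) fun u v => (φ u v : ZMod e)) {l m : List V} (hl : l ∈ X)
    (hm : m ∈ X) {i j : ZMod e} (h : inc (lf (fun u v => (φ u v : ZMod e)) l i)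
      (lf (fun u v => (φ u v : ZMod e)) m j) ≠ 0) :
    inc l m = inc (lf (fun u v => (φ u v : ZMod e)) l i) (lf (fun u v => (φ u v : ZMod e)) m j) ∧
      j = i + (ex φ l m : ZMod e) ∧
      (j.val : ℤ) + e * ex (dv φ e) (lf (fun u v => (φ u v : ZMod e)) l i)
        (lf (fun u v => (φ u v : ZMod e)) m j) = ex φ l m + i.val := by
  have h1 := (inc_sublist h).1
  have h2 := fun a => inc_up (a := a) hX (lf_mem hX hc hl i) (lf_mem hX hc hm j)
  rw [lf_fst, lf_fst] at h2
  cases m with
  | nil => exact absurd rfl (hX _ hm).1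
  | cons v r' =>
    cases l with
    | nil => exact absurd rfl (hX _ hl).1
    | cons u r =>
      have h3 : (v, j) ∈ lf (fun u v => (φ u v : ZMod e)) (v :: r') j := List.mem_cons_self
      refine ⟨h2 _ (h1.subset h3) h3, ?_⟩
      rcases List.mem_cons.1 (h1.subset h3) with h4 | h4
      · obtain ⟨rfl, rfl⟩ := Prod.ext_iff.1 h4
        simp [lf, ex]
      · obtain ⟨w, h5, h6⟩ := List.mem_map.1 h4
        obtain ⟨rfl, h7⟩ : w = v ∧ i + (φ u w : ZMod e) = j := Prod.ext_iff.1 h6
        have h8 : u ≠ w := fun a => (List.nodup_cons.1 (hX _ hl).2.1).1 (a ▸ h5)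
        have h9 := dv_mul φ (a := (u, i)) (b := (w, j)) h7.symm
        simp only [lf, ex, if_neg h8, if_neg fun a : (u, i) = (w, j) => h8 (congrArg Prod.fst a)]
        exact ⟨h7.symm, by linear_combination h9⟩

theorem CovB_bd {X : Finset (List V)} {φ : V → V → ℤ} {e : ℕ} [NeZero e] (hX : Cx X)
    (hc : CocS (X : Set (List V)) fun u v => (φ u v : ZMod e)) {R : Type} [Field R] (f : R →+* R)
    (μ : Rˣ) (hf : f μ = μ ^ e) (b : List (V × ZMod e) → R) {m : List V} (hm : m ∈ X) :
    bd X φ μ (fun l => ∑ i, f (b (lf (fun u v => (φ u v : ZMod e)) l i)) * μ ^ i.val) m =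
      ∑ j : ZMod e, μ ^ j.val * f (bd (Up X (fun u v => (φ u v : ZMod e)) univ) (dv φ e) μ b
        (lf (fun u v => (φ u v : ZMod e)) m j)) := by
  have h1 : ∀ j, lf (fun u v => (φ u v : ZMod e)) m j ∈ Up X (fun u v => (φ u v : ZMod e)) univ :=
    fun j => mem_Up.2 ⟨lf_mem hX hc hm j, fun _ _ => mem_univ _⟩
  simp only [bd_apply, if_pos hm, if_pos (h1 _), CovB_sum hX hc, map_sum, mul_sum]
  rw [sum_comm (s := univ)]
  refine sum_congr rfl fun l hl => ?_
  rw [sum_comm]
  refine sum_congr rfl fun i _ => ?_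
  by_cases h0 : inc l m = 0
  · rw [h0, Int.cast_zero, zero_mul, zero_mul]
    refine (sum_eq_zero fun j _ => ?_).symm
    have h2 : inc (lf (fun u v => (φ u v : ZMod e)) l i)
        (lf (fun u v => (φ u v : ZMod e)) m j) = 0 := by
      by_contra h3
      exact h3 ((CovB_loc hX hc hl hm h3).1.symm.trans h0)
    rw [h2, Int.cast_zero, zero_mul, zero_mul, map_zero, mul_zero]
  · obtain ⟨j, h2⟩ := CovB_ex hX hc hl hm h0 i
    obtain ⟨a1, a2, a3⟩ := CovB_loc hX hc hl hm h2
    rw [sum_eq_single j (fun j' _ hj => ?_) (by simp)]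
    · have a4 := congrArg (fun n : ℤ => (μ : R) ^ n) a3
      simp only [zpow_add₀ μ.ne_zero, zpow_mul, zpow_natCast] at a4
      rw [map_mul, map_mul, map_intCast, Units.val_zpow_eq_zpow_val, Units.val_zpow_eq_zpow_val,
        map_zpow₀, hf, ← a1]
      linear_combination (-(inc l m : R) * f (b (lf (fun u v => (φ u v : ZMod e)) l i))) * a4
    · have h3 : inc (lf (fun u v => (φ u v : ZMod e)) l i)
          (lf (fun u v => (φ u v : ZMod e)) m j') = 0 := by
        by_contra h3
        exact hj ((CovB_loc hX hc hl hm h3).2.1.trans a2.symm)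
      rw [h3, Int.cast_zero, zero_mul, zero_mul, map_zero, mul_zero]

/-- Sketch: let `μ = X` in `R = RatFunc F`, `r` the rank of `bd X φ μ`, `J` from `rank_sel`, `J'`
the `e * r` lifts of `J`. If `c` is a chain over `R` on `J'` killed by `bd X' (dv φ e) μ`, put
`c₁ l = ∑ i, f (c (lf _ l i)) * μ ^ i.val`; then `bd X φ μ c₁ m = ∑ j, μ ^ j.val * f (bd X' .. c
(lf _ m j)) = 0` by `dv_mul`, so `c₁ = 0` and `c = 0`. Hence the rank upstairs at `μ` is `≥ e * r`,
and by `rank_semi` also at `s`. Finish with `betti_eq`, `card_up_univ`. -/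
theorem small_cover {X : Finset (List V)} {φ : V → V → ℤ} (hX : Cx X) (hφ : Coc X φ) {c : ℕ}
    (h : Small X φ c) (e : ℕ) [NeZero e] :
    Small (Up X (fun u v => (φ u v : ZMod e)) univ) (dv φ e) (e * c) := by
  intro F K _ _ _ s hs
  have hc : CocS (X : Set (List V)) fun u v => (φ u v : ZMod e) := fun u v w a =>
    (congrArg _ (hφ u v w a)).trans (Int.cast_add _ _)
  obtain ⟨f, f1, f2⟩ := exists_expand F e
  let μ : (RatFunc F)ˣ := Units.mk0 RatFunc.X RatFunc.X_ne_zero
  obtain ⟨J, J1, J2, J3⟩ := rank_sel X φ μ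
  obtain ⟨J', K1, K2⟩ : ∃ J' : Finset (List (V × ZMod e)), J'.card = e * J.card ∧
      ∀ L, L ∈ J' ↔ L ∈ Up X (fun u v => (φ u v : ZMod e)) univ ∧ L.map Prod.fst ∈ J := by
    refine ⟨_, (card_up_univ hX hc fun l => l ∈ J).trans ?_, fun L => by simp only [mem_filter]⟩
    rw [ZMod.card]
    exact congrArg (fun T : Finset (List V) => e * T.card)
      (Finset.ext fun l => by simpa only [mem_filter, and_iff_right_iff_imp] using fun a => J1 a)
  have h1 : J'.card ≤ _ := rank_ge (S := Up X (fun u v => (φ u v : ZMod e)) univ) (φ := dv φ e)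
    (s := μ) fun b hb h0 => by
      have h2 := J3 (fun l => ∑ i, f (b (lf (fun u v => (φ u v : ZMod e)) l i)) *
          RatFunc.X ^ i.val)
        (mem_sup.2 fun l hl => sum_eq_zero fun i _ => by
          rw [mem_sup.1 hb _ fun a => hl (lf_fst _ l i ▸ ((K2 _).1 a).2), map_zero, zero_mul])
        (funext fun m => by
          by_cases hm : m ∈ X
          · refine (CovB_bd hX hc f μ f1 b hm).trans ?_
            simp [h0]
          · rw [bd_apply, if_neg hm, Pi.zero_apply])
      funext L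
      by_cases hL : L ∈ J'
      · obtain ⟨l, -, i, rfl⟩ := CovB_surj hX (mem_Up.1 ((K2 L).1 hL).1).1
        exact congrFun (f2 _ (congrFun h2 l)) i
      · exact mem_sup.1 hb L hL
  have h2 := rank_semi (Up X (fun u v => (φ u v : ZMod e)) univ) (dv φ e) hs μ
  have h3 := betti_eq (sq_of_cvx hX hφ cvx_self μ)
  have h4 := betti_eq (sq_of_cvx (cx_Up hX _ univ) (coc_dv hφ e) cvx_self s)
  have h5 := h F (RatFunc F) μ RatFunc.transcendental_X
  have h6 : (Up X (fun u v => (φ u v : ZMod e)) univ).card = e * X.card := by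
    rw [card_eq_sum_ones, CovB_sum hX hc]
    simp [mul_comm]
  rw [h6, ← h3, ← J2, mul_add, mul_left_comm, ← K1] at h4
  have h7 := Nat.mul_le_mul_left e h5
  omega

end Pool.Agent.HT
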