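import Pool.Agent.Lib.MP_dae8ad_gt.H.PcOps
import Pool.Agent.Lib.MP_dae8ad_gt.H.CovB

/-! The cyclic cover of a piece. -/

open Finset Classical

noncomputable section

namespace Pool.Agent.HT

variable {V V' : Type}

variable {A : Type} {M : Finset (List A)} {ψ : A → A → ℤ} {zM : List A → ℤ}

theorem PcCover_mem {G : Type} [AddCommGroup G] {X : Finset (List V)} {c : V → V → G}
    (hM : Cx M) {ι : A → V} (h0 : ∀ a b, [a, b] ∈ M → c (ι a) (ι b) = 0) {m : List A}
    (hm : m ∈ M) (hX : m.map ι ∈ X) (j : G) : m.map (fun a => (ι a, j)) ∈ UpS X c := by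
  refine ⟨by rwa [List.map_map], ?_⟩
  rw [List.pairwise_map, List.pairwise_iff_forall_sublist]
  intro a b hab
  rw [h0 a b ((hM m hm).2.2.1 _ (by simp) hab), add_zero]

theorem PcCover_eq {G : Type} [AddCommGroup G] {X : Finset (List V)} {c : V → V → G}
    (hX : Cx X) (hM : Cx M) {ι : A → V} (h0 : ∀ a b, [a, b] ∈ M → c (ι a) (ι b) = 0) {m : List A}
    (hm : m ∈ M) {L : List (V × G)} (hL : L ∈ UpS X c) (he : L.map Prod.fst = m.map ι) :
    ∃ j, L = m.map fun a => (ι a, j) := by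
  obtain ⟨x, m, rfl⟩ := List.exists_cons_of_ne_nil (hM m hm).1
  obtain _ | ⟨⟨v, j⟩, L⟩ := L
  · simp at he
  refine ⟨j, up_eq hX hL (PcCover_mem hM h0 hm (he ▸ hL.1) j) (by rwa [List.map_map])
    List.mem_cons_self ?_⟩
  have : v = ι x := (List.cons.inj he).1
  rw [this]
  exact List.mem_cons_self

/-- Sketch: `Y' = Up Y (fun u v => (Φ u v : ZMod e)) univ`, `Φ' = dv Φ e`, the copies are
`a ↦ (ι i a, j)` for `(i, j) : I × ZMod e ≃ Fin (e * card I)`; `hm_up`, `bz_up`, `card_up_univ`,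
`small_cover`. On a copy `Φ` is divisible by `e`, so its lifts stay in one sheet. -/
theorem pc_cover (hM : Cx M) {I : Type} [Fintype I] {e c D : ℕ} (he : 0 < e)
    (h : Pc M ψ zM I (fun _ => 1) (fun _ => (e : ℤ)) c D) :
    Null M ψ (e * Fintype.card I) (e * c) := by
  obtain ⟨V, Y, z, Φ, ι, Bad, hm, cy, coc, inj, nb, full, wt, ori, card, small, -⟩ := h
  have : NeZero e := ⟨he.ne'⟩
  have hc : CocS (Y : Set (List V)) fun u v => (Φ u v : ZMod e) := fun u v w h => by
    simp only [coc u v w h, Int.cast_add]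
  have h0 (i : I) (a b : A) (h : [a, b] ∈ M) : ((Φ (ι i a) (ι i b) : ℤ) : ZMod e) = 0 := by
    simp [wt i a b h]
  obtain ⟨E⟩ : Nonempty (Fin (e * Fintype.card I) ≃ I × ZMod e) :=
    ⟨(Fintype.equivFinOfCardEq (by simp [ZMod.card, mul_comm])).symm⟩
  have hB {i : I} {m : List A} (h : m ∈ M) :
      m.map (ι i) ∈ univ.biUnion fun i => M.image (List.map (ι i)) :=
    mem_biUnion.2 ⟨i, mem_univ _, mem_image.2 ⟨m, h, rfl⟩⟩
  have hw (σ : List (V × ZMod e)) : Whole Y (fun u v => (Φ u v : ZMod e)) univ σ :=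
    fun _ _ _ _ _ => mem_univ _
  have hb (k : Fin (e * Fintype.card I)) (m : List A) (h : m ∈ M) :
      bz (Up Y (fun u v => (Φ u v : ZMod e)) univ) (fun L => z (L.map Prod.fst))
        (m.map fun a => (ι (E k).1 a, (E k).2)) = 1 * zM m := by
    rw [bz_up hm.1 hc (mem_Up.2 ⟨PcCover_mem hM (h0 _) h (hm.2.2.1 (hB h)) _,
      fun _ _ => mem_univ _⟩) (hw _), List.map_map]
    exact ori _ m h
  refine ⟨V × ZMod e, Up Y (fun u v => (Φ u v : ZMod e)) univ, fun L => z (L.map Prod.fst),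
    dv Φ e, fun k a => (ι (E k).1 a, (E k).2), {a | a.1 ∈ Bad},
    hm_ext (fun _ => Iff.rfl) (fun L => ?_) (hm_up hm cy hc univ _ (fun _ h => h) fun _ _ => hw _).1,
    coc_dv coc e, fun k k' a b ha hb h => ?_, fun k a ha => nb _ a ha, fun L hL h => ?_,
    fun k a b h => ?_, fun k k' m h => (hb k m h).trans (hb k' m h).symm, ?_,
    small_cover hm.1 coc small e⟩
  · simp only [mem_Up, mem_biUnion, mem_image, mem_univ, true_and, implies_true, and_true]
    constructor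
    · intro hL
      obtain ⟨i, -, h⟩ := mem_biUnion.1 hL.1
      obtain ⟨m, h1, h2⟩ := mem_image.1 h
      obtain ⟨j, rfl⟩ := PcCover_eq hm.2.1 hM (h0 i) h1 hL h2.symm
      exact ⟨E.symm (i, j), m, h1, by simp only [E.apply_symm_apply]⟩
    · rintro ⟨k, m, h, rfl⟩
      exact PcCover_mem hM (h0 _) h (hB h) _
  · obtain ⟨h1, h2⟩ := Prod.mk.inj h
    obtain ⟨h3, h4⟩ := inj _ _ a b ha hb h1
    exact ⟨E.injective (Prod.ext h3 h2), h4⟩
  · have hL' := (mem_Up.1 hL).1
    obtain ⟨i, m, h1, h2⟩ := full _ hL'.1 fun v hv => by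
      obtain ⟨w, hw, rfl⟩ := List.mem_map.1 hv
      obtain ⟨k, a, ha, rfl⟩ := h w hw
      exact ⟨_, a, ha, rfl⟩
    obtain ⟨j, rfl⟩ := PcCover_eq hm.1 hM (h0 i) h1 hL' h2
    exact ⟨E.symm (i, j), m, h1, by simp only [E.apply_symm_apply]⟩
  · simp only [dv, wt _ a b h, add_sub_cancel_right]
    exact Int.mul_ediv_cancel_left _ (Int.natCast_ne_zero.2 he.ne')
  · have h := card_up_univ hm.1 hc fun l => ∃ v ∈ l, v ∈ Bad
    rw [ZMod.card] at h
    refine le_trans (card_le_card fun L => ?_) (h.trans_le (Nat.mul_le_mul_left e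
      (le_trans (card_le_card fun L => ?_) card)))
    · simp only [mem_filter]
      rintro ⟨h1, v, hv, h2⟩
      exact ⟨h1, v.1, List.mem_map_of_mem hv, h2⟩
    · simp only [mem_filter]
      exact id

end Pool.Agent.HT
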