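import Pool.Agent.Lib.MP_dae8ad_gt.H.PcGlue
import Pool.Agent.Lib.MP_dae8ad_gt.H.PcCover

/-! Averaging: from pieces to the stable statement. -/

open Finset Classical

noncomputable section

namespace Pool.Agent.HT

variable {V V' : Type}

variable {A : Type} {M : Finset (List A)} {ψ : A → A → ℤ} {zM : List A → ℤ}

/-- A rank one pattern. -/
def Bv (k : Fin 15) : ℤ := (if k.1 % 3 = 2 then -2 else 1) * if k.1 % 5 = 4 then -4 else 1

/-- A pattern that vanishes only at `0`. -/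
def av (k : Fin 15) : ℤ :=
  ![![0, 1, -1, 1, -1], ![1, 1, -1, 1, -2], ![-1, -2, 2, -2, 3]]
    (⟨k.1 % 3, by omega⟩ : Fin 3) (⟨k.1 % 5, by omega⟩ : Fin 5)

/-- The shift that matches the components at position `j ≠ 0`. -/
def sh (k j : Fin 15) : ℤ := 6 / av j * Bv j * (1 - Bv k)

theorem sh_spec : ∀ k j : Fin 15, j ≠ 0 →
    sh k j * av j + 6 * Bv k * Bv j = 6 * Bv j ∧ |sh k j| ≤ 336 := by
  decide

theorem av_spec : av 0 = 0 ∧ Bv 0 = 1 ∧ (∀ j : Fin 15, j ≠ 0 → 1 ≤ |av j|) ∧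
    ∀ j : Fin 15, 1 ≤ |Bv j| ∧ |Bv j| ≤ 8 := by
  decide

theorem Asm_ne {u v : ℤ} (hu : 400 ≤ u) (hv : v ≠ 0) (hv' : |v| ≤ 48) (j : Fin 15) :
    u * av j + v * Bv j ≠ 0 := by
  obtain ⟨h0, h1, h2, h3⟩ := av_spec
  by_cases hj : j = 0
  · rwa [hj, h0, h1, mul_zero, zero_add, mul_one]
  · intro h
    have e : |u * av j| = |v * Bv j| := by rw [eq_neg_of_add_eq_zero_left h, abs_neg]
    rw [abs_mul, abs_mul, abs_of_nonneg (by omega : 0 ≤ u)] at e
    have a1 : u * 1 ≤ u * |av j| := mul_le_mul_of_nonneg_left (h2 j hj) (by omega)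
    have a2 : |v| * |Bv j| ≤ 48 * 8 := mul_le_mul hv' (h3 j).2 (abs_nonneg _) (by norm_num)
    omega

theorem Asm_Bv (k : Fin 15) : 6 * Bv k ≠ 0 ∧ |6 * Bv k| ≤ 48 := by
  have h := av_spec.2.2.2 k
  rw [abs_mul]
  refine ⟨fun e => ?_, by norm_num; omega⟩
  have e' : Bv k = 0 := by omega
  rw [e'] at h
  exact absurd h.1 (by norm_num)

/-- The matched components. -/
abbrev Asm_J (W : ℕ) (L : Type) : Type :=
  (Fin (W + 672) × L × Fin 15) ⊕ (Fin W × Fin 15 × L × Fin 14)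

/-- The components that are used on the positive side. -/
def Asm_e1 (W : ℕ) (L : Type) : (Fin (W + 672) × Fin 15 × L) ⊕ Asm_J W L →
    (Fin (W + 672) × Option (Fin 15)) × (L × Fin 15)
  | .inl (u, k, i) => ((u, some k), (i, 0))
  | .inr (.inl (u, i, k)) => ((u, none), (i, k))
  | .inr (.inr (u, k, i, j)) => ((⟨u.1 + 336, by omega⟩, some k), (i, j.succ))

theorem Asm_sh (k : Fin 15) (j : Fin 14) : -336 ≤ sh k j.succ ∧ sh k j.succ ≤ 336 :=
  abs_le.1 (sh_spec k _ (Fin.succ_ne_zero j)).2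

/-- The components that are used on the negative side. -/
def Asm_e2 (W : ℕ) (L : Type) : Asm_J W L → (Fin (W + 672) × Fin 15) × (L × Fin 15)
  | .inl (u, i, k) => ((u, k), (i, 0))
  | .inr (u, k, i, j) =>
    ((⟨u.1 + (336 + sh k j.succ).toNat, by have := Asm_sh k j; omega⟩, k), (i, j.succ))

theorem Asm_inj1 (W : ℕ) (L : Type) : Function.Injective (Asm_e1 W L) := by
  rintro (⟨u, k, i⟩ | ⟨u, i, k⟩ | ⟨u, k, i, j⟩) (⟨u', k', i'⟩ | ⟨u', i', k'⟩ | ⟨u', k', i', j'⟩) h <;>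
    simp only [Asm_e1, Prod.mk.injEq, Option.some.injEq, Fin.mk.injEq, Fin.succ_inj, reduceCtorEq,
      and_false, false_and, Fin.succ_ne_zero, (Fin.succ_ne_zero _).symm, add_left_inj, and_true,
      Fin.val_inj] at h
  · obtain ⟨⟨rfl, rfl⟩, rfl⟩ := h
    rfl
  · obtain ⟨rfl, rfl, rfl⟩ := h
    rfl
  · obtain ⟨⟨rfl, rfl⟩, rfl, rfl⟩ := h
    rfl

theorem Asm_inj2 (W : ℕ) (L : Type) : Function.Injective (Asm_e2 W L) := by
  rintro (⟨u, i, k⟩ | ⟨u, k, i, j⟩) (⟨u', i', k'⟩ | ⟨u', k', i', j'⟩) h <;>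
    simp only [Asm_e2, Prod.mk.injEq, Fin.mk.injEq, Fin.succ_inj,
      and_false, Fin.succ_ne_zero, (Fin.succ_ne_zero _).symm, and_true] at h
  · obtain ⟨⟨rfl, rfl⟩, rfl⟩ := h
    rfl
  · obtain ⟨⟨h, rfl⟩, rfl, rfl⟩ := h
    obtain rfl : u = u' := Fin.ext (by omega)
    rfl

/-- The first parameter on the positive side. -/
def Asm_a {U : ℕ} (p : Fin U × Option (Fin 15)) : ℤ := p.2.elim 0 fun _ => 400 + p.1.1

theorem Asm_congr {I : Type} [Fintype I] {sg wt wt' : I → ℤ} {c c' D : ℕ}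
    (h : Pc M ψ zM I sg wt c D) (hw : ∀ i, wt i = wt' i) (hc : c = c') :
    Pc M ψ zM I sg wt' c' D := by
  rwa [← funext hw, ← hc]

/-- One averaging step with `U` shifts. Sketch: let `R u v` be the piece with weights
`d * (u * av j + v * Bv j)`. Positive side: the sum (`pc_sum`) over `Fin U × Option (Fin 15)` of
`R 0 6` for `none` and `R (400 + u) 6` for `some k`. Negative side (`pc_neg`): the sum over
`Fin U × Fin 15` of `R (400 + u) (6 * Bv k)`. Keep the components `((u, some k), (i, 0))` (weight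
`6 d`). Match `((u, none), (i, k))` with the negative `((u, k), (i, 0))` (weight `6 d Bv k`), and
for `j ≠ 0` and `336 ≤ u < U - 336` match `((u, some k), (i, j))` with the negative
`((u + sh k j, k), (i, j))`. So `J = (Fin U × L × Fin 15) ⊕ (Fin (U - 672) × Fin 15 × L ×
{j // j ≠ 0})`; all other components are dropped by `pc_drop` (at most `672 * 15 * 14 * card L`
on each side); then `pc_glue`. -/
theorem avg (hM : HM 3 M ∅ ∅ zM) (h0 : Small M ψ 0) {L : Type} [Fintype L] {d : ℤ} (hd : d ≠ 0)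
    {C D : ℕ} (hp : ∀ u v : ℤ, (∀ j, u * av j + v * Bv j ≠ 0) →
      Pc M ψ zM (L × Fin 15) (fun _ => 1) (fun p => d * (u * av p.2 + v * Bv p.2)) C D)
    (U : ℕ) (hU : 672 ≤ U) :
    Pc M ψ zM (Fin U × Fin 15 × L) (fun _ => 1) (fun _ => 6 * d)
      (31 * U * C + 282240 * D * Fintype.card L) D := by
  obtain ⟨W, rfl⟩ := Nat.exists_eq_add_of_le' hU
  obtain ⟨a0, b0, -, -⟩ := av_spec
  have n2 : ∀ (p : Fin (W + 672) × Fin 15) j, (400 + p.1.1 : ℤ) * av j + 6 * Bv p.2 * Bv j ≠ 0 :=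
    fun p => Asm_ne (by omega) (Asm_Bv p.2).1 (Asm_Bv p.2).2
  have p1 := pc_drop hM.1 (pc_sum hM.1 fun p : Fin (W + 672) × Option (Fin 15) =>
    hp (Asm_a p) 6 (by
      obtain ⟨u, _ | k⟩ := p
      · intro j
        change 0 * av j + 6 * Bv j ≠ 0
        rw [zero_mul, zero_add]
        exact (Asm_Bv j).1
      · exact Asm_ne (u := 400 + u.1) (by omega) (by norm_num) (by norm_num)))
    (Asm_e1 W L) (Asm_inj1 W L)
  have p2 := pc_drop hM.1 (pc_neg (pc_sum hM.1 fun p : Fin (W + 672) × Fin 15 =>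
    hp (400 + p.1.1) (6 * Bv p.2) (n2 p))) (Asm_e2 W L) (Asm_inj2 W L)
  refine Asm_congr (pc_glue hM h0 p1 p2 (fun _ => Or.inl rfl) (fun _ => add_neg_cancel 1) ?_
    fun j => mul_ne_zero hd (n2 _ _)) ?_ ?_
  · rintro (⟨u, i, k⟩ | ⟨u, k, i, j⟩)
    · change d * (0 * av k + 6 * Bv k) = d * ((400 + u.1) * av 0 + 6 * Bv k * Bv 0)
      rw [a0, b0]
      ring
    · change d * ((400 + (u.1 + 336 : ℕ)) * av j.succ + 6 * Bv j.succ) =
        d * ((400 + (u.1 + (336 + sh k j.succ).toNat : ℕ)) * av j.succ + 6 * Bv k * Bv j.succ)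
      have e := Asm_sh k j
      rw [Nat.cast_add, Nat.cast_add, Int.toNat_of_nonneg (by omega),
        ← (sh_spec k _ (Fin.succ_ne_zero j)).1]
      push_cast
      ring
  · rintro ⟨u, k, i⟩
    change d * ((400 + u.1) * av 0 + 6 * Bv 0) = 6 * d
    rw [a0, b0]
    ring
  · simp only [Fintype.card_prod, Fintype.card_sum, Fintype.card_option, Fintype.card_fin]
    generalize Fintype.card L = l
    have e1 : (W + 672) * (15 + 1) * (l * 15) =
        (W + 672) * (15 * l) + ((W + 672) * (l * 15) + W * (15 * (l * 14))) + 141120 * l := by ring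
    have e2 : (W + 672) * 15 * (l * 15) =
        (W + 672) * (l * 15) + W * (15 * (l * 14)) + 141120 * l := by ring
    rw [e1, e2, Nat.add_sub_cancel_left, Nat.add_sub_cancel_left]
    ring

/-- Sketch: choose `n` and `U` with `31 C / (15 * 2 n) < ε / 2`, `282240 D / (15 U) < ε / 2`; then
`avg` with `L = Fin (2 n)` and `pc_cover` with `e = 6 d`. -/
theorem asm (hM : HM 3 M ∅ ∅ zM) (h0 : Small M ψ 0) {C D : ℕ}
    (hp : ∀ n : ℕ, ∃ d : ℕ, 0 < d ∧ ∀ u v : ℤ, (∀ j, u * av j + v * Bv j ≠ 0) →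
      Pc M ψ zM (Fin (2 * n) × Fin 15) (fun _ => 1)
        (fun p => d * (u * av p.2 + v * Bv p.2)) C D) (ε : ℝ) (hε : 0 < ε) :
    ∃ n c : ℕ, (c : ℝ) < ε * n ∧ Null M ψ n c := by
  have h15 : 0 < 15 * ε := by positivity
  obtain ⟨n, hn⟩ := exists_nat_gt (31 * (C : ℝ) / (15 * ε))
  obtain ⟨W, hW⟩ := exists_nat_gt (564480 * (D : ℝ) / (15 * ε))
  rw [div_lt_iff₀ h15] at hn hW
  obtain ⟨d, hd, h⟩ := hp n
  have a := avg hM h0 (L := Fin (2 * n)) (d := d) (by omega) h (W + 672) (by omega)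
  refine ⟨_, _, ?_, pc_cover hM.1 (e := 6 * d) (by omega)
    (Asm_congr a (fun _ => by push_cast; rfl) rfl)⟩
  simp only [Fintype.card_prod, Fintype.card_fin]
  push_cast
  have d0 : (0 : ℝ) < 6 * d := by positivity
  have w0 : (0 : ℝ) < W + 672 := by positivity
  have n0 : (0 : ℝ) ≤ n := n.cast_nonneg
  have k1 := mul_lt_mul_of_pos_left hn w0
  have k2 : (564480 * (D : ℝ)) * n ≤ (W + 672) * (15 * ε) * n :=
    mul_le_mul_of_nonneg_right (by linarith) n0
  rw [mul_left_comm ε]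
  refine mul_lt_mul_of_pos_left ?_ d0
  linarith

end Pool.Agent.HT
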