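import Pool.Agent.Lib.MP_dae8ad_gt.H.EtaExt

/-! The curve `η` survives in the infinite cyclic cover of a null-cobordism; all admissible
periods are realised by normalised cocycles. -/

open Finset Classical

noncomputable section

namespace Pool.Agent.HT

variable {E : Finset (List A)} {ψ : A → A → ℤ} {V : Type} {W : Finset (List V)}
  {z : List V → ℤ} {Φ : V → V → ℤ} {ι : A → V}

namespace Eta

theorem dC_res (D : WD E W z Φ ι) (f : List V → ℤ → ℚ) {u v w : A} (h : [u, v, w] ∈ N ∪ E)
    (k : ℤ) : dC W Φ f [ι u, ι v, ι w] k =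
      res ι f v w (k + tau u v) - res ι f u w k + res ι f u v k := by
  rw [dC_three D.hm.1 Φ f (wd_mem D h), D.tau u v ((D.cx _ h).2.2.1 _ (by simp) (by simp))]
  rfl

theorem res_coc (D : WD E W z Φ ι) {f : List V → ℤ → ℚ} (hf : Z1 W Φ f) :
    CocC (N ∪ E) (res ι f) := by
  intro u v w h k
  have := hf _ (wd_mem D h) rfl k
  simp only [List.map_cons, List.map_nil] at this
  rw [dC_res D f h] at this
  linarith

theorem tau_coc (hE : Ext E ψ) {u v w : A} (h : [u, v, w] ∈ N ∪ E) :
    tau u w = tau u v + tau v w := by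
  rcases Finset.mem_union.1 h with h | h
  · exact tau_add (N_Tot h)
  · rw [tau_E hE.2.1 (ext_sub hE _ h [u, v] (by simp) (by simp)),
      tau_E hE.2.1 (ext_sub hE _ h [u, w] (by simp) (by simp)),
      tau_E hE.2.1 (ext_sub hE _ h [v, w] (by simp) (by simp)), add_zero]

theorem perP_lin (f g : P → P → ℚ) (a : ℚ) :
    (perP fun x y => f x y - a * g x y) = perP f - a * perP g := by
  simp only [perP]; ring

theorem survives (hE : Ext E ψ) (D : WD E W z Φ ι) :
    ∃ f, Z1 W Φ f ∧ perC (res ι f) ≠ 0 := by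
  by_contra hn
  push Not at hn
  obtain ⟨n, R, F, hn0, hR, hF, hFM⟩ := extends_u hE D fun f hf => congrFun (hn f hf) 0
  obtain ⟨ξ, hξ, hξN⟩ := exists_xiM hE
  have main : ∀ σ : ℤ, σ = 1 ∨ σ = -1 → ∃ w : List V → ℤ → ℚ,
      (∀ l ∈ W, ∀ k, dC W Φ w l k = F l k) ∧ ∀ k, perC (res ι w) k =
        n * ((if 0 ≤ k then 1 else 0) - if σ = 1 then 0 else 1) * perC ξ k := by
    intro σ hσ
    obtain ⟨w, D', hw1, hw2⟩ := half_inv D.hm.1 D.coc D.small σ hσ F (-R) (by
      intro l k h
      have := abs_le.1 (hR l k h)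
      rcases hσ with rfl | rfl <;> omega) hF
    refine ⟨w, hw2, ?_⟩
    set e : ℚ := if σ = 1 then 0 else 1 with he
    set θ : A → A → ℤ → ℚ := fun a b k =>
      res ι w a b k - n * (ξ a b k * (hv b (k + tau a b) - e)) with hθ
    have hc : CocC (N ∪ E) θ := by
      intro a b c h k
      have h1 := hw2 _ (wd_mem D h) k
      simp only [List.map_cons, List.map_nil] at h1
      rw [dC_res D w h, hFM a b c h k] at h1
      have h2 := hξ a b c h k
      have h3 : ξ a b k * ((hv b (k + tau a b) : ℚ) - hv c (k + tau a c)) =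
          xi0 (cell a k) (cell b (k + tau a b)) *
            ((hv b (k + tau a b) : ℚ) - hv c (k + tau a c)) := by
        by_cases h4 : hv b (k + tau a b) = hv c (k + tau a c)
        · rw [h4]; simp
        · rw [hξN a b (N_sub (cross hE h h4).1 (by simp) (by simp))]
      simp only [hθ]
      rw [add_assoc k, ← tau_coc hE h, h2]
      push_cast at h1
      linear_combination -h1 + n * h3
    have hp : ∀ k, perC θ k = perC (res ι w) k -
        n * ((if 0 ≤ k then 1 else 0) - e) * perC ξ k := by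
      intro k
      unfold perC
      rw [← perP_lin]
      apply pe_congr (fun _ => 0)
      intro x hx y hy hl
      simp only [hθ]
      rw [tau_S (mem_T.1 (eta_edge hx hy hl)).1, add_zero,
        hv_E hE (ext_sub hE _ (ext_T hE (eta_edge hx hy hl)) _ (by simp) (by simp))]
      push_cast
      ring
    have hz := perC_zero hE hc σ (min D' 0) hσ (by
      intro k hk
      have h1 : perC (res ι w) k = 0 := by
        have : ∀ l, w l k = 0 := by
          intro l
          by_contra h
          have := hw1 l k h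
          have := min_le_left D' 0
          omega
        simp [perC, perP, res, this]
      have h2 : ((if 0 ≤ k then 1 else 0) - e : ℚ) = 0 := by
        have := min_le_right D' 0
        rcases hσ with rfl | rfl
        · rw [he, if_neg (by omega), if_pos rfl, sub_self]
        · rw [he, if_pos (by omega), if_neg (by omega), sub_self]
      rw [hp, h1, h2]
      simp)
    intro k
    have := hz k
    rw [hp] at this
    linarith
  obtain ⟨w₁, a1, a2⟩ := main 1 (Or.inl rfl)
  obtain ⟨w₂, b1, b2⟩ := main (-1) (Or.inr rfl)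
  have h0 := congrFun (hn (fun l k => w₁ l k - w₂ l k) (by
    intro l hl _ k
    rw [dC_sub, a1 l hl, b1 l hl, sub_self])) 1
  have h1 : perC (res ι fun l k => w₁ l k - w₂ l k) 1 =
      perC (res ι w₁) 1 - perC (res ι w₂) 1 := by
    simp only [perC, perP, res]; ring
  have h2 : perC ξ 1 = -1 := by
    rw [← xi0_per]
    apply pe_congr (fun _ => 0)
    intro x hx y hy hl
    rw [hξN _ _ (T_N (eta_edge hx hy hl)), tau_S (mem_T.1 (eta_edge hx hy hl)).1]
    simp [cell]
  rw [h1, a2, b2, h2] at h0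
  norm_num at h0
  exact hn0 h0

theorem realise (hE : Ext E ψ) (D : WD E W z Φ ι) {y : ℤ → ℚ} (hy : Rec15 y) :
    ∃ f, Z1 W Φ f ∧ perC (res ι f) = y := by
  let I : Submodule ℚ (ℤ → ℚ) :=
    { carrier := {y | ∃ f, Z1 W Φ f ∧ perC (res ι f) = y}
      add_mem' := by
        rintro _ _ ⟨f, hf, rfl⟩ ⟨g, hg, rfl⟩
        refine ⟨fun l k => f l k + g l k, fun l hl h3 k => ?_, ?_⟩
        · have a := hf l hl h3 k
          have b := hg l hl h3 k
          simp only [dC, mul_add, Finset.sum_add_distrib] at a b ⊢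
          rw [a, b, add_zero]
        · funext k
          simp only [perC, perP, res, Pi.add_apply]; ring
      zero_mem' := ⟨fun _ _ => 0, fun _ _ _ _ => by simp [dC], by
        funext k; simp [perC, perP, res]⟩
      smul_mem' := by
        rintro c _ ⟨f, hf, rfl⟩
        refine ⟨fun l k => c * f l k, fun l hl h3 k => ?_, ?_⟩
        · have a := hf l hl h3 k
          simp only [dC, mul_left_comm _ c, ← Finset.mul_sum] at a ⊢
          rw [a, mul_zero]
        · funext k
          simp only [perC, perP, res, Pi.smul_apply, smul_eq_mul]; ring }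
  obtain ⟨f, hf, h0⟩ := survives hE D
  refine ideal15 I ?_ (a := perC (res ι f)) ⟨f, hf, rfl⟩ h0 (perC_rec hE (res_coc D hf)) hy
  rintro _ ⟨g, hg, rfl⟩
  refine ⟨fun l k => g l (k + 1), fun l hl h3 k => ?_, rfl⟩
  have := hg l hl h3 (k + 1)
  simp only [dC, add_right_comm k 1] at this ⊢
  exact this

end Eta

open Eta in
theorem cocs (hE : Ext E ψ) (D : WD E W z Φ ι) (y : ℤ → ℚ)
    (h3 : ∀ k, y k + y (k + 5) + y (k + 10) = 0)
    (h5 : ∀ k, y k + y (k + 3) + y (k + 6) + y (k + 9) + y (k + 12) = 0) :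
    ∃ c : V × ℤ → V × ℤ → ℚ, NCoc W Φ ι c y := by
  obtain ⟨f, hf, hy⟩ := realise hE D (y := y) (by
    intro k
    have a := h3 k
    have b := h3 (k + 3)
    have c := h5 (k + 1)
    simp only [add_assoc] at b c
    norm_num at b c
    linarith)
  obtain ⟨ξ, g, hg⟩ := norm_M hE (res_coc D hf)
  refine ⟨fun p q => f [p.1, q.1] p.2 - g (bk E ι q.1) q.2 + g (bk E ι p.1) p.2, ?_, ⟨ξ, ?_⟩, ?_⟩
  · rintro ⟨u, i⟩ ⟨v, j⟩ ⟨w, k⟩ ⟨h1, h2⟩
    simp only [List.map_cons, List.map_nil] at h1
    simp only [List.pairwise_cons, List.mem_cons, List.not_mem_nil, or_false, forall_eq_or_imp,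
      forall_eq] at h2
    have := hf _ h1 rfl i
    rw [dC_three D.hm.1 Φ f h1, ← h2.1.1] at this
    simp only
    linarith
  · rintro ⟨x, L⟩ ⟨x', L'⟩ ⟨⟨_, h1⟩, h2⟩
    have hR : Ru x L x' L' := (by simpa using h1 : ltZ (x, L) (x', L'))
    have h3 : [vt x L, vt x' L'] ∈ N := h2
    have h4 := hg _ _ h3 (L / 6)
    rw [← (lt6_of_Ru hR).2, cell_vt, cell_vt] at h4
    have h5 := Finset.mem_union_left E h3
    show f [ι (vt x L), ι (vt x' L')] (L / 6) - g (bk E ι (ι (vt x' L'))) (L' / 6) +
      g (bk E ι (ι (vt x L))) (L / 6) = ξ x x'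
    rw [bk_i D (wd_vert D h5 (by simp)), bk_i D (wd_vert D h5 (by simp))]
    simp only [res] at h4
    linarith
  · intro k
    rw [← hy, per_eq]
    apply pe_congr (fun x => -g (bk E ι (ι (.inl (x, 1)))) k)
    intro x _ x' _ _
    simp only [res]
    ring

end Pool.Agent.HT
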