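import Pool.Agent.Lib.MP_dae8ad_gt.H.Cov0

/-! Covering complexes. -/

open Finset Classical

noncomputable section

namespace Pool.Agent.HT

variable {V V' : Type}

variable {G : Type} [AddCommGroup G] {X : Finset (List V)} {c : V → V → G}

theorem Cov_pt (hX : Cx X) {L : List (V × G)} (h : L ∈ UpS X c) : ∃ a, a ∈ L :=
  List.exists_mem_of_ne_nil L (by simpa using (hX _ h.1).1)

theorem Cov_lf (hX : Cx X) {L : List (V × G)} (h : L ∈ UpS X c) :
    ∃ a ∈ L, lf c (L.map Prod.fst) a.2 = L := by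
  cases L with
  | nil => exact absurd rfl (hX _ h.1).1
  | cons a M => exact ⟨a, List.mem_cons_self, (eq_lf h).symm⟩

theorem inc_up (hX : Cx X) {L L' : List (V × G)} (h : L ∈ UpS X c) (h' : L' ∈ UpS X c)
    {a : V × G} (ha : a ∈ L) (ha' : a ∈ L') :
    inc (L.map Prod.fst) (L'.map Prod.fst) = inc L L' := by
  refine inc_map _ fun i _ e => ?_
  obtain ⟨a', h1, h2⟩ := List.mem_map.mp (e ▸ List.mem_map_of_mem (f := Prod.fst) ha')
  have h3 : a' = a :=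
    List.inj_on_of_nodup_map (hX _ h.1).2.1 ((List.eraseIdx_sublist L i).subset h1) ha h2
  rw [h3] at h1
  exact up_eq hX (ups_sub hX h (List.ne_nil_of_mem h1) (List.eraseIdx_sublist L i)) h' e h1 ha'

theorem Cov_inc (hX : Cx X) {I : Finset G} {σ : List (V × G)} (hσ : σ ∈ Up X c I) :
    ∀ L ∈ St (Up X c I) σ, ∀ L' ∈ St (Up X c I) σ,
      inc (L.map Prod.fst) (L'.map Prod.fst) = inc L L' := by
  intro L hL L' hL'
  obtain ⟨a, ha⟩ := Cov_pt hX (mem_Up.mp hσ).1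
  obtain ⟨h1, h2⟩ := mem_St.mp hL
  obtain ⟨h3, h4⟩ := mem_St.mp hL'
  exact inc_up hX (mem_Up.mp h1).1 (mem_Up.mp h3).1 (h2.subset ha) (h4.subset ha)

theorem st_up (hX : Cx X) (hc : CocS (X : Set (List V)) c) {I : Finset G} {σ : List (V × G)}
    (hσ : σ ∈ Up X c I) (hw : Whole X c I σ) :
    Set.BijOn (List.map Prod.fst) (St (Up X c I) σ : Set (List (V × G)))
      (St X (σ.map Prod.fst) : Set (List V)) := by
  obtain ⟨a, ha⟩ := Cov_pt hX (mem_Up.mp hσ).1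
  refine ⟨fun L hL => ?_, fun L hL L' hL' e => ?_, fun l hl => ?_⟩
  · obtain ⟨h1, h2⟩ := mem_St.mp hL
    exact mem_St.mpr ⟨(mem_Up.mp h1).1.1, h2.map _⟩
  · obtain ⟨h1, h2⟩ := mem_St.mp hL
    obtain ⟨h3, h4⟩ := mem_St.mp hL'
    exact up_eq hX (mem_Up.mp h1).1 (mem_Up.mp h3).1 e (h2.subset ha) (h4.subset ha)
  · obtain ⟨h1, h2⟩ := mem_St.mp hl
    obtain ⟨L, h3, h4, h5⟩ := up_ex' hX hc h1 (mem_Up.mp hσ).1 h2
    exact ⟨L, mem_St.mpr ⟨mem_Up.mpr ⟨h3, hw L h3 h5⟩, h5⟩, h4⟩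

theorem loc_up (hX : Cx X) (hc : CocS (X : Set (List V)) c) {I : Finset G} {σ : List (V × G)}
    (hσ : σ ∈ Up X c I) (hw : Whole X c I σ) {z : List V → ℤ} {z' : List (V × G) → ℤ}
    (hz : ∀ L ∈ St (Up X c I) σ, z (L.map Prod.fst) = z' L) :
    Loc (St (Up X c I) σ) z' ↔ Loc (St X (σ.map Prod.fst)) z := by
  exact loc_tr' _ (st_up hX hc hσ hw) (Cov_inc hX hσ) hz

theorem bz_up (hX : Cx X) (hc : CocS (X : Set (List V)) c) {I : Finset G} {σ : List (V × G)}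
    (hσ : σ ∈ Up X c I) (hw : Whole X c I σ) (z : List V → ℤ) :
    bz (Up X c I) (fun L => z (L.map Prod.fst)) σ = bz X z (σ.map Prod.fst) := by
  have h1 : σ ∈ St (Up X c I) σ := mem_St.mpr ⟨hσ, List.Sublist.refl _⟩
  rw [← bz_St _ σ _ h1, ← bz_St X (σ.map Prod.fst) z ((st_up hX hc hσ hw).1 h1)]
  exact (bz_tr _ (st_up hX hc hσ hw) (Cov_inc hX hσ) (fun _ _ => rfl) h1).symm

/-- Covers of homology manifolds. -/
theorem hm_up {n : ℕ} {B : Finset (List V)} {Bad : Set V} {z : List V → ℤ}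
    (h : HM n X B Bad z) (hy : Cy X B Bad z) (hc : CocS (X : Set (List V)) c) (I : Finset G)
    (Bad' : Set (V × G)) (h1 : ∀ a, a ∉ Bad' → a.1 ∉ Bad)
    (h2 : ∀ a, a ∉ Bad' → Whole X c I [a]) :
    HM n (Up X c I) (Up B c I) Bad' (fun L => z (L.map Prod.fst)) ∧
      Cy (Up X c I) (Up B c I) Bad' (fun L => z (L.map Prod.fst)) := by
  obtain ⟨hX, hB, hs, hl, hm⟩ := h
  have hu : Up B c I ⊆ Up X c I := fun L hL =>
    mem_Up.mpr ⟨ups_mono hs (mem_Up.mp hL).1, (mem_Up.mp hL).2⟩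
  have hw : ∀ σ : List (V × G), ∀ a ∈ σ, a ∉ Bad' → Whole X c I σ := fun σ a ha hb L hL h =>
    h2 a hb L hL ((List.singleton_sublist.mpr ha).trans h)
  have hi : ∀ σ ∈ Up X c I, σ ∈ Up B c I ↔ σ.map Prod.fst ∈ B := fun σ hσ =>
    ⟨fun h => (mem_Up.mp h).1.1, fun h =>
      mem_Up.mpr ⟨⟨h, (mem_Up.mp hσ).1.2⟩, (mem_Up.mp hσ).2⟩⟩
  refine ⟨⟨cx_Up hX c I, cx_Up hB c I, hu, fun L hL => ?_, fun σ hσ hb => ?_⟩, ?_⟩
  · simpa only [List.length_map] using hl _ (mem_Up.mp hL).1.1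
  · obtain ⟨a, ha⟩ := Cov_pt hX (mem_Up.mp hσ).1
    have h3 := hw σ a ha (hb a ha)
    obtain ⟨⟨l, h4, h5⟩, h6⟩ := hm _ (mem_Up.mp hσ).1.1 fun v hv => by
      obtain ⟨b, h7, rfl⟩ := List.mem_map.mp hv
      exact h1 b (hb b h7)
    obtain ⟨L, h7, rfl⟩ := (st_up hX hc hσ h3).2.2 h4
    refine ⟨⟨L, h7, by simpa only [List.length_map] using h5⟩, ?_⟩
    by_cases h8 : σ ∈ Up B c I
    · rw [if_pos ((hi σ hσ).mp h8)] at h6
      rw [if_pos h8]
      refine ⟨(loc_up hX hc hσ h3 fun _ _ => rfl).mpr h6.1,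
        (loc_up hB (fun u v w h => hc u v w (hs h)) h8
          (fun L hL => h3 L (ups_mono hs hL)) fun L hL => ?_).mpr h6.2⟩
      obtain ⟨h9, h10⟩ := mem_St.mp hL
      exact (bz_up hX hc (hu h9) (hw L a (h10.subset ha) (hb a ha)) z).symm
    · rw [if_neg fun e => h8 ((hi σ hσ).mpr e)] at h6
      rw [if_neg h8]
      exact (loc_up hX hc hσ h3 fun _ _ => rfl).mpr h6
  · rintro m hm' ⟨a, ha, hb⟩ h3
    rw [bz_up hX hc hm' (hw m a ha hb)]
    exact hy _ (mem_Up.mp hm').1.1 ⟨a.1, List.mem_map_of_mem ha, h1 a hb⟩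
      fun e => h3 ((hi m hm').mpr e)

theorem up_bound (hX : Cx X) {φ : V → V → ℤ} {w : ℕ} (hw : ∀ u v, [u, v] ∈ X → |φ u v| ≤ w)
    {L : List (V × ℤ)} (h : L ∈ UpS X φ) {a b : V × ℤ} (ha : a ∈ L) (hb : b ∈ L) :
    |a.2 - b.2| ≤ w := by
  have h1 : L.Pairwise fun a b => |a.2 - b.2| ≤ (w : ℤ) ∧ |b.2 - a.2| ≤ (w : ℤ) :=
    List.pairwise_iff_forall_sublist.mpr fun {a b} hs => by
      have h2 := List.pairwise_iff_forall_sublist.mp h.2 hs
      have h3 := hw a.1 b.1 ((hX _ h.1).2.2.1 _ (by simp) (hs.map Prod.fst))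
      rw [abs_sub_comm, h2, add_sub_cancel_left, and_self]
      exact h3
  exact List.Pairwise.forall_of_forall_of_flip (R := fun a b : V × ℤ => |a.2 - b.2| ≤ (w : ℤ))
    (fun x _ => by simp) (h1.imp And.left) (h1.imp And.right) ha hb

theorem exists_bound (X : Finset (List V)) (φ : V → V → ℤ) :
    ∃ w : ℕ, 1 ≤ w ∧ ∀ u v, [u, v] ∈ X → |φ u v| ≤ w := by
  let f : List V → ℕ := fun l => match l with
    | [u, v] => (φ u v).natAbs
    | _ => 0
  refine ⟨X.sup f + 1, by omega, fun u v h => ?_⟩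
  have h1 : (φ u v).natAbs ≤ X.sup f := Finset.le_sup (f := f) h
  rw [← Int.natCast_natAbs]
  omega

/-- A lift is determined by its projection, a position, and the sheet at that position. -/
theorem card_meet (hX : Cx X) {n : ℕ} (hn : ∀ l ∈ X, l.length ≤ n) (Z : Finset (List (V × G)))
    (J : Finset G) (hZ : ∀ L ∈ Z, L ∈ UpS X c ∧ ∃ a ∈ L, a.2 ∈ J) :
    Z.card ≤ X.card * n * J.card := by
  rcases Z.eq_empty_or_nonempty with rfl | ⟨L₀, h0⟩
  · exact Nat.zero_le _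
  have : Nonempty (V × G) := ⟨(hZ L₀ h0).2.choose⟩
  choose! a h1 h2 using fun L hL => (hZ L hL).2
  rw [mul_assoc, mul_comm]
  refine card_le_mul_card_image_of_maps_to (f := List.map Prod.fst)
    (fun L hL => (hZ L hL).1.1) _ fun l hl => ?_
  refine (card_le_card_of_injOn (t := l.toFinset ×ˢ J) a (fun L hL => ?_)
    fun L hL L' hL' e => ?_).trans ?_
  · obtain ⟨h3, h4⟩ := mem_filter.mp hL
    exact mem_product.mpr ⟨List.mem_toFinset.mpr (h4 ▸ List.mem_map_of_mem (h1 L h3)), h2 L h3⟩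
  · obtain ⟨h3, h4⟩ := mem_filter.mp hL
    obtain ⟨h5, h6⟩ := mem_filter.mp hL'
    exact up_eq hX (hZ L h3).1 (hZ L' h5).1 (h4.trans h6.symm) (h1 L h3) (e ▸ h1 L' h5)
  · rw [card_product]
    exact Nat.mul_le_mul_right _ ((List.toFinset_card_le l).trans (hn l hl))

theorem card_up (hX : Cx X) (I : Finset G) : (Up X c I).card ≤ X.card * I.card := by
  rw [← card_product]
  refine (card_le_card fun L hL => ?_).trans
    (card_image_le (s := X ×ˢ I) (f := fun p => lf c p.1 p.2))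
  obtain ⟨h1, h2⟩ := mem_Up.mp hL
  obtain ⟨a, ha, h3⟩ := Cov_lf hX h1
  exact mem_image.mpr ⟨(_, a.2), mem_product.mpr ⟨h1.1, h2 a ha⟩, h3⟩

theorem card_up_univ [Fintype G] (hX : Cx X) (hc : CocS (X : Set (List V)) c)
    (p : List V → Prop) :
    ((Up X c univ).filter fun L => p (L.map Prod.fst)).card =
      Fintype.card G * (X.filter p).card := by
  rw [mul_comm, ← card_univ, ← card_product]
  symm
  refine card_bij (fun q _ => lf c q.1 q.2) (fun q hq => ?_) (fun q hq q' hq' e => ?_)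
    fun L hL => ?_
  · obtain ⟨h1, h2⟩ := mem_filter.mp (mem_product.mp hq).1
    exact mem_filter.mpr ⟨mem_Up.mpr ⟨lf_mem hX hc h1 _, fun _ _ => mem_univ _⟩,
      by rwa [lf_fst]⟩
  · obtain ⟨l, i⟩ := q
    obtain ⟨l', i'⟩ := q'
    have h1 : l = l' := by simpa only [lf_fst] using congrArg (List.map Prod.fst) e
    subst h1
    cases l with
    | nil => exact absurd rfl (hX _ (mem_filter.mp (mem_product.mp hq).1).1).1
    | cons u r => exact congrArg _ (Prod.mk.inj (List.cons.inj e).1).2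
  · obtain ⟨h1, h2⟩ := mem_filter.mp hL
    obtain ⟨a, -, h3⟩ := Cov_lf hX (mem_Up.mp h1).1
    exact ⟨(_, a.2), mem_product.mpr ⟨mem_filter.mpr ⟨(mem_Up.mp h1).1.1, h2⟩, mem_univ _⟩, h3⟩

end Pool.Agent.HT
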