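import Pool.Agent.Lib.MP_dae8ad_gt.H.Tr

/-! Covering complexes. -/

open Finset Classical

noncomputable section

namespace Pool.Agent.HT

variable {V V' : Type}

variable {G : Type} [AddCommGroup G] {X : Finset (List V)} {c : V → V → G}

theorem lf_fst (c : V → V → G) (l : List V) (i : G) : (lf c l i).map Prod.fst = l := by
  cases l with
  | nil => rfl
  | cons u r => simp [lf, List.map_map, Function.comp_def]

theorem lf_mem (hX : Cx X) (hc : CocS (X : Set (List V)) c) {l : List V} (hl : l ∈ X) (i : G) :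
    lf c l i ∈ UpS X c := by
  refine ⟨by rw [lf_fst]; exact hl, ?_⟩
  cases l with
  | nil => exact List.Pairwise.nil
  | cons u r =>
    rw [lf, List.pairwise_cons, List.pairwise_map]
    refine ⟨fun b hb => ?_, List.pairwise_iff_forall_sublist.mpr fun {v w} h => ?_⟩
    · obtain ⟨v, -, rfl⟩ := List.mem_map.mp hb
      rfl
    · have h1 : [u, v, w] ∈ X := (hX _ hl).2.2.1 _ (by simp) (h.cons_cons u)
      show i + c u w = i + c u v + c v w
      rw [hc u v w h1, add_assoc]

theorem eq_lf {a : V × G} {L : List (V × G)} (h : a :: L ∈ UpS X c) :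
    a :: L = lf c ((a :: L).map Prod.fst) a.2 := by
  have h1 := (List.pairwise_cons.mp h.2).1
  rw [List.map_cons, lf, List.map_map]
  have h2 : L.map ((fun v => (v, a.2 + c a.1 v)) ∘ Prod.fst) = L.map id :=
    List.map_congr_left fun b hb => Prod.ext rfl (h1 b hb).symm
  rw [h2, List.map_id]

theorem ups_sub (hX : Cx X) {L L' : List (V × G)} (h : L ∈ UpS X c) (h0 : L' ≠ [])
    (h' : L'.Sublist L) : L' ∈ UpS X c :=
  ⟨(hX _ h.1).2.2.1 _ (by simpa using h0) (h'.map _), h.2.sublist h'⟩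

theorem ups_mono {B : Finset (List V)} (h : B ⊆ X) : UpS B c ⊆ UpS X c :=
  fun _ hL => ⟨h hL.1, hL.2⟩

theorem Cov0_up_eq (hX : Cx X) {L L' : List (V × G)} (h : L ∈ UpS X c) (h' : L' ∈ UpS X c)
    (he : L.map Prod.fst = L'.map Prod.fst) {a : V × G} (ha : a ∈ L) (ha' : a ∈ L') : L = L' := by
  cases L with
  | nil => simp at ha
  | cons b M =>
    cases L' with
    | nil => simp at ha'
    | cons b' M' =>
      have hn := (hX _ h.1).2.1
      have hn' := (hX _ h'.1).2.1
      rw [List.map_cons, List.nodup_cons] at hn hn'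
      have h1 : b.1 = b'.1 := (List.cons.inj he).1
      have h2 : b.2 = b'.2 := by
        rcases List.mem_cons.mp ha with e | e
        · rcases List.mem_cons.mp ha' with e' | e'
          · rw [← e, ← e']
          · exact absurd (List.mem_map.mpr ⟨a, e', by rw [e, h1]⟩) hn'.1
        · rcases List.mem_cons.mp ha' with e' | e'
          · exact absurd (List.mem_map.mpr ⟨a, e, by rw [e', h1]⟩) hn.1
          · have h3 := (List.pairwise_cons.mp h.2).1 a e
            have h4 := (List.pairwise_cons.mp h'.2).1 a e'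
            rw [h3, h1] at h4
            exact add_right_cancel h4
      rw [eq_lf h, eq_lf h', he, h2]

theorem cx_Up (hX : Cx X) (c : V → V → G) (I : Finset G) : Cx (Up X c I) := by
  intro L hL
  obtain ⟨h1, h2⟩ := mem_Up.mp hL
  have h0 : L ≠ [] := by simpa using (hX _ h1.1).1
  refine ⟨h0, (hX _ h1.1).2.1.of_map _, fun m hm hs =>
    mem_Up.mpr ⟨ups_sub hX h1 hm hs, fun a ha => h2 a (hs.subset ha)⟩, fun m hm hp => ?_⟩
  obtain ⟨a, ha⟩ := List.exists_mem_of_ne_nil L h0
  have h3 := (mem_Up.mp hm).1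
  exact Cov0_up_eq hX h3 h1 ((hX _ h1.1).2.2.2 _ h3.1 (hp.map _)) (hp.mem_iff.mpr ha) ha

/-- Two lifts of one simplex with a common vertex agree. -/
theorem up_eq (hX : Cx X) {L L' : List (V × G)} (h : L ∈ UpS X c) (h' : L' ∈ UpS X c)
    (he : L.map Prod.fst = L'.map Prod.fst) {a : V × G} (ha : a ∈ L) (ha' : a ∈ L') : L = L' :=
  Cov0_up_eq hX h h' he ha ha'

/-- A lift through a given point. -/
theorem up_ex (hX : Cx X) (hc : CocS (X : Set (List V)) c) {l : List V} (hl : l ∈ X) {v : V}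
    (hv : v ∈ l) (i : G) : ∃ L ∈ UpS X c, L.map Prod.fst = l ∧ (v, i) ∈ L := by
  cases l with
  | nil => simp at hv
  | cons u r =>
    rcases List.mem_cons.mp hv with e | e
    · refine ⟨_, lf_mem hX hc hl i, lf_fst _ _ _, ?_⟩
      rw [lf, e]
      exact List.mem_cons_self
    · refine ⟨_, lf_mem hX hc hl (i - c u v), lf_fst _ _ _, ?_⟩
      rw [lf]
      exact List.mem_cons_of_mem _ (List.mem_map.mpr ⟨v, e, by rw [sub_add_cancel]⟩)

/-- A lift through a given lifted face. -/
theorem up_ex' (hX : Cx X) (hc : CocS (X : Set (List V)) c) {l : List V} (hl : l ∈ X)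
    {σ : List (V × G)} (hσ : σ ∈ UpS X c) (h : (σ.map Prod.fst).Sublist l) :
    ∃ L ∈ UpS X c, L.map Prod.fst = l ∧ σ.Sublist L := by
  have h0 : σ ≠ [] := by simpa using (hX _ hσ.1).1
  obtain ⟨a, ha⟩ := List.exists_mem_of_ne_nil σ h0
  obtain ⟨L, h1, h2, h3⟩ := up_ex hX hc hl (h.subset (List.mem_map_of_mem ha)) a.2
  refine ⟨L, h1, h2, ?_⟩
  rw [← h2] at h
  obtain ⟨τ, h4, h5⟩ := List.sublist_map_iff.mp h
  have h6 : a.1 ∈ τ.map Prod.fst := h5 ▸ List.mem_map_of_mem ha
  obtain ⟨a', h7, h8⟩ := List.mem_map.mp h6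
  have h9 : a' = a := List.inj_on_of_nodup_map (hX _ h1.1).2.1 (h4.subset h7) h3 h8
  rw [h9] at h7
  rw [up_eq hX hσ (ups_sub hX h1 (List.ne_nil_of_mem h7) h4) h5 ha h7]
  exact h4

end Pool.Agent.HT
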