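import Pool.Agent.Lib.MP_dae8ad_gt.H.Defs

/-! Internal definitions: cochains, graded pieces, covers, gluing data, pieces. -/

open Finset Classical

noncomputable section

namespace Pool.Agent.HT

variable {V V' : Type}

/-- The transpose of `bd`. -/
def cb {R : Type} [CommRing R] (S : Finset (List V)) (φ : V → V → ℤ) (t : Rˣ) :
    (List V → R) →ₗ[R] (List V → R) :=
  LinearMap.pi fun l => if l ∈ S then
    ∑ m ∈ S, ((inc l m : R) * ((t ^ ex φ l m : Rˣ) : R)) • LinearMap.proj m else 0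

theorem bd_apply {R : Type} [CommRing R] (S : Finset (List V)) (φ : V → V → ℤ) (t : Rˣ)
    (c : List V → R) (m : List V) :
    bd S φ t c m = if m ∈ S then
      ∑ l ∈ S, (inc l m : R) * ((t ^ ex φ l m : Rˣ) : R) * c l else 0 := by
  unfold bd
  rw [LinearMap.pi_apply]
  split_ifs <;> simp [LinearMap.sum_apply]

theorem cb_apply {R : Type} [CommRing R] (S : Finset (List V)) (φ : V → V → ℤ) (t : Rˣ)
    (c : List V → R) (l : List V) :
    cb S φ t c l = if l ∈ S then
      ∑ m ∈ S, (inc l m : R) * ((t ^ ex φ l m : Rˣ) : R) * c m else 0 := by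
  unfold cb
  rw [LinearMap.pi_apply]
  split_ifs <;> simp [LinearMap.sum_apply]

theorem bz_apply (S : Finset (List V)) (c : List V → ℤ) (m : List V) :
    bz S c m = if m ∈ S then ∑ l ∈ S, inc l m * c l else 0 := by
  unfold bz
  rw [bd_apply]
  simp

theorem mem_sup {R : Type} [CommRing R] {S : Finset (List V)} {c : List V → R} :
    c ∈ sup R S ↔ ∀ l, l ∉ S → c l = 0 := by
  simp [sup, Submodule.mem_iInf]

theorem mem_St {X : Finset (List V)} {σ l : List V} : l ∈ St X σ ↔ l ∈ X ∧ σ.Sublist l := by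
  simp [St]

theorem betti_ext {K : Type} [Field K] {S S' : Finset (List V)} {φ : V → V → ℤ} {s : Kˣ}
    (h : ∀ l, l ∈ S ↔ l ∈ S') : betti S φ s = betti S' φ s := by
  rw [Finset.ext h]

theorem small_ext {S S' : Finset (List V)} {φ : V → V → ℤ} {c : ℕ}
    (h : ∀ l, l ∈ S ↔ l ∈ S') (h' : Small S φ c) : Small S' φ c := by
  rwa [← Finset.ext h]

theorem loc_ext {S S' : Finset (List V)} {z : List V → ℤ} (h : ∀ l, l ∈ S ↔ l ∈ S')
    (h' : Loc S z) : Loc S' z := by
  rwa [← Finset.ext h]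

theorem hm_ext {n : ℕ} {X X' B B' : Finset (List V)} {Bad : Set V} {z : List V → ℤ}
    (h : ∀ l, l ∈ X ↔ l ∈ X') (hB : ∀ l, l ∈ B ↔ l ∈ B') (h' : HM n X B Bad z) :
    HM n X' B' Bad z := by
  rwa [← Finset.ext h, ← Finset.ext hB]

/-- The lists of length `k` in `S`. -/
def lv (S : Finset (List V)) (k : ℕ) : Finset (List V) := S.filter fun l => l.length = k

/-- `S` is closed under faces inside `X`. -/
def Cl (S X : Finset (List V)) : Prop := S ⊆ X ∧ ∀ l ∈ S, ∀ m ∈ X, inc l m ≠ 0 → m ∈ S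

/-- `S` is a convex set of simplices of `X`. -/
def Cvx (X S : Finset (List V)) : Prop :=
  S ⊆ X ∧ ∀ l ∈ S, ∀ k ∈ S, ∀ m ∈ X, k.Sublist m → m.Sublist l → m ∈ S

/-- The square of the boundary operator vanishes. -/
def Sq {R : Type} [CommRing R] (S : Finset (List V)) (φ : V → V → ℤ) (t : Rˣ) : Prop :=
  ∀ c, bd S φ t (bd S φ t c) = 0

/-- The untwisted integral case. -/
def Sz (S : Finset (List V)) : Prop := ∀ c, bz S (bz S c) = 0

/-- Every cycle is a boundary. -/
def Acy {R : Type} [CommRing R] (S : Finset (List V)) (φ : V → V → ℤ) (t : Rˣ) : Prop :=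
  ∀ c, bd S φ t c = 0 → ∃ b, ∀ m ∈ S, c m = bd S φ t b m

/-- A cocycle with values in a group, on a set of simplices. -/
def CocS {G : Type} [AddCommGroup G] (X : Set (List V)) (c : V → V → G) : Prop :=
  ∀ u v w, [u, v, w] ∈ X → c u w = c u v + c v w

theorem lists_finite {α : Type} (s : Finset α) (n : ℕ) :
    {l : List α | l.length ≤ n ∧ ∀ a ∈ l, a ∈ s}.Finite := by
  refine ((List.finite_length_le s n).image (List.map Subtype.val)).subset ?_
  rintro l ⟨h1, h2⟩
  refine ⟨l.pmap Subtype.mk h2, by simpa using h1, ?_⟩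
  simp [List.map_pmap]

/-- The lists of length at most `n` with entries in `s`. -/
def lists {α : Type} (s : Finset α) (n : ℕ) : Finset (List α) := (lists_finite s n).toFinset

theorem mem_lists {α : Type} {s : Finset α} {n : ℕ} {l : List α} :
    l ∈ lists s n ↔ l.length ≤ n ∧ ∀ a ∈ l, a ∈ s := by
  simp [lists]

/-- The vertices that occur in `X`. -/
def vert (X : Finset (List V)) : Finset V := X.biUnion List.toFinset

/-- The covering complex defined by the cocycle `c`. -/
def UpS {G : Type} [AddCommGroup G] (X : Finset (List V)) (c : V → V → G) :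
    Set (List (V × G)) :=
  {L | L.map Prod.fst ∈ X ∧ L.Pairwise fun a b => b.2 = a.2 + c a.1 b.1}

/-- The part of the covering complex in the sheets `I`. -/
def Up {G : Type} [AddCommGroup G] (X : Finset (List V)) (c : V → V → G) (I : Finset G) :
    Finset (List (V × G)) :=
  (lists (vert X ×ˢ I) (X.sup List.length)).filter fun L => L ∈ UpS X c

theorem mem_Up {G : Type} [AddCommGroup G] {X : Finset (List V)} {c : V → V → G} {I : Finset G}
    {L : List (V × G)} : L ∈ Up X c I ↔ L ∈ UpS X c ∧ ∀ a ∈ L, a.2 ∈ I := by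
  simp only [Up, mem_filter, mem_lists, mem_product]
  constructor
  · rintro ⟨⟨_, h⟩, h'⟩
    exact ⟨h', fun a ha => (h a ha).2⟩
  · rintro ⟨h, h'⟩
    refine ⟨⟨?_, fun a ha => ⟨?_, h' a ha⟩⟩, h⟩
    · simpa using Finset.le_sup (f := List.length) h.1
    · simp only [vert, mem_biUnion, List.mem_toFinset]
      exact ⟨_, h.1, List.mem_map_of_mem ha⟩

/-- The whole star of `σ` in the covering complex lies in the sheets `I`. -/
def Whole {G : Type} [AddCommGroup G] (X : Finset (List V)) (c : V → V → G) (I : Finset G)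
    (σ : List (V × G)) : Prop :=
  ∀ L ∈ UpS X c, σ.Sublist L → ∀ a ∈ L, a.2 ∈ I

/-- The vertex map `q` identifies the subcomplexes `A`, `A'` of `Y` and nothing else. -/
structure Gl (Y A A' : Finset (List V)) (q : V → V') : Prop where
  cx : Cx Y
  cA : Cx A
  cA' : Cx A'
  sA : A ⊆ Y
  sA' : A' ⊆ Y
  disj : Disjoint A A'
  nd : ∀ l ∈ Y, (l.map q).Nodup
  uq : ∀ l ∈ Y, ∀ l' ∈ Y, (l.map q).Perm (l'.map q) →
    l = l' ∨ (l.map q = l'.map q ∧ ((l ∈ A ∧ l' ∈ A') ∨ (l ∈ A' ∧ l' ∈ A)))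
  ex1 : ∀ l ∈ A, ∃ l' ∈ A', l.map q = l'.map q
  ex2 : ∀ l' ∈ A', ∃ l ∈ A, l.map q = l'.map q

/-- The image of a chain under a vertex map. -/
def gz (Y : Finset (List V)) (q : V → V') (z : List V → ℤ) : List V' → ℤ :=
  fun L => ∑ l ∈ Y.filter (fun l => l.map q = L), z l

/-- Near the good vertices the boundary of `z` vanishes outside `B`. -/
def Cy (X B : Finset (List V)) (Bad : Set V) (z : List V → ℤ) : Prop :=
  ∀ m ∈ X, (∃ v ∈ m, v ∉ Bad) → m ∉ B → bz X z m = 0

/-- The lift of a list with first vertex in the sheet `i`. -/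
def lf {G : Type} [AddCommGroup G] (c : V → V → G) : List V → G → List (V × G)
  | [], _ => []
  | u :: r, i => (u, i) :: r.map fun v => (v, i + c u v)

/-- A piece: like `Null`, with a family of boundary copies of `M`, their orientation signs `sg`,
their weights `wt`, and a bound `D` for the number of simplices that meet one copy. -/
def Pc {A : Type} (M : Finset (List A)) (ψ : A → A → ℤ) (zM : List A → ℤ) (I : Type)
    [Fintype I] (sg wt : I → ℤ) (c D : ℕ) : Prop :=
  ∃ (V : Type) (Y : Finset (List V)) (z : List V → ℤ) (Φ : V → V → ℤ) (ι : I → A → V)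
    (Bad : Set V),
    HM 4 Y (univ.biUnion fun i => M.image (List.map (ι i))) Bad z ∧
    Cy Y (univ.biUnion fun i => M.image (List.map (ι i))) Bad z ∧ Coc Y Φ ∧
    (∀ i j a b, [a] ∈ M → [b] ∈ M → ι i a = ι j b → i = j ∧ a = b) ∧
    (∀ i a, [a] ∈ M → ι i a ∉ Bad) ∧
    (∀ l ∈ Y, (∀ v ∈ l, ∃ i a, [a] ∈ M ∧ ι i a = v) → ∃ i, ∃ m ∈ M, l = m.map (ι i)) ∧
    (∀ i a b, [a, b] ∈ M → Φ (ι i a) (ι i b) = wt i * ψ a b) ∧
    (∀ i, ∀ m ∈ M, bz Y z (m.map (ι i)) = sg i * zM m) ∧
    (Y.filter fun l => ∃ v ∈ l, v ∈ Bad).card ≤ c ∧ Small Y Φ c ∧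
    ∀ i, (Y.filter fun l => ∃ v ∈ l, ∃ a, [a] ∈ M ∧ ι i a = v).card ≤ D

end Pool.Agent.HT
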