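import Pool.Agent.Lib.MP_dae8ad_gt.H.D2

/-! Posets, their chain complexes and mapping tori; the data of a null-cobordism. -/

open Finset Classical

noncomputable section

namespace Pool.Agent.HT

variable {V V' : Type}

section poset
variable {Q : Type}

/-- The order complex. -/
def Ch [Fintype Q] (lt : Q → Q → Prop) : Finset (List Q) :=
  (lists univ (Fintype.card Q)).filter fun l => l ≠ [] ∧ l.Pairwise lt

theorem mem_Ch [Fintype Q] {lt : Q → Q → Prop} (irr : ∀ x, ¬lt x x) {l : List Q} :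
    l ∈ Ch lt ↔ l ≠ [] ∧ l.Pairwise lt := by
  simp only [Ch, mem_filter, mem_lists, mem_univ, implies_true, and_true, and_iff_right_iff_imp]
  rintro ⟨_, h⟩
  refine List.Nodup.length_le_card (h.imp ?_)
  rintro a b hab rfl
  exact irr _ hab

/-- The product of the signs of consecutive entries. -/
def pr (s : Q → Q → ℤ) : List Q → ℤ
  | x :: y :: l => s x y * pr s (y :: l)
  | _ => 1

/-- The orientation of the full flags. -/
def fz (s : Q → Q → ℤ) (n : ℕ) (l : List Q) : ℤ := if l.length = n + 1 then pr s l else 0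

/-- Dismantlable sets: their order complex is acyclic. -/
inductive Dis (lt : Q → Q → Prop) : Set Q → Prop
  | cone (J : Set Q) (u : Q) : u ∈ J → (∀ x ∈ J, x = u ∨ lt x u ∨ lt u x) → Dis lt J
  | down (J : Set Q) (v : Q) : v ∈ J → Dis lt (J \ {v}) → Dis lt {x | x ∈ J ∧ lt x v} → Dis lt J
  | up (J : Set Q) (v : Q) : v ∈ J → Dis lt (J \ {v}) → Dis lt {x | x ∈ J ∧ lt v x} → Dis lt J

/-- Open intervals; `none` is no bound. -/
def Iv (lt : Q → Q → Prop) (x y : Option Q) : Set Q :=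
  {u | (∀ a ∈ x, lt a u) ∧ ∀ c ∈ y, lt u c}

/-- A nonempty set that becomes dismantlable when one element is removed. -/
def Sph (lt : Q → Q → Prop) (J : Set Q) : Prop := J.Nonempty → ∃ v ∈ J, Dis lt (J \ {v})

/-- The face poset of an oriented `n`-manifold with boundary cells `b` and incidence signs `s`. -/
structure IC [Fintype Q] (lt : Q → Q → Prop) (rk : Q → ℕ) (s : Q → Q → ℤ) (b : Q → Prop)
    (n : ℕ) : Prop where
  tr : ∀ x y w, lt x y → lt y w → lt x w
  rk_lt : ∀ x y, lt x y → rk x < rk y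
  rk_le : ∀ x, rk x ≤ n
  low : ∀ x y, lt x y → b y → b x
  p0 : ∀ y, 0 < rk y → ∃ x, lt x y
  p1 : ∀ x y, lt x y → rk x + 1 < rk y → ∃ u, lt x u ∧ lt u y
  p2 : ∀ x, rk x < n → ∃ y, lt x y
  s0 : ∀ y, Sph lt (Iv lt none (some y))
  s1 : ∀ x y, lt x y → Sph lt (Iv lt (some x) (some y))
  s2 : ∀ x, ¬b x → Sph lt (Iv lt (some x) none)
  ball : ∀ x, b x → Dis lt (Iv lt (some x) none)
  unit : ∀ x y, lt x y → rk y = rk x + 1 → s x y = 1 ∨ s x y = -1
  c0 : ∀ y, rk y = 1 → ∑ x ∈ univ.filter (fun x => lt x y), s x y = 0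
  c1 : ∀ x y, lt x y → rk y = rk x + 2 →
    ∑ u ∈ univ.filter (fun u => lt x u ∧ lt u y), s x u * s u y = 0
  c2 : ∀ x, ¬b x → rk x + 1 = n → ∑ y ∈ univ.filter (fun y => lt x y), s x y = 0

/-- An automorphism of the data. -/
structure Aut (lt : Q → Q → Prop) (rk : Q → ℕ) (s : Q → Q → ℤ) (b : Q → Prop)
    (θ : Equiv.Perm Q) : Prop where
  lt : ∀ x y, lt (θ x) (θ y) ↔ lt x y
  rk : ∀ x, rk (θ x) = rk x
  s : ∀ x y, s (θ x) (θ y) = s x y
  b : ∀ x, b (θ x) ↔ b x

/-- The order of the mapping torus. -/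
def ltT (lt : Q → Q → Prop) (θ : Q → Q) (u v : Q × Fin 6) : Prop :=
  (u.2 = v.2 ∧ lt u.1 v.1) ∨
    (u.2.1 % 2 = 0 ∧ (v.2.1 = u.2.1 + 1 ∨ v.2.1 + 1 = u.2.1) ∧ (u.1 = v.1 ∨ lt u.1 v.1)) ∨
    (u.2 = 0 ∧ v.2 = 5 ∧ (θ u.1 = v.1 ∨ lt (θ u.1) v.1))

def rkT (rk : Q → ℕ) (u : Q × Fin 6) : ℕ := rk u.1 + u.2.1 % 2

/-- The direction of a vertical step. -/
def dir (r r' : Fin 6) : ℤ := if r = 0 ∧ r' = 5 then -1 else (r'.1 : ℤ) - r.1

def sT (rk : Q → ℕ) (s : Q → Q → ℤ) (u v : Q × Fin 6) : ℤ :=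
  if u.2 = v.2 then s u.1 v.1 else dir u.2 v.2 * (-1) ^ rk u.1

def tauT (u v : Q × Fin 6) : ℤ := if u.2 = 0 ∧ v.2 = 5 then -1 else 0

end poset

/-- The face relation of `P`. -/
def ltP (x y : P) : Prop := x.lt y = true

instance : DecidableRel ltP := fun x y => inferInstanceAs (Decidable (x.lt y = true))

def rkP : P → ℕ
  | .a _ _ => 0
  | .b _ _ => 0
  | .e _ _ => 1
  | .w _ => 1
  | .f _ => 2

/-- The incidence signs of `P`. -/
def sP : P → P → ℤ
  | .a _ _, .e _ _ => -1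
  | .b _ _, .e _ _ => 1
  | .a ε _, .w _ => if ε then 1 else -1
  | .b ε _, .w _ => if ε then 1 else -1
  | .e ε _, .f c => (if c.1 % 2 = 0 then 1 else -1) * if ε then -1 else 1
  | .w c', .f c => if c' = c then -1 else 1
  | _, _ => 0

/-- The inverse of the monodromy. -/
def P.hi : P → P
  | .a ε i => .a ε (i - 1)
  | .b ε j => .b ε (j - 1)
  | .e ε k => .e ε (k - 1)
  | .w c => .w (c - 2)
  | .f c => .f (c - 2)

/-- The monodromy as a permutation. -/
def hP : Equiv.Perm P where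
  toFun := P.h
  invFun := P.hi
  left_inv x := by cases x <;> simp [P.h, P.hi]
  right_inv x := by cases x <;> simp [P.h, P.hi]

/-- The incidence signs of the mapping torus, on the vertex type `A`. -/
def sA : A → A → ℤ
  | .inl u, .inl v => sT rkP sP u v
  | _, _ => 0

/-- The orientation of `Tot`. -/
def zTot : List A → ℤ := fz sA 3

/-- The order on the infinite cyclic cover `P × ℤ`; even heights are low. -/
def ltZ (u v : P × ℤ) : Prop :=
  (u.2 = v.2 ∧ ltP u.1 v.1) ∨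
    (u.2 % 2 = 0 ∧ (v.2 = u.2 + 1 ∨ v.2 + 1 = u.2) ∧ (u.1 = v.1 ∨ ltP u.1 v.1))

/-- The projection of the infinite cyclic cover. -/
def pz (u : P × ℤ) : A :=
  .inl ((hP ^ (-(u.2 / 6))) u.1, ⟨(u.2 % 6).toNat, by omega⟩)

/-- The point of height `r` over `x`, as a vertex of `Tot` with its sheet. -/
def kz (u : P × ℤ) : A × ℤ := (pz u, u.2 / 6)

/-- Chains in the infinite cyclic cover. -/
def ChZ : Set (List (P × ℤ)) := {L | L ≠ [] ∧ L.Pairwise ltZ}

/-- The lift of `N`. -/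
def NZ : Set (List (P × ℤ)) := {L | L ∈ ChZ ∧ L.map pz ∈ N}

/-- The reflection in the height `c / 2`. -/
def rf (c : ℤ) (u : P × ℤ) : P × ℤ := (u.1, c - u.2)

/-- The value of a cochain on `P` on the curve `η`. -/
def perP {G : Type} [AddCommGroup G] (g : P → P → G) : G :=
  g (.a false 0) (.e false 0) - g (.b false 0) (.e false 0) + g (.b false 0) (.e false 10) -
    g (.a false 1) (.e false 10) + g (.a false 1) (.e false 1) - g (.b false 1) (.e false 1) +
    g (.b false 1) (.e false 6) - g (.a false 0) (.e false 6)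

theorem per_eq {G : Type} [AddCommGroup G] (ψ : A → A → G) :
    per ψ = perP fun x y => ψ (.inl (x, 1)) (.inl (y, 1)) := rfl

/-- The data of a null-cobordism of `N ∪ E`. -/
structure WD (E : Finset (List A)) {V : Type} (W : Finset (List V)) (z : List V → ℤ)
    (Φ : V → V → ℤ) (ι : A → V) : Prop where
  hm : HM 4 W ((N ∪ E).image (List.map ι)) ∅ z
  coc : Coc W Φ
  cx : Cx (N ∪ E)
  inj : ∀ a b, [a] ∈ N ∪ E → [b] ∈ N ∪ E → ι a = ι b → a = b
  full : ∀ l ∈ W, (∀ v ∈ l, ∃ a, [a] ∈ N ∪ E ∧ ι a = v) → ∃ m ∈ N ∪ E, l = m.map ι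
  tau : ∀ a b, [a, b] ∈ N ∪ E → Φ (ι a) (ι b) = tau a b
  small : Small W Φ 0

/-- The point of height `r` over `x` in the infinite cyclic cover of the null-cobordism. -/
def kap {V : Type} (ι : A → V) (u : P × ℤ) : V × ℤ := (ι (pz u), u.2 / 6)

/-- A normalised cocycle on the infinite cyclic cover with periods `y`. -/
def NCoc {V : Type} {G : Type} [AddCommGroup G] (W : Finset (List V)) (Φ : V → V → ℤ)
    (ι : A → V) (c : V × ℤ → V × ℤ → G) (y : ℤ → G) : Prop :=
  CocS (UpS W Φ) c ∧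
  (∃ al : P → P → G, ∀ u v, [u, v] ∈ NZ → c (kap ι u) (kap ι v) = al u.1 v.1) ∧
  ∀ k, per (fun a b => c (ι a, k) (ι b, k)) = y k


end Pool.Agent.HT
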