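import Mathlib

/-! Ordered simplicial complexes, twisted homology, homology manifolds, null-cobordisms over the
integers, and the mapping torus of the doubled fibre surface of the torus knot `T(3,5)`. -/

open Finset Classical

noncomputable section

namespace Pool.Agent.HT

variable {V : Type}

/-- Ordered simplicial complex: a simplex is the list of its vertices. -/
def Cx (X : Finset (List V)) : Prop :=
  ∀ l ∈ X, l ≠ [] ∧ l.Nodup ∧ (∀ m, m ≠ [] → m.Sublist l → m ∈ X) ∧ ∀ m ∈ X, m.Perm l → m = l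

/-- Incidence number of `m` in the boundary of `l`. -/
def inc (l m : List V) : ℤ := ∑ i ∈ range l.length, if l.eraseIdx i = m then (-1) ^ i else 0

/-- An integral 1-cocycle. -/
def Coc (X : Finset (List V)) (φ : V → V → ℤ) : Prop :=
  ∀ u v w, [u, v, w] ∈ X → φ u w = φ u v + φ v w

/-- The value of `φ` on the edge from the first vertex of `l` to the first vertex of `m`. -/
def ex (φ : V → V → ℤ) : List V → List V → ℤ
  | u :: _, v :: _ => if u = v then 0 else φ u v
  | _, _ => 0

/-- The boundary operator on the chains of the set `U` of simplices, twisted by `t ^ φ`. -/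
def bd {R : Type} [CommRing R] (U : Finset (List V)) (φ : V → V → ℤ) (t : Rˣ) :
    (List V → R) →ₗ[R] (List V → R) :=
  LinearMap.pi fun m => if m ∈ U then
    ∑ l ∈ U, ((inc l m : R) * ((t ^ ex φ l m : Rˣ) : R)) • LinearMap.proj l else 0

/-- Chains that vanish outside `U`. -/
def sup (R : Type) [CommRing R] (U : Finset (List V)) : Submodule R (List V → R) :=
  ⨅ l ∈ {l | l ∉ U}, LinearMap.ker (LinearMap.proj l)

/-- The dimension of a space of chains. -/
def dimK {K : Type} [Field K] (C : Submodule K (List V → K)) : ℕ := Module.finrank K C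

/-- Total dimension of the homology of `U` with coefficients in a field, twisted by `s ^ φ`. -/
def betti {K : Type} [Field K] (U : Finset (List V)) (φ : V → V → ℤ) (s : Kˣ) : ℕ :=
  dimK (sup K U ⊓ LinearMap.ker (bd U φ s)) - dimK (LinearMap.range (bd U φ s))

/-- Over every field the homology twisted by a transcendental element has dimension `≤ c`. -/
def Small (U : Finset (List V)) (φ : V → V → ℤ) (c : ℕ) : Prop :=
  ∀ (F K : Type) [Field F] [Field K] [Algebra F K] (s : Kˣ),
    Transcendental F (s : K) → betti U φ s ≤ c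

/-- The untwisted integral boundary operator. -/
def bz (U : Finset (List V)) : (List V → ℤ) →ₗ[ℤ] (List V → ℤ) := bd U (fun _ _ => 0) 1

/-- The simplices that contain `σ`; their chains compute the local homology at `σ`. -/
def St (X : Finset (List V)) (σ : List V) : Finset (List V) := X.filter fun l => σ.Sublist l

/-- The integral homology of `U` is generated by the cycle `z`. -/
def Loc (U : Finset (List V)) (z : List V → ℤ) : Prop :=
  bz U z = 0 ∧ ∀ c, bz U c = 0 → ∃ b, ∃ k : ℤ, ∀ m ∈ U, c m = bz U b m + k * z m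

/-- Away from the vertices in `Bad`, `X` is an integral homology `n`-manifold with boundary `B`,
oriented by `z`, and `B` is a homology manifold oriented by the boundary of `z`. -/
def HM (n : ℕ) (X B : Finset (List V)) (Bad : Set V) (z : List V → ℤ) : Prop :=
  Cx X ∧ Cx B ∧ B ⊆ X ∧
  (∀ l ∈ X, l.length ≤ n + 1 ∧ |z l| = if l.length = n + 1 then 1 else 0) ∧
  ∀ σ ∈ X, (∀ v ∈ σ, v ∉ Bad) → (∃ l ∈ St X σ, l.length = n + 1) ∧
    if σ ∈ B then Loc (St X σ) 0 ∧ Loc (St B σ) (bz X z) else Loc (St X σ) z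

/-- `n` equally oriented copies of `(M, ψ)` form the boundary of an oriented homology 4-manifold
`(Y, Φ)` whose singular set meets at most `c` simplices and whose twisted homology has
dimension at most `c`. -/
def Null {V₀ : Type} (M : Finset (List V₀)) (ψ : V₀ → V₀ → ℤ) (n c : ℕ) : Prop :=
  ∃ (V : Type) (Y : Finset (List V)) (z : List V → ℤ) (Φ : V → V → ℤ) (ι : Fin n → V₀ → V)
    (Bad : Set V),
    HM 4 Y (univ.biUnion fun i => M.image (List.map (ι i))) Bad z ∧ Coc Y Φ ∧
    (∀ i j a b, [a] ∈ M → [b] ∈ M → ι i a = ι j b → i = j ∧ a = b) ∧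
    (∀ i a, [a] ∈ M → ι i a ∉ Bad) ∧
    (∀ l ∈ Y, (∀ v ∈ l, ∃ i a, [a] ∈ M ∧ ι i a = v) → ∃ i, ∃ m ∈ M, l = m.map (ι i)) ∧
    (∀ i a b, [a, b] ∈ M → Φ (ι i a) (ι i b) = ψ a b) ∧
    (∀ i j, ∀ m ∈ M, bz Y z (m.map (ι i)) = bz Y z (m.map (ι j))) ∧
    (Y.filter fun l => ∃ v ∈ l, v ∈ Bad).card ≤ c ∧ Small Y Φ c

/-- Cells of the double of the ribbon surface of the graph `K(3,5)`: two copies of the graph
(vertices `a`, `b`, edges `e`), joined along the boundary walk by edges `w` and squares `f`. -/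
inductive P where
  | a (ε : Bool) (i : Fin 3) : P
  | b (ε : Bool) (j : Fin 5) : P
  | e (ε : Bool) (k : Fin 15) : P
  | w (c : Fin 30) : P
  | f (c : Fin 30) : P
  deriving DecidableEq

instance finiteP : Finite P := @Finite.of_fintype P (derive_fintype% P)

/-- The edge at position `c` of the boundary walk. -/
def side (c : Fin 30) : ℕ := if c.1 % 2 = 0 then c.1 / 2 else (c.1 / 2 + 10) % 15

/-- The face relation. -/
def P.lt : P → P → Bool
  | .a ε i, .e ε' k => ε == ε' && k.1 % 3 == i.1
  | .b ε j, .e ε' k => ε == ε' && k.1 % 5 == j.1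
  | .a _ i, .w c => c.1 % 2 == 0 && c.1 / 2 % 3 == i.1
  | .b _ j, .w c => c.1 % 2 == 1 && c.1 / 2 % 5 == j.1
  | .a _ i, .f c => side c % 3 == i.1
  | .b _ j, .f c => side c % 5 == j.1
  | .e _ k, .f c => k.1 == side c
  | .w c', .f c => c' == c || c' == c + 1
  | _, _ => false

def P.le (x y : P) : Prop := x = y ∨ x.lt y = true

/-- The monodromy, of order 15. -/
def P.h : P → P
  | .a ε i => .a ε (i + 1)
  | .b ε j => .b ε (j + 1)
  | .e ε k => .e ε (k + 1)
  | .w c => .w (c + 2)
  | .f c => .f (c + 2)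

/-- The curve `η`, a 4-cycle in the first copy of the graph. -/
def a0 : List P :=
  [.a false 0, .e false 0, .b false 0, .e false 10, .a false 1, .e false 1, .b false 1, .e false 6]

/-- The parallel curve through the cells on one side of `η`. -/
def a1 : List P :=
  [.f 0, .w 1, .f 1, .w 2, .f 2, .w 3, .f 3, .e false 11, .f 22, .w 23, .f 23, .w 24, .f 24,
    .e false 12, .f 5, .w 6, .f 6, .e false 3, .f 17, .w 18, .f 18, .e false 9, .f 29, .w 0]

/-- Vertices: those of the mapping torus (a cell and a level), and free ones. -/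
abbrev A : Type := (P × Fin 6) ⊕ ℕ

/-- The product order of the cells with a zigzag hexagon (even levels are low), glued by `h`. -/
def lt6 : A → A → Prop
  | .inl (x, r), .inl (y, r') => (r = r' ∧ x.lt y = true) ∨
      (r.1 % 2 = 0 ∧ (r'.1 = r.1 + 1 ∨ r'.1 + 1 = r.1) ∧ x.le y) ∨ (r = 0 ∧ r' = 5 ∧ x.h.le y)
  | _, _ => False

/-- The mapping torus of `h`. -/
def Tot : Finset (List A) :=
  ((List.finite_length_le (P × Fin 6) 4).toFinset.image (List.map Sum.inl)).filter
    fun l => l ≠ [] ∧ l.Pairwise lt6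

/-- The class of the fibration over the circle. -/
def tau : A → A → ℤ
  | .inl (_, r), .inl (_, r') => if r = 0 ∧ r' = 5 then -1 else 0
  | _, _ => 0

/-- The solid torus: the annulus between `a0` and `a1`, times the levels 1, 2. -/
def S : Finset (List A) :=
  Tot.filter fun l => ∀ v ∈ l, ∃ x r, v = .inl (x, r) ∧ x ∈ a0 ++ a1 ∧ (r = 1 ∨ r = 2)

/-- The boundary torus of `S`. -/
def T : Finset (List A) :=
  S.filter fun l => (∃ r, ∀ v ∈ l, ∃ x, v = .inl (x, r)) ∨
    (∀ v ∈ l, ∃ x r, v = .inl (x, r) ∧ x ∈ a0) ∨ ∀ v ∈ l, ∃ x r, v = .inl (x, r) ∧ x ∈ a1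

/-- The exterior of `S` in the mapping torus. -/
def N : Finset (List A) := (Tot \ S) ∪ T

/-- The value of a cochain on the curve `η` at level 1. -/
def per {G : Type} [AddCommGroup G] (ψ : A → A → G) : G :=
  let g := fun (x y : P) => ψ (.inl (x, 1)) (.inl (y, 1))
  g (.a false 0) (.e false 0) - g (.b false 0) (.e false 0) + g (.b false 0) (.e false 10) -
    g (.a false 1) (.e false 10) + g (.a false 1) (.e false 1) - g (.b false 1) (.e false 1) +
    g (.b false 1) (.e false 6) - g (.a false 0) (.e false 6)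

/-- `E` is a knot exterior with boundary `T` and `ψ` is the generator of the first cohomology of
the zero surgery `E ∪ S`. -/
def Ext (E : Finset (List A)) (ψ : A → A → ℤ) : Prop :=
  (∃ z, HM 3 E T ∅ z) ∧ (∀ l ∈ E, (∀ v ∈ l, v.isLeft) → l ∈ T) ∧
  (∀ g : A → ℚ, (∀ u v, [u, v] ∈ E → g u = g v) → ∀ u v, [u] ∈ E → [v] ∈ E → g u = g v) ∧
  Coc (E ∪ S) ψ ∧ per ψ = 1 ∧
  (∀ φ, Coc E φ → ∃ k : ℤ, ∃ g : A → ℤ, ∀ u v, [u, v] ∈ E → φ u v = k * ψ u v + g v - g u) ∧
  Small E ψ 0 ∧ Small (E ∪ S) ψ 0

instance instFintypeP : Fintype P := derive_fintype% P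

end Pool.Agent.HT
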