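import Pool.Agent.Lib.MP_dae8ad_gt.H.Dict0

/-! The infinite cyclic cover of `Tot` in the coordinates `P × ℤ`. -/

open Finset Classical

noncomputable section

namespace Pool.Agent.HT

variable {V V' : Type}

theorem Dict_S {l : List A} : l ∈ S ↔ l ∈ Tot ∧
    ∀ v ∈ l, ∃ x r, v = .inl (x, r) ∧ x ∈ a0 ++ a1 ∧ (r = 1 ∨ r = 2) := by
  simp only [S, mem_filter]

theorem Dict_T {l : List A} : l ∈ T ↔ l ∈ S ∧ ((∃ r, ∀ v ∈ l, ∃ x, v = .inl (x, r)) ∨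
    (∀ v ∈ l, ∃ x r, v = .inl (x, r) ∧ x ∈ a0) ∨ ∀ v ∈ l, ∃ x r, v = .inl (x, r) ∧ x ∈ a1) := by
  simp only [T, mem_filter]

theorem Dict_N {l : List A} : l ∈ N ↔ (l ∈ Tot ∧ l ∉ S) ∨ l ∈ T := by
  rw [N, mem_union, mem_sdiff]

theorem mem_S {l : List A} : l ∈ S ↔ l ∈ Tot ∧ ∀ v ∈ l, [v] ∈ S := by
  rw [Dict_S]
  refine and_congr_right fun hl => forall₂_congr fun v hv => ?_
  rw [Dict_S, and_iff_right (vert_mem hm_Tot.1 hl hv), List.forall_mem_singleton]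

theorem vert_T {v : A} (h : [v] ∈ S) : [v] ∈ T := by
  obtain ⟨x, r, e, -⟩ := (Dict_S.1 h).2 v (List.mem_singleton_self v)
  exact Dict_T.2 ⟨h, Or.inl ⟨r, List.forall_mem_singleton.2 ⟨x, e⟩⟩⟩

theorem vert_N (v : P × Fin 6) : [Sum.inl v] ∈ N := by
  by_cases h : [Sum.inl v] ∈ S
  · exact Dict_N.2 (Or.inr (vert_T h))
  · exact Dict_N.2 (Or.inl ⟨mem_Tot'.2 ⟨List.cons_ne_nil _ _, List.pairwise_singleton _ _,
      List.forall_mem_singleton.2 ⟨v, rfl⟩⟩, h⟩)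

theorem vert_S_ht {u : P × ℤ} (h : [pz u] ∈ S) : u.2 % 6 = 1 ∨ u.2 % 6 = 2 := by
  obtain ⟨x, r, e, -, hr⟩ := (Dict_S.1 h).2 _ (List.mem_singleton_self _)
  have h1 : (u.2 % 6).toNat = r.1 := congrArg (fun p : P × Fin 6 => p.2.1) (Sum.inl_injective e)
  rcases hr with rfl | rfl
  · exact Or.inl (by have : (u.2 % 6).toNat = 1 := h1; omega)
  · exact Or.inr (by have : (u.2 % 6).toNat = 2 := h1; omega)

/-- The lift of a simplex of `S` to the sheet `k`. -/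
theorem sl_S {m : List A} (h : m ∈ S) (k : ℤ) : m.map (sl k) ∈ ChZ ∧ (m.map (sl k)).map pz = m ∧
    ∀ a ∈ m, kz (sl k a) = (a, k) ∧ ((sl k a).2 = 6 * k + 1 ∨ (sl k a).2 = 6 * k + 2) := by
  obtain ⟨ht, hv⟩ := Dict_S.1 h
  have h3 : ∀ a ∈ m, kz (sl k a) = (a, k) ∧
      ((sl k a).2 = 6 * k + 1 ∨ (sl k a).2 = 6 * k + 2) := fun a ha => by
    obtain ⟨x, r, rfl, -, hr⟩ := hv a ha
    refine ⟨kz_sl k _, ?_⟩
    rcases hr with rfl | rfl
    exacts [Or.inl rfl, Or.inr rfl]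
  have h4 : (m.map (sl k)).map kz = m.map fun a => (a, k) := by
    rw [List.map_map]
    exact List.map_congr_left fun a ha => (h3 a ha).1
  refine ⟨chZ_iff.2 ?_, ?_, h3⟩
  · rw [h4]
    refine ⟨by simpa [List.map_map, Function.comp_def] using ht,
      List.pairwise_map.2 (List.pairwise_of_forall_mem_list fun a ha b hb => ?_)⟩
    obtain ⟨x, r, rfl, -, hr⟩ := hv a ha
    obtain ⟨y, r', rfl, -⟩ := hv b hb
    rcases hr with rfl | rfl <;> simp [tau]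
  · rw [List.map_map]
    exact (List.map_congr_left fun a ha => congrArg Prod.fst (h3 a ha).1).trans (List.map_id _)

theorem eq_sl {L : List (P × ℤ)} (h : L ∈ ChZ) (hS : L.map pz ∈ S) :
    ∃ k, L = (L.map pz).map (sl k) := by
  obtain ⟨u, hu⟩ := List.exists_mem_of_ne_nil L h.1
  refine ⟨u.2 / 6, ?_⟩
  rw [List.map_map]
  refine ((List.map_congr_left fun v hv => ?_).trans (List.map_id _)).symm
  have h1 := abs_le.1 (chZ_ht h hu hv)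
  have h2 := vert_S_ht ((mem_S.1 hS).2 _ (List.mem_map_of_mem hu))
  have h3 := vert_S_ht ((mem_S.1 hS).2 _ (List.mem_map_of_mem hv))
  rw [show u.2 / 6 = v.2 / 6 by omega]
  exact sl_pz v

/-- A chain with a vertex of height not `1` or `2` modulo six lies over `N`. -/
theorem nz_of {L : List (P × ℤ)} (h : L ∈ ChZ) {u : P × ℤ} (hu : u ∈ L) (h1 : u.2 % 6 ≠ 1)
    (h2 : u.2 % 6 ≠ 2) : L ∈ NZ :=
  ⟨h, Dict_N.2 (Or.inl ⟨chZ_tot h, fun hS =>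
    (vert_S_ht ((mem_S.1 hS).2 _ (List.mem_map_of_mem hu))).elim h1 h2⟩)⟩

theorem Dict_inc {f : V → V'} (hf : Function.Injective f) (l m : List V) :
    inc (l.map f) (m.map f) = inc l m :=
  inc_map f fun _ _ e => List.map_injective_iff.2 hf e

theorem Dict_fst (L : List (P × ℤ)) : (L.map kz).map Prod.fst = L.map pz := List.map_map ..

/-- Stars in the cover of `N`: `L' ↦ L'.map pz` is a bijection onto the star in `N` (`chZ_iff`,
`ups_tot`, `up_ex'`, `up_eq`, `inc_up`), `L' ↦ L'.map f` is a bijection onto `R`. -/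
theorem loc_NZ {L : List (P × ℤ)} (hL : L ∈ NZ) (f : P × ℤ → V) (hf : Function.Injective f)
    {R : Finset (List V)} (hR : ∀ l, l ∈ R ↔ ∃ L' ∈ NZ, L.Sublist L' ∧ l = L'.map f)
    (h : Loc (St N (L.map pz)) 0) : Loc R 0 := by
  have hf' := List.map_injective_iff.2 hf
  have hk := List.map_injective_iff.2 kz_inj
  obtain ⟨u, hu⟩ := List.exists_mem_of_ne_nil L hL.1.1
  set R₀ := R.preimage (List.map f) hf'.injOn
  have h0 : ∀ l, l ∈ R₀ ↔ l ∈ NZ ∧ L.Sublist l := fun l => by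
    rw [mem_preimage, hR]
    exact ⟨fun ⟨L', h1, h2, h3⟩ => hf' h3 ▸ ⟨h1, h2⟩, fun h1 => ⟨l, h1.1, h1.2, rfl⟩⟩
  have h1 : ∀ l ∈ R₀, l.map kz ∈ UpS Tot tau ∧ kz u ∈ l.map kz := fun l hl =>
    ⟨chZ_iff.1 ((h0 l).1 hl).1.1, List.mem_map_of_mem (((h0 l).1 hl).2.subset hu)⟩
  refine (loc_tr' (S := R₀) (z := 0) (List.map f) ⟨fun l hl => mem_preimage.1 hl, hf'.injOn,
    fun l hl => ?_⟩ (fun l _ m _ => Dict_inc hf l m) fun _ _ => rfl).1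
    ((loc_tr' (List.map pz) ⟨fun l hl => ?_, fun l hl m hm e => ?_, fun l hl => ?_⟩
    (fun l hl m hm => ?_) fun _ _ => rfl).2 h)
  · obtain ⟨L', h2, h3, rfl⟩ := (hR l).1 hl
    exact ⟨L', (h0 L').2 ⟨h2, h3⟩, rfl⟩
  · exact mem_St.2 ⟨((h0 l).1 hl).1.2, ((h0 l).1 hl).2.map pz⟩
  · exact hk (up_eq hm_Tot.1 (h1 l hl).1 (h1 m hm).1 (by rw [Dict_fst, Dict_fst, e])
      (h1 l hl).2 (h1 m hm).2)
  · obtain ⟨h2, h3⟩ := mem_St.1 hl
    obtain ⟨L'', h4, h5, h6⟩ := up_ex' hm_Tot.1 (c := tau) coc_tau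
      ((Dict_N.1 h2).elim And.left fun h7 => (Dict_S.1 (Dict_T.1 h7).1).1) (chZ_iff.1 hL.1)
      (by rw [Dict_fst]; exact h3)
    obtain ⟨L', h7, rfl⟩ := ups_tot h4
    obtain ⟨l', h8, h9⟩ := List.sublist_map_iff.1 h6
    rw [Dict_fst] at h5
    exact ⟨L', (h0 L').2 ⟨⟨h7, h5 ▸ h2⟩, hk h9 ▸ h8⟩, h5⟩
  · rw [← Dict_fst, ← Dict_fst,
      inc_up hm_Tot.1 (h1 l hl).1 (h1 m hm).1 (h1 l hl).2 (h1 m hm).2, Dict_inc kz_inj]

end Pool.Agent.HT
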