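import Pool.Agent.Lib.MP_dae8ad_gt.H.PoP
import Pool.Agent.Lib.MP_dae8ad_gt.H.Cov

/-! The infinite cyclic cover of `Tot` in the coordinates `P × ℤ`. -/

open Finset Classical

noncomputable section

namespace Pool.Agent.HT

variable {V V' : Type}

/-- The point over a vertex of `Tot` in the sheet `k`. -/
def sl (k : ℤ) : A → P × ℤ
  | .inl (x, r) => ((hP ^ k) x, 6 * k + r.1)
  | .inr _ => (.w 0, 0)

theorem Dict0_div (k : ℤ) (r : Fin 6) : (6 * k + (r.1 : ℤ)) / 6 = k := by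
  have := r.2
  omega

theorem Dict0_can (k : ℤ) (x : P) : (hP ^ (-k)) ((hP ^ k) x) = x := by
  rw [← Equiv.Perm.mul_apply, ← zpow_add, neg_add_cancel, zpow_zero, Equiv.Perm.one_apply]

theorem Dict0_can' (k : ℤ) (x : P) : (hP ^ k) ((hP ^ (-k)) x) = x := by
  rw [← Equiv.Perm.mul_apply, ← zpow_add, add_neg_cancel, zpow_zero, Equiv.Perm.one_apply]

theorem Dict0_pz (k : ℤ) (x : P) (r : Fin 6) : pz ((hP ^ k) x, 6 * k + r.1) = .inl (x, r) := by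
  unfold pz
  refine congrArg Sum.inl (Prod.ext ?_ (Fin.ext ?_))
  · show (hP ^ (-((6 * k + (r.1 : ℤ)) / 6))) ((hP ^ k) x) = x
    rw [Dict0_div, Dict0_can]
  · show ((6 * k + (r.1 : ℤ)) % 6).toNat = r.1
    have := r.2
    omega

theorem kz_sl (k : ℤ) (v : P × Fin 6) : kz (sl k (.inl v)) = (.inl v, k) := by
  obtain ⟨x, r⟩ := v
  show (pz ((hP ^ k) x, 6 * k + r.1), (6 * k + (r.1 : ℤ)) / 6) = _
  rw [Dict0_pz, Dict0_div]

theorem sl_pz (u : P × ℤ) : sl (u.2 / 6) (pz u) = u := by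
  unfold pz
  refine Prod.ext ?_ ?_
  · exact Dict0_can' _ _
  · show 6 * (u.2 / 6) + (((u.2 % 6).toNat : ℕ) : ℤ) = u.2
    omega

theorem kz_inj : Function.Injective kz := by
  intro u v h
  have h1 : pz u = pz v := congrArg Prod.fst h
  have h2 : u.2 / 6 = v.2 / 6 := congrArg Prod.snd h
  rw [← sl_pz u, ← sl_pz v, h1, h2]

theorem Dict0_surj (u : P × ℤ) : ∃ (k : ℤ) (x : P) (r : Fin 6), u = ((hP ^ k) x, 6 * k + r.1) :=
  ⟨u.2 / 6, _, _, (sl_pz u).symm⟩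

theorem Dict0_zpow {β : Type} (F : P → P → β) (h : ∀ x y, F (hP x) (hP y) = F x y) (k : ℤ) :
    ∀ x y, F ((hP ^ k) x) ((hP ^ k) y) = F x y := by
  induction k using Int.induction_on with
  | zero => intro x y; rw [zpow_zero]; rfl
  | succ k ih =>
    intro x y
    rw [zpow_add_one, Equiv.Perm.mul_apply, Equiv.Perm.mul_apply, ih, h]
  | pred k ih =>
    intro x y
    rw [zpow_sub_one, Equiv.Perm.mul_apply, Equiv.Perm.mul_apply, ih, ← h]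
    simp

theorem ltP_zpow (k : ℤ) (x y : P) : ltP ((hP ^ k) x) ((hP ^ k) y) ↔ ltP x y := by
  exact iff_of_eq (Dict0_zpow ltP (fun x y => propext (aut_P.lt x y)) k x y)

theorem ltZ_iff (u v : P × ℤ) :
    ltZ u v ↔ lt6 (pz u) (pz v) ∧ v.2 / 6 = u.2 / 6 + tau (pz u) (pz v) := by
  obtain ⟨k, x, r, rfl⟩ := Dict0_surj u
  obtain ⟨k', y, r', rfl⟩ := Dict0_surj v
  rw [Dict0_pz, Dict0_pz]
  have hr := r.2
  have hr' := r'.2
  show (6 * k + (r.1 : ℤ) = 6 * k' + r'.1 ∧ ltP ((hP ^ k) x) ((hP ^ k') y)) ∨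
      ((6 * k + (r.1 : ℤ)) % 2 = 0 ∧
        (6 * k' + (r'.1 : ℤ) = 6 * k + r.1 + 1 ∨ 6 * k' + (r'.1 : ℤ) + 1 = 6 * k + r.1) ∧
        ((hP ^ k) x = (hP ^ k') y ∨ ltP ((hP ^ k) x) ((hP ^ k') y))) ↔
    ((r = r' ∧ ltP x y) ∨
      (r.1 % 2 = 0 ∧ (r'.1 = r.1 + 1 ∨ r'.1 + 1 = r.1) ∧ (x = y ∨ ltP x y)) ∨
      (r = 0 ∧ r' = 5 ∧ (hP x = y ∨ ltP (hP x) y))) ∧
    (6 * k' + (r'.1 : ℤ)) / 6 = (6 * k + (r.1 : ℤ)) / 6 + if r = 0 ∧ r' = 5 then -1 else 0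
  rw [Dict0_div, Dict0_div]
  have e0 : r = 0 ↔ r.1 = 0 := Fin.ext_iff
  have e5 : r' = 5 ↔ r'.1 = 5 := Fin.ext_iff
  have ee : r = r' ↔ r.1 = r'.1 := Fin.ext_iff
  have le1 : ∀ (j : ℤ) (a b : P), ((hP ^ j) a = (hP ^ j) b ∨ ltP ((hP ^ j) a) ((hP ^ j) b)) ↔
      (a = b ∨ ltP a b) := fun j a b => by
    rw [ltP_zpow, (hP ^ j).injective.eq_iff]
  by_cases h5 : r = 0 ∧ r' = 5
  · rw [if_pos h5]
    have h0 := e0.1 h5.1
    have h5' := e5.1 h5.2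
    constructor
    · rintro (⟨h1, -⟩ | ⟨-, h2, h3⟩)
      · omega
      · obtain rfl : k = k' + 1 := by omega
        rw [zpow_add_one, Equiv.Perm.mul_apply, le1] at h3
        exact ⟨Or.inr (Or.inr ⟨h5.1, h5.2, h3⟩), by omega⟩
    · rintro ⟨⟨h1, -⟩ | ⟨-, h2, -⟩ | ⟨-, -, h3⟩, hk⟩
      · have := ee.1 h1
        omega
      · omega
      · obtain rfl : k = k' + 1 := by omega
        refine Or.inr ⟨by omega, by omega, ?_⟩
        rw [zpow_add_one, Equiv.Perm.mul_apply, le1]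
        exact h3
  · rw [if_neg h5]
    have h5' : ¬(r.1 = 0 ∧ r'.1 = 5) := fun h => h5 ⟨e0.2 h.1, e5.2 h.2⟩
    constructor
    · rintro (⟨h1, h2⟩ | ⟨h1, h2, h3⟩)
      · obtain rfl : k = k' := by omega
        rw [ltP_zpow] at h2
        exact ⟨Or.inl ⟨ee.2 (by omega), h2⟩, by omega⟩
      · obtain rfl : k = k' := by omega
        rw [le1] at h3
        exact ⟨Or.inr (Or.inl ⟨by omega, by omega, h3⟩), by omega⟩
    · rintro ⟨⟨h1, h2⟩ | ⟨h1, h2, h3⟩ | ⟨h1, h2, -⟩, hk⟩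
      · obtain rfl : k = k' := by omega
        have := ee.1 h1
        exact Or.inl ⟨by omega, (ltP_zpow _ _ _).2 h2⟩
      · obtain rfl : k = k' := by omega
        exact Or.inr ⟨by omega, by omega, (le1 _ _ _).2 h3⟩
      · exact absurd ⟨h1, h2⟩ h5

theorem ltZ_irr (u : P × ℤ) : ¬ltZ u u := by
  rintro (⟨-, h⟩ | ⟨-, h, -⟩)
  · exact ic_P.irr _ h
  · omega

theorem ltZ_tr (u v w : P × ℤ) : ltZ u v → ltZ v w → ltZ u w := by
  rintro (⟨h1, h2⟩ | ⟨h1, h2, h3⟩) (⟨g1, g2⟩ | ⟨g1, g2, g3⟩)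
  · exact Or.inl ⟨h1.trans g1, ic_P.tr _ _ _ h2 g2⟩
  · refine Or.inr ⟨by omega, by omega, Or.inr ?_⟩
    rcases g3 with g3 | g3
    · rwa [← g3]
    · exact ic_P.tr _ _ _ h2 g3
  · refine Or.inr ⟨h1, by omega, Or.inr ?_⟩
    rcases h3 with h3 | h3
    · rwa [h3]
    · exact ic_P.tr _ _ _ h3 g2
  · omega

theorem Dict0_lift {α β : Type} (f : α → β) :
    ∀ l : List β, (∀ a ∈ l, ∃ v, a = f v) → ∃ m : List α, l = m.map f := by
  intro l
  induction l with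
  | nil => exact fun _ => ⟨[], rfl⟩
  | cons a l ih =>
    intro h
    obtain ⟨v, rfl⟩ := h a List.mem_cons_self
    obtain ⟨m, rfl⟩ := ih fun b hb => h b (List.mem_cons_of_mem _ hb)
    exact ⟨v :: m, rfl⟩

theorem mem_Tot' {l : List A} :
    l ∈ Tot ↔ l ≠ [] ∧ l.Pairwise lt6 ∧ ∀ a ∈ l, ∃ v, a = .inl v := by
  have irr : ∀ x, ¬ltT ltP hP x x := fun x hx =>
    lt_irrefl _ ((tor_rk ic_P aut_P).1 x x hx)
  rw [mem_Tot]
  constructor
  · rintro ⟨m, hm, rfl⟩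
    rw [mem_Ch irr] at hm
    refine ⟨by simpa using hm.1, ?_, ?_⟩
    · rw [List.pairwise_map]
      exact hm.2.imp fun h => (lt6_iff _ _).2 h
    · intro a ha
      obtain ⟨v, -, rfl⟩ := List.mem_map.1 ha
      exact ⟨v, rfl⟩
  · rintro ⟨h0, h1, h2⟩
    obtain ⟨m, rfl⟩ := Dict0_lift Sum.inl l h2
    refine ⟨m, (mem_Ch irr).2 ⟨by simpa using h0, ?_⟩, rfl⟩
    rw [List.pairwise_map] at h1
    exact h1.imp fun h => (lt6_iff _ _).1 h

theorem chZ_iff {L : List (P × ℤ)} : L ∈ ChZ ↔ L.map kz ∈ UpS Tot tau := by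
  show (L ≠ [] ∧ L.Pairwise ltZ) ↔ ((L.map kz).map Prod.fst ∈ Tot ∧
    (L.map kz).Pairwise fun a b => b.2 = a.2 + tau a.1 b.1)
  have e : (L.map kz).map Prod.fst = L.map pz := by
    rw [List.map_map]
    rfl
  rw [e, mem_Tot', List.pairwise_map, List.pairwise_map]
  constructor
  · rintro ⟨h0, h1⟩
    refine ⟨⟨by simpa using h0, h1.imp fun h => ((ltZ_iff _ _).1 h).1, ?_⟩,
      h1.imp fun h => ((ltZ_iff _ _).1 h).2⟩
    intro a ha
    obtain ⟨u, -, rfl⟩ := List.mem_map.1 ha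
    exact ⟨_, rfl⟩
  · rintro ⟨⟨h0, h1, -⟩, h2⟩
    exact ⟨by simpa using h0, (h1.and h2).imp fun h => (ltZ_iff _ _).2 h⟩

theorem chZ_tot {L : List (P × ℤ)} (h : L ∈ ChZ) : L.map pz ∈ Tot := by
  have h1 : (L.map kz).map Prod.fst ∈ Tot := (chZ_iff.1 h).1
  rw [List.map_map] at h1
  exact h1

theorem ups_tot {L' : List (A × ℤ)} (h : L' ∈ UpS Tot tau) : ∃ L ∈ ChZ, L' = L.map kz := by
  have h1 := (mem_Tot'.1 h.1).2.2
  obtain ⟨L, rfl⟩ := Dict0_lift kz L' fun a ha => by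
    obtain ⟨v, hv⟩ := h1 a.1 (List.mem_map_of_mem ha)
    exact ⟨sl a.2 (.inl v), by rw [kz_sl, ← hv]⟩
  exact ⟨L, chZ_iff.2 h, rfl⟩

theorem chZ_sub {L L' : List (P × ℤ)} (h : L ∈ ChZ) (h0 : L' ≠ []) (h' : L'.Sublist L) :
    L' ∈ ChZ := by
  exact ⟨h0, h.2.sublist h'⟩

theorem chZ_perm {L L' : List (P × ℤ)} (h : L ∈ ChZ) (h' : L' ∈ ChZ) (p : L.Perm L') : L = L' := by
  exact p.eq_of_pairwise
    (fun a b _ _ h1 h2 => absurd (ltZ_tr a b a h1 h2) (ltZ_irr a)) h.2 h'.2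

theorem chZ_ht {L : List (P × ℤ)} (h : L ∈ ChZ) {u v : P × ℤ} (hu : u ∈ L) (hv : v ∈ L) :
    |u.2 - v.2| ≤ 1 := by
  have h1 : L.Pairwise fun a b : P × ℤ => |a.2 - b.2| ≤ 1 := by
    refine h.2.imp ?_
    rintro a b (⟨h1, -⟩ | ⟨-, h1, -⟩) <;> rw [abs_le] <;> omega
  have : Std.Symm fun a b : P × ℤ => |a.2 - b.2| ≤ 1 := ⟨fun a b hab => by rwa [abs_sub_comm]⟩
  have h2 := List.Pairwise.forall_of_forall
    (R := fun a b : P × ℤ => |a.2 - b.2| ≤ 1) (l := L) (fun a _ => by simp) h1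
  exact h2 hu hv

theorem rf_rf (c : ℤ) (u : P × ℤ) : rf c (rf c u) = u := by
  simp [rf]

theorem Dict0_rf {c : ℤ} (hc : c % 2 = 0) {u v : P × ℤ} (h : ltZ u v) :
    ltZ (rf c u) (rf c v) := by
  rcases h with ⟨h1, h2⟩ | ⟨h1, h2, h3⟩
  · exact Or.inl ⟨by show c - u.2 = c - v.2; omega, h2⟩
  · refine Or.inr ⟨?_, ?_, h3⟩
    · show (c - u.2) % 2 = 0
      omega
    · show c - v.2 = c - u.2 + 1 ∨ c - v.2 + 1 = c - u.2
      omega

theorem chZ_rf {c : ℤ} (hc : c % 2 = 0) {L : List (P × ℤ)} (h : L ∈ ChZ) : L.map (rf c) ∈ ChZ := by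
  refine ⟨by simpa using h.1, ?_⟩
  rw [List.pairwise_map]
  exact h.2.imp fun h => Dict0_rf hc h

theorem sA_pz {u v : P × ℤ} (h : ltZ u v) : sA (pz u) (pz v) =
    if u.2 = v.2 then sP u.1 v.1 else (v.2 - u.2) * (-1) ^ rkP u.1 := by
  obtain ⟨k, x, r, rfl⟩ := Dict0_surj u
  obtain ⟨k', y, r', rfl⟩ := Dict0_surj v
  rw [Dict0_pz, Dict0_pz]
  have hr := r.2
  have hr' := r'.2
  have hh : 6 * k + (r.1 : ℤ) = 6 * k' + r'.1 ∨ ((6 * k + (r.1 : ℤ)) % 2 = 0 ∧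
      (6 * k' + (r'.1 : ℤ) = 6 * k + r.1 + 1 ∨ 6 * k' + (r'.1 : ℤ) + 1 = 6 * k + r.1)) := by
    rcases h with ⟨h1, -⟩ | ⟨h1, h2, -⟩
    · exact Or.inl h1
    · exact Or.inr ⟨h1, h2⟩
  show (if r = r' then sP x y else dir r r' * (-1) ^ rkP x) =
    if 6 * k + (r.1 : ℤ) = 6 * k' + r'.1 then sP ((hP ^ k) x) ((hP ^ k') y)
    else (6 * k' + (r'.1 : ℤ) - (6 * k + r.1)) * (-1) ^ rkP ((hP ^ k) x)
  have e0 : r = 0 ↔ r.1 = 0 := Fin.ext_iff
  have e5 : r' = 5 ↔ r'.1 = 5 := Fin.ext_iff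
  have ee : r = r' ↔ r.1 = r'.1 := Fin.ext_iff
  by_cases h1 : 6 * k + (r.1 : ℤ) = 6 * k' + r'.1
  · obtain rfl : k = k' := by omega
    rw [if_pos h1, if_pos (ee.2 (by omega)), Dict0_zpow sP aut_P.s]
  · have h2 : ¬r = r' := fun e => by
      have := ee.1 e
      omega
    have h3 : rkP ((hP ^ k) x) = rkP x :=
      Dict0_zpow (fun a _ => rkP a) (fun a _ => aut_P.rk a) k x x
    rw [if_neg h1, if_neg h2, h3]
    congr 1
    unfold dir
    split_ifs with h5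
    · have := e0.1 h5.1
      have := e5.1 h5.2
      omega
    · have h5' : ¬(r.1 = 0 ∧ r'.1 = 5) := fun h => h5 ⟨e0.2 h.1, e5.2 h.2⟩
      omega

theorem Dict0_step {c : ℤ} (hc : c % 2 = 0) {u v : P × ℤ} (h : ltZ u v) :
    sA (pz (rf c u)) (pz (rf c v)) = (if u.2 = v.2 then 1 else -1) * sA (pz u) (pz v) := by
  rw [sA_pz h, sA_pz (Dict0_rf hc h)]
  show (if c - u.2 = c - v.2 then sP u.1 v.1 else (c - v.2 - (c - u.2)) * (-1) ^ rkP u.1) = _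
  by_cases e : u.2 = v.2
  · rw [if_pos (by omega), if_pos e, if_pos e, one_mul]
  · rw [if_neg (by omega), if_neg e, if_neg e]
    ring

theorem Dict0_kind {u v : P × ℤ} (h : ltZ u v) :
    (u.2 = v.2 ∧ rkP u.1 < rkP v.1) ∨ (u.2 % 2 = 0 ∧ v.2 % 2 = 1) := by
  rcases h with ⟨h1, h2⟩ | ⟨h1, h2, -⟩
  · exact Or.inl ⟨h1, ic_P.rk_lt _ _ h2⟩
  · exact Or.inr ⟨h1, by omega⟩

/-- A chain of length four has exactly one vertical step (ranks of `P` are at most two, and a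
vertical step goes from an even to an odd height). -/
theorem z_rf {c : ℤ} (hc : c % 2 = 0) {L : List (P × ℤ)} (h : L ∈ ChZ) :
    zTot ((L.map (rf c)).map pz) = -zTot (L.map pz) := by
  unfold zTot fz
  rw [List.length_map, List.length_map, List.length_map]
  split_ifs with h4
  · match L, h4, h with
    | [a, b, d, e], _, h =>
      have hp : [a, b, d, e].Pairwise ltZ := h.2
      simp only [List.pairwise_cons, List.mem_cons, forall_eq_or_imp] at hp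
      have h1 : ltZ a b := hp.1.1
      have h2 : ltZ b d := hp.2.1.1
      have h3 : ltZ d e := hp.2.2.1.1
      have k1 := Dict0_kind h1
      have k2 := Dict0_kind h2
      have k3 := Dict0_kind h3
      have r4 := ic_P.rk_le e.1
      simp only [List.map_cons, List.map_nil, pr]
      rw [Dict0_step hc h1, Dict0_step hc h2, Dict0_step hc h3]
      split_ifs <;> first | omega | ring
  · rfl

end Pool.Agent.HT
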