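import Pool.Agent.Lib.MP_dae8ad_gt.H.EtaBase
import Pool.Agent.Lib.MP_dae8ad_gt.H.DefsEq

/-! The twisted boundary matrix, its rank over different fields, exactness of cochains. -/

open Finset Classical

noncomputable section

namespace Pool.Agent.HT.Eta

variable {V : Type}

theorem ex_add {Y : Finset (List V)} (hY : Cx Y) {φ : V → V → ℤ} (hφ : Coc Y φ)
    {l k m : List V} (hl : l ∈ Y) (h1 : k.Sublist l) (h2 : m.Sublist k) (hm : m ≠ []) :
    ex φ l m = ex φ l k + ex φ k m := by
  obtain ⟨w, c, rfl⟩ := List.exists_cons_of_ne_nil hm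
  cases k with
  | nil => simp at h2
  | cons v b =>
    cases l with
    | nil => simp at h1
    | cons u a =>
      simp only [ex]
      by_cases huv : u = v
      · subst huv; simp
      · by_cases hvw : v = w
        · subst hvw; simp
        · have a1 : (v :: b).Sublist a := by
            rcases List.sublist_cons_iff.1 h1 with h | ⟨r, hr, _⟩
            · exact h
            · exact absurd (List.cons.inj hr).1.symm huv
          have a2 : (w :: c).Sublist b := by
            rcases List.sublist_cons_iff.1 h2 with h | ⟨r, hr, _⟩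
            · exact h
            · exact absurd (List.cons.inj hr).1.symm hvw
          have a3 : [u, v, w].Sublist (u :: a) := by
            apply List.Sublist.cons_cons
            refine List.Sublist.trans ?_ a1
            apply List.Sublist.cons_cons
            exact (List.singleton_sublist.2 (by simp)).trans a2
          have a4 : [u, v, w] ∈ Y := (hY _ hl).2.2.1 _ (by simp) a3
          have a5 : u ≠ w := by
            have := (hY _ a4).2.1
            simp only [List.nodup_cons, List.mem_cons, not_or] at this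
            exact this.1.2.1
          rw [if_neg huv, if_neg hvw, if_neg a5, hφ u v w a4]

/-- The matrix of the twisted boundary operator. -/
def Dm {R : Type} [CommRing R] (Y : Finset (List V)) (φ : V → V → ℤ) (t : Rˣ) :
    Matrix Y Y R := fun m l => (inc l.1 m.1 : R) * ((t ^ ex φ l.1 m.1 : Rˣ) : R)

theorem sum_inc_inc {X : Finset (List V)} (hX : Cx X) {l : List V} (hl : l ∈ X) (m : List V) :
    ∑ k ∈ X, inc l k * inc k m = 0 := by
  rw [sum_inc_int]
  have h2 : cob (fun k => if k ∈ X then inc k m else 0) l = cob (fun k => inc k m) l := by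
    apply cob_congr
    intro k hk _
    by_cases hk0 : k = []
    · subst hk0
      have : inc ([] : List V) m = 0 := by simp [inc]
      simp [this]
    · rw [if_pos ((hX l hl).2.2.1 k hk0 hk)]
  rw [h2]
  have h3 : (fun k => inc k m) = cob (fun k => if k = m then (1 : ℤ) else 0) := by
    funext k; exact inc_eq_cob k m
  rw [h3, cob_cob]

theorem Dm_sq {R : Type} [CommRing R] {Y : Finset (List V)} (hY : Cx Y) {φ : V → V → ℤ}
    (hφ : Coc Y φ) (t : Rˣ) : Dm Y φ t * Dm Y φ t = 0 := by
  ext m l
  rw [Matrix.mul_apply, Matrix.zero_apply]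
  have h1 : ∀ k : Y, Dm Y φ t m k * Dm Y φ t k l =
      ((inc l.1 k.1 * inc k.1 m.1 : ℤ) : R) * ((t ^ ex φ l.1 m.1 : Rˣ) : R) := by
    intro k
    unfold Dm
    by_cases a : inc l.1 k.1 = 0
    · simp [a]
    · by_cases b : inc k.1 m.1 = 0
      · simp [b]
      · rw [ex_add hY hφ l.2 (inc_ne a).1 (inc_ne b).1 (hY _ m.2).1, zpow_add]
        push_cast
        ring
  simp only [h1]
  rw [← Finset.sum_mul, ← Int.cast_sum,
    Finset.sum_coe_sort Y (fun k => inc l.1 k * inc k m.1), sum_inc_inc hY l.2]
  simp

theorem bd_apply' {R : Type} [CommRing R] (S : Finset (List V)) (φ : V → V → ℤ) (t : Rˣ)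
    (c : List V → R) (m : List V) : bd S φ t c m =
      if m ∈ S then ∑ l ∈ S, (inc l m : R) * ((t ^ ex φ l m : Rˣ) : R) * c l else 0 := by
  unfold bd
  rw [LinearMap.pi_apply]
  split_ifs with h
  · rw [LinearMap.sum_apply]
    apply Finset.sum_congr rfl
    intro l _
    simp
  · simp

/-- Extension by zero. -/
def extz (K : Type) [Field K] (S : Finset (List V)) : (S → K) →ₗ[K] (List V → K) where
  toFun x l := if h : l ∈ S then x ⟨l, h⟩ else 0
  map_add' x y := by
    funext l
    by_cases h : l ∈ S <;> simp [h]
  map_smul' r x := by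
    funext l
    by_cases h : l ∈ S <;> simp [h]

theorem extz_inj (K : Type) [Field K] (S : Finset (List V)) : Function.Injective (extz K S) := by
  intro x y h
  funext l
  have := congrFun h l.1
  simpa [extz, l.2] using this

theorem bd_extz {K : Type} [Field K] (S : Finset (List V)) (φ : V → V → ℤ) (t : Kˣ)
    (c : List V → K) : bd S φ t c = extz K S ((Dm S φ t).mulVec fun l => c l.1) := by
  funext m
  rw [bd_apply']
  by_cases h : m ∈ S
  · rw [if_pos h]
    simp only [extz, LinearMap.coe_mk, AddHom.coe_mk, dif_pos h, Matrix.mulVec, dotProduct, Dm]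
    exact (Finset.sum_coe_sort S
      (fun l => (inc l m : K) * ((t ^ ex φ l m : Kˣ) : K) * c l)).symm
  · rw [if_neg h]
    simp [extz, h]

theorem range_bd {K : Type} [Field K] (S : Finset (List V)) (φ : V → V → ℤ) (t : Kˣ) :
    Module.finrank K ↥(LinearMap.range (bd S φ t)) = (Dm S φ t).rank := by
  have : LinearMap.range (bd S φ t) =
      (LinearMap.range (Dm S φ t).mulVecLin).map (extz K S) := by
    ext x
    constructor
    · rintro ⟨c, rfl⟩
      exact ⟨_, ⟨fun l => c l.1, rfl⟩, (bd_extz S φ t c).symm⟩
    · rintro ⟨_, ⟨c, rfl⟩, rfl⟩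
      refine ⟨extz K S c, ?_⟩
      rw [bd_extz]
      congr 2
      funext l
      simp [extz, l.2]
  rw [this, Matrix.rank]
  exact (Submodule.equivMapOfInjective _ (extz_inj K S) _).finrank_eq.symm

theorem ker_bd {K : Type} [Field K] (S : Finset (List V)) (φ : V → V → ℤ) (t : Kˣ) :
    Module.finrank K ↥(sup K S ⊓ LinearMap.ker (bd S φ t)) + (Dm S φ t).rank = S.card := by
  have : sup K S ⊓ LinearMap.ker (bd S φ t) =
      (LinearMap.ker (Dm S φ t).mulVecLin).map (extz K S) := by
    ext x
    constructor
    · rintro ⟨h1, h2⟩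
      refine ⟨fun l => x l.1, ?_, ?_⟩
      · have h3 : bd S φ t x = 0 := h2
        rw [bd_extz] at h3
        exact extz_inj K S (h3.trans (map_zero _).symm)
      · funext l
        by_cases h : l ∈ S
        · simp [extz, h]
        · have h4 : x ∈ sup K S := h1
          simp only [sup, Submodule.mem_iInf, Set.mem_ofPred_eq] at h4
          have h5 : x l = 0 := h4 l h
          simp [extz, h, h5]
    · rintro ⟨c, hc, rfl⟩
      refine ⟨?_, ?_⟩
      · show extz K S c ∈ sup K S
        simp only [sup, Submodule.mem_iInf, Set.mem_ofPred_eq]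
        intro l hl
        show extz K S c l = 0
        simp [extz, hl]
      · show bd S φ t (extz K S c) = 0
        rw [bd_extz]
        have h3 : (fun l : S => extz K S c l.1) = c := by
          funext l; simp [extz, l.2]
        have h4 : (Dm S φ t).mulVec c = 0 := hc
        rw [h3, h4, map_zero]
  rw [this, ← (Submodule.equivMapOfInjective _ (extz_inj K S) _).finrank_eq, Matrix.rank, add_comm,
    LinearMap.finrank_range_add_finrank_ker]
  simp

theorem betti_eq {K : Type} [Field K] (S : Finset (List V)) (φ : V → V → ℤ) (s : Kˣ) :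
    betti S φ s = S.card - 2 * (Dm S φ s).rank := by
  unfold betti dimK
  have := ker_bd S φ s
  rw [range_bd]
  omega

theorem cochain_exact {K : Type} [Field K] {Y : Finset (List V)} (hY : Cx Y) {φ : V → V → ℤ}
    (hφ : Coc Y φ) (t : Kˣ) (h : Y.card ≤ 2 * (Dm Y φ t).rank) (F : Y → K)
    (hF : (Dm Y φ t).transpose.mulVec F = 0) : ∃ W, (Dm Y φ t).transpose.mulVec W = F := by
  have h1 : LinearMap.range (Dm Y φ t).transpose.mulVecLin ≤
      LinearMap.ker (Dm Y φ t).transpose.mulVecLin := by
    rintro _ ⟨x, rfl⟩
    show (Dm Y φ t).transpose.mulVec ((Dm Y φ t).transpose.mulVec x) = 0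
    rw [Matrix.mulVec_mulVec, ← Matrix.transpose_mul, Dm_sq hY hφ]
    simp
  have h2 := LinearMap.finrank_range_add_finrank_ker (Dm Y φ t).transpose.mulVecLin
  have h3 : Module.finrank K ↥(LinearMap.range (Dm Y φ t).transpose.mulVecLin) =
      (Dm Y φ t).rank := Matrix.rank_transpose _
  have h4 := Submodule.eq_of_le_of_finrank_le h1 (by
    simp only [Module.finrank_fintype_fun_eq_card, Fintype.card_coe] at h2
    omega)
  have h5 : F ∈ LinearMap.range (Dm Y φ t).transpose.mulVecLin := by
    rw [h4]; exact hF
  exact h5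

end Pool.Agent.HT.Eta
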