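import Pool.Agent.Lib.MP_dae8ad_gt.H.EtaStair

/-! The cocycle dual to the core of a solid torus in the boundary extends when the core bounds. -/

open Finset Classical

noncomputable section

namespace Pool.Agent.HT.Eta

variable {V : Type}

/-- The cup product of `ξ` with the coboundary of `-H`. -/
def cupH (ξ : V → V → ℤ) (H : V → ℤ) : List V → ℤ
  | [p, q, r] => ξ p q * (H q - H r)
  | _ => 0

/-- The cup product of `χ` with the coboundary of `-H`. -/
def cupA (χ H : V → ℤ) : List V → ℤ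
  | [q, r] => χ q * (H q - H r)
  | _ => 0

/-- The product of `χ` and `H` on vertices. -/
def cupB (χ H : V → ℤ) : List V → ℤ
  | [q] => χ q * H q
  | _ => 0

theorem cob_two {R : Type} [CommRing R] (f : List V → R) (a b : V) :
    cob f [a, b] = f [b] - f [a] := by
  simp [cob, Finset.sum_range_succ, sub_eq_add_neg]

theorem cob_three {R : Type} [CommRing R] (f : List V → R) (a b c : V) :
    cob f [a, b, c] = f [b, c] - f [a, c] + f [a, b] := by
  simp [cob, Finset.sum_range_succ, sub_eq_add_neg]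

theorem dX_ne {X : Finset (List V)} {c : List V → ℤ} {m : List V} (h : dX X c m ≠ 0) :
    ∃ l ∈ X, m.Sublist l ∧ m.length + 1 = l.length ∧ c l ≠ 0 := by
  by_contra hn
  apply h
  apply dX_zero
  intro l hl hs hl'
  by_contra h0
  exact hn ⟨l, hl, hs, hl', h0⟩

theorem hm_interior {X B : Finset (List V)} {Bad : Set V} {z : List V → ℤ} {n : ℕ}
    (h : HM n X B Bad z) {τ : List V} (hτ : τ ∈ X) (hg : ∀ v ∈ τ, v ∉ Bad) (hB : τ ∉ B) :
    dX X z τ = 0 := by
  have h1 := (h.2.2.2.2 τ hτ hg).2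
  rw [if_neg hB] at h1
  exact loc_cycle h1 hτ (List.Sublist.refl _)

theorem slab_extend {X B : Finset (List V)} {Bad : Set V} {z : List V → ℤ} (h : HM 4 X B Bad z)
    (G : Set V) (hG : ∀ σ ∈ X, (∃ v ∈ σ, v ∈ G) → ∀ v ∈ σ, v ∉ Bad)
    (Q : Finset (List V)) (hQB : Q ⊆ B) (hQ : ∀ l ∈ Q, ∀ m, m ≠ [] → m.Sublist l → m ∈ Q)
    (hQG : ∀ l ∈ Q, ∀ v ∈ l, v ∈ G) (χ H : V → ℤ) (ξ : V → V → ℤ)
    (hχ : ∀ v, χ v = 0 ∨ χ v = 1) (hH : ∀ v, H v = 0 ∨ H v = 1) (hχG : ∀ v, χ v ≠ 0 → v ∈ G)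
    (hξ : ∀ p q, [p, q] ∈ Q → ξ p q = χ q - χ p)
    (hu : ∀ p q r, [p, q, r] ∈ B → ξ p q ≠ 0 → H q ≠ H r → [p, q, r] ∈ Q)
    (hI : ∀ m ∈ Q, ∀ τ ∈ B, m.Sublist τ → (∃ p ∈ m, ∃ q ∈ m, H p ≠ H q) →
      (∃ p ∈ m, ∃ q ∈ m, χ p ≠ χ q) → τ ∈ Q)
    (N : ℤ) (u : List V → ℤ) (hu1 : ∀ s ∈ B, u s = cupH ξ H s) (hu0 : ∀ s, s ∉ B → u s = 0)
    (hb : ∀ y : List V → ℤ,
      (∀ e ∈ X, e.length = 2 → y e ≠ 0 → e ∈ Q ∧ ∀ w ∈ e, χ w = 1 ∧ H w = 1) →
      (∀ v, dX X y [v] = 0) → ∃ c : List V → ℤ, (∀ τ ∈ X, c τ ≠ 0 → ∀ v ∈ τ, v ∈ G) ∧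
        ∀ e ∈ X, e.length = 2 → dX X c e = N * y e) :
    ∃ v : List V → ℤ, (∀ σ, v σ ≠ 0 → σ ∈ X ∧ σ ∉ B ∧ σ.length = 3 ∧ ∃ w ∈ σ, w ∈ G) ∧
      ∀ σ ∈ X, σ.length = 4 → cob (fun s => N * u s - v s) σ = 0 := by
  obtain rfl : u = fun s => if s ∈ B then cupH ξ H s else 0 := by
    funext s
    split_ifs with hs
    · exact hu1 s hs
    · exact hu0 s hs
  have hX : Cx X := h.1
  have hBX : B ⊆ X := h.2.2.1
  set zS : List V → ℤ := fun τ => if τ ∈ Q then dX X z τ else 0 with hzS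
  set ζ : List V → ℤ := dX X zS with hζ
  have ζQ : ∀ m, m ≠ [] → ζ m ≠ 0 → m ∈ Q := by
    intro m hm0 hm
    obtain ⟨l, _, hs, _, hl⟩ := dX_ne hm
    have : l ∈ Q := by
      by_contra hn
      exact hl (by simp [hzS, hn])
    exact hQ l this m hm0 hs
  have good : ∀ m ∈ Q, ∀ τ ∈ X, m.Sublist τ → τ ∉ B → dX X z τ = 0 := by
    intro m hm τ hτ hs hB
    obtain ⟨w, hw⟩ := List.exists_mem_of_ne_nil m (hX m (hBX (hQB hm))).1
    exact hm_interior h hτ (hG τ hτ ⟨w, hs.subset hw, hQG m hm w hw⟩) hB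
  have Z : ∀ m, (∃ p ∈ m, ∃ q ∈ m, H p ≠ H q) → (∃ p ∈ m, ∃ q ∈ m, χ p ≠ χ q) → ζ m = 0 := by
    intro m a b
    have hm0 : m ≠ [] := by
      obtain ⟨p, hp, _⟩ := a
      exact List.ne_nil_of_mem hp
    by_contra hn
    have hmQ := ζQ m hm0 hn
    apply hn
    rw [hζ, ← dX_dX hX z hm0]
    apply dX_congr
    intro l hl hs _
    by_cases hB : l ∈ B
    · simp [hzS, hI m hmQ l hB hs a b]
    · rw [good m hmQ l hl hs hB]
      have : l ∉ Q := fun hq => hB (hQB hq)
      simp [hzS, this]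
  set ζR : List V → ℤ := fun τ => if ∀ w ∈ τ, χ w = 1 then ζ τ else 0 with hζR
  set ρ : List V → ℤ := dX X ζR with hρ
  have ρs : ∀ e, e ≠ [] → ρ e ≠ 0 → e ∈ Q ∧ (∀ w ∈ e, χ w = 1) ∧ ∀ p ∈ e, ∀ q ∈ e, H p = H q := by
    intro e he0 he
    obtain ⟨l, _, hs, _, hl⟩ := dX_ne he
    have hR : ∀ w ∈ l, χ w = 1 := by
      by_contra hn
      exact hl (by simp only [hζR]; rw [if_neg hn])
    have hl' : ζ l ≠ 0 := by simpa only [hζR, if_pos hR] using hl
    have hl0 : l ≠ [] := by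
      rintro rfl
      exact he0 (List.sublist_nil.1 hs)
    refine ⟨hQ l (ζQ l hl0 hl') e he0 hs, fun w hw => hR w (hs.subset hw), ?_⟩
    intro p hp q hq
    by_contra hpq
    apply he
    rw [hρ, ← dX_dX hX zS he0]
    apply dX_congr
    intro τ _ hs' _
    simp only [hζR]
    split_ifs with hτ
    · rfl
    · push Not at hτ
      obtain ⟨w, hw, hw1⟩ := hτ
      exact (Z τ ⟨p, hs'.subset hp, q, hs'.subset hq, hpq⟩
        ⟨w, hw, p, hs'.subset hp, by rw [hR p (hs.subset hp)]; exact hw1⟩).symm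
  obtain ⟨c, hc1, hc2⟩ := hb (fun e => if ∀ w ∈ e, H w = 1 then -ρ e else 0) (by
      intro e _ hl hy
      have hH1 : ∀ w ∈ e, H w = 1 := by
        by_contra hn
        exact hy (by rw [if_neg hn])
      rw [if_pos hH1, neg_ne_zero] at hy
      have := ρs e (List.length_pos_iff.1 (by omega)) hy
      exact ⟨this.1, fun w hw => ⟨this.2.1 w hw, hH1 w hw⟩⟩) (by
      intro v
      by_cases hv : H v = 1
      · have : dX X (fun e => (-1) * ρ e) [v] = 0 := by
          rw [dX_mul, hρ, dX_dX hX ζR (by simp), mul_zero]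
        refine Eq.trans ?_ this
        apply dX_congr
        intro e _ hs hl
        by_cases h0 : ρ e = 0
        · simp [h0]
        · have := (ρs e (List.length_pos_iff.1 (by omega)) h0).2.2
          rw [if_pos]
          · ring
          · intro w hw
            rw [this w hw v (List.singleton_sublist.1 hs), hv]
      · apply dX_zero
        intro e _ hs _
        rw [if_neg]
        intro hh
        exact hv (hh v (List.singleton_sublist.1 hs)))
  apply staircase h G hG (fun s => N * (if s ∈ B then cupH ξ H s else 0)) c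
    (fun σ τ => (N * cupA χ H σ) * zS τ) (fun σ τ => (-N * cupB χ H σ) * ζR τ) hc1
  · intro σ hσ
    have hB : σ ∈ B := by
      by_contra hn
      exact hσ (by simp [hn])
    rw [if_pos hB] at hσ
    have h2 : cupH ξ H σ ≠ 0 := right_ne_zero_of_mul hσ
    unfold cupH at h2
    split at h2
    · rename_i p q r
      exact ⟨p, by simp, hQG _ (hu p q r hB (left_ne_zero_of_mul h2)
        (sub_ne_zero.1 (right_ne_zero_of_mul h2))) p (by simp)⟩
    · exact absurd rfl h2
  · intro σ τ _ hσ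
    have h2 : cupB χ H σ ≠ 0 := right_ne_zero_of_mul (left_ne_zero_of_mul hσ)
    unfold cupB at h2
    split at h2
    · rename_i q
      exact ⟨q, by simp, hχG q (left_ne_zero_of_mul h2)⟩
    · exact absurd rfl h2
  · intro σ τ _ hσ
    have h2 : cupA χ H σ ≠ 0 := right_ne_zero_of_mul (left_ne_zero_of_mul hσ)
    unfold cupA at h2
    split at h2
    · rename_i q r
      exact ⟨q, by simp, hχG q (left_ne_zero_of_mul h2)⟩
    · exact absurd rfl h2
  · intro v _ e he hv hl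
    rw [dX_mul, hc2 e he hl, ← hρ]
    by_cases h0 : ρ e = 0
    · simp [h0]
    · have := ρs e (List.length_pos_iff.1 (by omega)) h0
      simp only [cupB]
      rw [this.2.1 v hv]
      rcases hH v with h1 | h1
      · rw [if_neg, h1]
        · ring
        · intro hh
          rw [hh v hv] at h1
          exact one_ne_zero h1
      · rw [if_pos, h1]
        · ring
        · intro w hw
          rw [this.2.2 w hw v hv, h1]
  · intro σ _ hl τ _ hs _
    obtain ⟨q, r, rfl⟩ := List.length_eq_two.1 hl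
    rw [dX_mul, cob_two, ← hζ]
    have hq : q ∈ τ := hs.subset (by simp)
    have hr : r ∈ τ := hs.subset (by simp)
    simp only [cupA, cupB, hζR]
    split_ifs with hR
    · rw [hR q hq, hR r hr]; ring
    · by_cases hqr : H q = H r
      · rw [hqr]; ring
      · rcases hχ q with h1 | h1
        · rw [h1]; ring
        · push Not at hR
          obtain ⟨w, hw, hw1⟩ := hR
          rw [Z τ ⟨q, hq, r, hr, hqr⟩ ⟨w, hw, q, hq, by rw [h1]; exact hw1⟩]
          ring
  · intro σ _ hl τ hτ hs _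
    obtain ⟨p, q, r, rfl⟩ := List.length_eq_three.1 hl
    rw [cob_three]
    simp only [cupA, cupH, hzS]
    by_cases hτQ : τ ∈ Q
    · have h3 : [p, q, r] ∈ Q := hQ τ hτQ _ (by simp) hs
      rw [if_pos hτQ, if_pos (hQB h3), hξ p q (hQ _ h3 _ (by simp) (by simp))]
      ring
    · rw [if_neg hτQ]
      simp only [mul_zero, sub_self, add_zero]
      by_contra hn
      have h1 := right_ne_zero_of_mul (left_ne_zero_of_mul hn)
      have hB : [p, q, r] ∈ B := by
        by_contra hn'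
        exact h1 (by rw [if_neg hn'])
      rw [if_pos hB] at h1
      have h2 := sub_ne_zero.1 (right_ne_zero_of_mul h1)
      have h3 := hu p q r hB (left_ne_zero_of_mul h1) h2
      have h4 := left_ne_zero_of_mul h1
      rw [hξ p q (hQ _ h3 _ (by simp) (by simp))] at h4
      by_cases hτB : τ ∈ B
      · exact hτQ (hI _ h3 τ hτB hs ⟨q, by simp, r, by simp, h2⟩
          ⟨q, by simp, p, by simp, sub_ne_zero.1 h4⟩)
      · exact right_ne_zero_of_mul hn (good _ h3 τ hτ hs hτB)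

end Pool.Agent.HT.Eta
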