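import Pool.Agent.Lib.MP_dae8ad_gt.H.LocR
import Pool.Agent.Lib.MP_dae8ad_gt.H.Ses
import Pool.Agent.Lib.MP_dae8ad_gt.H.EtaRank
import Pool.Agent.Lib.MP_dae8ad_gt.H.EtaSlab

/-! Duality for acyclic homology manifolds, by a staircase in the double complex of pairs. -/

open Finset Classical

noncomputable section

namespace Pool.Agent.HT

variable {V : Type}

namespace Eta

variable {K : Type} [Field K]

/-- The twisted boundary of `c`, computed in `X`. -/
def dT (X : Finset (List V)) (φ : V → V → ℤ) (t : Kˣ) (c : List V → K) (m : List V) : K :=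
  ∑ l ∈ X, (inc l m : K) * ((t ^ ex φ l m : Kˣ) : K) * c l

variable {X B : Finset (List V)} {φ : V → V → ℤ} {t : Kˣ} {z : List V → ℤ} {n : ℕ}

theorem dT_congr {c c' : List V → K} {m : List V}
    (h : ∀ l ∈ X, m.Sublist l → m.length + 1 = l.length → c l = c' l) :
    dT X φ t c m = dT X φ t c' m := by
  unfold dT
  apply Finset.sum_congr rfl
  intro l hl
  by_cases hi : inc l m = 0
  · simp [hi]
  · rw [h l hl (inc_ne hi).1 (inc_ne hi).2]

theorem dT_zero {c : List V → K} {m : List V}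
    (h : ∀ l ∈ X, m.Sublist l → m.length + 1 = l.length → c l = 0) : dT X φ t c m = 0 := by
  rw [dT_congr (c' := fun _ => 0) h]; simp [dT]

theorem dT_sub (c c' : List V → K) (m : List V) :
    dT X φ t (fun l => c l - c' l) m = dT X φ t c m - dT X φ t c' m := by
  simp only [dT, mul_sub, Finset.sum_sub_distrib]

theorem dT_mul (r : K) (c : List V → K) (m : List V) :
    dT X φ t (fun l => r * c l) m = r * dT X φ t c m := by
  simp only [dT, Finset.mul_sum, mul_left_comm _ r]

theorem dT_cob (g : List V → List V → K) (σ m : List V) :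
    dT X φ t (fun l => cob (fun s => g s l) σ) m = cob (fun s => dT X φ t (g s) m) σ := by
  unfold dT
  rw [cob_sum]
  apply Finset.sum_congr rfl
  intro l _
  rw [mul_comm, ← cob_mul]
  apply cob_congr
  intro k _ _
  ring

theorem bd_St {σ m : List V} (hm : m ∈ St X σ) (c : List V → K) :
    bd (St X σ) φ t c m = dT X φ t c m := by
  rw [bd_apply, if_pos hm]
  unfold dT St
  rw [Finset.sum_filter]
  apply Finset.sum_congr rfl
  intro l _
  split_ifs with hl
  · rfl
  · by_cases hi : inc l m = 0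
    · simp [hi]
    · exact absurd ((mem_St.1 hm).2.trans (inc_ne hi).1) hl

theorem bd_dT {m : List V} (hm : m ∈ X) (c : List V → K) : bd X φ t c m = dT X φ t c m := by
  rw [bd_apply, if_pos hm]; rfl

theorem dT_dT (hX : Cx X) (hφ : Coc X φ) (c : List V → K) {m : List V} (hm : m ∈ X) :
    dT X φ t (dT X φ t c) m = 0 := by
  have := congrFun (sq_of_cvx hX hφ cvx_self t c) m
  rw [bd_dT hm, dT_congr (c' := dT X φ t c) fun l hl _ _ => bd_dT hl c] at this
  exact this

theorem row (h : HM n X B ∅ z) (hφ : Coc X φ) {σ : List V} (hσ : σ ∈ X) (q : ℕ) (c : List V → K)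
    (hc : ∀ m ∈ X, σ.Sublist m → m.length + 1 = q → dT X φ t c m = 0) :
    ∃ (b : List V → K) (k : K), (σ ∈ B → k = 0) ∧ ∀ m ∈ X, σ.Sublist m → m.length = q →
      c m = dT X φ t b m + k * ((z m : K) * ((t ^ (-ex φ m σ) : Kˣ) : K)) := by
  have hc' : bd (St X σ) φ t (fun l => if l.length = q then c l else 0) = 0 := by
    funext m
    rw [Pi.zero_apply]
    by_cases hm : m ∈ St X σ
    · rw [bd_St hm]
      by_cases hq : m.length + 1 = q
      · rw [← hc m (mem_St.1 hm).1 (mem_St.1 hm).2 hq]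
        exact dT_congr fun l _ _ hl => if_pos (by omega)
      · exact dT_zero fun l _ _ hl => if_neg (by omega)
    · rw [bd_apply, if_neg hm]
  have h1 := (h.2.2.2.2 σ hσ fun _ _ h => h).2
  by_cases hB : σ ∈ B
  · rw [if_pos hB] at h1
    obtain ⟨b, k, hb⟩ := loc_R h.1 hφ hσ h1.1 (fun _ _ h => absurd rfl h) t _ hc'
    refine ⟨b, 0, fun _ => rfl, fun m hm hs hl => ?_⟩
    have := hb m (mem_St.2 ⟨hm, hs⟩)
    rw [if_pos hl, bd_St (mem_St.2 ⟨hm, hs⟩)] at this
    simpa using this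
  · rw [if_neg hB] at h1
    obtain ⟨b, k, hb⟩ := loc_R h.1 hφ hσ h1 (by
      intro l hl h0 l' hl'
      by_contra hn
      have a := (inc_ne hn).2
      have b := (h.2.2.2.1 l' hl').1
      have c := (h.2.2.2.1 l hl).2
      rw [if_neg (by omega), abs_eq_zero] at c
      exact h0 c) t _ hc'
    refine ⟨b, k, fun h => absurd h hB, fun m hm hs hl => ?_⟩
    have := hb m (mem_St.2 ⟨hm, hs⟩)
    rwa [if_pos hl, bd_St (mem_St.2 ⟨hm, hs⟩)] at this

theorem column {ρ : List V} (hρ : ρ.Nodup) {j : ℕ} (f : List V → K)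
    (hf : ∀ σ : List V, σ.Sublist ρ → σ.length = j + 3 → cob f σ = 0) :
    ∃ g : List V → K, ∀ σ : List V, σ.Sublist ρ → σ.length = j + 2 → f σ = cob g σ := by
  cases ρ with
  | nil => exact ⟨fun _ => 0, fun σ hσ hl => by rw [List.sublist_nil.1 hσ] at hl; simp at hl⟩
  | cons a r =>
    have ha : a ∉ r := (List.nodup_cons.1 hρ).1
    refine ⟨fun s => if a ∈ s then 0 else f (a :: s), fun σ hσ hl => ?_⟩
    rcases List.sublist_cons_iff.1 hσ with h | ⟨s, rfl, h⟩
    · have := hf (a :: σ) (h.cons_cons a) (by simp [hl])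
      rw [cob_cons, sub_eq_zero] at this
      rw [this]
      exact cob_congr fun m hm _ => (if_neg fun h' => ha ((hm.trans h).subset h')).symm
    · rw [cob_cons, if_neg fun h' => ha (h.subset h'), cob_zero fun m _ _ => if_pos (by simp),
        sub_zero]

theorem stair (h : HM n X B ∅ z) (hφ : Coc X φ) (ha : Acy X φ t) (j : ℕ) :
    ∀ q ≤ n + 1, ∀ f : List V → List V → K,
      (∀ σ ∈ X, σ.length = j + 1 → ∀ ρ ∈ X, σ.Sublist ρ → ρ.length + 1 = q →
        dT X φ t (f σ) ρ = 0) →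
      (∀ σ ∈ X, σ.length = j + 2 → ∀ ρ ∈ X, σ.Sublist ρ → ρ.length = q →
        cob (fun s => f s ρ) σ = 0) →
      ∃ g k : List V → List V → K, (∀ ρ, g [] ρ = 0) ∧
        (∀ σ ∈ X, σ.length = j → ∀ ρ ∈ X, σ.Sublist ρ → ρ.length + 1 = q →
          dT X φ t (g σ) ρ = 0) ∧
        (∀ σ ∈ X, σ.length = j + 2 → ∀ ρ, cob (fun s => k s ρ) σ = 0) ∧
        ∀ σ ∈ X, σ.length = j + 1 → ∀ ρ ∈ X, σ.Sublist ρ → ρ.length = q →
          f σ ρ = dT X φ t (k σ) ρ + cob (fun s => g s ρ) σ := by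
  have hX : Cx X := h.1
  have face : ∀ σ ∈ X, ∀ s : List V, s.Sublist σ → 0 < s.length → s ∈ X := by
    intro σ hσ s hs hl
    exact (hX σ hσ).2.2.1 s (List.length_pos_iff.1 hl) hs
  induction j with
  | zero =>
    intro q _ f h1 h2
    have e : ∀ v, ∀ ρ ∈ X, v ∈ ρ → ρ.length = q → f [v] ρ = f (ρ.take 1) ρ := by
      intro v ρ hρ hv hl
      obtain ⟨a, r, rfl⟩ := List.exists_cons_of_ne_nil (hX ρ hρ).1
      rcases List.mem_cons.1 hv with rfl | hv
      · rfl
      · have hs : [a, v].Sublist (a :: r) := (List.singleton_sublist.2 hv).cons_cons a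
        have := h2 _ (face _ hρ _ hs (by simp)) rfl _ hρ hs hl
        rw [cob_two, sub_eq_zero] at this
        exact this
    obtain ⟨b, hb⟩ := ha (fun ρ => if ρ.length = q then f (ρ.take 1) ρ else 0) (by
      funext m
      rw [Pi.zero_apply]
      by_cases hm : m ∈ X
      · rw [bd_dT hm]
        by_cases hq : m.length + 1 = q
        · obtain ⟨v, hv⟩ := List.exists_mem_of_ne_nil m (hX m hm).1
          have hs := List.singleton_sublist.2 hv
          rw [← h1 [v] (face _ hm _ hs (by simp)) rfl m hm hs hq]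
          apply dT_congr
          intro l hl hs' hl'
          rw [if_pos (by omega), e v l hl (hs'.subset hv) (by omega)]
        · exact dT_zero fun l _ _ hl => if_neg (by omega)
      · rw [bd_apply, if_neg hm])
    refine ⟨fun _ _ => 0, fun _ => b, fun _ => rfl, fun _ _ _ _ _ _ _ => dT_zero fun _ _ _ _ => rfl,
      ?_, ?_⟩
    · intro σ _ hl ρ
      obtain ⟨u, v, rfl⟩ := List.length_eq_two.1 hl
      rw [cob_two, sub_self]
    · intro σ _ hl ρ hρ hs hq
      obtain ⟨v, rfl⟩ := List.length_eq_one_iff.1 hl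
      have := hb ρ hρ
      rw [if_pos hq, bd_dT hρ] at this
      rw [e v ρ hρ (List.singleton_sublist.1 hs) hq, this, cob_zero fun _ _ _ => rfl, add_zero]
  | succ j ih =>
    intro q hq f h1 h2
    have e0 : ∀ ρ : List V, ∃ g : List V → K, ρ ∈ X → ρ.length = q →
        ∀ σ : List V, σ.Sublist ρ → σ.length = j + 2 → f σ ρ = cob g σ := by
      intro ρ
      by_cases hh : ρ ∈ X ∧ ρ.length = q
      · obtain ⟨g, hg⟩ := column (hX ρ hh.1).2.1 (j := j) (fun s => f s ρ) fun σ hs hl =>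
          h2 σ (face _ hh.1 _ hs (by omega)) hl ρ hh.1 hs hh.2
        exact ⟨g, fun _ _ => hg⟩
      · exact ⟨fun _ => 0, fun a b => absurd ⟨a, b⟩ hh⟩
    choose g0 hg0 using e0
    obtain ⟨g', k', a0, a1, a2, a3⟩ := ih (q - 1) (by omega)
      (fun σ => dT X φ t fun ρ => g0 ρ σ) (fun σ _ _ ρ hρ _ _ => dT_dT hX hφ _ hρ) (by
        intro σ hσ hl ρ hρ hs hl'
        have := hs.length_le
        rw [← dT_cob (fun s ρ => g0 ρ s), ← h1 σ hσ hl ρ hρ hs (by omega)]
        apply dT_congr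
        intro l hl1 hs' hl2
        exact (hg0 l hl1 (by omega) σ (hs.trans hs') hl).symm)
    have e1 : ∀ σ : List V, ∃ m : List V → K, (σ = [] → m = 0) ∧ (σ ∈ X → σ.length = j →
        ∀ ρ ∈ X, σ.Sublist ρ → ρ.length = q - 1 → g' σ ρ = dT X φ t m ρ) := by
      intro σ
      by_cases hh : σ ∈ X ∧ σ.length = j
      · obtain ⟨b, k, _, hb⟩ := row (t := t) h hφ hh.1 (q - 1) (g' σ) (a1 σ hh.1 hh.2)
        refine ⟨b, fun h0 => absurd h0 (hX σ hh.1).1, fun _ _ ρ hρ hs hl => ?_⟩
        have hz := (h.2.2.2.1 ρ hρ).2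
        rw [if_neg (by omega), abs_eq_zero] at hz
        simpa [hz] using hb ρ hρ hs hl
      · exact ⟨0, fun _ => rfl, fun a b => absurd ⟨a, b⟩ hh⟩
    choose m hm0 hm using e1
    refine ⟨fun σ ρ => if σ = [] then 0 else g0 ρ σ - cob (fun s => m s ρ) σ - k' σ ρ,
      fun _ _ => 0, fun _ => if_pos rfl, ?_, fun _ _ _ _ => cob_zero fun _ _ _ => rfl, ?_⟩
    · intro σ hσ hl ρ hρ hs hl'
      simp only [if_neg (hX σ hσ).1]
      rw [dT_sub, dT_sub, dT_cob, a3 σ hσ hl ρ hρ hs (by omega)]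
      have : cob (fun s => g' s ρ) σ = cob (fun s => dT X φ t (m s) ρ) σ := by
        apply cob_congr
        intro s hs' hl2
        by_cases h0 : s = []
        · rw [hm0 s h0, h0, a0]
          exact (dT_zero fun _ _ _ _ => rfl).symm
        · exact hm s (face _ hσ _ hs' (List.length_pos_iff.2 h0)) (by omega) ρ hρ (hs'.trans hs)
            (by omega)
      rw [this]
      ring
    · intro σ hσ hl ρ hρ hs hl'
      rw [dT_zero fun _ _ _ _ => rfl, zero_add, hg0 ρ hρ hl' σ hs hl,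
        cob_congr (g := fun s => g0 ρ s - cob (fun s => m s ρ) s - k' s ρ)
          fun s _ hl2 => if_neg (by rintro rfl; simp at hl2; omega),
        cob_sub, cob_sub, cob_cob, a2 σ hσ hl ρ]
      ring

theorem cob_tw (hX : Cx X) (hφ : Coc X φ) (y : List V → K) {σ ρ : List V} (hρ : ρ ∈ X)
    (hσ : σ ∈ X \ B) (hs : σ.Sublist ρ) (r : K) :
    cob (fun s => (if s ∈ X \ B then y s else 0) * (r * ((t ^ (-ex φ ρ s) : Kˣ) : K))) σ =
      r * ((t ^ (-ex φ ρ σ) : Kˣ) : K) * cb (X \ B) φ t⁻¹ y σ := by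
  rw [cb_apply, if_pos hσ]
  simp only [mul_assoc]
  rw [sum_inc, ← mul_assoc, mul_comm, ← cob_mul]
  apply cob_congr
  intro s hs' _
  split_ifs with h
  · rw [ex_add hX hφ hρ hs hs' (hX s (Finset.mem_sdiff.1 h).1).1, neg_add, zpow_add, inv_zpow']
    push_cast
    ring
  · simp

theorem coexact (h : HM n X B ∅ z) (hφ : Coc X φ) (ha : Acy X φ t) (y : List V → K)
    (hy : cb (X \ B) φ t⁻¹ y = 0) : ∃ v, ∀ σ ∈ X \ B, y σ = cb (X \ B) φ t⁻¹ v σ := by
  have hX : Cx X := h.1
  have key : ∀ j : ℕ, ∃ v : List V → K, ∀ σ ∈ X \ B, σ.length = j + 1 →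
      y σ = cb (X \ B) φ t⁻¹ v σ := by
    intro j
    obtain ⟨g, k, a0, a1, _, a3⟩ := stair h hφ ha j (n + 1) le_rfl
      (fun σ ρ => (if σ ∈ X \ B then y σ else 0) * ((z ρ : K) * ((t ^ (-ex φ ρ σ) : Kˣ) : K)))
      (by
        intro σ hσ _ ρ hρ hs _
        rw [dT_mul]
        split_ifs with hB
        · have h1 := (h.2.2.2.2 σ hσ fun _ _ h => h).2
          rw [if_neg (Finset.mem_sdiff.1 hB).2] at h1
          have := congrFun (loc_R_cyc hX hφ hσ h1.1 t) ρ
          rw [bd_St (mem_St.2 ⟨hρ, hs⟩)] at this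
          rw [this]; simp
        · simp) (by
        intro σ hσ hl ρ hρ hs _
        by_cases hB : σ ∈ X \ B
        · rw [cob_tw hX hφ y hρ hB hs, hy]; simp
        · apply cob_zero
          intro s hs' hl'
          rw [if_neg, zero_mul]
          intro h'
          have : σ ∈ B := by
            by_contra hn; exact hB (Finset.mem_sdiff.2 ⟨hσ, hn⟩)
          exact (Finset.mem_sdiff.1 h').2
            ((h.2.1 σ this).2.2.1 s (List.length_pos_iff.1 (by omega)) hs'))
    have top : ∀ (b : List V → K) (ρ : List V), ρ.length = n + 1 → dT X φ t b ρ = 0 := by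
      intro b ρ hl
      apply dT_zero
      intro l hl' _ h2
      have := (h.2.2.2.1 l hl').1
      omega
    have e : ∀ s : List V, ∃ v : K, s ∈ X → s.length = j → ∀ ρ ∈ X, s.Sublist ρ →
        ρ.length = n + 1 → g s ρ = (if s ∈ X \ B then v else 0) *
          ((z ρ : K) * ((t ^ (-ex φ ρ s) : Kˣ) : K)) := by
      intro s
      by_cases hh : s ∈ X ∧ s.length = j
      · obtain ⟨b, v, hv, hb⟩ := row (t := t) h hφ hh.1 (n + 1) (g s) (a1 s hh.1 hh.2)
        refine ⟨v, fun _ _ ρ hρ hs hl => ?_⟩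
        rw [hb ρ hρ hs hl, top b ρ hl, zero_add]
        split_ifs with hB
        · rfl
        · rw [hv (by by_contra hn; exact hB (Finset.mem_sdiff.2 ⟨hh.1, hn⟩))]
      · exact ⟨0, fun a b => absurd ⟨a, b⟩ hh⟩
    choose v hv using e
    refine ⟨v, fun σ hσ hl => ?_⟩
    have hσX := (Finset.mem_sdiff.1 hσ).1
    obtain ⟨ρ, hρ, hl'⟩ := (h.2.2.2.2 σ hσX fun _ _ h => h).1
    obtain ⟨hρX, hs⟩ := mem_St.1 hρ
    have h1 := a3 σ hσX hl ρ hρX hs hl'
    rw [top _ ρ hl', zero_add, if_pos hσ, cob_congr (g := fun s =>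
      (if s ∈ X \ B then v s else 0) * ((z ρ : K) * ((t ^ (-ex φ ρ s) : Kˣ) : K))) (by
        intro s hs' hl2
        by_cases h0 : s = []
        · rw [h0, a0, if_neg fun h' => (hX _ (Finset.mem_sdiff.1 h').1).1 rfl, zero_mul]
        · exact hv s ((hX σ hσX).2.2.1 s h0 hs') (by omega) ρ hρX (hs'.trans hs) hl'),
      cob_tw hX hφ v hρX hσ hs, mul_comm] at h1
    have hz := (h.2.2.2.1 ρ hρX).2
    rw [if_pos hl'] at hz
    refine mul_left_cancel₀ (mul_ne_zero ?_ (Units.ne_zero _)) h1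
    rcases (abs_eq (by norm_num)).1 hz with h0 | h0 <;> simp [h0]
  choose v hv using key
  refine ⟨fun m => v m.length m, fun σ hσ => ?_⟩
  have h0 := List.length_pos_iff.2 (hX σ (Finset.mem_sdiff.1 hσ).1).1
  rw [hv (σ.length - 1) σ hσ (by omega), cb_apply, cb_apply, if_pos hσ, if_pos hσ]
  apply Finset.sum_congr rfl
  intro m _
  by_cases hi : inc σ m = 0
  · simp [hi]
  · rw [show m.length = σ.length - 1 by have := (inc_ne hi).2; omega]

theorem betti_of_coexact {S : Finset (List V)} {s : Kˣ}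
    (h : ∀ y, cb S φ s y = 0 → ∃ v, ∀ σ ∈ S, y σ = cb S φ s v σ) : betti S φ s = 0 := by
  have e : ∀ (c : List V → K) (l : S),
      cb S φ s c l.1 = (Dm S φ s).transpose.mulVec (fun m => c m.1) l := by
    intro c l
    rw [cb_apply, if_pos l.2]
    simp only [Matrix.mulVec, dotProduct, Matrix.transpose_apply, Dm]
    exact (Finset.sum_coe_sort S
      (fun m => (inc l.1 m : K) * ((s ^ ex φ l.1 m : Kˣ) : K) * c m)).symm
  have h1 : LinearMap.ker (Dm S φ s).transpose.mulVecLin ≤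
      LinearMap.range (Dm S φ s).transpose.mulVecLin := by
    intro x hx
    have hx' : (Dm S φ s).transpose.mulVec x = 0 := hx
    have r : (fun m : S => extz K S x m.1) = x := by
      funext l; simp [extz, l.2]
    obtain ⟨v, hv⟩ := h (extz K S x) (by
      funext l
      by_cases hl : l ∈ S
      · rw [e _ ⟨l, hl⟩, r, hx']; rfl
      · rw [cb_apply, if_neg hl]; rfl)
    refine ⟨fun m => v m.1, funext fun l => ?_⟩
    show (Dm S φ s).transpose.mulVec (fun m => v m.1) l = x l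
    rw [← e, ← hv l.1 l.2, ← r]
    simp [extz]
  have h2 := LinearMap.finrank_range_add_finrank_ker (Dm S φ s).transpose.mulVecLin
  have h3 : Module.finrank K ↥(LinearMap.range (Dm S φ s).transpose.mulVecLin) =
      (Dm S φ s).rank := Matrix.rank_transpose _
  have h4 := Submodule.finrank_mono h1
  simp only [Module.finrank_fintype_fun_eq_card, Fintype.card_coe] at h2
  rw [betti_eq]
  omega

end Eta

theorem dual_acy {K : Type} [Field K] {n : ℕ} {X B : Finset (List V)} {z : List V → ℤ}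
    {φ : V → V → ℤ} (h : HM n X B ∅ z) (hφ : Coc X φ) {s : Kˣ} (h0 : betti X φ s = 0) :
    betti (X \ B) φ s⁻¹ = 0 :=
  Eta.betti_of_coexact
    (Eta.coexact h hφ ((betti_zero_iff (sq_of_cvx h.1 hφ cvx_self s)).1 h0))

/-- The boundary of an acyclic homology manifold is acyclic. -/
theorem bd_acy {n : ℕ} {X B : Finset (List V)} {z : List V → ℤ} {φ : V → V → ℤ}
    (h : HM n X B ∅ z) (hφ : Coc X φ)
    (h0 : Small X φ 0) : Small B φ 0 ∧ Small (X \ B) φ 0 := by
  have h1 : Small (X \ B) φ 0 := by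
    intro F K _ _ _ s hs
    have h2 := trans_zpow hs (a := -1) (by norm_num)
    have := dual_acy h hφ (Nat.le_zero.1 (h0 F K _ h2))
    rw [zpow_neg_one, inv_inv] at this
    exact this.le
  refine ⟨?_, h1⟩
  intro F K _ _ _ s hs
  have a := (betti_ses (sq_of_cvx h.1 hφ cvx_self s)
    (cl_sub h.2.1 h.2.2.1 fun l hl => (h.1 l hl).1)).2.1
  have b := h0 F K s hs
  have c := h1 F K s hs
  omega

end Pool.Agent.HT
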