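import Pool.Agent.Lib.MP_dae8ad_gt.H.D3

/-! Elementary facts on incidence numbers and the graded form of `Loc`. -/

open Finset Classical

noncomputable section

namespace Pool.Agent.HT.Eta

variable {V : Type}

/-- The alternating sum of `f` over the faces of a list. -/
def cob {R : Type} [CommRing R] (f : List V → R) (l : List V) : R :=
  ∑ i ∈ range l.length, (-1) ^ i * f (l.eraseIdx i)

theorem cob_nil {R : Type} [CommRing R] (f : List V → R) : cob f [] = 0 := by simp [cob]

theorem cob_cons {R : Type} [CommRing R] (f : List V → R) (a : V) (l : List V) :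
    cob f (a :: l) = f l - cob (fun m => f (a :: m)) l := by
  unfold cob
  rw [List.length_cons, Finset.sum_range_succ']
  simp only [List.eraseIdx_cons_succ, List.eraseIdx_cons_zero, pow_zero, one_mul, pow_succ]
  rw [sub_eq_add_neg, add_comm, ← Finset.sum_neg_distrib]
  congr 1
  apply Finset.sum_congr rfl
  intro i _
  ring

theorem cob_sub {R : Type} [CommRing R] (f g : List V → R) (l : List V) :
    cob (fun m => f m - g m) l = cob f l - cob g l := by
  unfold cob
  rw [← Finset.sum_sub_distrib]
  apply Finset.sum_congr rfl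
  intro i _
  ring

theorem cob_cob {R : Type} [CommRing R] (l : List V) : ∀ f : List V → R, cob (cob f) l = 0 := by
  induction l with
  | nil => intro f; exact cob_nil _
  | cons a l ih =>
    intro f
    rw [cob_cons]
    have h : (fun m => cob f (a :: m)) = fun m => f m - cob (fun m => f (a :: m)) m := by
      funext m; exact cob_cons f a m
    rw [h, cob_sub, ih]
    simp

theorem cob_congr {R : Type} [CommRing R] {f g : List V → R} {l : List V}
    (h : ∀ m, m.Sublist l → m.length + 1 = l.length → f m = g m) : cob f l = cob g l := by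
  unfold cob
  apply Finset.sum_congr rfl
  intro i hi
  rw [Finset.mem_range] at hi
  rw [h _ (List.eraseIdx_sublist _ _) (by rw [List.length_eraseIdx_of_lt hi]; omega)]

theorem cob_zero {R : Type} [CommRing R] {f : List V → R} {l : List V}
    (h : ∀ m, m.Sublist l → m.length + 1 = l.length → f m = 0) : cob f l = 0 := by
  rw [cob_congr (g := fun _ => 0) h]; simp [cob]

theorem cob_mul {R : Type} [CommRing R] (f : List V → R) (r : R) (l : List V) :
    cob (fun m => f m * r) l = cob f l * r := by
  unfold cob
  rw [Finset.sum_mul]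
  apply Finset.sum_congr rfl
  intro i _
  ring

theorem cob_sum {R ι : Type} [CommRing R] (s : Finset ι) (f : ι → List V → R) (l : List V) :
    cob (fun m => ∑ j ∈ s, f j m) l = ∑ j ∈ s, cob (f j) l := by
  unfold cob
  rw [Finset.sum_comm]
  apply Finset.sum_congr rfl
  intro i _
  rw [Finset.mul_sum]

theorem inc_eq_cob (l m : List V) : inc l m = cob (fun k => if k = m then 1 else 0) l := by
  unfold inc cob
  apply Finset.sum_congr rfl
  intro i _
  by_cases h : l.eraseIdx i = m <;> simp [h]

theorem inc_ne {l m : List V} (h : inc l m ≠ 0) : m.Sublist l ∧ m.length + 1 = l.length := by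
  by_contra hn
  apply h
  rw [inc_eq_cob]
  apply cob_zero
  intro k hk hl
  rw [if_neg]
  rintro rfl
  exact hn ⟨hk, hl⟩

theorem sum_inc {R : Type} [CommRing R] (S : Finset (List V)) (f : List V → R) (l : List V) :
    ∑ m ∈ S, (inc l m : R) * f m = cob (fun m => if m ∈ S then f m else 0) l := by
  unfold inc cob
  simp only [Int.cast_sum, Finset.sum_mul]
  rw [Finset.sum_comm]
  apply Finset.sum_congr rfl
  intro i _
  by_cases h : l.eraseIdx i ∈ S
  · rw [if_pos h, Finset.sum_eq_single (l.eraseIdx i)]
    · simp
    · intro b _ hb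
      rw [if_neg (Ne.symm hb)]; simp
    · intro hn; exact absurd h hn
  · rw [if_neg h, mul_zero]
    apply Finset.sum_eq_zero
    intro m hm
    rw [if_neg]
    · simp
    · rintro rfl; exact h hm

theorem sum_inc_int (S : Finset (List V)) (f : List V → ℤ) (l : List V) :
    ∑ m ∈ S, inc l m * f m = cob (fun m => if m ∈ S then f m else 0) l := by
  simpa using sum_inc S f l

theorem bz_apply (S : Finset (List V)) (c : List V → ℤ) (m : List V) :
    bz S c m = if m ∈ S then ∑ l ∈ S, inc l m * c l else 0 := by
  unfold bz bd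
  rw [LinearMap.pi_apply]
  split_ifs with h
  · rw [LinearMap.sum_apply]
    apply Finset.sum_congr rfl
    intro l _
    simp
  · simp

/-- The boundary of `c`, computed in `X`, without the restriction to `X` on the face. -/
def dX (X : Finset (List V)) (c : List V → ℤ) (m : List V) : ℤ := ∑ l ∈ X, inc l m * c l

theorem bz_eq_dX {X : Finset (List V)} {m : List V} (h : m ∈ X) (c : List V → ℤ) :
    bz X c m = dX X c m := by rw [bz_apply, if_pos h]; rfl

theorem mem_St {X : Finset (List V)} {σ l : List V} : l ∈ St X σ ↔ l ∈ X ∧ σ.Sublist l := by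
  unfold St; exact Finset.mem_filter

theorem dX_St {X : Finset (List V)} {σ m : List V} (h : σ.Sublist m) (c : List V → ℤ) :
    dX (St X σ) c m = dX X c m := by
  unfold dX St
  rw [Finset.sum_filter]
  apply Finset.sum_congr rfl
  intro l _
  split_ifs with hl
  · rfl
  · by_cases hi : inc l m = 0
    · rw [hi, zero_mul]
    · exact absurd (h.trans (inc_ne hi).1) hl

theorem dX_congr {X : Finset (List V)} {c c' : List V → ℤ} {m : List V}
    (h : ∀ l ∈ X, m.Sublist l → m.length + 1 = l.length → c l = c' l) :
    dX X c m = dX X c' m := by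
  unfold dX
  apply Finset.sum_congr rfl
  intro l hl
  by_cases hi : inc l m = 0
  · rw [hi, zero_mul, zero_mul]
  · rw [h l hl (inc_ne hi).1 (inc_ne hi).2]

theorem dX_zero {X : Finset (List V)} {c : List V → ℤ} {m : List V}
    (h : ∀ l ∈ X, m.Sublist l → m.length + 1 = l.length → c l = 0) : dX X c m = 0 := by
  rw [dX_congr (c' := fun _ => 0) h]; simp [dX]

theorem dX_sub (X : Finset (List V)) (c c' : List V → ℤ) (m : List V) :
    dX X (fun l => c l - c' l) m = dX X c m - dX X c' m := by
  unfold dX
  rw [← Finset.sum_sub_distrib]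
  apply Finset.sum_congr rfl
  intro i _
  ring

theorem dX_mul (X : Finset (List V)) (r : ℤ) (c : List V → ℤ) (m : List V) :
    dX X (fun l => r * c l) m = r * dX X c m := by
  unfold dX
  rw [Finset.mul_sum]
  apply Finset.sum_congr rfl
  intro i _
  ring

theorem dX_cob (X : Finset (List V)) (g : List V → List V → ℤ) (σ m : List V) :
    dX X (fun l => cob (fun s => g s l) σ) m = cob (fun s => dX X (g s) m) σ := by
  unfold dX
  rw [cob_sum]
  apply Finset.sum_congr rfl
  intro l _
  rw [mul_comm, ← cob_mul]
  apply cob_congr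
  intro k _ _
  ring

theorem dX_dX {X : Finset (List V)} (hX : Cx X) (c : List V → ℤ) {m : List V} (_hm : m ≠ []) :
    dX X (dX X c) m = 0 := by
  unfold dX
  simp only [Finset.mul_sum]
  rw [Finset.sum_comm]
  apply Finset.sum_eq_zero
  intro l hl
  have h1 : ∑ k ∈ X, inc k m * (inc l k * c l) = (∑ k ∈ X, inc l k * inc k m) * c l := by
    rw [Finset.sum_mul]
    apply Finset.sum_congr rfl
    intro k _
    ring
  rw [h1, sum_inc_int]
  have h2 : cob (fun k => if k ∈ X then inc k m else 0) l = cob (fun k => inc k m) l := by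
    apply cob_congr
    intro k hk _
    by_cases hk0 : k = []
    · subst hk0
      have : inc ([] : List V) m = 0 := by simp [inc]
      simp [this]
    · rw [if_pos ((hX l hl).2.2.1 k hk0 hk)]
  rw [h2]
  have h3 : (fun k => inc k m) = cob (fun k => if k = m then (1 : ℤ) else 0) := by
    funext k; exact inc_eq_cob k m
  rw [h3, cob_cob, zero_mul]

/-- Graded form of `Loc` on a star. -/
theorem loc_graded {X : Finset (List V)} {σ : List V} {z : List V → ℤ} (h : Loc (St X σ) z)
    (q : ℕ) (c : List V → ℤ)
    (hc : ∀ m ∈ X, σ.Sublist m → m.length + 1 = q → dX X c m = 0) :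
    ∃ b, ∃ k : ℤ, ∀ m ∈ X, σ.Sublist m → m.length = q → c m = dX X b m + k * z m := by
  obtain ⟨b, k, hb⟩ := h.2 (fun l => if l.length = q then c l else 0) (by
    funext m
    rw [Pi.zero_apply]
    by_cases hm : m ∈ St X σ
    · rw [bz_eq_dX hm, dX_St (mem_St.1 hm).2]
      by_cases hq : m.length + 1 = q
      · rw [← hc m (mem_St.1 hm).1 (mem_St.1 hm).2 hq]
        apply dX_congr
        intro l _ _ hl
        rw [if_pos (by omega)]
      · apply dX_zero
        intro l _ _ hl
        rw [if_neg (by omega)]
    · rw [bz_apply, if_neg hm])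
  refine ⟨b, k, fun m hm hs hq => ?_⟩
  have := hb m (mem_St.2 ⟨hm, hs⟩)
  rw [if_pos hq, bz_eq_dX (mem_St.2 ⟨hm, hs⟩), dX_St hs] at this
  exact this

theorem loc_cycle {X : Finset (List V)} {σ : List V} {z : List V → ℤ} (h : Loc (St X σ) z)
    {m : List V} (hm : m ∈ X) (hs : σ.Sublist m) : dX X z m = 0 := by
  have := congrFun h.1 m
  rw [bz_eq_dX (mem_St.2 ⟨hm, hs⟩), dX_St hs] at this
  exact this

end Pool.Agent.HT.Eta
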