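import Pool.Agent.Lib.MP_dae8ad_gt.H.EtaRank

/-! Primitives supported on one end of the infinite cyclic cover. -/

open Finset Classical

noncomputable section

namespace Pool.Agent.HT.Eta

variable {V : Type}

/-- The coboundary on the infinite cyclic cover; `(l, k)` is the lift of `l` whose first vertex
has height `k`. -/
def dC (Y : Finset (List V)) (Φ : V → V → ℤ) (f : List V → ℤ → ℚ) (l : List V) (k : ℤ) : ℚ :=
  ∑ m ∈ Y, (inc l m : ℚ) * f m (k + ex Φ l m)

theorem card_le_rank {K : Type} [Field K] [Algebra ℚ K] {Y : Finset (List V)} {φ : V → V → ℤ}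
    (hb : Small Y φ 0) (t : Kˣ) (ht : Transcendental ℚ (t : K)) :
    Y.card ≤ 2 * (Dm Y φ t).rank := by
  have := hb ℚ K t ht
  rw [betti_eq] at this
  omega

open scoped RatFunc in
theorem transc_single (σ : ℤ) (hσ : σ = 1 ∨ σ = -1) :
    Transcendental ℚ (HahnSeries.single (-σ) (1 : ℚ) : LaurentSeries ℚ) := by
  have h1 : Transcendental ℚ (HahnSeries.single (1 : ℤ) (1 : ℚ) : LaurentSeries ℚ) := by
    rw [← RatFunc.coe_X]
    intro h
    have h2 := (isAlgebraic_algHom_iff (algebraMap (RatFunc ℚ) (LaurentSeries ℚ)).toRatAlgHom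
      (algebraMap (RatFunc ℚ) (LaurentSeries ℚ)).injective (a := RatFunc.X)).1 h
    have h3 := RatFunc.transcendental_X (K := ℚ)
    rw [Subsingleton.elim (RatFunc.instAlgebraOfPolynomial ℚ ℚ) DivisionRing.toRatAlgebra] at h3
    exact h3 h2
  rcases hσ with rfl | rfl
  · intro h
    apply h1
    have := IsAlgebraic.inv_iff.2 h
    rwa [HahnSeries.inv_single, neg_neg, inv_one] at this
  · simpa using h1

theorem half_inv {Y : Finset (List V)} (hY : Cx Y) {Φ : V → V → ℤ} (hΦ : Coc Y Φ)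
    (hb : Small Y Φ 0) (σ : ℤ) (hσ : σ = 1 ∨ σ = -1)
    (f : List V → ℤ → ℚ) (D : ℤ) (hf : ∀ l k, f l k ≠ 0 → D ≤ σ * k)
    (hc : ∀ l ∈ Y, ∀ k, dC Y Φ f l k = 0) :
    ∃ w : List V → ℤ → ℚ, ∃ D' : ℤ, (∀ l k, w l k ≠ 0 → D' ≤ σ * k) ∧
      ∀ l ∈ Y, ∀ k, dC Y Φ w l k = f l k := by
  have hσ2 : σ * σ = 1 := by rcases hσ with rfl | rfl <;> norm_num
  have t0 : (HahnSeries.single (-σ) (1 : ℚ) : LaurentSeries ℚ) ≠ 0 :=
    HahnSeries.single_ne_zero one_ne_zero
  set t : (LaurentSeries ℚ)ˣ := Units.mk0 _ t0 with ht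
  have tz : ∀ e : ℤ, ((t ^ e : (LaurentSeries ℚ)ˣ) : LaurentSeries ℚ) =
      HahnSeries.single (-σ * e) 1 := by
    intro e
    rw [Units.val_zpow_eq_zpow_val, ht, Units.val_mk0, RatFunc.single_zpow (-σ * e),
      RatFunc.single_zpow (-σ), zpow_mul]
  have key : ∀ (W : Y → LaurentSeries ℚ) (g : List V → ℤ → ℚ),
      (∀ m : Y, ∀ k, (W m).coeff k = g m.1 (σ * k)) → ∀ l : Y, ∀ k,
      ((Dm Y Φ t).transpose.mulVec W l).coeff k = dC Y Φ g l.1 (σ * k) := by
    intro W g hW l k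
    simp only [Matrix.mulVec, dotProduct, Matrix.transpose_apply, Dm, HahnSeries.coeff_sum, dC]
    rw [← Finset.sum_coe_sort Y (fun m => (inc l.1 m : ℚ) * g m (σ * k + ex Φ l.1 m))]
    apply Finset.sum_congr rfl
    intro m _
    rw [tz, mul_assoc, ← zsmul_eq_mul, HahnSeries.coeff_smul,
      HahnSeries.coeff_single_mul, hW, one_mul, zsmul_eq_mul]
    congr 2
    linear_combination (ex Φ l.1 m.1) * hσ2
  have bdd : ∀ l : List V, BddBelow (Function.support fun k => f l (σ * k)) := by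
    intro l
    refine ⟨D, fun k hk => ?_⟩
    have := hf l _ hk
    rwa [← mul_assoc, hσ2, one_mul] at this
  obtain ⟨W, hW⟩ := cochain_exact hY hΦ t (card_le_rank hb t (transc_single σ hσ))
    (fun l => HahnSeries.ofSuppBddBelow (fun k => f l.1 (σ * k)) (bdd l.1)) (by
      funext l
      ext k
      rw [key _ f (fun m k => by rw [HahnSeries.coeff_ofSuppBddBelow]), hc l.1 l.2]
      simp)
  obtain ⟨D', hD'⟩ := (Set.finite_range fun l : Y => (W l).order).bddBelow
  refine ⟨fun l k => if h : l ∈ Y then (W ⟨l, h⟩).coeff (σ * k) else 0, D', ?_, ?_⟩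
  · intro l k hk
    by_cases h : l ∈ Y
    · simp only [dif_pos h] at hk
      exact (hD' ⟨⟨l, h⟩, rfl⟩).trans (HahnSeries.order_le_of_coeff_ne_zero hk)
    · simp [h] at hk
  · intro l hl k
    have := key W (fun l k => if h : l ∈ Y then (W ⟨l, h⟩).coeff (σ * k) else 0) (by
      intro m k
      rw [dif_pos m.2, ← mul_assoc, hσ2, one_mul]) ⟨l, hl⟩ (σ * k)
    rw [← mul_assoc, hσ2, one_mul, hW, HahnSeries.coeff_ofSuppBddBelow] at this
    rw [← this, ← mul_assoc, hσ2, one_mul]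

end Pool.Agent.HT.Eta
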