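import Pool.Agent.Lib.MP_dae8ad_gt.H.EtaWin
import Pool.Agent.Lib.MP_dae8ad_gt.H.EtaHalf
import Pool.Agent.Lib.MP_dae8ad_gt.H.EtaSlab

/-! A finite chain on which all cocycles vanish is a boundary inside a window. -/

open Finset Classical

noncomputable section

namespace Pool.Agent.HT.Eta

variable {V : Type}

theorem bounds_rat {W : Finset (List V)} {Φ : V → V → ℤ} (η : (List V × ℤ) →₀ ℚ)
    (h : ∀ f : ((List V × ℤ) →₀ ℚ) →ₗ[ℚ] ℚ, (∀ l ∈ W, l.length = 3 → ∀ k,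
      dC W Φ (fun m j => f (Finsupp.single (m, j) 1)) l k = 0) → f η = 0) :
    ∃ (c : List V → ℤ → ℚ) (R : ℤ), 0 ≤ R ∧
      (∀ l k, c l k ≠ 0 → l ∈ W ∧ l.length = 3 ∧ |k| ≤ R) ∧
      ∀ m ∈ W, ∀ j, η (m, j) = ∑ l ∈ W, (inc l m : ℚ) * c l (j - ex Φ l m) := by
  set bdy : List V → ℤ → ((List V × ℤ) →₀ ℚ) := fun l k =>
    ∑ m ∈ W, (inc l m : ℚ) • Finsupp.single (m, k + ex Φ l m) 1 with hbdy
  have hm : η ∈ Submodule.span ℚ {x | ∃ l ∈ W, l.length = 3 ∧ ∃ k, x = bdy l k} := by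
    by_contra hn
    obtain ⟨f, hf, hb⟩ := Submodule.exists_dual_map_eq_bot_of_notMem hn inferInstance
    apply hf
    apply h
    intro l hl h3 k
    have : f (bdy l k) ∈ (⊥ : Submodule ℚ ℚ) := by
      rw [← hb]
      exact Submodule.mem_map_of_mem (Submodule.subset_span ⟨l, hl, h3, k, rfl⟩)
    rw [Submodule.mem_bot] at this
    rw [← this]
    simp only [hbdy, dC, map_sum, map_smul, smul_eq_mul]
  clear h
  induction hm using Submodule.span_induction with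
  | mem x hx =>
    obtain ⟨l, hl, h3, k, rfl⟩ := hx
    refine ⟨fun l' k' => if l' = l ∧ k' = k then 1 else 0, |k|, abs_nonneg k, ?_, ?_⟩
    · intro l' k' h
      by_cases hh : l' = l ∧ k' = k
      · obtain ⟨rfl, rfl⟩ := hh
        exact ⟨hl, h3, le_rfl⟩
      · simp [hh] at h
    · intro m hm j
      simp only [hbdy, Finsupp.finsetSum_apply, Finsupp.smul_apply, smul_eq_mul]
      rw [Finset.sum_eq_single m, Finset.sum_eq_single l]
      · rw [Finsupp.single_apply]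
        congr 1
        by_cases hj : k + ex Φ l m = j
        · rw [if_pos (by rw [hj]), if_pos ⟨rfl, by omega⟩]
        · rw [if_neg (fun h => hj (Prod.mk.inj h).2), if_neg (fun h => hj (by omega))]
      · intro b _ hb
        rw [if_neg (fun h => hb h.1), mul_zero]
      · intro h; exact absurd hl h
      · intro b _ hb
        rw [Finsupp.single_apply, if_neg (fun h => hb (Prod.mk.inj h).1), mul_zero]
      · intro h; exact absurd hm h
  | zero => exact ⟨fun _ _ => 0, 0, le_rfl, fun _ _ h => absurd rfl h, fun _ _ _ => by simp⟩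
  | add x y _ _ hx hy =>
    obtain ⟨c, R, h0, h1, h2⟩ := hx
    obtain ⟨c', R', _, h1', h2'⟩ := hy
    refine ⟨fun l k => c l k + c' l k, max R R', le_max_of_le_left h0, ?_, ?_⟩
    · intro l k h
      by_cases hc : c l k = 0
      · have := h1' l k (by simpa [hc] using h)
        exact ⟨this.1, this.2.1, le_max_of_le_right this.2.2⟩
      · have := h1 l k hc
        exact ⟨this.1, this.2.1, le_max_of_le_left this.2.2⟩
    · intro m hm j
      rw [Finsupp.add_apply, h2 m hm, h2' m hm, ← Finset.sum_add_distrib]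
      apply Finset.sum_congr rfl
      intro l _
      ring
  | smul a x _ hx =>
    obtain ⟨c, R, h0, h1, h2⟩ := hx
    refine ⟨fun l k => a * c l k, R, h0, fun l k h => h1 l k (right_ne_zero_of_mul h), ?_⟩
    intro m hm j
    rw [Finsupp.smul_apply, h2 m hm, smul_eq_mul, Finset.mul_sum]
    apply Finset.sum_congr rfl
    intro l _
    ring

theorem bounds_int {W : Finset (List V)} {Φ : V → V → ℤ} (η : (List V × ℤ) →₀ ℚ)
    (h : ∀ f : ((List V × ℤ) →₀ ℚ) →ₗ[ℚ] ℚ, (∀ l ∈ W, l.length = 3 → ∀ k,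
      dC W Φ (fun m j => f (Finsupp.single (m, j) 1)) l k = 0) → f η = 0) :
    ∃ (c : List V → ℤ → ℤ) (R n : ℤ), 0 ≤ R ∧ n ≠ 0 ∧
      (∀ l k, c l k ≠ 0 → l ∈ W ∧ |k| ≤ R) ∧
      ∀ m ∈ W, ∀ j, n * η (m, j) = ((∑ l ∈ W, inc l m * c l (j - ex Φ l m) : ℤ) : ℚ) := by
  obtain ⟨c, R, h0, h1, h2⟩ := bounds_rat η h
  obtain ⟨d, hd⟩ := IsLocalization.exist_integer_multiples_of_finset (nonZeroDivisors ℤ)
    ((W ×ˢ Finset.Icc (-R) R).image fun p => c p.1 p.2)
  have hd0 : (d : ℤ) ≠ 0 := nonZeroDivisors.coe_ne_zero d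
  have : ∀ l k, ∃ n : ℤ, (n : ℚ) = (d : ℤ) * c l k := by
    intro l k
    by_cases hc : c l k = 0
    · exact ⟨0, by simp [hc]⟩
    · obtain ⟨a, _, b⟩ := h1 l k hc
      obtain ⟨n, hn⟩ := hd (c l k) (Finset.mem_image.2
        ⟨(l, k), Finset.mem_product.2 ⟨a, Finset.mem_Icc.2 (abs_le.1 b)⟩, rfl⟩)
      exact ⟨n, by simpa using hn⟩
  choose c' hc' using this
  refine ⟨c', R, d, h0, hd0, ?_, ?_⟩
  · intro l k hn
    have : c l k ≠ 0 := by
      intro hc
      have := hc' l k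
      rw [hc, mul_zero] at this
      exact hn (by exact_mod_cast this)
    exact ⟨(h1 l k this).1, (h1 l k this).2.2⟩
  · intro m hm j
    rw [h2 m hm, Finset.mul_sum]
    push_cast
    apply Finset.sum_congr rfl
    intro l _
    rw [hc']
    ring

/-- The height of the first vertex. -/
def ht : List (V × ℤ) → ℤ
  | [] => 0
  | p :: _ => p.2

theorem ht_lift (Φ : V → V → ℤ) {l : List V} (hl : l ≠ []) (k : ℤ) : ht (lift Φ l k) = k := by
  obtain ⟨v, m, rfl⟩ := List.exists_cons_of_ne_nil hl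
  simp [lift, ht, ex]

theorem ex_bound {X : Finset (List V)} {Φ : V → V → ℤ} {D : ℤ}
    (hD : ∀ l ∈ X, ∀ v ∈ l, ∀ w ∈ l, ex Φ l [v] ≤ ex Φ l [w] + D) {l : List V} (hl : l ∈ X)
    {k : ℤ} {p : V × ℤ} (hp : p ∈ lift Φ l k) : k - D ≤ p.2 ∧ p.2 ≤ k + D := by
  obtain ⟨h1, h2⟩ := mem_lift.1 hp
  obtain ⟨v, m, rfl⟩ := List.exists_cons_of_ne_nil (List.ne_nil_of_mem h1)
  have a := hD _ hl p.1 h1 v (by simp)
  have b := hD _ hl v (by simp) p.1 h1
  have c : ex Φ (v :: m) [v] = 0 := by simp [ex]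
  omega

theorem dX_lift {W : Finset (List V)} (hW : Cx W) {Φ : V → V → ℤ} (hΦ : Coc W Φ) {D R a b : ℤ}
    (hD : ∀ l ∈ W, ∀ v ∈ l, ∀ w ∈ l, ex Φ l [v] ≤ ex Φ l [w] + D) (ha : a ≤ -R - D)
    (hb : R + D ≤ b) {c : List V → ℤ → ℤ} (hc : ∀ l k, c l k ≠ 0 → l ∈ W ∧ |k| ≤ R)
    {m : List V} (hm : m ≠ []) (j : ℤ) :
    dX (Win W Φ a b) (fun L => c (L.map Prod.fst) (ht L)) (lift Φ m j) =
      ∑ l ∈ W, inc l m * c l (j - ex Φ l m) := by
  have ne : ∀ l ∈ W, l ≠ [] := fun l hl => (hW l hl).1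
  obtain ⟨v, hv⟩ := List.exists_mem_of_ne_nil m hm
  have hp : (v, j + ex Φ m [v]) ∈ lift Φ m j := mem_lift.2 ⟨hv, rfl⟩
  have key : ∀ l ∈ W, ∀ k, inc (lift Φ l k) (lift Φ m j) ≠ 0 →
      inc l m = inc (lift Φ l k) (lift Φ m j) ∧ k = j - ex Φ l m := by
    intro l hl k hi
    have hs := (inc_ne hi).1
    refine ⟨inc_lift hW hΦ hl (hs.subset hp) hp, ?_⟩
    have h1 := hs.map Prod.fst
    rw [fst_lift, fst_lift] at h1
    have h2 := lift_sublist hW hΦ hl h1 (j - ex Φ l m)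
    rw [sub_add_cancel] at h2
    exact lift_inj (hs.subset hp) (h2.subset hp)
  unfold dX
  apply Finset.sum_bij_ne_zero (fun L _ _ => L.map Prod.fst)
  · intro L hL _
    obtain ⟨⟨l, hl, k, rfl⟩, _⟩ := (mem_Win ne).1 hL
    rwa [fst_lift]
  · intro L hL h1 L' hL' h2 h
    obtain ⟨⟨l, hl, k, rfl⟩, _⟩ := (mem_Win ne).1 hL
    obtain ⟨⟨l', hl', k', rfl⟩, _⟩ := (mem_Win ne).1 hL'
    rw [fst_lift, fst_lift] at h
    subst h
    rw [(key l hl k (left_ne_zero_of_mul h1)).2, (key l hl k' (left_ne_zero_of_mul h2)).2]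
  · intro l hl h
    have hs := (inc_ne (left_ne_zero_of_mul h)).1
    have h2 := lift_sublist hW hΦ hl hs (j - ex Φ l m)
    rw [sub_add_cancel] at h2
    have h3 := abs_le.1 (hc _ _ (right_ne_zero_of_mul h)).2
    refine ⟨lift Φ l (j - ex Φ l m), (mem_Win ne).2 ⟨⟨l, hl, _, rfl⟩, ?_⟩, ?_, fst_lift _ _ _⟩
    · intro p hp'
      have := ex_bound hD hl hp'
      omega
    · beta_reduce
      rw [fst_lift, ht_lift Φ (ne l hl), ← inc_lift hW hΦ hl (h2.subset hp) hp]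
      exact h
  · intro L hL h
    obtain ⟨⟨l, hl, k, rfl⟩, _⟩ := (mem_Win ne).1 hL
    obtain ⟨h1, h2⟩ := key l hl k (left_ne_zero_of_mul h)
    beta_reduce
    rw [fst_lift, ht_lift Φ (ne l hl), h1, ← h2]

theorem dC_cob {W : Finset (List V)} (hW : Cx W) {Φ : V → V → ℤ} (hΦ : Coc W Φ)
    (u : List (V × ℤ) → ℚ) (h0 : u [] = 0) {l : List V} (hl : l ∈ W) (k : ℤ) :
    dC W Φ (fun m j => u (lift Φ m j)) l k = cob u (lift Φ l k) := by
  unfold dC
  rw [sum_inc]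
  unfold cob
  rw [length_lift]
  apply Finset.sum_congr rfl
  intro i _
  rw [eraseIdx_lift hW hΦ hl]
  beta_reduce
  by_cases h : l.eraseIdx i = []
  · rw [h, if_neg (fun h => (hW _ h).1 rfl)]
    simp [lift, h0]
  · rw [if_pos ((hW l hl).2.2.1 _ h (List.eraseIdx_sublist _ _))]

theorem dC_three {W : Finset (List V)} (hW : Cx W) (Φ : V → V → ℤ) (f : List V → ℤ → ℚ)
    {u v w : V} (h : [u, v, w] ∈ W) (k : ℤ) :
    dC W Φ f [u, v, w] k = f [v, w] (k + Φ u v) - f [u, w] k + f [u, v] k := by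
  unfold dC
  rw [sum_inc, cob_three, if_pos ((hW _ h).2.2.1 _ (by simp) (by simp)),
    if_pos ((hW _ h).2.2.1 _ (by simp) (by simp)), if_pos ((hW _ h).2.2.1 _ (by simp) (by simp))]
  have : u ≠ v := by
    have := (hW _ h).2.1
    simp only [List.nodup_cons, List.mem_cons, not_or] at this
    exact this.1.1
  simp [ex, this]

theorem dC_sub (W : Finset (List V)) (Φ : V → V → ℤ) (f g : List V → ℤ → ℚ) (l : List V) (k : ℤ) :
    dC W Φ (fun m j => f m j - g m j) l k = dC W Φ f l k - dC W Φ g l k := by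
  unfold dC
  rw [← Finset.sum_sub_distrib]
  apply Finset.sum_congr rfl
  intro m _
  ring

end Pool.Agent.HT.Eta
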