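import Pool.Agent.Lib.MP_dae8ad_gt.H.EtaQ

/-! If every cocycle kills `η`, the class dual to `η` extends with finite support. -/

open Finset Classical

noncomputable section

namespace Pool.Agent.HT.Eta

variable {E : Finset (List A)} {ψ : A → A → ℤ} {V : Type} {W : Finset (List V)}
  {z : List V → ℤ} {Φ : V → V → ℤ} {ι : A → V}

/-- Cocycles on the edges of the infinite cyclic cover. -/
def Z1 (W : Finset (List V)) (Φ : V → V → ℤ) (f : List V → ℤ → ℚ) : Prop :=
  ∀ l ∈ W, l.length = 3 → ∀ k, dC W Φ f l k = 0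

/-- Restriction to the boundary. -/
def res (ι : A → V) (f : List V → ℤ → ℚ) : A → A → ℤ → ℚ := fun a b k => f [ι a, ι b] k

theorem mem_WinB (D : WD E W z Φ ι) {a b : ℤ} {L : List (V × ℤ)} :
    L ∈ Win ((N ∪ E).image (List.map ι)) Φ a b ↔
      (∃ l ∈ N ∪ E, ∃ k, L = lift Φ (l.map ι) k) ∧ ∀ p ∈ L, a ≤ p.2 ∧ p.2 ≤ b := by
  rw [mem_Win fun l hl => (D.hm.2.1 l hl).1]
  simp only [Finset.mem_image]
  constructor
  · rintro ⟨⟨_, ⟨l, hl, rfl⟩, k, e⟩, h⟩
    exact ⟨⟨l, hl, k, e⟩, h⟩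
  · rintro ⟨⟨l, hl, k, e⟩, h⟩
    exact ⟨⟨_, ⟨l, hl, rfl⟩, k, e⟩, h⟩

theorem lift_Q0 (D : WD E W z Φ ι) {l : List A} (hl : l ∈ Q0) :
    lift Φ (l.map ι) 0 = l.map fun a => (ι a, (0 : ℤ)) := by
  rw [lift_map D (Finset.mem_union_left _ (Q0_N hl))]
  apply List.map_congr_left
  intro a ha
  rw [Q0_ex hl ha, add_zero]

theorem extends_u (hE : Ext E ψ) (D : WD E W z Φ ι)
    (hk : ∀ f, Z1 W Φ f → perC (res ι f) 0 = 0) :
    ∃ (n R : ℤ) (F : List V → ℤ → ℚ), n ≠ 0 ∧ (∀ l k, F l k ≠ 0 → |k| ≤ R) ∧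
      (∀ l ∈ W, ∀ k, dC W Φ F l k = 0) ∧ ∀ u v w, [u, v, w] ∈ N ∪ E → ∀ k,
        F [ι u, ι v, ι w] k = ((n * (xi0 (cell u k) (cell v (k + tau u v)) *
          (hv v (k + tau u v) - hv w (k + tau u w))) : ℤ) : ℚ) := by
  have hW : Cx W := D.hm.1
  have ne : ∀ l ∈ W, l ≠ [] := fun l hl => (hW l hl).1
  obtain ⟨c, R, n, hR, hn, hc1, hc2⟩ := bounds_int (W := W) (Φ := Φ)
    (perP fun x y => Finsupp.single ([ι (.inl (x, 1)), ι (.inl (y, 1))], (0 : ℤ)) (1 : ℚ)) (by
      intro f hf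
      have := hk _ hf
      simp only [perC, res, perP] at this
      simp only [perP, map_sub, map_add]
      exact this)
  obtain ⟨d, hd, hD⟩ := exists_width W Φ
  have hm := hm_Win D.hm (fun _ _ _ _ h => h) D.coc hD (-R - 3 * d) (R + 3 * d)
  set X := Win W Φ (-R - 3 * d) (R + 3 * d) with hX
  set B := Win ((N ∪ E).image (List.map ι)) Φ (-R - 3 * d) (R + 3 * d) with hB
  set G : Set (V × ℤ) := {p | -R - d ≤ p.2 ∧ p.2 ≤ R + d} with hG
  have wid : ∀ l ∈ W, ∀ k, ∀ p ∈ lift Φ l k, ∀ q ∈ lift Φ l k, p.2 ≤ q.2 + d := by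
    intro l hl k p hp q hq
    have a := mem_lift.1 hp
    have b := mem_lift.1 hq
    have := hD l hl _ a.1 _ b.1
    have := a.2
    have := b.2
    omega
  set Q : Finset (List (V × ℤ)) := Q0.image (List.map fun a => (ι a, (0 : ℤ))) with hQ
  have memQ : ∀ L, L ∈ Q ↔ ∃ l ∈ Q0, (l.map fun a => (ι a, (0 : ℤ))) = L := by
    intro L; simp only [hQ, Finset.mem_image]
  have vQ : ∀ l ∈ Q0, ∀ a ∈ l, bk E ι (ι a) = a := fun l hl a ha =>
    bk_i D (wd_vert D (Finset.mem_union_left _ (Q0_N hl)) ha)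
  have hQB : Q ⊆ B := by
    intro L hL
    obtain ⟨l, hl, rfl⟩ := (memQ L).1 hL
    refine (mem_WinB D).2 ⟨⟨l, Finset.mem_union_left _ (Q0_N hl), 0, (lift_Q0 D hl).symm⟩, ?_⟩
    intro p hp
    obtain ⟨a, _, rfl⟩ := List.mem_map.1 hp
    simp only
    omega
  have hQG : ∀ L ∈ Q, ∀ p ∈ L, p ∈ G := by
    intro L hL p hp
    obtain ⟨l, hl, rfl⟩ := (memQ L).1 hL
    obtain ⟨a, _, rfl⟩ := List.mem_map.1 hp
    simp only [hG, Set.mem_ofPred_eq]
    omega
  set χ : V × ℤ → ℤ := fun p =>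
    if p.2 = 0 ∧ ∃ x ∈ a0, ∃ r, bk E ι p.1 = .inl (x, r) then 1 else 0 with hχ
  set H : V × ℤ → ℤ := fun p => hv (bk E ι p.1) p.2 with hH
  set ξ : V × ℤ → V × ℤ → ℤ := fun p q =>
    xi0 (cell (bk E ι p.1) p.2) (cell (bk E ι q.1) q.2) with hξ
  have χQ : ∀ l ∈ Q0, ∀ x r, Sum.inl (x, r) ∈ l →
      χ (ι (.inl (x, r)), 0) = if x ∈ a0 then 1 else 0 := by
    intro l hl x r h
    simp only [hχ, vQ l hl _ h, true_and]
    by_cases hx : x ∈ a0
    · rw [if_pos hx, if_pos ⟨x, hx, r, rfl⟩]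
    · rw [if_neg hx, if_neg]
      rintro ⟨y, hy, r', e⟩
      cases e
      exact hx hy
  have HQ : ∀ l ∈ Q0, ∀ x r, Sum.inl (x, r) ∈ l →
      H (ι (.inl (x, r)), 0) = if 1 ≤ r.1 then 1 else 0 := by
    intro l hl x r h
    simp only [hH, vQ l hl _ h, hv, lev]
    split_ifs <;> omega
  have cupE : ∀ u v w, [u, v, w] ∈ N ∪ E → ∀ k, cupH ξ H (lift Φ [ι u, ι v, ι w] k) =
      xi0 (cell u k) (cell v (k + tau u v)) * (hv v (k + tau u v) - hv w (k + tau u w)) := by
    intro u v w h k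
    rw [lift_three D h]
    simp only [cupH, hξ, hH]
    rw [bk_i D (wd_vert D h (by simp : u ∈ [u, v, w])),
      bk_i D (wd_vert D h (by simp : v ∈ [u, v, w])),
      bk_i D (wd_vert D h (by simp : w ∈ [u, v, w]))]
  have cupQ : ∀ u v w, [u, v, w] ∈ N ∪ E → ∀ k, cupH ξ H (lift Φ [ι u, ι v, ι w] k) ≠ 0 →
      lift Φ [ι u, ι v, ι w] k ∈ Q := by
    intro u v w h k h0
    rw [cupE u v w h] at h0
    obtain ⟨h1, rfl, h2, _, x₀, x₁, h3, h4⟩ := cross hE h (sub_ne_zero.1 (right_ne_zero_of_mul h0))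
    have h5 := xi0_ne (left_ne_zero_of_mul h0)
    obtain ⟨⟨x, r, rfl⟩, y, r', rfl⟩ := lt6_left (tri_Tot.1 (N_Tot h1)).1
    rw [h2] at h5
    simp only [cell, add_zero, zpow_zero, Equiv.Perm.coe_one, id_eq] at h5
    have h6 : [Sum.inl (x, r), Sum.inl (y, r'), w] ∈ Q0 := by
      rcases h5 with h5 | h5
      · exact Q0_of (N_Tot h1) h3 h4 (rp := r) (rq := r') (by simp) (by simp) h5.1 h5.2
      · exact Q0_of (N_Tot h1) h3 h4 (rp := r') (rq := r) (by simp) (by simp) h5.2 h5.1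
    exact (memQ _).2 ⟨_, h6, (lift_Q0 D h6).symm⟩
  have hu : ∀ p q r, [p, q, r] ∈ B → cupH ξ H [p, q, r] ≠ 0 → [p, q, r] ∈ Q := by
    intro p q r h h0
    obtain ⟨⟨l, hl, k, e⟩, _⟩ := (mem_WinB D).1 h
    have hl3 : l.length = 3 := by
      have := congrArg List.length e
      rw [length_lift] at this
      simpa using this.symm
    obtain ⟨u, v, w, rfl⟩ := List.length_eq_three.1 hl3
    rw [e] at h0 ⊢
    exact cupQ u v w hl k h0
  obtain ⟨v, hv1, hv2⟩ := slab_extend hm G (by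
      intro σ hσ ⟨w, hw, hwG⟩ p hp
      obtain ⟨⟨l, hl, k, rfl⟩, _⟩ := (mem_Win ne).1 hσ
      have a := wid l hl k p hp w hw
      have b := wid l hl k w hw p hp
      simp only [hG, Set.mem_ofPred_eq] at hwG ⊢
      omega) Q hQB (by
      intro L hL M hM hs
      obtain ⟨l, hl, rfl⟩ := (memQ L).1 hL
      obtain ⟨m, hm, rfl⟩ := List.sublist_map_iff.1 hs
      exact (memQ _).2 ⟨m, Q0_sub hl (by rintro rfl; exact hM rfl) hm, rfl⟩) hQG χ H ξ (by
      intro p
      simp only [hχ]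
      split_ifs <;> simp) (by
      intro p
      simp only [hH, hv]
      split_ifs <;> simp) (by
      intro p hp
      have : p.2 = 0 := by
        by_contra hn
        exact hp (by simp only [hχ]; rw [if_neg fun h => hn h.1])
      simp only [hG, Set.mem_ofPred_eq]
      omega) (by
      intro p q h
      obtain ⟨l, hl, e⟩ := (memQ _).1 h
      obtain ⟨u, v, rfl⟩ := List.length_eq_two.1 (by simpa using congrArg List.length e :
        l.length = 2)
      simp only [List.map_cons, List.map_nil, List.cons.injEq, and_true] at e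
      obtain ⟨rfl, rfl⟩ := e
      obtain ⟨x, r, rfl, hx, _⟩ := (mem_Q0.1 hl).2 u (by simp)
      obtain ⟨y, r', rfl, hy, _⟩ := (mem_Q0.1 hl).2 v (by simp)
      rw [χQ _ hl x r (by simp), χQ _ hl y r' (by simp), ← xi0_ann hx hy]
      simp only [hξ]
      rw [vQ _ hl _ (by simp), vQ _ hl _ (by simp)]
      simp [cell]) (fun p q r h h1 h2 => hu p q r h (mul_ne_zero h1 (sub_ne_zero.2 h2))) (by
      intro M hM τ hτ hs ⟨p, hp, q, hq, hpq⟩ ⟨p', hp', q', hq', hpq'⟩
      obtain ⟨m, hm, rfl⟩ := (memQ _).1 hM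
      obtain ⟨⟨l, hl, k, rfl⟩, _⟩ := (mem_WinB D).1 hτ
      have sub : ∀ a ∈ m, a ∈ l ∧ k + ex tau l [a] = 0 := by
        intro a ha
        have := hs.subset (List.mem_map.2 ⟨a, ha, rfl⟩)
        rw [lift_map D hl] at this
        obtain ⟨a', ha', e⟩ := List.mem_map.1 this
        obtain ⟨e1, e2⟩ := Prod.mk.inj e
        have := D.inj _ _ (wd_vert D hl ha') (wd_vert D (Finset.mem_union_left _ (Q0_N hm)) ha) e1
        subst this
        exact ⟨ha', e2⟩
      obtain ⟨u, hu, rfl⟩ := List.mem_map.1 hp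
      obtain ⟨w, hw, rfl⟩ := List.mem_map.1 hq
      obtain ⟨u', hu', rfl⟩ := List.mem_map.1 hp'
      obtain ⟨w', hw', rfl⟩ := List.mem_map.1 hq'
      obtain ⟨x, r, rfl, _, hr⟩ := (mem_Q0.1 hm).2 u hu
      obtain ⟨y, s, rfl, _, hs'⟩ := (mem_Q0.1 hm).2 w hw
      obtain ⟨x', r', rfl, hx', _⟩ := (mem_Q0.1 hm).2 u' hu'
      obtain ⟨y', s', rfl, hy', _⟩ := (mem_Q0.1 hm).2 w' hw'
      rw [HQ m hm x r hu, HQ m hm y s hw] at hpq
      rw [χQ m hm x' r' hu', χQ m hm y' s' hw'] at hpq'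
      have l01 : ∃ x₀ x₁, Sum.inl (x₀, 0) ∈ m ∧ Sum.inl (x₁, 1) ∈ m := by
        rcases hr with rfl | rfl <;> rcases hs' with rfl | rfl
        · exact absurd rfl hpq
        · exact ⟨x, y, hu, hw⟩
        · exact ⟨y, x, hw, hu⟩
        · exact absurd rfl hpq
      have a01 : ∃ p q rp rq, Sum.inl (p, rp) ∈ m ∧ Sum.inl (q, rq) ∈ m ∧ p ∈ a0 ∧ q ∈ a1 := by
        by_cases h1 : x' ∈ a0 <;> by_cases h2 : y' ∈ a0
        · simp [h1, h2] at hpq'
        · exact ⟨x', y', r', s', hu', hw', h1, (List.mem_append.1 hy').resolve_left h2⟩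
        · exact ⟨y', x', s', r', hw', hu', h2, (List.mem_append.1 hx').resolve_left h1⟩
        · simp [h1, h2] at hpq'
      obtain ⟨x₀, x₁, h0, h1⟩ := l01
      obtain ⟨p, q, rp, rq, h2, h3, h4, h5⟩ := a01
      have hN : l ∈ N := by
        refine (Finset.mem_union.1 hl).resolve_right fun hlE => ?_
        have := ext_sub hE l hlE _ (by simp) (List.singleton_sublist.2 (sub _ h0).1)
        obtain ⟨_, _, e, _, hr⟩ :=
          (mem_S.1 (mem_T.1 (hE.2.1 _ this (by simp))).1).2 _ (List.mem_singleton_self _)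
        cases e
        simp at hr
      have hl0 := Q0_of (N_Tot hN) (sub _ h0).1 (sub _ h1).1 (sub _ h2).1 (sub _ h3).1 h4 h5
      have hk0 := (sub _ h0).2
      rw [Q0_ex hl0 (sub _ h0).1, add_zero] at hk0
      subst hk0
      exact (memQ _).2 ⟨l, hl0, (lift_Q0 D hl0).symm⟩) n
      (fun s => if s ∈ B then cupH ξ H s else 0) (fun s hs => if_pos hs) (fun s hs => if_neg hs) (by
      intro y hy1 hy2
      obtain ⟨κ, hκ⟩ := core_cycle D (X := X) (by
          intro p hp
          obtain ⟨h1, h2, h3⟩ := etaE_mem p hp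
          refine hm.2.2.1 (hQB ((memQ _).2 ⟨[.inl (p.1, 1), .inl (p.2, 1)], mem_Q0.2
            ⟨edge_Tot.2 (Or.inl ⟨rfl, h3⟩), ?_⟩, rfl⟩))
          intro v hv
          rcases List.mem_pair.1 hv with rfl | rfl
          · exact ⟨_, _, rfl, List.mem_append_left _ h1, Or.inr rfl⟩
          · exact ⟨_, _, rfl, List.mem_append_left _ h2, Or.inr rfl⟩) y (by
          intro e he hl h0
          obtain ⟨h1, h2⟩ := hy1 e he hl h0
          obtain ⟨l, hl', rfl⟩ := (memQ _).1 h1
          obtain ⟨u, v, rfl⟩ := List.length_eq_two.1 (by simpa using hl : l.length = 2)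
          obtain ⟨x, r, rfl, _, hr⟩ := (mem_Q0.1 hl').2 u (by simp)
          obtain ⟨y, r', rfl, _, hr'⟩ := (mem_Q0.1 hl').2 v (by simp)
          have a := h2 (ι (.inl (x, r)), 0) (by simp)
          have b := h2 (ι (.inl (y, r')), 0) (by simp)
          rw [χQ _ hl' x r (by simp), HQ _ hl' x r (by simp)] at a
          rw [χQ _ hl' y r' (by simp), HQ _ hl' y r' (by simp)] at b
          have hx : x ∈ a0 := by
            by_contra hn; simp [hn] at a
          have hy : y ∈ a0 := by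
            by_contra hn; simp [hn] at b
          have e1 : r = 1 := hr.resolve_left (by rintro rfl; simp at a)
          have e2 : r' = 1 := hr'.resolve_left (by rintro rfl; simp at b)
          subst e1 e2
          have hlt : x.lt y = true := by simpa [lt6] using edge_Tot.1 (mem_Q0.1 hl').1
          exact ⟨(x, y), etaE_spec x hx y hy hlt, rfl⟩) hy2
      refine ⟨fun L => κ * c (L.map Prod.fst) (ht L), ?_, ?_⟩
      · intro τ hτ h0 p hp
        obtain ⟨⟨l, hl, k, rfl⟩, _⟩ := (mem_Win ne).1 hτ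
        have h1 := right_ne_zero_of_mul h0
        rw [fst_lift, ht_lift Φ (ne l hl)] at h1
        have h2 := abs_le.1 (hc1 l k h1).2
        have := ex_bound hD hl hp
        simp only [hG, Set.mem_ofPred_eq]
        omega
      · intro e he hl
        rw [dX_mul, hκ e he hl]
        obtain ⟨⟨m, hm', j, rfl⟩, _⟩ := (mem_Win ne).1 he
        rw [hX, dX_lift hW D.coc hD (by omega) (by omega) hc1 (ne m hm')]
        have h1 := hc2 m hm' j
        have h2 : (perP fun x y => Finsupp.single ([ι (.inl (x, 1)), ι (.inl (y, 1))], (0 : ℤ))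
            (1 : ℚ)) (m, j) = ((perP fun a b => if lift Φ m j = ed ι a b then (1 : ℤ) else 0 : ℤ) :
              ℚ) := by
          have t : ∀ x ∈ a0, ∀ y ∈ a0, x.lt y = true →
              (Finsupp.single ([ι (.inl (x, 1)), ι (.inl (y, 1))], (0 : ℤ)) (1 : ℚ)) (m, j) =
              ((if lift Φ m j = ed ι x y then (1 : ℤ) else 0 : ℤ) : ℚ) + 0 - 0 := by
            intro x hx y hy hlt
            have q0 : [(Sum.inl (x, 1) : A), .inl (y, 1)] ∈ Q0 := by
              refine mem_Q0.2 ⟨edge_Tot.2 (Or.inl ⟨rfl, hlt⟩), ?_⟩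
              intro v hv
              rcases List.mem_pair.1 hv with rfl | rfl
              · exact ⟨_, _, rfl, List.mem_append_left _ hx, Or.inr rfl⟩
              · exact ⟨_, _, rfl, List.mem_append_left _ hy, Or.inr rfl⟩
            have q1 : lift Φ [ι (.inl (x, 1)), ι (.inl (y, 1))] 0 = ed ι x y := lift_Q0 D q0
            rw [Finsupp.single_apply]
            by_cases hh : lift Φ m j = ed ι x y
            · have b1 := congrArg (List.map Prod.fst) hh
              have b2 := congrArg ht hh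
              rw [fst_lift] at b1
              rw [ht_lift Φ (ne m hm')] at b2
              rw [if_pos hh, if_pos (by rw [b1, b2]; rfl)]
              simp
            · rw [if_neg hh, if_neg]
              · simp
              · intro e
                obtain ⟨rfl, rfl⟩ := Prod.mk.inj e
                exact hh q1
          have := pe_congr (fun _ => (0 : ℚ)) t
          simp only [perP] at this ⊢
          simp only [Finsupp.sub_apply, Finsupp.add_apply]
          rw [this]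
          simp only [Int.cast_sub, Int.cast_add]
        rw [h2] at h1
        have h3 : n * (perP fun a b => if lift Φ m j = ed ι a b then (1 : ℤ) else 0) =
            ∑ l ∈ W, inc l m * c l (j - ex Φ l m) := by exact_mod_cast h1
        rw [← h3]
        ring)
  set U : List (V × ℤ) → ℤ := fun s => n * (if s ∈ B then cupH ξ H s else 0) - v s with hU
  have Us : ∀ s, U s ≠ 0 → s ∈ X ∧ s.length = 3 ∧ ∃ p ∈ s, p ∈ G := by
    intro s hs
    by_cases h0 : v s = 0
    · have h1 : (if s ∈ B then cupH ξ H s else 0) ≠ 0 := by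
        intro h; exact hs (by simp only [hU]; rw [h, h0]; simp)
      have h2 : s ∈ B := by
        by_contra hn'; exact h1 (if_neg hn')
      rw [if_pos h2] at h1
      have h3 : ∃ p q r, s = [p, q, r] := by
        unfold cupH at h1
        split at h1
        · exact ⟨_, _, _, rfl⟩
        · exact absurd rfl h1
      obtain ⟨p, q, r, rfl⟩ := h3
      exact ⟨hm.2.2.1 h2, rfl, p, by simp, hQG _ (hu p q r h2 h1) p (by simp)⟩
    · exact ⟨(hv1 s h0).1, (hv1 s h0).2.2.1, (hv1 s h0).2.2.2⟩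
  refine ⟨n, R + 3 * d, fun l k => (U (lift Φ l k) : ℚ), hn, ?_, ?_, ?_⟩
  · intro l k h
    obtain ⟨h1, h2, _⟩ := Us (lift Φ l k) (fun h0 => h (by simp only [h0, Int.cast_zero]))
    rw [length_lift] at h2
    obtain ⟨a, b, c, rfl⟩ := List.length_eq_three.1 h2
    have := ((mem_Win ne).1 h1).2 (a, k) (mem_lift.2 ⟨by simp, by simp [ex]⟩)
    rw [abs_le]
    simp only at this
    omega
  · intro l hl k
    rw [dC_cob hW D.coc (fun s => (U s : ℚ)) (by
      have : U [] = 0 := by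
        by_contra hn'
        simpa using (Us _ hn').2.1
      simp [this]) hl]
    have : cob U (lift Φ l k) = 0 := by
      by_cases h : lift Φ l k ∈ X ∧ (lift Φ l k).length = 4
      · exact hv2 _ h.1 h.2
      · apply cob_zero
        intro s hs hl'
        by_contra hn'
        obtain ⟨_, h2, p, hp, hpG⟩ := Us s hn'
        refine h ⟨(mem_Win ne).2 ⟨⟨l, hl, k, rfl⟩, fun q hq => ?_⟩, by omega⟩
        have a := wid l hl k q hq p (hs.subset hp)
        have b := wid l hl k p (hs.subset hp) q hq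
        simp only [hG, Set.mem_ofPred_eq] at hpG
        omega
    simp only [cob] at this ⊢
    exact_mod_cast this
  · intro u v' w h k
    rw [← cupE u v' w h k]
    have h0 : v (lift Φ [ι u, ι v', ι w] k) = 0 := by
      by_contra hn'
      obtain ⟨h1, h2, _⟩ := hv1 _ hn'
      exact h2 ((mem_WinB D).2 ⟨⟨_, h, k, rfl⟩, ((mem_Win ne).1 h1).2⟩)
    simp only [hU, h0, sub_zero]
    by_cases h1 : cupH ξ H (lift Φ [ι u, ι v', ι w] k) = 0
    · simp [h1]
    · rw [if_pos (hQB (cupQ u v' w h k h1))]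

end Pool.Agent.HT.Eta
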