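import Pool.Agent.Lib.MP_dae8ad_gt.H.EtaS

/-! The first cohomology of the solid torus is detected by the period. -/

noncomputable section

namespace Pool.Agent.HT.Eta

/-- A primitive along a spanning tree of the annulus. -/
def gam (β : P → P → ℤ) (x : P) : ℤ :=
  if x = (.a false 0) then 0 else
  if x = (.e false 0) then 0 + β (.a false 0) (.e false 0) else
  if x = (.b false 0) then 0 + β (.a false 0) (.e false 0) - β (.b false 0) (.e false 0) else
  if x = (.e false 10) then 0 + β (.a false 0) (.e false 0) - β (.b false 0) (.e false 0) + β (.b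
    false 0) (.e false 10) else
  if x = (.a false 1) then 0 + β (.a false 0) (.e false 0) - β (.b false 0) (.e false 0) + β (.b
    false 0) (.e false 10) - β (.a false 1) (.e false 10) else
  if x = (.e false 1) then 0 + β (.a false 0) (.e false 0) - β (.b false 0) (.e false 0) + β (.b
    false 0) (.e false 10) - β (.a false 1) (.e false 10) + β (.a false 1) (.e false 1) else
  if x = (.b false 1) then 0 + β (.a false 0) (.e false 0) - β (.b false 0) (.e false 0) + β (.b
    false 0) (.e false 10) - β (.a false 1) (.e false 10) + β (.a false 1) (.e false 1) - β (.b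
    false 1) (.e false 1) else
  if x = (.e false 6) then 0 + β (.a false 0) (.e false 0) - β (.b false 0) (.e false 0) + β (.b
    false 0) (.e false 10) - β (.a false 1) (.e false 10) + β (.a false 1) (.e false 1) - β (.b
    false 1) (.e false 1) + β (.b false 1) (.e false 6) else
  if x = (.f 0) then 0 + β (.a false 0) (.f 0) else
  if x = (.w 1) then 0 + β (.a false 0) (.e false 0) - β (.b false 0) (.e false 0) + β (.b false
    0) (.w 1) else
  if x = (.f 1) then 0 + β (.a false 0) (.e false 0) - β (.b false 0) (.e false 0) + β (.b false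
    0) (.f 1) else
  if x = (.w 2) then 0 + β (.a false 0) (.e false 0) - β (.b false 0) (.e false 0) + β (.b false
    0) (.e false 10) - β (.a false 1) (.e false 10) + β (.a false 1) (.w 2) else
  if x = (.f 2) then 0 + β (.a false 0) (.e false 0) - β (.b false 0) (.e false 0) + β (.b false
    0) (.e false 10) - β (.a false 1) (.e false 10) + β (.a false 1) (.f 2) else
  if x = (.w 3) then 0 + β (.a false 0) (.e false 0) - β (.b false 0) (.e false 0) + β (.b false
    0) (.e false 10) - β (.a false 1) (.e false 10) + β (.a false 1) (.e false 1) - β (.b false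
    1) (.e false 1) + β (.b false 1) (.w 3) else
  if x = (.f 3) then 0 + β (.a false 0) (.e false 0) - β (.b false 0) (.e false 0) + β (.b false
    0) (.e false 10) - β (.a false 1) (.e false 10) + β (.a false 1) (.e false 1) - β (.b false
    1) (.e false 1) + β (.b false 1) (.f 3) else
  if x = (.e false 11) then 0 + β (.a false 0) (.e false 0) - β (.b false 0) (.e false 0) + β (.b
    false 0) (.e false 10) - β (.a false 1) (.e false 10) + β (.a false 1) (.e false 1) - β (.b
    false 1) (.e false 1) + β (.b false 1) (.e false 11) else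
  if x = (.f 22) then 0 + β (.a false 0) (.e false 0) - β (.b false 0) (.e false 0) + β (.b false
    0) (.e false 10) - β (.a false 1) (.e false 10) + β (.a false 1) (.e false 1) - β (.b false
    1) (.e false 1) + β (.b false 1) (.f 22) else
  if x = (.w 23) then 0 + β (.a false 0) (.e false 0) - β (.b false 0) (.e false 0) + β (.b false
    0) (.e false 10) - β (.a false 1) (.e false 10) + β (.a false 1) (.e false 1) - β (.b false
    1) (.e false 1) + β (.b false 1) (.w 23) else
  if x = (.f 23) then 0 + β (.a false 0) (.f 23) else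
  if x = (.w 24) then 0 + β (.a false 0) (.w 24) else
  if x = (.f 24) then 0 + β (.a false 0) (.f 24) else
  if x = (.e false 12) then 0 + β (.a false 0) (.e false 12) else
  if x = (.f 5) then 0 + β (.a false 0) (.f 5) else
  if x = (.w 6) then 0 + β (.a false 0) (.w 6) else
  if x = (.f 6) then 0 + β (.a false 0) (.f 6) else
  if x = (.e false 3) then 0 + β (.a false 0) (.e false 3) else
  if x = (.f 17) then 0 + β (.a false 0) (.f 17) else
  if x = (.w 18) then 0 + β (.a false 0) (.w 18) else
  if x = (.f 18) then 0 + β (.a false 0) (.f 18) else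
  if x = (.e false 9) then 0 + β (.a false 0) (.e false 9) else
  if x = (.f 29) then 0 + β (.a false 0) (.f 29) else
  if x = (.w 0) then 0 + β (.a false 0) (.w 0) else
  0

/-- The edges of the annulus. -/
def annE : List (P × P) :=
  [(.a false 0, .e false 0), (.a false 0, .e false 6), (.a false 0, .f 0), (.a false 0, .f 23),
    (.a false 0, .w 24), (.a false 0, .f 24), (.a false 0, .e false 12), (.a false 0, .f 5), (.a
    false 0, .w 6), (.a false 0, .f 6), (.a false 0, .e false 3), (.a false 0, .f 17), (.a false
    0, .w 18), (.a false 0, .f 18), (.a false 0, .e false 9), (.a false 0, .f 29), (.a false 0,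
    .w 0), (.e false 0, .f 0), (.b false 0, .e false 0), (.b false 0, .e false 10), (.b false 0,
    .f 0), (.b false 0, .w 1), (.b false 0, .f 1), (.e false 10, .f 1), (.a false 1, .e false
    10), (.a false 1, .e false 1), (.a false 1, .f 1), (.a false 1, .w 2), (.a false 1, .f 2),
    (.e false 1, .f 2), (.b false 1, .e false 1), (.b false 1, .e false 6), (.b false 1, .f 2),
    (.b false 1, .w 3), (.b false 1, .f 3), (.b false 1, .e false 11), (.b false 1, .f 22), (.b
    false 1, .w 23), (.b false 1, .f 23), (.e false 6, .f 23), (.w 1, .f 0), (.w 1, .f 1), (.w 2,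
    .f 1), (.w 2, .f 2), (.w 3, .f 2), (.w 3, .f 3), (.e false 11, .f 3), (.e false 11, .f 22),
    (.w 23, .f 22), (.w 23, .f 23), (.w 24, .f 23), (.w 24, .f 24), (.e false 12, .f 24), (.e
    false 12, .f 5), (.w 6, .f 5), (.w 6, .f 6), (.e false 3, .f 6), (.e false 3, .f 17), (.w 18,
    .f 17), (.w 18, .f 18), (.e false 9, .f 18), (.e false 9, .f 29), (.w 0, .f 0), (.w 0, .f
    29)]

theorem annE_spec : ∀ x ∈ a0 ++ a1, ∀ y ∈ a0 ++ a1, x.lt y = true → (x, y) ∈ annE := by
  decide +kernel

theorem ann_H1 (β : P → P → ℤ)
    (h : ∀ x ∈ a0 ++ a1, ∀ y ∈ a0 ++ a1, ∀ w ∈ a0 ++ a1, x.lt y = true → y.lt w = true →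
      x.lt w = true → β x w = β x y + β y w) (hp : perP β = 0) :
    ∀ x ∈ a0 ++ a1, ∀ y ∈ a0 ++ a1, x.lt y = true → β x y = gam β y - gam β x := by
  have t0 := h (.a false 0) (by decide) (.e false 0) (by decide) (.f 0) (by decide) rfl rfl rfl
  have t1 := h (.a false 0) (by decide) (.e false 6) (by decide) (.f 23) (by decide) rfl rfl rfl
  have t2 := h (.a false 0) (by decide) (.w 24) (by decide) (.f 23) (by decide) rfl rfl rfl
  have t3 := h (.a false 0) (by decide) (.w 24) (by decide) (.f 24) (by decide) rfl rfl rfl
  have t4 := h (.a false 0) (by decide) (.e false 12) (by decide) (.f 24) (by decide) rfl rfl rfl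
  have t5 := h (.a false 0) (by decide) (.e false 12) (by decide) (.f 5) (by decide) rfl rfl rfl
  have t6 := h (.a false 0) (by decide) (.w 6) (by decide) (.f 5) (by decide) rfl rfl rfl
  have t7 := h (.a false 0) (by decide) (.w 6) (by decide) (.f 6) (by decide) rfl rfl rfl
  have t8 := h (.a false 0) (by decide) (.e false 3) (by decide) (.f 6) (by decide) rfl rfl rfl
  have t9 := h (.a false 0) (by decide) (.e false 3) (by decide) (.f 17) (by decide) rfl rfl rfl
  have t10 := h (.a false 0) (by decide) (.w 18) (by decide) (.f 17) (by decide) rfl rfl rfl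
  have t11 := h (.a false 0) (by decide) (.w 18) (by decide) (.f 18) (by decide) rfl rfl rfl
  have t12 := h (.a false 0) (by decide) (.e false 9) (by decide) (.f 18) (by decide) rfl rfl rfl
  have t13 := h (.a false 0) (by decide) (.e false 9) (by decide) (.f 29) (by decide) rfl rfl rfl
  have t14 := h (.a false 0) (by decide) (.w 0) (by decide) (.f 0) (by decide) rfl rfl rfl
  have t15 := h (.a false 0) (by decide) (.w 0) (by decide) (.f 29) (by decide) rfl rfl rfl
  have t16 := h (.b false 0) (by decide) (.e false 0) (by decide) (.f 0) (by decide) rfl rfl rfl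
  have t17 := h (.b false 0) (by decide) (.e false 10) (by decide) (.f 1) (by decide) rfl rfl rfl
  have t18 := h (.b false 0) (by decide) (.w 1) (by decide) (.f 0) (by decide) rfl rfl rfl
  have t19 := h (.b false 0) (by decide) (.w 1) (by decide) (.f 1) (by decide) rfl rfl rfl
  have t20 := h (.a false 1) (by decide) (.e false 10) (by decide) (.f 1) (by decide) rfl rfl rfl
  have t21 := h (.a false 1) (by decide) (.e false 1) (by decide) (.f 2) (by decide) rfl rfl rfl
  have t22 := h (.a false 1) (by decide) (.w 2) (by decide) (.f 1) (by decide) rfl rfl rfl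
  have t23 := h (.a false 1) (by decide) (.w 2) (by decide) (.f 2) (by decide) rfl rfl rfl
  have t24 := h (.b false 1) (by decide) (.e false 1) (by decide) (.f 2) (by decide) rfl rfl rfl
  have t25 := h (.b false 1) (by decide) (.e false 6) (by decide) (.f 23) (by decide) rfl rfl rfl
  have t26 := h (.b false 1) (by decide) (.w 3) (by decide) (.f 2) (by decide) rfl rfl rfl
  have t27 := h (.b false 1) (by decide) (.w 3) (by decide) (.f 3) (by decide) rfl rfl rfl
  have t28 := h (.b false 1) (by decide) (.e false 11) (by decide) (.f 3) (by decide) rfl rfl rfl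
  have t29 := h (.b false 1) (by decide) (.e false 11) (by decide) (.f 22) (by decide) rfl rfl rfl
  have t30 := h (.b false 1) (by decide) (.w 23) (by decide) (.f 22) (by decide) rfl rfl rfl
  have t31 := h (.b false 1) (by decide) (.w 23) (by decide) (.f 23) (by decide) rfl rfl rfl
  unfold perP at hp
  have key : ∀ p ∈ annE, β p.1 p.2 = gam β p.2 - gam β p.1 := by
    intro p hp'
    simp only [annE, List.mem_cons, List.not_mem_nil, or_false] at hp'
    rcases hp' with rfl | rfl | rfl | rfl | rfl | rfl | rfl | rfl | rfl | rfl | rfl | rfl | rfl |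
      rfl | rfl | rfl | rfl | rfl | rfl | rfl | rfl | rfl | rfl | rfl | rfl | rfl | rfl | rfl |
      rfl | rfl | rfl | rfl | rfl | rfl | rfl | rfl | rfl | rfl | rfl | rfl | rfl | rfl | rfl |
      rfl | rfl | rfl | rfl | rfl | rfl | rfl | rfl | rfl | rfl | rfl | rfl | rfl | rfl | rfl |
      rfl | rfl | rfl | rfl | rfl | rfl
    · show β (.a false 0) (.e false 0) = (0 + β (.a false 0) (.e false 0)) - (0)
      omega
    · show β (.a false 0) (.e false 6) = (0 + β (.a false 0) (.e false 0) - β (.b false 0) (.e
      false 0) + β (.b false 0) (.e false 10) - β (.a false 1) (.e false 10) + β (.a false 1) (.e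
      false 1) - β (.b false 1) (.e false 1) + β (.b false 1) (.e false 6)) - (0)
      omega
    · show β (.a false 0) (.f 0) = (0 + β (.a false 0) (.f 0)) - (0)
      omega
    · show β (.a false 0) (.f 23) = (0 + β (.a false 0) (.f 23)) - (0)
      omega
    · show β (.a false 0) (.w 24) = (0 + β (.a false 0) (.w 24)) - (0)
      omega
    · show β (.a false 0) (.f 24) = (0 + β (.a false 0) (.f 24)) - (0)
      omega
    · show β (.a false 0) (.e false 12) = (0 + β (.a false 0) (.e false 12)) - (0)
      omega
    · show β (.a false 0) (.f 5) = (0 + β (.a false 0) (.f 5)) - (0)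
      omega
    · show β (.a false 0) (.w 6) = (0 + β (.a false 0) (.w 6)) - (0)
      omega
    · show β (.a false 0) (.f 6) = (0 + β (.a false 0) (.f 6)) - (0)
      omega
    · show β (.a false 0) (.e false 3) = (0 + β (.a false 0) (.e false 3)) - (0)
      omega
    · show β (.a false 0) (.f 17) = (0 + β (.a false 0) (.f 17)) - (0)
      omega
    · show β (.a false 0) (.w 18) = (0 + β (.a false 0) (.w 18)) - (0)
      omega
    · show β (.a false 0) (.f 18) = (0 + β (.a false 0) (.f 18)) - (0)
      omega
    · show β (.a false 0) (.e false 9) = (0 + β (.a false 0) (.e false 9)) - (0)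
      omega
    · show β (.a false 0) (.f 29) = (0 + β (.a false 0) (.f 29)) - (0)
      omega
    · show β (.a false 0) (.w 0) = (0 + β (.a false 0) (.w 0)) - (0)
      omega
    · show β (.e false 0) (.f 0) = (0 + β (.a false 0) (.f 0)) - (0 + β (.a false 0) (.e false
      0))
      omega
    · show β (.b false 0) (.e false 0) = (0 + β (.a false 0) (.e false 0)) - (0 + β (.a false 0)
      (.e false 0) - β (.b false 0) (.e false 0))
      omega
    · show β (.b false 0) (.e false 10) = (0 + β (.a false 0) (.e false 0) - β (.b false 0) (.e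
      false 0) + β (.b false 0) (.e false 10)) - (0 + β (.a false 0) (.e false 0) - β (.b false
      0) (.e false 0))
      omega
    · show β (.b false 0) (.f 0) = (0 + β (.a false 0) (.f 0)) - (0 + β (.a false 0) (.e false 0)
      - β (.b false 0) (.e false 0))
      omega
    · show β (.b false 0) (.w 1) = (0 + β (.a false 0) (.e false 0) - β (.b false 0) (.e false 0)
      + β (.b false 0) (.w 1)) - (0 + β (.a false 0) (.e false 0) - β (.b false 0) (.e false 0))
      omega
    · show β (.b false 0) (.f 1) = (0 + β (.a false 0) (.e false 0) - β (.b false 0) (.e false 0)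
      + β (.b false 0) (.f 1)) - (0 + β (.a false 0) (.e false 0) - β (.b false 0) (.e false 0))
      omega
    · show β (.e false 10) (.f 1) = (0 + β (.a false 0) (.e false 0) - β (.b false 0) (.e false
      0) + β (.b false 0) (.f 1)) - (0 + β (.a false 0) (.e false 0) - β (.b false 0) (.e false
      0) + β (.b false 0) (.e false 10))
      omega
    · show β (.a false 1) (.e false 10) = (0 + β (.a false 0) (.e false 0) - β (.b false 0) (.e
      false 0) + β (.b false 0) (.e false 10)) - (0 + β (.a false 0) (.e false 0) - β (.b false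
      0) (.e false 0) + β (.b false 0) (.e false 10) - β (.a false 1) (.e false 10))
      omega
    · show β (.a false 1) (.e false 1) = (0 + β (.a false 0) (.e false 0) - β (.b false 0) (.e
      false 0) + β (.b false 0) (.e false 10) - β (.a false 1) (.e false 10) + β (.a false 1) (.e
      false 1)) - (0 + β (.a false 0) (.e false 0) - β (.b false 0) (.e false 0) + β (.b false 0)
      (.e false 10) - β (.a false 1) (.e false 10))
      omega
    · show β (.a false 1) (.f 1) = (0 + β (.a false 0) (.e false 0) - β (.b false 0) (.e false 0)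
      + β (.b false 0) (.f 1)) - (0 + β (.a false 0) (.e false 0) - β (.b false 0) (.e false 0) +
      β (.b false 0) (.e false 10) - β (.a false 1) (.e false 10))
      omega
    · show β (.a false 1) (.w 2) = (0 + β (.a false 0) (.e false 0) - β (.b false 0) (.e false 0)
      + β (.b false 0) (.e false 10) - β (.a false 1) (.e false 10) + β (.a false 1) (.w 2)) - (0
      + β (.a false 0) (.e false 0) - β (.b false 0) (.e false 0) + β (.b false 0) (.e false 10)
      - β (.a false 1) (.e false 10))
      omega
    · show β (.a false 1) (.f 2) = (0 + β (.a false 0) (.e false 0) - β (.b false 0) (.e false 0)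
      + β (.b false 0) (.e false 10) - β (.a false 1) (.e false 10) + β (.a false 1) (.f 2)) - (0
      + β (.a false 0) (.e false 0) - β (.b false 0) (.e false 0) + β (.b false 0) (.e false 10)
      - β (.a false 1) (.e false 10))
      omega
    · show β (.e false 1) (.f 2) = (0 + β (.a false 0) (.e false 0) - β (.b false 0) (.e false 0)
      + β (.b false 0) (.e false 10) - β (.a false 1) (.e false 10) + β (.a false 1) (.f 2)) - (0
      + β (.a false 0) (.e false 0) - β (.b false 0) (.e false 0) + β (.b false 0) (.e false 10)
      - β (.a false 1) (.e false 10) + β (.a false 1) (.e false 1))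
      omega
    · show β (.b false 1) (.e false 1) = (0 + β (.a false 0) (.e false 0) - β (.b false 0) (.e
      false 0) + β (.b false 0) (.e false 10) - β (.a false 1) (.e false 10) + β (.a false 1) (.e
      false 1)) - (0 + β (.a false 0) (.e false 0) - β (.b false 0) (.e false 0) + β (.b false 0)
      (.e false 10) - β (.a false 1) (.e false 10) + β (.a false 1) (.e false 1) - β (.b false 1)
      (.e false 1))
      omega
    · show β (.b false 1) (.e false 6) = (0 + β (.a false 0) (.e false 0) - β (.b false 0) (.e
      false 0) + β (.b false 0) (.e false 10) - β (.a false 1) (.e false 10) + β (.a false 1) (.e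
      false 1) - β (.b false 1) (.e false 1) + β (.b false 1) (.e false 6)) - (0 + β (.a false 0)
      (.e false 0) - β (.b false 0) (.e false 0) + β (.b false 0) (.e false 10) - β (.a false 1)
      (.e false 10) + β (.a false 1) (.e false 1) - β (.b false 1) (.e false 1))
      omega
    · show β (.b false 1) (.f 2) = (0 + β (.a false 0) (.e false 0) - β (.b false 0) (.e false 0)
      + β (.b false 0) (.e false 10) - β (.a false 1) (.e false 10) + β (.a false 1) (.f 2)) - (0
      + β (.a false 0) (.e false 0) - β (.b false 0) (.e false 0) + β (.b false 0) (.e false 10)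
      - β (.a false 1) (.e false 10) + β (.a false 1) (.e false 1) - β (.b false 1) (.e false 1))
      omega
    · show β (.b false 1) (.w 3) = (0 + β (.a false 0) (.e false 0) - β (.b false 0) (.e false 0)
      + β (.b false 0) (.e false 10) - β (.a false 1) (.e false 10) + β (.a false 1) (.e false 1)
      - β (.b false 1) (.e false 1) + β (.b false 1) (.w 3)) - (0 + β (.a false 0) (.e false 0) -
      β (.b false 0) (.e false 0) + β (.b false 0) (.e false 10) - β (.a false 1) (.e false 10) +
      β (.a false 1) (.e false 1) - β (.b false 1) (.e false 1))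
      omega
    · show β (.b false 1) (.f 3) = (0 + β (.a false 0) (.e false 0) - β (.b false 0) (.e false 0)
      + β (.b false 0) (.e false 10) - β (.a false 1) (.e false 10) + β (.a false 1) (.e false 1)
      - β (.b false 1) (.e false 1) + β (.b false 1) (.f 3)) - (0 + β (.a false 0) (.e false 0) -
      β (.b false 0) (.e false 0) + β (.b false 0) (.e false 10) - β (.a false 1) (.e false 10) +
      β (.a false 1) (.e false 1) - β (.b false 1) (.e false 1))
      omega
    · show β (.b false 1) (.e false 11) = (0 + β (.a false 0) (.e false 0) - β (.b false 0) (.e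
      false 0) + β (.b false 0) (.e false 10) - β (.a false 1) (.e false 10) + β (.a false 1) (.e
      false 1) - β (.b false 1) (.e false 1) + β (.b false 1) (.e false 11)) - (0 + β (.a false
      0) (.e false 0) - β (.b false 0) (.e false 0) + β (.b false 0) (.e false 10) - β (.a false
      1) (.e false 10) + β (.a false 1) (.e false 1) - β (.b false 1) (.e false 1))
      omega
    · show β (.b false 1) (.f 22) = (0 + β (.a false 0) (.e false 0) - β (.b false 0) (.e false
      0) + β (.b false 0) (.e false 10) - β (.a false 1) (.e false 10) + β (.a false 1) (.e false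
      1) - β (.b false 1) (.e false 1) + β (.b false 1) (.f 22)) - (0 + β (.a false 0) (.e false
      0) - β (.b false 0) (.e false 0) + β (.b false 0) (.e false 10) - β (.a false 1) (.e false
      10) + β (.a false 1) (.e false 1) - β (.b false 1) (.e false 1))
      omega
    · show β (.b false 1) (.w 23) = (0 + β (.a false 0) (.e false 0) - β (.b false 0) (.e false
      0) + β (.b false 0) (.e false 10) - β (.a false 1) (.e false 10) + β (.a false 1) (.e false
      1) - β (.b false 1) (.e false 1) + β (.b false 1) (.w 23)) - (0 + β (.a false 0) (.e false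
      0) - β (.b false 0) (.e false 0) + β (.b false 0) (.e false 10) - β (.a false 1) (.e false
      10) + β (.a false 1) (.e false 1) - β (.b false 1) (.e false 1))
      omega
    · show β (.b false 1) (.f 23) = (0 + β (.a false 0) (.f 23)) - (0 + β (.a false 0) (.e false
      0) - β (.b false 0) (.e false 0) + β (.b false 0) (.e false 10) - β (.a false 1) (.e false
      10) + β (.a false 1) (.e false 1) - β (.b false 1) (.e false 1))
      omega
    · show β (.e false 6) (.f 23) = (0 + β (.a false 0) (.f 23)) - (0 + β (.a false 0) (.e false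
      0) - β (.b false 0) (.e false 0) + β (.b false 0) (.e false 10) - β (.a false 1) (.e false
      10) + β (.a false 1) (.e false 1) - β (.b false 1) (.e false 1) + β (.b false 1) (.e false
      6))
      omega
    · show β (.w 1) (.f 0) = (0 + β (.a false 0) (.f 0)) - (0 + β (.a false 0) (.e false 0) - β
      (.b false 0) (.e false 0) + β (.b false 0) (.w 1))
      omega
    · show β (.w 1) (.f 1) = (0 + β (.a false 0) (.e false 0) - β (.b false 0) (.e false 0) + β
      (.b false 0) (.f 1)) - (0 + β (.a false 0) (.e false 0) - β (.b false 0) (.e false 0) + β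
      (.b false 0) (.w 1))
      omega
    · show β (.w 2) (.f 1) = (0 + β (.a false 0) (.e false 0) - β (.b false 0) (.e false 0) + β
      (.b false 0) (.f 1)) - (0 + β (.a false 0) (.e false 0) - β (.b false 0) (.e false 0) + β
      (.b false 0) (.e false 10) - β (.a false 1) (.e false 10) + β (.a false 1) (.w 2))
      omega
    · show β (.w 2) (.f 2) = (0 + β (.a false 0) (.e false 0) - β (.b false 0) (.e false 0) + β
      (.b false 0) (.e false 10) - β (.a false 1) (.e false 10) + β (.a false 1) (.f 2)) - (0 + β
      (.a false 0) (.e false 0) - β (.b false 0) (.e false 0) + β (.b false 0) (.e false 10) - β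
      (.a false 1) (.e false 10) + β (.a false 1) (.w 2))
      omega
    · show β (.w 3) (.f 2) = (0 + β (.a false 0) (.e false 0) - β (.b false 0) (.e false 0) + β
      (.b false 0) (.e false 10) - β (.a false 1) (.e false 10) + β (.a false 1) (.f 2)) - (0 + β
      (.a false 0) (.e false 0) - β (.b false 0) (.e false 0) + β (.b false 0) (.e false 10) - β
      (.a false 1) (.e false 10) + β (.a false 1) (.e false 1) - β (.b false 1) (.e false 1) + β
      (.b false 1) (.w 3))
      omega
    · show β (.w 3) (.f 3) = (0 + β (.a false 0) (.e false 0) - β (.b false 0) (.e false 0) + β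
      (.b false 0) (.e false 10) - β (.a false 1) (.e false 10) + β (.a false 1) (.e false 1) - β
      (.b false 1) (.e false 1) + β (.b false 1) (.f 3)) - (0 + β (.a false 0) (.e false 0) - β
      (.b false 0) (.e false 0) + β (.b false 0) (.e false 10) - β (.a false 1) (.e false 10) + β
      (.a false 1) (.e false 1) - β (.b false 1) (.e false 1) + β (.b false 1) (.w 3))
      omega
    · show β (.e false 11) (.f 3) = (0 + β (.a false 0) (.e false 0) - β (.b false 0) (.e false
      0) + β (.b false 0) (.e false 10) - β (.a false 1) (.e false 10) + β (.a false 1) (.e false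
      1) - β (.b false 1) (.e false 1) + β (.b false 1) (.f 3)) - (0 + β (.a false 0) (.e false
      0) - β (.b false 0) (.e false 0) + β (.b false 0) (.e false 10) - β (.a false 1) (.e false
      10) + β (.a false 1) (.e false 1) - β (.b false 1) (.e false 1) + β (.b false 1) (.e false
      11))
      omega
    · show β (.e false 11) (.f 22) = (0 + β (.a false 0) (.e false 0) - β (.b false 0) (.e false
      0) + β (.b false 0) (.e false 10) - β (.a false 1) (.e false 10) + β (.a false 1) (.e false
      1) - β (.b false 1) (.e false 1) + β (.b false 1) (.f 22)) - (0 + β (.a false 0) (.e false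
      0) - β (.b false 0) (.e false 0) + β (.b false 0) (.e false 10) - β (.a false 1) (.e false
      10) + β (.a false 1) (.e false 1) - β (.b false 1) (.e false 1) + β (.b false 1) (.e false
      11))
      omega
    · show β (.w 23) (.f 22) = (0 + β (.a false 0) (.e false 0) - β (.b false 0) (.e false 0) + β
      (.b false 0) (.e false 10) - β (.a false 1) (.e false 10) + β (.a false 1) (.e false 1) - β
      (.b false 1) (.e false 1) + β (.b false 1) (.f 22)) - (0 + β (.a false 0) (.e false 0) - β
      (.b false 0) (.e false 0) + β (.b false 0) (.e false 10) - β (.a false 1) (.e false 10) + β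
      (.a false 1) (.e false 1) - β (.b false 1) (.e false 1) + β (.b false 1) (.w 23))
      omega
    · show β (.w 23) (.f 23) = (0 + β (.a false 0) (.f 23)) - (0 + β (.a false 0) (.e false 0) -
      β (.b false 0) (.e false 0) + β (.b false 0) (.e false 10) - β (.a false 1) (.e false 10) +
      β (.a false 1) (.e false 1) - β (.b false 1) (.e false 1) + β (.b false 1) (.w 23))
      omega
    · show β (.w 24) (.f 23) = (0 + β (.a false 0) (.f 23)) - (0 + β (.a false 0) (.w 24))
      omega
    · show β (.w 24) (.f 24) = (0 + β (.a false 0) (.f 24)) - (0 + β (.a false 0) (.w 24))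
      omega
    · show β (.e false 12) (.f 24) = (0 + β (.a false 0) (.f 24)) - (0 + β (.a false 0) (.e false
      12))
      omega
    · show β (.e false 12) (.f 5) = (0 + β (.a false 0) (.f 5)) - (0 + β (.a false 0) (.e false
      12))
      omega
    · show β (.w 6) (.f 5) = (0 + β (.a false 0) (.f 5)) - (0 + β (.a false 0) (.w 6))
      omega
    · show β (.w 6) (.f 6) = (0 + β (.a false 0) (.f 6)) - (0 + β (.a false 0) (.w 6))
      omega
    · show β (.e false 3) (.f 6) = (0 + β (.a false 0) (.f 6)) - (0 + β (.a false 0) (.e false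
      3))
      omega
    · show β (.e false 3) (.f 17) = (0 + β (.a false 0) (.f 17)) - (0 + β (.a false 0) (.e false
      3))
      omega
    · show β (.w 18) (.f 17) = (0 + β (.a false 0) (.f 17)) - (0 + β (.a false 0) (.w 18))
      omega
    · show β (.w 18) (.f 18) = (0 + β (.a false 0) (.f 18)) - (0 + β (.a false 0) (.w 18))
      omega
    · show β (.e false 9) (.f 18) = (0 + β (.a false 0) (.f 18)) - (0 + β (.a false 0) (.e false
      9))
      omega
    · show β (.e false 9) (.f 29) = (0 + β (.a false 0) (.f 29)) - (0 + β (.a false 0) (.e false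
      9))
      omega
    · show β (.w 0) (.f 0) = (0 + β (.a false 0) (.f 0)) - (0 + β (.a false 0) (.w 0))
      omega
    · show β (.w 0) (.f 29) = (0 + β (.a false 0) (.f 29)) - (0 + β (.a false 0) (.w 0))
      omega
  intro x hx y hy hl
  exact key (x, y) (annE_spec x hx y hy hl)

theorem S_edge {x y : P} {r r' : Fin 6} (hx : x ∈ a0 ++ a1) (hy : y ∈ a0 ++ a1)
    (hr : r = 1 ∨ r = 2) (hr' : r' = 1 ∨ r' = 2) (h : lt6 (.inl (x, r)) (.inl (y, r'))) :
    [(Sum.inl (x, r) : A), .inl (y, r')] ∈ S := by
  refine mem_S.2 ⟨edge_Tot.2 h, ?_⟩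
  intro v hv
  rcases List.mem_pair.1 hv with rfl | rfl
  · exact ⟨_, _, rfl, hx, hr⟩
  · exact ⟨_, _, rfl, hy, hr'⟩

theorem S_tri {x y w : P} {r r' r'' : Fin 6} (hx : x ∈ a0 ++ a1) (hy : y ∈ a0 ++ a1)
    (hw : w ∈ a0 ++ a1) (hr : r = 1 ∨ r = 2) (hr' : r' = 1 ∨ r' = 2) (hr'' : r'' = 1 ∨ r'' = 2)
    (h : lt6 (.inl (x, r)) (.inl (y, r'))) (h' : lt6 (.inl (x, r)) (.inl (w, r'')))
    (h'' : lt6 (.inl (y, r')) (.inl (w, r''))) :
    [(Sum.inl (x, r) : A), .inl (y, r'), .inl (w, r'')] ∈ S := by
  refine mem_S.2 ⟨tri_Tot.2 ⟨h, h', h''⟩, ?_⟩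
  intro v hv
  simp only [List.mem_cons, List.not_mem_nil, or_false] at hv
  rcases hv with rfl | rfl | rfl
  · exact ⟨_, _, rfl, hx, hr⟩
  · exact ⟨_, _, rfl, hy, hr'⟩
  · exact ⟨_, _, rfl, hw, hr''⟩

theorem lt6_21 {x y : P} (h : x.le y) : lt6 (.inl (x, 2)) (.inl (y, 1)) :=
  Or.inr (Or.inl ⟨rfl, Or.inr rfl, h⟩)

theorem gen_S {ψ : A → A → ℤ} (hψ : Coc S ψ) (hp : per ψ = 1) : Gen S ψ := by
  intro φ hφ
  set θ : A → A → ℤ := fun u v => φ u v - per φ * ψ u v with hθ
  have hc : Coc S θ := by
    intro u v w h
    simp only [hθ, hφ u v w h, hψ u v w h]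
    ring
  have h0 : per θ = 0 := by
    have : per θ = per φ - per φ * per ψ := by
      simp only [hθ, per]
      ring
    rw [this, hp]; ring
  set v : P → ℤ := fun x => θ (.inl (x, 2)) (.inl (x, 1)) with hv
  set β : P → P → ℤ := fun x y => θ (.inl (x, 2)) (.inl (y, 2)) with hβ
  have e21 : ∀ x ∈ a0 ++ a1, ∀ y ∈ a0 ++ a1, x.lt y = true →
      θ (.inl (x, 2)) (.inl (y, 1)) = β x y + v y := fun x hx y hy h =>
    hc _ _ _ (S_tri hx hy hy (Or.inr rfl) (Or.inr rfl) (Or.inl rfl) (Or.inl ⟨rfl, h⟩)
      (lt6_21 (Or.inr h)) (lt6_21 (Or.inl rfl)))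
  have e11 : ∀ x ∈ a0 ++ a1, ∀ y ∈ a0 ++ a1, x.lt y = true →
      θ (.inl (x, 1)) (.inl (y, 1)) = β x y + v y - v x := by
    intro x hx y hy h
    have := hc _ _ _ (S_tri hx hx hy (Or.inr rfl) (Or.inl rfl) (Or.inl rfl) (lt6_21 (Or.inl rfl))
      (lt6_21 (Or.inr h)) (Or.inl ⟨rfl, h⟩))
    rw [e21 x hx y hy h] at this
    simp only [hv]
    linarith
  have hpβ : perP β = 0 := by
    rw [← h0, per_eq]
    exact (pe_congr v fun x hx y hy h =>
      e11 x (List.mem_append_left _ hx) y (List.mem_append_left _ hy) h).symm
  have key := ann_H1 β (fun x hx y hy w hw a b c => hc _ _ _ (S_tri hx hy hw (Or.inr rfl)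
    (Or.inr rfl) (Or.inr rfl) (Or.inl ⟨rfl, a⟩) (Or.inl ⟨rfl, c⟩) (Or.inl ⟨rfl, b⟩))) hpβ
  refine ⟨per φ, fun u => match u with
    | .inl (x, r) => gam β x + if r = 1 then v x else 0
    | .inr _ => 0, ?_⟩
  intro a b hab
  obtain ⟨x, r, rfl, hx, hr⟩ := (mem_S.1 hab).2 a (by simp)
  obtain ⟨y, r', rfl, hy, hr'⟩ := (mem_S.1 hab).2 b (by simp)
  have hl := edge_Tot.1 (mem_S.1 hab).1
  have e : φ (.inl (x, r)) (.inl (y, r')) =
      per φ * ψ (.inl (x, r)) (.inl (y, r')) + θ (.inl (x, r)) (.inl (y, r')) := by
    simp only [hθ]; ring
  rw [e]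
  simp only [lt6] at hl
  rcases hr with rfl | rfl <;> rcases hr' with rfl | rfl
  · have h : x.lt y = true := by simpa using hl
    rw [e11 x hx y hy h, key x hx y hy h]
    simp only [if_true]
    ring
  · simp at hl
  · have h : x.le y := by simpa using hl
    simp only
    rw [if_pos trivial, if_neg (by decide : ¬(2 : Fin 6) = 1)]
    rcases h with rfl | h
    · simp only [hv]; ring
    · rw [e21 x hx y hy h, key x hx y hy h]; ring
  · have h : x.lt y = true := by simpa using hl
    have := key x hx y hy h
    simp only [if_neg (by decide : ¬(2 : Fin 6) = 1)]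
    simp only [hβ] at this ⊢
    linarith

end Pool.Agent.HT.Eta
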