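import Mathlib

/-! Sequences killed by the fifteenth cyclotomic polynomial form a simple module. -/

open Polynomial

noncomputable section

namespace Pool.Agent.HT.Eta

/-- The recurrence given by the fifteenth cyclotomic polynomial. -/
def Rec15 (a : ℤ → ℚ) : Prop :=
  ∀ k, a (k + 8) - a (k + 7) + a (k + 5) - a (k + 4) + a (k + 3) - a (k + 1) + a k = 0

/-- The shift of sequences. -/
def shf : Module.End ℚ (ℤ → ℚ) := LinearMap.funLeft ℚ ℚ fun k => k + 1

theorem shf_pow (n : ℕ) (a : ℤ → ℚ) (k : ℤ) : (shf ^ n) a k = a (k + n) := by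
  induction n generalizing k with
  | zero => simp
  | succ n ih =>
    rw [pow_succ', Module.End.mul_apply]
    show (shf ^ n) a (k + 1) = _
    rw [ih]
    congr 1
    push_cast
    ring

theorem cyc15 : cyclotomic 15 ℚ = X ^ 8 - X ^ 7 + X ^ 5 - X ^ 4 + X ^ 3 - X + 1 := by
  have h1 : expand ℚ 5 (cyclotomic 3 ℚ) = cyclotomic (3 * 5) ℚ * cyclotomic 3 ℚ :=
    cyclotomic_expand_eq_cyclotomic_mul (by norm_num) (by norm_num) ℚ
  have h2 : cyclotomic 3 ℚ ≠ 0 := cyclotomic_ne_zero 3 ℚ
  apply mul_right_cancel₀ h2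
  rw [show (15 : ℕ) = 3 * 5 from rfl, ← h1, cyclotomic_three]
  simp only [map_add, map_pow, expand_X, map_one]
  ring

/-- The space of solutions of the recurrence. -/
def W15 : Submodule ℚ (ℤ → ℚ) where
  carrier := {a | Rec15 a}
  add_mem' := by
    intro a b ha hb k
    have := ha k
    have := hb k
    simp only [Pi.add_apply]
    linarith
  zero_mem' := by intro k; simp
  smul_mem' := by
    intro c a ha k
    have := ha k
    simp only [Pi.smul_apply, smul_eq_mul]
    linear_combination c * this

theorem rec15_zero {a : ℤ → ℚ} (ha : Rec15 a) (h : ∀ i : Fin 8, a i = 0) : a = 0 := by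
  have key : ∀ k : ℤ, a k = 0 ∧ a (k + 1) = 0 ∧ a (k + 2) = 0 ∧ a (k + 3) = 0 ∧ a (k + 4) = 0 ∧
      a (k + 5) = 0 ∧ a (k + 6) = 0 ∧ a (k + 7) = 0 := by
    intro k
    induction k using Int.induction_on with
    | zero => exact ⟨h 0, h 1, h 2, h 3, h 4, h 5, h 6, h 7⟩
    | succ n ih =>
      obtain ⟨h0, h1, h2, h3, h4, h5, h6, h7⟩ := ih
      have := ha n
      simp only [add_assoc]
      norm_num
      exact ⟨h1, h2, h3, h4, h5, h6, h7, by linarith⟩
    | pred n ih =>
      obtain ⟨h0, h1, h2, h3, h4, h5, h6, h7⟩ := ih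
      have := ha (-n - 1)
      have e : ∀ j : ℤ, -(n : ℤ) - 1 + (j + 1) = -n + j := fun j => by ring
      have e8 := e 7
      have e7 := e 6
      have e6 := e 5
      have e5 := e 4
      have e4 := e 3
      have e3 := e 2
      have e2 := e 1
      have e1 := e 0
      norm_num at e8 e7 e6 e5 e4 e3 e2 e1
      rw [e8, e7, e5, e4, e3, sub_add_cancel] at this
      rw [e7, e6, e5, e4, e3, e2, sub_add_cancel]
      exact ⟨by linarith, h0, h1, h2, h3, h4, h5, h6⟩
  funext k
  exact (key k).1

theorem finrank_W15 : Module.finrank ℚ W15 ≤ 8 ∧ FiniteDimensional ℚ W15 := by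
  let f : W15 →ₗ[ℚ] (Fin 8 → ℚ) :=
    (LinearMap.funLeft ℚ ℚ fun i : Fin 8 => ((i : ℕ) : ℤ)).comp W15.subtype
  have hf : Function.Injective f := by
    rw [injective_iff_map_eq_zero]
    intro a ha
    exact Subtype.ext (rec15_zero a.2 fun i => congrFun ha i)
  exact ⟨by simpa using LinearMap.finrank_le_finrank_of_injective hf,
    FiniteDimensional.of_injective f hf⟩

theorem ideal15 (I : Submodule ℚ (ℤ → ℚ)) (hs : ∀ a ∈ I, (fun k => a (k + 1)) ∈ I)
    {a : ℤ → ℚ} (ha : a ∈ I) (h0 : a ≠ 0) (hr : Rec15 a) {b : ℤ → ℚ} (hb : Rec15 b) : b ∈ I := by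
  have hI : ∀ n : ℕ, (shf ^ n) a ∈ I := by
    intro n
    induction n with
    | zero => simpa using ha
    | succ n ih => rw [pow_succ', Module.End.mul_apply]; exact hs _ ih
  have hW : ∀ n : ℕ, (shf ^ n) a ∈ W15 := by
    intro n k
    simp only [shf_pow]
    have := hr (k + n)
    simp only [add_right_comm k (n : ℤ)] at this
    exact this
  have hc : aeval shf (cyclotomic 15 ℚ) a = 0 := by
    rw [cyc15]
    funext k
    simp only [map_add, map_sub, map_pow, aeval_X, map_one, LinearMap.add_apply,
      LinearMap.sub_apply, Pi.add_apply, Pi.sub_apply, shf_pow, Module.End.one_apply,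
      Pi.zero_apply]
    exact hr k
  have hli : LinearIndependent ℚ fun i : Fin 8 => (⟨(shf ^ (i : ℕ)) a, hW i⟩ : W15) := by
    rw [Fintype.linearIndependent_iff]
    intro g hg
    set p : ℚ[X] := ∑ i : Fin 8, C (g i) * X ^ (i : ℕ) with hp
    have hpa : aeval shf p a = 0 := by
      have := congrArg Subtype.val hg
      simp only [Submodule.coe_sum, Submodule.coe_smul, Submodule.coe_zero] at this
      rw [hp, ← this]
      simp [LinearMap.sum_apply, Algebra.algebraMap_eq_smul_one]
    have hp0 : p = 0 := by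
      by_contra hn
      have hd : p.degree < 8 := degree_sum_fin_lt g
      have hco : IsCoprime (cyclotomic 15 ℚ) p := by
        rw [(cyclotomic.irreducible_rat (by norm_num)).coprime_iff_not_dvd]
        intro hdv
        have := degree_le_of_dvd hdv hn
        rw [degree_cyclotomic] at this
        have h8 : Nat.totient 15 = 8 := by decide
        rw [h8] at this
        exact absurd (lt_of_le_of_lt this hd) (lt_irrefl _)
      obtain ⟨u, v, huv⟩ := hco
      apply h0
      have := congrArg (fun q => aeval shf q a) huv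
      simpa [Module.End.mul_apply, hc, hpa] using this.symm
    intro i
    have := congrArg (fun q => q.coeff i) hp0
    simp only [hp, finsetSum_coeff, coeff_C_mul_X_pow, coeff_zero] at this
    rw [Finset.sum_eq_single i] at this
    · simpa using this
    · intro j _ hj
      rw [if_neg]
      intro h
      exact hj (Fin.ext h.symm)
    · simp
  have := finrank_W15.2
  have htop := hli.span_eq_top_of_card_eq_finrank' (by
    have h1 := hli.fintype_card_le_finrank
    have h2 := finrank_W15.1
    simp only [Fintype.card_fin] at h1 ⊢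
    omega)
  have hm : (⟨b, hb⟩ : W15) ∈ Submodule.span ℚ
      (Set.range fun i : Fin 8 => (⟨(shf ^ (i : ℕ)) a, hW i⟩ : W15)) := by
    rw [htop]; trivial
  have hle : Submodule.span ℚ (Set.range fun i : Fin 8 => (⟨(shf ^ (i : ℕ)) a, hW i⟩ : W15)) ≤
      I.comap W15.subtype := by
    rw [Submodule.span_le]
    rintro _ ⟨i, rfl⟩
    exact hI i
  exact hle hm

end Pool.Agent.HT.Eta
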