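import Pool.Agent.Lib.MP_dae8ad_gt.H.EtaF5

/-! Cocycles on the infinite cyclic cover of `N ∪ E`. -/

noncomputable section

namespace Pool.Agent.HT.Eta

variable {E : Finset (List A)} {ψ : A → A → ℤ}

theorem ext_sub (hE : Ext E ψ) : ∀ l ∈ E, ∀ m, m ≠ [] → m.Sublist l → m ∈ E := by
  obtain ⟨⟨z, hz⟩, _⟩ := hE
  exact fun l hl => (hz.1 l hl).2.2.1

theorem ext_T (hE : Ext E ψ) {l : List A} (hl : l ∈ T) : l ∈ E := by
  obtain ⟨⟨z, hz⟩, _⟩ := hE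
  exact hz.2.2.1 hl

theorem ext_cocE (hE : Ext E ψ) : Coc E ψ := fun u v w h =>
  hE.2.2.2.1 u v w (Finset.mem_union_left _ h)

theorem ext_cocS (hE : Ext E ψ) : Coc S ψ := fun u v w h =>
  hE.2.2.2.1 u v w (Finset.mem_union_right _ h)

theorem N_inter_E (hE : Ext E ψ) {l : List A} (h : l ∈ N) (h' : l ∈ E) : l ∈ T := by
  apply hE.2.1 l h'
  intro v hv
  obtain ⟨x, r, rfl⟩ := (mem_Tot.1 (N_Tot h)).2.2.2 v hv
  rfl

theorem norm_M (hE : Ext E ψ) {φ : A → A → ℤ → ℚ} (hφ : CocC (N ∪ E) φ) :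
    ∃ (ξ : P → P → ℚ) (g : A → ℤ → ℚ), ∀ u v, [u, v] ∈ N → ∀ k, φ u v k =
        ξ (cell u k) (cell v (k + tau u v)) + g v (k + tau u v) - g u k := by
  obtain ⟨φ', h1, h2⟩ := exchange (X₁ := E) (X₂ := S) hE.2.2.2.2.2.1 (ext_sub hE)
    (fun _ hl _ hm h => S_sub hl hm h) (ext_cocS hE) (fun _ _ h => tau_E hE.2.1 h)
    (fun _ _ h => tau_S h) (fun _ hl h => ext_T hE (N_inter_S hl h)) hφ
  rw [N_union_S] at h1
  obtain ⟨ξ, g, _, _, h3⟩ := prod_form h1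
  exact ⟨ξ, g, fun u v h k => by rw [← h2 u v h k, h3 u v (N_Tot h) k]⟩

theorem T_N {l : List A} (h : l ∈ T) : l ∈ N := mem_N.2 (Or.inr h)

theorem perC_form (hE : Ext E ψ) {φ : A → A → ℤ → ℚ} (hφ : CocC (N ∪ E) φ) :
    ∃ ξ : P → P → ℚ, ∀ k, perC φ k = perP fun x y => ξ ((hP ^ k) x) ((hP ^ k) y) := by
  obtain ⟨ξ, g, h⟩ := norm_M hE hφ
  refine ⟨ξ, fun k => pe_congr (fun x => g (.inl (x, 1)) k) fun x hx y hy hl => ?_⟩
  have := h _ _ (T_N (eta_edge hx hy hl)) k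
  rw [tau_S (mem_T.1 (eta_edge hx hy hl)).1, add_zero] at this
  exact this

theorem perC_rec (hE : Ext E ψ) {φ : A → A → ℤ → ℚ} (hφ : CocC (N ∪ E) φ) :
    Rec15 (perC φ) := by
  obtain ⟨ξ, h⟩ := perC_form hE hφ
  rw [funext h]
  exact pe_shift ξ

theorem perC_per (hE : Ext E ψ) {φ : A → A → ℤ → ℚ} (hφ : CocC (N ∪ E) φ) (k j : ℤ) :
    perC φ (k + 15 * j) = perC φ k := by
  obtain ⟨ξ, h⟩ := perC_form hE hφ
  rw [h, h, zpow_add, zpow_mul, zpow_ofNat, hE_15, one_zpow, mul_one]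

theorem perC_zero (hE : Ext E ψ) {φ : A → A → ℤ → ℚ} (hφ : CocC (N ∪ E) φ) (σ D : ℤ)
    (hσ : σ = 1 ∨ σ = -1) (h : ∀ k, σ * k < D → perC φ k = 0) (k : ℤ) : perC φ k = 0 := by
  rw [← perC_per hE hφ k (-σ * (|k| + |D| + 1))]
  apply h
  have := le_abs_self k
  have := neg_abs_le k
  have := neg_abs_le D
  have := abs_nonneg k
  have := abs_nonneg D
  rcases hσ with rfl | rfl <;> linarith

/-- The cocycle on the fibre that is dual to `η`. -/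
def xi0 (x y : P) : ℤ := if x ∈ a0 ∧ y ∈ a1 then -1 else if x ∈ a1 ∧ y ∈ a0 then 1 else 0

theorem xi0_ann {x y : P} (hx : x ∈ a0 ++ a1) (hy : y ∈ a0 ++ a1) :
    xi0 x y = (if y ∈ a0 then 1 else 0) - if x ∈ a0 then 1 else 0 := by
  unfold xi0
  rcases List.mem_append.1 hx with hx | hx <;> rcases List.mem_append.1 hy with hy | hy
  · simp [hx, hy, a0_a1 x hx, a0_a1 y hy]
  · have : y ∉ a0 := fun h => a0_a1 y h hy
    simp [hx, hy, this]
  · have : x ∉ a0 := fun h => a0_a1 x h hx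
    simp [hx, hy, this]
  · have : x ∉ a0 := fun h => a0_a1 x h hx
    have : y ∉ a0 := fun h => a0_a1 y h hy
    simp [*]

theorem xi0_ne {x y : P} (h : xi0 x y ≠ 0) : (x ∈ a0 ∧ y ∈ a1) ∨ (x ∈ a1 ∧ y ∈ a0) := by
  unfold xi0 at h
  split_ifs at h with h1 h2
  · exact Or.inl h1
  · exact Or.inr h2
  · exact absurd rfl h

theorem xi0_mem {x y w : P} (h : xi0 x y ≠ 0) (a : cmp x y) (b : cmp x w) (c : cmp y w) :
    x ∈ a0 ++ a1 ∧ y ∈ a0 ++ a1 ∧ w ∈ a0 ++ a1 := by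
  rcases xi0_ne h with ⟨h1, h2⟩ | ⟨h1, h2⟩
  · exact ⟨List.mem_append_left _ h1, List.mem_append_right _ h2, ann_int x h1 y h2 a w b c⟩
  · exact ⟨List.mem_append_right _ h1, List.mem_append_left _ h2,
      ann_int y h2 x h1 (cmp_symm a) w c b⟩

theorem xi0_coc {x y w : P} (a : cmp x y) (b : cmp x w) (c : cmp y w) :
    xi0 x w = xi0 x y + xi0 y w := by
  by_cases h : x ∈ a0 ++ a1 ∧ y ∈ a0 ++ a1 ∧ w ∈ a0 ++ a1
  · rw [xi0_ann h.1 h.2.2, xi0_ann h.1 h.2.1, xi0_ann h.2.1 h.2.2]; ring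
  · have h1 : xi0 x y = 0 := by
      by_contra hn; exact h (xi0_mem hn a b c)
    have h2 : xi0 x w = 0 := by
      by_contra hn
      have := xi0_mem hn b a (cmp_symm c)
      exact h ⟨this.1, this.2.2, this.2.1⟩
    have h3 : xi0 y w = 0 := by
      by_contra hn
      have := xi0_mem hn c (cmp_symm a) (cmp_symm b)
      exact h ⟨this.2.2, this.1, this.2.1⟩
    rw [h1, h2, h3, add_zero]

theorem cmp_of_Ru {x y : P} {L L' : ℤ} (h : Ru x L y L') : cmp x y := by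
  rcases h with ⟨_, h⟩ | ⟨_, _, h⟩
  · exact Or.inr (Or.inl h)
  · exact cmp_of_le h

theorem tau_add {u v w : A} (h : [u, v, w] ∈ Tot) : tau u w = tau u v + tau v w := by
  obtain ⟨a, b, c⟩ := tri_Tot.1 h
  obtain ⟨⟨x, r, rfl⟩, y, r', rfl⟩ := lt6_left a
  obtain ⟨_, w, r'', rfl⟩ := lt6_left b
  simp only [lt6, tau, Fin.ext_iff] at a b c ⊢
  have h0 : ((0 : Fin 6) : ℕ) = 0 := rfl
  have h5 : ((5 : Fin 6) : ℕ) = 5 := rfl
  rw [h0, h5] at a b c ⊢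
  split_ifs <;> omega

theorem exists_xiM (hE : Ext E ψ) : ∃ ξ : A → A → ℤ → ℚ, CocC (N ∪ E) ξ ∧
    ∀ u v, [u, v] ∈ N → ∀ k, ξ u v k = xi0 (cell u k) (cell v (k + tau u v)) := by
  apply exchange (X₁ := S) (X₂ := E) (gen_S (ext_cocS hE) hE.2.2.2.2.1)
    (fun _ hl _ hm h => S_sub hl hm h) (ext_sub hE) (ext_cocE hE) (fun _ _ h => tau_S h)
    (fun _ _ h => tau_E hE.2.1 h) (fun _ hl h => (mem_T.1 (N_inter_E hE hl h)).1)
    (φ := fun u v k => xi0 (cell u k) (cell v (k + tau u v)))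
  rw [N_union_S]
  intro u v w h k
  obtain ⟨a, b, c⟩ := tri_Tot.1 h
  have a' := cmp_of_Ru (Ru_of_lt6 a k)
  have b' := cmp_of_Ru (Ru_of_lt6 b k)
  have c' := cmp_of_Ru (Ru_of_lt6 c (k + tau u v))
  rw [add_assoc, ← tau_add h] at c'
  simp only
  rw [add_assoc, ← tau_add h, xi0_coc a' b' c']
  push_cast
  rfl

theorem xi0_per : (perP fun x y => (xi0 ((hP ^ (1 : ℤ)) x) ((hP ^ (1 : ℤ)) y) : ℚ)) = -1 := by
  have : (perP fun x y => xi0 (hP x) (hP y)) = -1 := by decide +kernel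
  rw [zpow_one]
  simp only [perP] at this ⊢
  exact_mod_cast this

/-- The indicator of the positive levels. -/
def hv (u : A) (k : ℤ) : ℤ := if 1 ≤ lev u k then 1 else 0

theorem hv_E (hE : Ext E ψ) {u : A} (h : [u] ∈ E) (k : ℤ) : hv u k = if 0 ≤ k then 1 else 0 := by
  rcases u with ⟨x, r⟩ | n
  · obtain ⟨y, r', e, _, hr⟩ :=
      (mem_S.1 (mem_T.1 (hE.2.1 _ h (by simp))).1).2 _ (List.mem_singleton_self _)
    cases e
    simp only [hv, lev]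
    rcases hr with rfl | rfl <;> simp only [Fin.val_one, Fin.val_two] <;> split_ifs <;> omega
  · simp only [hv, lev]
    split_ifs <;> omega

/-- A triangle whose last edge crosses from level 0 to level 1 lies at height 0. -/
theorem cross (hE : Ext E ψ) {u v w : A} (h : [u, v, w] ∈ N ∪ E) {k : ℤ}
    (hn : hv v (k + tau u v) ≠ hv w (k + tau u w)) : [u, v, w] ∈ N ∧ k = 0 ∧ tau u v = 0 ∧
      tau u w = 0 ∧ ∃ x₀ x₁, Sum.inl (x₀, 0) ∈ [u, v, w] ∧ Sum.inl (x₁, 1) ∈ [u, v, w] := by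
  rcases Finset.mem_union.1 h with h | h
  · refine ⟨h, ?_⟩
    obtain ⟨a, b, c⟩ := tri_Tot.1 (N_Tot h)
    obtain ⟨⟨x, r, rfl⟩, y, r', rfl⟩ := lt6_left a
    obtain ⟨_, w, r'', rfl⟩ := lt6_left b
    have key : k = 0 ∧ ¬(r = 0 ∧ r' = 5) ∧ ¬(r = 0 ∧ r'' = 5) ∧
        ((r' = 0 ∧ r'' = 1) ∨ (r' = 1 ∧ r'' = 0)) := by
      simp only [lt6, tau, hv, lev, Fin.ext_iff] at a b c hn ⊢
      have h0 : ((0 : Fin 6) : ℕ) = 0 := rfl
      have h1 : ((1 : Fin 6) : ℕ) = 1 := rfl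
      have h5 : ((5 : Fin 6) : ℕ) = 5 := rfl
      rw [h0, h5] at a b c hn
      rw [h0, h1, h5]
      have := r.2
      have := r'.2
      have := r''.2
      split_ifs at hn <;> omega
    obtain ⟨k1, k2, k3, k4⟩ := key
    refine ⟨k1, if_neg k2, if_neg k3, ?_⟩
    rcases k4 with ⟨rfl, rfl⟩ | ⟨rfl, rfl⟩
    · exact ⟨y, w, by simp, by simp⟩
    · exact ⟨w, y, by simp, by simp⟩
  · exfalso
    apply hn
    rw [tau_E hE.2.1 (ext_sub hE _ h [u, v] (by simp) (by simp)),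
      tau_E hE.2.1 (ext_sub hE _ h [u, w] (by simp) (by simp)),
      hv_E hE (ext_sub hE _ h [v] (by simp) (by simp)),
      hv_E hE (ext_sub hE _ h [w] (by simp) (by simp))]

end Pool.Agent.HT.Eta
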