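import Pool.Agent.Lib.MP_dae8ad_gt.H.EtaM
import Pool.Agent.Lib.MP_dae8ad_gt.H.EtaBd
import Pool.Agent.Lib.MP_dae8ad_gt.H.EtaSlab

/-! The solid torus between the levels 0 and 1, and cycles on its core. -/

open Finset

noncomputable section

namespace Pool.Agent.HT.Eta

/-- The edges of `η`. -/
def etaE : List (P × P) :=
  [(.a false 0, .e false 0), (.b false 0, .e false 0), (.b false 0, .e false 10),
    (.a false 1, .e false 10), (.a false 1, .e false 1), (.b false 1, .e false 1),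
    (.b false 1, .e false 6), (.a false 0, .e false 6)]

theorem etaE_spec : ∀ x ∈ a0, ∀ y ∈ a0, x.lt y = true → (x, y) ∈ etaE := by decide +kernel

theorem etaE_mem : ∀ p ∈ etaE, p.1 ∈ a0 ∧ p.2 ∈ a0 ∧ p.1.lt p.2 = true := by
  intro p hp
  simp only [etaE, List.mem_cons, List.not_mem_nil, or_false] at hp
  rcases hp with rfl | rfl | rfl | rfl | rfl | rfl | rfl | rfl <;>
    exact ⟨by decide, by decide, rfl⟩

theorem cyc8 (Y : P × P → ℤ) (h : ∀ x ∈ a0, ∑ p ∈ etaE.toFinset,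
    ((if p.2 = x then 1 else 0) - if p.1 = x then 1 else 0) * Y p = 0) : ∀ p ∈ etaE,
    Y p = Y (.a false 0, .e false 0) * perP fun x y => if p = (x, y) then 1 else 0 := by
  have nd : etaE.Nodup := by decide +kernel
  simp only [List.sum_toFinset _ nd] at h
  have h1 := h (.e false 0) (by decide)
  have h2 := h (.b false 0) (by decide)
  have h3 := h (.e false 10) (by decide)
  have h4 := h (.a false 1) (by decide)
  have h5 := h (.e false 1) (by decide)
  have h6 := h (.b false 1) (by decide)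
  have h7 := h (.e false 6) (by decide)
  simp [etaE] at h1 h2 h3 h4 h5 h6 h7
  intro p hp
  simp only [etaE, List.mem_cons, List.not_mem_nil, or_false] at hp
  rcases hp with rfl | rfl | rfl | rfl | rfl | rfl | rfl | rfl <;> simp [perP] <;> omega

open Classical in
/-- The annulus times the levels 0, 1. -/
def Q0 : Finset (List A) :=
  Tot.filter fun l => ∀ v ∈ l, ∃ x r, v = .inl (x, r) ∧ x ∈ a0 ++ a1 ∧ (r = 0 ∨ r = 1)

theorem mem_Q0 {l : List A} : l ∈ Q0 ↔ l ∈ Tot ∧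
    ∀ v ∈ l, ∃ x r, v = .inl (x, r) ∧ x ∈ a0 ++ a1 ∧ (r = 0 ∨ r = 1) := by
  unfold Q0; simp only [Finset.mem_filter]

theorem Q0_N {l : List A} (h : l ∈ Q0) : l ∈ N := by
  obtain ⟨h1, h2⟩ := mem_Q0.1 h
  by_cases hS : l ∈ S
  · refine T_N (mem_T.2 ⟨hS, Or.inl ⟨1, fun v hv => ?_⟩⟩)
    obtain ⟨x, r, rfl, _, hr⟩ := h2 v hv
    obtain ⟨y, r', e, _, hr'⟩ := (mem_S.1 hS).2 _ hv
    cases e
    rcases hr with rfl | rfl
    · simp at hr'
    · exact ⟨x, rfl⟩
  · exact mem_N.2 (Or.inl ⟨h1, hS⟩)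

theorem Q0_sub {l m : List A} (hl : l ∈ Q0) (hm : m ≠ []) (h : m.Sublist l) : m ∈ Q0 :=
  mem_Q0.2 ⟨Tot_sub (mem_Q0.1 hl).1 hm h, fun v hv => (mem_Q0.1 hl).2 v (h.subset hv)⟩

theorem Q0_ex {l : List A} (h : l ∈ Q0) {a : A} (ha : a ∈ l) : ex tau l [a] = 0 := by
  obtain ⟨u, m, rfl⟩ := List.exists_cons_of_ne_nil (List.ne_nil_of_mem ha)
  obtain ⟨x, r, rfl, _, _⟩ := (mem_Q0.1 h).2 u (by simp)
  obtain ⟨y, r', rfl, _, hr⟩ := (mem_Q0.1 h).2 a ha
  simp only [ex, tau]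
  split_ifs with h1 h2
  · rfl
  · obtain ⟨_, rfl⟩ := h2
    simp at hr
  · rfl

theorem Q0_of {l : List A} (hl : l ∈ Tot) {x₀ x₁ p q : P} {rp rq : Fin 6}
    (h0 : Sum.inl (x₀, 0) ∈ l) (h1 : Sum.inl (x₁, 1) ∈ l) (hp : Sum.inl (p, rp) ∈ l)
    (hq : Sum.inl (q, rq) ∈ l) (hp0 : p ∈ a0) (hq1 : q ∈ a1) : l ∈ Q0 :=
  mem_Q0.2 ⟨hl, slab_int hl (r₀ := 0) (r₁ := 1) rfl h0 h1 hp hq hp0 hq1⟩

variable {E : Finset (List A)} {ψ : A → A → ℤ} {V : Type} {W : Finset (List V)}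
  {z : List V → ℤ} {Φ : V → V → ℤ} {ι : A → V}

open Classical in
/-- The vertex of `N ∪ E` with a given image. -/
def bk (E : Finset (List A)) (ι : A → V) (w : V) : A :=
  if h : ∃ a, [a] ∈ N ∪ E ∧ ι a = w then h.choose else .inr 0

theorem wd_vert (D : WD E W z Φ ι) {l : List A} (hl : l ∈ N ∪ E) {a : A} (ha : a ∈ l) :
    [a] ∈ N ∪ E :=
  (D.cx l hl).2.2.1 _ (by simp) (List.singleton_sublist.2 ha)

theorem bk_i (D : WD E W z Φ ι) {a : A} (ha : [a] ∈ N ∪ E) : bk E ι (ι a) = a := by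
  have h : ∃ b, [b] ∈ N ∪ E ∧ ι b = ι a := ⟨a, ha, rfl⟩
  unfold bk
  rw [dif_pos h]
  exact D.inj _ _ h.choose_spec.1 ha h.choose_spec.2

theorem wd_mem (D : WD E W z Φ ι) {l : List A} (hl : l ∈ N ∪ E) : l.map ι ∈ W := by
  classical
  exact D.hm.2.2.1 (by simp only [Finset.mem_image]; exact ⟨l, hl, rfl⟩)

theorem lift_map (D : WD E W z Φ ι) {l : List A} (hl : l ∈ N ∪ E) (k : ℤ) :
    lift Φ (l.map ι) k = l.map fun a => (ι a, k + ex tau l [a]) := by
  unfold lift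
  rw [List.map_map]
  apply List.map_congr_left
  intro a ha
  obtain ⟨u, m, rfl⟩ := List.exists_cons_of_ne_nil (List.ne_nil_of_mem ha)
  simp only [Function.comp, List.map_cons, ex]
  by_cases h : u = a
  · subst h; simp
  · have h1 : ι u ≠ ι a := fun e => h (D.inj _ _ (wd_vert D hl (by simp)) (wd_vert D hl ha) e)
    have h2 : [u, a] ∈ N ∪ E := by
      apply (D.cx _ hl).2.2.1 _ (by simp)
      exact (List.singleton_sublist.2 ((List.mem_cons.1 ha).resolve_left (Ne.symm h))).cons_cons u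
    rw [if_neg h, if_neg h1, D.tau u a h2]

theorem lift_three (D : WD E W z Φ ι) {u v w : A} (h : [u, v, w] ∈ N ∪ E) (k : ℤ) :
    lift Φ [ι u, ι v, ι w] k = [(ι u, k), (ι v, k + tau u v), (ι w, k + tau u w)] := by
  have := lift_map D h k
  have nd := (D.cx _ h).2.1
  simp only [List.nodup_cons, List.mem_cons, not_or] at nd
  simpa [ex, nd.1.1, nd.1.2.1] using this

/-- The lift of an edge of `η` at height 0. -/
def ed (ι : A → V) (x y : P) : List (V × ℤ) := [(ι (.inl (x, 1)), 0), (ι (.inl (y, 1)), 0)]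

theorem a0_vert {x : P} (hx : x ∈ a0) : [(Sum.inl (x, 1) : A)] ∈ N ∪ E := by
  refine Finset.mem_union_left _ (Q0_N (mem_Q0.2 ⟨mem_Tot.2 ⟨by simp, by simp, by simp, ?_⟩, ?_⟩))
  · intro v hv
    exact ⟨x, 1, List.mem_singleton.1 hv⟩
  · intro v hv
    exact ⟨x, 1, List.mem_singleton.1 hv, List.mem_append_left _ hx, Or.inr rfl⟩

theorem a0_inj (D : WD E W z Φ ι) {x y : P} (hx : x ∈ a0) (hy : y ∈ a0)
    (h : ι (.inl (x, 1)) = ι (.inl (y, 1))) : x = y := by
  have := D.inj _ _ (a0_vert hx) (a0_vert hy) h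
  cases this
  rfl

theorem inc_pair {α : Type} [DecidableEq α] (p q v : α) :
    inc [p, q] [v] = (if q = v then 1 else 0) - if p = v then 1 else 0 := by
  rw [inc_eq_cob, cob_two]
  by_cases h1 : q = v <;> by_cases h2 : p = v <;> simp [h1, h2]

open Classical in
theorem core_cycle (D : WD E W z Φ ι) {X : Finset (List (V × ℤ))}
    (hX : ∀ p ∈ etaE, ed ι p.1 p.2 ∈ X) (y : List (V × ℤ) → ℤ)
    (h1 : ∀ e ∈ X, e.length = 2 → y e ≠ 0 → ∃ p ∈ etaE, e = ed ι p.1 p.2)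
    (h2 : ∀ v, dX X y [v] = 0) : ∃ κ : ℤ, ∀ e ∈ X, e.length = 2 →
      y e = κ * perP fun a b => if e = ed ι a b then 1 else 0 := by
  have inj : ∀ p ∈ etaE, ∀ q ∈ etaE, ed ι p.1 p.2 = ed ι q.1 q.2 → p = q := by
    intro p hp q hq h
    simp only [ed, List.cons.injEq, Prod.mk.injEq, and_true] at h
    exact Prod.ext (a0_inj D (etaE_mem p hp).1 (etaE_mem q hq).1 h.1)
      (a0_inj D (etaE_mem p hp).2.1 (etaE_mem q hq).2.1 h.2)
  have key := cyc8 (fun p => y (ed ι p.1 p.2)) (by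
    intro x hx
    refine Eq.trans ?_ (h2 (ι (.inl (x, 1)), 0))
    unfold dX
    have tm : ∀ p ∈ etaE, inc (ed ι p.1 p.2) [(ι (.inl (x, 1)), 0)] =
        (if p.2 = x then 1 else 0) - if p.1 = x then 1 else 0 := by
      intro p hp
      have a : ∀ w ∈ a0, ((ι (.inl (w, 1)), (0 : ℤ)) = (ι (.inl (x, 1)), 0)) ↔ w = x := by
        intro w hw
        constructor
        · intro h; exact a0_inj D hw hx (Prod.mk.inj h).1
        · rintro rfl; rfl
      unfold ed
      rw [inc_pair]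
      simp only [a _ (etaE_mem p hp).1, a _ (etaE_mem p hp).2.1]
    apply Finset.sum_bij_ne_zero (fun p _ _ => ed ι p.1 p.2)
    · intro p hp _; exact hX p (List.mem_toFinset.1 hp)
    · intro p hp _ q hq _ h; exact inj p (List.mem_toFinset.1 hp) q (List.mem_toFinset.1 hq) h
    · intro e he h
      obtain ⟨p, hp, rfl⟩ := h1 e he (by simpa using (inc_ne (left_ne_zero_of_mul h)).2.symm)
        (right_ne_zero_of_mul h)
      refine ⟨p, List.mem_toFinset.2 hp, ?_, rfl⟩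
      rwa [tm p hp] at h
    · intro p hp _
      rw [tm p (List.mem_toFinset.1 hp)])
  refine ⟨y (ed ι (.a false 0) (.e false 0)), fun e he hl => ?_⟩
  by_cases h : ∃ p ∈ etaE, e = ed ι p.1 p.2
  · obtain ⟨p, hp, rfl⟩ := h
    rw [key p hp]
    congr 1
    apply pe_congr (fun _ => 0)
    intro a ha b hb hab
    by_cases hh : p = (a, b)
    · rw [if_pos hh, if_pos (by rw [hh])]; simp
    · rw [if_neg hh, if_neg (fun h => hh (inj p hp _ (etaE_spec a ha b hb hab) h))]; simp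
  · have a1 : y e = 0 := by
      by_contra hn; exact h (h1 e he hl hn)
    have a2 : (perP fun a b => if e = ed ι a b then (1 : ℤ) else 0) = perP fun _ _ => 0 := by
      apply pe_congr (fun _ => 0)
      intro a ha b hb hab
      rw [if_neg (fun hh => h ⟨(a, b), etaE_spec a ha b hb hab, hh⟩)]; simp
    rw [a1, a2]
    simp [perP]

end Pool.Agent.HT.Eta
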