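import Pool.Agent.Lib.MP_dae8ad_gt.H.EtaTot
import Pool.Agent.Lib.MP_dae8ad_gt.H.EtaIdeal

/-! The annulus, the solid torus and the exchange of fillings for cocycles. -/

noncomputable section

namespace Pool.Agent.HT.Eta

/-- Comparable cells. -/
def cmp (x y : P) : Prop := x = y ∨ x.lt y = true ∨ y.lt x = true

instance (x y : P) : Decidable (cmp x y) := by unfold cmp; infer_instance

theorem cmp_symm {x y : P} (h : cmp x y) : cmp y x := by
  rcases h with h | h | h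
  · exact Or.inl h.symm
  · exact Or.inr (Or.inr h)
  · exact Or.inr (Or.inl h)

theorem cmp_of_le {x y : P} (h : x.le y) : cmp x y := by
  rcases h with h | h
  · exact Or.inl h
  · exact Or.inr (Or.inl h)

theorem ann_int : ∀ p ∈ a0, ∀ q ∈ a1, cmp p q → ∀ x, cmp p x → cmp q x → x ∈ a0 ++ a1 := by
  decide +kernel

theorem a0_a1 : ∀ p ∈ a0, p ∉ a1 := by decide +kernel

theorem mem_S {l : List A} : l ∈ S ↔ l ∈ Tot ∧
    ∀ v ∈ l, ∃ x r, v = .inl (x, r) ∧ x ∈ a0 ++ a1 ∧ (r = 1 ∨ r = 2) := by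
  unfold S; simp only [Finset.mem_filter]

theorem mem_T {l : List A} : l ∈ T ↔ l ∈ S ∧ ((∃ r, ∀ v ∈ l, ∃ x, v = .inl (x, r)) ∨
    (∀ v ∈ l, ∃ x r, v = .inl (x, r) ∧ x ∈ a0) ∨ ∀ v ∈ l, ∃ x r, v = .inl (x, r) ∧ x ∈ a1) := by
  unfold T; simp only [Finset.mem_filter]

theorem mem_N {l : List A} : l ∈ N ↔ (l ∈ Tot ∧ l ∉ S) ∨ l ∈ T := by
  unfold N; simp only [Finset.mem_union, Finset.mem_sdiff]

theorem S_sub {l m : List A} (hl : l ∈ S) (hm : m ≠ []) (h : m.Sublist l) : m ∈ S :=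
  mem_S.2 ⟨Tot_sub (mem_S.1 hl).1 hm h, fun v hv => (mem_S.1 hl).2 v (h.subset hv)⟩

theorem T_sub {l m : List A} (hl : l ∈ T) (hm : m ≠ []) (h : m.Sublist l) : m ∈ T := by
  obtain ⟨h1, h2⟩ := mem_T.1 hl
  refine mem_T.2 ⟨S_sub h1 hm h, ?_⟩
  rcases h2 with ⟨r, h2⟩ | h2 | h2
  · exact Or.inl ⟨r, fun v hv => h2 v (h.subset hv)⟩
  · exact Or.inr (Or.inl fun v hv => h2 v (h.subset hv))
  · exact Or.inr (Or.inr fun v hv => h2 v (h.subset hv))

theorem N_Tot {l : List A} (h : l ∈ N) : l ∈ Tot := by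
  rcases mem_N.1 h with h | h
  · exact h.1
  · exact (mem_S.1 (mem_T.1 h).1).1

theorem N_union_S : N ∪ S = Tot := by
  ext l
  rw [Finset.mem_union]
  constructor
  · rintro (h | h)
    · exact N_Tot h
    · exact (mem_S.1 h).1
  · intro h
    by_cases hS : l ∈ S
    · exact Or.inr hS
    · exact Or.inl (mem_N.2 (Or.inl ⟨h, hS⟩))

theorem N_inter_S {l : List A} (h : l ∈ N) (h' : l ∈ S) : l ∈ T := by
  rcases mem_N.1 h with h | h
  · exact absurd h' h.2
  · exact h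

theorem pair_cases {α : Type} {R : α → α → Prop} {l : List α} (h : l.Pairwise R) {u v : α}
    (hu : u ∈ l) (hv : v ∈ l) : u = v ∨ R u v ∨ R v u := by
  induction l with
  | nil => simp at hu
  | cons a l ih =>
    rw [List.pairwise_cons] at h
    rcases List.mem_cons.1 hu with rfl | hu'
    · rcases List.mem_cons.1 hv with rfl | hv'
      · exact Or.inl rfl
      · exact Or.inr (Or.inl (h.1 v hv'))
    · rcases List.mem_cons.1 hv with rfl | hv'
      · exact Or.inr (Or.inr (h.1 u hu'))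
      · exact ih h.2 hu' hv'

theorem near_Tot {l : List A} (hl : l ∈ Tot) {x y : P} {r r' : Fin 6}
    (hu : Sum.inl (x, r) ∈ l) (hv : Sum.inl (y, r') ∈ l) :
    (r = r' ∧ cmp x y) ∨ ((r.1 + 1 = r'.1 ∨ r'.1 + 1 = r.1) ∧ cmp x y) ∨
      (r = 0 ∧ r' = 5) ∨ (r = 5 ∧ r' = 0) := by
  rcases pair_cases (mem_Tot.1 hl).2.1 hu hv with h | h | h
  · cases h; exact Or.inl ⟨rfl, Or.inl rfl⟩
  · rcases h with ⟨h1, h⟩ | ⟨_, h2, h⟩ | ⟨h1, h2, _⟩
    · exact Or.inl ⟨h1, Or.inr (Or.inl h)⟩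
    · exact Or.inr (Or.inl ⟨by omega, cmp_of_le h⟩)
    · exact Or.inr (Or.inr (Or.inl ⟨h1, h2⟩))
  · rcases h with ⟨h1, h⟩ | ⟨_, h2, h⟩ | ⟨h1, h2, _⟩
    · exact Or.inl ⟨h1.symm, Or.inr (Or.inr h)⟩
    · exact Or.inr (Or.inl ⟨by omega, cmp_symm (cmp_of_le h)⟩)
    · exact Or.inr (Or.inr (Or.inr ⟨h2, h1⟩))

/-- A simplex with vertices on two adjacent levels and on both boundary curves of the annulus
lies over the annulus between these levels. -/
theorem slab_int {l : List A} (hl : l ∈ Tot) {r₀ r₁ : Fin 6} (hr : r₀.1 + 1 = r₁.1)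
    {x₀ x₁ p q : P} {rp rq : Fin 6} (h0 : Sum.inl (x₀, r₀) ∈ l) (h1 : Sum.inl (x₁, r₁) ∈ l)
    (hp : Sum.inl (p, rp) ∈ l) (hq : Sum.inl (q, rq) ∈ l) (hp0 : p ∈ a0) (hq1 : q ∈ a1) :
    ∀ v ∈ l, ∃ x r, v = .inl (x, r) ∧ x ∈ a0 ++ a1 ∧ (r = r₀ ∨ r = r₁) := by
  have lv : ∀ x r, Sum.inl (x, r) ∈ l → r = r₀ ∨ r = r₁ := by
    intro x r hx
    have a := near_Tot hl hx h0
    have b := near_Tot hl hx h1
    have := r.2
    have := r₁.2
    simp only [Fin.ext_iff] at a b ⊢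
    rcases a with a | a | a | a <;> rcases b with b | b | b | b <;>
      omega
  have cm : ∀ x r y r', Sum.inl (x, r) ∈ l → Sum.inl (y, r') ∈ l → cmp x y := by
    intro x r y r' hx hy
    have a := lv x r hx
    have b := lv y r' hy
    have := r₁.2
    rcases near_Tot hl hx hy with c | c | ⟨rfl, rfl⟩ | ⟨rfl, rfl⟩
    · exact c.2
    · exact c.2
    · simp only [Fin.ext_iff] at a b; simp at a b; omega
    · simp only [Fin.ext_iff] at a b; simp at a b; omega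
  intro v hv
  obtain ⟨x, r, rfl⟩ := (mem_Tot.1 hl).2.2.2 v hv
  exact ⟨x, r, rfl, ann_int p hp0 q hq1 (cm _ _ _ _ hp hq) x (cm _ _ _ _ hp hv) (cm _ _ _ _ hq hv),
    lv x r hv⟩

theorem S_int {l m : List A} (hm : m ∈ S) (hT : m ∉ T) (hl : l ∈ Tot) (h : m.Sublist l) :
    l ∈ S := by
  have hS := (mem_S.1 hm).2
  rw [mem_T, not_and_or] at hT
  rcases hT with hT | hT
  · exact absurd hm hT
  push Not at hT
  obtain ⟨h1, ⟨q, hq, hq'⟩, p, hp, hp'⟩ := hT
  obtain ⟨u, hu, hu'⟩ := h1 1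
  obtain ⟨v, hv, hv'⟩ := h1 2
  obtain ⟨x, r, rfl, _, hr⟩ := hS u hu
  obtain ⟨y, r', rfl, _, hr'⟩ := hS v hv
  obtain ⟨p', rp, rfl, hpa, _⟩ := hS p hp
  obtain ⟨q', rq, rfl, hqa, _⟩ := hS q hq
  have e1 : r = 2 := hr.resolve_left fun h => hu' x (by rw [h])
  have e2 : r' = 1 := hr'.resolve_right fun h => hv' y (by rw [h])
  subst e1 e2
  exact mem_S.2 ⟨hl, slab_int hl (r₀ := 1) (r₁ := 2) rfl (h.subset hv) (h.subset hu)
    (h.subset hp) (h.subset hq) ((List.mem_append.1 hpa).resolve_right (hp' _ _ rfl))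
    ((List.mem_append.1 hqa).resolve_left (hq' _ _ rfl))⟩

theorem N_sub {l m : List A} (hl : l ∈ N) (hm : m ≠ []) (h : m.Sublist l) : m ∈ N := by
  rcases mem_N.1 hl with hl | hl
  · by_cases hS : m ∈ S
    · by_cases hT : m ∈ T
      · exact mem_N.2 (Or.inr hT)
      · exact absurd (S_int hS hT hl.1 h) hl.2
    · exact mem_N.2 (Or.inl ⟨Tot_sub hl.1 hm h, hS⟩)
  · exact mem_N.2 (Or.inr (T_sub hl hm h))

theorem tau_S {u v : A} (h : [u, v] ∈ S) : tau u v = 0 := by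
  obtain ⟨x, r, rfl, _, hr⟩ := (mem_S.1 h).2 u (by simp)
  obtain ⟨y, r', rfl, _, _⟩ := (mem_S.1 h).2 v (by simp)
  simp only [tau]
  rw [if_neg]
  rintro ⟨rfl, _⟩
  simp at hr

theorem tau_E {E : Finset (List A)} (hE : ∀ l ∈ E, (∀ v ∈ l, v.isLeft) → l ∈ T) {u v : A}
    (h : [u, v] ∈ E) : tau u v = 0 := by
  rcases u with u | n
  · rcases v with v | n
    · exact tau_S (mem_T.1 (hE _ h (by simp))).1
    · rfl
  · rfl

/-- The class of `ψ` generates the first cohomology of `X`. -/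
def Gen (X : Finset (List A)) (ψ : A → A → ℤ) : Prop :=
  ∀ φ, Coc X φ → ∃ k : ℤ, ∃ g : A → ℤ, ∀ u v, [u, v] ∈ X → φ u v = k * ψ u v + g v - g u

theorem gen_rat {X : Finset (List A)} {ψ : A → A → ℤ} (h : Gen X ψ)
    (hX : ∀ l ∈ X, ∀ m, m ≠ [] → m.Sublist l → m ∈ X) (θ : A → A → ℚ)
    (hθ : ∀ u v w, [u, v, w] ∈ X → θ u w = θ u v + θ v w) :
    ∃ c : ℚ, ∃ g : A → ℚ, ∀ u v, [u, v] ∈ X → θ u v = c * ψ u v + g v - g u := by
  classical
  obtain ⟨d, hd⟩ := IsLocalization.exist_integer_multiples_of_finset (nonZeroDivisors ℤ)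
    (X.image fun l => θ (l.getD 0 (.inr 0)) (l.getD 1 (.inr 0)))
  have hd0 : ((d : ℤ) : ℚ) ≠ 0 := Int.cast_ne_zero.2 (nonZeroDivisors.coe_ne_zero d)
  have : ∀ u v : A, ∃ n : ℤ, [u, v] ∈ X → (n : ℚ) = (d : ℤ) * θ u v := by
    intro u v
    by_cases huv : [u, v] ∈ X
    · obtain ⟨n, hn⟩ := hd (θ u v) (Finset.mem_image.2 ⟨_, huv, rfl⟩)
      exact ⟨n, fun _ => by simpa using hn⟩
    · exact ⟨0, fun h => absurd h huv⟩
  choose φ hφ using this
  obtain ⟨k, g, hg⟩ := h φ (by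
    intro u v w hw
    have a := hφ u w (hX _ hw _ (by simp) (by simp))
    have b := hφ u v (hX _ hw _ (by simp) (by simp))
    have c := hφ v w (hX _ hw _ (by simp) (by simp))
    have : (φ u w : ℚ) = φ u v + φ v w := by rw [a, b, c, hθ u v w hw]; ring
    exact_mod_cast this)
  refine ⟨k / (d : ℤ), fun u => g u / (d : ℤ), fun u v huv => ?_⟩
  have a := hφ u v huv
  rw [hg u v huv] at a
  push_cast at a
  field_simp
  linarith

theorem exchange {X₁ X₂ : Finset (List A)} {ψ : A → A → ℤ} (h1 : Gen X₁ ψ)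
    (hX₁ : ∀ l ∈ X₁, ∀ m, m ≠ [] → m.Sublist l → m ∈ X₁)
    (hX₂ : ∀ l ∈ X₂, ∀ m, m ≠ [] → m.Sublist l → m ∈ X₂) (h2 : Coc X₂ ψ)
    (t1 : ∀ u v, [u, v] ∈ X₁ → tau u v = 0) (t2 : ∀ u v, [u, v] ∈ X₂ → tau u v = 0)
    (hi : ∀ l ∈ N, l ∈ X₂ → l ∈ X₁) {φ : A → A → ℤ → ℚ} (hφ : CocC (N ∪ X₁) φ) :
    ∃ φ', CocC (N ∪ X₂) φ' ∧ ∀ u v, [u, v] ∈ N → ∀ k, φ' u v k = φ u v k := by
  classical
  choose c g hg using fun k : ℤ => gen_rat h1 hX₁ (fun u v => φ u v k) (by
    intro u v w hw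
    have := hφ u v w (Finset.mem_union_right _ hw) k
    rwa [t1 u v (hX₁ _ hw _ (by simp) (by simp)), add_zero] at this)
  have ag : ∀ u v, [u, v] ∈ N → ∀ k,
      (if [u, v] ∈ X₂ then c k * ψ u v + g k v - g k u else φ u v k) = φ u v k := by
    intro u v huv k
    split_ifs with h
    · exact (hg k u v (hi _ huv h)).symm
    · rfl
  refine ⟨fun u v k => if [u, v] ∈ X₂ then c k * ψ u v + g k v - g k u else φ u v k, ?_, ag⟩
  intro u v w hw k
  rcases Finset.mem_union.1 hw with hw | hw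
  · simp only
    rw [ag u w (N_sub hw (by simp) (by simp)), ag u v (N_sub hw (by simp) (by simp)),
      ag v w (N_sub hw (by simp) (by simp))]
    exact hφ u v w (Finset.mem_union_left _ hw) k
  · have a : [u, v] ∈ X₂ := hX₂ _ hw _ (by simp) (by simp)
    have b : [u, w] ∈ X₂ := hX₂ _ hw _ (by simp) (by simp)
    have c' : [v, w] ∈ X₂ := hX₂ _ hw _ (by simp) (by simp)
    simp only [if_pos a, if_pos b, if_pos c', t2 u v a, add_zero, h2 u v w hw]
    push_cast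
    ring

/-- The value of a cochain on the lift of `η` (at level 1) at height `k`. -/
def perC (φ : A → A → ℤ → ℚ) (k : ℤ) : ℚ := perP fun x y => φ (.inl (x, 1)) (.inl (y, 1)) k

theorem eta_edge {x y : P} (hx : x ∈ a0) (hy : y ∈ a0) (h : x.lt y = true) :
    [(Sum.inl (x, 1) : A), .inl (y, 1)] ∈ T := by
  refine mem_T.2 ⟨mem_S.2 ⟨edge_Tot.2 (Or.inl ⟨rfl, h⟩), ?_⟩, Or.inl ⟨1, ?_⟩⟩
  · intro v hv
    rcases List.mem_pair.1 hv with rfl | rfl
    · exact ⟨_, _, rfl, List.mem_append_left _ hx, Or.inl rfl⟩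
    · exact ⟨_, _, rfl, List.mem_append_left _ hy, Or.inl rfl⟩
  · intro v hv
    rcases List.mem_pair.1 hv with rfl | rfl
    · exact ⟨_, rfl⟩
    · exact ⟨_, rfl⟩

theorem pe_congr {G : Type} [AddCommGroup G] {g g' : P → P → G} (γ : P → G)
    (h : ∀ x ∈ a0, ∀ y ∈ a0, x.lt y = true → g x y = g' x y + γ y - γ x) : perP g = perP g' := by
  unfold perP
  rw [h _ (by decide) _ (by decide) (by decide : (P.a false 0).lt (.e false 0) = true),
    h _ (by decide) _ (by decide) (by decide : (P.b false 0).lt (.e false 0) = true),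
    h _ (by decide) _ (by decide) (by decide : (P.b false 0).lt (.e false 10) = true),
    h _ (by decide) _ (by decide) (by decide : (P.a false 1).lt (.e false 10) = true),
    h _ (by decide) _ (by decide) (by decide : (P.a false 1).lt (.e false 1) = true),
    h _ (by decide) _ (by decide) (by decide : (P.b false 1).lt (.e false 1) = true),
    h _ (by decide) _ (by decide) (by decide : (P.b false 1).lt (.e false 6) = true),
    h _ (by decide) _ (by decide) (by decide : (P.a false 0).lt (.e false 6) = true)]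
  abel

theorem hE_per (k : ℤ) : hP ^ (k + 15) = hP ^ k := by
  rw [zpow_add, zpow_ofNat, hE_15, mul_one]

theorem pe_shift (ξ : P → P → ℚ) : Rec15 fun k => perP fun x y => ξ ((hP ^ k) x) ((hP ^ k) y) := by
  set s : ℤ → ℚ := fun k => ξ ((hP ^ k) (.a false 0)) ((hP ^ k) (.e false 0)) -
    ξ ((hP ^ k) (.b false 0)) ((hP ^ k) (.e false 0)) with hs
  have h1 : ∀ k, (perP fun x y => ξ ((hP ^ k) x) ((hP ^ k) y)) =
      s k - s (k + 10) + s (k + 1) - s (k + 6) := by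
    intro k
    simp only [hs, zpow_add, zpow_ofNat, Equiv.Perm.mul_apply]
    rw [show (hP ^ 10) (.a false 0) = .a false 1 by decide +kernel,
      show (hP ^ 10) (.b false 0) = .b false 0 by decide +kernel,
      show (hP ^ 10) (.e false 0) = .e false 10 by decide +kernel,
      show (hP ^ 6) (.a false 0) = .a false 0 by decide +kernel,
      show (hP ^ 6) (.b false 0) = .b false 1 by decide +kernel,
      show (hP ^ 6) (.e false 0) = .e false 6 by decide +kernel,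
      show (hP ^ 1) (.a false 0) = .a false 1 by decide +kernel,
      show (hP ^ 1) (.b false 0) = .b false 1 by decide +kernel,
      show (hP ^ 1) (.e false 0) = .e false 1 by decide +kernel]
    unfold perP
    ring
  have h2 : ∀ k, s (k + 15) = s k := by
    intro k
    simp only [hs, hE_per]
  intro k
  have a := h2 k
  have b := h2 (k + 2)
  have c := h2 (k + 3)
  simp only [h1, add_assoc] at a b c ⊢
  norm_num at a b c ⊢
  linarith

end Pool.Agent.HT.Eta
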