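import Pool.Agent.Lib.MP_dae8ad_gt.H.EtaBase

/-! The staircase argument: a cocycle on the boundary whose dual cycle bounds extends. -/

open Finset Classical

noncomputable section

namespace Pool.Agent.HT.Eta

variable {V : Type}

theorem hm_low {X B : Finset (List V)} {Bad : Set V} {z : List V → ℤ} {n : ℕ}
    (h : HM n X B Bad z) {σ : List V} (hσ : σ ∈ X) (hg : ∀ v ∈ σ, v ∉ Bad) (q : ℕ) (hq : q ≤ n)
    (c : List V → ℤ) (hc : ∀ m ∈ X, σ.Sublist m → m.length + 1 = q → dX X c m = 0) :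
    ∃ b, ∀ m ∈ X, σ.Sublist m → m.length = q → c m = dX X b m := by
  have h1 := (h.2.2.2.2 σ hσ hg).2
  by_cases hB : σ ∈ B
  · rw [if_pos hB] at h1
    obtain ⟨b, k, hb⟩ := loc_graded h1.1 q c hc
    exact ⟨b, fun m hm hs hl => by simpa using hb m hm hs hl⟩
  · rw [if_neg hB] at h1
    obtain ⟨b, k, hb⟩ := loc_graded h1 q c hc
    refine ⟨b, fun m hm hs hl => ?_⟩
    have hz := (h.2.2.2.1 m hm).2
    rw [if_neg (by omega), abs_eq_zero] at hz
    simpa [hz] using hb m hm hs hl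

theorem hm_top {X B : Finset (List V)} {Bad : Set V} {z : List V → ℤ} {n : ℕ}
    (h : HM n X B Bad z) {σ : List V} (hσ : σ ∈ X) (hg : ∀ v ∈ σ, v ∉ Bad)
    (c : List V → ℤ) (hc : ∀ m ∈ X, σ.Sublist m → m.length = n → dX X c m = 0) :
    ∃ k : ℤ, (σ ∈ B → k = 0) ∧ ∀ m ∈ X, σ.Sublist m → m.length = n + 1 → c m = k * z m := by
  have h1 := (h.2.2.2.2 σ hσ hg).2
  have top : ∀ b : List V → ℤ, ∀ m : List V, m.length = n + 1 → dX X b m = 0 := by
    intro b m hl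
    apply dX_zero
    intro l hl' _ h2
    have := (h.2.2.2.1 l hl').1
    omega
  have hc' : ∀ m ∈ X, σ.Sublist m → m.length + 1 = n + 1 → dX X c m = 0 :=
    fun m hm hs hl => hc m hm hs (by omega)
  by_cases hB : σ ∈ B
  · rw [if_pos hB] at h1
    obtain ⟨b, k, hb⟩ := loc_graded h1.1 (n + 1) c hc'
    exact ⟨0, fun _ => rfl, fun m hm hs hl => by simpa [top b m hl] using hb m hm hs hl⟩
  · rw [if_neg hB] at h1
    obtain ⟨b, k, hb⟩ := loc_graded h1 (n + 1) c hc'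
    exact ⟨k, fun h => absurd h hB, fun m hm hs hl => by simpa [top b m hl] using hb m hm hs hl⟩

theorem cob_one (l : List V) (hl : l.length = 2) (r : ℤ) : cob (fun _ => r) l = 0 := by
  unfold cob
  rw [hl]
  simp [Finset.sum_range_succ]

theorem staircase {X B : Finset (List V)} {Bad : Set V} {z : List V → ℤ} (h : HM 4 X B Bad z)
    (G : Set V) (hG : ∀ σ ∈ X, (∃ v ∈ σ, v ∈ G) → ∀ v ∈ σ, v ∉ Bad)
    (u c : List V → ℤ) (g1 g0 : List V → List V → ℤ)
    (hc : ∀ τ ∈ X, c τ ≠ 0 → ∀ v ∈ τ, v ∈ G)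
    (hu : ∀ σ, u σ ≠ 0 → ∃ v ∈ σ, v ∈ G)
    (h00 : ∀ σ, ∀ τ ∈ X, g0 σ τ ≠ 0 → ∃ v ∈ σ, v ∈ G)
    (h10 : ∀ σ, ∀ τ ∈ X, g1 σ τ ≠ 0 → ∃ v ∈ σ, v ∈ G)
    (h0 : ∀ v ∈ G, ∀ τ ∈ X, v ∈ τ → τ.length = 2 → dX X (g0 [v]) τ = dX X c τ)
    (h1 : ∀ σ ∈ X, σ.length = 2 → ∀ τ ∈ X, σ.Sublist τ → τ.length = 3 →
      dX X (g1 σ) τ = cob (fun s => g0 s τ) σ)
    (h2 : ∀ σ ∈ X, σ.length = 3 → ∀ τ ∈ X, σ.Sublist τ → τ.length = 4 →
      u σ * dX X z τ = cob (fun s => g1 s τ) σ) :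
    ∃ v : List V → ℤ, (∀ σ, v σ ≠ 0 → σ ∈ X ∧ σ ∉ B ∧ σ.length = 3 ∧ ∃ w ∈ σ, w ∈ G) ∧
      ∀ σ ∈ X, σ.length = 4 → cob (fun s => u s - v s) σ = 0 := by
  have hX : Cx X := h.1
  have face : ∀ σ ∈ X, ∀ s : List V, s.Sublist σ → 0 < s.length → s ∈ X := by
    intro σ hσ s hs hl
    exact (hX σ hσ).2.2.1 s (List.length_pos_iff.1 hl) hs
  -- first step
  have e0 : ∀ σ : List V, ∃ k : List V → ℤ, (∀ τ, k τ ≠ 0 → ∃ v ∈ σ, v ∈ G) ∧
      (σ ∈ X → σ.length = 1 → (∃ v ∈ σ, v ∈ G) → ∀ m ∈ X, σ.Sublist m → m.length = 3 →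
        g0 σ m - c m = dX X k m) := by
    intro σ
    by_cases hh : σ ∈ X ∧ σ.length = 1 ∧ ∃ v ∈ σ, v ∈ G
    · obtain ⟨hσ, hl, hm⟩ := hh
      obtain ⟨b, hb⟩ := hm_low h hσ (hG σ hσ hm) 3 (by norm_num) (fun m => g0 σ m - c m) (by
        intro m hm' hs hl'
        obtain ⟨a, rfl⟩ := List.length_eq_one_iff.1 hl
        obtain ⟨v, hv, hvG⟩ := hm
        rw [List.mem_singleton] at hv
        subst hv
        rw [dX_sub, h0 v hvG m hm' (List.singleton_sublist.1 hs) (by omega), sub_self])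
      exact ⟨b, fun _ _ => hm, fun _ _ _ => hb⟩
    · exact ⟨fun _ => 0, fun _ h => absurd rfl h, fun a b c => absurd ⟨a, b, c⟩ hh⟩
  choose k0 k0s k0e using e0
  -- second step
  have e1 : ∀ σ : List V, ∃ k : List V → ℤ, (∀ τ, k τ ≠ 0 → ∃ v ∈ σ, v ∈ G) ∧
      (σ ∈ X → σ.length = 2 → ∀ m ∈ X, σ.Sublist m → m.length = 4 →
        g1 σ m - cob (fun s => k0 s m) σ = dX X k m) := by
    intro σ
    by_cases hh : σ ∈ X ∧ σ.length = 2 ∧ ∃ v ∈ σ, v ∈ G
    · obtain ⟨hσ, hl, hm⟩ := hh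
      obtain ⟨b, hb⟩ := hm_low h hσ (hG σ hσ hm) 4 (by norm_num)
        (fun m => g1 σ m - cob (fun s => k0 s m) σ) (by
        intro m hm' hs hl'
        rw [dX_sub, dX_cob, h1 σ hσ hl m hm' hs (by omega), ← cob_sub, ← cob_one σ hl (c m)]
        apply cob_congr
        intro s hs' hl2
        by_cases hsG : ∃ v ∈ s, v ∈ G
        · rw [← k0e s (face σ hσ s hs' (by omega)) (by omega) hsG m hm' (hs'.trans hs) (by omega)]
          ring
        · have a1 : g0 s m = 0 := by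
            by_contra hn; exact hsG (h00 s m hm' hn)
          have a2 : dX X (k0 s) m = 0 := by
            apply dX_zero
            intro l _ _ _
            by_contra hn; exact hsG (k0s s l hn)
          have a3 : c m = 0 := by
            by_contra hn
            obtain ⟨a, rfl⟩ := List.length_eq_one_iff.1 (by omega : s.length = 1)
            exact hsG ⟨a, by simp, hc m hm' hn a (List.singleton_sublist.1 (hs'.trans hs))⟩
          rw [a1, a2, a3, sub_self])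
      exact ⟨b, fun _ _ => hm, fun _ _ => hb⟩
    · refine ⟨fun _ => 0, fun _ h => absurd rfl h, fun a b m hm _ _ => ?_⟩
      have hn : ¬ ∃ v ∈ σ, v ∈ G := fun hc => hh ⟨a, b, hc⟩
      have a1 : g1 σ m = 0 := by
        by_contra hn'; exact hn (h10 σ m hm hn')
      have a2 : cob (fun s => k0 s m) σ = 0 := by
        apply cob_zero
        intro s hs _
        by_contra hn'
        obtain ⟨v, hv, hvG⟩ := k0s s m hn'
        exact hn ⟨v, hs.subset hv, hvG⟩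
      rw [a1, a2, dX_zero (fun _ _ _ _ => rfl), sub_self]
  choose k1 k1s k1e using e1
  -- third step
  have e2 : ∀ σ : List V, ∃ k : ℤ, (k ≠ 0 → σ ∈ X ∧ σ ∉ B ∧ σ.length = 3 ∧ ∃ w ∈ σ, w ∈ G) ∧
      (σ ∈ X → σ.length = 3 → ∀ m ∈ X, σ.Sublist m → m.length = 5 →
        u σ * z m - cob (fun s => k1 s m) σ = k * z m) := by
    intro σ
    by_cases hh : σ ∈ X ∧ σ.length = 3 ∧ ∃ v ∈ σ, v ∈ G
    · obtain ⟨hσ, hl, hm⟩ := hh
      obtain ⟨k, hk, hb⟩ := hm_top h hσ (hG σ hσ hm)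
        (fun m => u σ * z m - cob (fun s => k1 s m) σ) (by
        intro m hm' hs hl'
        rw [dX_sub, dX_cob, dX_mul, h2 σ hσ hl m hm' hs hl', ← cob_sub,
          ← cob_cob σ (fun s => k0 s m)]
        apply cob_congr
        intro s hs' hl2
        rw [← k1e s (face σ hσ s hs' (by omega)) (by omega) m hm' (hs'.trans hs) hl']
        ring)
      exact ⟨k, fun hk0 => ⟨hσ, fun hB => hk0 (hk hB), hl, hm⟩, fun _ _ => hb⟩
    · refine ⟨0, fun h => absurd rfl h, fun a b m hm _ _ => ?_⟩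
      have hn : ¬ ∃ v ∈ σ, v ∈ G := fun hc => hh ⟨a, b, hc⟩
      have a1 : u σ = 0 := by
        by_contra hn'; exact hn (hu σ hn')
      have a2 : cob (fun s => k1 s m) σ = 0 := by
        apply cob_zero
        intro s hs _
        by_contra hn'
        obtain ⟨v, hv, hvG⟩ := k1s s m hn'
        exact hn ⟨v, hs.subset hv, hvG⟩
      rw [a1, a2]; simp
  choose v vs ve using e2
  refine ⟨v, vs, fun σ hσ hl => ?_⟩
  by_cases hm : ∃ w ∈ σ, w ∈ G
  · obtain ⟨m, hm1, hm2⟩ := (h.2.2.2.2 σ hσ (hG σ hσ hm)).1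
    obtain ⟨hmX, hs⟩ := mem_St.1 hm1
    have hz := (h.2.2.2.1 m hmX).2
    rw [if_pos hm2] at hz
    have hz0 : z m ≠ 0 := by
      intro h0; rw [h0] at hz; simp at hz
    apply mul_right_cancel₀ hz0
    rw [zero_mul, ← cob_mul, ← cob_cob σ (fun s => k1 s m)]
    apply cob_congr
    intro s hs' hl2
    have := ve s (face σ hσ s hs' (by omega)) (by omega) m hmX (hs'.trans hs) hm2
    rw [sub_mul, ← this]
    ring
  · apply cob_zero
    intro s hs _
    have a1 : u s = 0 := by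
      by_contra hn'
      obtain ⟨w, hw, hwG⟩ := hu s hn'
      exact hm ⟨w, hs.subset hw, hwG⟩
    have a2 : v s = 0 := by
      by_contra hn'
      obtain ⟨w, hw, hwG⟩ := (vs s hn').2.2.2
      exact hm ⟨w, hs.subset hw, hwG⟩
    rw [a1, a2, sub_self]

end Pool.Agent.HT.Eta
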