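import Pool.Agent.Lib.MP_dae8ad_gt.H.EtaBase
import Pool.Agent.Lib.MP_dae8ad_gt.H.DefsEq

/-! The mapping torus unrolled: cells and levels. -/

noncomputable section

namespace Pool.Agent.HT.Eta

theorem hE_apply (x : P) : hP x = x.h := rfl

theorem lt_h : ∀ x y : P, x.h.lt y.h = x.lt y := by decide +kernel

theorem lt_irr : ∀ x : P, x.lt x = false := by decide +kernel

theorem lt_asym : ∀ x y : P, x.lt y = true → y.lt x = false := by decide +kernel

theorem hE_15 : hP ^ 15 = 1 := by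
  ext x
  revert x
  decide +kernel

theorem lt_zpow (k : ℤ) (x y : P) : ((hP ^ k) x).lt ((hP ^ k) y) = x.lt y := by
  induction k using Int.induction_on generalizing x y with
  | zero => simp
  | succ n ih => rw [zpow_add_one, Equiv.Perm.mul_apply, Equiv.Perm.mul_apply, ih]; exact lt_h x y
  | pred n ih =>
    rw [← ih x y, ← lt_h, ← hE_apply, ← hE_apply, ← Equiv.Perm.mul_apply,
      ← Equiv.Perm.mul_apply, ← zpow_one_add]
    congr 3 <;> ring

theorem le_zpow (k : ℤ) (x y : P) : ((hP ^ k) x).le ((hP ^ k) y) ↔ x.le y := by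
  unfold P.le
  rw [lt_zpow, (hP ^ k).injective.eq_iff]

theorem mem_Tot {l : List A} : l ∈ Tot ↔
    l ≠ [] ∧ l.Pairwise lt6 ∧ l.length ≤ 4 ∧ ∀ v ∈ l, ∃ x r, v = Sum.inl (x, r) := by
  unfold Tot
  simp only [Finset.mem_filter, Finset.mem_image, Set.Finite.mem_toFinset, Set.mem_ofPred_eq]
  constructor
  · rintro ⟨⟨m, hm, rfl⟩, h1, h2⟩
    refine ⟨h1, h2, by simpa using hm, ?_⟩
    intro v hv
    obtain ⟨⟨x, r⟩, _, rfl⟩ := List.mem_map.1 hv
    exact ⟨x, r, rfl⟩
  · rintro ⟨h1, h2, h3, h4⟩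
    refine ⟨?_, h1, h2⟩
    have : ∃ m : List (P × Fin 6), m.map Sum.inl = l := by
      clear h1 h2 h3
      induction l with
      | nil => exact ⟨[], rfl⟩
      | cons v l ih =>
        obtain ⟨m, rfl⟩ := ih fun w hw => h4 w (List.mem_cons_of_mem _ hw)
        obtain ⟨x, r, rfl⟩ := h4 v (by simp)
        exact ⟨(x, r) :: m, rfl⟩
    obtain ⟨m, rfl⟩ := this
    exact ⟨m, by simpa using h3, rfl⟩

theorem Tot_sub {l m : List A} (hl : l ∈ Tot) (hm : m ≠ []) (h : m.Sublist l) : m ∈ Tot := by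
  obtain ⟨_, h2, h3, h4⟩ := mem_Tot.1 hl
  exact mem_Tot.2 ⟨hm, h2.sublist h, h.length_le.trans h3, fun v hv => h4 v (h.subset hv)⟩

theorem lt6_left {u v : A} (h : lt6 u v) : (∃ x r, u = .inl (x, r)) ∧ ∃ x r, v = .inl (x, r) := by
  rcases u with ⟨x, r⟩ | n
  · rcases v with ⟨y, r'⟩ | n
    · exact ⟨⟨_, _, rfl⟩, _, _, rfl⟩
    · exact h.elim
  · exact h.elim

theorem edge_Tot {u v : A} : [u, v] ∈ Tot ↔ lt6 u v := by
  rw [mem_Tot]
  constructor
  · intro h; simpa using h.2.1
  · intro h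
    refine ⟨by simp, by simpa using h, by simp, ?_⟩
    intro w hw
    rcases List.mem_pair.1 hw with rfl | rfl
    · exact (lt6_left h).1
    · exact (lt6_left h).2

theorem tri_Tot {u v w : A} : [u, v, w] ∈ Tot ↔ lt6 u v ∧ lt6 u w ∧ lt6 v w := by
  rw [mem_Tot]
  constructor
  · intro h
    have := h.2.1
    simp only [List.pairwise_cons, List.mem_cons, List.not_mem_nil, or_false, forall_eq_or_imp,
      forall_eq] at this
    exact ⟨this.1.1, this.1.2, this.2.1⟩
  · intro h
    refine ⟨by simp, by simp [h.1, h.2.1, h.2.2], by simp, ?_⟩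
    intro x hx
    simp only [List.mem_cons, List.not_mem_nil, or_false] at hx
    rcases hx with rfl | rfl | rfl
    · exact (lt6_left h.1).1
    · exact (lt6_left h.1).2
    · exact (lt6_left h.2.1).2

/-- The cell of the fibre below the lift of a vertex at height `k`. -/
def cell : A → ℤ → P
  | .inl (x, _), k => (hP ^ k) x
  | .inr _, _ => .w 0

/-- The level of the lift of a vertex at height `k`. -/
def lev : A → ℤ → ℤ
  | .inl (_, r), k => 6 * k + (r.1 : ℤ)
  | .inr _, k => 6 * k + 1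

/-- The vertex of the mapping torus below the cell `x` at level `L`; its height is `L / 6`. -/
def vt (x : P) (L : ℤ) : A :=
  .inl ((hP ^ (-(L / 6))) x, ⟨(L % 6).toNat, by omega⟩)

/-- The order of the product of the fibre with the zigzag line. -/
def Ru (x : P) (L : ℤ) (y : P) (L' : ℤ) : Prop :=
  (L = L' ∧ x.lt y = true) ∨ (L % 2 = 0 ∧ (L' = L + 1 ∨ L' + 1 = L) ∧ x.le y)

theorem cell_vt (x : P) (L : ℤ) : cell (vt x L) (L / 6) = x := by
  simp only [vt, cell]
  rw [← Equiv.Perm.mul_apply, ← zpow_add]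
  simp

theorem lev_vt (x : P) (L : ℤ) : lev (vt x L) (L / 6) = L := by
  simp only [vt, lev]
  omega

theorem lev_div (u : A) (k : ℤ) : lev u k / 6 = k := by
  rcases u with ⟨x, r⟩ | n
  · have := r.2
    simp only [lev]
    omega
  · simp only [lev]
    omega

theorem vt_cell (x : P) (r : Fin 6) (k : ℤ) :
    vt (cell (.inl (x, r)) k) (lev (.inl (x, r)) k) = .inl (x, r) := by
  have h := lev_div (.inl (x, r)) k
  unfold vt
  simp only [h]
  simp only [cell, lev]
  rw [← Equiv.Perm.mul_apply, ← zpow_add]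
  have := r.2
  simp only [neg_add_cancel, zpow_zero, Equiv.Perm.coe_one, id_eq, Sum.inl.injEq, Prod.mk.injEq,
    true_and]
  ext
  simp only
  omega

theorem Ru_of_lt6 {u v : A} (h : lt6 u v) (k : ℤ) :
    Ru (cell u k) (lev u k) (cell v (k + tau u v)) (lev v (k + tau u v)) := by
  obtain ⟨⟨x, r, rfl⟩, y, r', rfl⟩ := lt6_left h
  have hr := r.2
  have hr' := r'.2
  simp only [lt6] at h
  simp only [Ru, cell, lev, tau]
  rcases h with ⟨rfl, h⟩ | ⟨h1, h2, h3⟩ | ⟨rfl, rfl, h⟩
  · rw [if_neg (by omega), add_zero, lt_zpow]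
    exact Or.inl ⟨rfl, h⟩
  · rw [if_neg (by rintro ⟨rfl, rfl⟩; simp at h2), add_zero, le_zpow]
    exact Or.inr ⟨by omega, by omega, h3⟩
  · rw [if_pos ⟨rfl, rfl⟩]
    refine Or.inr ⟨by simp; omega, by simp; omega, ?_⟩
    have : (hP ^ k) x = (hP ^ (k + -1)) x.h := by
      rw [← hE_apply, ← Equiv.Perm.mul_apply, ← zpow_add_one]
      simp
    rw [this, le_zpow]
    exact h

theorem lt6_of_Ru {x y : P} {L L' : ℤ} (h : Ru x L y L') :
    lt6 (vt x L) (vt y L') ∧ L' / 6 = L / 6 + tau (vt x L) (vt y L') := by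
  simp only [vt, lt6, tau, Fin.ext_iff]
  rcases h with ⟨rfl, h⟩ | ⟨h1, h2, h3⟩
  · refine ⟨Or.inl ⟨rfl, by rw [lt_zpow]; exact h⟩, ?_⟩
    rw [if_neg (by simp; omega), add_zero]
  · by_cases hq : L' / 6 = L / 6
    · refine ⟨Or.inr (Or.inl ⟨by omega, by omega, by rw [hq, le_zpow]; exact h3⟩), ?_⟩
      rw [if_neg (by simp; omega), add_zero, hq]
    · have a1 : L % 6 = 0 := by omega
      have a2 : L' % 6 = 5 := by omega
      have a3 : L' / 6 = L / 6 - 1 := by omega
      refine ⟨Or.inr (Or.inr ⟨by simp [a1], by simp [a2], ?_⟩), ?_⟩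
      · rw [← hE_apply, ← Equiv.Perm.mul_apply, ← zpow_one_add, a3]
        have : (1 : ℤ) + -(L / 6) = -(L / 6 - 1) := by ring
        rw [this, le_zpow]
        exact h3
      · rw [if_pos ⟨by simp [a1], by simp [a2]⟩]
        omega

/-- A cocycle on the infinite cyclic cover of `X`; `φ u v k` is the value on the lift of the edge
`[u, v]` that starts at height `k`. -/
def CocC (X : Finset (List A)) (φ : A → A → ℤ → ℚ) : Prop :=
  ∀ u v w, [u, v, w] ∈ X → ∀ k, φ u w k = φ u v k + φ v w (k + tau u v)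

theorem exists_prim (f : ℤ → ℚ) : ∃ g : ℤ → ℚ, ∀ L, g (L + 1) - g L = f L := by
  refine ⟨fun L => (∑ i ∈ Finset.range L.toNat, f i) -
    ∑ i ∈ Finset.range (-L).toNat, f (-(i : ℤ) - 1), fun L => ?_⟩
  rcases le_or_gt 0 L with h | h
  · obtain ⟨n, rfl⟩ := Int.eq_ofNat_of_zero_le h
    have a1 : ((n : ℤ) + 1).toNat = n + 1 := by omega
    have a2 : (-((n : ℤ) + 1)).toNat = 0 := by omega
    have a3 : (-(n : ℤ)).toNat = 0 := by omega
    simp only [a1, a2, a3, Int.toNat_natCast, Finset.sum_range_succ]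
    simp
  · obtain ⟨n, hn⟩ : ∃ n : ℕ, L = -(n : ℤ) - 1 := ⟨(-L - 1).toNat, by omega⟩
    subst hn
    have a1 : (-(n : ℤ) - 1 + 1).toNat = 0 := by omega
    have a2 : (-(-(n : ℤ) - 1 + 1)).toNat = n := by omega
    have a3 : (-(n : ℤ) - 1).toNat = 0 := by omega
    have a4 : (-(-(n : ℤ) - 1)).toNat = n + 1 := by omega
    simp only [a1, a2, a3, a4, Finset.sum_range_succ]
    simp

/-- Every cocycle on the cover of the mapping torus is cohomologous to one pulled back from the
fibre. -/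
theorem prod_form {φ : A → A → ℤ → ℚ} (hφ : CocC Tot φ) :
    ∃ (ξ : P → P → ℚ) (g : A → ℤ → ℚ), (∀ x, ξ x x = 0) ∧
      (∀ x y w : P, x.lt y = true → y.lt w = true → x.lt w = true → ξ x w = ξ x y + ξ y w) ∧
      ∀ u v, [u, v] ∈ Tot → ∀ k, φ u v k =
        ξ (cell u k) (cell v (k + tau u v)) + g v (k + tau u v) - g u k := by
  set F : P → ℤ → P → ℤ → ℚ := fun x L y L' => φ (vt x L) (vt y L') (L / 6) with hF
  have co : ∀ {x y w : P} {L L' L'' : ℤ}, Ru x L y L' → Ru x L w L'' → Ru y L' w L'' →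
      F x L w L'' = F x L y L' + F y L' w L'' := by
    intro x y w L L' L'' a b c
    simp only [hF]
    rw [(lt6_of_Ru a).2]
    exact hφ _ _ _ (tri_Tot.2 ⟨(lt6_of_Ru a).1, (lt6_of_Ru b).1, (lt6_of_Ru c).1⟩) _
  choose g hg using fun x : P =>
    exists_prim fun L => if L % 2 = 0 then F x L x (L + 1) else -F x (L + 1) x L
  have vert : ∀ x L L', L % 2 = 0 → (L' = L + 1 ∨ L' + 1 = L) → F x L x L' = g x L' - g x L := by
    intro x L L' h1 h2
    rcases h2 with rfl | rfl
    · rw [hg, if_pos h1]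
    · have := hg x L'
      rw [if_neg (by omega)] at this
      linarith
  have step : ∀ x y : P, x.lt y = true → ∀ L L', L % 2 = 0 → (L' = L + 1 ∨ L' + 1 = L) →
      F x L y L' - g y L' + g x L = F x L y L - g y L + g x L ∧
      F x L y L' - g y L' + g x L = F x L' y L' - g y L' + g x L' := by
    intro x y h L L' h1 h2
    have a := co (x := x) (y := y) (w := y) (L := L) (L' := L) (L'' := L') (Or.inl ⟨rfl, h⟩)
      (Or.inr ⟨h1, h2, Or.inr h⟩) (Or.inr ⟨h1, h2, Or.inl rfl⟩)
    have b := co (x := x) (y := x) (w := y) (L := L) (L' := L') (L'' := L')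
      (Or.inr ⟨h1, h2, Or.inl rfl⟩) (Or.inr ⟨h1, h2, Or.inr h⟩) (Or.inl ⟨rfl, h⟩)
    have c := vert x L L' h1 h2
    have d := vert y L L' h1 h2
    constructor <;> linarith
  have succ : ∀ x y : P, x.lt y = true → ∀ L, F x (L + 1) y (L + 1) - g y (L + 1) + g x (L + 1) =
      F x L y L - g y L + g x L := by
    intro x y h L
    by_cases h1 : L % 2 = 0
    · have := step x y h L (L + 1) h1 (Or.inl rfl)
      linarith [this.1, this.2]
    · have := step x y h (L + 1) L (by omega) (Or.inr rfl)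
      linarith [this.1, this.2]
  have const : ∀ x y : P, x.lt y = true → ∀ L, F x L y L - g y L + g x L =
      F x 0 y 0 - g y 0 + g x 0 := by
    intro x y h L
    induction L using Int.induction_on with
    | zero => rfl
    | succ n ih => rw [succ x y h, ih]
    | pred n ih => rw [← ih, ← succ x y h (-(n : ℤ) - 1), sub_add_cancel]
  refine ⟨fun x y => if x = y then 0 else F x 0 y 0 - g y 0 + g x 0,
    fun u k => g (cell u k) (lev u k), fun x => if_pos rfl, ?_, ?_⟩
  · intro x y w a b c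
    have ne : ∀ x y : P, x.lt y = true → x ≠ y := by
      rintro x y h rfl
      rw [lt_irr] at h
      exact Bool.false_ne_true h
    simp only [if_neg (ne _ _ a), if_neg (ne _ _ b), if_neg (ne _ _ c)]
    have := co (L := 0) (L' := 0) (L'' := 0) (Or.inl ⟨rfl, a⟩) (Or.inl ⟨rfl, c⟩) (Or.inl ⟨rfl, b⟩)
    linarith
  · intro u v huv k
    have h := edge_Tot.1 huv
    have hR := Ru_of_lt6 h k
    have e : φ u v k = F (cell u k) (lev u k) (cell v (k + tau u v)) (lev v (k + tau u v)) := by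
      obtain ⟨⟨x, r, rfl⟩, y, r', rfl⟩ := lt6_left h
      simp only [hF]
      rw [vt_cell, vt_cell, lev_div]
    rw [e]
    simp only
    generalize cell u k = x at hR ⊢
    generalize lev u k = L at hR ⊢
    generalize cell v (k + tau u v) = y at hR ⊢
    generalize lev v (k + tau u v) = L' at hR ⊢
    have ne : x.lt y = true → x ≠ y := by
      rintro h rfl
      rw [lt_irr] at h
      exact Bool.false_ne_true h
    rcases hR with ⟨rfl, h⟩ | ⟨h1, h2, rfl | h⟩
    · rw [if_neg (ne h), ← const x y h L]; ring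
    · rw [if_pos rfl, vert x L L' h1 h2]; ring
    · rw [if_neg (ne h), ← const x y h L, ← (step x y h L L' h1 h2).1]; ring

end Pool.Agent.HT.Eta
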