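import Pool.Agent.Lib.MP_dae8ad_gt.H.EtaRank

/-! Finite windows of the infinite cyclic cover are homology manifolds away from their ends. -/

open Finset Classical

noncomputable section

namespace Pool.Agent.HT.Eta

variable {V : Type}

theorem dX_transfer {W : Type} {S' : Finset (List W)} {S : Finset (List V)} {π : List W → List V}
    (hb : Set.BijOn π S' S) (hi : ∀ L ∈ S', ∀ M ∈ S', inc (π L) (π M) = inc L M)
    {c' : List W → ℤ} {c : List V → ℤ} (hc : ∀ L ∈ S', c' L = c (π L)) {M : List W}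
    (hM : M ∈ S') : dX S' c' M = dX S c (π M) := by
  unfold dX
  apply Finset.sum_bij (fun L _ => π L)
  · intro L hL; exact hb.1 hL
  · intro L hL L' hL' h; exact hb.2.1 hL hL' h
  · intro l hl
    obtain ⟨L, hL, rfl⟩ := hb.2.2 hl
    exact ⟨L, hL, rfl⟩
  · intro L hL
    rw [hi L hL M hM, hc L hL]

theorem loc_transfer {W : Type} {S' : Finset (List W)} {S : Finset (List V)} {π : List W → List V}
    (hb : Set.BijOn π S' S) (hi : ∀ L ∈ S', ∀ M ∈ S', inc (π L) (π M) = inc L M)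
    {z' : List W → ℤ} {z : List V → ℤ} (hz : ∀ L ∈ S', z' L = z (π L)) (h : Loc S z) :
    Loc S' z' := by
  constructor
  · funext M
    by_cases hM : M ∈ S'
    · rw [bz_eq_dX hM, dX_transfer hb hi hz hM, ← bz_eq_dX (hb.1 hM), h.1]; rfl
    · rw [bz_apply, if_neg hM]; rfl
  · intro c' hc'
    have inv : ∀ L ∈ S', Function.invFunOn π S' (π L) = L := fun L hL => hb.invOn_invFunOn.1 hL
    obtain ⟨b, k, hbk⟩ := h.2 (fun l => c' (Function.invFunOn π S' l)) (by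
      funext m
      by_cases hm : m ∈ S
      · obtain ⟨M, hM, rfl⟩ := hb.2.2 hm
        rw [bz_eq_dX hm, ← dX_transfer hb hi (c' := c') (fun L hL => by rw [inv L hL]) hM,
          ← bz_eq_dX hM, hc']
        rfl
      · rw [bz_apply, if_neg hm]; rfl)
    refine ⟨fun L => b (π L), k, fun M hM => ?_⟩
    have := hbk (π M) (hb.1 hM)
    rw [inv M hM] at this
    rw [this, hz M hM, bz_eq_dX hM, bz_eq_dX (hb.1 hM),
      dX_transfer hb hi (c := b) (fun _ _ => rfl) hM]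

/-- The lift of `l` whose first vertex has height `k`. -/
def lift (Φ : V → V → ℤ) (l : List V) (k : ℤ) : List (V × ℤ) :=
  l.map fun v => (v, k + ex Φ l [v])

/-- The lifts of the simplices of `Y` with all heights between `a` and `b`. -/
def Win (Y : Finset (List V)) (Φ : V → V → ℤ) (a b : ℤ) : Finset (List (V × ℤ)) :=
  ((Y ×ˢ Finset.Icc a b).image fun p => lift Φ p.1 p.2).filter
    fun L => ∀ p ∈ L, a ≤ p.2 ∧ p.2 ≤ b

theorem fst_lift (Φ : V → V → ℤ) (l : List V) (k : ℤ) : (lift Φ l k).map Prod.fst = l := by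
  simp [lift, Function.comp_def]

theorem length_lift (Φ : V → V → ℤ) (l : List V) (k : ℤ) : (lift Φ l k).length = l.length := by
  simp [lift]

theorem mem_lift {Φ : V → V → ℤ} {l : List V} {k : ℤ} {p : V × ℤ} :
    p ∈ lift Φ l k ↔ p.1 ∈ l ∧ p.2 = k + ex Φ l [p.1] := by
  unfold lift
  rw [List.mem_map]
  constructor
  · rintro ⟨v, hv, rfl⟩; exact ⟨hv, rfl⟩
  · rintro ⟨h1, h2⟩; exact ⟨p.1, h1, by rw [← h2]⟩

theorem mem_Win {Y : Finset (List V)} (hY : ∀ l ∈ Y, l ≠ []) {Φ : V → V → ℤ} {a b : ℤ}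
    {L : List (V × ℤ)} :
    L ∈ Win Y Φ a b ↔ (∃ l ∈ Y, ∃ k, L = lift Φ l k) ∧ ∀ p ∈ L, a ≤ p.2 ∧ p.2 ≤ b := by
  unfold Win
  simp only [Finset.mem_filter, Finset.mem_image, Finset.mem_product, Finset.mem_Icc]
  constructor
  · rintro ⟨⟨p, hp, rfl⟩, h⟩
    exact ⟨⟨p.1, hp.1, p.2, rfl⟩, h⟩
  · rintro ⟨⟨l, hl, k, rfl⟩, h⟩
    refine ⟨⟨(l, k), ⟨hl, ?_⟩, rfl⟩, h⟩
    obtain ⟨v, m, rfl⟩ := List.exists_cons_of_ne_nil (hY l hl)
    exact h (v, k) (mem_lift.2 ⟨by simp, by simp [ex]⟩)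

theorem lift_sub {Y : Finset (List V)} (hY : Cx Y) {Φ : V → V → ℤ} (hΦ : Coc Y Φ)
    {l m : List V} (hl : l ∈ Y) (h : m.Sublist l) (k : ℤ) :
    lift Φ m (k + ex Φ l m) = m.map fun v => (v, k + ex Φ l [v]) := by
  unfold lift
  apply List.map_congr_left
  intro v hv
  rw [ex_add hY hΦ hl h (List.singleton_sublist.2 hv) (by simp), add_assoc]

theorem lift_sublist {Y : Finset (List V)} (hY : Cx Y) {Φ : V → V → ℤ} (hΦ : Coc Y Φ)
    {l m : List V} (hl : l ∈ Y) (h : m.Sublist l) (k : ℤ) :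
    (lift Φ m (k + ex Φ l m)).Sublist (lift Φ l k) := by
  rw [lift_sub hY hΦ hl h]
  exact h.map _

theorem sub_lift {Y : Finset (List V)} (hY : Cx Y) {Φ : V → V → ℤ} (hΦ : Coc Y Φ)
    {l : List V} (hl : l ∈ Y) {k : ℤ} {M : List (V × ℤ)} (h : M.Sublist (lift Φ l k)) :
    ∃ m : List V, m.Sublist l ∧ M = lift Φ m (k + ex Φ l m) := by
  obtain ⟨m, hm, rfl⟩ := List.sublist_map_iff.1 h
  exact ⟨m, hm, (lift_sub hY hΦ hl hm k).symm⟩

theorem eraseIdx_lift {Y : Finset (List V)} (hY : Cx Y) {Φ : V → V → ℤ} (hΦ : Coc Y Φ)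
    {l : List V} (hl : l ∈ Y) (k : ℤ) (i : ℕ) :
    (lift Φ l k).eraseIdx i = lift Φ (l.eraseIdx i) (k + ex Φ l (l.eraseIdx i)) := by
  rw [lift_sub hY hΦ hl (List.eraseIdx_sublist _ _)]
  unfold lift
  rw [List.eraseIdx_map]

theorem lift_inj {Φ : V → V → ℤ} {l : List V} {j k : ℤ} {p : V × ℤ} (h1 : p ∈ lift Φ l j)
    (h2 : p ∈ lift Φ l k) : j = k := by
  have a := (mem_lift.1 h1).2
  have b := (mem_lift.1 h2).2
  omega

theorem cx_Win {X Y : Finset (List V)} (hX : Cx X) (hY : Cx Y) (hYX : Y ⊆ X) {Φ : V → V → ℤ}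
    (hΦ : Coc X Φ) (a b : ℤ) : Cx (Win Y Φ a b) := by
  have ne : ∀ l ∈ Y, l ≠ [] := fun l hl => (hY l hl).1
  intro L hL
  obtain ⟨⟨l, hl, k, rfl⟩, h⟩ := (mem_Win ne).1 hL
  refine ⟨?_, ?_, ?_, ?_⟩
  · intro h0
    apply ne l hl
    rw [← fst_lift Φ l k, h0]; rfl
  · apply List.Nodup.of_map Prod.fst
    rw [fst_lift]
    exact (hY l hl).2.1
  · intro M hM hs
    obtain ⟨m, hm, rfl⟩ := sub_lift hX hΦ (hYX hl) hs
    refine (mem_Win ne).2 ⟨⟨m, (hY l hl).2.2.1 m ?_ hm, _, rfl⟩, fun p hp => h p (hs.subset hp)⟩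
    rintro rfl
    exact hM rfl
  · intro M hM hp
    obtain ⟨⟨m, hm, j, rfl⟩, _⟩ := (mem_Win ne).1 hM
    have := hp.map Prod.fst
    rw [fst_lift, fst_lift] at this
    have e := (hY l hl).2.2.2 m hm this
    subst e
    obtain ⟨v, hv⟩ := List.exists_mem_of_ne_nil m (ne m hm)
    have h1 : (v, j + ex Φ m [v]) ∈ lift Φ m j := mem_lift.2 ⟨hv, rfl⟩
    rw [lift_inj h1 (hp.subset h1)]

theorem inc_lift {X : Finset (List V)} (hX : Cx X) {Φ : V → V → ℤ} (hΦ : Coc X Φ)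
    {l m : List V} (hl : l ∈ X) {j i : ℤ} {p : V × ℤ} (h1 : p ∈ lift Φ l j)
    (h2 : p ∈ lift Φ m i) : inc l m = inc (lift Φ l j) (lift Φ m i) := by
  unfold inc
  rw [length_lift]
  apply Finset.sum_congr rfl
  intro n _
  have : l.eraseIdx n = m ↔ (lift Φ l j).eraseIdx n = lift Φ m i := by
    rw [eraseIdx_lift hX hΦ hl]
    constructor
    · intro h
      rw [h]
      have hs : m.Sublist l := h ▸ List.eraseIdx_sublist l n
      have a := (mem_lift.1 h1).2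
      have b := mem_lift.1 h2
      rw [ex_add hX hΦ hl hs (List.singleton_sublist.2 b.1) (by simp)] at a
      have : i = j + ex Φ l m := by have := b.2; omega
      rw [this]
    · intro h
      have := congrArg (List.map Prod.fst) h
      rwa [fst_lift, fst_lift] at this
  by_cases h : l.eraseIdx n = m
  · rw [if_pos h, if_pos (this.1 h)]
  · rw [if_neg h, if_neg fun h' => h (this.2 h')]

theorem st_bij {X Y : Finset (List V)} (hX : Cx X) (hYX : Y ⊆ X) {Φ : V → V → ℤ}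
    (hΦ : Coc X Φ) {a b D : ℤ}
    (hD : ∀ l ∈ X, ∀ v ∈ l, ∀ w ∈ l, ex Φ l [v] ≤ ex Φ l [w] + D) {σ : List V} (hσ : σ ≠ [])
    {k : ℤ} (hg : ∀ p ∈ lift Φ σ k, a + D ≤ p.2 ∧ p.2 ≤ b - D) :
    Set.BijOn (List.map Prod.fst) (St (Win Y Φ a b) (lift Φ σ k) : Set (List (V × ℤ)))
      (St Y σ : Set (List V)) ∧
      ∀ L ∈ St (Win Y Φ a b) (lift Φ σ k), ∀ M ∈ St (Win Y Φ a b) (lift Φ σ k),
        inc (L.map Prod.fst) (M.map Prod.fst) = inc L M := by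
  have ne : ∀ l ∈ Y, l ≠ [] := fun l hl => (hX l (hYX hl)).1
  obtain ⟨v, hv⟩ := List.exists_mem_of_ne_nil σ hσ
  have hp : (v, k + ex Φ σ [v]) ∈ lift Φ σ k := mem_lift.2 ⟨hv, rfl⟩
  refine ⟨⟨?_, ?_, ?_⟩, ?_⟩
  · intro L hL
    obtain ⟨h1, h2⟩ := mem_St.1 hL
    obtain ⟨⟨l, hl, j, rfl⟩, _⟩ := (mem_Win ne).1 h1
    have := h2.map Prod.fst
    rw [fst_lift, fst_lift] at this
    rw [fst_lift]
    exact mem_St.2 ⟨hl, this⟩
  · intro L hL L' hL' h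
    obtain ⟨h1, h2⟩ := mem_St.1 hL
    obtain ⟨h1', h2'⟩ := mem_St.1 hL'
    obtain ⟨⟨l, hl, j, rfl⟩, _⟩ := (mem_Win ne).1 h1
    obtain ⟨⟨l', hl', j', rfl⟩, _⟩ := (mem_Win ne).1 h1'
    rw [fst_lift, fst_lift] at h
    subst h
    rw [lift_inj (h2.subset hp) (h2'.subset hp)]
  · intro l hl
    obtain ⟨h1, h2⟩ := mem_St.1 hl
    have hs := lift_sublist hX hΦ (hYX h1) h2 (k - ex Φ l σ)
    rw [sub_add_cancel] at hs
    refine ⟨lift Φ l (k - ex Φ l σ), mem_St.2 ⟨(mem_Win ne).2 ⟨⟨l, h1, _, rfl⟩, ?_⟩, hs⟩,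
      fst_lift _ _ _⟩
    intro p hp'
    have a1 := mem_lift.1 hp'
    have a2 := (mem_lift.1 (hs.subset hp)).2
    have a3 := hg _ hp
    have a4 := hD l (hYX h1) v (h2.subset hv) p.1 a1.1
    have a5 := hD l (hYX h1) p.1 a1.1 v (h2.subset hv)
    have a6 := a1.2
    simp only at a2 a3
    omega
  · intro L hL M hM
    obtain ⟨h1, h2⟩ := mem_St.1 hL
    obtain ⟨h1', h2'⟩ := mem_St.1 hM
    obtain ⟨⟨l, hl, j, rfl⟩, _⟩ := (mem_Win ne).1 h1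
    obtain ⟨⟨l', hl', j', rfl⟩, _⟩ := (mem_Win ne).1 h1'
    rw [fst_lift, fst_lift]
    exact inc_lift hX hΦ (hYX hl) (h2.subset hp) (h2'.subset hp)

theorem exists_width (X : Finset (List V)) (Φ : V → V → ℤ) :
    ∃ D : ℤ, 0 ≤ D ∧ ∀ l ∈ X, ∀ v ∈ l, ∀ w ∈ l, ex Φ l [v] ≤ ex Φ l [w] + D := by
  obtain ⟨D, hD⟩ := (X.biUnion fun l => (l.toFinset ×ˢ l.toFinset).image
    fun p => ex Φ l [p.1] - ex Φ l [p.2]).bddAbove
  refine ⟨max D 0, le_max_right _ _, fun l hl v hv w hw => ?_⟩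
  have : ex Φ l [v] - ex Φ l [w] ≤ D := by
    apply hD
    simp only [Finset.coe_biUnion, Set.mem_iUnion, Finset.mem_coe, Finset.mem_image]
    exact ⟨l, hl, (v, w), by simp [hv, hw], rfl⟩
  have := le_max_left D 0
  omega

theorem dX_Win {X : Finset (List V)} (hX : Cx X) {Φ : V → V → ℤ} (hΦ : Coc X Φ) {a b D : ℤ}
    (hD : ∀ l ∈ X, ∀ v ∈ l, ∀ w ∈ l, ex Φ l [v] ≤ ex Φ l [w] + D) {σ : List V} (hσ : σ ≠ [])
    {k : ℤ} (hg : ∀ p ∈ lift Φ σ k, a + D ≤ p.2 ∧ p.2 ≤ b - D) (z : List V → ℤ)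
    {M : List (V × ℤ)} (hM : M ∈ Win X Φ a b) (hs : (lift Φ σ k).Sublist M) :
    dX (Win X Φ a b) (fun L => z (L.map Prod.fst)) M = dX X z (M.map Prod.fst) := by
  obtain ⟨h1, h2⟩ := st_bij hX (Finset.Subset.refl X) hΦ hD hσ hg
  have hM' := mem_St.2 ⟨hM, hs⟩
  rw [← dX_St hs, dX_transfer h1 h2 (c := z) (fun _ _ => rfl) hM',
    dX_St (mem_St.1 (h1.1 hM')).2]

theorem hm_Win {n : ℕ} {X B : Finset (List V)} {Bad : Set V} {z : List V → ℤ}
    (h : HM n X B Bad z) (hB : ∀ l ∈ X, ∀ v ∈ l, v ∉ Bad) {Φ : V → V → ℤ} (hΦ : Coc X Φ)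
    {D : ℤ} (hD : ∀ l ∈ X, ∀ v ∈ l, ∀ w ∈ l, ex Φ l [v] ≤ ex Φ l [w] + D) (a b : ℤ) :
    HM n (Win X Φ a b) (Win B Φ a b) {p | p.2 < a + D ∨ b - D < p.2}
      (fun L => z (L.map Prod.fst)) := by
  obtain ⟨hX, hBc, hBX, hz, hloc⟩ := h
  have ne : ∀ l ∈ X, l ≠ [] := fun l hl => (hX l hl).1
  have neB : ∀ l ∈ B, l ≠ [] := fun l hl => (hBc l hl).1
  refine ⟨cx_Win hX hX (Finset.Subset.refl X) hΦ a b, cx_Win hX hBc hBX hΦ a b, ?_, ?_, ?_⟩
  · intro L hL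
    obtain ⟨⟨l, hl, k, rfl⟩, h⟩ := (mem_Win neB).1 hL
    exact (mem_Win ne).2 ⟨⟨l, hBX hl, k, rfl⟩, h⟩
  · intro L hL
    obtain ⟨⟨l, hl, k, rfl⟩, _⟩ := (mem_Win ne).1 hL
    simp only [fst_lift, length_lift]
    exact hz l hl
  · intro L hL hg
    obtain ⟨⟨σ, hσ, k, rfl⟩, hr⟩ := (mem_Win ne).1 hL
    have hg' : ∀ p ∈ lift Φ σ k, a + D ≤ p.2 ∧ p.2 ≤ b - D := by
      intro p hp
      have := hg p hp
      simp only [Set.mem_ofPred_eq, not_or, not_lt] at this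
      exact this
    obtain ⟨h1, h2⟩ := st_bij hX (Finset.Subset.refl X) hΦ hD (ne σ hσ) hg'
    obtain ⟨⟨l, hl, hl'⟩, hif⟩ := hloc σ hσ (hB σ hσ)
    refine ⟨?_, ?_⟩
    · obtain ⟨M, hM, rfl⟩ := h1.2.2 hl
      exact ⟨M, hM, by simpa using hl'⟩
    · have hiff : lift Φ σ k ∈ Win B Φ a b ↔ σ ∈ B := by
        rw [mem_Win neB]
        constructor
        · rintro ⟨⟨m, hm, j, e⟩, _⟩
          have := congrArg (List.map Prod.fst) e
          rw [fst_lift, fst_lift] at this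
          rwa [this]
        · intro hs; exact ⟨⟨σ, hs, k, rfl⟩, hr⟩
      by_cases hs : σ ∈ B
      · rw [if_pos hs] at hif
        rw [if_pos (hiff.2 hs)]
        obtain ⟨h3, h4⟩ := st_bij hX hBX hΦ hD (ne σ hσ) hg'
        refine ⟨loc_transfer h1 h2 (fun _ _ => rfl) hif.1, loc_transfer h3 h4 ?_ hif.2⟩
        intro M hM
        obtain ⟨m1, m2⟩ := mem_St.1 hM
        have m3 : M ∈ Win X Φ a b := by
          obtain ⟨⟨l, hl, k, rfl⟩, h⟩ := (mem_Win neB).1 m1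
          exact (mem_Win ne).2 ⟨⟨l, hBX hl, k, rfl⟩, h⟩
        rw [bz_eq_dX m3, bz_eq_dX (hBX (mem_St.1 (h3.1 hM)).1), dX_Win hX hΦ hD (ne σ hσ) hg' z m3 m2]
      · rw [if_neg hs] at hif
        rw [if_neg fun h => hs (hiff.1 h)]
        exact loc_transfer h1 h2 (fun _ _ => rfl) hif

end Pool.Agent.HT.Eta
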