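import Pool.Agent.Lib.MP_dae8ad_gt.H.Filt0

/-! Filtered complexes and dimension counts (abstract linear algebra). -/

open Finset Classical

noncomputable section

namespace Pool.Agent.HT

variable {V V' : Type}

/-- Equal homology gives equal dimension differences. -/
theorem dim_of_qis {K E D : Type} [Field K] [AddCommGroup E] [Module K E] [AddCommGroup D]
    [Module K D] (ε : E →ₗ[K] D) (ZE BE : Submodule K E) (ZD BD : Submodule K D)
    [FiniteDimensional K ZE] [FiniteDimensional K ZD] (hE : BE ≤ ZE) (hD : BD ≤ ZD)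
    (hZ : ∀ e ∈ ZE, ε e ∈ ZD) (hB : ∀ e ∈ BE, ε e ∈ BD)
    (hs : ∀ x ∈ ZD, ∃ e ∈ ZE, x - ε e ∈ BD) (hi : ∀ e ∈ ZE, ε e ∈ BD → e ∈ BE) :
    Module.finrank K ZE + Module.finrank K BD = Module.finrank K ZD + Module.finrank K BE := by
  have : FiniteDimensional K BE := Submodule.finiteDimensional_of_le hE
  let f : ZE →ₗ[K] ZD ⧸ BD.submoduleOf ZD :=
    (BD.submoduleOf ZD).mkQ ∘ₗ (ε.restrict hZ)
  have h1 : LinearMap.range f = ⊤ := by
    refine LinearMap.range_eq_top.2 fun q => ?_
    obtain ⟨x, rfl⟩ := Submodule.Quotient.mk_surjective _ q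
    obtain ⟨e, he, hx⟩ := hs x x.2
    exact ⟨⟨e, he⟩, ((Submodule.Quotient.eq (BD.submoduleOf ZD)).2 hx).symm⟩
  have h2 : LinearMap.ker f = BE.submoduleOf ZE := by
    ext e
    rw [LinearMap.mem_ker, LinearMap.comp_apply, Submodule.mkQ_apply,
      Submodule.Quotient.mk_eq_zero]
    exact ⟨hi e e.2, hB e⟩
  have h3 := LinearMap.finrank_range_add_finrank_ker f
  have h4 := Submodule.finrank_quotient_add_finrank (BD.submoduleOf ZD)
  rw [h1, h2, finrank_top, (Submodule.submoduleOfEquivOfLe hE).finrank_eq] at h3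
  rw [(Submodule.submoduleOfEquivOfLe hD).finrank_eq] at h4
  omega

theorem Filt_lift {R P M N : Type} [CommRing R] [AddCommGroup P] [Module R P] [AddCommGroup M]
    [Module R M] [AddCommGroup N] [Module R N] [Module.Projective R P] (g : N →ₗ[R] M)
    (f : P →ₗ[R] M) (h : ∀ x, f x ∈ LinearMap.range g) : ∃ l : P →ₗ[R] N, ∀ x, g (l x) = f x := by
  obtain ⟨l, hl⟩ := Module.projective_lifting_property g.rangeRestrict (f.codRestrict _ h)
    g.surjective_rangeRestrict
  exact ⟨l, fun x => congrArg Subtype.val (LinearMap.congr_fun hl x)⟩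

theorem Filt_ext {R ι κ μ U : Type} [CommRing R] [IsDomain R] [IsPrincipalIdealRing R]
    [Fintype ι] [Fintype κ] [Fintype μ] [AddCommGroup U] [Module R U] (A : Matrix κ ι R)
    (B : Matrix μ κ R)
    (hB : ∀ (c : μ → R) (n : R), n ≠ 0 → (∃ b, B.mulVec b = n • c) → ∃ b, B.mulVec b = c)
    (h : ∀ c : κ → R, B.mulVec c = 0 → ∃ b, A.mulVec b = c) (c : κ → U)
    (hc : ∀ m, ∑ k, B m k • c k = 0) : ∃ b : ι → U, ∀ k, ∑ i, A k i • b i = c k := by
  have : Module.IsTorsionFree R ((μ → R) ⧸ LinearMap.range B.mulVecLin) := by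
    refine .of_smul_eq_zero fun n q hq => ?_
    obtain ⟨x, rfl⟩ := Submodule.Quotient.mk_surjective _ q
    refine or_iff_not_imp_left.2 fun hn => (Submodule.Quotient.mk_eq_zero _).2 ?_
    exact hB x n hn ((Submodule.Quotient.mk_eq_zero _).1 hq)
  obtain ⟨s, hs⟩ := Module.projective_lifting_property (LinearMap.range B.mulVecLin).mkQ
    LinearMap.id (Submodule.mkQ_surjective _)
  obtain ⟨H, hH⟩ := Filt_lift B.mulVecLin (LinearMap.id - s ∘ₗ (LinearMap.range B.mulVecLin).mkQ)
    fun x => (Submodule.Quotient.eq _).1 (LinearMap.congr_fun hs _).symm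
  obtain ⟨G, hG⟩ := Filt_lift A.mulVecLin (LinearMap.id - H ∘ₗ B.mulVecLin) fun x => h _ (by
    have e : (LinearMap.range B.mulVecLin).mkQ (B.mulVecLin x) = 0 :=
      (Submodule.Quotient.mk_eq_zero _).2 ⟨x, rfl⟩
    change B.mulVecLin (x - H (B.mulVecLin x)) = 0
    rw [map_sub, hH, LinearMap.sub_apply, LinearMap.comp_apply, e, map_zero, sub_zero]
    exact sub_self _)
  have e : A * LinearMap.toMatrix' G + LinearMap.toMatrix' H * B = 1 := by
    refine Matrix.toLin'.injective (LinearMap.ext fun x => ?_)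
    rw [map_add, Matrix.toLin'_mul, Matrix.toLin'_mul, Matrix.toLin'_toMatrix',
      Matrix.toLin'_toMatrix', Matrix.toLin'_one]
    exact eq_sub_iff_add_eq.1 (hG x)
  refine ⟨fun i => ∑ k, LinearMap.toMatrix' G i k • c k, fun k => ?_⟩
  have e1 : ∑ j, (A * LinearMap.toMatrix' G + LinearMap.toMatrix' H * B) k j • c j = c k := by
    rw [e]
    simp [Matrix.one_apply]
  have e2 : ∑ j, (LinearMap.toMatrix' H * B) k j • c j = 0 := by
    simp only [Matrix.mul_apply, Finset.sum_smul, mul_smul]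
    rw [Finset.sum_comm]
    simp only [← Finset.smul_sum, hc, smul_zero, Finset.sum_const_zero]
  simp only [Matrix.add_apply, add_smul, Finset.sum_add_distrib, e2, add_zero] at e1
  rw [← e1]
  simp only [Matrix.mul_apply, Finset.sum_smul, mul_smul, Finset.smul_sum]
  exact Finset.sum_comm

/-- Universal coefficients: if `ker B ≤ range A` over `ℤ` and `range B` is saturated, then
`ker B ≤ range A` for vectors with entries in any abelian group `U`. Sketch: `range B` and `ker B`
are submodules of finite free `ℤ`-modules, so they are free and projective; by `hB` the quotient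
`ℤ ^ μ ⧸ range B` is torsion free, so free, and there is a retraction `ρ : ℤ ^ μ → range B`. Let
`σ` be a section of `B : ℤ ^ κ → range B`, `π = 1 - σ B : ℤ ^ κ → ker B`, and lift the inclusion
`ker B → range A` to `τ : ker B → ℤ ^ ι` (`Module.projective_lifting_property`). Then
`1 = (σ ρ) B + A (τ π)`, an identity `1 = H * B + A * G` of integral matrices. -/
theorem exact_ext {ι κ μ U : Type} [Fintype ι] [Fintype κ] [Fintype μ]
    [AddCommGroup U] (A : Matrix κ ι ℤ) (B : Matrix μ κ ℤ)
    (hB : ∀ (c : μ → ℤ) (n : ℤ), n ≠ 0 → (∃ b, B.mulVec b = n • c) → ∃ b, B.mulVec b = c)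
    (h : ∀ c : κ → ℤ, B.mulVec c = 0 → ∃ b, A.mulVec b = c) (c : κ → U)
    (hc : ∀ m, ∑ k, B m k • c k = 0) : ∃ b : ι → U, ∀ k, ∑ i, A k i • b i = c k := by
  exact Filt_ext A B hB h c hc

/-- The same for rational vector spaces, without saturation. Sketch: clear denominators to get
`ker B ≤ range A` over `ℚ`, then choose linear sections to get rational matrices with
`1 = H * B + A * G`. -/
theorem exact_extQ {ι κ μ U : Type} [Fintype ι] [Fintype κ] [Fintype μ]
    [AddCommGroup U] [Module ℚ U] (A : Matrix κ ι ℤ) (B : Matrix μ κ ℤ)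
    (h : ∀ c : κ → ℤ, B.mulVec c = 0 → ∃ b, A.mulVec b = c) (c : κ → U)
    (hc : ∀ m, ∑ k, B m k • c k = 0) : ∃ b : ι → U, ∀ k, ∑ i, A k i • b i = c k := by
  have e : ∀ {α β : Type} [Fintype β] (M : Matrix α β ℤ) (v : β → ℤ),
      (M.map (Int.cast : ℤ → ℚ)).mulVec (fun i => (v i : ℚ)) = fun i => (M.mulVec v i : ℚ) :=
    fun M v => by funext i; simp [Matrix.mulVec, dotProduct]
  have := Filt_ext (A.map (Int.cast : ℤ → ℚ)) (B.map (Int.cast : ℤ → ℚ))
    (fun x n hn ⟨b, hb⟩ => ⟨n⁻¹ • b, by rw [Matrix.mulVec_smul, hb, inv_smul_smul₀ hn]⟩)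
    (fun x hx => by
      obtain ⟨⟨n, hn⟩, hy⟩ := IsLocalization.exist_integer_multiples_of_finite
        (nonZeroDivisors ℤ) x
      choose y hy using hy
      have hn' : (n : ℚ) ≠ 0 := Int.cast_ne_zero.2 (nonZeroDivisors.ne_zero hn)
      have e1 : (fun i => (y i : ℚ)) = (n : ℚ) • x := funext fun i => by simpa using hy i
      obtain ⟨b, hb⟩ := h y (funext fun i => by
        have := congrFun (e B y) i
        rw [e1, Matrix.mulVec_smul, hx, smul_zero] at this
        exact Int.cast_eq_zero.1 this.symm)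
      exact ⟨(n : ℚ)⁻¹ • fun i => (b i : ℚ), by
        rw [Matrix.mulVec_smul, e, hb, e1, inv_smul_smul₀ hn']⟩)
    c (fun m => by simpa only [Matrix.map_apply, Int.cast_smul_eq_zsmul] using hc m)
  simpa only [Matrix.map_apply, Int.cast_smul_eq_zsmul] using this

end Pool.Agent.HT
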