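import Pool.Agent.Lib.MP_dae8ad_gt.H.D2

/-! Filtered complexes and dimension counts (abstract linear algebra). -/

open Finset Classical

noncomputable section

namespace Pool.Agent.HT

variable {V V' : Type}

section filt
variable {K E D : Type} [Ring K] [AddCommGroup E] [Module K E] [AddCommGroup D] [Module K D]

/-- A double complex `D` with differentials `d'` (keeps the weight) and `d''` (raises it), and a
map `ε` from a complex `E` that computes the homology of `d'`. -/
structure Filt (dE : E →ₗ[K] E) (d' d'' : D →ₗ[K] D) (ε : E →ₗ[K] D) (N : ℕ)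
    (pE : ℕ → E →ₗ[K] E) (pD : ℕ → D →ₗ[K] D) : Prop where
  sumE : ∀ e, ∑ w ∈ range N, pE w e = e
  sumD : ∀ x, ∑ w ∈ range N, pD w x = x
  orth : ∀ w w' x, pD w (pD w' x) = if w = w' then pD w x else 0
  keep : ∀ w x, pD w (d' x) = d' (pD w x)
  raise : ∀ w x, pD (w + 1) (d'' x) = d'' (pD w x)
  zero : ∀ x, pD 0 (d'' x) = 0
  grad : ∀ w e, pD w (ε e) = ε (pE w e)
  sq : ∀ x, (d' + d'') ((d' + d'') x) = 0
  cyc : ∀ e, d' (ε e) = 0
  chain : ∀ e, d'' (ε e) = ε (dE e)
  surj : ∀ x, d' x = 0 → ∃ e y, x = ε e + d' y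
  inj : ∀ e y, ε e = d' y → e = 0

variable {dE : E →ₗ[K] E} {d' d'' : D →ₗ[K] D} {ε : E →ₗ[K] D} {N : ℕ}
  {pE : ℕ → E →ₗ[K] E} {pD : ℕ → D →ₗ[K] D}

theorem Filt0_d (h : Filt dE d' d'' ε N pE pD) (e : E) : (d' + d'') (ε e) = ε (dE e) := by
  rw [LinearMap.add_apply, h.cyc, h.chain, zero_add]

theorem Filt0_low (h : Filt dE d' d'' ε N pE pD) {w : ℕ} {x : D} (hx : ∀ v < w, pD v x = 0)
    {v : ℕ} (hv : v ≤ w) : pD v (d'' x) = 0 := by
  rcases v with _ | v
  · exact h.zero x
  · rw [h.raise, hx v hv, map_zero]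

theorem Filt0_red (h : Filt dE d' d'' ε N pE pD) {x : D} {c : E} (hx : (d' + d'') x = ε c) :
    ∃ e y, x = ε e + (d' + d'') y := by
  have key : ∀ w, ∃ e y, ∀ v < w, pD v (x - ε e - (d' + d'') y) = 0 := fun w => by
    induction w with
    | zero => exact ⟨0, 0, fun v hv => absurd hv v.not_lt_zero⟩
    | succ w ih =>
      obtain ⟨e, y, ih⟩ := ih
      have h1 : (d' + d'') (x - ε e - (d' + d'') y) = ε (c - dE e) := by
        rw [map_sub, map_sub, h.sq, hx, Filt0_d h, map_sub, sub_zero]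
      generalize hz : x - ε e - (d' + d'') y = z at ih h1
      have h2 := congrArg (pD w) h1
      rw [LinearMap.add_apply, map_add, Filt0_low h ih le_rfl, add_zero, h.keep, h.grad] at h2
      rw [h.inj _ _ h2.symm, map_zero] at h2
      obtain ⟨e1, y1, h3⟩ := h.surj _ h2
      have h4 := congrArg (pD w) h3
      rw [h.orth, if_pos rfl, map_add, h.grad, h.keep] at h4
      refine ⟨e + pE w e1, y + pD w y1, fun v hv => ?_⟩
      have h5 : x - ε (e + pE w e1) - (d' + d'') (y + pD w y1) = z - pD w z - d'' (pD w y1) := by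
        rw [h4, ← hz, map_add, map_add (d' + d''), LinearMap.add_apply d' d'' (pD w y1)]
        abel
      rw [h5, map_sub, map_sub, h.orth, Filt0_low h (w := w)
        (fun u hu => by rw [h.orth, if_neg hu.ne]) (Nat.lt_succ_iff.1 hv), sub_zero]
      split_ifs with e0
      · exact sub_self _
      · rw [ih v (by omega), sub_zero]
  obtain ⟨e, y, hk⟩ := key N
  refine ⟨e, y, ?_⟩
  rw [← sub_eq_zero, ← sub_sub, ← h.sumD (x - ε e - (d' + d'') y)]
  exact sum_eq_zero fun v hv => hk v (mem_range.1 hv)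

/-- Sketch: induction on `w`: find `e`, `y` such that `x - ε e - (d' + d'') y` has no component
of weight `< w` and `dE e = 0`. If `x' ` is such a difference, then `(d' + d'') x' = 0`, its lowest
component `x_w` has `d' x_w = 0`, `x_w = ε e_w + d' y_w` with `e_w`, `y_w` of weight `w` (project),
and the component of weight `w + 1` of `(d' + d'') x' = 0` with `d'' d' = - d' d''` shows that
`ε (dE e_w)` is a `d'`-boundary. The identities `d' d' = 0`, `d' d'' + d'' d' = 0` follow from `sq`
on homogeneous elements. -/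
theorem Filt.onto (h : Filt dE d' d'' ε N pE pD) (x : D) (hx : (d' + d'') x = 0) :
    ∃ e y, dE e = 0 ∧ x = ε e + (d' + d'') y := by
  obtain ⟨e, y, e1⟩ := Filt0_red h (hx.trans (map_zero ε).symm)
  refine ⟨e, y, h.inj _ 0 ?_, e1⟩
  rw [e1, map_add, h.sq, add_zero, Filt0_d h] at hx
  rw [hx, map_zero]

/-- Sketch: reduce `y` weight by weight. If `y` has no component of weight `< w`, the component of
weight `w` gives `ε e_w = d' y_w`, so `e_w = 0`, `y_w = ε e' + d' y'`; replace `y` by
`y - ε e' - (d' + d'') y'` and `e` by `e - dE e'`. -/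
theorem Filt.mono (h : Filt dE d' d'' ε N pE pD) (e : E) (y : D) (he : ε e = (d' + d'') y) :
    ∃ e', e = dE e' := by
  obtain ⟨e', y', e1⟩ := Filt0_red h he.symm
  refine ⟨e', sub_eq_zero.1 (h.inj _ 0 ?_)⟩
  rw [map_sub, he, e1, map_add, h.sq, add_zero, Filt0_d h, sub_self, map_zero]

end filt

end Pool.Agent.HT
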