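import Pool.Agent.Lib.MP_dae8ad_gt.H.Fold00

/-! The fold: definitions and first properties. -/

open Finset Classical

noncomputable section

namespace Pool.Agent.HT

variable {V V' : Type}

variable {E : Finset (List A)} {ψ : A → A → ℤ} {W : Finset (List V)} {z : List V → ℤ}
  {Φ : V → V → ℤ} {ι : A → V} {w g : ℕ}

theorem FD.cxW (D : FD E ψ W z Φ ι w g) : Cx W := D.wd.hm.1

theorem FD.cocS (D : FD E ψ W z Φ ι w g) : CocS (W : Set (List V)) Φ :=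
  fun u v w h => D.wd.coc u v w (mem_coe.1 h)

theorem mem_Iw {w n g : ℕ} {k : ℤ} : k ∈ Iw w n g ↔ -(w : ℤ) ≤ k ∧ k ≤ mm n g + w := by
  unfold Iw
  rw [mem_Ico]
  omega

theorem FD.whole (D : FD E ψ W z Φ ι w g) (n : ℕ) {a : V × ℤ} (h0 : 0 ≤ a.2)
    (h1 : a.2 ≤ mm n g) : Whole W Φ (Iw w n g) [a] := by
  intro L hL hs b hb
  have := abs_le.1 (up_bound D.cxW D.bound hL (List.singleton_sublist.1 hs) hb)
  rw [mem_Iw]
  omega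

theorem inK_bound {n g : ℕ} {k : ℤ} (h : InK n g k) : 0 ≤ k ∧ k < mm n g := by
  unfold InK at h
  unfold mm at *
  omega

theorem FD.hmZ (D : FD E ψ W z Φ ι w g) (n : ℕ) :
    HM 4 (Zf W Φ w n g) (Bf E Φ ι w n g) (BadZ ι n g) (zf z) ∧
      Cy (Zf W Φ w n g) (Bf E Φ ι w n g) (BadZ ι n g) (zf z) := by
  refine hm_up D.wd.hm (fun m _ _ hm => (hm_bd D.wd.hm).2.2 m hm) D.cocS _ _
    (fun a _ h => h) fun a ha => ?_
  have := inK_bound (not_not.1 ha : Gd ι n g a).1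
  exact D.whole n this.1 this.2.le

theorem FD.bzZ (D : FD E ψ W z Φ ι w g) (n : ℕ) {l : List (V × ℤ)} (hl : l ∈ Zf W Φ w n g)
    {a : V × ℤ} (ha : a ∈ l) (h0 : 0 ≤ a.2) (h1 : a.2 ≤ mm n g) :
    bz (Zf W Φ w n g) (zf z) l = bz W z (l.map Prod.fst) :=
  bz_up D.cxW D.cocS hl
    (fun L hL hs => D.whole n h0 h1 L hL ((List.singleton_sublist.2 ha).trans hs)) z

theorem FD.q_hi (D : FD E ψ W z Φ ι w g) (n : ℕ) {u : P × ℤ} (h0 : 90 * n + 90 * g ≤ u.2)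
    (h1 : u.2 ≤ cc n g) : qf ι n g (kap ι u) = kap ι (rf (cc n g) u) := by
  have h : ∃ u' : P × ℤ, kap ι u' = kap ι u ∧ 90 * n + 90 * g ≤ u'.2 ∧ u'.2 ≤ cc n g :=
    ⟨u, rfl, h0, h1⟩
  unfold qf
  rw [dif_pos h, D.wd.kap_inj h.choose_spec.1]

theorem q_lo (ι : A → V) (n g : ℕ) {a : V × ℤ} (h : a.2 < 15 * n + 15 * g) : qf ι n g a = a := by
  unfold qf
  rw [dif_neg]
  rintro ⟨u, rfl, h0, -⟩
  have : (kap ι u).2 = u.2 / 6 := rfl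
  omega

theorem q_free (ι : A → V) (n g : ℕ) {a : V × ℤ} (h : ∀ u, kap ι u ≠ a) : qf ι n g a = a := by
  unfold qf
  rw [dif_neg]
  rintro ⟨u, hu, -⟩
  exact h u hu

theorem FD.q_cases (D : FD E ψ W z Φ ι w g) (n : ℕ) (a : V × ℤ) : qf ι n g a = a ∨
    ∃ u : P × ℤ, 0 ≤ u.2 ∧ u.2 ≤ 90 * n ∧ a = kap ι (rf (cc n g) u) ∧ qf ι n g a = kap ι u := by
  by_cases h : ∃ u : P × ℤ, kap ι u = a ∧ 90 * n + 90 * g ≤ u.2 ∧ u.2 ≤ cc n g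
  · obtain ⟨u, rfl, h0, h1⟩ := h
    refine Or.inr ⟨rf (cc n g) u, ?_, ?_, by rw [rf_rf], D.q_hi n h0 h1⟩
    · simp only [rf]; omega
    · simp only [rf, cc] at *; omega
  · exact Or.inl (dif_neg h)

theorem FD.q_eq (D : FD E ψ W z Φ ι w g) (n : ℕ) {a a' : V × ℤ} (h : qf ι n g a = qf ι n g a') :
    a = a' ∨ ∃ u : P × ℤ, 0 ≤ u.2 ∧ u.2 ≤ 90 * n ∧
      ((a = kap ι u ∧ a' = kap ι (rf (cc n g) u)) ∨ (a' = kap ι u ∧ a = kap ι (rf (cc n g) u))) := by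
  rcases D.q_cases n a with h1 | ⟨u, h0, h1, h2, h3⟩ <;>
    rcases D.q_cases n a' with h1' | ⟨u', h0', h1', h2', h3'⟩
  · exact Or.inl (by rw [← h1, h, h1'])
  · exact Or.inr ⟨u', h0', h1', Or.inl ⟨by rw [← h1, h, h3'], h2'⟩⟩
  · exact Or.inr ⟨u, h0, h1, Or.inr ⟨by rw [← h1', ← h, h3], h2⟩⟩
  · have : u = u' := D.wd.kap_inj (by rw [← h3, h, h3'])
    exact Or.inl (by rw [h2, h2', this])

/-- Good boundary vertices, in terms of heights. -/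
theorem FD.gd_kap (D : FD E ψ W z Φ ι w g) (n : ℕ) (u : P × ℤ) : Gd ι n g (kap ι u) ↔
    (1 ≤ u.2 ∧ u.2 < 90 * n) ∨ (90 * n + 90 * g < u.2 ∧ u.2 < cc n g) := by
  have hg := D.gap
  have e : (kap ι u).2 = u.2 / 6 := rfl
  unfold Gd InK mm cc
  rw [e]
  constructor
  · rintro ⟨h1, h2⟩
    have h3 : u.2 ≠ 0 := fun h => (h2 u.1).1 (by rw [← h])
    have h4 : u.2 ≠ 90 * n + 90 * g := fun h => (h2 u.1).2 (by rw [← h])
    omega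
  · intro h
    refine ⟨by omega, fun x => ⟨fun h' => ?_, fun h' => ?_⟩⟩
    · have : u.2 = 0 := congrArg Prod.snd (D.wd.kap_inj h')
      omega
    · have : u.2 = 90 * n + 90 * g := congrArg Prod.snd (D.wd.kap_inj h')
      omega

theorem FD.bad_iff (D : FD E ψ W z Φ ι w g) (n : ℕ) (a : V × ℤ) :
    qf ι n g a ∈ BadY ι n g ↔ a ∈ BadZ ι n g := by
  refine ⟨fun h => h a rfl, fun h a' h' hg => h ?_⟩
  have hgap := D.gap
  rcases D.q_eq n h' with rfl | ⟨u, h0, h1, ⟨rfl, rfl⟩ | ⟨rfl, rfl⟩⟩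
  · exact hg
  · rw [D.gd_kap] at hg ⊢
    simp only [rf, cc] at *
    omega
  · rw [D.gd_kap] at hg ⊢
    simp only [rf, cc] at *
    omega

theorem FD.kap_Bf (D : FD E ψ W z Φ ι w g) (n : ℕ) {L : List (P × ℤ)} (h : L ∈ NZ)
    (h' : ∀ u ∈ L, 0 ≤ u.2 ∧ u.2 ≤ cc n g) : L.map (kap ι) ∈ Bf E Φ ι w n g := by
  refine mem_Up.2 ⟨D.wd.nz_mem h, fun a ha => ?_⟩
  obtain ⟨u, hu, rfl⟩ := List.mem_map.1 ha
  have := h' u hu
  have e : (kap ι u).2 = u.2 / 6 := rfl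
  rw [mem_Iw, e]
  simp only [mm, cc] at *
  omega

theorem FD.Bf_sub (D : FD E ψ W z Φ ι w g) (n : ℕ) : Bf E Φ ι w n g ⊆ Zf W Φ w n g :=
  fun _ h => mem_Up.2 ⟨ups_mono D.wd.bd_sub (mem_Up.1 h).1, (mem_Up.1 h).2⟩

theorem az_lo {n g : ℕ} {L : List (P × ℤ)} (h : L ∈ AZ n g) :
    ∀ u ∈ L, 0 ≤ u.2 ∧ u.2 ≤ cc n g := by
  intro u hu
  have := h.2.2 u hu
  unfold cc
  omega

theorem az_hi {n g : ℕ} {L : List (P × ℤ)} (h : L ∈ AZ n g) : ∀ u ∈ L.map (rf (cc n g)),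
    90 * n + 90 * g ≤ u.2 ∧ u.2 ≤ cc n g := by
  intro u hu
  obtain ⟨v, hv, rfl⟩ := List.mem_map.1 hu
  have := h.2.2 v hv
  simp only [rf, cc]
  omega

theorem FD.hi_Bf (D : FD E ψ W z Φ ι w g) (n : ℕ) {L : List (P × ℤ)} (h : L ∈ AZ n g) :
    (L.map (rf (cc n g))).map (kap ι) ∈ Bf E Φ ι w n g :=
  D.kap_Bf n h.2.1 fun u hu => ⟨by have := az_hi h u hu; omega, (az_hi h u hu).2⟩

theorem FD.mem_lo (D : FD E ψ W z Φ ι w g) (n : ℕ) {l : List (V × ℤ)} :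
    l ∈ Alo W Φ ι w n g ↔ ∃ L ∈ AZ n g, l = L.map (kap ι) := by
  refine ⟨fun h => (mem_filter.1 h).2, fun h => mem_filter.2 ⟨?_, h⟩⟩
  obtain ⟨L, hL, rfl⟩ := h
  exact D.Bf_sub n (D.kap_Bf n hL.1 (az_lo hL))

theorem FD.mem_hi (D : FD E ψ W z Φ ι w g) (n : ℕ) {l : List (V × ℤ)} :
    l ∈ Ahi W Φ ι w n g ↔ ∃ L ∈ AZ n g, l = (L.map (rf (cc n g))).map (kap ι) := by
  refine ⟨fun h => (mem_filter.1 h).2, fun h => mem_filter.2 ⟨?_, h⟩⟩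
  obtain ⟨L, hL, rfl⟩ := h
  exact D.Bf_sub n (D.hi_Bf n hL)

theorem FD.A_sub (D : FD E ψ W z Φ ι w g) (n : ℕ) : Alo W Φ ι w n g ⊆ Bf E Φ ι w n g ∧
    Ahi W Φ ι w n g ⊆ Bf E Φ ι w n g ∧ ∀ l ∈ Alo W Φ ι w n g, l.length ≤ 4 := by
  refine ⟨fun l hl => ?_, fun l hl => ?_, fun l hl => ?_⟩
  · obtain ⟨L, hL, rfl⟩ := (D.mem_lo n).1 hl
    exact D.kap_Bf n hL.1 (az_lo hL)
  · obtain ⟨L, hL, rfl⟩ := (D.mem_hi n).1 hl
    exact D.hi_Bf n hL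
  · obtain ⟨L, hL, rfl⟩ := (D.mem_lo n).1 hl
    simpa using (hm_Tot.2.2.2.1 _ (chZ_tot hL.1.1)).1

/-- The folding map on the two halves. -/
theorem FD.q_lo_map (D : FD E ψ W z Φ ι w g) (n : ℕ) {L : List (P × ℤ)}
    (h : ∀ u ∈ L, u.2 ≤ 90 * n) : (L.map (kap ι)).map (qf ι n g) = L.map (kap ι) := by
  have hg := D.gap
  rw [List.map_map]
  refine List.map_congr_left fun u hu => q_lo ι n g ?_
  have := h u hu
  have e : (kap ι u).2 = u.2 / 6 := rfl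
  omega

theorem FD.q_hi_map (D : FD E ψ W z Φ ι w g) (n : ℕ) {L : List (P × ℤ)}
    (h : ∀ u ∈ L, 90 * n + 90 * g ≤ u.2 ∧ u.2 ≤ cc n g) :
    (L.map (kap ι)).map (qf ι n g) = (L.map (rf (cc n g))).map (kap ι) := by
  rw [List.map_map, List.map_map]
  exact List.map_congr_left fun u hu => D.q_hi n (h u hu).1 (h u hu).2

theorem rf_map (c : ℤ) (L : List (P × ℤ)) : (L.map (rf c)).map (rf c) = L := by
  rw [List.map_map]
  exact (List.map_congr_left fun u _ => rf_rf c u).trans (List.map_id _)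

theorem cc_even (n g : ℕ) : cc n g % 2 = 0 := by
  unfold cc
  omega

end Pool.Agent.HT
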