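import Pool.Agent.Lib.MP_dae8ad_gt.H.Glue0

/-! The glued complex is a homology manifold. -/

open Finset Classical

noncomputable section

namespace Pool.Agent.HT

variable {V V' : Type}

variable {Y A A' : Finset (List V)} {q : V → V'}

theorem Glue_injV (G : Gl Y A A' q) : InjV A q := fun _ _ ha hb h =>
  List.singleton_injective (gl_inj G (G.sA ha) (G.sA hb) (disjoint_left.1 G.disj ha)
    (disjoint_left.1 G.disj hb) (congrArg (fun v => [v]) h))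

theorem Glue_img (G : Gl Y A A' q) (L : List V') :
    L ∈ A'.image (List.map q) ↔ L ∈ A.image (List.map q) := by
  simp only [mem_image]
  constructor
  · rintro ⟨l', h, rfl⟩
    exact G.ex2 l' h
  · rintro ⟨l, h, rfl⟩
    exact (G.ex1 l h).imp fun _ e => ⟨e.1, e.2.symm⟩

theorem Glue_rep (G : Gl Y A A' q) {L : List V'} (h : L ∈ Y.image (List.map q)) :
    ∃ σ ∈ Y, σ ∉ A' ∧ σ.map q = L := by
  obtain ⟨l, hl, rfl⟩ := mem_image.1 h
  by_cases h' : l ∈ A'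
  · obtain ⟨m, hm, e⟩ := G.ex2 l h'
    exact ⟨m, G.sA hm, disjoint_left.1 G.disj hm, e⟩
  · exact ⟨l, hl, h', rfl⟩

theorem Glue_out (G : Gl Y A A' q) {K : Type} [Field K] {φ : V → V → ℤ} {φ' : V' → V' → ℤ}
    (h : ∀ u v, [u, v] ∈ Y → φ' (q u) (q v) = φ u v) (s : Kˣ) :
    betti (Y.image (List.map q) \ A.image (List.map q)) φ' s = betti ((Y \ A) \ A') φ s := by
  have m1 : ∀ l, l ∈ (Y \ A) \ A' ↔ l ∈ Y ∧ l ∉ A ∧ l ∉ A' := fun l => by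
    rw [mem_sdiff, mem_sdiff, and_assoc]
  refine betti_tr (List.map q) ⟨fun l hl => ?_, fun l hl m hm e => ?_, fun L hL => ?_⟩
    (fun l hl m hm => inc_map q fun i hi e => ?_) (fun l hl m hm hi => ?_) s
  · obtain ⟨h1, h2, h3⟩ := (m1 l).1 hl
    refine mem_sdiff.2 ⟨mem_image_of_mem _ h1, fun h4 => ?_⟩
    obtain ⟨m, hm, e⟩ := mem_image.1 h4
    exact h2 (gl_inj G (G.sA hm) h1 (disjoint_left.1 G.disj hm) h3 e ▸ hm)
  · exact gl_inj G ((m1 l).1 hl).1 ((m1 m).1 hm).1 ((m1 l).1 hl).2.2 ((m1 m).1 hm).2.2 e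
  · obtain ⟨h1, h2⟩ := mem_sdiff.1 hL
    obtain ⟨l, h3, h4, rfl⟩ := Glue_rep G h1
    exact ⟨l, (m1 l).2 ⟨h3, fun h5 => h2 (mem_image_of_mem _ h5), h4⟩, rfl⟩
  · obtain ⟨h1, h2, h3⟩ := (m1 m).1 hm
    have h4 : l.eraseIdx i ∈ Y := (G.cx l ((m1 l).1 hl).1).2.2.1 _ (fun e' => (G.cx m h1).1
      (List.map_eq_nil_iff.1 (e.symm.trans (by rw [e', List.map_nil])))) (List.eraseIdx_sublist l i)
    rcases G.uq _ h4 m h1 (e ▸ List.Perm.refl _) with h5 | ⟨-, h5 | h5⟩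
    exacts [h5, absurd h5.2 h3, absurd h5.2 h2]
  · have hs := (inc_sublist hi).1
    have hY := ((m1 l).1 hl).1
    rcases l with _ | ⟨u, l⟩
    · rfl
    rcases m with _ | ⟨v, m⟩
    · rfl
    simp only [List.map_cons, ex]
    by_cases e : u = v
    · rw [if_pos e, if_pos (congrArg q e)]
    · have hv : v ∈ l := (List.mem_cons.1 (hs.subset List.mem_cons_self)).resolve_left (Ne.symm e)
      rw [if_neg e, if_neg fun e' : q u = q v => (List.nodup_cons.1 (G.nd _ hY)).1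
        (e' ▸ List.mem_map_of_mem hv)]
      exact h u v ((G.cx _ hY).2.2.1 _ (List.cons_ne_nil _ _)
        ((List.singleton_sublist.2 hv).cons_cons u))

/-- Sketch: with `Y' = Y.image _`, `A'' = A.image _`: `betti_ses` for `A'' ⊆ Y'` and for
`A ∪ A' ⊆ Y`; `betti_tr` for the bijections `A → A''`, `A' → A''`, `Y \ (A ∪ A') → Y' \ A''`. -/
theorem gl_betti {K : Type} [Field K] (G : Gl Y A A' q) {φ : V → V → ℤ} {φ' : V' → V' → ℤ}
    (hφ : Coc Y φ) (hφ' : Coc (Y.image (List.map q)) φ')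
    (h : ∀ u v, [u, v] ∈ Y → φ' (q u) (q v) = φ u v) (s : Kˣ) :
    betti (Y.image (List.map q)) φ' s ≤ betti Y φ s + 3 * betti A φ s := by
  have a1 := betti_map G.cA (Glue_injV G) Subset.rfl (fun u v e => h u v (G.sA e)) s
  have a2 := betti_map G.cA' (Glue_injV G.symm) Subset.rfl (fun u v e => h u v (G.sA' e)) s
  rw [betti_ext (Glue_img G), a1] at a2
  have s1 := sq_of_cvx G.cx hφ cvx_self s
  have c1 := cl_sub G.cA G.sA fun l hl => (G.cx l hl).1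
  have b1 := (betti_ses (sq_of_cvx (gl_cx G) hφ' cvx_self s) (cl_sub (cx_map G.cA (Glue_injV G))
    (image_subset_image G.sA) fun l hl => (gl_cx G l hl).1)).1
  have b2 := (betti_ses s1 c1).2.2
  have b3 := (betti_ses (sq_cl s1 c1).2 (cl_sub G.cA' (fun l hl => mem_sdiff.2
    ⟨G.sA' hl, disjoint_right.1 G.disj hl⟩) fun l hl => (G.cx l (mem_sdiff.1 hl).1).1)).2.2
  rw [Glue_out G h, a1] at b1
  omega

theorem Glue_gz (G : Gl Y A A' q) {z : List V → ℤ} (h0 : ∀ l ∈ A', z l = 0) {l : List V}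
    (hl : l ∈ Y) (h : l ∉ A') : gz Y q z (l.map q) = z l := by
  by_cases h1 : l ∈ A
  · obtain ⟨l', h2, e⟩ := G.ex1 l h1
    rw [gz_in G z h1 h2 e, h0 l' h2, add_zero]
  · exact gz_out G z hl h1 h

theorem Glue_up {σ l : List V} (hY : Cx Y) (hA : Cx A) (hσ : σ ∈ Y) (h : σ ∉ A)
    (hl : l ∈ St Y σ) : l ∉ A := fun e => h ((hA l e).2.2.1 σ (hY σ hσ).1 (mem_St.1 hl).2)

theorem Glue_bij (G : Gl Y A A' q) {σ : List V} (hσ : σ ∈ Y) (h : σ ∉ A') {S : Finset (List V)}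
    (hS : S ⊆ St Y σ) : Set.BijOn (List.map q) S (S.image (List.map q)) :=
  by rw [coe_image]; exact ((gl_st G hσ h).1.mono hS).bijOn_image

theorem Glue_loc (G : Gl Y A A' q) {σ : List V} (hσ : σ ∈ Y) (h : σ ∉ A') {S : Finset (List V)}
    (hS : S ⊆ St Y σ) {z : List V → ℤ} {z' : List V' → ℤ} (hz : ∀ l ∈ S, z' (l.map q) = z l)
    (h1 : Loc S z) : Loc (S.image (List.map q)) z' :=
  (loc_tr' _ (Glue_bij G hσ h hS)
    (fun l hl m hm => (gl_st G hσ h).2 l (hS hl) m (hS hm)) hz).1 h1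

/-- Sketch: first `Cy` by `bz_gz`, `gz_out`, `gz_in`. Let `σ ∈ Y` have a good image. If
`σ ∉ A ∪ A'` use `gl_st`, `gl_st_out`, `loc_tr'`. Otherwise the image is that of `σ ∈ A` and of
`σ' ∈ A'`; use `gl_st_in` with `mv_acy` if the image is in `B'` and with `mv_gen` if not (the
cycle condition is `Cy`; `gz Y q z` vanishes on the image of `A` because `A` has no top simplex;
`St A σ = St B σ`). -/
theorem glue_hm (G : Gl Y A A' q) {n : ℕ} {B : Finset (List V)} {Bad : Set V} {z : List V → ℤ}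
    (h : HM n Y B Bad z) (hy : Cy Y B Bad z) (hA : A ⊆ B) (hA' : A' ⊆ B)
    (hl : ∀ l ∈ A, l.length ≤ n) {B' : Finset (List V')} {Bad' : Set V'} (cB : Cx B')
    (sB : B' ⊆ Y.image (List.map q)) (hb : ∀ v, [v] ∈ Y → (q v ∈ Bad' ↔ v ∈ Bad))
    (out : ∀ σ ∈ Y, (∃ v ∈ σ, v ∉ Bad) → σ ∉ A → σ ∉ A' → (σ.map q ∈ B' ↔ σ ∈ B))
    (opp : ∀ l ∈ A, ∀ l' ∈ A', l.map q = l'.map q → (∃ v ∈ l, v ∉ Bad) →
      bz Y z l + bz Y z l' = 0)
    (a1 : ∀ σ ∈ A, (∀ v ∈ σ, v ∉ Bad) → σ.map q ∈ B' → Loc (St A σ) 0)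
    (a2 : ∀ σ ∈ A, (∀ v ∈ σ, v ∉ Bad) → σ.map q ∉ B' → St B σ ⊆ A)
    (lb : ∀ σ ∈ B', (∀ v ∈ σ, v ∉ Bad') →
      Loc (St B' σ) (bz (Y.image (List.map q)) (gz Y q z))) :
    HM n (Y.image (List.map q)) B' Bad' (gz Y q z) ∧
      Cy (Y.image (List.map q)) B' Bad' (gz Y q z) := by
  obtain ⟨-, -, sBY, hz, hs⟩ := h
  have z0 : ∀ l ∈ Y, l.length ≤ n → z l = 0 := fun l h1 h2 => abs_eq_zero.1 (by
    rw [(hz l h1).2, if_neg (by omega)])
  have z1 : ∀ l ∈ A', z l = 0 := fun l h1 => by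
    obtain ⟨m, hm, e⟩ := G.ex2 l h1
    have e1 := congrArg List.length e
    rw [List.length_map, List.length_map] at e1
    exact z0 l (G.sA' h1) (e1 ▸ hl m hm)
  have good : ∀ σ ∈ Y, ∀ v ∈ σ, q v ∉ Bad' → v ∉ Bad := fun σ h1 v hv h2 h3 =>
    h2 ((hb v (vert_mem G.cx h1 hv)).2 h3)
  have cy : Cy (Y.image (List.map q)) B' Bad' (gz Y q z) := by
    rintro L hL ⟨v', hv, h1⟩ h2
    obtain ⟨m, h3, h4, rfl⟩ := Glue_rep G hL
    obtain ⟨v, h5, rfl⟩ := List.mem_map.1 hv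
    have h6 : ∃ v ∈ m, v ∉ Bad := ⟨v, h5, good m h3 v h5 h1⟩
    rw [bz_gz G]
    by_cases h7 : m ∈ A
    · obtain ⟨l', h8, e⟩ := G.ex1 m h7
      rw [gz_in G _ h7 h8 e]
      exact opp m h7 l' h8 e h6
    · rw [gz_out G _ h3 h7 h4]
      exact hy m h3 h6 fun e => h2 ((out m h3 h6 h7 h4).2 e)
  refine ⟨⟨gl_cx G, cB, sB, fun L hL => ?_, fun L hL hg => ?_⟩, cy⟩ <;>
    obtain ⟨σ, h1, h2, rfl⟩ := Glue_rep G hL
  · rw [Glue_gz G z1 h1 h2, List.length_map]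
    exact hz σ h1
  have g1 : ∀ v ∈ σ, v ∉ Bad := fun v hv => good σ h1 v hv (hg _ (List.mem_map_of_mem hv))
  obtain ⟨⟨l, l1, l2⟩, h3⟩ := hs σ h1 g1
  refine ⟨⟨l.map q, mem_St.2 ⟨mem_image_of_mem _ (mem_St.1 l1).1, (mem_St.1 l1).2.map q⟩,
    (List.length_map q).trans l2⟩, ?_⟩
  have e1 : ∀ l ∈ St Y σ, gz Y q z (l.map q) = z l := fun l hl =>
    Glue_gz G z1 (mem_St.1 hl).1 (Glue_up G.cx G.cA' h1 h2 hl)
  by_cases h4 : σ ∈ A
  · obtain ⟨σ', h5, e⟩ := G.ex1 σ h4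
    obtain ⟨u1, u2, u3⟩ := gl_st_in G h4 h5 e
    have u4 := (gl_st_in G.symm h5 h4 e.symm).2.2
    rw [← e] at u4
    have h6 := (hs σ' (G.sA' h5) fun v hv => good σ' (G.sA' h5) v hv
      (hg _ (e ▸ List.mem_map_of_mem hv))).2
    rw [if_pos (hA h4)] at h3
    rw [if_pos (hA' h5)] at h6
    have k0 := sz_of_cvx (gl_cx G) (cvx_St (σ.map q))
    have k1 := Glue_loc G h1 h2 Subset.rfl (z' := 0) (fun _ _ => rfl) h3.1
    have k2 := Glue_loc G.symm (G.sA' h5) (disjoint_right.1 G.disj h5) Subset.rfl (z' := 0)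
      (fun _ _ => rfl) h6.1
    have k3 : St A σ ⊆ St Y σ := fun l hl => mem_St.2 ⟨G.sA (mem_St.1 hl).1, (mem_St.1 hl).2⟩
    split_ifs with h7
    · exact ⟨mv_acy k0 u1 u3 u4 k1 k2
        (u2 ▸ Glue_loc G h1 h2 k3 (fun _ _ => rfl) (a1 σ h4 g1 h7)), lb _ h7 hg⟩
    · refine mv_gen k0 u1 u3 u4 k1 k2 (Tr0_zero fun m hm => ?_) (fun L hL => ?_) ?_
      · obtain ⟨v, hv⟩ := List.exists_mem_of_ne_nil _ (gl_cx G _ hL).1
        rw [bz_St _ _ _ hm]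
        exact cy m (mem_St.1 hm).1 ⟨v, (mem_St.1 hm).2.subset hv, hg v hv⟩ fun e =>
          h7 ((cB m e).2.2.1 _ (gl_cx G _ hL).1 (mem_St.1 hm).2)
      · obtain ⟨m, hm, rfl⟩ := mem_image.1 (u2 ▸ hL)
        rw [e1 m (k3 hm)]
        exact z0 m (G.sA (mem_St.1 hm).1) (hl m (mem_St.1 hm).1)
      · rw [u2]
        refine Glue_loc G h1 h2 k3 (fun m hm => ?_) (loc_ext (fun m => ⟨fun hm => mem_St.2
          ⟨a2 σ h4 g1 h7 hm, (mem_St.1 hm).2⟩, fun hm => mem_St.2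
            ⟨hA (mem_St.1 hm).1, (mem_St.1 hm).2⟩⟩) h3.2)
        rw [bz_tr _ (Glue_bij G h1 h2 Subset.rfl) (gl_st G h1 h2).2 e1 (k3 hm), bz_St _ _ _ (k3 hm)]
  · obtain ⟨v, hv⟩ := List.exists_mem_of_ne_nil _ (G.cx σ h1).1
    have h5 := out σ h1 ⟨v, hv, g1 v hv⟩ h4 h2
    have h6 := gl_st_out G h1 h4 h2
    split_ifs with h7
    · rw [if_pos (h5.1 h7)] at h3
      exact ⟨h6 ▸ Glue_loc G h1 h2 Subset.rfl (fun _ _ => rfl) h3.1, lb _ h7 hg⟩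
    · rw [if_neg fun e => h7 (h5.2 e)] at h3
      exact h6 ▸ Glue_loc G h1 h2 Subset.rfl e1 h3

end Pool.Agent.HT
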