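import Pool.Agent.Lib.MP_dae8ad_gt.H.Sep

/-! Operations on pieces. -/

open Finset Classical

noncomputable section

namespace Pool.Agent.HT

variable {V V' : Type}

variable {A : Type} {M : Finset (List A)} {ψ : A → A → ℤ} {zM : List A → ℤ}

theorem pc_mono {I : Type} [Fintype I] {sg wt : I → ℤ} {c D c' D' : ℕ}
    (h : Pc M ψ zM I sg wt c D) (hc : c ≤ c') (hD : D ≤ D') : Pc M ψ zM I sg wt c' D' := by
  obtain ⟨W, Y, z, Φ, ι, Bad, h1, h2, h3, h4, h5, h6, h7, h8, h9, h10, h11⟩ := h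
  exact ⟨W, Y, z, Φ, ι, Bad, h1, h2, h3, h4, h5, h6, h7, h8, h9.trans hc,
    fun F K _ _ _ s hs => (h10 F K s hs).trans hc, fun i => (h11 i).trans hD⟩

theorem pc_neg {I : Type} [Fintype I] {sg wt : I → ℤ} {c D : ℕ} (h : Pc M ψ zM I sg wt c D) :
    Pc M ψ zM I (fun i => -sg i) wt c D := by
  obtain ⟨W, Y, z, Φ, ι, Bad, ⟨a1, a2, a3, a4, a5⟩, h2, h3, h4, h5, h6, h7, h8, h9, h10, h11⟩ := h
  refine ⟨W, Y, -z, Φ, ι, Bad, ⟨a1, a2, a3, fun l hl => ?_, fun σ hσ hb => ⟨(a5 σ hσ hb).1, ?_⟩⟩,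
    fun m hm hv hB => ?_, h3, h4, h5, h6, h7, fun i m hm => ?_, h9, h10, h11⟩
  · rw [Pi.neg_apply, abs_neg]
    exact a4 l hl
  · have h := (a5 σ hσ hb).2
    split_ifs at h ⊢ with hs
    · exact ⟨h.1, loc_congr (-1) (Or.inr rfl) (fun l _ => by simp) h.2⟩
    · exact loc_congr (-1) (Or.inr rfl) (fun l _ => by simp) h
  · rw [map_neg, Pi.neg_apply, h2 m hm hv hB, neg_zero]
  · rw [map_neg, Pi.neg_apply, h8 i m hm, neg_mul]

theorem PcOps_mem {I : Type} [Fintype I] {ι : I → A → V} {l : List V} :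
    l ∈ (univ.biUnion fun i => M.image (List.map (ι i))) ↔ ∃ i, ∃ m ∈ M, m.map (ι i) = l := by
  simp

/-- A part of the boundary may be dropped if its vertices become singular. -/
theorem PcOps_hm {n : ℕ} {X B B' : Finset (List V)} {Bad Bad' : Set V} {z : List V → ℤ}
    (h : HM n X B Bad z) (hy : Cy X B Bad z) (hb : Bad ⊆ Bad') (hs : B' ⊆ B)
    (hf : ∀ l ∈ B', ∀ m, m ≠ [] → m.Sublist l → m ∈ B')
    (key : ∀ l ∈ B, (∃ v ∈ l, v ∉ Bad') → l ∈ B') : HM n X B' Bad' z ∧ Cy X B' Bad' z := by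
  obtain ⟨a1, a2, a3, a4, a5⟩ := h
  refine ⟨⟨a1, fun l hl => ?_, hs.trans a3, a4, fun σ hσ hv => ?_⟩, fun m hm hv hB => ?_⟩
  · obtain ⟨b1, b2, -, b4⟩ := a2 l (hs hl)
    exact ⟨b1, b2, hf l hl, fun m hm => b4 m (hs hm)⟩
  · obtain ⟨b1, b2⟩ := a5 σ hσ fun v hv' hb' => hv v hv' (hb hb')
    obtain ⟨v, hv'⟩ := List.exists_mem_of_ne_nil σ (a1 σ hσ).1
    refine ⟨b1, ?_⟩
    by_cases hσ' : σ ∈ B'
    · rw [if_pos (hs hσ')] at b2
      rw [if_pos hσ']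
      refine ⟨b2.1, loc_ext (fun l => ?_) b2.2⟩
      rw [mem_St, mem_St]
      exact ⟨fun a => ⟨key l a.1 ⟨v, a.2.subset hv', hv v hv'⟩, a.2⟩, fun a => ⟨hs a.1, a.2⟩⟩
    · rw [if_neg fun a => hσ' (key σ a ⟨v, hv', hv v hv'⟩)] at b2
      rwa [if_neg hσ']
  · exact hy m hm (hv.imp fun v a => ⟨a.1, fun b => a.2 (hb b)⟩) fun a => hB (key m a hv)

/-- Dropped components join the singular set: `Bad' = Bad ∪ {ι i a | i ∉ range e, [a] ∈ M}`. -/
theorem pc_drop (hM : Cx M) {I I' : Type} [Fintype I] [Fintype I'] {sg wt : I → ℤ} {c D : ℕ}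
    (h : Pc M ψ zM I sg wt c D) (e : I' → I) (he : Function.Injective e) :
    Pc M ψ zM I' (fun i => sg (e i)) (fun i => wt (e i))
      (c + D * (Fintype.card I - Fintype.card I')) D := by
  obtain ⟨W, Y, z, Φ, ι, Bad, h1, h2, h3, h4, h5, h6, h7, h8, h9, h10, h11⟩ := h
  have hh := PcOps_hm (B' := univ.biUnion fun i => M.image (List.map (ι (e i))))
    (Bad' := Bad ∪ {v | ∃ i, i ∉ Set.range e ∧ ∃ a, [a] ∈ M ∧ ι i a = v}) h1 h2
    Set.subset_union_left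
    (fun l hl => by
      obtain ⟨i, m, hm, rfl⟩ := PcOps_mem.1 hl
      exact PcOps_mem.2 ⟨e i, m, hm, rfl⟩)
    (fun l hl k hk hs => by
      obtain ⟨i, m, hm, rfl⟩ := PcOps_mem.1 hl
      obtain ⟨m', hm', rfl⟩ := List.sublist_map_iff.1 hs
      exact PcOps_mem.2 ⟨i, m', (hM m hm).2.2.1 m' (fun e => hk (by rw [e, List.map_nil])) hm', rfl⟩)
    (fun l hl ⟨v, hv, hv'⟩ => by
      obtain ⟨i, m, hm, rfl⟩ := PcOps_mem.1 hl
      obtain ⟨a, ha, rfl⟩ := List.mem_map.1 hv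
      by_cases hi : i ∈ Set.range e
      · obtain ⟨i', rfl⟩ := hi
        exact PcOps_mem.2 ⟨i', m, hm, rfl⟩
      · exact (hv' (Or.inr ⟨i, hi, a, vert_mem hM hm ha, rfl⟩)).elim)
  refine ⟨W, Y, z, Φ, fun i => ι (e i), _, hh.1, hh.2, h3, fun i j a b ha hb h => ?_,
    fun i a ha h => ?_, fun l hl hv => ?_, fun i => h7 (e i), fun i => h8 (e i), ?_,
    fun F K _ _ _ s hs => (h10 F K s hs).trans (Nat.le_add_right _ _), fun i => h11 (e i)⟩
  · exact ⟨he (h4 _ _ a b ha hb h).1, (h4 _ _ a b ha hb h).2⟩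
  · rcases h with h | ⟨j, hj, b, hb, h⟩
    · exact h5 _ a ha h
    · exact hj ⟨i, (h4 _ _ b a hb ha h).1.symm⟩
  · obtain ⟨i, m, hm, rfl⟩ := h6 l hl fun v h => (hv v h).elim fun i a => ⟨e i, a⟩
    obtain ⟨a, ha⟩ := List.exists_mem_of_ne_nil m (hM m hm).1
    obtain ⟨i', b, hb, h⟩ := hv _ (List.mem_map_of_mem ha)
    obtain rfl := (h4 _ _ b a hb (vert_mem hM hm ha) h).1
    exact ⟨i', m, hm, rfl⟩
  · refine (card_le_card (t := (Y.filter fun l => ∃ v ∈ l, v ∈ Bad) ∪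
      (univ \ univ.image e).biUnion fun i =>
        Y.filter fun l => ∃ v ∈ l, ∃ a, [a] ∈ M ∧ ι i a = v) fun l hl => ?_).trans
      ((card_union_le _ _).trans (add_le_add h9 ?_))
    · obtain ⟨hl, v, hv, h | ⟨i, hi, h⟩⟩ := (@mem_filter _ _ (_) _ _).1 hl
      · exact mem_union_left _ (mem_filter.2 ⟨hl, v, hv, h⟩)
      · exact mem_union_right _ (mem_biUnion.2 ⟨i, by simpa using hi, mem_filter.2 ⟨hl, v, hv, h⟩⟩)
    · refine (card_biUnion_le_card_mul _ _ D fun i _ => h11 i).trans_eq ?_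
      rw [card_univ_sdiff, card_image_of_injective _ he, card_univ, mul_comm]

/-- The disjoint union of the vertex sets. -/
theorem PcOps_sig {J : Type} (V : J → Type) (z : ∀ j, List (V j) → ℤ) (Φ : ∀ j, V j → V j → ℤ)
    (Bad : ∀ j, Set (V j)) :
    ∃ (W : Type) (f : ∀ j, V j → W) (z' : List W → ℤ) (Φ' : W → W → ℤ) (Bad' : Set W),
      (∀ j j' a b, f j a = f j' b → j = j') ∧ (∀ j, Function.Injective (f j)) ∧
      (∀ j l, l ≠ [] → z' (l.map (f j)) = z j l) ∧ (∀ j a b, Φ' (f j a) (f j b) = Φ j a b) ∧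
      ∀ j a, f j a ∈ Bad' ↔ a ∈ Bad j := by
  let ρ : ∀ u : Σ j, V j, (Σ j, V j) → V u.1 := fun u w => if h : w.1 = u.1 then h ▸ w.2 else u.2
  have hρ : ∀ j a b, ρ ⟨j, a⟩ ⟨j, b⟩ = b := fun j a b => dif_pos rfl
  refine ⟨Σ j, V j, Sigma.mk, fun L => L.casesOn 0 fun u r => z u.1 (u.2 :: r.map (ρ u)),
    fun u w => Φ u.1 u.2 (ρ u w), {w | w.2 ∈ Bad w.1}, fun j j' a b h => congrArg Sigma.fst h,
    fun j => sigma_mk_injective, fun j l hl => ?_, fun j a b => congrArg (Φ j a) (hρ j a b),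
    fun j a => Iff.rfl⟩
  obtain ⟨a, l, rfl⟩ := List.exists_cons_of_ne_nil hl
  have e : (l.map (Sigma.mk j)).map (ρ ⟨j, a⟩) = l := by
    rw [List.map_map]
    exact (List.map_congr_left fun b _ => hρ j a b).trans (List.map_id l)
  exact congrArg (fun r => z j (a :: r)) e

/-- Disjoint union over `J`: vertices `Σ j, V j`, `hm_mapB` for `Sigma.mk j`, then `hm_sep`. -/
theorem pc_sum (hM : Cx M) {I J : Type} [Fintype I] [Fintype J] {sg wt : J → I → ℤ} {c D : ℕ}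
    (h : ∀ j, Pc M ψ zM I (sg j) (wt j) c D) :
    Pc M ψ zM (J × I) (fun p => sg p.1 p.2) (fun p => wt p.1 p.2) (Fintype.card J * c) D := by
  choose U Y z Φ ι Bad h1 h2 h3 h4 h5 h6 h7 h8 h9 h10 h11 using h
  obtain ⟨W, f, z', Φ', Bad', f1, f2, f3, f4, f5⟩ := PcOps_sig U z Φ Bad
  have cY : ∀ j, Cx (Y j) := fun j => (h1 j).1
  have iY : ∀ j, InjV (Y j) (f j) := fun j a b _ _ h => f2 j h
  have zY : ∀ j, ∀ l ∈ Y j, z' (l.map (f j)) = z j l := fun j l hl => f3 j l (cY j l hl).1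
  have mY : ∀ {L}, L ∈ (univ.biUnion fun j => (Y j).image (List.map (f j))) ↔
      ∃ j, ∃ l ∈ Y j, l.map (f j) = L := by simp
  have hS : Sep univ fun j => (Y j).image (List.map (f j)) := by
    refine ⟨fun j _ => cx_map (cY j) (iY j), fun i _ j _ v hi hj => ?_⟩
    obtain ⟨l, -, e⟩ := mem_image.1 hi
    obtain ⟨m, -, e'⟩ := mem_image.1 hj
    obtain ⟨a, -, ha⟩ := List.mem_map.1 (e.symm ▸ List.mem_singleton_self v)
    obtain ⟨b, -, hb⟩ := List.mem_map.1 (e'.symm ▸ List.mem_singleton_self v)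
    exact f1 i j a b (ha.trans hb.symm)
  have hH := hm_sep hS (Bad := Bad') fun j _ =>
    hm_mapB (h1 j) (h2 j) (iY j) (fun v _ hv hb => hv ((f5 j v).2 hb)) (zY j)
  have eB : (univ.biUnion fun j => (univ.biUnion fun i => M.image (List.map (ι j i))).image
      (List.map (f j))) =
      univ.biUnion fun p : J × I => M.image (List.map fun a => f p.1 (ι p.1 p.2 a)) := by
    ext L
    rw [PcOps_mem, mem_biUnion]
    constructor
    · rintro ⟨j, -, hj⟩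
      obtain ⟨l, hl, rfl⟩ := mem_image.1 hj
      obtain ⟨i, m, hm, rfl⟩ := PcOps_mem.1 hl
      exact ⟨(j, i), m, hm, by rw [List.map_map]; rfl⟩
    · rintro ⟨⟨j, i⟩, m, hm, rfl⟩
      exact ⟨j, mem_univ _, mem_image.2 ⟨_, PcOps_mem.2 ⟨i, m, hm, rfl⟩, by rw [List.map_map]; rfl⟩⟩
  rw [eB] at hH
  have hC : Coc (univ.biUnion fun j => (Y j).image (List.map (f j))) Φ' := by
    intro u v w h
    obtain ⟨j, l, hl, e⟩ := mY.1 h
    obtain ⟨a, l, rfl, rfl, e1⟩ := List.map_eq_cons_iff.1 e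
    obtain ⟨b, l, rfl, rfl, e2⟩ := List.map_eq_cons_iff.1 e1
    obtain ⟨c, l, rfl, rfl, e3⟩ := List.map_eq_cons_iff.1 e2
    obtain rfl := List.map_eq_nil_iff.1 e3
    rw [f4, f4, f4]
    exact h3 j a b c hl
  refine ⟨W, _, z', Φ', fun p a => f p.1 (ι p.1 p.2 a), Bad', hH.1, hH.2, hC, ?_,
    fun p a ha h => h5 p.1 p.2 a ha ((f5 _ _).1 h), fun L hL hv => ?_,
    fun p a b h => (f4 _ _ _).trans (h7 p.1 p.2 a b h), fun p m hm => ?_, ?_,
    fun F K _ _ _ s hs => ?_, fun p => ?_⟩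
  · rintro ⟨j, i⟩ ⟨j', i'⟩ a b ha hb h
    obtain rfl : j = j' := f1 _ _ _ _ h
    obtain ⟨rfl, rfl⟩ := h4 j i i' a b ha hb (f2 j h)
    exact ⟨rfl, rfl⟩
  · obtain ⟨j, l, hl, rfl⟩ := mY.1 hL
    obtain ⟨i, m, hm, rfl⟩ := h6 j l hl fun v h => by
      obtain ⟨⟨j', i⟩, a, ha, e⟩ := hv _ (List.mem_map_of_mem h)
      obtain rfl : j' = j := f1 _ _ _ _ e
      exact ⟨i, a, ha, f2 _ e⟩
    exact ⟨(j, i), m, hm, by rw [List.map_map]; rfl⟩
  · have hl : m.map (ι p.1 p.2) ∈ Y p.1 := (h1 p.1).2.2.1 (PcOps_mem.2 ⟨p.2, m, hm, rfl⟩)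
    have e : (m.map fun a => f p.1 (ι p.1 p.2 a)) = (m.map (ι p.1 p.2)).map (f p.1) := by
      rw [List.map_map]; rfl
    rw [e, bz_sep hS (mem_univ p.1) (mem_image_of_mem _ hl), bz_map (cY _) (iY _) (zY _) hl]
    exact h8 p.1 p.2 m hm
  · refine (card_le_card (t := univ.biUnion fun j =>
      ((Y j).filter fun l => ∃ v ∈ l, v ∈ Bad j).image (List.map (f j))) fun L hL => ?_).trans
      (card_biUnion_le_card_mul _ _ c fun j _ => card_image_le.trans (h9 j))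
    obtain ⟨hL, v, hv, hb⟩ := mem_filter.1 hL
    obtain ⟨j, l, hl, rfl⟩ := mY.1 hL
    obtain ⟨u, hu, rfl⟩ := List.mem_map.1 hv
    exact mem_biUnion.2 ⟨j, mem_univ _,
      mem_image_of_mem _ (mem_filter.2 ⟨hl, u, hu, (f5 j u).1 hb⟩)⟩
  · refine (betti_sep hS hC s).trans (sum_le_card_nsmul _ _ c fun j _ => ?_)
    rw [betti_map (cY j) (iY j) Subset.rfl (fun u v _ => f4 j u v) s]
    exact h10 j F K s hs
  · refine (card_le_card (t := ((Y p.1).filter fun l =>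
      ∃ v ∈ l, ∃ a, [a] ∈ M ∧ ι p.1 p.2 a = v).image (List.map (f p.1))) fun L hL => ?_).trans
      (card_image_le.trans (h11 p.1 p.2))
    obtain ⟨hL, v, hv, a, ha, e⟩ := mem_filter.1 hL
    obtain ⟨j, l, hl, rfl⟩ := mY.1 hL
    obtain ⟨u, hu, rfl⟩ := List.mem_map.1 hv
    obtain rfl : p.1 = j := f1 _ _ _ _ e
    exact mem_image_of_mem _ (mem_filter.2 ⟨hl, u, hu, a, ha, f2 _ e⟩)

end Pool.Agent.HT
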