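import Pool.Agent.Lib.MP_dae8ad_gt.H.Cov
import Pool.Agent.Lib.MP_dae8ad_gt.H.Rank
import Pool.Agent.Lib.MP_dae8ad_gt.H.Ses

/-! Truncations of an infinite cyclic cover, finite cyclic covers. -/

open Finset Classical

noncomputable section

namespace Pool.Agent.HT

variable {V V' : Type}

theorem Trunc_hd {X : Finset (List V)} {φ : V → V → ℤ} (hX : Cx X) {L M : List (V × ℤ)}
    (h : L ∈ UpS X φ) (hM : M ≠ []) (hs : M.Sublist L) :
    Ses_hd Prod.snd M = ex φ (L.map Prod.fst) (M.map Prod.fst) + Ses_hd Prod.snd L := by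
  cases M with
  | nil => exact absurd rfl hM
  | cons b M' =>
    cases L with
    | nil => simp at hs
    | cons a L' =>
      have hn := (hX _ h.1).2.1
      rw [List.map_cons, List.nodup_cons] at hn
      simp only [List.map_cons, ex, Ses_hd]
      rcases List.mem_cons.mp (hs.subset List.mem_cons_self) with e | e
      · rw [e, if_pos rfl, zero_add]
      · rw [if_neg fun e' : a.1 = b.1 => hn.1 (e' ▸ List.mem_map_of_mem e),
          (List.pairwise_cons.mp h.2).1 b e, add_comm]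

theorem Trunc_lf {X : Finset (List V)} {φ : V → V → ℤ} {L : List (V × ℤ)} (h : L ∈ UpS X φ) :
    L = lf φ (L.map Prod.fst) (Ses_hd Prod.snd L) := by
  cases L with
  | nil => rfl
  | cons a M => exact eq_lf h

theorem Trunc_face {K : Type} [Field K] {X : Finset (List V)} {φ : V → V → ℤ} (hX : Cx X)
    {Z : Finset (List (V × ℤ))} (hZ : Cx Z) (s : Kˣ) {L : List (V × ℤ)} (hL : L ∈ Z)
    (hU : L ∈ UpS X φ) {m : List V} (hm : m ≠ []) :
    ∑ M ∈ Z, inc L M • (if M.map Prod.fst = m then ((s ^ Ses_hd Prod.snd M : Kˣ) : K) else 0) =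
      (inc (L.map Prod.fst) m : K) * ((s ^ ex φ (L.map Prod.fst) m : Kˣ) : K) *
        ((s ^ Ses_hd Prod.snd L : Kˣ) : K) := by
  have h0 : ∀ M : List (V × ℤ), M.map Prod.fst = m → M ≠ [] := fun M e e' => hm (by rw [← e, e']; rfl)
  rw [Inc0_sum Z L _ fun i _ hi => if_neg fun e =>
    hi ((hZ L hL).2.2.1 _ (h0 _ e) (List.eraseIdx_sublist L i)), inc, Int.cast_sum, mul_assoc,
    sum_mul, List.length_map]
  refine sum_congr rfl fun i _ => ?_
  rw [List.eraseIdx_map]
  split_ifs with e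
  · rw [Trunc_hd hX hU (h0 _ e) (List.eraseIdx_sublist L i), e, zpow_add, Units.val_mul,
      zsmul_eq_mul]
  · rw [smul_zero, Int.cast_zero, zero_mul]

/-- The projection of chains. -/
def Trunc_pi {F K : Type} [Field F] [Field K] [Algebra F K] (Z : Finset (List (V × ℤ))) (s : Kˣ)
    (c : List (V × ℤ) → F) (l : List V) : K :=
  ∑ L ∈ Z, if L.map Prod.fst = l then algebraMap F K (c L) * ((s ^ Ses_hd Prod.snd L : Kˣ) : K)
    else 0

theorem Trunc_cyc {F K : Type} [Field F] [Field K] [Algebra F K] {X : Finset (List V)}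
    {φ : V → V → ℤ} (hX : Cx X) {Z : Finset (List (V × ℤ))} (hZ : Cx Z)
    (hU : ∀ L ∈ Z, L ∈ UpS X φ) (s : Kˣ) {c : List (V × ℤ) → F}
    (hc : bd Z (fun _ _ => 0) (1 : Fˣ) c = 0) : bd X φ s (Trunc_pi Z s c) = 0 := by
  funext m
  rw [bd_apply, Pi.zero_apply]
  split_ifs with hm
  swap
  · rfl
  have h1 : ∀ M ∈ Z, ∑ L ∈ Z, (inc L M : K) * algebraMap F K (c L) = 0 := fun M hM => by
    have h2 := congrArg (algebraMap F K) (congrFun hc M)
    rw [bd_apply, if_pos hM] at h2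
    simpa using h2
  simp only [Trunc_pi, mul_sum, mul_ite, mul_zero]
  rw [sum_comm]
  have h2 : ∀ L ∈ Z, (∑ l ∈ X, if L.map Prod.fst = l then (inc l m : K) *
      ((s ^ ex φ l m : Kˣ) : K) * (algebraMap F K (c L) * ((s ^ Ses_hd Prod.snd L : Kˣ) : K))
      else 0) = ∑ M ∈ Z, (inc L M : K) * algebraMap F K (c L) *
        if M.map Prod.fst = m then ((s ^ Ses_hd Prod.snd M : Kˣ) : K) else 0 := fun L hL => by
    rw [sum_ite_eq, if_pos (hU L hL).1, mul_left_comm, ← Trunc_face hX hZ s hL (hU L hL) (hX m hm).1,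
      mul_sum]
    exact sum_congr rfl fun M _ => by rw [zsmul_eq_mul]; ring
  rw [sum_congr rfl h2, sum_comm]
  exact sum_eq_zero fun M hM => by rw [← sum_mul, h1 M hM, zero_mul]

theorem Trunc_ind {F K ι : Type} [Field F] [Field K] [Algebra F K] {s : Kˣ}
    (hs : Transcendental F (s : K)) {T : Finset ι} {g : ι → ℤ} (hg : Set.InjOn g T) {a : ℤ}
    (ha : ∀ i ∈ T, a ≤ g i) {c : ι → F}
    (h : ∑ i ∈ T, algebraMap F K (c i) * ((s ^ g i : Kˣ) : K) = 0) : ∀ i ∈ T, c i = 0 := by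
  intro i hi
  have h1 : ∑ j ∈ T, Polynomial.monomial (g j - a).toNat (c j) = 0 := by
    refine transcendental_iff.mp hs _ ?_
    rw [map_sum, ← zero_mul ((s ^ (-a) : Kˣ) : K), ← h, sum_mul]
    refine sum_congr rfl fun j hj => ?_
    rw [Polynomial.aeval_monomial, mul_assoc, ← Units.val_mul, ← zpow_add, ← sub_eq_add_neg,
      ← Units.val_pow_eq_pow_val, ← zpow_natCast, Int.toNat_of_nonneg (sub_nonneg.mpr (ha j hj))]
  have h2 := congrArg (fun p => Polynomial.coeff p (g i - a).toNat) h1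
  simp only [Polynomial.finsetSum_coeff, Polynomial.coeff_monomial, Polynomial.coeff_zero] at h2
  rwa [sum_eq_single i (fun j hj e => if_neg fun e' => e (hg hj hi (by
    have := ha i hi
    have := ha j hj
    omega))) (fun e => absurd hi e), if_pos rfl] at h2

/-- Sketch: `2 r = X.card` for the rank `r` at `s` (`betti_eq`); take `J` from `rank_sel`. Let `J'`
be the set of lifts `lf φ l i`, `l ∈ J`, `a' + w ≤ i < b' - w`; they lie in `Z`. If `c` is a chain
over `F` on `J'` with `bd Z 0 1 c = 0`, put `e l = ∑ i, c (lf φ l i) * s ^ i`; then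
`bd X φ s e = 0` (the face of `lf φ l i` over `m` is `lf φ m (i + ex φ l m)`).
Then `e = 0`, and `c = 0` because the powers of `s` are independent over `F`. So the rank for `Z`
is at least `r * (b' - a' - 2 w)`, and `Z.card ≤ X.card * (b - a)` (`card_up`). -/
theorem trunc {F K : Type} [Field F] [Field K] [Algebra F K] {X : Finset (List V)}
    {φ : V → V → ℤ} (hX : Cx X) (hφ : Coc X φ) {s : Kˣ} (hs : Transcendental F (s : K))
    (h0 : betti X φ s = 0) {w : ℕ} (hw : ∀ u v, [u, v] ∈ X → |φ u v| ≤ w)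
    {Z : Finset (List (V × ℤ))} (hZ : Cx Z) {a b a' b' : ℤ} (h1 : Up X φ (Ico a' b') ⊆ Z)
    (h2 : Z ⊆ Up X φ (Ico a b)) :
    betti Z (fun _ _ => 0) (1 : Fˣ) ≤ X.card * ((b - a) - (b' - a') + 2 * w).toNat := by
  obtain ⟨J, hJ, hr, hi⟩ := rank_sel X φ s
  have hU : ∀ L ∈ Z, L ∈ UpS X φ := fun L hL => (mem_Up.mp (h2 hL)).1
  have hd : ∀ l ∈ X, ∀ i, (∃ u, (u, i) ∈ lf φ l i) ∧ Ses_hd Prod.snd (lf φ l i) = i := by
    intro l hl i
    cases l with
    | nil => exact absurd rfl (hX _ hl).1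
    | cons u r => exact ⟨⟨u, List.mem_cons_self⟩, rfl⟩
  set J' := (J ×ˢ Ico (a' + w) (b' - w)).image fun q => lf φ q.1 q.2 with hJ'
  have e1 : J'.card = J.card * (b' - w - (a' + w)).toNat := by
    rw [hJ', card_image_of_injOn, card_product, Int.card_Ico]
    intro q hq q' hq' e
    have h3 := congrArg (List.map Prod.fst) e
    have h4 := congrArg (Ses_hd Prod.snd) e
    simp only [lf_fst] at h3
    simp only [(hd _ (hJ (mem_product.mp hq).1) _).2, (hd _ (hJ (mem_product.mp hq').1) _).2] at h4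
    exact Prod.ext h3 h4
  have e2 : ∀ L ∈ J', L ∈ Z ∧ L.map Prod.fst ∈ J := fun L hL => by
    obtain ⟨q, hq, rfl⟩ := mem_image.mp hL
    obtain ⟨h3, h4⟩ := mem_product.mp hq
    have h5 := lf_mem hX (fun u v w h => hφ u v w h) (hJ h3) q.2
    refine ⟨h1 (mem_Up.mpr ⟨h5, fun x hx => ?_⟩), by rwa [lf_fst]⟩
    obtain ⟨u, hu⟩ := (hd _ (hJ h3) q.2).1
    have h6 := abs_le.mp (up_bound hX hw h5 hx hu)
    rw [mem_Ico] at h4 ⊢
    simp only at h6
    omega
  have e3 : J'.card ≤ Module.finrank F (LinearMap.range (bd Z (fun _ _ => 0) (1 : Fˣ))) := by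
    refine rank_ge fun c hc hb => funext fun L => ?_
    rw [mem_sup] at hc
    have h3 := hi (Trunc_pi Z s c) (mem_sup.mpr fun l hl => sum_eq_zero fun M _ => by
      split_ifs with e
      · rw [hc M fun h => hl (e ▸ (e2 M h).2), map_zero, zero_mul]
      · rfl) (Trunc_cyc hX hZ hU s hb)
    by_cases hL : L ∈ Z
    swap
    · exact hc L fun h => hL (e2 L h).1
    have h4 := congrFun h3 (L.map Prod.fst)
    rw [Trunc_pi, ← sum_filter] at h4
    refine Trunc_ind hs (a := a) (fun M hM M' hM' e => ?_) (fun M hM => ?_) h4 L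
      (mem_filter.mpr ⟨hL, rfl⟩)
    · obtain ⟨h5, h6⟩ := mem_filter.mp hM
      obtain ⟨h7, h8⟩ := mem_filter.mp hM'
      rw [Trunc_lf (hU M h5), Trunc_lf (hU M' h7), h6, h8, e]
    · have h5 := mem_Up.mp (h2 (mem_filter.mp hM).1)
      cases M with
      | nil => exact absurd rfl (hX _ h5.1.1).1
      | cons x M => exact (mem_Ico.mp (h5.2 x List.mem_cons_self)).1
  have e4 := betti_eq (sq_of_cvx hX hφ cvx_self s)
  have e5 := betti_eq (Homo0_sq (F := F) (sz_of_cvx hZ cvx_self))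
  have e6 := (card_le_card h2).trans (card_up hX _)
  rw [Int.card_Ico] at e6
  rw [h0, zero_add, ← hr] at e4
  have e7 : X.card * (b - a).toNat ≤ X.card * ((b - a - (b' - a') + 2 * w).toNat +
      (b' - w - (a' + w)).toNat) := Nat.mul_le_mul_left _ (by omega)
  rw [mul_add] at e7
  have e8 : X.card * (b' - w - (a' + w)).toNat = 2 * J'.card := by rw [e1, ← e4, mul_assoc]
  omega

/-- `trunc` and `betti_semi`. -/
theorem small_trunc {X : Finset (List V)} {φ : V → V → ℤ} (hX : Cx X) (hφ : Coc X φ)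
    (h0 : Small X φ 0) {w : ℕ} (hw : ∀ u v, [u, v] ∈ X → |φ u v| ≤ w)
    {Z : Finset (List (V × ℤ))} (hZ : Cx Z) {a b a' b' : ℤ} (h1 : Up X φ (Ico a' b') ⊆ Z)
    (h2 : Z ⊆ Up X φ (Ico a b)) {c : V × ℤ → V × ℤ → ℤ} (hc : Coc Z c) :
    Small Z c (X.card * ((b - a) - (b' - a') + 2 * w).toNat) := by
  intro F K _ _ _ s hs
  exact (betti_semi hs (sq_of_cvx hZ hc cvx_self s) (sz_of_cvx hZ cvx_self)).trans
    (trunc hX hφ hs (Nat.le_zero.mp (h0 F K s hs)) hw hZ h1 h2)

end Pool.Agent.HT
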