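import Pool.Agent.Lib.MP_dae8ad_gt.H.M3
import Pool.Agent.Lib.MP_dae8ad_gt.H.Trunc
import Pool.Agent.Lib.MP_dae8ad_gt.H.Glue
import Pool.Agent.Lib.MP_dae8ad_gt.H.PcOps

/-! The fold: definitions and first properties. -/

open Finset Classical

noncomputable section

namespace Pool.Agent.HT

variable {V V' : Type}

/-- All data for the fold. -/
structure FD (E : Finset (List A)) (ψ : A → A → ℤ) (W : Finset (List V)) (z : List V → ℤ)
    (Φ : V → V → ℤ) (ι : A → V) (w g : ℕ) : Prop where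
  wd : WD E W z Φ ι
  ext : Ext E ψ
  bound : ∀ u v, [u, v] ∈ W → |Φ u v| ≤ w
  gap : 2 * w + 2 ≤ 15 * g

/-- The number of sheets. -/
def mm (n g : ℕ) : ℤ := 30 * n + 15 * g

/-- The total height. -/
def cc (n g : ℕ) : ℤ := 180 * n + 90 * g

/-- The window of sheets. -/
def Iw (w n g : ℕ) : Finset ℤ := Ico (-(w : ℤ)) (mm n g + w + 1)

/-- The truncated cover. -/
def Zf (W : Finset (List V)) (Φ : V → V → ℤ) (w n g : ℕ) : Finset (List (V × ℤ)) :=
  Up W Φ (Iw w n g)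

/-- Its boundary part. -/
def Bf (E : Finset (List A)) (Φ : V → V → ℤ) (ι : A → V) (w n g : ℕ) : Finset (List (V × ℤ)) :=
  Up ((N ∪ E).image (List.map ι)) Φ (Iw w n g)

/-- The lifted orientation. -/
def zf (z : List V → ℤ) (L : List (V × ℤ)) : ℤ := z (L.map Prod.fst)

/-- The part of the lower half that is folded. -/
def AZ (n g : ℕ) : Set (List (P × ℤ)) :=
  {L | L ∈ NZ ∧ L.map (rf (cc n g)) ∈ NZ ∧ ∀ u ∈ L, 0 ≤ u.2 ∧ u.2 ≤ 90 * n}

def Alo (W : Finset (List V)) (Φ : V → V → ℤ) (ι : A → V) (w n g : ℕ) : Finset (List (V × ℤ)) :=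
  (Zf W Φ w n g).filter fun l => ∃ L ∈ AZ n g, l = L.map (kap ι)

def Ahi (W : Finset (List V)) (Φ : V → V → ℤ) (ι : A → V) (w n g : ℕ) : Finset (List (V × ℤ)) :=
  (Zf W Φ w n g).filter fun l => ∃ L ∈ AZ n g, l = (L.map (rf (cc n g))).map (kap ι)

/-- The folding map. -/
def qf (ι : A → V) (n g : ℕ) (a : V × ℤ) : V × ℤ :=
  if h : ∃ u : P × ℤ, kap ι u = a ∧ 90 * n + 90 * g ≤ u.2 ∧ u.2 ≤ cc n g then
    kap ι (rf (cc n g) h.choose) else a

/-- The sheets of the boundary components. -/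
def InK (n g : ℕ) (k : ℤ) : Prop := (0 ≤ k ∧ k < 15 * n) ∨ (15 * n + 15 * g ≤ k ∧ k < mm n g)

def kk (n g : ℕ) (p : Fin (2 * n) × Fin 15) : ℤ :=
  15 * p.1.1 + p.2.1 + if p.1.1 < n then 0 else 15 * (g : ℤ)

/-- Good vertices. -/
def Gd (ι : A → V) (n g : ℕ) (a : V × ℤ) : Prop :=
  InK n g a.2 ∧ ∀ x, a ≠ kap ι (x, 0) ∧ a ≠ kap ι (x, 90 * n + 90 * g)

def BadZ (ι : A → V) (n g : ℕ) : Set (V × ℤ) := {a | ¬Gd ι n g a}

def BadY (ι : A → V) (n g : ℕ) : Set (V × ℤ) := {v | ∀ a, qf ι n g a = v → ¬Gd ι n g a}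

/-- The boundary components after folding. -/
def io (ι : A → V) (n g : ℕ) (p : Fin (2 * n) × Fin 15) (a : A) : V × ℤ :=
  qf ι n g (ι a, kk n g p)

def Yf (W : Finset (List V)) (Φ : V → V → ℤ) (ι : A → V) (w n g : ℕ) : Finset (List (V × ℤ)) :=
  (Zf W Φ w n g).image (List.map (qf ι n g))

def BY (E : Finset (List A)) (ι : A → V) (n g : ℕ) : Finset (List (V × ℤ)) :=
  univ.biUnion fun p => (E ∪ S).image (List.map (io ι n g p))

theorem kk_inK (n g : ℕ) (p : Fin (2 * n) × Fin 15) : InK n g (kk n g p) := by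
  have h1 := p.1.2
  have h2 := p.2.2
  unfold InK kk mm
  split_ifs with h <;> omega

theorem kk_inj (n g : ℕ) : Function.Injective (kk n g) := by
  intro p p' h
  have h1 := p.1.2
  have h2 := p.2.2
  have h3 := p'.1.2
  have h4 := p'.2.2
  unfold kk at h
  refine Prod.ext (Fin.ext ?_) (Fin.ext ?_) <;> split_ifs at h <;> omega

theorem kk_surj {n g : ℕ} {k : ℤ} (h : InK n g k) : ∃ p, kk n g p = k := by
  unfold InK mm at h
  rcases h with h | h
  · refine ⟨(⟨(k / 15).toNat, by omega⟩, ⟨(k % 15).toNat, by omega⟩), ?_⟩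
    unfold kk
    dsimp only
    rw [if_pos (by omega)]
    omega
  · refine ⟨(⟨(k / 15 - g).toNat, by omega⟩, ⟨(k % 15).toNat, by omega⟩), ?_⟩
    unfold kk
    dsimp only
    rw [if_neg (by omega)]
    omega

theorem kk_mod (n g : ℕ) (p : Fin (2 * n) × Fin 15) : kk n g p % 15 = p.2.1 := by
  have h2 := p.2.2
  unfold kk
  split_ifs <;> omega

variable {E : Finset (List A)} {ψ : A → A → ℤ} {W : Finset (List V)} {z : List V → ℤ}
  {Φ : V → V → ℤ} {ι : A → V} {w g : ℕ}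

theorem pz_mem (E : Finset (List A)) (u : P × ℤ) : [pz u] ∈ N ∪ E :=
  mem_union_left _ (vert_N _)

theorem WD.kap_inj (D : WD E W z Φ ι) : Function.Injective (kap ι) := by
  intro u v h
  have h1 := D.inj _ _ (pz_mem E u) (pz_mem E v) (congrArg Prod.fst h)
  have h2 : u.2 / 6 = v.2 / 6 := congrArg Prod.snd h
  exact kz_inj (Prod.ext h1 h2)

theorem kap_sl (ι : A → V) (k : ℤ) (v : P × Fin 6) : kap ι (sl k (.inl v)) = (ι (.inl v), k) := by
  have h := kz_sl k v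
  have h1 : pz (sl k (.inl v)) = .inl v := congrArg Prod.fst h
  have h2 : (sl k (.inl v)).2 / 6 = k := congrArg Prod.snd h
  unfold kap
  rw [h1, h2]

/-- A boundary vertex of the form `kap ι u`. -/
theorem WD.kap_eq (D : WD E W z Φ ι) {a : A} (ha : [a] ∈ N ∪ E) {k : ℤ} {u : P × ℤ}
    (h : kap ι u = (ι a, k)) : a = pz u ∧ u = sl k a := by
  have h1 := D.inj _ _ (pz_mem E u) ha (congrArg Prod.fst h)
  have h2 : u.2 / 6 = k := congrArg Prod.snd h
  exact ⟨h1.symm, by rw [← h1, ← h2, sl_pz]⟩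

theorem Fold00_lift (D : WD E W z Φ ι) {L : List (A × ℤ)} (h : L.map Prod.fst ∈ N ∪ E) :
    L.map (Prod.map ι id) ∈ UpS ((N ∪ E).image (List.map ι)) Φ ↔
      L.Pairwise fun a b => b.2 = a.2 + tau a.1 b.1 := by
  have key : ∀ {a b : A × ℤ}, [a, b].Sublist L → Φ (ι a.1) (ι b.1) = tau a.1 b.1 := by
    intro a b hab
    exact D.tau _ _ ((D.cx _ h).2.2.1 _ (by simp) (by simpa using hab.map Prod.fst))
  constructor
  · rintro ⟨-, h2⟩
    rw [List.pairwise_map] at h2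
    rw [List.pairwise_iff_forall_sublist] at h2 ⊢
    intro a b hab
    have := h2 hab
    simpa [key hab] using this
  · intro h2
    refine ⟨mem_image.2 ⟨_, h, by simp [List.map_map, Function.comp_def]⟩, ?_⟩
    rw [List.pairwise_map]
    rw [List.pairwise_iff_forall_sublist] at h2 ⊢
    intro a b hab
    have := h2 hab
    simpa [key hab] using this

theorem Fold00_kap (ι : A → V) (L : List (P × ℤ)) :
    L.map (kap ι) = (L.map kz).map (Prod.map ι id) := by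
  rw [List.map_map]
  rfl

theorem Fold00_kz (L : List (P × ℤ)) : (L.map kz).map Prod.fst = L.map pz := by
  rw [List.map_map]
  rfl

theorem WD.nz_mem (D : WD E W z Φ ι) {L : List (P × ℤ)} (h : L ∈ NZ) :
    L.map (kap ι) ∈ UpS ((N ∪ E).image (List.map ι)) Φ := by
  rw [Fold00_kap, Fold00_lift D (by rw [Fold00_kz]; exact mem_union_left _ h.2)]
  exact (chZ_iff.1 h.1).2

theorem WD.e_mem (D : WD E W z Φ ι) (hE : Ext E ψ) {m : List A} (h : m ∈ E) (k : ℤ) :
    m.map (fun a => (ι a, k)) ∈ UpS ((N ∪ E).image (List.map ι)) Φ := by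
  have e : m.map (fun a => (ι a, k)) = (m.map fun a => (a, k)).map (Prod.map ι id) := by
    rw [List.map_map]
    rfl
  have e2 : (m.map fun a => (a, k)).map Prod.fst = m := by
    simp [List.map_map, Function.comp_def]
  rw [e, Fold00_lift D (by rw [e2]; exact mem_union_right _ h), List.pairwise_map,
    List.pairwise_iff_forall_sublist]
  intro a b hab
  simp [hE.tau0 ((hE.cxE _ h).2.2.1 _ (by simp) hab)]

theorem Fold00_zip (ι : A → V) : ∀ (l : List (V × ℤ)) (m : List A), m.map ι = l.map Prod.fst →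
    ∃ L : List (A × ℤ), L.map Prod.fst = m ∧ L.map (Prod.map ι id) = l
  | [], m, h => ⟨[], by simpa using (List.map_eq_nil_iff.1 h).symm, rfl⟩
  | a :: l, [], h => by simp at h
  | a :: l, b :: m, h => by
    simp only [List.map_cons, List.cons.injEq] at h
    obtain ⟨L, h1, h2⟩ := Fold00_zip ι l m h.2
    exact ⟨(b, a.2) :: L, by simp [h1], by simp [h2, h.1]⟩

theorem Fold00_const {α : Type} : ∀ (L : List (α × ℤ)), L.Pairwise (fun a b => b.2 = a.2) →
    ∃ k, L = (L.map Prod.fst).map fun a => (a, k)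
  | [], _ => ⟨0, rfl⟩
  | a :: L, h => by
    refine ⟨a.2, ?_⟩
    rw [List.map_map]
    refine (List.map_id _).symm.trans (List.map_congr_left ?_)
    intro b hb
    rcases List.mem_cons.1 hb with rfl | hb
    · rfl
    · exact Prod.ext rfl ((List.pairwise_cons.1 h).1 b hb)

/-- The simplices of the cover of the boundary. -/
theorem WD.bd_cases (D : WD E W z Φ ι) (hE : Ext E ψ) {l : List (V × ℤ)}
    (h : l ∈ UpS ((N ∪ E).image (List.map ι)) Φ) : (∃ L ∈ NZ, l = L.map (kap ι)) ∨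
      ∃ m ∈ E, m ∉ T ∧ (∃ j, Sum.inr j ∈ m) ∧ ∃ k, l = m.map fun a => (ι a, k) := by
  obtain ⟨m, hm, e⟩ := mem_image.1 h.1
  obtain ⟨L, rfl, rfl⟩ := Fold00_zip ι l m e
  have hp := (Fold00_lift D hm).1 h
  by_cases hN : L.map Prod.fst ∈ N
  · obtain ⟨L0, h0, rfl⟩ := ups_tot (L' := L) ⟨N_sub hN, hp⟩
    exact Or.inl ⟨L0, ⟨h0, by rwa [← Fold00_kz]⟩, (Fold00_kap ι L0).symm⟩
  · have hm' : L.map Prod.fst ∈ E := (mem_union.1 hm).resolve_left hN
    have hT : L.map Prod.fst ∉ T := fun h => hN (mem_N.2 (Or.inr h))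
    refine Or.inr ⟨_, hm', hT, ?_, ?_⟩
    · by_contra hc
      refine hT (hE.2.1 _ hm' fun v hv => ?_)
      cases v with
      | inl v => rfl
      | inr j => exact absurd ⟨j, hv⟩ hc
    · obtain ⟨k, hk⟩ := Fold00_const L (by
        rw [List.pairwise_iff_forall_sublist] at hp ⊢
        intro a b hab
        have := hE.tau0 ((hE.cxE _ hm').2.2.1 [a.1, b.1] (by simp)
          (by simpa using hab.map Prod.fst))
        simpa [this] using hp hab)
      refine ⟨k, ?_⟩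
      conv_lhs => rw [hk]
      rw [List.map_map]
      rfl

theorem WD.full_up (D : WD E W z Φ ι) {l : List (V × ℤ)} (h : l ∈ UpS W Φ)
    (hv : ∀ a ∈ l, ∃ b, [b] ∈ N ∪ E ∧ ι b = a.1) : l ∈ UpS ((N ∪ E).image (List.map ι)) Φ := by
  obtain ⟨m, hm, e⟩ := D.full _ h.1 (by
    intro v hv'
    obtain ⟨a, ha, rfl⟩ := List.mem_map.1 hv'
    exact hv a ha)
  exact ⟨mem_image.2 ⟨m, hm, e.symm⟩, h.2⟩

theorem WD.free_ne (D : WD E W z Φ ι) (hE : Ext E ψ) {m : List A} (hm : m ∈ E) {j : ℕ}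
    (hj : Sum.inr j ∈ m) (k : ℤ) (u : P × ℤ) : kap ι u ≠ (ι (.inr j), k) := by
  intro h
  have := (D.kap_eq (mem_union_right _ (vert_mem hE.cxE hm hj)) h).1
  simp [pz] at this

theorem WD.full_kap (D : WD E W z Φ ι) (hE : Ext E ψ) {L : List (P × ℤ)}
    (h : L.map (kap ι) ∈ UpS W Φ) : L ∈ NZ := by
  have h1 := D.full_up h (by
    intro a ha
    obtain ⟨u, -, rfl⟩ := List.mem_map.1 ha
    exact ⟨pz u, pz_mem E u, rfl⟩)
  rcases D.bd_cases hE h1 with ⟨L', h', e⟩ | ⟨m, hm, -, ⟨j, hj⟩, k, e⟩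
  · rwa [List.map_injective_iff.2 D.kap_inj e]
  · have : (ι (.inr j), k) ∈ L.map (kap ι) := e ▸ List.mem_map.2 ⟨_, hj, rfl⟩
    obtain ⟨u, -, hu⟩ := List.mem_map.1 this
    exact absurd hu (D.free_ne hE hm hj k u)

theorem WD.bd_sub (D : WD E W z Φ ι) : (N ∪ E).image (List.map ι) ⊆ W := D.hm.2.2.1

end Pool.Agent.HT
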