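import Pool.Agent.Lib.MP_dae8ad_gt.H.Fold10

/-! The fold is a gluing. -/

open Finset Classical

noncomputable section

namespace Pool.Agent.HT

variable {V V' : Type}

variable {E : Finset (List A)} {ψ : A → A → ℤ} {W : Finset (List V)} {z : List V → ℤ}
  {Φ : V → V → ℤ} {ι : A → V} {w g : ℕ}

theorem FD.vK (D : FD E ψ W z Φ ι w g) {a : A} (ha : [a] ∈ E ∪ S) : [a] ∈ N ∪ E := by
  rcases mem_union.1 ha with h | h
  · exact mem_union_right _ h
  · exact mem_union_right _ (D.ext.tE (vert_T h))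

/-- A vertex of a component of the form `kap ι u` has height `1` or `2` modulo six. -/
theorem FD.kap_K (D : FD E ψ W z Φ ι w g) {a : A} (ha : [a] ∈ E ∪ S) {k : ℤ} {u : P × ℤ}
    (h : kap ι u = (ι a, k)) : a = pz u ∧ [a] ∈ S ∧ (u.2 = 6 * k + 1 ∨ u.2 = 6 * k + 2) := by
  obtain ⟨rfl, -⟩ := D.wd.kap_eq (D.vK ha) h
  have hS : [pz u] ∈ S := by
    rcases mem_union.1 ha with h | h
    · exact T_sub (D.ext.tot h (N_sub (vert_N _)))
    · exact h
  have h2 : u.2 / 6 = k := congrArg Prod.snd h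
  have := vert_S_ht hS
  exact ⟨rfl, hS, by omega⟩

theorem FD.io_inj (D : FD E ψ W z Φ ι w g) (n : ℕ) (p p' : Fin (2 * n) × Fin 15) (a b : A)
    (ha : [a] ∈ E ∪ S) (hb : [b] ∈ E ∪ S) (h : io ι n g p a = io ι n g p' b) : p = p' ∧ a = b := by
  rcases D.q_eq n h with h | ⟨u, -, -, ⟨h1, h2⟩ | ⟨h1, h2⟩⟩
  · exact ⟨kk_inj n g (congrArg Prod.snd h),
      D.wd.inj _ _ (D.vK ha) (D.vK hb) (congrArg Prod.fst h)⟩
  · have t1 := (D.kap_K ha h1.symm).2.2
    have t2 := (D.kap_K hb h2.symm).2.2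
    simp only [rf, cc] at t2
    omega
  · have t1 := (D.kap_K hb h1.symm).2.2
    have t2 := (D.kap_K ha h2.symm).2.2
    simp only [rf, cc] at t2
    omega

theorem FD.io_good (D : FD E ψ W z Φ ι w g) (n : ℕ) (p : Fin (2 * n) × Fin 15) {a : A}
    (ha : [a] ∈ E ∪ S) : Gd ι n g (ι a, kk n g p) := by
  refine ⟨kk_inK n g p, fun x => ⟨fun h => ?_, fun h => ?_⟩⟩
  · have := (D.kap_K ha h.symm).2.2
    dsimp only at this
    omega
  · have := (D.kap_K ha h.symm).2.2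
    dsimp only at this
    omega

theorem FD.free (D : FD E ψ W z Φ ι w g) {m : List A} (hm : m ∈ E) (hT : m ∉ T) :
    ∃ j, Sum.inr j ∈ m := by
  by_contra hc
  refine hT (D.ext.2.1 _ hm fun v hv => ?_)
  cases v with
  | inl v => rfl
  | inr j => exact absurd ⟨j, hv⟩ hc

/-- The lift of a simplex of `E`. -/
theorem FD.lift_E (D : FD E ψ W z Φ ι w g) (n : ℕ) (p : Fin (2 * n) × Fin 15) {m : List A}
    (hm : m ∈ E) : m.map (fun a => (ι a, kk n g p)) ∈ Bf E Φ ι w n g ∧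
      (m.map fun a => (ι a, kk n g p)).map (qf ι n g) = m.map (io ι n g p) ∧
      (m ∉ T → m.map (fun a => (ι a, kk n g p)) ∉ Alo W Φ ι w n g ∧
        m.map (fun a => (ι a, kk n g p)) ∉ Ahi W Φ ι w n g) := by
  refine ⟨mem_Up.2 ⟨D.wd.e_mem D.ext hm _, fun a ha => ?_⟩, by rw [List.map_map]; rfl, fun hT => ?_⟩
  · obtain ⟨b, -, rfl⟩ := List.mem_map.1 ha
    have := inK_bound (kk_inK n g p)
    rw [mem_Iw]
    dsimp only
    omega
  · obtain ⟨j, hj⟩ := D.free hm hT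
    have key : ∀ L : List (P × ℤ), m.map (fun a => (ι a, kk n g p)) ≠ L.map (kap ι) := by
      intro L e
      have : (ι (.inr j), kk n g p) ∈ L.map (kap ι) := e ▸ List.mem_map.2 ⟨_, hj, rfl⟩
      obtain ⟨u, -, hu⟩ := List.mem_map.1 this
      exact D.wd.free_ne D.ext hm hj _ u hu
    constructor
    · intro h
      obtain ⟨L, -, e⟩ := (D.mem_lo n).1 h
      exact key _ e
    · intro h
      obtain ⟨L, -, e⟩ := (D.mem_hi n).1 h
      exact key _ e

theorem kap_sl_S (ι : A → V) {m : List A} (hm : m ∈ S) (k : ℤ) {a : A} (ha : a ∈ m) :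
    kap ι (sl k a) = (ι a, k) := by
  have h := ((sl_S hm k).2.2 a ha).1
  have h1 : pz (sl k a) = a := congrArg Prod.fst h
  have h2 : (sl k a).2 / 6 = k := congrArg Prod.snd h
  unfold kap
  rw [h1, h2]

/-- The reflected lift of a simplex of `S`; its heights are `4`, `5` modulo six (`nz_of`). -/
theorem FD.lift_S (D : FD E ψ W z Φ ι w g) (n : ℕ) (p : Fin (2 * n) × Fin 15) {m : List A}
    (hm : m ∈ S) : (m.map (sl (kk n g p))).map (rf (cc n g)) ∈ NZ ∧
      ((m.map (sl (kk n g p))).map (rf (cc n g))).map (kap ι) ∈ Bf E Φ ι w n g ∧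
      (((m.map (sl (kk n g p))).map (rf (cc n g))).map (kap ι)).map (qf ι n g) =
        m.map (io ι n g p) ∧
      (m ∉ T → ((m.map (sl (kk n g p))).map (rf (cc n g))).map (kap ι) ∉ Alo W Φ ι w n g ∧
        ((m.map (sl (kk n g p))).map (rf (cc n g))).map (kap ι) ∉ Ahi W Φ ι w n g) := by
  obtain ⟨c1, c2, c3⟩ := sl_S hm (kk n g p)
  have hk := kk_inK n g p
  have hb := inK_bound hk
  have hg := D.gap
  have nz : (m.map (sl (kk n g p))).map (rf (cc n g)) ∈ NZ := by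
    obtain ⟨a, ha⟩ := List.exists_mem_of_ne_nil m (cx_S m hm).1
    have := (c3 a ha).2
    refine nz_of (chZ_rf (cc_even n g) c1) (List.mem_map_of_mem (List.mem_map_of_mem ha)) ?_ ?_ <;>
      simp only [rf, cc] <;> omega
  refine ⟨nz, D.kap_Bf n nz fun u hu => ?_, ?_, fun hT => ?_⟩
  · obtain ⟨v, hv, rfl⟩ := List.mem_map.1 hu
    obtain ⟨a, ha, rfl⟩ := List.mem_map.1 hv
    have := (c3 a ha).2
    simp only [rf, cc, mm] at *
    omega
  · rw [List.map_map, List.map_map, List.map_map]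
    refine List.map_congr_left fun a ha => ?_
    have h1 := (c3 a ha).2
    show qf ι n g (kap ι (rf (cc n g) (sl (kk n g p) a))) = qf ι n g (ι a, kk n g p)
    rw [← kap_sl_S ι hm _ ha]
    have e : ∀ u : P × ℤ, (kap ι u).2 = u.2 / 6 := fun _ => rfl
    unfold InK mm at hk
    rcases hk with hk | hk
    · rw [D.q_hi n (by simp only [rf, cc]; omega) (by simp only [rf, cc]; omega), rf_rf,
        q_lo ι n g (by rw [e]; omega)]
    · rw [D.q_hi n (u := sl (kk n g p) a) (by omega) (by simp only [cc]; omega),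
        q_lo ι n g (by rw [e]; simp only [rf, cc]; omega)]
  · have key : m.map (sl (kk n g p)) ∉ NZ := fun h => hT (N_S (c2 ▸ h.2) hm)
    constructor
    · intro h
      obtain ⟨L, hL, e⟩ := (D.mem_lo n).1 h
      obtain rfl := List.map_injective_iff.2 D.wd.kap_inj e
      exact key (by simpa only [rf_map] using hL.2.1)
    · intro h
      obtain ⟨L, hL, e⟩ := (D.mem_hi n).1 h
      have e' := congrArg (List.map (rf (cc n g))) (List.map_injective_iff.2 D.wd.kap_inj e)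
      rw [rf_map, rf_map] at e'
      exact key (e' ▸ hL.1)

theorem mem_BY {n : ℕ} {l : List (V × ℤ)} :
    l ∈ BY E ι n g ↔ ∃ p, ∃ m ∈ E ∪ S, l = m.map (io ι n g p) := by
  simp only [BY, mem_biUnion, mem_univ, true_and, mem_image]
  exact ⟨fun ⟨p, m, h, e⟩ => ⟨p, m, h, e.symm⟩, fun ⟨p, m, h, e⟩ => ⟨p, m, h, e.symm⟩⟩

theorem mem_Yf {n : ℕ} {l : List (V × ℤ)} :
    l ∈ Yf W Φ ι w n g ↔ ∃ m ∈ Zf W Φ w n g, m.map (qf ι n g) = l := by
  simp only [Yf, mem_image]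

theorem FD.comp_lift (D : FD E ψ W z Φ ι w g) (n : ℕ) (p : Fin (2 * n) × Fin 15) {m : List A}
    (hm : m ∈ E ∪ S) : ∃ l ∈ Bf E Φ ι w n g, l.map (qf ι n g) = m.map (io ι n g p) := by
  rcases mem_union.1 hm with h | h
  · exact ⟨_, (D.lift_E n p h).1, (D.lift_E n p h).2.1⟩
  · exact ⟨_, (D.lift_S n p h).2.1, (D.lift_S n p h).2.2.1⟩

theorem FD.BY_sub (D : FD E ψ W z Φ ι w g) (n : ℕ) : BY E ι n g ⊆ Yf W Φ ι w n g := by
  intro l hl
  obtain ⟨p, m, hm, rfl⟩ := mem_BY.1 hl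
  obtain ⟨l, h1, h2⟩ := D.comp_lift n p hm
  exact mem_Yf.2 ⟨l, D.Bf_sub n h1, h2⟩

theorem Yf_eq (n : ℕ) : Yf W Φ ι w n g = @Finset.image _ _
    (@instDecidableEqList _ fun a b => propDecidable (a = b)) (List.map (qf ι n g))
    (Zf W Φ w n g) := by
  ext l
  simp only [Yf, mem_image]

theorem FD.z_len (D : FD E ψ W z Φ ι w g) {l : List V} (hl : l ∈ W) (h : l.length ≠ 4 + 1) :
    z l = 0 := by
  have := (D.wd.hm.2.2.2.1 l hl).2
  rwa [if_neg h, abs_eq_zero] at this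

theorem FD.comp_bz (D : FD E ψ W z Φ ι w g) (n : ℕ) {u : ℤ}
    (hu : ∀ m ∈ N, bz W z (m.map ι) = u * zTot m) (p : Fin (2 * n) × Fin 15) {m : List A}
    (hm : m ∈ E ∪ S) :
    bz (Yf W Φ ι w n g) (gz (Zf W Φ w n g) (qf ι n g) (zf z)) (m.map (io ι n g p)) =
      if m ∈ E then bz W z (m.map ι) else -u * zTot m := by
  by_cases hT : m ∈ T
  · have hl := D.ext.lenT m hT
    rw [if_pos (D.ext.tE hT), bz_len (k := 4) (fun l hl h => D.z_len hl h) (by simp; omega)]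
    refine bz_len (k := 4) (fun l _ h => Finset.sum_eq_zero fun l' hl' => ?_) (by simp; omega)
    simp only [mem_filter] at hl'
    obtain ⟨h1, rfl⟩ := hl'
    exact D.z_len (mem_Up.1 h1).1.1 (by simpa using h)
  rw [Yf_eq, bz_gz (D.gl n)]
  split_ifs with hE
  · obtain ⟨h1, h2, h3⟩ := D.lift_E n p hE
    obtain ⟨a, ha⟩ := List.exists_mem_of_ne_nil m (D.ext.cxE m hE).1
    have hb := inK_bound (kk_inK n g p)
    rw [← h2, gz_out (D.gl n) _ (D.Bf_sub n h1) (h3 hT).1 (h3 hT).2,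
      D.bzZ n (D.Bf_sub n h1) (List.mem_map_of_mem ha) hb.1 hb.2.le, List.map_map]
    rfl
  · have hS := (mem_union.1 hm).resolve_left hE
    obtain ⟨h0, h1, h2, h3⟩ := D.lift_S n p hS
    obtain ⟨c1, c2, c3⟩ := sl_S hS (kk n g p)
    have hb := inK_bound (kk_inK n g p)
    rw [← h2, gz_out (D.gl n) _ (D.Bf_sub n h1) (h3 hT).1 (h3 hT).2, D.bz_kap n hu h0,
      z_rf (cc_even n g) c1, c2]
    · ring
    · intro v hv
      obtain ⟨v', hv', rfl⟩ := List.mem_map.1 hv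
      obtain ⟨a, ha, rfl⟩ := List.mem_map.1 hv'
      have := (c3 a ha).2
      simp only [rf, cc, mm] at *
      omega

end Pool.Agent.HT
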