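import Pool.Agent.Lib.MP_dae8ad_gt.H.Fold0

/-! The fold is a gluing. -/

open Finset Classical

noncomputable section

namespace Pool.Agent.HT

variable {V V' : Type}

variable {E : Finset (List A)} {ψ : A → A → ℤ} {W : Finset (List V)} {z : List V → ℤ}
  {Φ : V → V → ℤ} {ι : A → V} {w g : ℕ}

theorem exists_map {α β : Type} (f : α → β) (p : α → Prop) : ∀ l : List β,
    (∀ b ∈ l, ∃ u, p u ∧ b = f u) → ∃ L : List α, (∀ u ∈ L, p u) ∧ l = L.map f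
  | [], _ => ⟨[], by simp, rfl⟩
  | b :: l, h => by
    obtain ⟨u, hu, rfl⟩ := h b List.mem_cons_self
    obtain ⟨L, h1, rfl⟩ := exists_map f p l fun c hc => h c (List.mem_cons_of_mem _ hc)
    exact ⟨u :: L, by simpa [hu] using h1, rfl⟩

theorem FD.cxZ (D : FD E ψ W z Φ ι w g) (n : ℕ) : Cx (Zf W Φ w n g) := cx_Up D.cxW _ _

theorem FD.sheet (D : FD E ψ W z Φ ι w g) {n : ℕ} {l : List (V × ℤ)} (hl : l ∈ Zf W Φ w n g)
    {a b : V × ℤ} (ha : a ∈ l) (hb : b ∈ l) : a.2 - b.2 ≤ w :=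
  (abs_le.1 (up_bound D.cxW D.bound (mem_Up.1 hl).1 ha hb)).2

theorem sheet_lo (ι : A → V) {n : ℕ} {u : P × ℤ} (h : u.2 ≤ 90 * n) : (kap ι u).2 ≤ 15 * n := by
  have e : (kap ι u).2 = u.2 / 6 := rfl
  omega

theorem sheet_hi (ι : A → V) {n g : ℕ} {u : P × ℤ} (h : u.2 ≤ 90 * n) :
    15 * n + 15 * g ≤ (kap ι (rf (cc n g) u)).2 := by
  have e : (kap ι (rf (cc n g) u)).2 = (cc n g - u.2) / 6 := rfl
  unfold cc at *
  omega

theorem FD.nz_sub (D : FD E ψ W z Φ ι w g) {L L' : List (P × ℤ)} (h : L ∈ NZ) (h0 : L' ≠ [])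
    (h' : L'.Sublist L) : L' ∈ NZ :=
  ⟨chZ_sub h.1 h0 h', (D.ext.cxN D.wd.cx _ h.2).2.2.1 _ (by simpa using h0) (h'.map _)⟩

theorem FD.az_sub (D : FD E ψ W z Φ ι w g) {n : ℕ} {L L' : List (P × ℤ)} (h : L ∈ AZ n g)
    (h0 : L' ≠ []) (h' : L'.Sublist L) : L' ∈ AZ n g :=
  ⟨D.nz_sub h.1 h0 h', D.nz_sub h.2.1 (by simpa using h0) (h'.map _),
    fun u hu => h.2.2 u (h'.subset hu)⟩

theorem cx_of_sub {X S : Finset (List V)} (hX : Cx X) (hS : S ⊆ X)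
    (h : ∀ l ∈ S, ∀ m, m ≠ [] → m.Sublist l → m ∈ S) : Cx S := fun l hl =>
  ⟨(hX l (hS hl)).1, (hX l (hS hl)).2.1, h l hl, fun m hm => (hX l (hS hl)).2.2.2 m (hS hm)⟩

theorem FD.q_inj (D : FD E ψ W z Φ ι w g) {n : ℕ} {l : List (V × ℤ)} (hl : l ∈ Zf W Φ w n g)
    {a b : V × ℤ} (ha : a ∈ l) (hb : b ∈ l) (h : qf ι n g a = qf ι n g b) : a = b := by
  have hg := D.gap
  rcases D.q_eq n h with h | ⟨u, -, h1, ⟨rfl, rfl⟩ | ⟨rfl, rfl⟩⟩
  · exact h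
  · have := D.sheet hl hb ha
    have := sheet_lo ι h1
    have := sheet_hi ι (g := g) h1
    omega
  · have := D.sheet hl ha hb
    have := sheet_lo ι h1
    have := sheet_hi ι (g := g) h1
    omega

theorem FD.q_az (D : FD E ψ W z Φ ι w g) (n : ℕ) {L : List (P × ℤ)}
    (h : ∀ u ∈ L, 0 ≤ u.2 ∧ u.2 ≤ 90 * n) :
    ((L.map (rf (cc n g))).map (kap ι)).map (qf ι n g) = L.map (kap ι) := by
  rw [D.q_hi_map n, rf_map]
  intro u hu
  obtain ⟨v, hv, rfl⟩ := List.mem_map.1 hu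
  have := h v hv
  simp only [rf, cc]
  omega

theorem FD.cross (D : FD E ψ W z Φ ι w g) {n : ℕ} {l l' : List (V × ℤ)} (hl : l ∈ Zf W Φ w n g)
    (hl' : l' ∈ Zf W Φ w n g) (hp : (l.map (qf ι n g)).Perm (l'.map (qf ι n g))) {u : P × ℤ}
    (h1 : u.2 ≤ 90 * n) (ha : kap ι (rf (cc n g) u) ∈ l) (ha' : kap ι u ∈ l') :
    l.map (qf ι n g) = l'.map (qf ι n g) ∧ l ∈ Ahi W Φ ι w n g ∧ l' ∈ Alo W Φ ι w n g := by
  have hg := D.gap
  have s1 := sheet_lo ι h1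
  have s2 := sheet_hi ι (g := g) h1
  have e' : l'.map (qf ι n g) = l' := by
    refine (List.map_congr_left fun b hb => q_lo ι n g ?_).trans (List.map_id _)
    have := D.sheet hl' hb ha'
    omega
  rw [e'] at hp ⊢
  obtain ⟨L, hL, rfl⟩ := exists_map (fun u => kap ι (rf (cc n g) u))
    (fun u => 0 ≤ u.2 ∧ u.2 ≤ 90 * n) l fun b hb => by
      rcases D.q_cases n b with h | ⟨v, h0, h1, h2, -⟩
      · have hb' : b ∈ l' := hp.subset (List.mem_map.2 ⟨b, hb, h⟩)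
        have := D.sheet hl' hb' ha'
        have := D.sheet hl ha hb
        omega
      · exact ⟨v, ⟨h0, h1⟩, h2⟩
  have e : L.map (fun u => kap ι (rf (cc n g) u)) = (L.map (rf (cc n g))).map (kap ι) := by
    rw [List.map_map]
    rfl
  rw [e] at hp hl ⊢
  rw [D.q_az n hL] at hp ⊢
  obtain ⟨L', -, rfl⟩ := exists_map (kap ι) (fun _ => True) l' fun b hb => by
    obtain ⟨v, -, hv⟩ := List.mem_map.1 (hp.symm.subset hb)
    exact ⟨v, trivial, hv.symm⟩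
  have n1 := D.wd.full_kap D.ext (mem_Up.1 hl).1
  have n2 := D.wd.full_kap D.ext (mem_Up.1 hl').1
  have c1 : L ∈ ChZ := by simpa only [rf_map] using chZ_rf (cc_even n g) n1.1
  have : L = L' := chZ_perm c1 n2.1 ((List.map_perm_map_iff D.wd.kap_inj).1 hp)
  subst this
  exact ⟨rfl, (D.mem_hi n).2 ⟨L, ⟨n2, n1, hL⟩, rfl⟩, (D.mem_lo n).2 ⟨L, ⟨n2, n1, hL⟩, rfl⟩⟩

theorem FD.gl (D : FD E ψ W z Φ ι w g) (n : ℕ) :
    Gl (Zf W Φ w n g) (Alo W Φ ι w n g) (Ahi W Φ ι w n g) (qf ι n g) where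
  cx := D.cxZ n
  cA := cx_of_sub (D.cxZ n) (filter_subset _ _) fun l hl m h0 hm => by
    obtain ⟨L, hL, rfl⟩ := (D.mem_lo n).1 hl
    obtain ⟨L', h', rfl⟩ := List.sublist_map_iff.1 hm
    exact (D.mem_lo n).2 ⟨L', D.az_sub hL (by simpa using h0) h', rfl⟩
  cA' := cx_of_sub (D.cxZ n) (filter_subset _ _) fun l hl m h0 hm => by
    obtain ⟨L, hL, rfl⟩ := (D.mem_hi n).1 hl
    rw [List.map_map] at hm
    obtain ⟨L', h', rfl⟩ := List.sublist_map_iff.1 hm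
    exact (D.mem_hi n).2 ⟨L', D.az_sub hL (by simpa using h0) h', by rw [List.map_map]⟩
  sA := filter_subset _ _
  sA' := filter_subset _ _
  disj := by
    rw [disjoint_left]
    intro l h h'
    obtain ⟨L, hL, rfl⟩ := (D.mem_lo n).1 h
    obtain ⟨L', hL', e⟩ := (D.mem_hi n).1 h'
    have e' := List.map_injective_iff.2 D.wd.kap_inj e
    obtain ⟨u, hu⟩ := List.exists_mem_of_ne_nil _ hL.1.1.1
    have h1 := hL.2.2 u hu
    have h2 := az_hi hL' u (e' ▸ hu)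
    have hg := D.gap
    omega
  nd := fun l hl => ((D.cxZ n l hl).2.1).map_on fun a ha b hb h => D.q_inj hl ha hb h
  uq := by
    intro l hl l' hl' hp
    by_cases h : ∃ a ∈ l, ∃ a' ∈ l', qf ι n g a = qf ι n g a' ∧ a ≠ a'
    · obtain ⟨a, ha, a', ha', h1, h2⟩ := h
      rcases D.q_eq n h1 with h | ⟨u, -, h3, ⟨rfl, rfl⟩ | ⟨rfl, rfl⟩⟩
      · exact absurd h h2
      · have := D.cross hl' hl hp.symm h3 ha' ha
        exact Or.inr ⟨this.1.symm, Or.inl ⟨this.2.2, this.2.1⟩⟩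
      · have := D.cross hl hl' hp h3 ha ha'
        exact Or.inr ⟨this.1, Or.inr this.2⟩
    · push Not at h
      refine Or.inl ((D.cxZ n l' hl').2.2.2 l hl ?_)
      refine (List.perm_ext_iff_of_nodup (D.cxZ n l hl).2.1 (D.cxZ n l' hl').2.1).2 fun a => ?_
      constructor
      · intro ha
        obtain ⟨a', ha', e⟩ := List.mem_map.1 (hp.subset (List.mem_map_of_mem ha))
        rwa [h a ha a' ha' e.symm]
      · intro ha
        obtain ⟨a', ha', e⟩ := List.mem_map.1 (hp.symm.subset (List.mem_map_of_mem ha))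
        rwa [← h a' ha' a ha e]
  ex1 := by
    intro l hl
    obtain ⟨L, hL, rfl⟩ := (D.mem_lo n).1 hl
    exact ⟨_, (D.mem_hi n).2 ⟨L, hL, rfl⟩,
      by rw [D.q_az n hL.2.2, D.q_lo_map n fun u hu => (hL.2.2 u hu).2]⟩
  ex2 := by
    intro l hl
    obtain ⟨L, hL, rfl⟩ := (D.mem_hi n).1 hl
    exact ⟨_, (D.mem_lo n).2 ⟨L, hL, rfl⟩,
      by rw [D.q_az n hL.2.2, D.q_lo_map n fun u hu => (hL.2.2 u hu).2]⟩

/-- Partners. -/
theorem FD.partner (D : FD E ψ W z Φ ι w g) (n : ℕ) {l l' : List (V × ℤ)}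
    (hl : l ∈ Alo W Φ ι w n g) (hl' : l' ∈ Ahi W Φ ι w n g)
    (h : l.map (qf ι n g) = l'.map (qf ι n g)) :
    ∃ L ∈ AZ n g, l = L.map (kap ι) ∧ l' = (L.map (rf (cc n g))).map (kap ι) := by
  obtain ⟨L, hL, rfl⟩ := (D.mem_lo n).1 hl
  obtain ⟨L', hL', rfl⟩ := (D.mem_hi n).1 hl'
  rw [D.q_az n hL'.2.2, D.q_lo_map n fun u hu => (hL.2.2 u hu).2] at h
  obtain rfl := List.map_injective_iff.2 D.wd.kap_inj h
  exact ⟨L, hL, rfl, rfl⟩

theorem kap_fst (ι : A → V) (L : List (P × ℤ)) :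
    (L.map (kap ι)).map Prod.fst = (L.map pz).map ι := by
  rw [List.map_map, List.map_map]
  rfl

theorem FD.bz_kap (D : FD E ψ W z Φ ι w g) (n : ℕ) {u : ℤ}
    (hu : ∀ m ∈ N, bz W z (m.map ι) = u * zTot m) {L : List (P × ℤ)} (h : L ∈ NZ)
    (h' : ∀ u ∈ L, 0 ≤ u.2 ∧ u.2 ≤ cc n g) :
    bz (Zf W Φ w n g) (zf z) (L.map (kap ι)) = u * zTot (L.map pz) := by
  obtain ⟨v, hv⟩ := List.exists_mem_of_ne_nil _ h.1.1
  have h1 := h' v hv
  have e : (kap ι v).2 = v.2 / 6 := rfl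
  rw [D.bzZ n (D.Bf_sub n (D.kap_Bf n h h')) (List.mem_map_of_mem hv) (by omega)
    (by simp only [mm, cc] at *; omega), kap_fst, hu _ h.2]

/-- `bzZ`, the orientation `hu` and `z_rf`. -/
theorem FD.opp (D : FD E ψ W z Φ ι w g) (n : ℕ) {u : ℤ}
    (hu : ∀ m ∈ N, bz W z (m.map ι) = u * zTot m) {l l' : List (V × ℤ)}
    (hl : l ∈ Alo W Φ ι w n g) (hl' : l' ∈ Ahi W Φ ι w n g)
    (h : l.map (qf ι n g) = l'.map (qf ι n g)) :
    bz (Zf W Φ w n g) (zf z) l + bz (Zf W Φ w n g) (zf z) l' = 0 := by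
  obtain ⟨L, hL, rfl, rfl⟩ := D.partner n hl hl' h
  rw [D.bz_kap n hu hL.1 (az_lo hL), D.bz_kap n hu hL.2.1
    fun v hv => ⟨by have := az_hi hL v hv; omega, (az_hi hL v hv).2⟩, z_rf (cc_even n g) hL.1.1]
  ring

end Pool.Agent.HT
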