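import Pool.Agent.Lib.MP_dae8ad_gt.H.Fold20

/-! The folded complex is a homology manifold. -/

open Finset Classical

noncomputable section

namespace Pool.Agent.HT

variable {V V' : Type}

variable {E : Finset (List A)} {ψ : A → A → ℤ} {W : Finset (List V)} {z : List V → ℤ}
  {Φ : V → V → ℤ} {ι : A → V} {w g : ℕ}

theorem FD.fullY (D : FD E ψ W z Φ ι w g) (n : ℕ) {l : List (V × ℤ)} (hl : l ∈ Yf W Φ ι w n g)
    (h : ∀ v ∈ l, ∃ p a, [a] ∈ E ∪ S ∧ io ι n g p a = v) :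
    ∃ p, ∃ m ∈ E ∪ S, l = m.map (io ι n g p) := by
  obtain ⟨l, hl', rfl⟩ := mem_Yf.1 hl
  have key : ∀ b ∈ l, ∃ p a, [a] ∈ E ∪ S ∧ (b = (ι a, kk n g p) ∨
      ∃ u, b = kap ι u ∧ kap ι (rf (cc n g) u) = (ι a, kk n g p)) := by
    intro b hb
    obtain ⟨p, a, ha, e⟩ := h _ (List.mem_map_of_mem hb)
    refine ⟨p, a, ha, ?_⟩
    rcases D.q_eq n e with h | ⟨u, -, -, ⟨h1, h2⟩ | ⟨h1, h2⟩⟩
    · exact Or.inl h.symm
    · exact Or.inr ⟨_, h2, by rw [rf_rf, h1]⟩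
    · exact Or.inr ⟨_, h1, h2.symm⟩
  have hb := D.wd.full_up (mem_Up.1 hl').1 fun b hb => by
    obtain ⟨p, a, ha, rfl | ⟨u, rfl, -⟩⟩ := key b hb
    · exact ⟨a, D.vK ha, rfl⟩
    · exact ⟨pz u, pz_mem E u, rfl⟩
  rcases D.wd.bd_cases D.ext hb with ⟨L, hL, rfl⟩ | ⟨m, hm, -, ⟨j, hj⟩, k, rfl⟩
  · have k2 : ∀ u ∈ L, ∃ p, ([pz u] ∈ S ∧ (u.2 = 6 * kk n g p + 1 ∨ u.2 = 6 * kk n g p + 2)) ∨
        ([pz (rf (cc n g) u)] ∈ S ∧ ((rf (cc n g) u).2 = 6 * kk n g p + 1 ∨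
          (rf (cc n g) u).2 = 6 * kk n g p + 2)) := by
      intro u hu
      obtain ⟨p, a, ha, h | ⟨u', h, h'⟩⟩ := key _ (List.mem_map_of_mem hu)
      · obtain ⟨rfl, h2⟩ := D.kap_K ha h
        exact ⟨p, Or.inl h2⟩
      · obtain rfl := D.wd.kap_inj h
        obtain ⟨rfl, h2⟩ := D.kap_K ha h'
        exact ⟨p, Or.inr h2⟩
    obtain ⟨u0, hu0⟩ := List.exists_mem_of_ne_nil _ hL.1.1
    obtain ⟨p, h0 | h0⟩ := k2 u0 hu0
    · have hS : L.map pz ∈ S := mem_S.2 ⟨chZ_tot hL.1, fun v hv => by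
        obtain ⟨u, hu, rfl⟩ := List.mem_map.1 hv
        obtain ⟨p', h | h⟩ := k2 u hu
        · exact h.1
        · have := abs_le.1 (chZ_ht hL.1 hu hu0)
          have h1 := h.2
          have h2 := h0.2
          simp only [rf, cc] at h1
          omega⟩
      obtain ⟨k, hk⟩ := eq_sl hL.1 hS
      generalize L.map pz = m at hS hk
      subst hk
      obtain ⟨a, ha, rfl⟩ := List.mem_map.1 hu0
      have h1 := ((sl_S hS k).2.2 a ha).2
      obtain rfl : k = kk n g p := by have := h0.2; omega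
      refine ⟨p, m, mem_union_right _ hS, ?_⟩
      rw [List.map_map, List.map_map]
      exact List.map_congr_left fun a ha => congrArg (qf ι n g) (kap_sl_S ι hS _ ha)
    · have c1 := chZ_rf (cc_even n g) hL.1
      have hS : (L.map (rf (cc n g))).map pz ∈ S := mem_S.2 ⟨chZ_tot c1, fun v hv => by
        obtain ⟨u', hu', rfl⟩ := List.mem_map.1 hv
        obtain ⟨u, hu, rfl⟩ := List.mem_map.1 hu'
        obtain ⟨p', h | h⟩ := k2 u hu
        · have := abs_le.1 (chZ_ht hL.1 hu hu0)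
          have h1 := h.2
          have h2 := h0.2
          simp only [rf, cc] at h2
          omega
        · exact h.1⟩
      obtain ⟨k, hk⟩ := eq_sl c1 hS
      generalize (L.map (rf (cc n g))).map pz = m at hS hk
      obtain ⟨a, ha, e⟩ := List.mem_map.1 (hk ▸ List.mem_map_of_mem (f := rf (cc n g)) hu0)
      have h1 := ((sl_S hS k).2.2 a ha).2
      obtain rfl : k = kk n g p := by have := h0.2; rw [← e] at this; omega
      refine ⟨p, m, mem_union_right _ hS, ?_⟩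
      rw [← (D.lift_S n p hS).2.2.1, ← hk, rf_map]
  · obtain ⟨p, a, -, h | ⟨u, h, -⟩⟩ := key _ (List.mem_map_of_mem hj)
    · obtain rfl : k = kk n g p := congrArg Prod.snd h
      exact ⟨p, m, mem_union_left _ hm, (D.lift_E n p hm).2.1⟩
    · exact absurd h.symm (D.wd.free_ne D.ext hm hj k u)

theorem FD.card_Y (D : FD E ψ W z Φ ι w g) (n : ℕ) (Y' : Finset (List (V × ℤ))) (J : Finset ℤ)
    (h : ∀ l ∈ Y', ∃ m ∈ Zf W Φ w n g, m.map (qf ι n g) = l ∧ ∃ a ∈ m, a.2 ∈ J) :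
    Y'.card ≤ W.card * 5 * J.card := by
  refine le_trans (card_le_card_of_surjOn (List.map (qf ι n g))
    (s := (Zf W Φ w n g).filter fun m => ∃ a ∈ m, a.2 ∈ J) fun l hl => ?_)
    (card_meet (c := Φ) D.cxW (fun l hl => (D.wd.hm.2.2.2.1 l hl).1) _ J fun L hL => ?_)
  · obtain ⟨m, h1, h2, h3⟩ := h l (mem_coe.1 hl)
    exact ⟨m, mem_coe.2 (mem_filter.2 ⟨h1, h3⟩), h2⟩
  · exact ⟨(mem_Up.1 (mem_filter.1 hL).1).1, (mem_filter.1 hL).2⟩

/-- A vertex that is not good has its sheet in `[-w, 0]`, `[15 n, 15 n + 15 g]` or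
`[mm, mm + w]`; `card_meet`. -/
theorem FD.card_bad (D : FD E ψ W z Φ ι w g) (n : ℕ) :
    ((Yf W Φ ι w n g).filter fun l => ∃ v ∈ l, v ∈ BadY ι n g).card ≤
      W.card * 5 * (2 * w + 15 * g + 3) := by
  refine le_trans (D.card_Y n _ (Icc (-(w : ℤ)) 0 ∪ Icc (15 * n : ℤ) (15 * n + 15 * g) ∪
    Icc (mm n g) (mm n g + w)) fun l hl => ?_) (Nat.mul_le_mul_left _ ?_)
  · obtain ⟨h1, v, hv, h2⟩ := mem_filter.1 hl
    obtain ⟨m, hm, rfl⟩ := mem_Yf.1 h1
    obtain ⟨a, ha, rfl⟩ := List.mem_map.1 hv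
    refine ⟨m, hm, rfl, a, ha, ?_⟩
    have h3 := mem_Iw.1 ((mem_Up.1 hm).2 a ha)
    by_contra hc
    simp only [mem_union, mem_Icc] at hc
    refine h2 a rfl ⟨by unfold InK; omega, fun x => ⟨?_, ?_⟩⟩
    · rintro rfl
      have : (kap ι (x, 0)).2 = 0 := rfl
      omega
    · rintro rfl
      have : (kap ι (x, 90 * n + 90 * g)).2 = (90 * n + 90 * g : ℤ) / 6 := rfl
      omega
  · refine le_trans (card_union_le _ _) (le_trans (Nat.add_le_add_right (card_union_le _ _) _) ?_)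
    simp only [Int.card_Icc]
    omega

/-- A preimage of a vertex of the component `p` lies in the sheet `kk p` or `mm - 1 - kk p`. -/
theorem FD.card_comp (D : FD E ψ W z Φ ι w g) (n : ℕ) (p : Fin (2 * n) × Fin 15) :
    ((Yf W Φ ι w n g).filter fun l => ∃ v ∈ l, ∃ a, [a] ∈ E ∪ S ∧ io ι n g p a = v).card ≤
      W.card * 5 * 2 := by
  refine le_trans (D.card_Y n _ {kk n g p, mm n g - 1 - kk n g p} fun l hl => ?_)
    (Nat.mul_le_mul_left _ card_le_two)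
  simp only [mem_filter] at hl
  obtain ⟨h1, v, hv, b, hb, h2⟩ := hl
  obtain ⟨m, hm, rfl⟩ := mem_Yf.1 h1
  obtain ⟨a, ha, e⟩ := List.mem_map.1 hv
  refine ⟨m, hm, rfl, a, ha, ?_⟩
  simp only [mem_insert, mem_singleton]
  rcases D.q_eq n (h2.trans e.symm) with h | ⟨u, -, -, ⟨h1, h2⟩ | ⟨h1, h2⟩⟩
  · exact Or.inl (by rw [← h])
  · have := (D.kap_K hb h1.symm).2.2
    have e : a.2 = (cc n g - u.2) / 6 := by rw [h2]; rfl
    simp only [cc, mm] at *
    omega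
  · have := (D.kap_K hb h2.symm).2.2
    have e : a.2 = u.2 / 6 := by rw [h1]; rfl
    simp only [rf, cc, mm] at *
    omega

end Pool.Agent.HT
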