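import Pool.Agent.Lib.MP_dae8ad_gt.H.Fold1

/-! The folded complex is a homology manifold. -/

open Finset Classical

noncomputable section

namespace Pool.Agent.HT

variable {V V' : Type}

variable {E : Finset (List A)} {ψ : A → A → ℤ} {W : Finset (List V)} {z : List V → ℤ}
  {Φ : V → V → ℤ} {ι : A → V} {w g : ℕ}

/-- A chain whose reflection is not over `N` is the reflected lift of a simplex of `S \ T`. -/
theorem hole_of {n : ℕ} {L : List (P × ℤ)} (hL : L ∈ ChZ) (h : L.map (rf (cc n g)) ∉ NZ)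
    (hh : (∀ u ∈ L, 0 ≤ u.2 ∧ u.2 ≤ 90 * n) ∨ ∀ u ∈ L, 90 * n + 90 * g ≤ u.2 ∧ u.2 ≤ cc n g) :
    ∃ p, ∃ m ∈ S, m ∉ T ∧ L = (m.map (sl (kk n g p))).map (rf (cc n g)) := by
  have c1 := chZ_rf (cc_even n g) hL
  have hN : (L.map (rf (cc n g))).map pz ∉ N := fun h' => h ⟨c1, h'⟩
  have hS : (L.map (rf (cc n g))).map pz ∈ S := by
    by_contra hc
    exact hN (mem_N.2 (Or.inl ⟨chZ_tot c1, hc⟩))
  obtain ⟨k, hk⟩ := eq_sl c1 hS
  generalize (L.map (rf (cc n g))).map pz = m at hN hS hk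
  have e : L = (m.map (sl k)).map (rf (cc n g)) := by rw [← hk, rf_map]
  obtain ⟨a, ha⟩ := List.exists_mem_of_ne_nil m (cx_S m hS).1
  have h1 := ((sl_S hS k).2.2 a ha).2
  have h2 : rf (cc n g) (sl k a) ∈ L := e ▸ List.mem_map_of_mem (List.mem_map_of_mem ha)
  obtain ⟨p, rfl⟩ := kk_surj (n := n) (g := g) (k := k) (by
    unfold InK mm
    rcases hh with hh | hh <;> have := hh _ h2 <;> simp only [rf, cc] at this <;> omega)
  exact ⟨p, m, hS, fun h => hN (mem_N.2 (Or.inr h)), e⟩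

theorem FD.out (D : FD E ψ W z Φ ι w g) (n : ℕ) {σ : List (V × ℤ)} (hσ : σ ∈ Zf W Φ w n g)
    (hg : ∃ v ∈ σ, v ∉ BadZ ι n g) (h : σ ∉ Alo W Φ ι w n g) (h' : σ ∉ Ahi W Φ ι w n g) :
    σ.map (qf ι n g) ∈ BY E ι n g ↔ σ ∈ Bf E Φ ι w n g := by
  constructor
  · intro hb
    obtain ⟨p, m, hm, e⟩ := mem_BY.1 hb
    obtain ⟨l, h1, h2⟩ := D.comp_lift n p hm
    rcases (D.gl n).uq σ hσ l (D.Bf_sub n h1) (by rw [e, h2]) with rfl | ⟨-, h3 | h3⟩
    · exact h1
    · exact absurd h3.1 h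
    · exact absurd h3.1 h'
  · intro hb
    obtain ⟨v, hv, hv'⟩ := hg
    have gd : Gd ι n g v := not_not.1 hv'
    rcases D.wd.bd_cases D.ext (mem_Up.1 hb).1 with ⟨L, hL, rfl⟩ | ⟨m, hm, -, -, k, rfl⟩
    · obtain ⟨u, hu, rfl⟩ := List.mem_map.1 hv
      rw [D.gd_kap] at gd
      have ht : ∀ u' ∈ L, |u'.2 - u.2| ≤ 1 := fun u' hu' => chZ_ht hL.1 hu' hu
      have hh : (∀ u ∈ L, 0 ≤ u.2 ∧ u.2 ≤ 90 * n) ∨
          ∀ u ∈ L, 90 * n + 90 * g ≤ u.2 ∧ u.2 ≤ cc n g := by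
        rcases gd with gd | gd
        · exact Or.inl fun u' hu' => by have := abs_le.1 (ht u' hu'); omega
        · exact Or.inr fun u' hu' => by have := abs_le.1 (ht u' hu'); omega
      have hn : L.map (rf (cc n g)) ∉ NZ := by
        intro hn
        rcases hh with hh | hh
        · exact h ((D.mem_lo n).2 ⟨L, ⟨hL, hn, hh⟩, rfl⟩)
        · refine h' ((D.mem_hi n).2 ⟨_, ⟨hn, by rwa [rf_map], fun u' hu' => ?_⟩, by rw [rf_map]⟩)
          obtain ⟨u'', h2, rfl⟩ := List.mem_map.1 hu'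
          have := hh _ h2
          simp only [rf, cc] at *
          omega
      obtain ⟨p, m, hm, -, rfl⟩ := hole_of hL.1 hn hh
      exact mem_BY.2 ⟨p, m, mem_union_right _ hm, (D.lift_S n p hm).2.2.1⟩
    · obtain ⟨a, -, rfl⟩ := List.mem_map.1 hv
      obtain ⟨p, rfl⟩ := kk_surj gd.1
      exact mem_BY.2 ⟨p, m, mem_union_left _ hm, (D.lift_E n p hm).2.1⟩

theorem map_eq_of {α β γ : Type} {f : α → γ} {g : β → γ} {h : α → β} : ∀ {L : List α} {m : List β},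
    L.map f = m.map g → (∀ u ∈ L, ∀ a ∈ m, f u = g a → a = h u) → m = L.map h
  | [], _, e, _ => by simpa using List.map_eq_nil_iff.1 e.symm
  | _ :: _, [], e, _ => by simp at e
  | u :: L, a :: m, e, H => by
    simp only [List.map_cons, List.cons.injEq] at e ⊢
    exact ⟨H u (by simp) a (by simp) e.1,
      map_eq_of e.2 fun u' hu a' ha => H u' (by simp [hu]) a' (by simp [ha])⟩

theorem sub_of_map {α β : Type} {f : α → β} (hf : Function.Injective f) {l m : List α}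
    (h : (l.map f).Sublist (m.map f)) : l.Sublist m := by
  obtain ⟨l', h1, h2⟩ := List.sublist_map_iff.1 h
  rwa [List.map_injective_iff.2 hf h2]

theorem FD.K_T (D : FD E ψ W z Φ ι w g) {m : List A} (hm : m ∈ E ∪ S) (hN : m ∈ N) : m ∈ T := by
  rcases mem_union.1 hm with h | h
  · exact D.ext.tot h (N_sub hN)
  · exact N_S hN h

theorem FD.a1 (D : FD E ψ W z Φ ι w g) (n : ℕ) {σ : List (V × ℤ)} (hσ : σ ∈ Alo W Φ ι w n g)
    (h : σ.map (qf ι n g) ∈ BY E ι n g) : Loc (St (Alo W Φ ι w n g) σ) 0 := by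
  obtain ⟨L, hL, rfl⟩ := (D.mem_lo n).1 hσ
  obtain ⟨p, m, hm, e⟩ := mem_BY.1 h
  rw [D.q_lo_map n fun u hu => (hL.2.2 u hu).2] at e
  have hg := D.gap
  have hk := kk_inK n g p
  have vm : ∀ a ∈ m, [a] ∈ E ∪ S := fun a ha => vert_mem D.ext.cxK hm ha
  obtain ⟨u0, hu0⟩ := List.exists_mem_of_ne_nil _ hL.1.1.1
  obtain ⟨a0, ha0, e0⟩ := List.mem_map.1 (e ▸ List.mem_map_of_mem (f := kap ι) hu0)
  unfold InK mm at hk
  rcases hk with hk | hk
  · have q : ∀ a, io ι n g p a = (ι a, kk n g p) := fun a => q_lo ι n g (by dsimp only; omega)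
    have em : m = L.map pz := map_eq_of e fun u _ a ha h => (D.kap_K (vm a ha) (q a ▸ h)).1
    have h0 := (D.kap_K (vm a0 ha0) (q a0 ▸ e0.symm)).2.2
    refine loc_NZ hL.1 (kap ι) D.wd.kap_inj (fun l => ?_)
      (m3_N D.ext D.wd.hm3 (em ▸ D.K_T hm (em ▸ hL.1.2)))
    rw [mem_St, D.mem_lo]
    constructor
    · rintro ⟨⟨L', h1, rfl⟩, h2⟩
      exact ⟨L', h1.1, sub_of_map D.wd.kap_inj h2, rfl⟩
    · rintro ⟨L', h1, h2, rfl⟩
      refine ⟨⟨L', ⟨h1, ?_, fun u hu => ?_⟩, rfl⟩, h2.map _⟩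
      · refine nz_of (chZ_rf (cc_even n g) h1.1) (List.mem_map_of_mem (h2.subset hu0)) ?_ ?_ <;>
          simp only [rf, cc] <;> omega
      · have := abs_le.1 (chZ_ht h1.1 hu (h2.subset hu0))
        omega
  · have q : ∀ u ∈ L, ∀ a, kap ι u = io ι n g p a → kap ι (rf (cc n g) u) = (ι a, kk n g p) := by
      intro u hu a h
      have s1 := sheet_lo ι (hL.2.2 u hu).2
      rcases D.q_cases n (ι a, kk n g p) with h1 | ⟨v, -, -, h1, h2⟩
      · have : (kap ι u).2 = kk n g p := by rw [h, io, h1]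
        omega
      · rw [D.wd.kap_inj (h.trans h2), ← h1]
    have em : m = (L.map (rf (cc n g))).map pz := by
      rw [List.map_map]
      exact map_eq_of e fun u hu a ha h => (D.kap_K (vm a ha) (q u hu a h)).1
    have h0 := (D.kap_K (vm a0 ha0) (q u0 hu0 a0 e0.symm)).2.2
    have rinj : Function.Injective (rf (cc n g)) := Function.LeftInverse.injective (rf_rf _)
    refine loc_NZ hL.2.1 (kap ι ∘ rf (cc n g)) (D.wd.kap_inj.comp rinj) (fun l => ?_)
      (m3_N D.ext D.wd.hm3 (em ▸ D.K_T hm (em ▸ hL.2.1.2)))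
    rw [mem_St, D.mem_lo]
    constructor
    · rintro ⟨⟨L', h1, rfl⟩, h2⟩
      exact ⟨_, h1.2.1, (sub_of_map D.wd.kap_inj h2).map _,
        by rw [← List.map_map, rf_map]⟩
    · rintro ⟨L', h1, h2, rfl⟩
      have h3 : L.Sublist (L'.map (rf (cc n g))) := by simpa only [rf_map] using h2.map (rf (cc n g))
      simp only [rf, cc] at h0
      refine ⟨⟨L'.map (rf (cc n g)), ⟨?_, by rwa [rf_map], fun u hu => ?_⟩, by rw [List.map_map]⟩, ?_⟩
      · refine nz_of (chZ_rf (cc_even n g) h1.1) (h3.subset hu0) ?_ ?_ <;> omega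
      · have := abs_le.1 (chZ_ht (chZ_rf (cc_even n g) h1.1) hu (h3.subset hu0))
        omega
      · rw [← List.map_map]
        exact h3.map _

theorem BY_eq (n : ℕ) : BY E ι n g = @Finset.biUnion _ _
    (@instDecidableEqList _ fun a b => propDecidable (a = b)) univ fun p => @Finset.image _ _
    (@instDecidableEqList _ fun a b => propDecidable (a = b)) (List.map (io ι n g p)) (E ∪ S) := by
  ext l
  simp only [BY, mem_biUnion, mem_image]

/-- `glue_hm`; the clause `a2` follows from `out`, the clause `lb` from `loc_copies`. -/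
theorem FD.hmY (D : FD E ψ W z Φ ι w g) (n : ℕ) {u : ℤ} (hu1 : u = 1 ∨ u = -1)
    (hu : ∀ m ∈ N, bz W z (m.map ι) = u * zTot m) :
    HM 4 (Yf W Φ ι w n g) (BY E ι n g) (BadY ι n g) (gz (Zf W Φ w n g) (qf ι n g) (zf z)) ∧
      Cy (Yf W Φ ι w n g) (BY E ι n g) (BadY ι n g) (gz (Zf W Φ w n g) (qf ι n g) (zf z)) := by
  have G := D.gl n
  have lc := loc_copies (m3_K D.ext D.wd.hm3 hu1 hu) (io ι n g) (D.io_inj n)
    (sg := fun _ => 1) (fun _ => Or.inl rfl)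
    (y := bz (Yf W Φ ι w n g) (gz (Zf W Φ w n g) (qf ι n g) (zf z)))
    fun p m hm => by rw [D.comp_bz n hu p hm, one_mul]
  rw [← BY_eq] at lc
  have sB := D.BY_sub n
  rw [Yf_eq] at lc sB ⊢
  refine glue_hm G (D.hmZ n).1 (D.hmZ n).2 (D.A_sub n).1 (D.A_sub n).2.1 (D.A_sub n).2.2 lc.1 sB
    (fun v _ => D.bad_iff n v) (fun σ h1 h2 h3 h4 => D.out n h1 h2 h3 h4)
    (fun l h1 l' h2 h3 _ => D.opp n hu h1 h2 h3) (fun σ h1 _ h2 => D.a1 n h1 h2)
    (fun σ h1 h2 h3 l hl => ?_) fun σ h _ => lc.2 σ h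
  obtain ⟨hl, hs⟩ := mem_St.1 hl
  by_contra hc
  have h0 := (G.cA σ h1).1
  obtain ⟨v, hv⟩ := List.exists_mem_of_ne_nil σ h0
  have h5 : l ∉ Ahi W Φ ι w n g := fun h =>
    disjoint_left.1 G.disj h1 ((G.cA' l h).2.2.1 σ h0 hs)
  have := (D.out n (D.Bf_sub n hl) ⟨v, hs.subset hv, h2 v hv⟩ hc h5).2 hl
  exact h3 ((lc.1 _ this).2.2.1 _ (by simpa using h0) (hs.map _))

end Pool.Agent.HT
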