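import Pool.Agent.Lib.MP_dae8ad_gt.H.Fold2

/-! The cocycle on the folded complex and its Betti numbers. -/

open Finset Classical

noncomputable section

namespace Pool.Agent.HT

variable {V V' : Type}

variable {E : Finset (List A)} {ψ : A → A → ℤ} {W : Finset (List V)} {z : List V → ℤ}
  {Φ : V → V → ℤ} {ι : A → V} {w g : ℕ}

/-- An integral cocycle on the truncated cover, normalised, with periods `y`. -/
structure ZC (W : Finset (List V)) (Φ : V → V → ℤ) (ι : A → V) (w n g : ℕ)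
    (c : V × ℤ → V × ℤ → ℤ) (y : Fin 15 → ℤ) : Prop where
  coc : Coc (Zf W Φ w n g) c
  al : ∃ al : P → P → ℤ, ∀ u v, [u, v] ∈ NZ → [kap ι u, kap ι v] ∈ Zf W Φ w n g →
    c (kap ι u) (kap ι v) = al u.1 v.1
  per : ∀ p : Fin (2 * n) × Fin 15, per (fun a b => c (ι a, kk n g p) (ι b, kk n g p)) = y p.2

/-- `gl_coc`; on each component `Ext.norm`, the period by `per_congr` and `lift_E`. -/
theorem FD.cocY (D : FD E ψ W z Φ ι w g) {n : ℕ} {c : V × ℤ → V × ℤ → ℤ} {y : Fin 15 → ℤ}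
    (h : ZC W Φ ι w n g c y) : ∃ c', Coc (Yf W Φ ι w n g) c' ∧
      (∀ u v, [u, v] ∈ Zf W Φ w n g → c' (qf ι n g u) (qf ι n g v) = c u v) ∧
      ∀ p, ∃ f : A → ℤ, ∀ a b, [a, b] ∈ E ∪ S →
        c' (io ι n g p a) (io ι n g p b) = y p.2 * ψ a b + f b - f a := by
  obtain ⟨al, hal⟩ := h.al
  obtain ⟨c', h1, h2⟩ := gl_coc (D.gl n) h.coc (by
    intro u v u' v' hl hl' e1 e2
    obtain ⟨L, hL, e, e'⟩ := D.partner n hl hl' (by simp [e1, e2])
    have z1 := (D.gl n).sA hl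
    have z2 := (D.gl n).sA' hl'
    obtain ⟨a, b, rfl⟩ := List.length_eq_two.1 (by simpa using (congrArg List.length e).symm)
    simp only [List.map_cons, List.map_nil, List.cons.injEq, and_true] at e e'
    obtain ⟨rfl, rfl⟩ := e
    obtain ⟨rfl, rfl⟩ := e'
    rw [hal _ _ hL.1 z1, hal _ _ hL.2.1 z2]
    rfl)
  rw [← Yf_eq] at h1
  refine ⟨c', h1, h2, fun p => ?_⟩
  obtain ⟨f, hf⟩ := D.ext.norm (φ := fun a b => c' (io ι n g p a) (io ι n g p b))
    fun a b d habd => h1 _ _ _ (D.BY_sub n (mem_BY.2 ⟨p, _, habd, rfl⟩))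
  refine ⟨f, fun a b hab => ?_⟩
  rw [hf a b hab, ← h.per p, per_congr (φ' := fun a b => c (ι a, kk n g p) (ι b, kk n g p))]
  intro a b hab
  exact h2 _ _ (D.Bf_sub n (D.lift_E n p (D.ext.tE hab)).1)

/-- The lower half of the boundary. -/
def Dlo (E : Finset (List A)) (Φ : V → V → ℤ) (ι : A → V) (w n g : ℕ) : Finset (List (V × ℤ)) :=
  (Bf E Φ ι w n g).filter fun l => ∀ a ∈ l, 0 ≤ a.2 ∧ (a.2 < 15 * n ∨ ∃ x, a = kap ι (x, 90 * n))

/-- The holes of `Alo` in `Dlo`. -/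
def hole (E : Finset (List A)) (ι : A → V) (n g : ℕ) (p : Fin (2 * n) × Fin 15) :
    Finset (List (V × ℤ)) :=
  (if p.1.1 < n then E \ T else S \ T).image (List.map (io ι n g p))

theorem mem_Dlo {n : ℕ} {l : List (V × ℤ)} : l ∈ Dlo E Φ ι w n g ↔ l ∈ Bf E Φ ι w n g ∧
    ∀ a ∈ l, 0 ≤ a.2 ∧ (a.2 < 15 * n ∨ ∃ x, a = kap ι (x, 90 * n)) := by
  simp only [Dlo, mem_filter]

theorem dlo_sheet {n : ℕ} {l : List (V × ℤ)} (hl : l ∈ Dlo E Φ ι w n g) {a : V × ℤ}
    (ha : a ∈ l) : a.2 ≤ 15 * n := by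
  rcases ((mem_Dlo.1 hl).2 a ha).2 with h | ⟨x, rfl⟩
  · exact h.le
  · exact sheet_lo ι le_rfl

theorem mem_hole {n : ℕ} {p : Fin (2 * n) × Fin 15} {l : List (V × ℤ)} : l ∈ hole E ι n g p ↔
    ∃ m, (if p.1.1 < n then m ∈ E else m ∈ S) ∧ m ∉ T ∧ l = m.map (io ι n g p) := by
  unfold hole
  split_ifs <;> simp only [mem_image, mem_sdiff] <;>
    exact ⟨fun ⟨m, h, e⟩ => ⟨m, h.1, h.2, e.symm⟩, fun ⟨m, h, h', e⟩ => ⟨m, ⟨h, h'⟩, e.symm⟩⟩

theorem kk_lo {n : ℕ} (p : Fin (2 * n) × Fin 15) : p.1.1 < n ↔ kk n g p < 15 * n := by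
  have := p.2.2
  unfold kk
  split_ifs <;> omega

theorem FD.dlo (D : FD E ψ W z Φ ι w g) (n : ℕ) : Cx (Dlo E Φ ι w n g) ∧
    Up ((N ∪ E).image (List.map ι)) Φ (Ico 0 (15 * n)) ⊆ Dlo E Φ ι w n g ∧
    Dlo E Φ ι w n g ⊆ Up ((N ∪ E).image (List.map ι)) Φ (Ico 0 (15 * n + 1)) ∧
    Alo W Φ ι w n g ⊆ Dlo E Φ ι w n g := by
  have cB : Cx (Bf E Φ ι w n g) := cx_Up D.wd.hm.2.1 _ _
  refine ⟨cx_of_sub cB (filter_subset _ _) fun l hl m h0 hm => ?_, fun l hl => ?_, fun l hl => ?_,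
    fun l hl => ?_⟩
  · obtain ⟨h1, h2⟩ := mem_Dlo.1 hl
    exact mem_Dlo.2 ⟨(cB l h1).2.2.1 m h0 hm, fun a ha => h2 a (hm.subset ha)⟩
  · obtain ⟨h1, h2⟩ := mem_Up.1 hl
    refine mem_Dlo.2 ⟨mem_Up.2 ⟨h1, fun a ha => ?_⟩, fun a ha => ?_⟩
    · have := mem_Ico.1 (h2 a ha)
      rw [mem_Iw]
      unfold mm
      omega
    · have := mem_Ico.1 (h2 a ha)
      exact ⟨this.1, Or.inl this.2⟩
  · obtain ⟨h1, h2⟩ := mem_Dlo.1 hl
    refine mem_Up.2 ⟨(mem_Up.1 h1).1, fun a ha => mem_Ico.2 ⟨(h2 a ha).1, ?_⟩⟩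
    have := dlo_sheet hl ha
    omega
  · refine mem_Dlo.2 ⟨(D.A_sub n).1 hl, fun a ha => ?_⟩
    obtain ⟨L, hL, rfl⟩ := (D.mem_lo n).1 hl
    obtain ⟨u, hu, rfl⟩ := List.mem_map.1 ha
    have h1 := hL.2.2 u hu
    have e : (kap ι u).2 = u.2 / 6 := rfl
    refine ⟨by omega, ?_⟩
    by_cases h : u.2 = 90 * n
    · exact Or.inr ⟨u.1, by rw [← h]⟩
    · exact Or.inl (by omega)

/-- Sketch: `bd_cases`, `lift_E`, `lift_S`, `q_lo`, as in `FD.out`. -/
theorem FD.holes (D : FD E ψ W z Φ ι w g) (n : ℕ) (l : List (V × ℤ)) :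
    (l ∈ Dlo E Φ ι w n g ∧ l ∉ Alo W Φ ι w n g) ↔ ∃ p, l ∈ hole E ι n g p := by
  have hg := D.gap
  have e : ∀ u : P × ℤ, (kap ι u).2 = u.2 / 6 := fun _ => rfl
  constructor
  · rintro ⟨h1, h2⟩
    obtain ⟨h3, h4⟩ := mem_Dlo.1 h1
    rcases D.wd.bd_cases D.ext (mem_Up.1 h3).1 with ⟨L, hL, rfl⟩ | ⟨m, hm, hT, ⟨j, hj⟩, k, rfl⟩
    · have hh : ∀ u ∈ L, 0 ≤ u.2 ∧ u.2 ≤ 90 * n := by
        intro u hu
        obtain ⟨h5, h6 | ⟨x, h6⟩⟩ := h4 _ (List.mem_map_of_mem hu)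
        · rw [e] at h5 h6
          omega
        · have : u.2 = 90 * n := congrArg Prod.snd (D.wd.kap_inj h6)
          omega
      obtain ⟨p, m, hm, hT, rfl⟩ := hole_of (g := g) hL.1
        (fun hn => h2 ((D.mem_lo n).2 ⟨L, ⟨hL, hn, hh⟩, rfl⟩)) (Or.inl hh)
      refine ⟨p, mem_hole.2 ⟨m, ?_, hT, ?_⟩⟩
      · rw [if_neg]
        · exact hm
        · obtain ⟨a, ha⟩ := List.exists_mem_of_ne_nil m (cx_S m hm).1
          have h5 := ((sl_S hm (kk n g p)).2.2 a ha).2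
          have h6 := hh _ (List.mem_map_of_mem (List.mem_map_of_mem ha))
          rw [kk_lo (g := g)]
          simp only [rf, cc] at h6
          omega
      · rw [← (D.lift_S n p hm).2.2.1, D.q_lo_map n fun u hu => (hh u hu).2]
    · obtain ⟨h5, h6 | ⟨x, h6⟩⟩ := h4 _ (List.mem_map_of_mem hj)
      · obtain ⟨p, rfl⟩ := kk_surj (n := n) (g := g) (k := k) (Or.inl ⟨h5, h6⟩)
        refine ⟨p, mem_hole.2 ⟨m, by rw [if_pos ((kk_lo p).2 h6)]; exact hm, hT, ?_⟩⟩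
        exact List.map_congr_left fun a _ => (q_lo ι n g (by dsimp only at h6 ⊢; omega)).symm
      · exact absurd h6.symm (D.wd.free_ne D.ext hm hj k _)
  · rintro ⟨p, hp⟩
    obtain ⟨m, hm, hT, rfl⟩ := mem_hole.1 hp
    have hb := inK_bound (kk_inK n g p)
    split_ifs at hm with h
    · have h' := (kk_lo (g := g) p).1 h
      obtain ⟨h1, -, h3⟩ := D.lift_E n p hm
      have : m.map (io ι n g p) = m.map fun a => (ι a, kk n g p) :=
        List.map_congr_left fun a _ => q_lo ι n g (by dsimp only; omega)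
      rw [this]
      refine ⟨mem_Dlo.2 ⟨h1, fun a ha => ?_⟩, (h3 hT).1⟩
      obtain ⟨b, -, rfl⟩ := List.mem_map.1 ha
      exact ⟨hb.1, Or.inl h'⟩
    · rw [kk_lo (g := g)] at h
      have hk := kk_inK n g p
      obtain ⟨-, h1, h2, h3⟩ := D.lift_S n p hm
      have hh : ∀ u ∈ (m.map (sl (kk n g p))).map (rf (cc n g)), 0 ≤ u.2 ∧ u.2 < 90 * n := by
        intro u hu
        obtain ⟨v, hv, rfl⟩ := List.mem_map.1 hu
        obtain ⟨a, ha, rfl⟩ := List.mem_map.1 hv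
        have := ((sl_S hm (kk n g p)).2.2 a ha).2
        simp only [rf, cc, InK, mm] at *
        omega
      rw [← h2, D.q_lo_map n fun u hu => (hh u hu).2.le]
      refine ⟨mem_Dlo.2 ⟨h1, fun a ha => ?_⟩, (h3 hT).1⟩
      obtain ⟨u, hu, rfl⟩ := List.mem_map.1 ha
      have := hh u hu
      rw [e]
      exact ⟨by omega, Or.inl (by omega)⟩

/-- Sketch: `qf` fixes the vertices of `Dlo`, so `c = c'` on its edges. `small_trunc` for the
boundary (`bd_acy`) bounds `Dlo`. `betti_ses` for `Alo ⊆ Dlo`; the complement is the disjoint union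
of the holes (`betti_biUnion`: a face of `m.map (io p)` is `m'.map (io p)`, and by `io_inj` it lies
in no other hole), and each hole is acyclic by `betti_map`, `betti_cob`, `betti_smul`,
`trans_zpow`, `Ext.small`. -/
theorem FD.smallA (D : FD E ψ W z Φ ι w g) {n : ℕ} {c : V × ℤ → V × ℤ → ℤ} {y : Fin 15 → ℤ}
    (h : ZC W Φ ι w n g c y) (hy : ∀ j, y j ≠ 0) :
    Small (Alo W Φ ι w n g) c (W.card * (1 + 2 * w)) := by
  obtain ⟨c', -, h2, h3⟩ := D.cocY h
  obtain ⟨d1, d2, d3, d4⟩ := D.dlo n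
  have hg := D.gap
  have sZ : Dlo E Φ ι w n g ⊆ Zf W Φ w n g := fun l hl => D.Bf_sub n (mem_Dlo.1 hl).1
  have cD : Coc (Dlo E Φ ι w n g) c := fun u v x hx => h.coc u v x (sZ hx)
  have sD := small_trunc D.wd.hm.2.1 (fun u v x hx => D.wd.coc u v x (D.wd.bd_sub hx))
    (bd_acy D.wd.hm D.wd.coc D.wd.small).1 (fun u v hx => D.bound u v (D.wd.bd_sub hx))
    d1 d2 d3 cD
  intro F K _ _ _ s hs
  have sq : Sq (Dlo E Φ ι w n g) c s := sq_of_cvx d1 cD cvx_self s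
  have cl := cl_sub (D.gl n).cA d4 fun l hl => (d1 l hl).1
  have b1 := (betti_ses sq cl).2.1
  have sq2 := (sq_cl sq cl).2
  have eq : @SDiff.sdiff _ (@Finset.instSDiff _
      (@instDecidableEqList _ fun a b => propDecidable (a = b))) (Dlo E Φ ι w n g)
      (Alo W Φ ι w n g) = @Finset.biUnion _ _
      (@instDecidableEqList _ fun a b => propDecidable (a = b)) univ (hole E ι n g) := by
    ext l
    simp only [mem_sdiff, mem_biUnion, mem_univ, true_and]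
    exact D.holes n l
  rw [eq] at b1 sq2
  have hK : ∀ {p : Fin (2 * n) × Fin 15} {m : List A}, (if p.1.1 < n then m ∈ E else m ∈ S) →
      m ∈ E ∪ S := by
    intro p m hm
    split_ifs at hm
    · exact mem_union_left _ hm
    · exact mem_union_right _ hm
  have same : ∀ p p' l l', l ∈ hole E ι n g p → l' ∈ hole E ι n g p' → l'.Sublist l → p' = p := by
    intro p p' l l' hl hl' hs
    obtain ⟨m, hm, -, rfl⟩ := mem_hole.1 hl
    obtain ⟨m', hm', -, rfl⟩ := mem_hole.1 hl'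
    obtain ⟨a, ha⟩ := List.exists_mem_of_ne_nil m' (D.ext.cxK m' (hK hm')).1
    obtain ⟨b, hb, e⟩ := List.mem_map.1 (hs.subset (List.mem_map_of_mem ha))
    exact (D.io_inj n p' p a b (vert_mem D.ext.cxK (hK hm') ha) (vert_mem D.ext.cxK (hK hm) hb)
      e.symm).1
  have b2 := betti_biUnion univ (hole E ι n g) sq2 (fun p _ => ⟨fun l hl => by
      simp only [mem_biUnion, mem_univ, true_and]
      exact ⟨p, hl⟩, fun l hl m hm hi => by
      simp only [mem_biUnion, mem_univ, true_and] at hm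
      obtain ⟨p', hm⟩ := hm
      rwa [← same p p' l m hl hm (inc_sublist hi).1]⟩)
    fun p _ p' _ hne => disjoint_left.2 fun l hl hl' => hne (same p' p l l hl' hl (List.Sublist.refl _))
  have b3 : ∀ p, betti (hole E ι n g p) c s = 0 := by
    intro p
    obtain ⟨f, hf⟩ := h3 p
    have sub : (if p.1.1 < n then E \ T else S \ T) ⊆ E ∪ S := by
      intro m hm
      split_ifs at hm
      · exact mem_union_left _ (mem_sdiff.1 hm).1
      · exact mem_union_right _ (mem_sdiff.1 hm).1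
    have t1 := betti_congr (φ := c) (φ' := c') d1 (S := hole E ι n g p)
      (fun l hl => ((D.holes n l).2 ⟨p, hl⟩).1) (fun u v huv => by
        have := h2 u v (sZ huv)
        rwa [q_lo ι n g (by have := dlo_sheet huv (a := u) (by simp); omega),
          q_lo ι n g (by have := dlo_sheet huv (a := v) (by simp); omega)] at this) s
    have t2 := betti_map (φ' := c') (φ := fun a b => c' (io ι n g p a) (io ι n g p b)) D.ext.cxK
      (f := io ι n g p) (fun a b ha hb e => (D.io_inj n p p a b ha hb e).2) sub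
      (fun _ _ _ => rfl) s
    have t3 := betti_cob (φ := fun a b => y p.2 * ψ a b) D.ext.cxK sub f hf s
    have t4 : betti (if p.1.1 < n then E \ T else S \ T) ψ (s ^ y p.2) = 0 := by
      split_ifs
      · exact Nat.le_zero.1 (D.ext.small.1 F K _ (trans_zpow hs (hy _)))
      · exact Nat.le_zero.1 (D.ext.small.2 F K _ (trans_zpow hs (hy _)))
    rw [← t1, ← t4, ← betti_smul, ← t3, ← t2]
    exact betti_ext fun l => by simp only [hole, mem_image]
  simp only [b3, sum_const_zero] at b2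
  have b4 := sD F K s hs
  have b5 : ((N ∪ E).image (List.map ι)).card ≤ W.card := card_le_card D.wd.bd_sub
  have e : ((15 * n + 1 - 0 : ℤ) - (15 * n - 0) + 2 * w).toNat = 1 + 2 * w := by omega
  rw [e] at b4
  have := Nat.mul_le_mul_right (1 + 2 * w) b5
  omega

end Pool.Agent.HT
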