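import Pool.Agent.Lib.MP_dae8ad_gt.H.Fold3

/-! The piece. -/

open Finset Classical

noncomputable section

namespace Pool.Agent.HT

variable {V V' : Type}

/-- Normalisation of the cocycle on the boundary components: subtract the coboundary of
`G v = f i a` for `v = ι i a`, `G v = 0` otherwise (`betti_cob`). -/
theorem norm_comp {A I : Type} {M : Finset (List A)} (hM : Cx M) {ψ : A → A → ℤ}
    {Y : Finset (List V)} (hY : Cx Y) {Φ : V → V → ℤ} (hΦ : Coc Y Φ) {c : ℕ} (hc : Small Y Φ c)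
    (ι : I → A → V) (hi : ∀ i j a b, [a] ∈ M → [b] ∈ M → ι i a = ι j b → i = j ∧ a = b)
    (wt : I → ℤ) (h : ∀ i, ∃ f : A → ℤ, ∀ a b, [a, b] ∈ M →
      Φ (ι i a) (ι i b) = wt i * ψ a b + f b - f a) :
    ∃ Φ', Coc Y Φ' ∧ Small Y Φ' c ∧ ∀ i a b, [a, b] ∈ M → Φ' (ι i a) (ι i b) = wt i * ψ a b := by
  choose f hf using h
  let G : V → ℤ := fun v =>
    if h : ∃ p : I × A, [p.2] ∈ M ∧ ι p.1 p.2 = v then -f h.choose.1 h.choose.2 else 0
  have hG : ∀ i a, [a] ∈ M → G (ι i a) = -f i a := by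
    intro i a ha
    have h : ∃ p : I × A, [p.2] ∈ M ∧ ι p.1 p.2 = ι i a := ⟨(i, a), ha, rfl⟩
    obtain ⟨h1, h2⟩ := hi _ _ _ _ h.choose_spec.1 ha h.choose_spec.2
    simp only [G]
    rw [dif_pos h, h2, h1]
  refine ⟨fun u v => Φ u v + G v - G u, fun u v x h => ?_, fun F K _ _ _ s hs => ?_,
    fun i a b hab => ?_⟩
  · dsimp only
    rw [hΦ u v x h]
    ring
  · rw [betti_cob hY (Subset.refl _) G (fun _ _ _ => rfl) s]
    exact hc F K s hs
  · dsimp only
    rw [hf i a b hab, hG i a (vert_mem hM hab (by simp)), hG i b (vert_mem hM hab (by simp))]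
    ring

variable {E : Finset (List A)} {ψ : A → A → ℤ} {W : Finset (List V)} {z : List V → ℤ}
  {Φ : V → V → ℤ} {ι : A → V} {w g : ℕ}

/-- Assembly: `hmY`, `cocY`, `norm_comp`, `gl_betti` with `small_trunc` (bound `W.card * (2 w)`)
and `smallA`, `io_inj`, `io_good`, `bad_iff`, `fullY`, `comp_bz`, `card_bad`, `card_comp`. -/
theorem FD.piece (D : FD E ψ W z Φ ι w g) {u : ℤ} (hu1 : u = 1 ∨ u = -1)
    (hu : ∀ m ∈ N, bz W z (m.map ι) = u * zTot m) {n : ℕ} {c : V × ℤ → V × ℤ → ℤ}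
    {y : Fin 15 → ℤ} (h : ZC W Φ ι w n g c y) (hy : ∀ j, y j ≠ 0) :
    Pc (E ∪ S) ψ (fun m => if m ∈ E then bz W z (m.map ι) else -u * zTot m)
      (Fin (2 * n) × Fin 15) (fun _ => 1) (fun p => y p.2)
      (W.card * 5 * (2 * w + 15 * g + 3)) (W.card * 5 * 2) := by
  obtain ⟨c', h1, h2, h3⟩ := D.cocY h
  obtain ⟨hm, hc⟩ := D.hmY n hu1 hu
  have sm : Small (Yf W Φ ι w n g) c' (W.card * 5 * (2 * w + 15 * g + 3)) := by
    intro F K _ _ _ s hs
    have b1 := gl_betti (D.gl n) h.coc (Yf_eq n ▸ h1) h2 s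
    rw [← Yf_eq] at b1
    have b2 := small_trunc D.cxW D.wd.coc D.wd.small D.bound (D.cxZ n) (Subset.refl _)
      (Subset.refl _) h.coc F K s hs
    have b3 := D.smallA h hy F K s hs
    have e : ((mm n g + w + 1 - -(w : ℤ)) - (mm n g + w + 1 - -(w : ℤ)) + 2 * w).toNat = 2 * w := by
      omega
    rw [e] at b2
    have : W.card * (2 * w) + 3 * (W.card * (1 + 2 * w)) ≤ W.card * 5 * (2 * w + 15 * g + 3) := by
      nlinarith [Nat.zero_le (W.card * w), Nat.zero_le (W.card * g), Nat.zero_le W.card]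
    omega
  obtain ⟨c'', k1, k2, k3⟩ := norm_comp D.ext.cxK hm.1 h1 sm (io ι n g) (D.io_inj n)
    (fun p => y p.2) h3
  rw [BY_eq] at hm hc
  refine ⟨V × ℤ, Yf W Φ ι w n g, _, c'', io ι n g, BadY ι n g, hm, hc, k1, D.io_inj n,
    fun p a ha hb => hb _ rfl (D.io_good n p ha), fun l hl => D.fullY n hl, k3,
    fun p m hm => by rw [D.comp_bz n hu p hm, one_mul], ?_, k2, fun p => ?_⟩
  · exact le_trans (card_le_card fun l hl => by simpa only [mem_filter] using hl) (D.card_bad n)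
  · exact le_trans (card_le_card fun l hl => by simpa only [mem_filter] using hl)
      (D.card_comp n p)

end Pool.Agent.HT
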