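import Pool.Agent.Lib.MP_dae8ad_gt.H.LocMV
import Pool.Agent.Lib.MP_dae8ad_gt.H.Ses

/-! Gluing a complex to itself. -/

open Finset Classical

noncomputable section

namespace Pool.Agent.HT

variable {V V' : Type}

variable {Y A A' : Finset (List V)} {q : V → V'}

theorem Glue0_inj : ∀ a b : List V, (∀ x ∈ a, ∀ y ∈ b, q x = q y → x = y) →
    a.map q = b.map q → a = b
  | [], _, _, h => (List.map_eq_nil_iff.1 h.symm).symm
  | _ :: _, [], _, h => absurd h (List.cons_ne_nil _ _)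
  | x :: a, y :: b, h1, h => by
    rw [List.map_cons, List.map_cons, List.cons.injEq] at h
    rw [h1 x List.mem_cons_self y List.mem_cons_self h.1,
      Glue0_inj a b (fun u hu v hv => h1 u (List.mem_cons_of_mem _ hu) v
        (List.mem_cons_of_mem _ hv)) h.2]

theorem Glue0_sub (G : Gl Y A A' q) {l a b : List V} (hl : l ∈ Y) (ha : a.Sublist l)
    (hb : b.Sublist l) (h : a.map q = b.map q) : a = b :=
  Glue0_inj a b (fun _ hx _ hy e =>
    List.inj_on_of_nodup_map (G.nd l hl) (ha.subset hx) (hb.subset hy) e) h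

theorem Glue0_up (G : Gl Y A A' q) {l k σ : List V} (hl : l ∈ Y) (hk : k.Sublist l)
    (hσ : σ.Sublist l) (h : (σ.map q).Sublist (k.map q)) : σ.Sublist k := by
  obtain ⟨τ, h1, h2⟩ := List.sublist_map_iff.mp h
  rwa [Glue0_sub G hl hσ (h1.trans hk) h2]

theorem Glue0_face {X : Finset (List V)} (hX : Cx X) {l τ : List V} (hl : l ∈ X)
    (h : τ.Sublist l) {σ : List V} (h0 : σ ≠ []) (e : σ.map q = τ.map q) : τ ∈ X :=
  (hX l hl).2.2.1 τ (fun e' => h0 (by rwa [e', List.map_nil, List.map_eq_nil_iff] at e)) h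

theorem gl_cx (G : Gl Y A A' q) : Cx (Y.image (List.map q)) := by
  intro L hL
  obtain ⟨l, hl, rfl⟩ := mem_image.mp hL
  refine ⟨by simpa using (G.cx l hl).1, G.nd l hl, fun m hm hs => ?_, fun m hm hp => ?_⟩
  · obtain ⟨k, h1, rfl⟩ := List.sublist_map_iff.mp hs
    exact mem_image_of_mem _ ((G.cx l hl).2.2.1 k (by simpa using hm) h1)
  · obtain ⟨k, hk, rfl⟩ := mem_image.mp hm
    rcases G.uq k hk l hl hp with e | e
    · rw [e]
    · exact e.1

theorem Gl.symm (G : Gl Y A A' q) : Gl Y A' A q := by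
  refine ⟨G.cx, G.cA', G.cA, G.sA', G.sA, G.disj.symm, G.nd, fun l hl l' hl' h =>
    (G.uq l hl l' hl' h).imp_right fun e => ⟨e.1, e.2.symm⟩, fun l hl => ?_, fun l hl => ?_⟩
  · obtain ⟨k, h1, h2⟩ := G.ex2 l hl
    exact ⟨k, h1, h2.symm⟩
  · obtain ⟨k, h1, h2⟩ := G.ex1 l hl
    exact ⟨k, h1, h2.symm⟩

theorem gl_inc (G : Gl Y A A' q) {l m : List V} (hl : l ∈ Y) (h : m.Sublist l) :
    inc (l.map q) (m.map q) = inc l m := by
  exact inc_map q fun i _ e => Glue0_sub G hl (List.eraseIdx_sublist l i) h e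

theorem gl_inj (G : Gl Y A A' q) {l m : List V} (hl : l ∈ Y) (hm : m ∈ Y) (hl' : l ∉ A')
    (hm' : m ∉ A') (h : l.map q = m.map q) : l = m := by
  rcases G.uq l hl m hm (List.Perm.of_eq h) with e | ⟨-, e | e⟩
  · exact e
  · exact absurd e.2 hm'
  · exact absurd e.1 hl'

theorem Glue0_fib (G : Gl Y A A' q) {l l' m : List V} (hl : l ∈ A) (hl' : l' ∈ A')
    (h : l.map q = l'.map q) (hm : m ∈ Y) (e : m.map q = l.map q) : m = l ∨ m = l' := by
  have hd := disjoint_left.mp G.disj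
  by_cases h1 : m ∈ A'
  · exact Or.inr (gl_inj G.symm hm (G.sA' hl') (fun e' => hd e' h1) (fun e' => hd e' hl')
      (e.trans h))
  · exact Or.inl (gl_inj G hm (G.sA hl) h1 (hd hl) e)

theorem gz_out (G : Gl Y A A' q) (z : List V → ℤ) {l : List V} (hl : l ∈ Y) (h : l ∉ A)
    (h' : l ∉ A') : gz Y q z (l.map q) = z l := by
  refine sum_eq_single_of_mem l (mem_filter.mpr ⟨hl, rfl⟩) fun m hm e => absurd ?_ e
  obtain ⟨h1, h2⟩ := mem_filter.mp hm
  rcases G.uq m h1 l hl (List.Perm.of_eq h2) with e | ⟨-, e | e⟩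
  · exact e
  · exact absurd e.2 h'
  · exact absurd e.2 h

theorem gz_in (G : Gl Y A A' q) (z : List V → ℤ) {l l' : List V} (hl : l ∈ A) (hl' : l' ∈ A')
    (h : l.map q = l'.map q) : gz Y q z (l.map q) = z l + z l' := by
  refine sum_eq_add_of_mem l l' (mem_filter.mpr ⟨G.sA hl, rfl⟩)
    (mem_filter.mpr ⟨G.sA' hl', h.symm⟩) (fun e => disjoint_left.mp G.disj hl (e ▸ hl'))
    fun m hm e => ?_
  obtain ⟨h1, h2⟩ := mem_filter.mp hm
  exact ((Glue0_fib G hl hl' h h1 h2).elim e.1 e.2).elim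

/-- The quotient map is a chain map: `inc (l.map q) L` is the sum of `inc l m` over the `m ∈ Y`
with `m.map q = L`. -/
theorem bz_gz (G : Gl Y A A' q) (z : List V → ℤ) :
    bz (Y.image (List.map q)) (gz Y q z) = gz Y q (bz Y z) := by
  funext L
  rw [bz_apply]
  split_ifs with hL
  swap
  · exact (sum_eq_zero fun m hm => absurd
      (mem_image.mpr ⟨m, (mem_filter.mp hm).1, (mem_filter.mp hm).2⟩) hL).symm
  have h0 := (gl_cx G L hL).1
  have h1 : ∀ l ∈ Y, inc (l.map q) L = ∑ m ∈ Y.filter fun m => m.map q = L, inc l m := by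
    intro l hl
    have h2 := Inc0_sum Y l (fun m => if m.map q = L then (1 : ℤ) else 0) fun i _ hi =>
      if_neg fun e => hi ((G.cx l hl).2.2.1 _ (fun e' => h0 (by rw [← e, e']; rfl))
        (List.eraseIdx_sublist l i))
    simp only [smul_eq_mul, mul_ite, mul_one, mul_zero] at h2
    rw [sum_filter, h2, inc, List.length_map]
    simp only [List.eraseIdx_map]
  rw [sum_image' (fun l => inc (l.map q) L * z l) fun l _ => by
    rw [gz, mul_sum]
    exact sum_congr rfl fun m hm => by rw [(mem_filter.mp hm).2]]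
  rw [gz, sum_congr rfl fun m hm => (bz_apply Y z m).trans (if_pos (mem_filter.mp hm).1),
    sum_comm]
  exact sum_congr rfl fun l hl => by rw [h1 l hl, sum_mul]

/-- On the star of `σ ∉ A'` the map `List.map q` is injective and keeps the incidence numbers.
Sketch: if `(l.eraseIdx i).map q = m.map q` with `σ ≤ l, m` and `l.eraseIdx i ≠ m`, then `m ∈ A`,
`l.eraseIdx i ∈ A'` contains a list `σ' ∈ A'` with the image of `σ`, and `l` contains two
different vertices with the same image. -/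
theorem gl_st (G : Gl Y A A' q) {σ : List V} (hσ : σ ∈ Y) (h : σ ∉ A') :
    Set.InjOn (List.map q) (St Y σ) ∧
      ∀ l ∈ St Y σ, ∀ m ∈ St Y σ, inc (l.map q) (m.map q) = inc l m := by
  have h0 := (G.cx σ hσ).1
  have h1 : Set.InjOn (List.map q) (St Y σ) := fun l hl m hm e =>
    gl_inj G (mem_St.mp hl).1 (mem_St.mp hm).1
      (fun e' => h ((G.cA' l e').2.2.1 σ h0 (mem_St.mp hl).2))
      (fun e' => h ((G.cA' m e').2.2.1 σ h0 (mem_St.mp hm).2)) e
  refine ⟨h1, fun l hl m hm => inc_map q fun i _ e => h1 ?_ hm e⟩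
  obtain ⟨h2, h3⟩ := mem_St.mp hl
  obtain ⟨h4, h5⟩ := mem_St.mp hm
  exact mem_St.mpr ⟨Glue0_face G.cx h2 (List.eraseIdx_sublist l i) (G.cx m h4).1 e.symm,
    Glue0_up G h2 (List.eraseIdx_sublist l i) h3 (e ▸ h5.map q)⟩

theorem Glue0_le (q : V → V') (σ : List V) :
    (St Y σ).image (List.map q) ⊆ St (Y.image (List.map q)) (σ.map q) := fun L hL => by
  obtain ⟨l, hl, rfl⟩ := mem_image.mp hL
  exact mem_St.mpr ⟨mem_image_of_mem _ (mem_St.mp hl).1, (mem_St.mp hl).2.map q⟩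

theorem gl_st_out (G : Gl Y A A' q) {σ : List V} (hσ : σ ∈ Y) (h : σ ∉ A) (h' : σ ∉ A') :
    (St Y σ).image (List.map q) = St (Y.image (List.map q)) (σ.map q) := by
  refine Subset.antisymm (Glue0_le q σ) fun L hL => ?_
  obtain ⟨h1, h2⟩ := mem_St.mp hL
  obtain ⟨l, hl, rfl⟩ := mem_image.mp h1
  obtain ⟨τ, h3, h4⟩ := List.sublist_map_iff.mp h2
  refine mem_image_of_mem _ (mem_St.mpr ⟨hl, ?_⟩)
  rcases G.uq σ hσ τ (Glue0_face G.cx hl h3 (G.cx σ hσ).1 h4) (List.Perm.of_eq h4) with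
    e | ⟨-, e | e⟩
  · rwa [e]
  · exact absurd e.1 h
  · exact absurd e.1 h'

theorem gl_st_in (G : Gl Y A A' q) {σ σ' : List V} (hσ : σ ∈ A) (hσ' : σ' ∈ A')
    (h : σ.map q = σ'.map q) :
    (St Y σ).image (List.map q) ∪ (St Y σ').image (List.map q) =
        St (Y.image (List.map q)) (σ.map q) ∧
      (St Y σ).image (List.map q) ∩ (St Y σ').image (List.map q) = (St A σ).image (List.map q) ∧
      Cl ((St Y σ).image (List.map q)) (St (Y.image (List.map q)) (σ.map q)) := by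
  have h0 := (G.cA σ hσ).1
  have hd := disjoint_left.mp G.disj
  refine ⟨Subset.antisymm (union_subset (Glue0_le q σ) (h ▸ Glue0_le q σ')) fun L hL => ?_,
    Subset.antisymm (fun L hL => ?_) fun L hL => ?_, Glue0_le q σ, fun L hL M hM hi => ?_⟩
  · obtain ⟨h1, h2⟩ := mem_St.mp hL
    obtain ⟨l, hl, rfl⟩ := mem_image.mp h1
    obtain ⟨τ, h3, h4⟩ := List.sublist_map_iff.mp h2
    rcases Glue0_fib G hσ hσ' h (Glue0_face G.cx hl h3 h0 h4) h4.symm with e | e
    · exact mem_union_left _ (mem_image_of_mem _ (mem_St.mpr ⟨hl, e ▸ h3⟩))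
    · exact mem_union_right _ (mem_image_of_mem _ (mem_St.mpr ⟨hl, e ▸ h3⟩))
  · obtain ⟨l, hl, rfl⟩ := mem_image.mp (mem_inter.mp hL).1
    obtain ⟨l', hl', e⟩ := mem_image.mp (mem_inter.mp hL).2
    obtain ⟨h1, h2⟩ := mem_St.mp hl
    obtain ⟨h3, h4⟩ := mem_St.mp hl'
    rcases G.uq l h1 l' h3 (List.Perm.of_eq e.symm) with e' | ⟨-, e' | e'⟩
    · exact absurd (Glue0_sub G h1 h2 (e' ▸ h4) h ▸ hσ') (hd hσ)
    · exact mem_image_of_mem _ (mem_St.mpr ⟨e'.1, h2⟩)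
    · exact absurd ((G.cA' l e'.1).2.2.1 σ h0 h2) (hd hσ)
  · obtain ⟨l, hl, rfl⟩ := mem_image.mp hL
    obtain ⟨h1, h2⟩ := mem_St.mp hl
    obtain ⟨l', h3, h4⟩ := G.ex1 l h1
    refine mem_inter.mpr ⟨mem_image_of_mem _ (mem_St.mpr ⟨G.sA h1, h2⟩),
      mem_image.mpr ⟨l', mem_St.mpr ⟨G.sA' h3, ?_⟩, h4.symm⟩⟩
    obtain ⟨τ, h5, h6⟩ := List.sublist_map_iff.mp (h4 ▸ h2.map q)
    have h7 := Glue0_face G.cA' h3 h5 h0 h6
    rcases Glue0_fib G hσ hσ' h (G.sA' h7) h6.symm with e | e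
    · exact absurd (e ▸ h7) (hd hσ)
    · exact e ▸ h5
  · obtain ⟨l, hl, rfl⟩ := mem_image.mp hL
    obtain ⟨h1, h2⟩ := mem_St.mp hl
    obtain ⟨k, h3, rfl⟩ := List.sublist_map_iff.mp (inc_sublist hi).1
    have h4 := Glue0_up G h1 h3 h2 (mem_St.mp hM).2
    exact mem_image_of_mem _ (mem_St.mpr
      ⟨(G.cx l h1).2.2.1 k (fun e => h0 (List.sublist_nil.mp (e ▸ h4))) h3, h4⟩)

theorem gl_coc (G : Gl Y A A' q) {φ : V → V → ℤ} (hφ : Coc Y φ)
    (h : ∀ u v u' v', [u, v] ∈ A → [u', v'] ∈ A' → q u = q u' → q v = q v' → φ u v = φ u' v') :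
    ∃ φ', Coc (Y.image (List.map q)) φ' ∧ ∀ u v, [u, v] ∈ Y → φ' (q u) (q v) = φ u v := by
  let φ' : V' → V' → ℤ := fun a b =>
    if e : ∃ p : V × V, [p.1, p.2] ∈ Y ∧ q p.1 = a ∧ q p.2 = b then φ e.choose.1 e.choose.2 else 0
  have h1 : ∀ u v, [u, v] ∈ Y → φ' (q u) (q v) = φ u v := fun u v huv => by
    have e : ∃ p : V × V, [p.1, p.2] ∈ Y ∧ q p.1 = q u ∧ q p.2 = q v := ⟨(u, v), huv, rfl, rfl⟩
    refine (dif_pos e).trans ?_
    obtain ⟨e1, e2, e3⟩ := e.choose_spec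
    rcases G.uq _ e1 _ huv (List.Perm.of_eq (by simp only [List.map_cons, e2, e3, List.map_nil]))
      with e' | ⟨-, e' | e'⟩
    · rw [(List.cons.inj e').1, (List.cons.inj (List.cons.inj e').2).1]
    · exact h _ _ _ _ e'.1 e'.2 e2 e3
    · exact (h _ _ _ _ e'.2 e'.1 e2.symm e3.symm).symm
  refine ⟨φ', fun a b c hL => ?_, h1⟩
  obtain ⟨l, hl, e⟩ := mem_image.mp hL
  simp only [List.map_eq_cons_iff, List.map_eq_nil_iff] at e
  obtain ⟨u, _, rfl, rfl, v, _, rfl, rfl, w, _, rfl, rfl, rfl⟩ := e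
  have h2 := (G.cx _ hl).2.2.1
  rw [h1 u w (h2 _ (by simp) (by simp)), h1 u v (h2 _ (by simp) (by simp)),
    h1 v w (h2 _ (by simp) (by simp)), hφ u v w hl]

end Pool.Agent.HT
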