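import Pool.Agent.Lib.MP_dae8ad_gt.H.Ses

/-! Semicontinuity and the generic contraction. -/

open Finset Classical

noncomputable section

namespace Pool.Agent.HT

variable {V V' : Type}

theorem Homo0_rank {F K m : Type} [Field F] [Field K] [Algebra F K] [Fintype m] [DecidableEq m]
    (P : Matrix m m (Polynomial F)) {s : K} (hs : Transcendental F s) :
    (P.map (Polynomial.evalRingHom 1)).rank ≤
      (P.map (Polynomial.aeval s : Polynomial F →ₐ[F] K).toRingHom).rank := by
  obtain ⟨A, B, e, -, -, h⟩ := Matrix.exists_rank_normal_form (P.map (Polynomial.evalRingHom 1))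
  obtain ⟨ι, hι⟩ : ∃ ι : Fin (P.map (Polynomial.evalRingHom 1)).rank → m,
      ι = fun i => e.symm (Sum.inl i) := ⟨_, rfl⟩
  obtain ⟨Q, hQ⟩ : ∃ Q, Q = (A.map Polynomial.C * P * B.map Polynomial.C).submatrix ι ι :=
    ⟨_, rfl⟩
  have hC : ∀ D : Matrix m m F, (D.map Polynomial.C).map (Polynomial.evalRingHom 1) = D := by
    intro D
    ext i j
    simp
  have h1 : Q.map (Polynomial.evalRingHom 1) = 1 := by
    rw [hQ, ← Matrix.submatrix_map, Matrix.map_mul, Matrix.map_mul, hC, hC, h, hι]
    ext i j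
    simp only [Matrix.submatrix_apply, Equiv.apply_symm_apply, Matrix.fromBlocks_apply₁₁]
  have h2 : Q.det ≠ 0 := fun h0 => by
    have h3 := RingHom.map_det (Polynomial.evalRingHom (1 : F)) Q
    rw [h0, map_zero, RingHom.mapMatrix_apply, h1, Matrix.det_one] at h3
    exact zero_ne_one h3
  have h4 : (Q.map (Polynomial.aeval s : Polynomial F →ₐ[F] K).toRingHom).det ≠ 0 := fun h0 => by
    have h3 := RingHom.map_det (Polynomial.aeval s : Polynomial F →ₐ[F] K).toRingHom Q
    rw [RingHom.mapMatrix_apply, h0] at h3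
    exact hs ⟨Q.det, h2, h3⟩
  have h5 := Matrix.rank_of_det_ne_zero h4
  rw [Fintype.card_fin, hQ, ← Matrix.submatrix_map, Matrix.map_mul, Matrix.map_mul] at h5
  rw [← h5]
  exact (Matrix.rank_submatrix_le _ _ _).trans
    ((Matrix.rank_mul_le_left _ _).trans (Matrix.rank_mul_le_right _ _))

theorem Homo0_bd {K : Type} [Field K] (S : Finset (List V)) (φ : V → V → ℤ) (s : Kˣ) :
    Module.finrank K (LinearMap.range (bd S φ s)) =
      (Matrix.of fun m l : S => (inc l.1 m.1 : K) * ((s ^ ex φ l.1 m.1 : Kˣ) : K)).rank := by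
  obtain ⟨E, hE⟩ : ∃ E : (S → K) →ₗ[K] (List V → K),
      ∀ c l, E c l = if h : l ∈ S then c ⟨l, h⟩ else 0 := by
    refine ⟨LinearMap.pi fun l => if h : l ∈ S then LinearMap.proj (⟨l, h⟩ : S) else 0,
      fun c l => ?_⟩
    rw [LinearMap.pi_apply]
    split_ifs <;> simp
  have hinj : Function.Injective E := fun c c' h => by
    funext l
    have := congrFun h l.1
    rwa [hE, hE, dif_pos l.2, dif_pos l.2] at this
  have e : bd S φ s = E ∘ₗ ((Matrix.of fun m l : S =>
      (inc l.1 m.1 : K) * ((s ^ ex φ l.1 m.1 : Kˣ) : K)).mulVecLin ∘ₗ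
        LinearMap.funLeft K K (Subtype.val : S → List V)) := by
    refine LinearMap.ext fun c => funext fun m => ?_
    rw [bd_apply, LinearMap.comp_apply, hE]
    by_cases hm : m ∈ S
    · rw [if_pos hm, dif_pos hm, ← Finset.sum_coe_sort S]
      rfl
    · rw [if_neg hm, dif_neg hm]
  rw [e, LinearMap.range_comp, LinearMap.range_comp_of_range_eq_top _
    (LinearMap.range_eq_top.2 (LinearMap.funLeft_surjective_of_injective K K _
      Subtype.val_injective))]
  exact (Submodule.equivMapOfInjective E hinj _).finrank_eq.symm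

theorem Homo0_sq {F : Type} [Field F] {S : Finset (List V)} (h0 : Sz S) :
    Sq S (fun _ _ => 0) (1 : Fˣ) := by
  intro c
  funext k
  rw [bd_apply]
  split_ifs with hk
  · have h1 : ∀ l ∈ S, ∑ m ∈ S, inc m k * inc l m = 0 := by
      intro l hl
      have h2 := congrFun (h0 (Pi.single l 1)) k
      rw [bz_apply, if_pos hk] at h2
      refine Eq.trans (Finset.sum_congr rfl fun m hm => ?_) h2
      rw [bz_apply, if_pos hm, Finset.sum_eq_single l (fun b _ hb => by simp [hb])
        (fun h => absurd hl h)]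
      simp
    have h3 : ∀ m ∈ S, (inc m k : F) * (((1 : Fˣ) ^ ex (fun _ _ : V => (0 : ℤ)) m k : Fˣ) : F) *
        bd S (fun _ _ => 0) (1 : Fˣ) c m = ∑ l ∈ S, ((inc m k * inc l m : ℤ) : F) * c l := by
      intro m hm
      rw [bd_apply, if_pos hm, Finset.mul_sum]
      refine Finset.sum_congr rfl fun l _ => ?_
      simp only [one_zpow, Units.val_one, mul_one, Int.cast_mul, mul_assoc]
    rw [Finset.sum_congr rfl h3, Finset.sum_comm]
    refine Finset.sum_eq_zero fun l hl => ?_
    rw [← Finset.sum_mul, ← Int.cast_sum, h1 l hl, Int.cast_zero, zero_mul]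
  · rfl

/-- Sketch: let `r` be the rank over `F` of the integral matrix `inc` on `S`. Choose matrices `B`,
`C` over `F` with `B * D 1 * C = 1` of size `r`. `det (B * D s * C)` is, up to a power of `s`, a
polynomial over `F` in `s` that does not vanish at `1`, so it does not vanish at a transcendental
`s`, and the rank of `D s` over `K` is `≥ r`. Use `betti_eq` twice. -/
theorem betti_semi {F K : Type} [Field F] [Field K] [Algebra F K] {S : Finset (List V)}
    {φ : V → V → ℤ} {s : Kˣ} (hs : Transcendental F (s : K)) (h : Sq S φ s) (h0 : Sz S) :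
    betti S φ s ≤ betti S (fun _ _ => 0) (1 : Fˣ) := by
  have e1 := betti_eq h
  have e2 := betti_eq (Homo0_sq (F := F) h0)
  obtain ⟨N, hN⟩ : ∃ N : ℕ, ∀ m l : S, 0 ≤ ex φ l.1 m.1 + N := by
    refine ⟨(univ : Finset (S × S)).sup fun p => (ex φ p.2.1 p.1.1).natAbs, fun m l => ?_⟩
    have := Finset.le_sup (f := fun p : S × S => (ex φ p.2.1 p.1.1).natAbs) (mem_univ (m, l))
    simp only at this
    omega
  have h1 := Homo0_rank (Matrix.of fun m l : S =>
    Polynomial.C (inc l.1 m.1 : F) * Polynomial.X ^ (ex φ l.1 m.1 + N).toNat) hs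
  have h2 : (Matrix.of fun m l : S => Polynomial.C (inc l.1 m.1 : F) *
      Polynomial.X ^ (ex φ l.1 m.1 + N).toNat).map (Polynomial.evalRingHom 1) =
      Matrix.of fun m l : S =>
        (inc l.1 m.1 : F) * (((1 : Fˣ) ^ ex (fun _ _ : V => (0 : ℤ)) l.1 m.1 : Fˣ) : F) := by
    ext m l
    simp
  have h3 : (Matrix.of fun m l : S => Polynomial.C (inc l.1 m.1 : F) *
      Polynomial.X ^ (ex φ l.1 m.1 + N).toNat).map
        (Polynomial.aeval (s : K) : Polynomial F →ₐ[F] K).toRingHom =
      (s : K) ^ N • Matrix.of fun m l : S =>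
        (inc l.1 m.1 : K) * ((s ^ ex φ l.1 m.1 : Kˣ) : K) := by
    ext m l
    have h4 : (s : K) ^ (ex φ l.1 m.1 + N).toNat = (s : K) ^ ex φ l.1 m.1 * (s : K) ^ N := by
      rw [← zpow_natCast, Int.toNat_of_nonneg (hN m l), zpow_add₀ s.ne_zero, zpow_natCast]
    simp only [Matrix.map_apply, Matrix.of_apply, Matrix.smul_apply, smul_eq_mul,
      AlgHom.toRingHom_eq_coe, RingHom.coe_coe, map_mul, map_pow, Polynomial.aeval_X,
      map_intCast, h4, Units.val_zpow_eq_zpow_val]
    ring
  rw [h2, h3, Matrix.rank_smul_of_mem_nonZeroDivisors _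
    (mem_nonZeroDivisors_of_ne_zero (pow_ne_zero _ s.ne_zero)), ← Homo0_bd, ← Homo0_bd] at h1
  omega

end Pool.Agent.HT
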