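import Pool.Agent.Lib.MP_dae8ad_gt.H.Inc0

/-! Incidence numbers and the square of the boundary operator. -/

open Finset Classical

noncomputable section

namespace Pool.Agent.HT

variable {V V' : Type}

theorem Inc_key {R : Type} [CommRing R] {X S : Finset (List V)} {φ : V → V → ℤ} (hX : Cx X)
    (hφ : Coc X φ) (hS : Cvx X S) (t : Rˣ) {l k : List V} (hl : l ∈ S) (hk : k ∈ S) :
    ∑ m ∈ S, (inc l m : R) * ((t ^ ex φ l m : Rˣ) : R) *
      ((inc m k : R) * ((t ^ ex φ m k : Rˣ) : R)) = 0 := by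
  have hk0 := (hX k (hS.1 hk)).1
  have h0 := inc_inc (k := k) (hX l (hS.1 hl)).2.1 S fun m h1 h2 => hS.2 l hl k hk m
    ((hX l (hS.1 hl)).2.2.1 m (fun h => hk0 (List.sublist_nil.1 (h ▸ h1))) h2) h1 h2
  have h1 : ∀ m ∈ S, (inc l m : R) * ((t ^ ex φ l m : Rˣ) : R) *
      ((inc m k : R) * ((t ^ ex φ m k : Rˣ) : R)) =
      ((t ^ ex φ l k : Rˣ) : R) * ((inc l m * inc m k : ℤ) : R) := by
    intro m _
    by_cases a : inc l m = 0
    · simp [a]
    by_cases b : inc m k = 0
    · simp [b]
    rw [ex_add hX hφ (hS.1 hl) hk0 (inc_sublist b).1 (inc_sublist a).1, zpow_add, Units.val_mul,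
      Int.cast_mul]
    ring
  rw [sum_congr rfl h1, ← mul_sum, ← Int.cast_sum, h0, Int.cast_zero, mul_zero]

theorem Inc_cb {R : Type} [CommRing R] {X : Finset (List V)} (hX : Cx X) (φ : V → V → ℤ)
    (t : Rˣ) (y : List V → R) {l : List V} (h : l ∈ X) (h2 : 2 ≤ l.length) :
    cb X φ t y l = ∑ i ∈ range l.length, ((-1 : ℤ) ^ i) •
      (((t ^ ex φ l (l.eraseIdx i) : Rˣ) : R) * y (l.eraseIdx i)) := by
  rw [cb_apply, if_pos h, ← sum_inc hX h h2 fun m => ((t ^ ex φ l m : Rˣ) : R) * y m]
  exact sum_congr rfl fun m _ => by rw [zsmul_eq_mul, mul_assoc]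

theorem sq_of_cvx {R : Type} [CommRing R] {X S : Finset (List V)} {φ : V → V → ℤ} (hX : Cx X)
    (hφ : Coc X φ) (hS : Cvx X S) (t : Rˣ) : Sq S φ t := by
  intro c
  funext k
  rw [bd_apply, Pi.zero_apply]
  split_ifs with hk
  · rw [sum_congr rfl fun m hm => by rw [bd_apply, if_pos hm, mul_sum], sum_comm]
    refine sum_eq_zero fun l hl => ?_
    have h := congrArg (· * c l) (Inc_key hX hφ hS t hl hk)
    simp only [zero_mul, sum_mul] at h
    exact (sum_congr rfl fun m _ => by ring).trans h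
  · rfl

theorem cb_cb {R : Type} [CommRing R] {X S : Finset (List V)} {φ : V → V → ℤ} (hX : Cx X)
    (hφ : Coc X φ) (hS : Cvx X S) (t : Rˣ) (y : List V → R) : cb S φ t (cb S φ t y) = 0 := by
  funext l
  rw [cb_apply, Pi.zero_apply]
  split_ifs with hl
  · rw [sum_congr rfl fun m hm => by rw [cb_apply, if_pos hm, mul_sum], sum_comm]
    refine sum_eq_zero fun k hk => ?_
    have h := congrArg (· * y k) (Inc_key hX hφ hS t hl hk)
    simp only [zero_mul, sum_mul] at h
    exact (sum_congr rfl fun m _ => by ring).trans h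
  · rfl

theorem sz_of_cvx {X S : Finset (List V)} (hX : Cx X) (hS : Cvx X S) : Sz S := by
  exact sq_of_cvx hX (φ := fun _ _ => 0) (fun _ _ _ _ => (add_zero _).symm) hS 1

theorem cvx_self {X : Finset (List V)} : Cvx X X := by
  exact ⟨Subset.rfl, fun _ _ _ _ _ hm _ _ => hm⟩

theorem cvx_St {X : Finset (List V)} (σ : List V) : Cvx X (St X σ) := by
  exact ⟨fun _ h => (mem_St.1 h).1,
    fun _ _ _ hk _ hm h _ => mem_St.2 ⟨hm, (mem_St.1 hk).2.trans h⟩⟩

theorem cvx_sub {X B : Finset (List V)} (hB : Cx B) (h : B ⊆ X) (hX : Cx X) : Cvx X B := by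
  exact ⟨h, fun l hl _ _ m hm _ h2 => (hB l hl).2.2.1 m (hX m hm).1 h2⟩

theorem cvx_sdiff {X B : Finset (List V)} (hB : Cx B) (hX : Cx X) : Cvx X (X \ B) := by
  refine ⟨sdiff_subset, fun _ _ k hk m hm h1 _ => mem_sdiff.2 ⟨hm, fun hb => ?_⟩⟩
  exact (mem_sdiff.1 hk).2 ((hB m hb).2.2.1 k (hX k (mem_sdiff.1 hk).1).1 h1)

/-- A subcomplex is closed under faces inside any set of nonempty lists that contains it. -/
theorem cl_sub {X B : Finset (List V)} (hB : Cx B) (h : B ⊆ X) (hX : ∀ l ∈ X, l ≠ []) :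
    Cl B X := by
  exact ⟨h, fun l hl m hm hi => (hB l hl).2.2.1 m (hX m hm) (inc_sublist hi).1⟩

theorem cl_St {X B : Finset (List V)} (hB : Cx B) (h : B ⊆ X) (hX : Cx X) (σ : List V) :
    Cl (St B σ) (St X σ) := by
  refine ⟨fun l hl => mem_St.2 ⟨h (mem_St.1 hl).1, (mem_St.1 hl).2⟩, fun l hl m hm hi => ?_⟩
  exact mem_St.2 ⟨(hB l (mem_St.1 hl).1).2.2.1 m (hX m (mem_St.1 hm).1).1 (inc_sublist hi).1,
    (mem_St.1 hm).2⟩

theorem cb_two {R : Type} [CommRing R] {X : Finset (List V)} (hX : Cx X) (φ : V → V → ℤ)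
    (t : Rˣ) (y : List V → R) {u v : V} (h : [u, v] ∈ X) :
    cb X φ t y [u, v] = ((t ^ φ u v : Rˣ) : R) * y [v] - y [u] := by
  have huv : u ≠ v := by simpa using (hX _ h).2.1
  rw [Inc_cb hX φ t y h (by simp)]
  simp [sum_range_succ, ex, huv, sub_eq_add_neg]

theorem cb_three {R : Type} [CommRing R] {X : Finset (List V)} (hX : Cx X) (φ : V → V → ℤ)
    (t : Rˣ) (y : List V → R) {u v w : V} (h : [u, v, w] ∈ X) :
    cb X φ t y [u, v, w] = ((t ^ φ u v : Rˣ) : R) * y [v, w] - y [u, w] + y [u, v] := by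
  have huv : u ≠ v := fun e => by simpa [e] using (hX _ h).2.1
  rw [Inc_cb hX φ t y h (by simp)]
  simp [sum_range_succ, ex, huv, sub_eq_add_neg]

/-- On a subcomplex the coboundary operator is the restriction. -/
theorem cb_sub {R : Type} [CommRing R] {X B : Finset (List V)} (hB : Cx B) (h : B ⊆ X)
    (hX : Cx X) (φ : V → V → ℤ) (t : Rˣ) (y : List V → R) {l : List V} (hl : l ∈ B) :
    cb B φ t y l = cb X φ t y l := by
  rw [cb_apply, cb_apply, if_pos hl, if_pos (h hl)]
  refine sum_subset h fun m hm hb => ?_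
  have : inc l m = 0 := by
    by_contra hi
    exact hb ((cl_sub hB h fun l hl => (hX l hl).1).2 l hl m hm hi)
  simp [this]

/-- The coboundary at `l` only uses the lists that are one shorter. -/
theorem cb_len {R : Type} [CommRing R] (S : Finset (List V)) (φ : V → V → ℤ) (t : Rˣ)
    (y : List V → R) (k : ℕ) (l : List V) :
    cb S φ t (fun m => if m ∈ lv S k then y m else 0) l =
      if l.length = k + 1 then cb S φ t y l else 0 := by
  rw [cb_apply, cb_apply]
  by_cases hl : l ∈ S
  · simp only [if_pos hl]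
    split_ifs with hk
    · refine sum_congr rfl fun m hm => ?_
      by_cases hi : inc l m = 0
      · simp [hi]
      · have := (inc_sublist hi).2
        rw [if_pos (show m ∈ lv S k from mem_filter.2 ⟨hm, by omega⟩)]
    · refine sum_eq_zero fun m _ => ?_
      by_cases hi : inc l m = 0
      · simp [hi]
      · have := (inc_sublist hi).2
        rw [if_neg fun h => hk (by have := (mem_filter.1 h).2; omega), mul_zero]
  · simp only [if_neg hl, ite_self]

/-- The boundary at `m` only uses the lists that are one longer. -/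
theorem bd_len {R : Type} [CommRing R] (S : Finset (List V)) (φ : V → V → ℤ) (t : Rˣ)
    (y : List V → R) (k : ℕ) (m : List V) :
    bd S φ t (fun l => if l ∈ lv S (k + 1) then y l else 0) m =
      if m.length = k then bd S φ t y m else 0 := by
  rw [bd_apply, bd_apply]
  by_cases hm : m ∈ S
  · simp only [if_pos hm]
    split_ifs with hk
    · refine sum_congr rfl fun l hl => ?_
      by_cases hi : inc l m = 0
      · simp [hi]
      · have := (inc_sublist hi).2
        rw [if_pos (show l ∈ lv S (k + 1) from mem_filter.2 ⟨hl, by omega⟩)]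
    · refine sum_eq_zero fun l _ => ?_
      by_cases hi : inc l m = 0
      · simp [hi]
      · have := (inc_sublist hi).2
        rw [if_neg fun h => hk (by have := (mem_filter.1 h).2; omega), mul_zero]
  · simp only [if_neg hm, ite_self]

/-- In a star the boundary at `m` is the boundary in the whole set. -/
theorem bz_St (X : Finset (List V)) (σ : List V) (c : List V → ℤ) {m : List V}
    (hm : m ∈ St X σ) : bz (St X σ) c m = bz X c m := by
  rw [bz_apply, bz_apply, if_pos hm, if_pos (mem_St.1 hm).1]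
  refine sum_subset (fun _ h => (mem_St.1 h).1) fun l hl hb => ?_
  have : inc l m = 0 := by
    by_contra hi
    exact hb (mem_St.2 ⟨hl, (mem_St.1 hm).2.trans (inc_sublist hi).1⟩)
  rw [this, zero_mul]

/-- `bd` and `cb` are adjoint. -/
theorem pair_bd {R : Type} [CommRing R] (S : Finset (List V)) (φ : V → V → ℤ) (t : Rˣ)
    (y c : List V → R) : ∑ m ∈ S, y m * bd S φ t c m = ∑ l ∈ S, cb S φ t y l * c l := by
  rw [sum_congr rfl fun m hm => by rw [bd_apply, if_pos hm, mul_sum], sum_comm]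
  refine sum_congr rfl fun l hl => ?_
  rw [cb_apply, if_pos hl, sum_mul]
  exact sum_congr rfl fun m _ => by ring

end Pool.Agent.HT
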