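import Pool.Agent.Lib.MP_dae8ad_gt.H.D2
import Pool.Agent.Lib.MP_dae8ad_gt.H.DefsEq

/-! Incidence numbers and the square of the boundary operator. -/

open Finset Classical

noncomputable section

namespace Pool.Agent.HT

variable {V V' : Type}

/-- A nonzero incidence number comes from an erased position. -/
theorem inc_ne {l m : List V} (h : inc l m ≠ 0) : ∃ i, i < l.length ∧ l.eraseIdx i = m := by
  obtain ⟨i, h1, h2⟩ := exists_ne_zero_of_sum_ne_zero h
  exact ⟨i, mem_range.1 h1, by_contra fun e => h2 (if_neg e)⟩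

theorem inc_sublist {l m : List V} (h : inc l m ≠ 0) :
    m.Sublist l ∧ m.length + 1 = l.length := by
  obtain ⟨i, hi, rfl⟩ := inc_ne h
  exact ⟨List.eraseIdx_sublist _ _, List.length_eraseIdx_add_one hi⟩

/-- For a list without repetition the erased position is unique. -/
theorem inc_erase {l : List V} (hl : l.Nodup) {i : ℕ} (hi : i < l.length) :
    inc l (l.eraseIdx i) = (-1) ^ i := by
  rw [inc, sum_eq_single i, if_pos rfl]
  · refine fun j _ hj => if_neg fun e => ?_
    obtain ⟨k, h1, h2, h3⟩ := List.mem_eraseIdx_iff_getElem.1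
      (e ▸ List.mem_eraseIdx_iff_getElem.2 ⟨i, hi, hj.symm, rfl⟩ : l[i] ∈ l.eraseIdx i)
    exact h2 (hl.getElem_inj_iff.1 h3)
  · exact fun h => absurd (mem_range.2 hi) h

theorem Inc0_ex {l m : List V} (h : m.Sublist l) (hm : m.length + 1 = l.length) :
    ∃ i, i < l.length ∧ l.eraseIdx i = m := by
  induction h with
  | slnil => cases hm
  | cons a h _ => exact ⟨0, Nat.succ_pos _, (h.eq_of_length (Nat.succ.inj hm)).symm⟩
  | cons_cons a h ih =>
    obtain ⟨i, hi, rfl⟩ := ih (Nat.succ.inj hm)
    exact ⟨i + 1, Nat.succ_lt_succ hi, rfl⟩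

/-- A sublist that is one shorter is a face. -/
theorem inc_of_sublist {l m : List V} (hl : l.Nodup) (h : m.Sublist l)
    (hm : m.length + 1 = l.length) : inc l m = 1 ∨ inc l m = -1 := by
  obtain ⟨i, hi, rfl⟩ := Inc0_ex h hm
  rw [inc_erase hl hi]
  exact neg_one_pow_eq_or ℤ i

theorem inc_mid {α β : List V} {v : V} (hl : (α ++ v :: β).Nodup) :
    inc (α ++ v :: β) (α ++ β) = (-1) ^ α.length := by
  have := inc_erase hl (i := α.length) (by simp)
  rwa [List.eraseIdx_append_of_length_le le_rfl, Nat.sub_self, List.eraseIdx_cons_zero] at this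

/-- Incidence numbers under a vertex map. -/
theorem inc_map (f : V → V') {l m : List V}
    (h : ∀ i, i < l.length → (l.eraseIdx i).map f = m.map f → l.eraseIdx i = m) :
    inc (l.map f) (m.map f) = inc l m := by
  rw [inc, inc, List.length_map]
  refine sum_congr rfl fun i hi => if_congr ?_ rfl rfl
  rw [List.eraseIdx_map]
  exact ⟨h i (mem_range.1 hi), congrArg _⟩

theorem Inc0_sum {G : Type} [AddCommGroup G] (S : Finset (List V)) (l : List V) (F : List V → G)
    (h : ∀ i, i < l.length → l.eraseIdx i ∉ S → F (l.eraseIdx i) = 0) :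
    ∑ m ∈ S, inc l m • F m = ∑ i ∈ range l.length, ((-1 : ℤ) ^ i) • F (l.eraseIdx i) := by
  simp only [inc, sum_smul, ite_smul, zero_smul]
  rw [sum_comm]
  refine sum_congr rfl fun i hi => ?_
  rw [sum_ite_eq]
  split_ifs with e
  · rfl
  · rw [h i (mem_range.1 hi) e, smul_zero]

/-- Sum over the faces: for `l` in a complex. Lists of length one have the empty face only. -/
theorem sum_inc {G : Type} [AddCommGroup G] {X : Finset (List V)} (hX : Cx X) {l : List V}
    (hl : l ∈ X) (h2 : 2 ≤ l.length) (F : List V → G) :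
    ∑ m ∈ X, inc l m • F m = ∑ i ∈ range l.length, ((-1 : ℤ) ^ i) • F (l.eraseIdx i) := by
  exact Inc0_sum X l F fun i _ h => absurd ((hX l hl).2.2.1 _
    (List.eraseIdx_ne_nil_iff.2 (Or.inl h2)) (List.eraseIdx_sublist _ _)) h

/-- The exponents add along flags `k ≤ m ≤ l` in a complex. -/
theorem ex_add {X : Finset (List V)} {φ : V → V → ℤ} (hX : Cx X) (hφ : Coc X φ)
    {l m k : List V} (hl : l ∈ X) (hk : k ≠ []) (h1 : k.Sublist m) (h2 : m.Sublist l) :
    ex φ l k = ex φ l m + ex φ m k := by
  obtain ⟨c, k, rfl⟩ := List.exists_cons_of_ne_nil hk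
  obtain ⟨b, m, rfl⟩ := List.exists_cons_of_ne_nil fun e : m = [] => hk (List.sublist_nil.1 (e ▸ h1))
  obtain ⟨a, l, rfl⟩ := List.exists_cons_of_ne_nil (hX l hl).1
  simp only [ex]
  by_cases e1 : a = b
  · rw [if_pos e1, e1, zero_add]
  by_cases e2 : b = c
  · rw [if_pos e2, e2, add_zero]
  have a1 := (List.cons_sublist_cons'.1 h1).resolve_right fun h => e2 h.1.symm
  have a2 := (List.cons_sublist_cons'.1 h2).resolve_right fun h => e1 h.1.symm
  have a3 : [a, b, c].Sublist (a :: l) :=
    (((((List.nil_sublist k).cons_cons c).trans a1).cons_cons b).trans a2).cons_cons a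
  have a4 : a ≠ c := fun e => by simpa [e] using a3.nodup (hX _ hl).2.1
  rw [if_neg e1, if_neg e2, if_neg a4, hφ a b c ((hX _ hl).2.2.1 _ (List.cons_ne_nil _ _) a3)]

def Inc0_D (F : List V → ℤ) (l : List V) : ℤ := ∑ i ∈ range l.length, (-1) ^ i * F (l.eraseIdx i)

theorem Inc0_cons (F : List V → ℤ) (a : V) (l : List V) :
    Inc0_D F (a :: l) = F l - Inc0_D (fun m => F (a :: m)) l := by
  simp only [Inc0_D, List.length_cons, sum_range_succ', List.eraseIdx_cons_succ,
    List.eraseIdx_cons_zero, pow_succ, mul_neg, neg_mul, sum_neg_distrib, mul_one, pow_zero, one_mul]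
  ring

theorem Inc0_DD (l : List V) : ∀ F : List V → ℤ, Inc0_D (Inc0_D F) l = 0 := by
  induction l with
  | nil => exact fun _ => rfl
  | cons a l ih =>
    intro F
    have := ih fun m => F (a :: m)
    rw [Inc0_cons, funext (Inc0_cons F a)]
    rw [Inc0_D] at this
    simp only [Inc0_D.eq_1 _ l, mul_sub, sum_sub_distrib, this]
    ring

/-- The simplicial identity: `∑ m, [l : m] [m : k] = 0`, the sum over any finite set that
contains the lists between `k` and `l`. -/
theorem inc_inc {l k : List V} (hl : l.Nodup) (S : Finset (List V))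
    (hS : ∀ m, k.Sublist m → m.Sublist l → m ∈ S) : ∑ m ∈ S, inc l m * inc m k = 0 := by
  have e : ∀ m, inc m k = Inc0_D (fun m => if m = k then 1 else 0) m := fun m => by
    simp only [inc, Inc0_D, mul_ite, mul_one, mul_zero]
  refine (Inc0_sum S l (inc · k) fun i _ h => by_contra fun e =>
    h (hS _ (inc_sublist e).1 (List.eraseIdx_sublist _ _))).trans ?_
  simp only [e]
  exact Inc0_DD l _

end Pool.Agent.HT
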