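import Pool.Agent.Lib.MP_dae8ad_gt.H.LocMV0

/-! Mayer-Vietoris type lemmas for local homology. A chain on a subset is extended by zero. -/

open Finset Classical

noncomputable section

namespace Pool.Agent.HT

variable {V V' : Type}

/-- A boundary vanishes at a list that has no longer list above it. -/
theorem LocMV_top {S : Finset (List V)} (b : List V → ℤ) {m : List V}
    (hl : ∀ l ∈ S, l.length ≤ m.length) : bz S b m = 0 := by
  rw [bz_apply]
  split_ifs
  · refine Finset.sum_eq_zero fun l hl' => ?_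
    by_cases h : inc l m = 0
    · rw [h, zero_mul]
    · have h1 := (inc_sublist h).2
      have h2 := hl l hl'
      omega
  · rfl

/-- The boundary of a chain in length `n + 1` lives in length `n`. -/
theorem LocMV_len {S : Finset (List V)} {y : List V → ℤ} {n : ℕ}
    (hy : ∀ l ∈ S, l.length ≠ n + 1 → y l = 0) {m : List V} (hm : m.length ≠ n) :
    bz S y m = 0 := by
  rw [bz_apply]
  split_ifs
  · refine Finset.sum_eq_zero fun l hl' => ?_
    by_cases h : inc l m = 0
    · rw [h, zero_mul]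
    · have h1 := (inc_sublist h).2
      rw [hy l hl' (by omega), mul_zero]
  · rfl

/-- A chain that vanishes on `S \ S0` has the same boundary on `S0`. -/
theorem LocMV_res {S S0 : Finset (List V)} (h : S0 ⊆ S) {c : List V → ℤ}
    (hc : ∀ l ∈ S, l ∉ S0 → c l = 0) {m : List V} (hm : m ∈ S0) : bz S0 c m = bz S c m := by
  rw [bz_apply, bz_apply, if_pos hm, if_pos (h hm)]
  refine Finset.sum_subset h fun l hl hl0 => ?_
  rw [hc l hl hl0, mul_zero]

/-- The boundary only depends on the values on `S`. -/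
theorem LocMV_congr {S : Finset (List V)} {c c' : List V → ℤ} (h : ∀ l ∈ S, c l = c' l)
    (m : List V) : bz S c m = bz S c' m := by
  rw [bz_apply, bz_apply]
  split_ifs
  · exact Finset.sum_congr rfl fun l hl => by rw [h l hl]
  · rfl

theorem LocMV_off {S : Finset (List V)} (c : List V → ℤ) {m : List V} (hm : m ∉ S) :
    bz S c m = 0 := by
  rw [bz_apply, if_neg hm]

/-- If all lists of `S` have the same length then the generator is a unit at every list. -/
theorem LocMV_one {S : Finset (List V)} {z : List V → ℤ} (h : Loc S z) {ρ : List V}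
    (hρ : ρ ∈ S) (hl : ∀ l ∈ S, l.length = ρ.length) : ∃ k : ℤ, 1 = k * z ρ := by
  have h0 : ∀ b, bz S b = 0 := by
    intro b
    funext m
    by_cases hm : m ∈ S
    · exact LocMV_top b fun l hl' => by rw [hl l hl', hl m hm]
    · exact LocMV_off b hm
  obtain ⟨b, k, hk⟩ := h.2 (fun _ => 1) (h0 _)
  refine ⟨k, ?_⟩
  have h1 := hk ρ hρ
  rw [h0 b] at h1
  simpa using h1

/-- Off the boundary the boundary of the orientation vanishes. -/
theorem LocMV_int {X : Finset (List V)} {z : List V → ℤ} {m : List V}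
    (h : m ∈ X → Loc (St X m) z) : bz X z m = 0 := by
  by_cases hm : m ∈ X
  · have h1 : m ∈ St X m := mem_St.2 ⟨hm, List.Sublist.refl _⟩
    rw [← bz_St X m z h1, (h hm).1]
    rfl
  · exact LocMV_off z hm

theorem LocMV_unit {k a : ℤ} (h : 1 = k * a) : |a| = 1 := by
  rcases Int.eq_one_or_neg_one_of_mul_eq_one' h.symm with h1 | h1
  · rw [h1.2, abs_one]
  · rw [h1.2, abs_neg, abs_one]

theorem LocMV_unit' {k a : ℤ} (h : |k * a| = 1) : k = 1 ∨ k = -1 := by
  rw [abs_mul] at h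
  have h1 := Int.eq_one_of_mul_eq_one_right (abs_nonneg k) h
  exact (abs_eq (by norm_num)).1 h1

theorem LocMV_top_gen {S : Finset (List V)} {z y : List V → ℤ} {n : ℕ}
    (hl : ∀ l ∈ S, l.length ≤ n) (h : Loc S z) (hz : ∀ l ∈ S, l.length ≠ n → z l = 0)
    (hy : ∀ l ∈ S, l.length ≠ n → y l = 0) (hc : bz S y = 0) :
    ∃ k : ℤ, ∀ l ∈ S, y l = k * z l := by
  obtain ⟨b, k, hk⟩ := h.2 y hc
  refine ⟨k, fun l hl' => ?_⟩
  by_cases hn : l.length = n
  · rw [hk l hl', LocMV_top b (fun l' h' => hn ▸ hl l' h'), zero_add]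
  · rw [hy l hl' hn, hz l hl' hn, mul_zero]

/-- A relative top cycle is a multiple of the relative fundamental cycle. Sketch: `∂ y` is a cycle
on `S0` supported on lists of length `n`, so it is `k ∂ z` there (no list of length `n + 1` in
`S0`, and `∂ z` vanishes off length `n`); `y - k z` is a cycle of `S`, so a boundary, and it lives
in the top length. -/
theorem rel_gen {S S0 : Finset (List V)} {z y : List V → ℤ} {n : ℕ} (hS : Sz S) (c0 : Cl S0 S)
    (hl : ∀ l ∈ S, l.length ≤ n + 1) (hl0 : ∀ l ∈ S0, l.length ≤ n) (h : Loc S 0)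
    (h0 : Loc S0 (bz S z)) (hz : ∀ l ∈ S, l.length ≠ n + 1 → z l = 0)
    (hy : ∀ l ∈ S, l.length ≠ n + 1 → y l = 0) (hzs : ∀ m ∈ S, m ∉ S0 → bz S z m = 0)
    (hys : ∀ m ∈ S, m ∉ S0 → bz S y m = 0) : ∃ k : ℤ, ∀ l ∈ S, y l = k * z l := by
  have hc : bz S0 (bz S y) = 0 := by
    funext m
    by_cases hm : m ∈ S0
    · rw [LocMV_res c0.1 hys hm, hS y]
    · exact LocMV_off _ hm
  obtain ⟨k, hk⟩ := LocMV_top_gen hl0 h0 (fun l _ hn => LocMV_len hz hn)
    (fun l _ hn => LocMV_len hy hn) hc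
  have hc2 : bz S (y - k • z) = 0 := by
    funext m
    rw [map_sub, map_smul, Pi.sub_apply, Pi.smul_apply, smul_eq_mul, Pi.zero_apply]
    by_cases hm : m ∈ S
    · by_cases hm0 : m ∈ S0
      · rw [hk m hm0, sub_self]
      · rw [hys m hm hm0, hzs m hm hm0, mul_zero, sub_self]
    · rw [LocMV_off _ hm, LocMV_off _ hm, mul_zero, sub_self]
  obtain ⟨b, k', hb⟩ := h.2 _ hc2
  refine ⟨k, fun l hl' => ?_⟩
  by_cases hn : l.length = n + 1
  · have h1 := hb l hl'
    rw [LocMV_top b (fun l' h' => hn ▸ hl l' h'), Pi.sub_apply, Pi.smul_apply, smul_eq_mul,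
      Pi.zero_apply] at h1
    linarith
  · rw [hy l hl' hn, hz l hl' hn, mul_zero]

/-- A top cycle is a multiple of the generator. -/
theorem top_gen {S : Finset (List V)} {z y : List V → ℤ} {n : ℕ}
    (hl : ∀ l ∈ S, l.length ≤ n) (h : Loc S z) (hz : ∀ l ∈ S, l.length ≠ n → z l = 0)
    (hy : ∀ l ∈ S, l.length ≠ n → y l = 0) (hc : bz S y = 0) :
    ∃ k : ℤ, ∀ l ∈ S, y l = k * z l := by
  exact LocMV_top_gen hl h hz hy hc

/-- An acyclic face-closed subset can be removed. -/
theorem loc_quot {S S1 : Finset (List V)} {z : List V → ℤ} (hS : Sz S) (c1 : Cl S1 S)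
    (h1 : Loc S1 0) (hz : bz S z = 0) (h2 : Loc (S \ S1) z) : Loc S z := by
  refine ⟨hz, fun c hc => ?_⟩
  have hq : ∀ (e : List V → ℤ), ∀ m ∈ S \ S1, bz (S \ S1) e m = bz S e m := by
    intro e m hm
    rw [bz_apply, bz_apply, if_pos hm, if_pos (mem_sdiff.1 hm).1]
    refine Finset.sum_subset sdiff_subset fun l hl hl0 => ?_
    have hl1 : l ∈ S1 := by
      by_contra h'
      exact hl0 (mem_sdiff.2 ⟨hl, h'⟩)
    by_cases hi : inc l m = 0
    · rw [hi, zero_mul]
    · exact absurd (c1.2 l hl1 m (mem_sdiff.1 hm).1 hi) (mem_sdiff.1 hm).2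
  have hc1 : bz (S \ S1) c = 0 := by
    funext m
    by_cases hm : m ∈ S \ S1
    · rw [hq c m hm, hc]
    · exact LocMV_off _ hm
  obtain ⟨b, k, hb⟩ := h2.2 c hc1
  have hd0 : ∀ l ∈ S, l ∉ S1 → (c - bz S b - k • z) l = 0 := by
    intro l hl hl1
    have hm : l ∈ S \ S1 := mem_sdiff.2 ⟨hl, hl1⟩
    rw [Pi.sub_apply, Pi.sub_apply, Pi.smul_apply, smul_eq_mul, hb l hm, hq b l hm]
    ring
  have hd : bz S1 (c - bz S b - k • z) = 0 := by
    funext m
    by_cases hm : m ∈ S1
    · rw [LocMV_res c1.1 hd0 hm, map_sub, map_sub, map_smul, hc, hS b, hz]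
      simp
    · exact LocMV_off _ hm
  obtain ⟨e, k', he⟩ := h1.2 _ hd
  refine ⟨b + fun l => if l ∈ S1 then e l else 0, k, fun m hm => ?_⟩
  rw [map_add, Pi.add_apply]
  by_cases hm1 : m ∈ S1
  · have h3 := he m hm1
    rw [Pi.sub_apply, Pi.sub_apply, Pi.smul_apply, smul_eq_mul, Pi.zero_apply] at h3
    rw [← LocMV_res (c := fun l => if l ∈ S1 then e l else 0) c1.1
      (fun l _ hl => if_neg hl) hm1,
      LocMV_congr (c := fun l => if l ∈ S1 then e l else 0) (c' := e)
        (fun l hl => if_pos hl) m]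
    linarith
  · have h3 := hd0 m hm hm1
    rw [Pi.sub_apply, Pi.sub_apply, Pi.smul_apply, smul_eq_mul] at h3
    have h4 : bz S (fun l => if l ∈ S1 then e l else 0) m = 0 := by
      rw [bz_apply, if_pos hm]
      refine Finset.sum_eq_zero fun l _ => ?_
      by_cases hl1 : l ∈ S1
      · by_cases hi : inc l m = 0
        · rw [hi, zero_mul]
        · exact absurd (c1.2 l hl1 m hm hi) hm1
      · rw [if_neg hl1, mul_zero]
    rw [h4]
    linarith

/-- In a homology manifold without singular set the boundary is pure and the boundary of the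
orientation is `±1` on its top simplices and `0` elsewhere. Sketch: a maximal simplex `ρ` of `B`
has `St B ρ = {ρ}`; for `σ ∈ B` of length `n` the star consists of `σ` and lists of length
`n + 1`. -/
theorem hm_bd {n : ℕ} {X B : Finset (List V)} {z : List V → ℤ} (h : HM n X B ∅ z) :
    HM (n - 1) B ∅ ∅ (bz X z) ∧ (∀ l ∈ B, l.length ≤ n) ∧ ∀ m, m ∉ B → bz X z m = 0 := by
  obtain ⟨hX, hB, hBX, hd, hs⟩ := h
  have hs' : ∀ σ ∈ B, Loc (St X σ) 0 ∧ Loc (St B σ) (bz X z) := by
    intro σ hσ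
    have h1 := (hs σ (hBX hσ) (fun v _ => Set.notMem_empty v)).2
    rwa [if_pos hσ] at h1
  have hlen : ∀ l ∈ B, l.length ≤ n := by
    intro l hl
    by_contra hn
    have h1 := (hd l (hBX hl)).1
    obtain ⟨k, hk⟩ := LocMV_one (hs' l hl).1 (ρ := l) (mem_St.2 ⟨hBX hl, List.Sublist.refl _⟩)
      (fun l' h' => by
        have h2 := (hd l' (mem_St.1 h').1).1
        have h3 := (mem_St.1 h').2.length_le
        omega)
    simp at hk
  have hzl : ∀ l ∈ X, l.length ≠ n + 1 → z l = 0 := by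
    intro l hl hn
    have h1 := (hd l hl).2
    rwa [if_neg hn, abs_eq_zero] at h1
  have hpos : ∀ l ∈ B, n - 1 + 1 = n := by
    intro l hl
    have h1 := hlen l hl
    have h2 : 0 < l.length := List.length_pos_iff.2 (hB l hl).1
    omega
  refine ⟨⟨hB, fun l hl => absurd hl (notMem_empty l), empty_subset _, fun l hl => ?_,
    fun σ hσ _ => ?_⟩, hlen, fun m hm => ?_⟩
  · rw [hpos l hl]
    refine ⟨hlen l hl, ?_⟩
    split_ifs with hn
    · obtain ⟨k, hk⟩ := LocMV_one (hs' l hl).2 (ρ := l) (mem_St.2 ⟨hl, List.Sublist.refl _⟩)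
        (fun l' h' => by
          have h2 := hlen l' (mem_St.1 h').1
          have h3 := (mem_St.1 h').2.length_le
          omega)
      exact LocMV_unit hk
    · rw [LocMV_len hzl hn, abs_zero]
  · rw [hpos σ hσ, if_neg (notMem_empty σ)]
    refine ⟨?_, (hs' σ hσ).2⟩
    obtain ⟨ρ, hρ, hmax⟩ := Finset.exists_max_image (St B σ) List.length
      ⟨σ, mem_St.2 ⟨hσ, List.Sublist.refl _⟩⟩
    refine ⟨ρ, hρ, ?_⟩
    have hρB := (mem_St.1 hρ).1
    obtain ⟨k, hk⟩ := LocMV_one (hs' ρ hρB).2 (ρ := ρ) (mem_St.2 ⟨hρB, List.Sublist.refl _⟩)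
      (fun l' h' => by
        have h2 := hmax l' (mem_St.2 ⟨(mem_St.1 h').1, (mem_St.1 hρ).2.trans (mem_St.1 h').2⟩)
        have h3 := (mem_St.1 h').2.length_le
        omega)
    by_contra hn
    rw [LocMV_len hzl hn] at hk
    simp at hk
  · refine LocMV_int fun hmX => ?_
    have h1 := (hs m hmX (fun v _ => Set.notMem_empty v)).2
    rwa [if_neg hm] at h1

/-- The orientation of the boundary may be given by any chain `w`. Sketch: for `σ ∈ B` the chain
`bz X z` is a cycle on `St B σ` of top length, so it is `k w` there by `top_gen`; at a list `τ` of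
length `n` in `B` above `σ` acyclicity of `St X τ` gives `bz X z τ = ±1`. -/
theorem hm_of {n : ℕ} {X B : Finset (List V)} {z w : List V → ℤ} (hX : Cx X) (hB : B ⊆ X)
    (hd : ∀ l ∈ X, l.length ≤ n + 2 ∧ |z l| = if l.length = n + 2 then 1 else 0)
    (hp : ∀ σ ∈ X, ∃ l ∈ St X σ, l.length = n + 2) (hw : HM n B ∅ ∅ w)
    (hi : ∀ σ ∈ X, σ ∉ B → Loc (St X σ) z) (hb : ∀ σ ∈ B, Loc (St X σ) 0) :
    HM (n + 1) X B ∅ z := by
  obtain ⟨hcB, -, -, hwd, hws⟩ := hw
  refine ⟨hX, hcB, hB, hd, fun σ hσ _ => ⟨hp σ hσ, ?_⟩⟩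
  split_ifs with hσB
  swap
  · exact hi σ hσ hσB
  refine ⟨hb σ hσB, ?_⟩
  obtain ⟨⟨τ, hτ, hτl⟩, hw2⟩ := hws σ hσB (fun v _ => Set.notMem_empty v)
  rw [if_neg (notMem_empty σ)] at hw2
  have hzl : ∀ l ∈ X, l.length ≠ n + 1 + 1 → z l = 0 := by
    intro l hl hn
    have h1 := (hd l hl).2
    rwa [if_neg hn, abs_eq_zero] at h1
  have hoff : ∀ m ∈ X, m ∉ B → bz X z m = 0 := fun m _ hm =>
    LocMV_int fun hmX => hi m hmX hm
  have hc : bz (St B σ) (bz X z) = 0 := by
    funext m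
    by_cases hm : m ∈ St B σ
    · rw [bz_St B σ _ hm, LocMV_res hB hoff (mem_St.1 hm).1, sz_of_cvx hX cvx_self z]
    · exact LocMV_off _ hm
  obtain ⟨k, hk⟩ := LocMV_top_gen (n := n + 1) (fun l hl => (hwd l (mem_St.1 hl).1).1) hw2
    (fun l hl hn => by
      have h1 := (hwd l (mem_St.1 hl).1).2
      rwa [if_neg hn, abs_eq_zero] at h1)
    (fun l _ hn => LocMV_len hzl hn) hc
  have hτB := (mem_St.1 hτ).1
  have hττ : τ ∈ St X τ := mem_St.2 ⟨hB hτB, List.Sublist.refl _⟩
  have hcase : ∀ m ∈ St X τ, m = τ ∨ m.length = n + 2 := by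
    intro m hm
    by_cases h1 : m.length = n + 2
    · exact Or.inr h1
    · have h2 := (hd m (mem_St.1 hm).1).1
      exact Or.inl ((mem_St.1 hm).2.eq_of_length_le (by omega)).symm
  have htop : ∀ (b : List V → ℤ), ∀ m : List V, m.length = n + 2 → bz (St X τ) b m = 0 :=
    fun b m hm => LocMV_top b fun l hl => hm ▸ (hd l (mem_St.1 hl).1).1
  have hc1 : bz (St X τ) (fun l => if l = τ then 1 else 0) = 0 := by
    funext m
    by_cases hm : m ∈ St X τ
    · refine LocMV_len (n := n) (fun l _ hl => if_neg fun h' => hl (h' ▸ hτl)) ?_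
      have h3 := (mem_St.1 hm).2.length_le
      omega
    · exact LocMV_off _ hm
  obtain ⟨b, k1, hb1⟩ := (hb τ hτB).2 _ hc1
  have hbτ : bz (St X τ) b τ = 1 := by
    have h1 := hb1 τ hττ
    simp at h1
    exact h1.symm
  have hc2 : bz (St X τ) (z - bz X z τ • b) = 0 := by
    funext m
    by_cases hm : m ∈ St X τ
    · rcases hcase m hm with h1 | h1
      · rw [h1, map_sub, map_smul, Pi.sub_apply, Pi.smul_apply, smul_eq_mul, hbτ,
          bz_St X τ z hττ, mul_one, sub_self, Pi.zero_apply]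
      · exact htop _ m h1
    · exact LocMV_off _ hm
  obtain ⟨b2, k2, hb2⟩ := (hb τ hτB).2 _ hc2
  obtain ⟨l, hl, hll⟩ := hp τ (hB hτB)
  have h1 := hb2 l hl
  rw [htop b2 l hll, Pi.sub_apply, Pi.smul_apply, smul_eq_mul, Pi.zero_apply, hk τ hτ] at h1
  have h2 := (hd l (mem_St.1 hl).1).2
  rw [if_pos hll] at h2
  have h3 : z l = k * (w τ * b l) := by linarith
  rw [h3] at h2
  exact loc_congr k (LocMV_unit' h2) hk hw2

end Pool.Agent.HT
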