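import Pool.Agent.Lib.MP_dae8ad_gt.H.Tr

/-! Mayer-Vietoris type lemmas for local homology. A chain on a subset is extended by zero. -/

open Finset Classical

noncomputable section

namespace Pool.Agent.HT

variable {V V' : Type}

theorem LocMV0_surj {α : Type} (M : α → α → ℤ) (wt : α → ℤ) (T : Finset α) :
    (∀ a ∈ T, M a a = 1 ∨ M a a = -1) →
    (∀ a ∈ T, ∀ a' ∈ T, a ≠ a' → M a a' ≠ 0 → wt a < wt a') →
    ∀ c : α → ℤ, ∃ β : α → ℤ, ∀ a ∈ T, ∑ a' ∈ T, M a a' * β a' = c a := by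
  induction T using Finset.induction_on_max_value wt with
  | empty => exact fun _ _ _ => ⟨0, by simp⟩
  | insert a₀ T h0 hm ih =>
    intro h1 h2 c
    obtain ⟨β, hβ⟩ := ih (fun a ha => h1 a (mem_insert_of_mem ha))
      (fun a ha a' ha' => h2 a (mem_insert_of_mem ha) a' (mem_insert_of_mem ha'))
      fun a => c a - M a a₀ * (M a₀ a₀ * c a₀)
    refine ⟨Function.update β a₀ (M a₀ a₀ * c a₀), fun a ha => ?_⟩
    have e : ∑ a' ∈ T, M a a' * Function.update β a₀ (M a₀ a₀ * c a₀) a' =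
        ∑ a' ∈ T, M a a' * β a' := sum_congr rfl fun a' ha' => by
      rw [Function.update_of_ne fun h : a' = a₀ => h0 (h ▸ ha')]
    rw [sum_insert h0, Function.update_self, e]
    rcases mem_insert.1 ha with rfl | ha
    · rw [sum_eq_zero fun a' ha' => by
        by_contra hn
        exact absurd (h2 a ha a' (mem_insert_of_mem ha') (fun h => h0 (h ▸ ha'))
          (left_ne_zero_of_mul hn)) (not_lt.2 (hm a' ha'))]
      rcases h1 a ha with h | h <;> rw [h] <;> ring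
    · rw [hβ a ha]
      ring

theorem LocMV0_inj {α : Type} (M : α → α → ℤ) (wt : α → ℤ) (T : Finset α)
    (h1 : ∀ a ∈ T, M a a = 1 ∨ M a a = -1)
    (h2 : ∀ a ∈ T, ∀ a' ∈ T, a ≠ a' → M a a' ≠ 0 → wt a < wt a') (β : α → ℤ)
    (h : ∀ a ∈ T, ∑ a' ∈ T, M a a' * β a' = 0) : ∀ a ∈ T, β a = 0 := by
  by_contra hn
  push Not at hn
  obtain ⟨a₁, ha₁, hb₁⟩ := hn
  obtain ⟨a, ha, hm⟩ := exists_max_image (T.filter fun a => β a ≠ 0) wt
    ⟨a₁, mem_filter.2 ⟨ha₁, hb₁⟩⟩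
  obtain ⟨ha, hb⟩ := mem_filter.1 ha
  have e := h a ha
  rw [sum_eq_single_of_mem a ha fun a' ha' hne => by
    by_contra hn
    exact absurd (h2 a ha a' ha' hne.symm (left_ne_zero_of_mul hn))
      (not_lt.2 (hm a' (mem_filter.2 ⟨ha', right_ne_zero_of_mul hn⟩)))] at e
  rcases h1 a ha with h | h <;> rw [h] at e <;> omega

theorem LocMV0_congr {S : Finset (List V)} {c c' : List V → ℤ} (h : ∀ l ∈ S, c l = c' l) :
    bz S c = bz S c' := by
  funext m
  rw [bz_apply, bz_apply, sum_congr rfl fun l hl => by rw [h l hl]]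

theorem LocMV0_out (S : Finset (List V)) (c : List V → ℤ) {m : List V} (h : m ∉ S) :
    bz S c m = 0 := by
  rw [bz_apply, if_neg h]

theorem LocMV0_sub {T S : Finset (List V)} (hc : Cl T S) {c : List V → ℤ}
    (h : ∀ l, l ∉ T → c l = 0) : bz S c = bz T c := by
  funext m
  rw [bz_apply, bz_apply, ← sum_subset hc.1 fun l _ hl => by rw [h l hl, mul_zero]]
  by_cases hT : m ∈ T
  · rw [if_pos hT, if_pos (hc.1 hT)]
  · rw [if_neg hT]
    split_ifs with hm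
    · refine sum_eq_zero fun l hl => ?_
      by_contra hn
      exact hT (hc.2 l hl m hm (left_ne_zero_of_mul hn))
    · rfl

theorem LocMV0_sup {T S : Finset (List V)} (hc : Cl T S) {c : List V → ℤ}
    (h : ∀ l, l ∉ T → c l = 0) {m : List V} (hm : m ∉ T) : bz S c m = 0 := by
  rw [LocMV0_sub hc h, LocMV0_out T c hm]

theorem LocMV0_use {T S : Finset (List V)} (hc : Cl T S) {w c : List V → ℤ} (h : Loc T w)
    (hw : ∀ l, l ∉ T → w l = 0) (h0 : ∀ l, l ∉ T → c l = 0) (hd : bz S c = 0) :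
    ∃ b : List V → ℤ, ∃ k : ℤ, (∀ l, l ∉ T → b l = 0) ∧ c = bz S b + k • w := by
  obtain ⟨b, k, e⟩ := h.2 c (LocMV0_sub hc h0 ▸ hd)
  have hb : ∀ l, l ∉ T → (fun l => if l ∈ T then b l else 0) l = 0 := fun l hl => if_neg hl
  refine ⟨_, k, hb, funext fun m => ?_⟩
  rw [LocMV0_sub hc hb, LocMV0_congr (c' := b) fun l hl => if_pos hl, Pi.add_apply,
    Pi.smul_apply, smul_eq_mul]
  by_cases hm : m ∈ T
  · exact e m hm
  · rw [h0 m hm, hw m hm, LocMV0_out T b hm, mul_zero, add_zero]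

theorem LocMV0_split {S S1 S2 : Finset (List V)} (hU : ∀ l ∈ S, l ∈ S1 ∨ l ∈ S2)
    (c : List V → ℤ) : ∃ a b : List V → ℤ, (∀ l, l ∉ S1 → a l = 0) ∧ (∀ l, l ∉ S2 → b l = 0) ∧
      (∀ l ∈ S1, a l = c l) ∧ (∀ l ∈ S, c l = a l + b l) ∧ bz S c = bz S a + bz S b := by
  have e : ∀ l ∈ S, c l = (if l ∈ S1 then c l else 0) + if l ∉ S1 ∧ l ∈ S2 then c l else 0 :=
    fun l hl => by
      by_cases h : l ∈ S1
      · simp [h]
      · simp [h, (hU l hl).resolve_left h]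
  refine ⟨fun l => if l ∈ S1 then c l else 0, fun l => if l ∉ S1 ∧ l ∈ S2 then c l else 0,
    fun l hl => if_neg hl, fun l hl => if_neg fun h => hl h.2, fun l hl => if_pos hl, e, ?_⟩
  rw [← map_add]
  exact LocMV0_congr e

theorem LocMV0_inter {S S1 S2 : Finset (List V)} (c1 : Cl S1 S) (c2 : Cl S2 S) :
    Cl (S1 ∩ S2) S :=
  ⟨inter_subset_left.trans c1.1, fun l hl m hm h =>
    mem_inter.2 ⟨c1.2 l (mem_inter.1 hl).1 m hm h, c2.2 l (mem_inter.1 hl).2 m hm h⟩⟩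

theorem LocMV0_both {S S1 S2 : Finset (List V)} (c1 : Cl S1 S) (c2 : Cl S2 S)
    {a b : List V → ℤ} (ha : ∀ l, l ∉ S1 → a l = 0) (hb : ∀ l, l ∉ S2 → b l = 0)
    (h : bz S a + bz S b = 0) (l : List V) (hl : l ∉ S1 ∩ S2) : bz S a l = 0 := by
  by_cases h1 : l ∈ S1
  · have e := congrFun h l
    rwa [Pi.add_apply, LocMV0_sup c2 hb fun h2 => hl (mem_inter.2 ⟨h1, h2⟩), add_zero] at e
  · exact LocMV0_sup c1 ha h1

theorem LocMV0_gen {S S1 S2 : Finset (List V)} {z : List V → ℤ} (hS : Sz S) (hU : S1 ∪ S2 = S)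
    (c1 : Cl S1 S) (c2 : Cl S2 S) (h1 : Loc S1 0) (h2 : Loc S2 0) (hz : bz S z = 0)
    (h0 : Loc (S1 ∩ S2) (bz S1 z)) : Loc S z := by
  refine ⟨hz, fun c hc => ?_⟩
  have hU' : ∀ l ∈ S, l ∈ S1 ∨ l ∈ S2 := fun l hl => mem_union.1 (hU ▸ hl)
  obtain ⟨a, b, ha, hb, -, e1, e2⟩ := LocMV0_split hU' c
  obtain ⟨x, y, hx, hy, e0, e3, e4⟩ := LocMV0_split hU' z
  rw [hc] at e2
  rw [hz] at e4
  rw [← LocMV0_congr e0, ← LocMV0_sub c1 hx] at h0
  obtain ⟨e, k, he, e5⟩ := LocMV0_use (LocMV0_inter c1 c2) h0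
    (LocMV0_both c1 c2 hx hy e4.symm) (LocMV0_both c1 c2 ha hb e2.symm) (hS a)
  obtain ⟨b1, k1, -, e6⟩ := LocMV0_use c1 (c := a - e - k • x) h1 (fun _ _ => rfl)
    (fun l hl => by simp [ha l hl, hx l hl, he l fun h => hl (mem_inter.1 h).1])
    (by rw [map_sub, map_sub, map_smul]; linear_combination e5)
  obtain ⟨b2, k2, -, e7⟩ := LocMV0_use c2 (c := b + e - k • y) h2 (fun _ _ => rfl)
    (fun l hl => by simp [hb l hl, hy l hl, he l fun h => hl (mem_inter.1 h).2])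
    (by rw [map_sub, map_add, map_smul]; linear_combination (exp := 1) -e5 - e2 + k • e4)
  refine ⟨b1 + b2, k, fun m hm => ?_⟩
  have e8 := congrFun e6 m
  have e9 := congrFun e7 m
  simp only [Pi.sub_apply, Pi.add_apply, Pi.smul_apply, smul_eq_mul, Pi.zero_apply, mul_zero,
    add_zero] at e8 e9
  rw [map_add, Pi.add_apply, e1 m hm, e3 m hm]
  linear_combination e8 + e9

/-- Triangular matchings. Sketch: the block of `bz S` from chains on `B` to chains on `A` is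
triangular with diagonal entries `±1`, so it is bijective (induction on the weight); subtract a
boundary to make a cycle vanish on `A`, then it vanishes on `B` by injectivity. -/
theorem loc_tri {S A B : Finset (List V)} (hS : Sz S) (hU : A ∪ B = S) (hd : Disjoint A B)
    (μ : List V → List V) (hμ : Set.BijOn μ A B) (wt : List V → ℤ)
    (h1 : ∀ a ∈ A, inc (μ a) a = 1 ∨ inc (μ a) a = -1)
    (h2 : ∀ a ∈ A, ∀ a' ∈ A, a ≠ a' → inc (μ a') a ≠ 0 → wt a < wt a') : Loc S 0 := by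
  refine ⟨map_zero _, fun c hc => ?_⟩
  have hA : ∀ a ∈ A, a ∈ S := fun a ha => hU ▸ mem_union_left B ha
  have key : ∀ b : List V → ℤ, (∀ a ∈ A, b a = 0) → ∀ a ∈ A,
      bz S b a = ∑ a' ∈ A, inc (μ a') a * b (μ a') := fun b hb a ha => by
    rw [bz_apply, if_pos (hA a ha), ← hU, sum_union hd,
      sum_eq_zero fun l hl => by rw [hb l hl, mul_zero], zero_add]
    exact (sum_nbij μ (fun x hx => hμ.1 hx) hμ.2.1 hμ.2.2 fun _ _ => rfl).symm
  obtain ⟨β, hβ⟩ := LocMV0_surj (fun a a' => inc (μ a') a) wt A h1 h2 c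
  obtain ⟨b, b0, b1⟩ : ∃ b : List V → ℤ, (∀ a ∈ A, b a = 0) ∧ ∀ a ∈ A, b (μ a) = β a :=
    ⟨fun l => if l ∈ B then β (Function.invFunOn μ A l) else 0,
      fun a ha => if_neg (disjoint_left.1 hd ha), fun a ha => by
        beta_reduce
        rw [if_pos (show μ a ∈ B from hμ.1 ha), hμ.2.1.leftInvOn_invFunOn ha]⟩
  have r0 : ∀ a ∈ A, (c - bz S b) a = 0 := fun a ha => by
    rw [Pi.sub_apply, key b b0 a ha, ← hβ a ha, sub_eq_zero]
    exact sum_congr rfl fun a' ha' => by rw [b1 a' ha']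
  have r1 := LocMV0_inj (fun a a' => inc (μ a') a) wt A h1 h2 (fun a => (c - bz S b) (μ a))
    fun a ha => by rw [← key _ r0 a ha, map_sub, hc, hS b, sub_self, Pi.zero_apply]
  refine ⟨b, 0, fun m hm => ?_⟩
  rw [zero_mul, add_zero, ← sub_eq_zero]
  rcases mem_union.1 (hU ▸ hm : m ∈ A ∪ B) with h | h
  · exact r0 m h
  · obtain ⟨a, ha, rfl⟩ := hμ.2.2 h
    exact r1 a ha

/-- Union of acyclic sets along an acyclic set. -/
theorem mv_acy {S S1 S2 : Finset (List V)} (hS : Sz S) (hU : S1 ∪ S2 = S) (c1 : Cl S1 S)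
    (c2 : Cl S2 S) (h1 : Loc S1 0) (h2 : Loc S2 0) (h0 : Loc (S1 ∩ S2) 0) : Loc S 0 := by
  exact LocMV0_gen hS hU c1 c2 h1 h2 (map_zero _) (by rwa [map_zero])

/-- Union of acyclic sets along a set whose homology is generated by the boundary of the first
half of `z`. -/
theorem mv_gen {S S1 S2 : Finset (List V)} {z : List V → ℤ} (hS : Sz S) (hU : S1 ∪ S2 = S)
    (c1 : Cl S1 S) (c2 : Cl S2 S) (h1 : Loc S1 0) (h2 : Loc S2 0) (hz : bz S z = 0)
    (hz0 : ∀ l ∈ S1 ∩ S2, z l = 0) (h0 : Loc (S1 ∩ S2) (bz S1 z)) : Loc S z := by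
  have _ := hz0
  exact LocMV0_gen hS hU c1 c2 h1 h2 hz h0

/-- The complement of an acyclic half is acyclic. Sketch: extend a cycle `c` of `S1` by zero,
`c = ∂ b + k z` on `S`; split `b`, `z` into the parts on `S1` and on `S2 \ S1`; evaluate at `ρ` to
get `k = 0`; `d = ∂ b₂` is a cycle on `S1 ∩ S2`, `d = ∂ e + k' ∂ z₂`, and `∂ z₂ = - ∂ z₁`. -/
theorem mv_third {S S1 S2 : Finset (List V)} {z : List V → ℤ} (hS : Sz S) (hU : S1 ∪ S2 = S)
    (c1 : Cl S1 S) (c2 : Cl S2 S) (h : Loc S z) (hz0 : ∀ l ∈ S1 ∩ S2, z l = 0)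
    (h0 : Loc (S1 ∩ S2) (bz S2 z)) {ρ : List V} (hρ : ρ ∈ S2) (hρ1 : ρ ∉ S1) (hρz : z ρ ≠ 0)
    (hρt : ∀ l ∈ S, inc l ρ = 0) : Loc S1 0 := by
  have _ := hz0
  refine ⟨map_zero _, fun c hc => ?_⟩
  have hU1 : ∀ l ∈ S, l ∈ S1 ∨ l ∈ S2 := fun l hl => mem_union.1 (hU ▸ hl)
  obtain ⟨a, -, ha, -, e0, -, -⟩ := LocMV0_split hU1 c
  obtain ⟨b, k, e1⟩ := h.2 a (by rw [LocMV0_sub c1 ha, LocMV0_congr e0, hc])
  have k0 : k = 0 := by
    have e := e1 ρ (c2.1 hρ)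
    rw [ha ρ hρ1, bz_apply, if_pos (c2.1 hρ), sum_eq_zero fun l hl => by rw [hρt l hl, zero_mul],
      zero_add] at e
    exact (mul_eq_zero.1 e.symm).resolve_right hρz
  have e2 : a = bz S b := funext fun m => by
    by_cases hm : m ∈ S
    · rw [e1 m hm, k0, zero_mul, add_zero]
    · rw [ha m fun h => hm (c1.1 h), LocMV0_out S b hm]
  obtain ⟨b1, b2, hb1, hb2, -, -, e3⟩ := LocMV0_split hU1 b
  obtain ⟨y, x, hy, hx, e4, -, e5⟩ := LocMV0_split (fun l hl => (hU1 l hl).symm) z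
  rw [h.1] at e5
  rw [← LocMV0_congr e4, ← LocMV0_sub c2 hy] at h0
  obtain ⟨e, k', he, e6⟩ := LocMV0_use (LocMV0_inter c1 c2) (c := bz S b2) h0
    (fun l hl => LocMV0_both c2 c1 hy hx e5.symm l (by rwa [inter_comm]))
    (fun l hl => by
      by_cases h2 : l ∈ S2
      · have h1 : l ∉ S1 := fun h1 => hl (mem_inter.2 ⟨h1, h2⟩)
        have q := congrFun (e2.trans e3) l
        rw [Pi.add_apply, ha l h1, LocMV0_sup c1 hb1 h1, zero_add] at q
        exact q.symm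
      · exact LocMV0_sup c2 hb2 h2) (hS b2)
  refine ⟨b1 + e - k' • x, 0, fun m hm => ?_⟩
  rw [zero_mul, add_zero, ← e0 m hm, ← LocMV0_sub c1 fun l hl => by
    simp [hb1 l hl, hx l hl, he l fun h => hl (mem_inter.1 h).1]]
  refine congrFun ?_ m
  rw [map_sub, map_add, map_smul]
  linear_combination (exp := 1) e2 + e3 + e6 - k' • e5

end Pool.Agent.HT
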