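import Pool.Agent.Lib.MP_dae8ad_gt.H.Inc
import Pool.Agent.Lib.MP_dae8ad_gt.H.Filt

/-! Local homology with twisted coefficients in a commutative ring. -/

open Finset Classical

noncomputable section

namespace Pool.Agent.HT

variable {V V' : Type}

theorem LocR_tw {R : Type} [CommRing R] {X : Finset (List V)} {φ : V → V → ℤ}
    (hX : Cx X) (hφ : Coc X φ) {σ : List V} (hσ : σ ∈ X) (t : Rˣ) (c : List V → R) {m : List V}
    (hm : m ∈ St X σ) :
    bd (St X σ) φ t (fun l => ((t ^ (-ex φ l σ) : Rˣ) : R) * c l) m =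
      ((t ^ (-ex φ m σ) : Rˣ) : R) * ∑ l ∈ St X σ, inc l m • c l := by
  rw [bd_apply, if_pos hm, mul_sum]
  refine sum_congr rfl fun l hl => ?_
  by_cases hi : inc l m = 0
  · simp [hi]
  have e : -ex φ m σ = ex φ l m + -ex φ l σ := by
    rw [ex_add hX hφ (mem_St.1 hl).1 (hX σ hσ).1 (mem_St.1 hm).2 (inc_sublist hi).1]
    ring
  rw [e, zpow_add, Units.val_mul, zsmul_eq_mul]
  ring

/-- Extension by zero. -/
def LocR_ext {G : Type} [Zero G] (S : Finset (List V)) (f : S → G) (l : List V) : G :=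
  if h : l ∈ S then f ⟨l, h⟩ else 0

theorem LocR_sum {G : Type} [AddCommGroup G] (S : Finset (List V)) (f : S → G) (m : List V) :
    ∑ l ∈ S, inc l m • LocR_ext S f l = ∑ l : S, inc l.1 m • f l := by
  rw [← sum_coe_sort]
  exact sum_congr rfl fun l _ => by rw [LocR_ext, dif_pos l.2]

theorem LocR_bz (S : Finset (List V)) (f : S → ℤ) (m : S) :
    bz S (LocR_ext S f) m = Matrix.mulVec (Matrix.of fun m l : S => inc l.1 m.1) f m := by
  rw [bz_apply, if_pos m.2]
  exact LocR_sum S f m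

theorem LocR_res (S : Finset (List V)) (b : List V → ℤ) (m : S) :
    bz S b m = ∑ l : S, inc l.1 m.1 * b l := by
  rw [bz_apply, if_pos m.2, ← sum_coe_sort]

/-- Sketch: put `c' l = t ^ (ex φ l σ) * c l`; by `ex_add` the twisted equation for `c` is the
untwisted equation for `c'`. Use `exact_ext` with `κ = μ = S`, `ι = Option S` (the extra column
is `z`), `S = St X σ`. Saturation: if `n c = ∂ b` then `c` is a cycle (`sz_of_cvx`),
`c = ∂ b' + k z`, and where `z m ≠ 0` all boundaries vanish (`hz`), so `k * z m = 0`. -/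
theorem loc_R {R : Type} [CommRing R] {X : Finset (List V)} {φ : V → V → ℤ}
    (hX : Cx X) (hφ : Coc X φ) {σ : List V} (hσ : σ ∈ X) {z : List V → ℤ}
    (h : Loc (St X σ) z) (hz : ∀ l ∈ X, z l ≠ 0 → ∀ l' ∈ X, inc l' l = 0) (t : Rˣ) (c : List V → R) (hc : bd (St X σ) φ t c = 0) :
    ∃ (b : List V → R) (k : R), ∀ m ∈ St X σ,
      c m = bd (St X σ) φ t b m + k * ((z m : R) * ((t ^ (-ex φ m σ) : Rˣ) : R)) := by
  have hSX : ∀ l ∈ St X σ, l ∈ X := fun l hl => (mem_St.1 hl).1
  have hsz := sz_of_cvx hX (cvx_St (X := X) σ)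
  have htw := fun c m hm => LocR_tw hX hφ hσ t c (m := m) hm
  set S := St X σ
  have hcyc : ∀ c : S → ℤ, (∀ m : S, bz S (LocR_ext S c) m = 0) → ∃ (b : List V → ℤ) (k : ℤ),
      ∀ m : S, c m = bz S b m + k * z m := by
    intro c hc
    obtain ⟨b, k, hb⟩ := h.2 (LocR_ext S c) (funext fun m => by
      by_cases hm : m ∈ S
      · exact hc ⟨m, hm⟩
      · rw [bz_apply, if_neg hm, Pi.zero_apply])
    exact ⟨b, k, fun m => by rw [← hb m m.2, LocR_ext, dif_pos m.2]⟩
  obtain ⟨b, hb⟩ := exact_ext (ι := Option S) (U := R)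
    (Matrix.of fun (m : S) (i : Option S) => i.elim (z m) fun l => inc l.1 m.1)
    (Matrix.of fun m l : S => inc l.1 m.1) (fun c n hn ⟨b, hb⟩ => by
      have h1 : ∀ m : S, bz S (LocR_ext S b) m = n * c m := fun m => by
        rw [LocR_bz, hb, Pi.smul_apply, smul_eq_mul]
      obtain ⟨b', k, hb'⟩ := hcyc c fun m => by
        have h2 := congrFun (hsz (LocR_ext S b)) m
        rw [LocR_res, Pi.zero_apply] at h2
        refine mul_left_cancel₀ hn ?_
        rw [mul_zero, ← h2, LocR_res, mul_sum]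
        exact sum_congr rfl fun l _ => by rw [h1, LocR_ext, dif_pos l.2]; ring
      refine ⟨fun l => b' l, funext fun m => ?_⟩
      have h3 : Matrix.mulVec (Matrix.of fun m l : S => inc l.1 m.1) (fun l => b' l) m =
          bz S b' m := (LocR_res S b' m).symm
      by_cases hm : z m = 0
      · rw [h3, hb' m, hm, mul_zero, add_zero]
      · have h4 : ∀ y, bz S y m = 0 := fun y => by
          rw [LocR_res]
          exact sum_eq_zero fun l _ => by rw [hz m (hSX m m.2) hm l (hSX l l.2), zero_mul]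
        rw [h3, h4]
        exact ((mul_eq_zero.1 ((h1 m).symm.trans (h4 _))).resolve_left hn).symm)
    (fun c hc => by
      obtain ⟨b, k, hb⟩ := hcyc c fun m => by rw [LocR_bz, hc, Pi.zero_apply]
      refine ⟨fun i => i.elim k fun l => b l, funext fun m => ?_⟩
      rw [hb m, LocR_res, Matrix.mulVec, dotProduct, Fintype.sum_option, add_comm, mul_comm k]
      rfl)
    (fun l => ((t ^ ex φ l σ : Rˣ) : R) * c l) (fun m => by
      have h1 := htw (fun l => ((t ^ ex φ l σ : Rˣ) : R) * c l) m m.2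
      simp only [zpow_neg, Units.inv_mul_cancel_left] at h1
      rw [hc, Pi.zero_apply, ← sum_coe_sort] at h1
      exact (Units.mul_right_eq_zero _).1 h1.symm)
  refine ⟨fun l => ((t ^ (-ex φ l σ) : Rˣ) : R) * LocR_ext S (fun l => b (some l)) l, b none,
    fun m hm => ?_⟩
  have h1 := hb ⟨m, hm⟩
  rw [Fintype.sum_option] at h1
  have h2 : z m • b none + ∑ l : S, inc l.1 m • b (some l) = ((t ^ ex φ m σ : Rˣ) : R) * c m := h1
  have h3 : c m = ((t ^ (-ex φ m σ) : Rˣ) : R) * (((t ^ ex φ m σ : Rˣ) : R) * c m) := by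
    rw [zpow_neg, Units.inv_mul_cancel_left]
  rw [htw _ m hm, LocR_sum, h3, ← h2, zsmul_eq_mul]
  ring

theorem loc_R_cyc {R : Type} [CommRing R] {X : Finset (List V)} {φ : V → V → ℤ}
    (hX : Cx X) (hφ : Coc X φ) {σ : List V} (hσ : σ ∈ X) {z : List V → ℤ}
    (h : bz (St X σ) z = 0) (t : Rˣ) :
    bd (St X σ) φ t (fun m => (z m : R) * ((t ^ (-ex φ m σ) : Rˣ) : R)) = 0 := by
  funext m
  by_cases hm : m ∈ St X σ
  · have h1 := congrFun h m
    rw [bz_apply, if_pos hm, Pi.zero_apply] at h1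
    have h2 := LocR_tw hX hφ hσ t (fun l => (z l : R)) hm
    have h3 : ∑ l ∈ St X σ, inc l m • (z l : R) = ((∑ l ∈ St X σ, inc l m * z l : ℤ) : R) := by
      simp
    rw [h3, h1, Int.cast_zero, mul_zero] at h2
    simpa only [mul_comm, Pi.zero_apply] using h2
  · rw [bd_apply, if_neg hm, Pi.zero_apply]

/-- The cochains of a full simplex: `F ρ` is the set of nonempty sublists. A cocycle is a
coboundary plus a constant on the vertices. Sketch: for `ρ = v :: ρ'` put
`b σ = y (v :: σ)` for `σ` a nonempty sublist of `ρ'`, `b σ = 0` otherwise, and `k = y [v]`. -/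
theorem simplex_acy {R : Type} [CommRing R] {ρ : List V} (hρ : ρ.Nodup) (hne : ρ ≠ [])
    (F : Finset (List V)) (hF : ∀ σ, σ ∈ F ↔ σ ≠ [] ∧ σ.Sublist ρ) (y : List V → R)
    (hy : ∀ σ' ∈ F, ∑ σ ∈ F, (inc σ' σ : R) * y σ = 0) :
    ∃ (b : List V → R) (k : R), ∀ σ' ∈ F,
      y σ' = (∑ σ ∈ F, (inc σ' σ : R) * b σ) + if σ'.length = 1 then k else 0 := by
  have hX : Cx F := fun l hl =>
    ⟨((hF l).1 hl).1, hρ.sublist ((hF l).1 hl).2,
      fun m h0 hm => (hF m).2 ⟨h0, hm.trans ((hF l).1 hl).2⟩,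
      fun m hm hp => (hρ.perm_iff_eq_of_sublist ((hF m).1 hm).2 ((hF l).1 hl).2).1 hp⟩
  have h1 : ∀ (b : List V → R) (l : List V), l.length = 1 → ∑ σ ∈ F, (inc l σ : R) * b σ = 0 := by
    intro b l hl
    refine sum_eq_zero fun σ hσ => ?_
    have : inc l σ = 0 := by
      by_contra hi
      have := (inc_sublist hi).2
      exact ((hF σ).1 hσ).1 (List.length_eq_zero_iff.1 (by omega))
    rw [this, Int.cast_zero, zero_mul]
  have h2 : ∀ (b : List V → R), ∀ l ∈ F, 2 ≤ l.length → ∑ σ ∈ F, (inc l σ : R) * b σ =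
      ∑ i ∈ range l.length, ((-1 : ℤ) ^ i) • b (l.eraseIdx i) := by
    intro b l hl h
    rw [← sum_inc hX hl h b]
    simp only [zsmul_eq_mul]
  obtain ⟨v, ρ', rfl⟩ := List.exists_cons_of_ne_nil hne
  have hv : v ∉ ρ' := (List.nodup_cons.1 hρ).1
  refine ⟨fun σ => if v ∈ σ then 0 else y (v :: σ), y [v], fun l hl => ?_⟩
  obtain ⟨h0, hs⟩ := (hF l).1 hl
  have hp : 0 < l.length := List.length_pos_iff.2 h0
  rcases List.sublist_cons_iff.1 hs with hs | ⟨r, rfl, hr'⟩
  · have hm : v :: l ∈ F := (hF _).2 ⟨by simp, hs.cons_cons v⟩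
    have h3 := hy _ hm
    rw [h2 y _ hm (by simp only [List.length_cons]; omega), List.length_cons, sum_range_succ'] at h3
    simp only [List.eraseIdx_cons_succ, List.eraseIdx_cons_zero, pow_zero, one_smul, pow_succ,
      mul_neg, mul_one, neg_smul, sum_neg_distrib] at h3
    have h4 := neg_add_eq_zero.1 h3
    by_cases hl1 : l.length = 1
    · rw [h1 _ l hl1, if_pos hl1, zero_add, ← h4]
      obtain ⟨u, rfl⟩ := List.length_eq_one_iff.1 hl1
      simp
    · rw [h2 _ l hl (by omega), if_neg hl1, add_zero, ← h4]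
      refine sum_congr rfl fun i _ => ?_
      rw [if_neg fun h => hv (hs.subset ((List.eraseIdx_sublist l i).subset h))]
  · by_cases hr : r = []
    · subst hr
      rw [h1 _ _ rfl, zero_add]
      exact (if_pos rfl).symm
    · have := List.length_pos_iff.2 hr
      rw [h2 _ _ hl (by simp only [List.length_cons]; omega), List.length_cons, sum_range_succ',
        if_neg (show ¬ r.length + 1 = 1 by omega)]
      have h5 : v ∉ r := fun h => hv (hr'.subset h)
      simp [h5]

end Pool.Agent.HT
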