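import Pool.Agent.Lib.MP_dae8ad_gt.H.M30

/-! Orientations and the zero surgery. -/

open Finset Classical

noncomputable section

namespace Pool.Agent.HT

variable {V V' : Type}

variable {E : Finset (List A)} {ψ : A → A → ℤ} {z' : List A → ℤ}

theorem M3_loc {n : ℕ} {X : Finset (List V)} {z : List V → ℤ} (h : HM n X ∅ ∅ z) {σ : List V}
    (hσ : σ ∈ X) : (∃ l ∈ St X σ, l.length = n + 1) ∧ Loc (St X σ) z := by
  have := h.2.2.2.2 σ hσ (fun _ _ => Set.notMem_empty _)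
  rwa [if_neg (Finset.notMem_empty _)] at this

theorem M3_zero {n : ℕ} {X B : Finset (List V)} {z : List V → ℤ} (h : HM n X B ∅ z) {l : List V}
    (hl : l ∈ X) (hn : l.length ≠ n + 1) : z l = 0 := by
  have := (h.2.2.2.1 l hl).2
  rwa [if_neg hn, abs_eq_zero] at this

theorem M3_one {n : ℕ} {X B : Finset (List V)} {z : List V → ℤ} (h : HM n X B ∅ z) {l : List V}
    (hl : l ∈ X) (hn : l.length = n + 1) : |z l| = 1 := by
  have := (h.2.2.2.1 l hl).2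
  rwa [if_pos hn] at this

theorem M3_ne {n : ℕ} {X B : Finset (List V)} {z : List V → ℤ} (h : HM n X B ∅ z) {l : List V}
    (hl : l ∈ X) (hn : l.length = n + 1) : z l ≠ 0 := by
  intro h0
  have := M3_one h hl hn
  rw [h0] at this
  exact absurd this (by decide)

theorem M3_cyc {n : ℕ} {X : Finset (List V)} {z : List V → ℤ} (h : HM n X ∅ ∅ z) (m : List V) :
    bz X z m = 0 := LocMV_int fun hm => (M3_loc h hm).2

theorem M3_face {X Y : Finset (List V)} (hX : Cx X) (hY : Cx Y) {σ l : List V} (hσ : σ ∈ Y)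
    (hl : l ∈ X) (hs : σ.Sublist l) : σ ∈ X := (hX l hl).2.2.1 σ (hY σ hσ).1 hs

theorem M3_top {X : Finset (List V)} {ρ : List V} (h : ∀ l ∈ X, l.length ≤ ρ.length) :
    ∀ l ∈ X, inc l ρ = 0 := by
  intro l hl
  by_contra hne
  have h1 := (inc_sublist hne).2
  have h2 := h l hl
  omega

theorem M3_smul {X : Finset (List V)} {c c' : List V → ℤ} {k : ℤ} (h : ∀ l ∈ X, c' l = k * c l)
    (m : List V) : bz X c' m = k * bz X c m := by
  rw [LocMV_congr (c' := k • c) (fun l hl => by rw [h l hl]; rfl), map_smul]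
  rfl

theorem M3_split {X Y Z : Finset (List V)} {c : List V → ℤ} (hU : ∀ l, l ∈ Z ↔ l ∈ X ∨ l ∈ Y)
    (h0 : ∀ l ∈ X, l ∈ Y → c l = 0) {m : List V} (hX : m ∈ X) (hY : m ∈ Y) :
    bz Z c m = bz X c m + bz Y c m := by
  have hZ : Z = X ∪ Y := Finset.ext fun l => by rw [hU, mem_union]
  rw [bz_apply, bz_apply, bz_apply, if_pos ((hU m).2 (Or.inl hX)), if_pos hX, if_pos hY, hZ,
    ← sum_union_inter, sum_eq_zero (s := X ∩ Y), add_zero]
  intro l hl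
  rw [h0 l (mem_inter.1 hl).1 (mem_inter.1 hl).2, mul_zero]

theorem M3_sub {X Y : Finset (List V)} (c : List V → ℤ) (h : X ⊆ Y) {m : List V} (hm : m ∈ X)
    (h0 : ∀ l ∈ Y, m.Sublist l → l ∈ X) : bz X c m = bz Y c m := by
  rw [bz_apply, bz_apply, if_pos hm, if_pos (h hm)]
  refine sum_subset h fun l hl hl' => ?_
  by_cases hi : inc l m = 0
  · rw [hi, zero_mul]
  · exact absurd (h0 l hl (inc_sublist hi).1) hl'

theorem M3_ex {X : Finset (List V)} {c : List V → ℤ} {m : List V} (h : bz X c m ≠ 0) :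
    ∃ l ∈ X, m.Sublist l ∧ m.length + 1 = l.length := by
  by_contra hn
  refine h ?_
  rw [bz_apply]
  split_ifs
  · refine sum_eq_zero fun l hl => ?_
    by_cases hi : inc l m = 0
    · rw [hi, zero_mul]
    · exact absurd ⟨l, hl, inc_sublist hi⟩ hn
  · rfl

theorem M3_St {X Y : Finset (List V)} (h : X ⊆ Y) {σ l : List V} (hl : l ∈ St X σ) :
    l ∈ St Y σ := mem_St.2 ⟨h (mem_St.1 hl).1, (mem_St.1 hl).2⟩

theorem M3_TN : T ⊆ N := fun _ hl => mem_N.2 (Or.inr hl)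

theorem M3_NS (l : List A) : l ∈ Tot ↔ l ∈ N ∨ l ∈ S := by
  rw [← N_union_S, mem_union]

theorem M3_lev (x : P) {r : Fin 6} (h1 : r ≠ 1) (h2 : r ≠ 2) : [(Sum.inl (x, r) : A)] ∉ S := by
  intro hS
  obtain ⟨y, r', e, -, hr⟩ := (Dict_S.1 hS).2 _ List.mem_cons_self
  obtain ⟨-, rfl⟩ := Prod.mk.inj (Sum.inl.inj e)
  exact hr.elim h1 h2

theorem M3_edge {u v : P × Fin 6} (h : lt6 (.inl u) (.inl v)) :
    [(Sum.inl u : A), Sum.inl v] ∈ Tot := by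
  refine mem_Tot'.2 ⟨List.cons_ne_nil _ _, List.pairwise_pair.2 h, fun a ha => ?_⟩
  rcases List.mem_pair.1 ha with rfl | rfl
  · exact ⟨_, rfl⟩
  · exact ⟨_, rfl⟩

theorem M3_vert (h : Ext E ψ) (hM : HM 3 (N ∪ E) ∅ ∅ z') {v : A} (hv : [v] ∈ Tot)
    (hS : [v] ∉ S) : ∃ k : ℤ, ∀ l ∈ Tot, v ∈ l → z' l = k * zTot l := by
  have hN : ∀ l ∈ St Tot [v], l ∈ N ∪ E := fun l hl => by
    obtain ⟨h1, h2⟩ := mem_St.1 hl
    exact mem_union_left _ (mem_N.2 (Or.inl ⟨h1, fun h3 => hS (M3_face cx_S hm_Tot.1 hv h3 h2)⟩))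
  have e : ∀ l, l ∈ St (N ∪ E) [v] ↔ l ∈ St Tot [v] := fun l => by
    refine ⟨fun hl => ?_, fun hl => mem_St.2 ⟨hN l hl, (mem_St.1 hl).2⟩⟩
    obtain ⟨h1, h2⟩ := mem_St.1 hl
    rcases mem_union.1 h1 with h1 | h1
    · exact mem_St.2 ⟨N_sub h1, h2⟩
    · exact absurd (T_sub (h.tot (M3_face h.cxE hm_Tot.1 hv h1 h2) hv)) hS
  have hv' : [v] ∈ N ∪ E := hN _ (mem_St.2 ⟨hv, List.Sublist.refl _⟩)
  obtain ⟨k, hk⟩ := top_gen (n := 3 + 1) (y := z')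
    (fun l hl => (hm_Tot.2.2.2.1 l (mem_St.1 hl).1).1) (M3_loc hm_Tot hv).2
    (fun l hl => M3_zero hm_Tot (mem_St.1 hl).1) (fun l hl => M3_zero hM (hN l hl))
    (loc_ext e (M3_loc hM hv').2).1
  exact ⟨k, fun l hl hvl => hk l (mem_St.2 ⟨hl, List.singleton_sublist.2 hvl⟩)⟩

theorem M3_T0 (h : Ext E ψ) {X : Finset (List A)} {z : List A → ℤ} (hX : HM 3 X ∅ ∅ z)
    (hT : T ⊆ X) {l : List A} (hl : l ∈ T) : z l = 0 :=
  M3_zero hX (hT hl) (by have := h.lenT l hl; omega)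

theorem M3_NE (h : Ext E ψ) (hM : HM 3 (N ∪ E) ∅ ∅ z') {m : List A} (hm : m ∈ T) :
    bz N z' m = -bz E z' m := by
  have h1 := M3_split (X := N) (Y := E) (Z := N ∪ E) (c := z') (fun _ => mem_union)
    (fun l h1 h2 => M3_T0 h hM (fun _ hl => mem_union_left _ (M3_TN hl)) (h.tot h2 (N_sub h1)))
    (M3_TN hm) (h.tE hm)
  rw [M3_cyc hM] at h1
  linarith

/-- Sketch: for a vertex `v` with `[v] ∉ S` the stars in `Tot` and in `N ∪ E` agree, so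
`top_gen` with `hm_Tot` gives `k v = ±1` with `z' = k v * zTot` on the star. Adjacent such vertices
have the same `k` (a common tetrahedron, purity). These vertices are connected: level `0` by
`conn_P`, and the vertical edges `(x,0)-(x,1)`, `(x,2)-(x,3)`, `(x,4)-(x,3)`, `(x,4)-(x,5)`,
`(x,0)-(h x,5)`. A tetrahedron of `N` is not in `S` (`lenT`), so it has such a vertex (`mem_S`). -/
theorem m3_or (h : Ext E ψ) (hM : HM 3 (N ∪ E) ∅ ∅ z') :
    ∃ u : ℤ, (u = 1 ∨ u = -1) ∧ ∀ m ∈ N, z' m = u * zTot m := by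
  have hk : ∀ v : A, ∃ k : ℤ, [v] ∈ Tot → [v] ∉ S → ∀ l ∈ Tot, v ∈ l → z' l = k * zTot l := by
    intro v
    by_cases hv : [v] ∈ Tot ∧ [v] ∉ S
    · obtain ⟨k, hk⟩ := M3_vert h hM hv.1 hv.2
      exact ⟨k, fun _ _ => hk⟩
    · exact ⟨0, fun h1 h2 => absurd ⟨h1, h2⟩ hv⟩
  choose k hk using hk
  have adj : ∀ u v : P × Fin 6, lt6 (.inl u) (.inl v) → [(Sum.inl u : A)] ∉ S →
      [(Sum.inl v : A)] ∉ S → k (.inl u) = k (.inl v) := by
    intro u v huv hu hv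
    obtain ⟨l, hl, hn⟩ := (M3_loc hm_Tot (M3_edge huv)).1
    obtain ⟨h1, h2⟩ := mem_St.1 hl
    have e1 := hk _ (N_sub (vert_N u)) hu l h1 (h2.subset List.mem_cons_self)
    have e2 := hk _ (N_sub (vert_N v)) hv l h1
      (h2.subset (List.mem_cons_of_mem _ List.mem_cons_self))
    exact mul_right_cancel₀ (M3_ne hm_Tot h1 hn) (e1.symm.trans e2)
  have l0 : ∀ x, k (.inl (x, 0)) = k (.inl (P.w 0, 0)) := fun x =>
    conn_P (fun x => k (.inl (x, 0))) (fun x y hxy => adj _ _ (Or.inl ⟨rfl, hxy⟩)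
      (M3_lev _ (by decide) (by decide)) (M3_lev _ (by decide) (by decide))) x _
  have l5 : ∀ x, k (.inl (x, 5)) = k (.inl (P.w 0, 0)) := fun x => by
    obtain ⟨y, rfl⟩ := hP.surjective x
    exact (adj (y, 0) (hP y, 5) (Or.inr (Or.inr ⟨rfl, rfl, Or.inl rfl⟩))
      (M3_lev _ (by decide) (by decide)) (M3_lev _ (by decide) (by decide))).symm.trans (l0 y)
  have l4 : ∀ x, k (.inl (x, 4)) = k (.inl (P.w 0, 0)) := fun x =>
    (adj (x, 4) (x, 5) (Or.inr (Or.inl ⟨rfl, Or.inl rfl, Or.inl rfl⟩))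
      (M3_lev _ (by decide) (by decide)) (M3_lev _ (by decide) (by decide))).trans (l5 x)
  have l3 : ∀ x, k (.inl (x, 3)) = k (.inl (P.w 0, 0)) := fun x =>
    (adj (x, 4) (x, 3) (Or.inr (Or.inl ⟨rfl, Or.inr rfl, Or.inl rfl⟩))
      (M3_lev _ (by decide) (by decide)) (M3_lev _ (by decide) (by decide))).symm.trans (l4 x)
  have all : ∀ x r, [(Sum.inl (x, r) : A)] ∉ S → k (.inl (x, r)) = k (.inl (P.w 0, 0)) := by
    intro x r hr
    have hc : ∀ r : Fin 6, r = 0 ∨ r = 1 ∨ r = 2 ∨ r = 3 ∨ r = 4 ∨ r = 5 := by decide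
    rcases hc r with rfl | rfl | rfl | rfl | rfl | rfl
    · exact l0 x
    · exact (adj (x, 0) (x, 1) (Or.inr (Or.inl ⟨rfl, Or.inl rfl, Or.inl rfl⟩))
        (M3_lev _ (by decide) (by decide)) hr).symm.trans (l0 x)
    · exact (adj (x, 2) (x, 3) (Or.inr (Or.inl ⟨rfl, Or.inl rfl, Or.inl rfl⟩)) hr
        (M3_lev _ (by decide) (by decide))).trans (l3 x)
    · exact l3 x
    · exact l4 x
    · exact l5 x
  have main : ∀ m ∈ N, z' m = k (.inl (P.w 0, 0)) * zTot m := by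
    intro m hm
    by_cases hn : m.length = 3 + 1
    · have hS : m ∉ S := fun hS => by have := h.lenT m (N_S hm hS); omega
      obtain ⟨v, hv, hvS⟩ : ∃ v ∈ m, [v] ∉ S := by
        by_contra hc
        exact hS (mem_S.2 ⟨N_sub hm, fun v hv => by_contra fun h' => hc ⟨v, hv, h'⟩⟩)
      obtain ⟨⟨x, r⟩, rfl⟩ := (mem_Tot'.1 (N_sub hm)).2.2 v hv
      rw [← all x r hvS]
      exact hk _ (N_sub (vert_N _)) hvS m (N_sub hm) hv
    · rw [M3_zero hM (mem_union_left _ hm) hn, M3_zero hm_Tot (N_sub hm) hn, mul_zero]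
  refine ⟨_, ?_, main⟩
  have hv : [(Sum.inl (P.w 0, 0) : A)] ∈ Tot := N_sub (vert_N _)
  have hS : [(Sum.inl (P.w 0, 0) : A)] ∉ S := M3_lev _ (by decide) (by decide)
  obtain ⟨l, hl, hn⟩ := (M3_loc hm_Tot hv).1
  obtain ⟨h1, h2⟩ := mem_St.1 hl
  have hN : l ∈ N := mem_N.2 (Or.inl ⟨h1, fun h3 => hS (M3_face cx_S hm_Tot.1 hv h3 h2)⟩)
  exact LocMV_unit' (by rw [← main l hN]; exact M3_one hM (mem_union_left _ hN) hn)

/-- Sketch: `rel_gen` on `St E σ` with `S0 = St T σ` gives `z' = ± zE` there. -/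
theorem m3_gen (h : Ext E ψ) (hM : HM 3 (N ∪ E) ∅ ∅ z') {σ : List A} (hσ : σ ∈ T) :
    Loc (St T σ) (bz (St E σ) z') ∧ Loc (St E σ) 0 ∧
      ∃ τ ∈ St T σ, τ.length = 3 ∧ bz (St E σ) z' τ ≠ 0 := by
  obtain ⟨zE, hE⟩ := h.1
  obtain ⟨⟨ρ, hρ, hn⟩, hl⟩ := hE.2.2.2.2 σ (h.tE hσ) (fun _ _ => Set.notMem_empty _)
  rw [if_pos hσ] at hl
  have h0 : Loc (St T σ) (bz (St E σ) zE) := loc_congr 1 (Or.inl rfl)
    (fun l hl => by rw [one_mul, bz_St _ _ _ (M3_St h.tE hl)]) hl.2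
  obtain ⟨k, hk⟩ := rel_gen (n := 3) (y := z') (sz_of_cvx h.cxE (cvx_St σ))
    (cl_St h.cxT h.tE h.cxE σ) (fun l hl => (hE.2.2.2.1 l (mem_St.1 hl).1).1)
    (fun l hl => h.lenT l (mem_St.1 hl).1) hl.1 h0 (fun l hl => M3_zero hE (mem_St.1 hl).1)
    (fun l hl => M3_zero hM (mem_union_right _ (mem_St.1 hl).1))
    (fun m hm hm' => by
      rw [bz_St _ _ _ hm]
      exact (hm_bd hE).2.2 m fun hT => hm' (mem_St.2 ⟨hT, (mem_St.1 hm).2⟩))
    (fun m hm hm' => by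
      obtain ⟨h1, h2⟩ := mem_St.1 hm
      rw [bz_St _ _ _ hm, M3_sub z' (Y := N ∪ E) subset_union_right h1, M3_cyc hM]
      intro l hl hs
      rcases mem_union.1 hl with hl | hl
      · exact absurd (mem_St.2 ⟨h.tot h1 (M3_face hm_Tot.1 h.cxE h1 (N_sub hl) hs), h2⟩) hm'
      · exact hl)
  have hu : k = 1 ∨ k = -1 := LocMV_unit' (by
    rw [← hk ρ hρ]
    exact M3_one hM (mem_union_right _ (mem_St.1 hρ).1) hn)
  refine ⟨loc_congr k hu (fun l _ => M3_smul hk l) h0, hl.1, ?_⟩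
  obtain ⟨τ, hτ, hτn⟩ := (M3_loc (hm_bd hE).1 hσ).1
  refine ⟨τ, hτ, hτn, ?_⟩
  rw [M3_smul hk, bz_St _ _ _ (M3_St h.tE hτ)]
  refine mul_ne_zero ?_ (M3_ne (hm_bd hE).1 (mem_St.1 hτ).1 hτn)
  rcases hu with rfl | rfl <;> decide

/-- `mv_third` in `N ∪ E`. -/
theorem m3_N (h : Ext E ψ) (hM : HM 3 (N ∪ E) ∅ ∅ z') {σ : List A} (hσ : σ ∈ T) :
    Loc (St N σ) 0 := by
  obtain ⟨zE, hE⟩ := h.1
  obtain ⟨ρ, hρ, hn⟩ := (hE.2.2.2.2 σ (h.tE hσ) (fun _ _ => Set.notMem_empty _)).1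
  have hTM : T ⊆ N ∪ E := fun _ hl => mem_union_right _ (h.tE hl)
  refine mv_third (S := St (N ∪ E) σ) (S2 := St E σ) (sz_of_cvx hM.1 (cvx_St σ)) ?_
    (cl_St (h.cxN hM.1) subset_union_left hM.1 σ) (cl_St h.cxE subset_union_right hM.1 σ)
    (M3_loc hM (hTM hσ)).2 ?_ (loc_ext ?_ (m3_gen h hM hσ).1) hρ ?_
    (M3_ne hM (mem_union_right _ (mem_St.1 hρ).1) hn)
    (M3_top fun l hl => hn ▸ (hM.2.2.2.1 l (mem_St.1 hl).1).1)
  · exact Finset.ext fun l => by simp only [mem_union, mem_St, or_and_right]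
  · intro l hl
    simp only [mem_inter, mem_St] at hl
    exact M3_T0 h hM hTM (h.tot hl.2.1 (N_sub hl.1.1))
  · intro l
    simp only [mem_inter, mem_St]
    exact ⟨fun hl => ⟨⟨M3_TN hl.1, hl.2⟩, h.tE hl.1, hl.2⟩,
      fun hl => ⟨h.tot hl.2.1 (N_sub hl.1.1), hl.1.2⟩⟩
  · intro hN
    have := h.lenT ρ (h.tot (mem_St.1 hρ).1 (N_sub (mem_St.1 hN).1))
    omega

/-- `mv_third` in `Tot`: on `St T σ` we have `bz (St N σ) z' = - bz (St E σ) z'`. -/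
theorem m3_S (h : Ext E ψ) (hM : HM 3 (N ∪ E) ∅ ∅ z') {σ : List A} (hσ : σ ∈ T) :
    Loc (St S σ) 0 := by
  obtain ⟨u, hu, hz⟩ := m3_or h hM
  obtain ⟨h0, -, τ, hτ, hτn, hτ0⟩ := m3_gen h hM hσ
  have hz' : ∀ l ∈ N, zTot l = u * z' l := fun l hl => by
    rw [hz l hl]
    rcases hu with rfl | rfl <;> ring
  rw [bz_St _ _ _ (M3_St h.tE hτ), ← neg_ne_zero, ← M3_NE h hM (mem_St.1 hτ).1] at hτ0
  obtain ⟨ρ, hρ, hs, hn⟩ := M3_ex hτ0
  have hn' : ρ.length = 3 + 1 := by omega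
  have h1 : Loc (St T σ) (bz (St N σ) zTot) := by
    refine loc_congr (-u) (by rcases hu with rfl | rfl <;> decide) (fun l hl => ?_) h0
    rw [bz_St _ _ _ (M3_St M3_TN hl), bz_St _ _ _ (M3_St h.tE hl), M3_smul hz',
      M3_NE h hM (mem_St.1 hl).1]
    ring
  refine mv_third (S := St Tot σ) (S2 := St N σ) (sz_of_cvx hm_Tot.1 (cvx_St σ)) ?_
    (cl_St cx_S S_sub hm_Tot.1 σ) (cl_St (h.cxN hM.1) N_sub hm_Tot.1 σ)
    (M3_loc hm_Tot (S_sub (T_sub hσ))).2 ?_ (loc_ext ?_ h1)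
    (mem_St.2 ⟨hρ, (mem_St.1 hτ).2.trans hs⟩) ?_ (M3_ne hm_Tot (N_sub hρ) hn')
    (M3_top fun l hl => hn' ▸ (hm_Tot.2.2.2.1 l (mem_St.1 hl).1).1)
  · refine Finset.ext fun l => ?_
    simp only [mem_union, mem_St, M3_NS l, or_and_right]
    exact or_comm
  · intro l hl
    simp only [mem_inter, mem_St] at hl
    exact M3_T0 h hm_Tot (fun _ hl => S_sub (T_sub hl)) (N_S hl.2.1 hl.1.1)
  · intro l
    simp only [mem_inter, mem_St]
    exact ⟨fun hl => ⟨⟨T_sub hl.1, hl.2⟩, M3_TN hl.1, hl.2⟩,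
      fun hl => ⟨N_S hl.2.1 hl.1.1, hl.1.2⟩⟩
  · intro hS
    have := h.lenT ρ (N_S hρ (mem_St.1 hS).1)
    omega

/-- Sketch: at `σ ∈ E \ T` the star is the star in `N ∪ E`, at `σ ∈ S \ T` the star in `Tot`, at
`σ ∈ T` use `mv_gen`. -/
theorem m3_K (h : Ext E ψ) (hM : HM 3 (N ∪ E) ∅ ∅ z') {u : ℤ} (hu : u = 1 ∨ u = -1)
    (hz : ∀ m ∈ N, z' m = u * zTot m) :
    HM 3 (E ∪ S) ∅ ∅ fun m => if m ∈ E then z' m else -u * zTot m := by
  generalize hw : (fun m => if m ∈ E then z' m else -u * zTot m) = w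
  have wE : ∀ l ∈ E, w l = z' l := fun l hl => by rw [← hw]; exact if_pos hl
  have hTM : T ⊆ N ∪ E := fun _ hl => mem_union_right _ (h.tE hl)
  have hTt : T ⊆ Tot := fun _ hl => S_sub (T_sub hl)
  have wS : ∀ l ∈ S, w l = -u * zTot l := fun l hl => by
    by_cases hE : l ∈ E
    · have hT := h.tot hE (S_sub hl)
      rw [wE l hE, M3_T0 h hM hTM hT, M3_T0 h hm_Tot hTt hT, mul_zero]
    · rw [← hw]; exact if_neg hE
  have hu' : -u = 1 ∨ -u = -1 := by rcases hu with rfl | rfl <;> decide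
  have off : ∀ σ ∈ E ∪ S, σ ∉ T →
      (∃ l ∈ St (E ∪ S) σ, l.length = 3 + 1) ∧ Loc (St (E ∪ S) σ) w := by
    intro σ hσ hT
    rcases mem_union.1 hσ with hσ | hσ
    · have e1 : ∀ l ∈ St (N ∪ E) σ, l ∈ E := fun l hl => by
        rcases mem_union.1 (mem_St.1 hl).1 with h1 | h1
        · exact absurd (h.tot hσ (M3_face hm_Tot.1 h.cxE hσ (N_sub h1) (mem_St.1 hl).2)) hT
        · exact h1
      have e : ∀ l, l ∈ St (N ∪ E) σ ↔ l ∈ St (E ∪ S) σ := fun l => by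
        refine ⟨fun hl => mem_St.2 ⟨mem_union_left _ (e1 l hl), (mem_St.1 hl).2⟩, fun hl => ?_⟩
        rcases mem_union.1 (mem_St.1 hl).1 with h1 | h1
        · exact mem_St.2 ⟨mem_union_right _ h1, (mem_St.1 hl).2⟩
        · exact absurd (h.tot hσ (M3_face hm_Tot.1 h.cxE hσ (S_sub h1) (mem_St.1 hl).2)) hT
      obtain ⟨⟨l, hl, hn⟩, h2⟩ := M3_loc hM (mem_union_right _ hσ)
      exact ⟨⟨l, (e l).1 hl, hn⟩, loc_ext e (loc_congr 1 (Or.inl rfl)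
        (fun l hl => by rw [one_mul, wE l (e1 l hl)]) h2)⟩
    · have e1 : ∀ l ∈ St Tot σ, l ∈ S := fun l hl => by
        rcases (M3_NS l).1 (mem_St.1 hl).1 with h1 | h1
        · exact absurd (N_S (M3_face (h.cxN hM.1) cx_S hσ h1 (mem_St.1 hl).2) hσ) hT
        · exact h1
      have e : ∀ l, l ∈ St Tot σ ↔ l ∈ St (E ∪ S) σ := fun l => by
        refine ⟨fun hl => mem_St.2 ⟨mem_union_right _ (e1 l hl), (mem_St.1 hl).2⟩, fun hl => ?_⟩
        rcases mem_union.1 (mem_St.1 hl).1 with h1 | h1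
        · exact absurd (h.tot (M3_face h.cxE cx_S hσ h1 (mem_St.1 hl).2) (S_sub hσ)) hT
        · exact mem_St.2 ⟨S_sub h1, (mem_St.1 hl).2⟩
      obtain ⟨⟨l, hl, hn⟩, h2⟩ := M3_loc hm_Tot (S_sub hσ)
      exact ⟨⟨l, (e l).1 hl, hn⟩, loc_ext e (loc_congr (-u) hu' (fun l hl => wS l (e1 l hl)) h2)⟩
  have cyc : ∀ m, bz (E ∪ S) w m = 0 := fun m => by
    by_cases hT : m ∈ T
    · have h1 := M3_split (X := N) (Y := S) (Z := Tot) (c := zTot) M3_NS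
        (fun l h1 h2 => M3_T0 h hm_Tot hTt (N_S h1 h2)) (M3_TN hT) (T_sub hT)
      have h2 := M3_NE h hM hT
      rw [M3_cyc hm_Tot] at h1
      rw [M3_smul hz] at h2
      rw [M3_split (X := E) (Y := S) (fun _ => mem_union)
        (fun l h1 h2 => (wE l h1).trans (M3_T0 h hM hTM (h.tot h1 (S_sub h2)))) (h.tE hT)
        (T_sub hT), LocMV_congr wE, M3_smul wS]
      linear_combination h2 + u * h1
    · exact LocMV_int fun hm => (off m hm hT).2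
  refine ⟨h.cxK, fun _ hl => absurd hl (Finset.notMem_empty _), empty_subset _, fun l hl => ?_,
    fun σ hσ _ => ?_⟩
  · rcases mem_union.1 hl with hl | hl
    · rw [wE l hl]
      exact hM.2.2.2.1 l (mem_union_right _ hl)
    · rw [wS l hl, abs_mul, show |-u| = 1 by rcases hu with rfl | rfl <;> rfl, one_mul]
      exact hm_Tot.2.2.2.1 l (S_sub hl)
  rw [if_neg (Finset.notMem_empty _)]
  by_cases hT : σ ∈ T
  swap
  · exact off σ hσ hT
  obtain ⟨zE, hE⟩ := h.1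
  obtain ⟨ρ, hρ, hn⟩ := (hE.2.2.2.2 σ (h.tE hT) (fun _ _ => Set.notMem_empty _)).1
  obtain ⟨g1, g2, -⟩ := m3_gen h hM hT
  refine ⟨⟨ρ, M3_St subset_union_left hρ, hn⟩, mv_gen (S1 := St E σ) (S2 := St S σ)
    (sz_of_cvx h.cxK (cvx_St σ)) ?_ (cl_St h.cxE subset_union_left h.cxK σ)
    (cl_St cx_S subset_union_right h.cxK σ) g2 (m3_S h hM hT) (Tr0_zero fun m hm => ?_) ?_
    (loc_ext ?_ (loc_congr 1 (Or.inl rfl) (fun l _ => ?_) g1))⟩
  · exact Finset.ext fun l => by simp only [mem_union, mem_St, or_and_right]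
  · rw [bz_St _ _ _ hm, cyc]
  · intro l hl
    simp only [mem_inter, mem_St] at hl
    exact (wE l hl.1.1).trans (M3_T0 h hM hTM (h.tot hl.1.1 (S_sub hl.2.1)))
  · intro l
    simp only [mem_inter, mem_St]
    exact ⟨fun hl => ⟨⟨h.tE hl.1, hl.2⟩, T_sub hl.1, hl.2⟩,
      fun hl => ⟨h.tot hl.1.1 (S_sub hl.2.1), hl.1.2⟩⟩
  · rw [one_mul]
    exact LocMV_congr (fun l hl => wE l (mem_St.1 hl).1) l

end Pool.Agent.HT
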