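import Pool.Agent.Lib.MP_dae8ad_gt.H.M300

/-! The three-manifolds `N ∪ E` and `E ∪ S`. -/

open Finset Classical

noncomputable section

namespace Pool.Agent.HT

variable {V V' : Type}

variable {E : Finset (List A)} {ψ : A → A → ℤ}

theorem M30_S {l : List A} (h0 : l ≠ []) (h1 : l.Pairwise lt6)
    (h2 : ∀ v ∈ l, ∃ x r, v = .inl (x, r) ∧ x ∈ a0 ++ a1 ∧ (r = 1 ∨ r = 2)) : l ∈ S :=
  Dict_S.2 ⟨mem_Tot'.2 ⟨h0, h1, fun a b => (h2 a b).elim fun _ d => d.elim fun _ e =>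
    ⟨_, e.1⟩⟩, h2⟩

theorem M30_hor {x y : P} {r : Fin 6} (hr : r = 1 ∨ r = 2) (hx : x ∈ a0 ++ a1) (hy : y ∈ a0 ++ a1)
    (h : x.lt y = true) : [Sum.inl (x, r), Sum.inl (y, r)] ∈ T := by
  refine Dict_T.2 ⟨M30_S (by simp) (List.pairwise_pair.2 (Or.inl ⟨rfl, h⟩)) ?_,
    Or.inl ⟨r, by simp⟩⟩
  simp only [List.forall_mem_cons]
  exact ⟨⟨_, _, rfl, hx, hr⟩, ⟨_, _, rfl, hy, hr⟩, fun _ a => absurd a List.not_mem_nil⟩

theorem M30_ver {x : P} (hx : x ∈ a0 ++ a1) : [Sum.inl (x, 2), Sum.inl (x, 1)] ∈ T := by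
  refine Dict_T.2 ⟨M30_S (by simp) (by simp [lt6, P.le]) ?_, Or.inr ?_⟩
  · simp only [List.forall_mem_cons]
    exact ⟨⟨_, _, rfl, hx, Or.inr rfl⟩, ⟨_, _, rfl, hx, Or.inl rfl⟩,
      fun _ a => absurd a List.not_mem_nil⟩
  · simp only [List.forall_mem_cons]
    exact (List.mem_append.1 hx).imp
      (fun a => ⟨⟨_, _, rfl, a⟩, ⟨_, _, rfl, a⟩, fun _ b => absurd b List.not_mem_nil⟩)
      fun a => ⟨⟨_, _, rfl, a⟩, ⟨_, _, rfl, a⟩, fun _ b => absurd b List.not_mem_nil⟩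

/-- The edges of the curve `η`. -/
theorem per_congr {G : Type} [AddCommGroup G] {φ φ' : A → A → G}
    (h : ∀ a b, [a, b] ∈ T → φ a b = φ' a b) : per φ = per φ' := by
  have k : ∀ x y : P, x ∈ a0 ++ a1 → y ∈ a0 ++ a1 → x.lt y = true →
      φ (.inl (x, 1)) (.inl (y, 1)) = φ' (.inl (x, 1)) (.inl (y, 1)) := fun x y a b d =>
    h _ _ (M30_hor (Or.inl rfl) a b d)
  simp only [per]
  rw [k (.a false 0) (.e false 0) (by decide) (by decide) (by decide),
    k (.b false 0) (.e false 0) (by decide) (by decide) (by decide),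
    k (.b false 0) (.e false 10) (by decide) (by decide) (by decide),
    k (.a false 1) (.e false 10) (by decide) (by decide) (by decide),
    k (.a false 1) (.e false 1) (by decide) (by decide) (by decide),
    k (.b false 1) (.e false 1) (by decide) (by decide) (by decide),
    k (.b false 1) (.e false 6) (by decide) (by decide) (by decide),
    k (.a false 0) (.e false 6) (by decide) (by decide) (by decide)]

/-- An edge of `S` outside `T` is `[(x, 2), (y, 1)]`, the long side of the triangle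
`[(x, 2), (y, 2), (y, 1)]` whose other sides lie in `T`. -/
theorem coc_S_zero {G : Type} [AddCommGroup G] {φ : A → A → G} (hφ : CocS (S : Set (List A)) φ)
    (h : ∀ a b, [a, b] ∈ T → φ a b = 0) : ∀ a b, [a, b] ∈ S → φ a b = 0 := by
  intro a b hab
  obtain ⟨h1, h2⟩ := Dict_S.1 hab
  obtain ⟨x, r, rfl, hx, hr⟩ := h2 a (by simp)
  obtain ⟨y, r', rfl, hy, hr'⟩ := h2 b (by simp)
  have h3 : lt6 (.inl (x, r)) (.inl (y, r')) := List.pairwise_pair.1 (mem_Tot'.1 h1).2.1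
  rcases h3 with ⟨rfl, h3⟩ | ⟨h3, h4, h5⟩ | ⟨rfl, -⟩
  · exact h _ _ (M30_hor hr hx hy h3)
  · obtain rfl : r = 2 := hr.resolve_left (by rintro rfl; exact absurd h3 (by decide))
    obtain rfl : r' = 1 := hr'.resolve_right (by rintro rfl; exact absurd h4 (by decide))
    rcases h5 with rfl | h5
    · exact h _ _ (M30_ver hx)
    · rw [hφ _ (.inl (y, 2)) _ (mem_coe.2 (M30_S (by simp) ?_ ?_)),
        h _ _ (M30_hor (Or.inr rfl) hx hy h5), h _ _ (M30_ver hy), add_zero]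
      · simp [lt6, P.le, h5]
      · simp only [List.forall_mem_cons]
        exact ⟨⟨_, _, rfl, hx, Or.inr rfl⟩, ⟨_, _, rfl, hy, Or.inr rfl⟩, ⟨_, _, rfl, hy, Or.inl rfl⟩,
          fun _ a => absurd a List.not_mem_nil⟩
  · exact absurd hr (by decide)

theorem Ext.norm (h : Ext E ψ) {φ : A → A → ℤ} (hφ : Coc (E ∪ S) φ) :
    ∃ g : A → ℤ, ∀ a b, [a, b] ∈ E ∪ S → φ a b = per φ * ψ a b + g b - g a := by
  obtain ⟨k, g, h1⟩ := h.2.2.2.2.2.1 φ fun u v w a => hφ u v w (mem_union_left _ a)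
  have h2 := coc_S_zero (φ := fun a b => φ a b - (k * ψ a b + g b - g a))
    (fun u v w a => by
      have a' := mem_union_right E (mem_coe.1 a)
      simp only [hφ u v w a', h.2.2.2.1 u v w a']
      ring) fun a b d => sub_eq_zero.2 (h1 a b (h.tE d))
  have h3 : per φ = k := by
    have h4 := h.2.2.2.2.1
    rw [per_congr (φ' := fun a b => k * ψ a b + g b - g a) fun a b d => h1 a b (h.tE d)]
    simp only [per] at h4 ⊢
    linear_combination k * h4
  refine ⟨g, fun a b d => ?_⟩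
  rw [h3]
  exact (mem_union.1 d).elim (h1 a b) fun e => sub_eq_zero.1 (h2 a b e)

/-- `bd_acy` for `E`; `betti_ses` for `E ⊆ E ∪ S`, whose complement is `S \ T`. -/
theorem Ext.small (h : Ext E ψ) : Small (E \ T) ψ 0 ∧ Small (S \ T) ψ 0 := by
  obtain ⟨z, hz⟩ := h.1
  refine ⟨small_ext (by intro l; simp) (bd_acy hz (fun u v w a =>
    h.2.2.2.1 u v w (mem_union_left _ a)) h.2.2.2.2.2.2.1).2, fun F K _ _ _ s hs => ?_⟩
  have h1 := (betti_ses (sq_of_cvx h.cxK h.2.2.2.1 cvx_self s)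
    (cl_sub h.cxE subset_union_left fun l hl => (h.cxK l hl).1)).2.2
  have h2 := h.2.2.2.2.2.2.1 F K s hs
  have h3 := h.2.2.2.2.2.2.2 F K s hs
  refine (betti_ext fun l => ?_).trans_le (h1.trans (add_le_add h3 h2))
  simp only [mem_sdiff, mem_union]
  exact ⟨fun a => ⟨Or.inr a.1, fun b => a.2 (h.tot b (S_sub a.1))⟩,
    fun a => ⟨a.1.resolve_left a.2, fun b => a.2 (h.tE b)⟩⟩

/-- Top chains have boundaries one length below. -/
theorem bz_len {X : Finset (List V)} {z : List V → ℤ} {k : ℕ}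
    (hz : ∀ l ∈ X, l.length ≠ k + 1 → z l = 0) {m : List V} (hm : m.length ≠ k) :
    bz X z m = 0 := by
  exact LocMV_len hz hm

theorem WD.hm3 {W : Finset (List V)} {z : List V → ℤ} {Φ : V → V → ℤ} {ι : A → V}
    (D : WD E W z Φ ι) : HM 3 (N ∪ E) ∅ ∅ fun m => bz W z (m.map ι) := by
  exact (hm_map D.inj D.cx (empty_subset _) fun _ _ => rfl).2
    (hm_ext (fun _ => Iff.rfl) (by simp) (hm_bd D.hm).1)

theorem wd_of_null (h : Ext E ψ) (h0 : Null (N ∪ E) tau 1 0) :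
    ∃ (V : Type) (W : Finset (List V)) (z : List V → ℤ) (Φ : V → V → ℤ) (ι : A → V),
      WD E W z Φ ι := by
  obtain ⟨V, Y, z, Φ, ι, Bad, h1, h2, h3, -, h5, h6, -, h8, h9⟩ := h0
  have hB : ∀ l, l ∈ (univ.biUnion fun i => (N ∪ E).image (List.map (ι i))) ↔
      l ∈ (N ∪ E).image (List.map (ι 0)) := fun l => by
    rw [univ_unique, singleton_biUnion]
    rfl
  have nb : ∀ l ∈ Y, ∀ v ∈ l, v ∉ Bad := fun l a v b d =>
    (card_pos.2 ⟨l, mem_filter.2 ⟨a, v, b, d⟩⟩).not_ge h8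
  have hm : HM 4 Y ((N ∪ E).image (List.map (ι 0))) ∅ z := hm_ext (fun _ => Iff.rfl) hB
    ⟨h1.1, h1.2.1, h1.2.2.1, h1.2.2.2.1, fun σ a _ => h1.2.2.2.2 σ a (nb σ a)⟩
  have inj : InjV (N ∪ E) (ι 0) := fun a b ha hb e => (h3 0 0 a b ha hb e).2
  have vt : ∀ l ∈ N ∪ E, ∀ v ∈ l, [v] ∈ N ∪ E := fun l a v b => by
    rcases mem_union.1 a with d | d
    · obtain ⟨u, rfl⟩ := (mem_Tot'.1 (N_sub d)).2.2 v b
      exact mem_union_left _ (vert_N u)
    · exact mem_union_right _ (vert_mem h.cxE d b)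
  refine ⟨V, Y, z, Φ, ι 0, hm, h2, fun l hl => ?_, inj, fun l a b => ?_, h6 0, h9⟩
  · obtain ⟨a1, a2, a3, a4⟩ := hm.2.1 _ (mem_image_of_mem _ hl)
    refine ⟨fun e => a1 (by rw [e, List.map_nil]), a2.of_map _, fun m b d => ?_, fun m b d =>
      Tr_inj inj m l (vt m b) (vt l hl) (a4 _ (mem_image_of_mem _ b) (d.map _))⟩
    obtain ⟨m', b1, b2⟩ := mem_image.1 (a3 _ (fun e => b (List.map_eq_nil_iff.1 e)) (d.map (ι 0)))
    rwa [← Tr_inj inj m' m (vt m' b1) (fun v e => vt l hl v (d.subset e)) b2]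
  · obtain ⟨i, m, d, e⟩ := h5 l a fun v hv => ⟨0, b v hv⟩
    exact ⟨m, d, Subsingleton.elim i 0 ▸ e⟩

end Pool.Agent.HT
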