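import Pool.Agent.Lib.MP_dae8ad_gt.H.PoHM0

/-! The mapping torus of a face poset: order, ranks and signs. -/

open Finset Classical

noncomputable section

namespace Pool.Agent.HT

variable {V V' : Type}

variable {Q : Type}

/-- A vertical edge of the hexagon, from a low to a high level. -/
def Ed (r r' : Fin 6) : Prop :=
  r.1 % 2 = 0 ∧ (r'.1 = r.1 + 1 ∨ r'.1 + 1 = r.1 ∨ (r = 0 ∧ r' = 5))

instance : DecidableRel Ed := fun r r' => by unfold Ed; infer_instance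

/-- The identification along a vertical edge. -/
def th (θ : Equiv.Perm Q) (r r' : Fin 6) : Equiv.Perm Q := if r = 0 ∧ r' = 5 then θ else 1

theorem ltT_iff (lt : Q → Q → Prop) (θ : Equiv.Perm Q) (x y : Q) (r r' : Fin 6) :
    ltT lt θ (x, r) (y, r') ↔
      (r = r' ∧ lt x y) ∨ (Ed r r' ∧ (th θ r r' x = y ∨ lt (th θ r r' x) y)) := by
  refine or_congr Iff.rfl ?_
  by_cases h : r = 0 ∧ r' = 5
  · obtain ⟨rfl, rfl⟩ := h
    simp [Ed, th]
  · simp only [Ed, th, Equiv.Perm.one_apply, h, or_false, ← and_assoc, false_and,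
      if_false]

/-- Every low level has two high neighbours with opposite directions, and conversely. -/
theorem ed_up : ∀ r : Fin 6, r.1 % 2 = 0 → ∃ r₁ r₂, r₁ ≠ r₂ ∧ (∀ r', Ed r r' ↔ r' = r₁ ∨ r' = r₂) ∧
    dir r r₁ = 1 ∧ dir r r₂ = -1 := by
  decide

theorem ed_down : ∀ r : Fin 6, r.1 % 2 = 1 → ∃ r₁ r₂, r₁ ≠ r₂ ∧
    (∀ r', Ed r' r ↔ r' = r₁ ∨ r' = r₂) ∧ dir r₁ r = 1 ∧ dir r₂ r = -1 := by
  decide

theorem ed_par : ∀ r r' : Fin 6, Ed r r' → r.1 % 2 = 0 ∧ r'.1 % 2 = 1 ∧ r ≠ r' := by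
  decide

theorem PoTor0_dir : ∀ r r' : Fin 6, Ed r r' → dir r r' = 1 ∨ dir r r' = -1 := by
  decide

theorem PoTor0_tau : ∀ r r' r'' : Fin 6, r = r' ∨ Ed r r' → r' = r'' ∨ Ed r' r'' →
    (if r = 0 ∧ r'' = 5 then (-1 : ℤ) else 0) =
      (if r = 0 ∧ r' = 5 then -1 else 0) + if r' = 0 ∧ r'' = 5 then -1 else 0 := by
  decide

theorem PoTor0_ed2 {r r' r'' : Fin 6} (h : Ed r r') (h' : Ed r' r'') : False := by
  have := (ed_par _ _ h).2.1
  have := (ed_par _ _ h').1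
  omega

theorem PoTor0_hor [Fintype Q] {p : Q × Fin 6 → Prop} {p' : Q → Prop} [DecidablePred p]
    [DecidablePred p'] (r : Fin 6) (h : ∀ x r', p (x, r') ↔ r' = r ∧ p' x) (f : Q × Fin 6 → ℤ) :
    ∑ u ∈ univ.filter p, f u = ∑ x ∈ univ.filter p', f (x, r) := by
  refine sum_nbij' (fun u => u.1) (fun x => (x, r)) ?_ ?_ ?_ (fun _ _ => rfl) ?_
  · rintro ⟨x, r'⟩ hu
    exact mem_filter.2 ⟨mem_univ _, ((h _ _).1 (mem_filter.1 hu).2).2⟩
  · exact fun x hx => mem_filter.2 ⟨mem_univ _, (h _ _).2 ⟨rfl, (mem_filter.1 hx).2⟩⟩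
  · rintro ⟨x, r'⟩ hu
    rw [((h _ _).1 (mem_filter.1 hu).2).1]
  · rintro ⟨x, r'⟩ hu
    rw [((h _ _).1 (mem_filter.1 hu).2).1]

theorem PoTor0_pair [Fintype Q] {p : Q × Fin 6 → Prop} [DecidablePred p] {x₁ x₂ : Q}
    {r₁ r₂ : Fin 6} (hr : r₁ ≠ r₂)
    (h : ∀ x r, p (x, r) ↔ (r = r₁ ∧ x = x₁) ∨ (r = r₂ ∧ x = x₂)) (f : Q × Fin 6 → ℤ) :
    ∑ u ∈ univ.filter p, f u = f (x₁, r₁) + f (x₂, r₂) := by
  rw [← sum_pair fun e : (x₁, r₁) = (x₂, r₂) => hr (congrArg Prod.snd e)]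
  refine sum_congr (Finset.ext ?_) fun _ _ => rfl
  rintro ⟨x, r⟩
  simp only [mem_filter, mem_univ, true_and, h, mem_insert, mem_singleton, Prod.mk.injEq,
    and_comm]

variable [Fintype Q] {lt : Q → Q → Prop} {rk : Q → ℕ} {s : Q → Q → ℤ} {b : Q → Prop} {n : ℕ}
  {θ : Equiv.Perm Q}

omit [Fintype Q] in
theorem Aut.th (a : Aut lt rk s b θ) (r r' : Fin 6) : Aut lt rk s b (th θ r r') := by
  unfold HT.th
  split_ifs
  · exact a
  · exact ⟨fun _ _ => Iff.rfl, fun _ => rfl, fun _ _ => rfl, fun _ => Iff.rfl⟩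

omit [Fintype Q] in
theorem PoTor0_rk (a : Aut lt rk s b θ) (y : Q) : rk (θ.symm y) = rk y := by
  rw [← a.rk, Equiv.apply_symm_apply]

theorem tor_tr (h : IC lt rk s b n) (a : Aut lt rk s b θ) :
    ∀ x y w, ltT lt θ x y → ltT lt θ y w → ltT lt θ x w := by
  rintro ⟨x, r⟩ ⟨y, r'⟩ ⟨w, r''⟩
  simp only [ltT_iff]
  rintro (⟨rfl, h1⟩ | ⟨e1, h1⟩) (⟨rfl, h2⟩ | ⟨e2, h2⟩)
  · exact .inl ⟨rfl, h.tr _ _ _ h1 h2⟩
  · have h3 := ((a.th r r'').lt x y).2 h1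
    exact .inr ⟨e2, .inr (h2.elim (fun e => e ▸ h3) (h.tr _ _ _ h3))⟩
  · exact .inr ⟨e1, .inr (h1.elim (fun e => e ▸ h2) fun h1 => h.tr _ _ _ h1 h2)⟩
  · exact (PoTor0_ed2 e1 e2).elim

theorem tor_rk (h : IC lt rk s b n) (a : Aut lt rk s b θ) :
    (∀ x y, ltT lt θ x y → rkT rk x < rkT rk y) ∧ (∀ x, rkT rk x ≤ n + 1) ∧
      ∀ x y, ltT lt θ x y → b y.1 → b x.1 := by
  refine ⟨?_, fun x => ?_, ?_⟩
  · rintro ⟨x, r⟩ ⟨y, r'⟩
    simp only [ltT_iff, rkT]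
    rintro (⟨rfl, h1⟩ | ⟨e1, h1⟩)
    · have := h.rk_lt _ _ h1
      omega
    · obtain ⟨p1, p2, -⟩ := ed_par _ _ e1
      have k := (a.th r r').rk x
      rcases h1 with rfl | h1
      · omega
      · have := h.rk_lt _ _ h1
        omega
  · have := h.rk_le x.1
    unfold rkT
    omega
  · rintro ⟨x, r⟩ ⟨y, r'⟩
    simp only [ltT_iff]
    rintro (⟨rfl, h1⟩ | ⟨-, rfl | h1⟩) hb
    · exact h.low _ _ h1 hb
    · exact ((a.th r r').b x).1 hb
    · exact ((a.th r r').b x).1 (h.low _ _ h1 hb)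

theorem tor_pure (h : IC lt rk s b n) (a : Aut lt rk s b θ) :
    (∀ y, 0 < rkT rk y → ∃ x, ltT lt θ x y) ∧
      (∀ x y, ltT lt θ x y → rkT rk x + 1 < rkT rk y → ∃ u, ltT lt θ x u ∧ ltT lt θ u y) ∧
      ∀ x, rkT rk x < n + 1 → ∃ y, ltT lt θ x y := by
  refine ⟨?_, ?_, ?_⟩
  · rintro ⟨y, r⟩ hy
    simp only [rkT] at hy
    rcases Nat.mod_two_eq_zero_or_one r.1 with p | p
    · obtain ⟨x, hx⟩ := h.p0 y (by omega)
      exact ⟨(x, r), .inl ⟨rfl, hx⟩⟩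
    · obtain ⟨r₁, r₂, -, e, -⟩ := ed_down r p
      exact ⟨((th θ r₁ r).symm y, r₁), (ltT_iff ..).2
        (.inr ⟨(e _).2 (.inl rfl), .inl (Equiv.apply_symm_apply ..)⟩)⟩
  · rintro ⟨x, r⟩ ⟨y, r'⟩ h1 h2
    simp only [rkT] at h2
    rw [ltT_iff] at h1
    rcases h1 with ⟨rfl, h1⟩ | ⟨e1, h1⟩
    · obtain ⟨u, h3, h4⟩ := h.p1 x y h1 (by omega)
      exact ⟨(u, r), .inl ⟨rfl, h3⟩, .inl ⟨rfl, h4⟩⟩
    · obtain ⟨p1, p2, -⟩ := ed_par _ _ e1
      have k := (a.th r r').rk x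
      refine ⟨(th θ r r' x, r'), (ltT_iff ..).2 (.inr ⟨e1, .inl rfl⟩), .inl ⟨rfl, ?_⟩⟩
      exact h1.resolve_left fun e => by rw [e] at k; omega
  · rintro ⟨x, r⟩ hx
    simp only [rkT] at hx
    rcases Nat.mod_two_eq_zero_or_one r.1 with p | p
    · obtain ⟨r₁, r₂, -, e, -⟩ := ed_up r p
      exact ⟨(th θ r r₁ x, r₁), (ltT_iff ..).2 (.inr ⟨(e _).2 (.inl rfl), .inl rfl⟩)⟩
    · obtain ⟨y, hy⟩ := h.p2 x (by omega)
      exact ⟨(y, r), .inl ⟨rfl, hy⟩⟩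

theorem tor_unit (h : IC lt rk s b n) (a : Aut lt rk s b θ) :
    ∀ x y, ltT lt θ x y → rkT rk y = rkT rk x + 1 → sT rk s x y = 1 ∨ sT rk s x y = -1 := by
  rintro ⟨x, r⟩ ⟨y, r'⟩ h1 h2
  simp only [rkT] at h2
  rw [ltT_iff] at h1
  rcases h1 with ⟨rfl, h1⟩ | ⟨e1, -⟩
  · simpa only [sT, if_true] using h.unit x y h1 (by omega)
  · simp only [sT, if_neg (ed_par _ _ e1).2.2]
    rcases PoTor0_dir _ _ e1 with e | e <;> rcases neg_one_pow_eq_or ℤ (rk x) with e' | e' <;>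
      simp [e, e']

/-- A low `y` has only horizontal faces; a high `y` of rank one has two vertical faces. -/
theorem tor_c0 (h : IC lt rk s b n) (a : Aut lt rk s b θ) : ∀ y, rkT rk y = 1 →
    ∑ x ∈ univ.filter (fun x => ltT lt θ x y), sT rk s x y = 0 := by
  rintro ⟨y, r⟩ hy
  simp only [rkT] at hy
  rcases Nat.mod_two_eq_zero_or_one r.1 with p | p
  · rw [PoTor0_hor (p := fun x => ltT lt θ x (y, r)) (p' := fun x => lt x y) r fun x r' =>
      (ltT_iff lt θ x y r' r).trans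
      (or_iff_left fun e => by have := (ed_par _ _ e.1).2.1; omega)]
    simpa only [sT, if_true] using h.c0 y (by omega)
  · obtain ⟨r₁, r₂, hr, e, d1, d2⟩ := ed_down r p
    have n0 : ∀ x, ¬lt x y := fun x hx => by have := h.rk_lt _ _ hx; omega
    rw [PoTor0_pair (x₁ := (th θ r₁ r).symm y) (x₂ := (th θ r₂ r).symm y) hr fun x r' => by
      simp only [ltT_iff, n0, and_false, false_or, or_false, e, Equiv.eq_symm_apply, or_and_right]
      exact or_congr (and_congr_right fun e => by rw [e]) (and_congr_right fun e => by rw [e])]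
    simp only [sT, if_neg (ed_par _ _ ((e _).2 (.inl rfl))).2.2,
      if_neg (ed_par _ _ ((e _).2 (.inr rfl))).2.2, d1, d2, PoTor0_rk (a.th _ _)]
    ring

/-- Horizontal intervals are those of `Q`. If `x` is low, `y` is high and the ranks differ by
two, then `y.1` covers `th x.1` and the interval has the two elements `(th⁻¹ y.1, x.2)`,
`(th x.1, y.2)`. -/
theorem tor_c1 (h : IC lt rk s b n) (a : Aut lt rk s b θ) : ∀ x y, ltT lt θ x y →
    rkT rk y = rkT rk x + 2 →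
    ∑ u ∈ univ.filter (fun u => ltT lt θ x u ∧ ltT lt θ u y), sT rk s x u * sT rk s u y = 0 := by
  rintro ⟨x, r⟩ ⟨y, r'⟩ h1 h2
  simp only [rkT] at h2
  rw [ltT_iff] at h1
  rcases h1 with ⟨rfl, h1⟩ | ⟨e1, h1⟩
  · rw [PoTor0_hor (p' := fun u => lt x u ∧ lt u y) r fun u r' => ?_]
    · simpa only [sT, if_true] using h.c1 x y h1 (by omega)
    simp only [ltT_iff]
    constructor
    · rintro ⟨⟨rfl, k1⟩ | ⟨e1, -⟩, ⟨e, k2⟩ | ⟨e2, -⟩⟩
      · exact ⟨rfl, k1, k2⟩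
      · exact absurd rfl (ed_par _ _ e2).2.2
      · exact absurd e.symm (ed_par _ _ e1).2.2
      · exact (PoTor0_ed2 e1 e2).elim
    · rintro ⟨rfl, k1, k2⟩
      exact ⟨.inl ⟨rfl, k1⟩, .inl ⟨rfl, k2⟩⟩
  · obtain ⟨p1, p2, hr⟩ := ed_par _ _ e1
    have a' := a.th r r'
    have k := a'.rk x
    have k0 : rk y = rk x + 1 := by omega
    replace h1 : lt (th θ r r' x) y := h1.resolve_left fun e => by rw [e] at k; omega
    rw [PoTor0_pair (x₁ := (th θ r r').symm y) (x₂ := th θ r r' x) hr fun u r'' => ?_]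
    · simp only [sT, if_true, if_neg hr, PoTor0_rk a', k0]
      rw [← a'.s x, Equiv.apply_symm_apply]
      ring
    simp only [ltT_iff]
    constructor
    · rintro ⟨⟨rfl, k1⟩ | ⟨e2, k1⟩, ⟨e, k2⟩ | ⟨e3, k2⟩⟩
      · exact absurd e hr
      · refine .inl ⟨rfl, (Equiv.eq_symm_apply _).2 (k2.resolve_right fun k2 => ?_)⟩
        have := h.rk_lt _ _ k1
        have := h.rk_lt _ _ k2
        have := a'.rk u
        omega
      · subst e
        refine .inr ⟨rfl, (k1.resolve_right fun k1 => ?_).symm⟩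
        have := h.rk_lt _ _ k1
        have := h.rk_lt _ _ k2
        omega
      · exact (PoTor0_ed2 e2 e3).elim
    · rintro (⟨rfl, rfl⟩ | ⟨rfl, rfl⟩)
      · refine ⟨.inl ⟨rfl, (a'.lt _ _).1 ?_⟩, .inr ⟨e1, .inl (Equiv.apply_symm_apply ..)⟩⟩
        rwa [Equiv.apply_symm_apply]
      · exact ⟨.inr ⟨e1, .inl rfl⟩, .inl ⟨rfl, h1⟩⟩

theorem tor_c2 (h : IC lt rk s b n) (a : Aut lt rk s b θ) : ∀ x : Q × Fin 6, ¬b x.1 →
    rkT rk x + 1 = n + 1 → ∑ y ∈ univ.filter (fun y => ltT lt θ x y), sT rk s x y = 0 := by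
  rintro ⟨x, r⟩ hb hx
  simp only [rkT] at hx
  rcases Nat.mod_two_eq_zero_or_one r.1 with p | p
  · obtain ⟨r₁, r₂, hr, e, d1, d2⟩ := ed_up r p
    have n0 : ∀ y, ¬lt x y := fun y hy => by
      have := h.rk_lt _ _ hy
      have := h.rk_le y
      omega
    have n1 : ∀ r' y, ¬lt (th θ r r' x) y := fun r' y hy => by
      have := h.rk_lt _ _ hy
      have := h.rk_le y
      have := (a.th r r').rk x
      omega
    rw [PoTor0_pair (x₁ := th θ r r₁ x) (x₂ := th θ r r₂ x) hr fun y r' => by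
      simp only [ltT_iff, n0, n1, and_false, false_or, or_false, e, or_and_right]
      exact or_congr (and_congr_right fun e => by rw [e, eq_comm])
        (and_congr_right fun e => by rw [e, eq_comm])]
    simp only [sT, if_neg (ed_par _ _ ((e _).2 (.inl rfl))).2.2,
      if_neg (ed_par _ _ ((e _).2 (.inr rfl))).2.2, d1, d2]
    ring
  · rw [PoTor0_hor (p' := fun y => lt x y) r fun y r' => (ltT_iff ..).trans
      ((or_iff_left fun e => by have := (ed_par _ _ e.1).1; omega).trans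
        (and_congr_left' eq_comm))]
    simpa only [sT, if_true] using h.c2 x hb (by omega)

theorem coc_tauT (h : IC lt rk s b n) (a : Aut lt rk s b θ) : Coc (Ch (ltT lt θ)) tauT := by
  rintro ⟨x, r⟩ ⟨y, r'⟩ ⟨w, r''⟩ hm
  have hp := ((mem_Ch fun u hu => lt_irrefl _ ((tor_rk h a).1 u u hu)).1 hm).2
  simp only [List.pairwise_cons, List.mem_cons, List.not_mem_nil, or_false, forall_eq_or_imp,
    forall_eq, ltT_iff] at hp
  exact PoTor0_tau r r' r'' (hp.1.1.imp And.left And.left) (hp.2.1.imp And.left And.left)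

end Pool.Agent.HT
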