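import Pool.Agent.Lib.MP_dae8ad_gt.H.AcyTri
import Pool.Agent.Lib.MP_dae8ad_gt.H.PoTor0

/-! Mapping tori are acyclic. -/

open Finset Classical

noncomputable section

namespace Pool.Agent.HT

variable {V V' : Type}

variable {Q : Type} [Fintype Q] {lt : Q → Q → Prop} {rk : Q → ℕ} {s : Q → Q → ℤ} {b : Q → Prop}
  {n : ℕ} {θ : Equiv.Perm Q}

/-- A vertical pair. -/
def Vp (θ : Equiv.Perm Q) (u v : Q × Fin 6) : Prop := Ed u.2 v.2 ∧ th θ u.2 v.2 u.1 = v.1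

/-- Chains that contain a vertical pair. -/
def Dup (θ : Equiv.Perm Q) (l : List (Q × Fin 6)) : Prop := ∃ u ∈ l, ∃ v ∈ l, Vp θ u v

/-- The point one level above. -/
def TorAcy_s (θ : Equiv.Perm Q) (u : Q × Fin 6) : Q × Fin 6 :=
  (if u.2 = 5 then θ.symm u.1 else u.1, u.2 + 1)

/-- The horizontal order, reversed on the high levels. -/
def TorAcy_K (lt : Q → Q → Prop) (u w : Q × Fin 6) : Prop :=
  u.2 = w.2 ∧ if u.2.1 % 2 = 0 then lt u.1 w.1 else lt w.1 u.1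

/-- Comparable points. -/
def TorAcy_C (lt : Q → Q → Prop) (θ : Equiv.Perm Q) (u w : Q × Fin 6) : Prop :=
  ltT lt θ u w ∨ ltT lt θ w u

omit [Fintype Q] in
theorem TorAcy_bij (θ : Equiv.Perm Q) : Function.Bijective (TorAcy_s θ) :=
  Function.bijective_iff_has_inverse.2 ⟨fun u => (if u.2 = 0 then θ u.1 else u.1, u.2 + 5),
    fun ⟨x, r⟩ => by fin_cases r <;> simp [TorAcy_s], fun ⟨x, r⟩ => by
      fin_cases r <;> simp [TorAcy_s]⟩

omit [Fintype Q] in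
theorem TorAcy_vp {u v : Q × Fin 6} : Vp θ u v ↔ u.2.1 % 2 = 0 ∧
    ((dir u.2 v.2 = 1 ∧ TorAcy_s θ u = v) ∨ (dir u.2 v.2 ≠ 1 ∧ TorAcy_s θ v = u)) := by
  obtain ⟨x, r⟩ := u
  obtain ⟨y, r'⟩ := v
  fin_cases r <;> fin_cases r' <;>
    simp [Vp, Ed, th, dir, TorAcy_s, Equiv.eq_symm_apply, eq_comm]

omit [Fintype Q] in
theorem TorAcy_dup {l : List (Q × Fin 6)} : Dup θ l ↔ ∃ x ∈ l, TorAcy_s θ x ∈ l := by
  refine ⟨fun ⟨u, hu, v, hv, p⟩ => ?_, fun ⟨⟨x, r⟩, h1, h2⟩ => ?_⟩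
  · rcases (TorAcy_vp.1 p).2 with k | k
    exacts [⟨u, hu, k.2 ▸ hv⟩, ⟨v, hv, k.2 ▸ hu⟩]
  · have : ∀ r : Fin 6, (r.1 % 2 = 0 ∧ dir r (r + 1) = 1) ∨
      ((r + 1).1 % 2 = 0 ∧ dir (r + 1) r ≠ 1) := by decide
    rcases this r with k | k
    · exact ⟨_, h1, _, h2, TorAcy_vp.2 ⟨k.1, Or.inl ⟨k.2, rfl⟩⟩⟩
    · exact ⟨_, h2, _, h1, TorAcy_vp.2 ⟨k.1, Or.inr ⟨k.2, rfl⟩⟩⟩

omit [Fintype Q] in
theorem TorAcy_flip (a : Aut lt rk s b θ) (u w : Q × Fin 6) :
    TorAcy_K lt (TorAcy_s θ u) (TorAcy_s θ w) ↔ TorAcy_K lt w u := by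
  have e : ∀ x y, lt (θ.symm x) (θ.symm y) ↔ lt x y := fun x y => by
    rw [← a.lt, θ.apply_symm_apply, θ.apply_symm_apply]
  obtain ⟨x, r⟩ := u
  obtain ⟨y, r'⟩ := w
  fin_cases r <;> fin_cases r' <;> simp [TorAcy_K, TorAcy_s, e]

omit [Fintype Q] in
theorem TorAcy_cmp (a : Aut lt rk s b θ) {u w : Q × Fin 6} : TorAcy_C lt θ u w ↔
    (TorAcy_K lt u w ∨ TorAcy_K lt w u) ∨ (TorAcy_s θ u = w ∨ TorAcy_K lt w (TorAcy_s θ u)) ∨
      TorAcy_s θ w = u ∨ TorAcy_K lt u (TorAcy_s θ w) := by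
  have e : ∀ x y, lt x (θ.symm y) ↔ lt (θ x) y := fun x y => by rw [← a.lt, θ.apply_symm_apply]
  obtain ⟨x, r⟩ := u
  obtain ⟨y, r'⟩ := w
  fin_cases r <;> fin_cases r' <;>
    simp [TorAcy_C, ltT, TorAcy_K, TorAcy_s, e, Equiv.eq_symm_apply, or_comm, eq_comm]

omit [Fintype Q] in
theorem TorAcy_lev (a : Aut lt rk s b θ) {u w : Q × Fin 6} (h : TorAcy_C lt θ u w) :
    (w.2 = u.2 ∨ w.2 = u.2 + 1 ∨ u.2 = w.2 + 1) ∧
    (w.2 = u.2 → TorAcy_K lt u w ∨ TorAcy_K lt w u) ∧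
    (w.2 = u.2 + 1 → TorAcy_s θ u = w ∨ TorAcy_K lt w (TorAcy_s θ u)) := by
  have e : ∀ r : Fin 6, r ≠ r + 1 ∧ r ≠ r + 1 + 1 := by decide
  rcases (TorAcy_cmp a).1 h with k | k | k
  · have : w.2 = u.2 := k.elim (fun k => k.1.symm) fun k => k.1
    exact ⟨Or.inl this, fun _ => k, fun j => absurd (this.symm.trans j) (e _).1⟩
  · have : w.2 = u.2 + 1 := k.elim (fun k => k ▸ rfl) fun k => k.1
    exact ⟨Or.inr (Or.inl this), fun j => absurd (j.symm.trans this) (e _).1, fun _ => k⟩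
  · have : u.2 = w.2 + 1 := k.elim (fun k => k ▸ rfl) fun k => k.1
    exact ⟨Or.inr (Or.inr this), fun j => absurd (j.trans this) (e _).1,
      fun j => absurd (j ▸ this) (e _).2⟩

theorem TorAcy_rk (h : IC lt rk s b n) : ∃ f : Q × Fin 6 → ℤ,
    ∀ u w, TorAcy_K lt u w → f u < f w := by
  refine ⟨fun u => if u.2.1 % 2 = 0 then rk u.1 else -rk u.1, fun u w k => ?_⟩
  obtain ⟨k1, k2⟩ := k
  simp only [← k1]
  split_ifs at k2 ⊢
  · exact_mod_cast h.rk_lt _ _ k2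
  · exact neg_lt_neg (by exact_mod_cast h.rk_lt _ _ k2)

theorem TorAcy_asymm (h : IC lt rk s b n) {u w : Q × Fin 6} (h1 : TorAcy_K lt u w)
    (h2 : TorAcy_K lt w u) : False :=
  (TorAcy_rk h).elim fun _ hf => lt_asymm (hf _ _ h1) (hf _ _ h2)

theorem TorAcy_irr (h : IC lt rk s b n) (a : Aut lt rk s b θ) (x : Q × Fin 6) : ¬ltT lt θ x x :=
  fun k => lt_irrefl _ ((tor_rk h a).1 x x k)

theorem TorAcy_ch (h : IC lt rk s b n) (a : Aut lt rk s b θ) {l : List (Q × Fin 6)}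
    (hl : l ∈ Ch (ltT lt θ)) {u w : Q × Fin 6} (hu : u ∈ l) (hw : w ∈ l) (e : u ≠ w) :
    TorAcy_C lt θ u w :=
  have : Std.Symm (TorAcy_C lt θ) := ⟨fun _ _ => Or.symm⟩
  (((mem_Ch (TorAcy_irr h a)).1 hl).2.imp (S := TorAcy_C lt θ) Or.inl).forall hu hw e

theorem TorAcy_two (h : IC lt rk s b n) (a : Aut lt rk s b θ) {l : List (Q × Fin 6)}
    (hl : l ∈ Ch (ltT lt θ)) {u v w : Q × Fin 6} (hu : u ∈ l) (hv : v ∈ l) (e : v.2 = u.2 + 1)
    (hw : w ∈ l) : w.2 = u.2 ∨ w.2 = u.2 + 1 := by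
  have k : ∀ r r' : Fin 6, (r' = r ∨ r' = r + 1 ∨ r = r' + 1) →
    (r' = r + 1 ∨ r' = r + 1 + 1 ∨ r + 1 = r' + 1) → r' = r ∨ r' = r + 1 := by decide
  by_cases h1 : u = w
  · exact Or.inl (h1 ▸ rfl)
  by_cases h2 : v = w
  · exact Or.inr (h2 ▸ e)
  exact k _ _ (TorAcy_lev a (TorAcy_ch h a hl hu hw h1)).1
    (e ▸ (TorAcy_lev a (TorAcy_ch h a hl hv hw h2)).1)

omit [Fintype Q] in
theorem TorAcy_ne {u w : Q × Fin 6} (e : w.2 = u.2) : u ≠ TorAcy_s θ w := fun k =>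
  (by decide : ∀ r : Fin 6, r ≠ r + 1) _ (e.trans (congrArg Prod.snd k))

theorem TorAcy_uniq (h : IC lt rk s b n) (a : Aut lt rk s b θ) {l : List (Q × Fin 6)}
    (hl : l ∈ Ch (ltT lt θ)) {x y : Q × Fin 6} (hx : x ∈ l) (hx' : TorAcy_s θ x ∈ l) (hy : y ∈ l)
    (hy' : TorAcy_s θ y ∈ l) : x = y := by
  have k : ∀ r r' : Fin 6, (r' = r ∨ r' = r + 1) → (r' + 1 = r ∨ r' + 1 = r + 1) → r' = r := by
    decide
  have e := k _ _ (TorAcy_two h a hl hx hx' rfl hy) (TorAcy_two h a hl hx hx' rfl hy')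
  rcases (TorAcy_lev a (TorAcy_ch h a hl hx hy' (TorAcy_ne e))).2.2 (congrArg (· + 1) e) with p | p
  · exact (TorAcy_bij θ).1 p
  rcases (TorAcy_lev a (TorAcy_ch h a hl hy hx' (TorAcy_ne e.symm))).2.2
    (congrArg (· + 1) e.symm) with q | q
  · exact ((TorAcy_bij θ).1 q).symm
  · exact (TorAcy_asymm h p q).elim

/-- The vertical pair of a chain is unique and adjacent. -/
theorem vp_unique (h : IC lt rk s b n) (a : Aut lt rk s b θ) {l : List (Q × Fin 6)}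
    (hl : l ∈ Ch (ltT lt θ)) {u v u' v' : Q × Fin 6} (hu : u ∈ l) (hv : v ∈ l) (hu' : u' ∈ l)
    (hv' : v' ∈ l) (p : Vp θ u v) (p' : Vp θ u' v') : u = u' ∧ v = v' := by
  have k := (ed_par _ _ p.1).2.1
  have k' := (ed_par _ _ p'.1).2.1
  obtain ⟨q, ⟨-, rfl⟩ | ⟨-, rfl⟩⟩ := TorAcy_vp.1 p <;>
    obtain ⟨q', ⟨-, rfl⟩ | ⟨-, rfl⟩⟩ := TorAcy_vp.1 p'
  · obtain rfl := TorAcy_uniq h a hl hu hv hu' hv'
    exact ⟨rfl, rfl⟩
  · obtain rfl := TorAcy_uniq h a hl hu hv hv' hu'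
    omega
  · obtain rfl := TorAcy_uniq h a hl hv hu hu' hv'
    omega
  · obtain rfl := TorAcy_uniq h a hl hv hu hv' hu'
    exact ⟨rfl, rfl⟩

/-- Erase the geometrically lower vertex of the vertical pair. -/
def nu (θ : Equiv.Perm Q) (l : List (Q × Fin 6)) : List (Q × Fin 6) :=
  if h : Dup θ l then
    l.erase (if dir h.choose.2 h.choose_spec.2.choose.2 = 1 then h.choose
      else h.choose_spec.2.choose)
  else l

/-- The total height, counted in the sheet of the first vertex. -/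
def ht (l : List (Q × Fin 6)) : ℤ :=
  (l.map fun u => if u.2 = 5 ∧ ∃ v ∈ l, v.2 = 0 then (-1 : ℤ) else (u.2.1 : ℤ)).sum

omit [Fintype Q] in
theorem TorAcy_nu {l : List (Q × Fin 6)} (hd : Dup θ l) :
    ∃ x ∈ l, TorAcy_s θ x ∈ l ∧ nu θ l = l.erase x := by
  rw [nu, dif_pos hd]
  have h1 := hd.choose_spec.1
  have h2 := hd.choose_spec.2.choose_spec
  rcases (TorAcy_vp.1 h2.2).2 with k | k
  · exact ⟨_, h1, k.2 ▸ h2.1, by rw [if_pos k.1]⟩
  · exact ⟨_, h2.1, by rw [k.2]; exact h1, by rw [if_neg k.1]⟩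

theorem TorAcy_top (h : IC lt rk s b n) (a : Aut lt rk s b θ) {m : List (Q × Fin 6)}
    (hm : m ∈ Ch (ltT lt θ)) (hd : ¬Dup θ m) :
    ∃ x, TorAcy_s θ x ∈ m ∧ ∀ w ∈ m, TorAcy_C lt θ x w := by
  obtain ⟨t, h1, h2⟩ : ∃ t : Fin 6, (∃ u, u ∈ m ∧ u.2 = t + 1) ∧ ∀ w ∈ m, w.2 = t ∨ w.2 = t + 1 := by
    obtain ⟨u, hu⟩ := List.exists_mem_of_ne_nil m ((mem_Ch (TorAcy_irr h a)).1 hm).1
    by_cases e : ∃ v ∈ m, v.2 = u.2 + 1
    · obtain ⟨v, hv, e⟩ := e
      exact ⟨u.2, ⟨v, hv, e⟩, fun w hw => TorAcy_two h a hm hu hv e hw⟩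
    · refine ⟨u.2 - 1, ⟨u, hu, (sub_add_cancel _ _).symm⟩, fun w hw => ?_⟩
      rw [sub_add_cancel, eq_sub_iff_add_eq]
      by_cases e' : u = w
      · exact Or.inr (e' ▸ rfl)
      rcases (TorAcy_lev a (TorAcy_ch h a hm hu hw e')).1 with k | k | k
      exacts [Or.inr k, absurd ⟨w, hw, k⟩ e, Or.inl k.symm]
  obtain ⟨f, hf⟩ := TorAcy_rk h
  obtain ⟨y, hy, h3⟩ := Set.exists_max_image {u | u ∈ m ∧ u.2 = t + 1} f (Set.toFinite _) h1
  obtain ⟨x, rfl⟩ := (TorAcy_bij θ).2 y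
  refine ⟨x, hy.1, fun w hw => (TorAcy_cmp a).2 ?_⟩
  rcases h2 w hw with k | k
  · have e : x.2 = w.2 := k ▸ add_right_cancel (show x.2 + 1 = t + 1 from hy.2)
    rcases (TorAcy_lev a (TorAcy_ch h a hm hw hy.1 (TorAcy_ne e))).2.2 (congrArg (· + 1) e) with
      p | p
    · exact absurd (TorAcy_dup.2 ⟨w, hw, p ▸ hy.1⟩) hd
    · exact Or.inl (Or.inr ((TorAcy_flip a _ _).1 p))
  · refine Or.inr (Or.inl (or_iff_not_imp_left.2 fun e => ?_))
    exact ((TorAcy_lev a (TorAcy_ch h a hm hy.1 hw e)).2.1 (k.trans hy.2.symm)).resolve_left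
      fun p => (hf _ _ p).not_ge (h3 w ⟨hw, k⟩)

/-- Sketch. A chain without vertical pair is `α ++ β` with `α` at a low level and `β` at a high
level. Its preimage under `nu` is obtained by inserting one vertex between `α` and `β`:
`β = []`, level `r`: append the high neighbour in direction `-1` of the last entry;
`α = []`: prepend the low neighbour `r'` with `dir r' r = 1` of the first entry;
both nonempty and `dir = 1`: insert the low copy of the first entry of `β`;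
both nonempty and `dir = -1`: insert the high copy of the last entry of `α`. For injectivity: if
`l.erase x = l'.erase x'` with `x`, `x'` the lower vertices, then `x = x'` (the same four cases),
and chains with the same entries agree (`ch_sublist`). -/
theorem nu_bij (h : IC lt rk s b n) (a : Aut lt rk s b θ) :
    Set.BijOn (nu θ) ((Ch (ltT lt θ)).filter (Dup θ) : Finset _)
      ((Ch (ltT lt θ)).filter (fun l => ¬Dup θ l) : Finset _) := by
  have cx := cx_Ch (TorAcy_irr h a) (tor_tr h a)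
  have up : ∀ {l : List (Q × Fin 6)} {x}, TorAcy_s θ x ∈ l → TorAcy_s θ x ∈ l.erase x :=
    fun k => (List.mem_erase_of_ne (TorAcy_ne rfl).symm).2 k
  refine ⟨fun l hl => ?_, fun l hl l' hl' e => ?_, fun m hm => ?_⟩
  · obtain ⟨h1, h2⟩ := mem_filter.1 (mem_coe.1 hl)
    obtain ⟨x, h3, h4, h5⟩ := TorAcy_nu h2
    refine mem_coe.2 (mem_filter.2 (h5 ▸ ⟨(cx l h1).2.2.1 _ (List.ne_nil_of_mem (up h4))
      List.erase_sublist, fun k => ?_⟩))
    obtain ⟨y, h6, h7⟩ := TorAcy_dup.1 k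
    exact ((cx l h1).2.1.mem_erase_iff.1 h6).1
      (TorAcy_uniq h a h1 (List.mem_of_mem_erase h6) (List.mem_of_mem_erase h7) h3 h4)
  · obtain ⟨h1, h2⟩ := mem_filter.1 (mem_coe.1 hl)
    obtain ⟨h1', h2'⟩ := mem_filter.1 (mem_coe.1 hl')
    obtain ⟨x, h3, h4, h5⟩ := TorAcy_nu h2
    obtain ⟨x', h3', h4', h5'⟩ := TorAcy_nu h2'
    rw [h5, h5'] at e
    have k1 := (cx l h1).2.1.mem_erase_iff.1 (e ▸ up h4')
    have k2 := (cx l' h1').2.1.mem_erase_iff.1 (e ▸ up h4)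
    have c1 := TorAcy_lev a (TorAcy_ch h a h1 h3 k1.2 k1.1.symm)
    have c2 := TorAcy_lev a (TorAcy_ch h a h1' h3' k2.2 k2.1.symm)
    have k : ∀ r r' : Fin 6, (r' + 1 = r ∨ r' + 1 = r + 1) → (r + 1 = r' ∨ r + 1 = r' + 1) →
      r' + 1 = r + 1 := by decide
    have k3 := k _ _ (TorAcy_two h a h1 h3 h4 rfl k1.2) (TorAcy_two h a h1' h3' h4' rfl k2.2)
    obtain rfl : x = x' := (c1.2.2 k3).elim (fun p => (TorAcy_bij θ).1 p) fun p =>
      (c2.2.2 k3.symm).elim (fun q => ((TorAcy_bij θ).1 q).symm) fun q =>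
        (TorAcy_asymm h p q).elim
    exact (cx l' h1').2.2.2 l h1 ((List.perm_cons_erase h3).trans
      (e ▸ (List.perm_cons_erase h3').symm))
  · obtain ⟨h1, h2⟩ := mem_filter.1 (mem_coe.1 hm)
    obtain ⟨x, h3, h4⟩ := TorAcy_top h a h1 h2
    obtain ⟨α, β, rfl, h5⟩ := ch_insert (tor_tr h a) ((mem_Ch (TorAcy_irr h a)).1 h1).2
      fun w hw => (h4 w hw).symm
    have h6 : α ++ x :: β ∈ Ch (ltT lt θ) := (mem_Ch (TorAcy_irr h a)).2 ⟨by simp, h5⟩
    have h7 : x ∈ α ++ x :: β := by simp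
    have h8 : TorAcy_s θ x ∈ α ++ x :: β :=
      (List.Sublist.append_left (List.sublist_cons_self x β) α).subset h3
    have h9 := TorAcy_dup.2 ⟨x, h7, h8⟩
    obtain ⟨y, k1, k2, k3⟩ := TorAcy_nu h9
    obtain rfl := TorAcy_uniq h a h6 h7 h8 k1 k2
    refine ⟨_, mem_coe.2 (mem_filter.2 ⟨h6, h9⟩), k3.trans ?_⟩
    rw [List.erase_append_right _ fun k => TorAcy_irr h a x
      ((h4 x (List.mem_append_left β k)).elim id id), List.erase_cons_head]

theorem TorAcy_ht (h : IC lt rk s b n) (a : Aut lt rk s b θ) {l m : List (Q × Fin 6)}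
    (hl : l ∈ Ch (ltT lt θ)) {x : Q × Fin 6} (hx : x ∈ l) (hx' : TorAcy_s θ x ∈ l) (hm : m ⊆ l)
    (h0 : x.2 = 5 → ∃ v ∈ m, v.2 = 0) :
    ht m = (m.map fun u => if u.2 = 5 ∧ x.2 = 5 then (-1 : ℤ) else (u.2.1 : ℤ)).sum := by
  have k : ∀ r : Fin 6, (5 = r ∨ 5 = r + 1) → (0 = r ∨ 0 = r + 1) → r = 5 := by decide
  refine congrArg List.sum (List.map_congr_left fun u hu => if_congr (and_congr_right fun e =>
    ⟨fun ⟨v, hv, e'⟩ => ?_, h0⟩) rfl rfl)
  exact k _ (e ▸ TorAcy_two h a hl hx hx' rfl (hm hu)) (e' ▸ TorAcy_two h a hl hx hx' rfl (hm hv))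

omit [Fintype Q] in
theorem TorAcy_face {l m : List (Q × Fin 6)} (hi : inc l m ≠ 0) {x : Q × Fin 6} (hx : x ∈ l)
    (hm : x ∉ m) : m = l.erase x := by
  have h1 := (inc_sublist hi).1.erase x
  rw [List.erase_of_not_mem hm] at h1
  exact h1.eq_of_length (by rw [List.length_erase_of_mem hx, ← (inc_sublist hi).2]; rfl)

/-- Sketch: `acy_tri` with `ν = nu θ`, `wt = ht`. A face without vertical pair of `l` with the
vertical pair `u, v` is `l.erase u` or `l.erase v`. `tauT ≤ 0`. If `u` is erased by `nu` then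
`dir = 1`, so `tauT = 0` on `l`; if `v` is erased the first vertex stays. The other face has
height smaller by one, except for `u.2 = 0`, `v.2 = 5`, `u` the first vertex, where the exponent is
`-1`. -/
theorem small_tor (h : IC lt rk s b n) (a : Aut lt rk s b θ) : Small (Ch (ltT lt θ)) tauT 0 := by
  intro F K _ _ _ t ht'
  have cx := cx_Ch (TorAcy_irr h a) (tor_tr h a)
  refine (acy_tri ht' (sq_of_cvx cx (coc_tauT h a) cvx_self t) (fun l => ?_)
    (disjoint_filter_filter_not _ _ _).symm (nu θ) (nu_bij h a) ht (fun l hl => ?_)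
    (fun l _ m _ _ => ?_) fun l hl m hm hi e0 e1 => ?_).le
  · simp only [mem_filter, ← and_or_left, em', and_true]
  · obtain ⟨h1, h2⟩ := mem_filter.1 hl
    obtain ⟨x, h3, h4, h5⟩ := TorAcy_nu h2
    refine h5 ▸ ⟨inc_of_sublist (cx l h1).2.1 List.erase_sublist (List.length_erase_add_one h3), ?_⟩
    obtain ⟨u, l, rfl⟩ := List.exists_cons_of_ne_nil (cx l h1).1
    by_cases e : u = x
    · subst e
      rw [List.erase_cons_head]
      rcases l with _ | ⟨v, l⟩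
      · rfl
      have k : ∀ r r' : Fin 6, r' = r ∨ r' = r + 1 → ¬(r = 0 ∧ r' = 5) := by decide
      simp only [ex, tauT, if_neg (k _ _ (TorAcy_two h a h1 h3 h4 rfl (w := v) (by simp))), ite_self]
    · rw [List.erase_cons_tail (by simpa using e)]
      exact if_pos rfl
  · rcases l with _ | ⟨u, l⟩
    · rfl
    rcases m with _ | ⟨v, m⟩
    · rfl
    simp only [ex, tauT]
    split_ifs <;> simp
  · obtain ⟨h1, h2⟩ := mem_filter.1 hl
    obtain ⟨x, h3, h4, h5⟩ := TorAcy_nu h2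
    rw [h5] at e0 ⊢
    have h6 : x ∈ m := not_not.1 fun k => e0 (TorAcy_face hi h3 k)
    obtain rfl := TorAcy_face hi h4 fun k => (mem_filter.1 hm).2 (TorAcy_dup.2 ⟨x, h6, k⟩)
    have up : x.2 = 5 → (TorAcy_s θ x).2 = 0 := fun k => (congrArg (· + 1) k).trans rfl
    rw [TorAcy_ht h a h1 h3 h4 List.erase_subset fun k => ⟨_,
      (List.mem_erase_of_ne (TorAcy_ne rfl).symm).2 h4, up k⟩,
      TorAcy_ht h a h1 h3 h4 List.erase_subset fun k => by_contra fun c => ?_]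
    · have k : ∀ r : Fin 6, (if r = 5 ∧ r = 5 then (-1 : ℤ) else (r.1 : ℤ)) <
        if r + 1 = 5 ∧ r = 5 then (-1 : ℤ) else ((r + 1).1 : ℤ) := by decide
      have k1 := (((List.perm_cons_erase h4).symm.trans (List.perm_cons_erase h3)).map
        fun u => if u.2 = 5 ∧ x.2 = 5 then (-1 : ℤ) else (u.2.1 : ℤ)).sum_eq
      rw [List.map_cons, List.map_cons, List.sum_cons, List.sum_cons] at k1
      exact lt_of_add_lt_add_left (k1.trans_lt (add_lt_add_left (k x.2) _))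
    have lv : ∀ w ∈ l.erase (TorAcy_s θ x), w.2 = 5 := fun w hw =>
      k ▸ (TorAcy_two h a h1 h3 h4 rfl (List.mem_of_mem_erase hw)).resolve_right fun j =>
        c ⟨w, hw, j.trans (up k)⟩
    obtain ⟨u, l, rfl⟩ := List.exists_cons_of_ne_nil (cx l h1).1
    by_cases e : u = TorAcy_s θ x
    · subst e
      rw [List.erase_cons_head] at e1 lv h6
      obtain ⟨v, l, rfl⟩ := List.exists_cons_of_ne_nil (List.ne_nil_of_mem h6)
      have j := lv v List.mem_cons_self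
      simp only [ex, tauT, if_pos (And.intro (up k) j), if_neg (TorAcy_ne (k.trans j.symm)).symm]
        at e1
      omega
    · have j := lv u ((List.mem_erase_of_ne e).2 List.mem_cons_self)
      have j' := List.rel_of_pairwise_cons ((mem_Ch (TorAcy_irr h a)).1 h1).2
        ((List.mem_cons.1 h4).resolve_left (Ne.symm e))
      simp [ltT, j, up k] at j'

end Pool.Agent.HT
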