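import Pool.Agent.Lib.MP_dae8ad_gt.H.PoQ
import Pool.Agent.Lib.MP_dae8ad_gt.H.TorAcy

/-! The pattern applied to the unknot is null-cobordant. -/

open Finset Classical

noncomputable section

namespace Pool.Agent.HT

variable {V V' : Type}

theorem S_sub : S ⊆ Tot := fun l h => by
  simp only [S, mem_filter] at h
  exact h.1

theorem T_sub : T ⊆ S := fun l h => by
  simp only [T, mem_filter] at h
  exact h.1

theorem mem_N {l : List A} : l ∈ N ↔ (l ∈ Tot ∧ l ∉ S) ∨ l ∈ T := by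
  simp [N]

theorem N_union_S : N ∪ S = Tot := by
  ext l
  rw [mem_union, mem_N]
  refine ⟨?_, fun h => (Classical.em (l ∈ S)).elim Or.inr fun h' => Or.inl (Or.inl ⟨h, h'⟩)⟩
  rintro ((h | h) | h)
  exacts [h.1, S_sub (T_sub h), S_sub h]

/-- The inclusion of the mapping torus of the boundary. -/
def NonVac_j (u : P × Fin 6) : Hb × Fin 6 := (.p u.1, u.2)

def NonVac_f : A → Hb × Fin 6 := Sum.elim NonVac_j fun _ => (.va 0, 0)

def NonVac_k : Hb × Fin 6 → A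
  | (.p x, r) => .inl (x, r)
  | _ => .inr 0

theorem NonVac_lt (u v : P × Fin 6) :
    ltT ltH hH (NonVac_j u) (NonVac_j v) ↔ ltT ltP hP u v := by
  have h1 : ∀ x y, ltH (.p x) (.p y) ↔ ltP x y := fun _ _ => Iff.rfl
  have h2 : ∀ x, hH (.p x) = .p (hP x) := fun _ => rfl
  simp only [ltT, NonVac_j, h1, h2, Hb.p.injEq]

theorem NonVac_vert {l : List A} (h : l ∈ Tot) {a : A} (ha : a ∈ l) : ∃ u, a = .inl u := by
  obtain ⟨m, -, rfl⟩ := mem_Tot.1 h
  obtain ⟨u, -, rfl⟩ := List.mem_map.1 ha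
  exact ⟨u, rfl⟩

theorem NonVac_kf {l : List A} (h : l ∈ Tot) : (l.map NonVac_f).map NonVac_k = l := by
  rw [List.map_map]
  refine (List.map_congr_left fun a ha => ?_).trans (List.map_id _)
  obtain ⟨u, rfl⟩ := NonVac_vert h ha
  rfl

theorem NonVac_inj : InjV Tot NonVac_f := fun a b ha hb e => by
  have h := NonVac_kf ha
  rw [List.map_singleton, e, ← List.map_singleton, NonVac_kf hb] at h
  exact (List.singleton_injective h).symm

theorem NonVac_mem (l : List (Hb × Fin 6)) :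
    (∃ m ∈ Tot, m.map NonVac_f = l) ↔ l ∈ Ch (ltT ltH hH) ∧ ∀ v ∈ l, isP v.1 := by
  have key : ∀ m : List (P × Fin 6), m.map NonVac_j ∈ Ch (ltT ltH hH) ↔ m ∈ Ch (ltT ltP hP) :=
    fun m => by
      rw [mem_Ch (ic_tor ic_H aut_H).irr, mem_Ch (ic_tor ic_P aut_P).irr, List.pairwise_map]
      simp only [NonVac_lt, ne_eq, List.map_eq_nil_iff]
  have e : ∀ m : List (P × Fin 6), (m.map Sum.inl).map NonVac_f = m.map NonVac_j :=
    fun m => List.map_map
  constructor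
  · rintro ⟨m, hm, rfl⟩
    obtain ⟨m, hm', rfl⟩ := mem_Tot.1 hm
    rw [e, key]
    exact ⟨hm', List.forall_mem_map.2 fun u _ => ⟨u.1, rfl⟩⟩
  · rintro ⟨h1, h2⟩
    obtain ⟨m, rfl⟩ : ∃ m : List (P × Fin 6), l = m.map NonVac_j := by
      clear h1
      induction l with
      | nil => exact ⟨[], rfl⟩
      | cons v l ih =>
        obtain ⟨⟨x, hx⟩, h3⟩ := List.forall_mem_cons.1 h2
        obtain ⟨m, rfl⟩ := ih h3
        exact ⟨(x, v.2) :: m, congrArg (· :: _) (Prod.ext hx rfl)⟩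
    exact ⟨_, mem_Tot.2 ⟨m, (key m).1 h1, rfl⟩, e m⟩

/-- Sketch: `V = Hb × Fin 6`, `Y = Ch (ltT ltH hH)`, `z = fz (sT rkH sH) 4`, `Φ = tauT`,
`ι _ (inl (x, r)) = (Hb.p x, r)` (any value on `inr`), `Bad = ∅`. `ic_tor ic_H aut_H`, `IC.hm_rel`
with `B` the image of `Tot` (`mem_Tot`, `hm_Tot`, `hm_map`; `w` = `zTot` of a preimage),
`coc_tauT`, `small_tor`. -/
theorem null_tot : Null (N ∪ S) tau 1 0 := by
  rw [N_union_S]
  have h1 := (hm_map NonVac_inj (z' := fun l => zTot (l.map NonVac_k)) hm_Tot.1 (empty_subset _)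
    fun l hl => congrArg zTot (NonVac_kf hl)).1 hm_Tot
  replace h1 := hm_ext (B' := ∅) (fun _ => Iff.rfl) (by simp) h1
  refine ⟨Hb × Fin 6, Ch (ltT ltH hH), fz (sT rkH sH) 4, tauT, fun _ => NonVac_f, ∅,
    hm_ext (fun _ => Iff.rfl) (fun l => ?_) ((ic_tor ic_H aut_H).hm_rel
      (fun l => Iff.trans (by simp) (NonVac_mem l)) h1), coc_tauT ic_H aut_H,
    fun i j a b ha hb e => ⟨Subsingleton.elim _ _, NonVac_inj a b ha hb e⟩,
    fun _ _ _ h => h, fun l hl h => ?_, fun _ a b h => ?_, fun _ _ _ _ => rfl, by simp,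
    small_tor ic_H aut_H⟩
  · simp
  · obtain ⟨m, hm, e⟩ := (NonVac_mem l).2 ⟨hl, fun v hv => by
      obtain ⟨_, a, ha, rfl⟩ := h v hv
      obtain ⟨u, rfl⟩ := NonVac_vert ha (List.mem_singleton_self a)
      exact ⟨u.1, rfl⟩⟩
    exact ⟨0, m, hm, e.symm⟩
  · obtain ⟨u, rfl⟩ := NonVac_vert h (a := a) (by simp)
    obtain ⟨v, rfl⟩ := NonVac_vert h (a := b) (by simp)
    rfl

end Pool.Agent.HT
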