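import Pool.Agent.Lib.MP_dae8ad_gt.H.Dict
import Pool.Agent.Lib.MP_dae8ad_gt.H.NonVac
import Pool.Agent.Lib.MP_dae8ad_gt.H.DualA

/-! The three-manifolds `N ∪ E` and `E ∪ S`. -/

open Finset Classical

noncomputable section

namespace Pool.Agent.HT

variable {V V' : Type}

variable {E : Finset (List A)} {ψ : A → A → ℤ}

theorem Ext.tE (h : Ext E ψ) : T ⊆ E := h.1.choose_spec.2.2.1

theorem Ext.cxE (h : Ext E ψ) : Cx E := h.1.choose_spec.1

theorem Ext.cxT (h : Ext E ψ) : Cx T := h.1.choose_spec.2.1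

theorem Ext.lenT (h : Ext E ψ) : ∀ l ∈ T, l.length ≤ 3 := (hm_bd h.1.choose_spec).2.1

theorem M300_left {l : List A} (ht : l ∈ Tot) : ∀ v ∈ l, v.isLeft := fun v hv => by
  obtain ⟨u, rfl⟩ := (mem_Tot'.1 ht).2.2 v hv
  rfl

theorem Ext.tot (h : Ext E ψ) {l : List A} (hE : l ∈ E) (ht : l ∈ Tot) : l ∈ T :=
  h.2.1 l hE (M300_left ht)

theorem cx_S : Cx S := fun l hl => by
  obtain ⟨h1, h2, h3, h4⟩ := hm_Tot.1 l (S_sub hl)
  exact ⟨h1, h2, fun m hm hs => mem_S.2 ⟨h3 m hm hs, fun v hv => (mem_S.1 hl).2 v (hs.subset hv)⟩,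
    fun m hm => h4 m (S_sub hm)⟩

theorem N_S {l : List A} (hN : l ∈ N) (hS : l ∈ S) : l ∈ T :=
  (mem_N.1 hN).resolve_left fun h => h.2 hS

theorem N_sub : N ⊆ Tot := fun _ hl => (mem_N.1 hl).elim And.left fun h => S_sub (T_sub h)

/-- A face of a simplex of `N` lies in `N ∪ E` and in `Tot`. -/
theorem Ext.cxN (h : Ext E ψ) (hM : Cx (N ∪ E)) : Cx N := fun l hl => by
  obtain ⟨h1, h2, h3, h4⟩ := hm_Tot.1 l (N_sub hl)
  refine ⟨h1, h2, fun m hm hs => ?_, fun m hm => h4 m (N_sub hm)⟩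
  exact (mem_union.1 ((hM l (mem_union_left _ hl)).2.2.1 m hm hs)).elim id fun h5 =>
    mem_N.2 (Or.inr (h.tot h5 (h3 m hm hs)))

theorem Ext.cxK (h : Ext E ψ) : Cx (E ∪ S) := fun l hl => by
  rcases mem_union.1 hl with hl | hl
  · obtain ⟨h1, h2, h3, h4⟩ := h.cxE l hl
    refine ⟨h1, h2, fun m hm hs => mem_union_left _ (h3 m hm hs), fun m hm p => ?_⟩
    rcases mem_union.1 hm with hm | hm
    · exact h4 m hm p
    · exact (cx_S l (T_sub (h.2.1 l hl fun v hv =>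
        M300_left (S_sub hm) v (p.mem_iff.2 hv)))).2.2.2 m hm p
  · obtain ⟨h1, h2, h3, h4⟩ := cx_S l hl
    refine ⟨h1, h2, fun m hm hs => mem_union_right _ (h3 m hm hs), fun m hm p => h4 m ?_ p⟩
    exact (mem_union.1 hm).elim (fun h5 => T_sub (h.2.1 m h5 fun v hv =>
      M300_left (S_sub hl) v (p.mem_iff.1 hv))) id

/-- All vertices of a simplex of `E` are free or lie on the levels 1, 2. -/
theorem Ext.tau0 (h : Ext E ψ) {a b : A} (hab : [a, b] ∈ E) : tau a b = 0 := by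
  rcases a with ⟨x, r⟩ | a
  · have h1 := T_sub (h.2.1 _ (vert_mem h.cxE hab (List.mem_cons_self ..)) (by simp))
    obtain ⟨y, r', e, -, hr⟩ := (Dict_S.1 h1).2 _ (List.mem_singleton_self _)
    obtain rfl : r = r' := congrArg Prod.snd (Sum.inl_injective e)
    rcases b with ⟨y', s⟩ | b
    · rcases hr with rfl | rfl <;> simp [tau]
    · rfl
  · rfl

theorem Ext.coc (h : Ext E ψ) (hM : Cx (N ∪ E)) : Coc (N ∪ E) tau := fun u v w hl => by
  rcases mem_union.1 hl with hl | hl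
  · exact coc_tau u v w (N_sub hl)
  · have h1 := (h.cxE _ hl).2.2.1
    rw [h.tau0 (h1 [u, w] (by simp) (by simp)), h.tau0 (h1 [u, v] (by simp) (by simp)),
      h.tau0 (h1 [v, w] (by simp) (by simp)), add_zero]

end Pool.Agent.HT
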