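import Pool.Agent.Lib.MP_dae8ad_gt.H.Fold4
import Pool.Agent.Lib.MP_dae8ad_gt.H.Cocs
import Pool.Agent.Lib.MP_dae8ad_gt.H.Asm

/-! The main theorem. -/

open Finset Classical

noncomputable section

namespace Pool.Agent.HT

variable {V V' : Type}

variable {E : Finset (List A)} {ψ : A → A → ℤ} {W : Finset (List V)} {z : List V → ℤ}
  {Φ : V → V → ℤ} {ι : A → V} {w g : ℕ}

/-- The periodic extension of a pattern. -/
def pe (y : Fin 15 → ℤ) (k : ℤ) : ℚ := y ⟨(k % 15).toNat, by omega⟩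

theorem pe_add (y : Fin 15 → ℤ) (k : ℤ) (j : Fin 15) :
    pe y (k + j.1) = y (⟨(k % 15).toNat, by omega⟩ + j) := by
  unfold pe
  refine congrArg _ (congrArg y (Fin.ext ?_))
  have := j.2
  rw [Fin.val_add]
  dsimp only
  omega

theorem pe_rel (y : Fin 15 → ℤ) (h3 : ∀ i, y i + y (i + 5) + y (i + 10) = 0)
    (h5 : ∀ i, y i + y (i + 3) + y (i + 6) + y (i + 9) + y (i + 12) = 0) :
    (∀ k, pe y k + pe y (k + 5) + pe y (k + 10) = 0) ∧
    ∀ k, pe y k + pe y (k + 3) + pe y (k + 6) + pe y (k + 9) + pe y (k + 12) = 0 := by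
  refine ⟨fun k => ?_, fun k => ?_⟩
  · have h1 := pe_add y k 5
    have h2 := pe_add y k 10
    have h := h3 ⟨(k % 15).toNat, by omega⟩
    erw [h1, h2]
    unfold pe
    exact_mod_cast h
  · have h1 := pe_add y k 3
    have h2 := pe_add y k 6
    have h4 := pe_add y k 9
    have h6 := pe_add y k 12
    have h := h5 ⟨(k % 15).toNat, by omega⟩
    erw [h1, h2, h4, h6]
    unfold pe
    exact_mod_cast h

theorem pe_av : (∀ k, pe av k + pe av (k + 5) + pe av (k + 10) = 0) ∧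
    ∀ k, pe av k + pe av (k + 3) + pe av (k + 6) + pe av (k + 9) + pe av (k + 12) = 0 :=
  pe_rel av (by decide) (by decide)

theorem pe_Bv : (∀ k, pe Bv k + pe Bv (k + 5) + pe Bv (k + 10) = 0) ∧
    ∀ k, pe Bv k + pe Bv (k + 3) + pe Bv (k + 6) + pe Bv (k + 9) + pe Bv (k + 12) = 0 :=
  pe_rel Bv (by decide) (by decide)

theorem exists_den {α : Type} (s : Finset α) (f : α → ℚ) :
    ∃ d : ℕ, 0 < d ∧ ∀ a ∈ s, ∃ j : ℤ, d * f a = j := by
  refine ⟨∏ a ∈ s, (f a).den, prod_pos fun a _ => (f a).den_pos, fun a ha => ?_⟩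
  obtain ⟨e, he⟩ := dvd_prod_of_mem (fun a => (f a).den) ha
  refine ⟨e * (f a).num, ?_⟩
  rw [he]
  push_cast
  rw [mul_comm ((f a).den : ℚ), mul_assoc, Rat.den_mul_eq_num]

theorem per_map {G H : Type} [AddCommGroup G] [AddCommGroup H] (f : G →+ H) (φ : A → A → G) :
    per (fun a b => f (φ a b)) = f (per φ) := by
  simp only [per, map_add, map_sub]

theorem per_add {G : Type} [AddCommGroup G] (φ φ' : A → A → G) :
    per (fun a b => φ a b + φ' a b) = per φ + per φ' := by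
  simp only [per]
  abel

/-- Sketch: `cocs` gives rational cocycles `c₁`, `c₂` with periods `pe av`, `pe Bv`. Let `d` be a
common denominator of their values on the finitely many edges of `Zf` and of the values of the two
functions `al`. Put `c a b = ⌊d * (u * c₁ a b + v * c₂ a b)⌋`. The edges of the curve in the sheet
`kk p` are edges of `Zf` (`lift_E`, `per_congr`), `kk_mod`. -/
theorem FD.zc (D : FD E ψ W z Φ ι w g) (n : ℕ) : ∃ d : ℕ, 0 < d ∧ ∀ u v : ℤ, ∃ c,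
    ZC W Φ ι w n g c fun j => d * (u * av j + v * Bv j) := by
  obtain ⟨c₁, k1, ⟨al1, k2⟩, k3⟩ := cocs D.ext D.wd (pe av) pe_av.1 pe_av.2
  obtain ⟨c₂, l1, ⟨al2, l2⟩, l3⟩ := cocs D.ext D.wd (pe Bv) pe_Bv.1 pe_Bv.2
  obtain ⟨d, hd, h⟩ := exists_den ((vert (Zf W Φ w n g) ×ˢ vert (Zf W Φ w n g)) ×ˢ univ)
    fun p : ((V × ℤ) × (V × ℤ)) × Bool => if p.2 then c₁ p.1.1 p.1.2 else c₂ p.1.1 p.1.2
  refine ⟨d, hd, fun u v => ⟨fun a b => ⌊(d : ℚ) * (u * c₁ a b + v * c₂ a b)⌋, ?_⟩⟩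
  have key : ∀ l ∈ Zf W Φ w n g, ∀ a ∈ l, ∀ b ∈ l,
      ((⌊(d : ℚ) * (u * c₁ a b + v * c₂ a b)⌋ : ℤ) : ℚ) = d * (u * c₁ a b + v * c₂ a b) := by
    intro l hl a ha b hb
    have hv : ∀ a ∈ l, a ∈ vert (Zf W Φ w n g) := fun a ha => by
      simp only [vert, mem_biUnion, List.mem_toFinset]
      exact ⟨l, hl, ha⟩
    obtain ⟨j1, h1⟩ := h ((a, b), true) (by simp [hv a ha, hv b hb])
    obtain ⟨j2, h2⟩ := h ((a, b), false) (by simp [hv a ha, hv b hb])
    simp only [if_true, Bool.false_eq_true, if_false] at h1 h2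
    have : (d : ℚ) * (u * c₁ a b + v * c₂ a b) = ((u * j1 + v * j2 : ℤ) : ℚ) := by
      push_cast
      rw [← h1, ← h2]
      ring
    rw [this, Int.floor_intCast]
  refine ⟨fun a b e hl => ?_, ⟨fun x y => ⌊(d : ℚ) * (u * al1 x y + v * al2 x y)⌋,
    fun a b hab _ => by simp only [k2 a b hab, l2 a b hab]⟩, fun p => ?_⟩
  · apply Int.cast_injective (α := ℚ)
    push_cast
    rw [key _ hl a (by simp) e (by simp), key _ hl a (by simp) b (by simp),
      key _ hl b (by simp) e (by simp), k1 a b e (mem_Up.1 hl).1, l1 a b e (mem_Up.1 hl).1]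
    ring
  · apply Int.cast_injective (α := ℚ)
    have e1 := per_map (Int.castAddHom ℚ) fun a b =>
      ⌊(d : ℚ) * (u * c₁ (ι a, kk n g p) (ι b, kk n g p) + v * c₂ (ι a, kk n g p) (ι b, kk n g p))⌋
    simp only [Int.coe_castAddHom] at e1
    rw [← e1, per_congr (φ' := fun a b => (d * u) * c₁ (ι a, kk n g p) (ι b, kk n g p) +
      (d * v) * c₂ (ι a, kk n g p) (ι b, kk n g p)), per_add]
    · have e2 := per_map (AddMonoidHom.mulLeft ((d : ℚ) * u)) fun a b =>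
        c₁ (ι a, kk n g p) (ι b, kk n g p)
      have e3 := per_map (AddMonoidHom.mulLeft ((d : ℚ) * v)) fun a b =>
        c₂ (ι a, kk n g p) (ι b, kk n g p)
      simp only [AddMonoidHom.coe_mulLeft] at e2 e3
      have e4 : ∀ y, pe y (kk n g p) = y p.2 := fun y =>
        congrArg _ (congrArg y (Fin.ext (by have := kk_mod n g p; dsimp only; omega)))
      rw [e2, e3, k3, l3, e4, e4]
      push_cast
      ring
    · intro a b hab
      rw [key _ (D.Bf_sub n (D.lift_E n p (D.ext.tE hab)).1) _ (by simp) _ (by simp)]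
      ring

theorem main : Null (N ∪ S) tau 1 0 ∧ ∀ E ψ, Ext E ψ → Null (N ∪ E) tau 1 0 → ∀ ε : ℝ, 0 < ε →
    ∃ n c : ℕ, (c : ℝ) < ε * n ∧ Null (E ∪ S) ψ n c := by
  refine ⟨null_tot, fun E ψ hE h0 ε hε => ?_⟩
  obtain ⟨V, W, z, Φ, ι, D⟩ := wd_of_null hE h0
  obtain ⟨w, -, hw⟩ := exists_bound W Φ
  have F : FD E ψ W z Φ ι w (w + 1) := ⟨D, hE, hw, by omega⟩
  obtain ⟨u, hu1, hu⟩ := m3_or hE D.hm3
  refine asm (m3_K hE D.hm3 hu1 hu) hE.2.2.2.2.2.2.2 (C := W.card * 5 * (2 * w + 15 * (w + 1) + 3))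
    (D := W.card * 5 * 2) (fun n => ?_) ε hε
  obtain ⟨d, hd, h⟩ := F.zc n
  refine ⟨d, hd, fun a b hab => ?_⟩
  obtain ⟨c, hc⟩ := h a b
  exact F.piece hu1 hu hc fun j => mul_ne_zero (by exact_mod_cast hd.ne') (hab j)

end Pool.Agent.HT
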