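import Pool.Agent.Lib.MP_dae8ad_gt.H.PcOps
import Pool.Agent.Lib.MP_dae8ad_gt.H.Glue

/-! Gluing two pieces along boundary components. -/

open Finset Classical

noncomputable section

namespace Pool.Agent.HT

variable {V V' : Type}

variable {A : Type} {M : Finset (List A)} {ψ : A → A → ℤ} {zM : List A → ℤ}

/-- The copies of `M`. -/
def PcGlue_cp {I : Type} [Fintype I] (M : Finset (List A)) (ι : I → A → V) : Finset (List V) :=
  univ.biUnion fun i => M.image (List.map (ι i))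

theorem PcGlue_mem {I : Type} [Fintype I] {ι : I → A → V} {l : List V} :
    l ∈ PcGlue_cp M ι ↔ ∃ i, ∃ m ∈ M, m.map (ι i) = l := by
  simp [PcGlue_cp]

/-- The data of a piece, with a bound for each copy. -/
structure PcGlue_S (M : Finset (List A)) (ψ : A → A → ℤ) (zM : List A → ℤ) {I : Type} [Fintype I]
    (sg wt : I → ℤ) (c : ℕ) (D : I → ℕ) (Y : Finset (List V)) (z : List V → ℤ) (Φ : V → V → ℤ)
    (ι : I → A → V) (Bad : Set V) : Prop where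
  hm : HM 4 Y (PcGlue_cp M ι) Bad z
  cy : Cy Y (PcGlue_cp M ι) Bad z
  coc : Coc Y Φ
  inj : ∀ i j a b, [a] ∈ M → [b] ∈ M → ι i a = ι j b → i = j ∧ a = b
  good : ∀ i a, [a] ∈ M → ι i a ∉ Bad
  full : ∀ l ∈ Y, (∀ v ∈ l, ∃ i a, [a] ∈ M ∧ ι i a = v) → ∃ i, ∃ m ∈ M, l = m.map (ι i)
  phi : ∀ i a b, [a, b] ∈ M → Φ (ι i a) (ι i b) = wt i * ψ a b
  sgn : ∀ i, ∀ m ∈ M, bz Y z (m.map (ι i)) = sg i * zM m
  bad : (Y.filter fun l => ∃ v ∈ l, v ∈ Bad).card ≤ c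
  small : Small Y Φ c
  deg : ∀ i, (Y.filter fun l => ∃ v ∈ l, ∃ a, [a] ∈ M ∧ ι i a = v).card ≤ D i

theorem PcGlue_sep (hM : Cx M) {I : Type} [Fintype I] {ι : I → A → V}
    (hi : ∀ i j a b, [a] ∈ M → [b] ∈ M → ι i a = ι j b → i = j ∧ a = b) :
    Sep univ fun i => M.image (List.map (ι i)) := by
  refine ⟨fun i _ => cx_map hM fun a b ha hb e => (hi i i a b ha hb e).2, fun i _ j _ v h1 h2 => ?_⟩
  obtain ⟨m, hm, e⟩ := mem_image.1 h1
  obtain ⟨m', hm', e'⟩ := mem_image.1 h2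
  obtain ⟨a, rfl, ha⟩ := List.map_eq_singleton_iff.1 e
  obtain ⟨b, rfl, hb⟩ := List.map_eq_singleton_iff.1 e'
  exact (hi i j a b hm hm' (ha.trans hb.symm)).1

theorem PcGlue_idx (hM : Cx M) {I : Type} {ι : I → A → V}
    (hi : ∀ i j a b, [a] ∈ M → [b] ∈ M → ι i a = ι j b → i = j ∧ a = b) {i j : I} {m : List A}
    (hm : m ∈ M) {a : A} (ha : [a] ∈ M) (h : ι i a ∈ m.map (ι j)) : i = j := by
  obtain ⟨b, hb, e⟩ := List.mem_map.1 h
  exact (hi i j a b ha (vert_mem hM hm hb) e.symm).1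

theorem PcGlue_perm (hM : Cx M) {I : Type} {ι : I → A → V}
    (hi : ∀ i j a b, [a] ∈ M → [b] ∈ M → ι i a = ι j b → i = j ∧ a = b) {i j : I} {m m' : List A}
    (hm : m ∈ M) (hm' : m' ∈ M) (h : (m.map (ι i)).Perm (m'.map (ι j))) : i = j ∧ m = m' := by
  obtain ⟨a, ha⟩ := List.exists_mem_of_ne_nil m (hM m hm).1
  obtain rfl := PcGlue_idx hM hi hm' (vert_mem hM hm ha) (h.subset (List.mem_map_of_mem ha))
  have hf : InjV M (ι i) := fun a b ha hb e => (hi i i a b ha hb e).2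
  exact ⟨rfl, map_inj hM hf hm hm'
    ((cx_map hM hf _ (mem_image_of_mem _ hm')).2.2.2 _ (mem_image_of_mem _ hm) h)⟩

theorem PcGlue_card {Y : Finset (List V)} (f : V → V') {p : List V → Prop} {p' : List V' → Prop}
    [DecidablePred p] [DecidablePred p'] (h : ∀ l ∈ Y, p' (l.map f) → p l) :
    ((Y.image (List.map f)).filter p').card ≤ (Y.filter p).card := by
  refine (card_le_card fun L hL => ?_).trans (card_image_le (f := List.map f))
  obtain ⟨h1, h2⟩ := mem_filter.1 hL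
  obtain ⟨l, hl, rfl⟩ := mem_image.1 h1
  exact mem_image_of_mem _ (mem_filter.2 ⟨hl, h l hl h2⟩)

/-- The cocycle on a disjoint union. -/
def PcGlue_phi (Φ : V → V → ℤ) (Φ' : V' → V' → ℤ) : V ⊕ V' → V ⊕ V' → ℤ
  | .inl u, .inl v => Φ u v
  | .inr u, .inr v => Φ' u v
  | _, _ => 0

theorem PcGlue_sum {I J : Type} [Fintype I] [Fintype J] {sg wt : I → ℤ} {sg' wt' : J → ℤ}
    {c c' : ℕ} {D : I → ℕ} {D' : J → ℕ} {Y : Finset (List V)} {z : List V → ℤ} {Φ : V → V → ℤ}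
    {ι : I → A → V} {Bad : Set V} {Y' : Finset (List V')} {z' : List V' → ℤ} {Φ' : V' → V' → ℤ}
    {ι' : J → A → V'} {Bad' : Set V'} (h : PcGlue_S M ψ zM sg wt c D Y z Φ ι Bad)
    (h' : PcGlue_S M ψ zM sg' wt' c' D' Y' z' Φ' ι' Bad') {W : Type} {f : V → W} {g : V' → W}
    (hf : f.Injective) (hg : g.Injective) (sd : W → Bool) (s1 : ∀ v, sd (f v) = false)
    (s2 : ∀ v, sd (g v) = true) {Ψ : W → W → ℤ} (p1 : ∀ u v, Ψ (f u) (f v) = Φ u v)
    (p2 : ∀ u v, Ψ (g u) (g v) = Φ' u v) {B : Set W} (b1 : ∀ v, f v ∈ B ↔ v ∈ Bad)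
    (b2 : ∀ v, g v ∈ B ↔ v ∈ Bad') :
    ∃ Z w, PcGlue_S M ψ zM (Sum.elim sg sg') (Sum.elim wt wt') (c + c') (Sum.elim D D') Z w Ψ
      (Sum.elim (fun i a => f (ι i a)) fun j a => g (ι' j a)) B ∧
      ∀ l ∈ Z, ∀ u ∈ l, ∀ v ∈ l, sd u = sd v := by
  have c1 := h.hm.1
  have c2 := h'.hm.1
  have f1 : InjV Y f := fun _ _ _ _ e => hf e
  have f2 : InjV Y' g := fun _ _ _ _ e => hg e
  have ne : ∀ u v, f u ≠ g v := fun u v e => by simpa [s1, s2] using congrArg sd e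
  let F : Bool → Finset (List W) := fun b => cond b (Y'.image (List.map g)) (Y.image (List.map f))
  have hF : ∀ L, L ∈ univ.biUnion F ↔ (∃ l ∈ Y, l.map f = L) ∨ ∃ l ∈ Y', l.map g = L := fun L => by
    simp only [F, mem_biUnion, mem_univ, true_and, Bool.exists_bool, cond_false, cond_true,
      mem_image]
  have hS : Sep univ F := by
    refine ⟨fun b _ => ?_, fun b _ b' _ v h1 h2 => ?_⟩
    · cases b
      exacts [cx_map c1 f1, cx_map c2 f2]
    · have k : ∀ b, [v] ∈ F b → sd v = b := fun b hb => by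
        cases b <;> obtain ⟨m, -, e⟩ := mem_image.1 hb <;>
          obtain ⟨a, -, rfl⟩ := List.map_eq_singleton_iff.1 e
        exacts [s1 a, s2 a]
      exact (k b h1).symm.trans (k b' h2)
  let w : List W → ℤ := Function.extend (List.map f) z (Function.extend (List.map g) z' 0)
  have w1 : ∀ l ∈ Y, w (l.map f) = z l := fun l _ =>
    (List.map_injective_iff.2 hf).extend_apply _ _ l
  have w2 : ∀ l ∈ Y', w (l.map g) = z' l := fun l hl => by
    refine (Function.extend_apply' _ _ _ ?_).trans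
      ((List.map_injective_iff.2 hg).extend_apply _ _ l)
    rintro ⟨m, e⟩
    obtain ⟨a, ha⟩ := List.exists_mem_of_ne_nil l (c2 l hl).1
    obtain ⟨b, -, e'⟩ := List.mem_map.1 ((List.Perm.of_eq e.symm).subset (List.mem_map_of_mem ha))
    exact ne _ _ e'
  have k := hm_sep hS (n := 4) (Bad := B) (z := w) (B := fun b =>
    cond b ((PcGlue_cp M ι').image (List.map g)) ((PcGlue_cp M ι).image (List.map f)))
    fun b _ => by
      cases b
      exacts [hm_mapB h.hm h.cy f1 (Bad' := B) (fun v _ e e' => e ((b1 v).2 e')) w1,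
        hm_mapB h'.hm h'.cy f2 (Bad' := B) (fun v _ e e' => e ((b2 v).2 e')) w2]
  have e : (univ.biUnion fun b => cond b ((PcGlue_cp M ι').image (List.map g))
      ((PcGlue_cp M ι).image (List.map f))) =
      PcGlue_cp M (Sum.elim (fun i a => f (ι i a)) fun j a => g (ι' j a)) := by
    ext L
    simp only [mem_biUnion, mem_univ, true_and, Bool.exists_bool, cond_false, cond_true, mem_image,
      PcGlue_mem, Sum.exists, Sum.elim_inl, Sum.elim_inr]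
    refine or_congr ⟨?_, ?_⟩ ⟨?_, ?_⟩
    · rintro ⟨_, ⟨i, m, hm, rfl⟩, rfl⟩
      exact ⟨i, m, hm, List.map_map.symm⟩
    · rintro ⟨i, m, hm, rfl⟩
      exact ⟨_, ⟨i, m, hm, rfl⟩, List.map_map⟩
    · rintro ⟨_, ⟨i, m, hm, rfl⟩, rfl⟩
      exact ⟨i, m, hm, List.map_map.symm⟩
    · rintro ⟨i, m, hm, rfl⟩
      exact ⟨_, ⟨i, m, hm, rfl⟩, List.map_map⟩
  rw [e] at k
  have hc : Coc (univ.biUnion F) Ψ := fun u v t ht => by
    rcases (hF _).1 ht with ⟨l, hl, e⟩ | ⟨l, hl, e⟩ <;>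
      simp only [List.map_eq_cons_iff, List.map_eq_nil_iff] at e <;>
      obtain ⟨a, _, rfl, rfl, b, _, rfl, rfl, d, _, rfl, rfl, rfl⟩ := e
    · simpa only [p1] using h.coc a b d hl
    · simpa only [p2] using h'.coc a b d hl
  have hU : ∀ (p : List W → Prop) [DecidablePred p], ((univ.biUnion F).filter p).card ≤
      ((Y.image (List.map f)).filter p).card + ((Y'.image (List.map g)).filter p).card :=
    fun p _ => (card_le_card fun L hL => by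
      simpa only [mem_union, mem_filter, mem_image, hF, or_and_right] using hL).trans
      (card_union_le _ _)
  refine ⟨univ.biUnion F, w, ⟨k.1, k.2, hc, ?_, ?_, fun L hL hv => ?_, ?_, ?_,
    (hU _).trans (add_le_add ((PcGlue_card _ ?_).trans h.bad) ((PcGlue_card _ ?_).trans h'.bad)),
    fun E K _ _ _ s hs => ?_, ?_⟩, fun L hL u hu v hv => ?_⟩
  · rintro (i | i) (j | j) a b ha hb e
    · simpa using h.inj i j a b ha hb (hf e)
    · exact (ne _ _ e).elim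
    · exact (ne _ _ e.symm).elim
    · simpa using h'.inj i j a b ha hb (hg e)
  · rintro (i | i) a ha e
    exacts [h.good i a ha ((b1 _).1 e), h'.good i a ha ((b2 _).1 e)]
  · rcases (hF _).1 hL with ⟨l, hl, rfl⟩ | ⟨l, hl, rfl⟩
    · obtain ⟨i, m, hm, rfl⟩ := h.full l hl fun v hv' => by
        obtain ⟨i | i, a, ha, e⟩ := hv _ (List.mem_map_of_mem hv')
        exacts [⟨i, a, ha, hf e⟩, (ne _ _ e.symm).elim]
      exact ⟨.inl i, m, hm, List.map_map⟩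
    · obtain ⟨i, m, hm, rfl⟩ := h'.full l hl fun v hv' => by
        obtain ⟨i | i, a, ha, e⟩ := hv _ (List.mem_map_of_mem hv')
        exacts [(ne _ _ e).elim, ⟨i, a, ha, hg e⟩]
      exact ⟨.inr i, m, hm, List.map_map⟩
  · rintro (i | i) a b hab
    exacts [(p1 _ _).trans (h.phi i a b hab), (p2 _ _).trans (h'.phi i a b hab)]
  · rintro (i | i) m hm
    · have h1 := h.hm.2.2.1 (PcGlue_mem.2 ⟨i, m, hm, rfl⟩)
      have h2 := (bz_sep hS (mem_univ false) (mem_image_of_mem _ h1) w).trans (bz_map c1 f1 w1 h1)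
      rw [List.map_map, h.sgn i m hm] at h2
      exact h2
    · have h1 := h'.hm.2.2.1 (PcGlue_mem.2 ⟨i, m, hm, rfl⟩)
      have h2 := (bz_sep hS (mem_univ true) (mem_image_of_mem _ h1) w).trans (bz_map c2 f2 w2 h1)
      rw [List.map_map, h'.sgn i m hm] at h2
      exact h2
  · simp [b1]
  · simp [b2]
  · refine (betti_sep hS hc s).trans ?_
    rw [Fintype.sum_bool, add_comm]
    exact add_le_add ((betti_map c1 f1 Subset.rfl (fun _ _ _ => p1 _ _) s).le.trans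
      (h.small E K s hs)) ((betti_map c2 f2 Subset.rfl (fun _ _ _ => p2 _ _) s).le.trans
      (h'.small E K s hs))
  · rintro (i | i) <;> refine (hU _).trans ?_
    · refine (add_le_add ((PcGlue_card _ ?_).trans (h.deg i))
        (PcGlue_card (p := fun _ => False) _ ?_)).trans (by simp) <;> simp [hf.eq_iff, (ne _ _).symm]
    · refine (add_le_add (PcGlue_card (p := fun _ => False) _ ?_)
        ((PcGlue_card _ ?_).trans (h'.deg i))).trans (by simp) <;> simp [hg.eq_iff, ne]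
  · rcases (hF _).1 hL with ⟨l, hl, rfl⟩ | ⟨l, hl, rfl⟩ <;>
      obtain ⟨a, -, rfl⟩ := List.mem_map.1 hu <;> obtain ⟨b, -, rfl⟩ := List.mem_map.1 hv <;>
      simp only [s1, s2]

theorem PcGlue_self (hM : HM 3 M ∅ ∅ zM) (h0 : Small M ψ 0) {I J : Type} [Fintype I] [Fintype J]
    {sg wt : (I ⊕ J) ⊕ J → ℤ} {c : ℕ} {D : (I ⊕ J) ⊕ J → ℕ} {Y : Finset (List V)}
    {z : List V → ℤ} {Φ : V → V → ℤ} {ι : (I ⊕ J) ⊕ J → A → V} {Bad : Set V}
    (h : PcGlue_S M ψ zM sg wt c D Y z Φ ι Bad) (sd : V → Bool)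
    (s0 : ∀ l ∈ Y, ∀ u ∈ l, ∀ v ∈ l, sd u = sd v) (s1 : ∀ i a, sd (ι (.inl i) a) = false)
    (s2 : ∀ j a, sd (ι (.inr j) a) = true)
    (hs : ∀ i, sg (.inl (.inl i)) = 1 ∨ sg (.inl (.inl i)) = -1)
    (hsg : ∀ j, sg (.inl (.inr j)) + sg (.inr j) = 0)
    (hwt : ∀ j, wt (.inl (.inr j)) = wt (.inr j)) (hw : ∀ j, wt (.inr j) ≠ 0) :
    ∃ (Z : Finset (List V)) (w : List V → ℤ) (Ψ : V → V → ℤ),
      PcGlue_S M ψ zM (fun i => sg (.inl (.inl i))) (fun i => wt (.inl (.inl i))) c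
        (fun i => D (.inl (.inl i))) Z w Ψ (fun i => ι (.inl (.inl i))) Bad := by
  have cM := hM.1
  have cY := h.hm.1
  obtain ⟨q, q2, q0⟩ : ∃ q : V → V, (∀ j a, [a] ∈ M → q (ι (.inr j) a) = ι (.inl (.inr j)) a) ∧
      ∀ v, (∃ j a, [a] ∈ M ∧ ι (.inr j) a = v) ∨ q v = v ∧ ∀ j a, [a] ∈ M → ι (.inr j) a ≠ v := by
    refine ⟨fun v => if e : ∃ p : J × A, [p.2] ∈ M ∧ ι (.inr p.1) p.2 = v then
      ι (.inl (.inr e.choose.1)) e.choose.2 else v, fun j a ha => ?_, fun v => ?_⟩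
    · have e : ∃ p : J × A, [p.2] ∈ M ∧ ι (.inr p.1) p.2 = ι (.inr j) a := ⟨(j, a), ha, rfl⟩
      obtain ⟨e1, e2⟩ := h.inj _ _ _ _ e.choose_spec.1 ha e.choose_spec.2
      simp only [dif_pos e, Sum.inr.inj e1, e2]
    · by_cases e : ∃ p : J × A, [p.2] ∈ M ∧ ι (.inr p.1) p.2 = v
      · exact Or.inl ⟨_, _, e.choose_spec⟩
      · exact Or.inr ⟨dif_neg e, fun j a ha e' => e ⟨(j, a), ha, e'⟩⟩
  have q1 : ∀ i a, [a] ∈ M → q (ι (.inl i) a) = ι (.inl i) a := fun i a ha => by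
    rcases q0 (ι (.inl i) a) with ⟨j, b, hb, e⟩ | e
    exacts [(nomatch (h.inj _ _ _ _ hb ha e).1), e.1]
  have qc : ∀ u v, q u = q v → u = v ∨
      (∃ j a, [a] ∈ M ∧ ι (.inl (.inr j)) a = u ∧ ι (.inr j) a = v) ∨
      ∃ j a, [a] ∈ M ∧ ι (.inl (.inr j)) a = v ∧ ι (.inr j) a = u := fun u v e => by
    rcases q0 u with ⟨j, a, ha, rfl⟩ | ⟨eu, -⟩ <;> rcases q0 v with ⟨j', b, hb, rfl⟩ | ⟨ev, -⟩
    · rw [q2 j a ha, q2 j' b hb] at e
      obtain ⟨e1, rfl⟩ := h.inj _ _ _ _ ha hb e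
      cases e1
      exact Or.inl rfl
    · exact Or.inr (Or.inr ⟨j, a, ha, by rw [← q2 j a ha, e, ev], rfl⟩)
    · exact Or.inr (Or.inl ⟨j', b, hb, by rw [← q2 j' b hb, ← e, eu], rfl⟩)
    · exact Or.inl (eu.symm.trans (e.trans ev))
  have qs : ∀ u v, q u = q v → sd u = sd v → u = v := fun u v e e' => by
    rcases qc u v e with e | ⟨j, a, -, rfl, rfl⟩ | ⟨j, a, -, rfl, rfl⟩
    · exact e
    all_goals simp [s1, s2] at e'
  have qI : ∀ v i a, [a] ∈ M → ι (.inl (.inl i)) a = q v → ι (.inl (.inl i)) a = v := by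
    intro v i a ha e
    rcases qc _ v ((q1 _ a ha).trans e) with e | ⟨j, b, hb, e, -⟩ | ⟨j, b, hb, -, e⟩
    exacts [e, (nomatch (h.inj _ _ _ _ hb ha e).1), nomatch (h.inj _ _ _ _ hb ha e).1]
  have m1 : ∀ i, ∀ m ∈ M, (m.map (ι (.inl i))).map q = m.map (ι (.inl i)) := fun i m hm => by
    rw [List.map_map]
    exact List.map_congr_left fun a ha => q1 i a (vert_mem cM hm ha)
  have m2 : ∀ j, ∀ m ∈ M, (m.map (ι (.inr j))).map q = m.map (ι (.inl (.inr j))) := fun j m hm => by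
    rw [List.map_map]
    exact List.map_congr_left fun a ha => q2 j a (vert_mem cM hm ha)
  have mY : ∀ k, ∀ m ∈ M, m.map (ι k) ∈ Y := fun k m hm =>
    h.hm.2.2.1 (PcGlue_mem.2 ⟨k, m, hm, rfl⟩)
  have me : ∀ {k k' m m'}, m ∈ M → m' ∈ M → m.map (ι k) = m'.map (ι k') → k = k' ∧ m = m' :=
    fun hm hm' e => PcGlue_perm cM h.inj hm hm' (List.Perm.of_eq e)
  have fu : ∀ {K : Type} (e : K → (I ⊕ J) ⊕ J), ∀ l ∈ Y,
      (∀ v ∈ l, ∃ k a, [a] ∈ M ∧ ι (e k) a = v) → ∃ k, ∃ m ∈ M, m.map (ι (e k)) = l := by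
    intro K e l hl hv
    obtain ⟨k, m, hm, rfl⟩ := h.full l hl fun v hv' => (hv v hv').elim fun k hk => ⟨e k, hk⟩
    obtain ⟨v, hv'⟩ := List.exists_mem_of_ne_nil _ (cY _ hl).1
    obtain ⟨k', a, ha, rfl⟩ := hv v hv'
    exact ⟨k', m, hm, by rw [PcGlue_idx cM h.inj hm ha hv']⟩
  have i0 : ∀ i j a b, [a] ∈ M → [b] ∈ M → ι (.inl (.inl i)) a = ι (.inl (.inl j)) b →
      i = j ∧ a = b := fun i j a b ha hb e => by simpa using h.inj _ _ a b ha hb e
  have sA := PcGlue_sep cM (ι := fun j => ι (.inl (.inr j))) fun i j a b ha hb e => by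
    simpa using h.inj _ _ a b ha hb e
  have sA' := PcGlue_sep cM (ι := fun j => ι (.inr j)) fun i j a b ha hb e => by
    simpa using h.inj _ _ a b ha hb e
  have uA : PcGlue_cp M (fun j => ι (.inl (.inr j))) ⊆ PcGlue_cp M ι := fun l hl =>
    PcGlue_mem.2 ((PcGlue_mem.1 hl).elim fun j hj => ⟨_, hj⟩)
  have uA' : PcGlue_cp M (fun j => ι (.inr j)) ⊆ PcGlue_cp M ι := fun l hl =>
    PcGlue_mem.2 ((PcGlue_mem.1 hl).elim fun j hj => ⟨_, hj⟩)
  have key : ∀ l ∈ Y, ∀ l' ∈ Y, (l.map q).Perm (l'.map q) → (∀ v ∈ l, sd v = false) →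
      (∀ v ∈ l', sd v = true) → l.map q = l'.map q ∧
        l ∈ PcGlue_cp M (fun j => ι (.inl (.inr j))) ∧ l' ∈ PcGlue_cp M fun j => ι (.inr j) := by
    intro l hl l' hl' hp e e'
    have k0 : ∀ v ∈ l, ∀ v' ∈ l', q v = q v' →
        ∃ j a, [a] ∈ M ∧ ι (.inl (.inr j)) a = v ∧ ι (.inr j) a = v' := fun v hv v' hv' e0 => by
      have e1 := e v hv
      have e2 := e' v' hv'
      rcases qc v v' e0 with rfl | e3 | ⟨j, a, -, -, rfl⟩
      exacts [(nomatch e1.symm.trans e2), e3, nomatch e1.symm.trans (s2 j a)]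
    obtain ⟨j, m, hm, rfl⟩ := fu (fun j => .inl (.inr j)) l hl fun v hv => by
      obtain ⟨v', hv', e0⟩ := List.mem_map.1 (hp.subset (List.mem_map_of_mem hv))
      obtain ⟨j, a, ha, e1, -⟩ := k0 v hv v' hv' e0.symm
      exact ⟨j, a, ha, e1⟩
    obtain ⟨j', m', hm', rfl⟩ := fu .inr l' hl' fun v' hv' => by
      obtain ⟨v, hv, e0⟩ := List.mem_map.1 (hp.symm.subset (List.mem_map_of_mem hv'))
      obtain ⟨j, a, ha, -, e1⟩ := k0 v hv v' hv' e0
      exact ⟨j, a, ha, e1⟩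
    rw [m1 _ m hm, m2 _ m' hm'] at hp ⊢
    obtain ⟨e1, rfl⟩ := PcGlue_perm cM h.inj hm hm' hp
    exact ⟨by rw [e1], PcGlue_mem.2 ⟨j, m, hm, rfl⟩, PcGlue_mem.2 ⟨j', m, hm, rfl⟩⟩
  have G : Gl Y (PcGlue_cp M fun j => ι (.inl (.inr j))) (PcGlue_cp M fun j => ι (.inr j)) q := by
    refine ⟨cY, cx_sep sA, cx_sep sA', uA.trans h.hm.2.2.1, uA'.trans h.hm.2.2.1,
      disjoint_left.2 fun l h1 h2 => ?_, fun l hl => (cY l hl).2.1.map_on fun u hu v hv e =>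
        qs u v e (s0 l hl u hu v hv), fun l hl l' hl' hp => ?_, fun l hl => ?_, fun l hl => ?_⟩
    · obtain ⟨j, m, hm, rfl⟩ := PcGlue_mem.1 h1
      obtain ⟨j', m', hm', e⟩ := PcGlue_mem.1 h2
      exact nomatch (me hm' hm e).1
    · obtain ⟨u, hu⟩ := List.exists_mem_of_ne_nil l (cY l hl).1
      obtain ⟨u', hu'⟩ := List.exists_mem_of_ne_nil l' (cY l' hl').1
      by_cases e : sd u = sd u'
      · refine Or.inl ((cY l' hl').2.2.2 l hl ((List.perm_ext_iff_of_nodup (cY l hl).2.1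
          (cY l' hl').2.1).2 fun v => ⟨fun hv => ?_, fun hv => ?_⟩))
        · obtain ⟨v', hv', e0⟩ := List.mem_map.1 (hp.subset (List.mem_map_of_mem hv))
          rwa [← qs v' v e0 ((s0 l' hl' v' hv' u' hu').trans (e.symm.trans (s0 l hl u hu v hv)))]
        · obtain ⟨v', hv', e0⟩ := List.mem_map.1 (hp.symm.subset (List.mem_map_of_mem hv))
          rwa [← qs v' v e0 ((s0 l hl v' hv' u hu).trans (e.trans (s0 l' hl' u' hu' v hv)))]
      · cases e1 : sd u <;> cases e2 : sd u'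
        · exact (e (e1.trans e2.symm)).elim
        · have := key l hl l' hl' hp (fun v hv => (s0 l hl v hv u hu).trans e1)
            fun v hv => (s0 l' hl' v hv u' hu').trans e2
          exact Or.inr ⟨this.1, Or.inl this.2⟩
        · have := key l' hl' l hl hp.symm (fun v hv => (s0 l' hl' v hv u' hu').trans e2)
            fun v hv => (s0 l hl v hv u hu).trans e1
          exact Or.inr ⟨this.1.symm, Or.inr this.2.symm⟩
        · exact (e (e1.trans e2.symm)).elim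
    · obtain ⟨j, m, hm, rfl⟩ := PcGlue_mem.1 hl
      exact ⟨_, PcGlue_mem.2 ⟨j, m, hm, rfl⟩, (m1 _ m hm).trans (m2 j m hm).symm⟩
    · obtain ⟨j, m, hm, rfl⟩ := PcGlue_mem.1 hl
      exact ⟨_, PcGlue_mem.2 ⟨j, m, hm, rfl⟩, (m1 _ m hm).trans (m2 j m hm).symm⟩
  have pr : ∀ l ∈ PcGlue_cp M fun j => ι (.inl (.inr j)), ∀ l' ∈ PcGlue_cp M fun j => ι (.inr j),
      l.map q = l'.map q → ∃ j, ∃ m ∈ M, m.map (ι (.inl (.inr j))) = l ∧
        m.map (ι (.inr j)) = l' := fun l hl l' hl' e => by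
    obtain ⟨j, m, hm, rfl⟩ := PcGlue_mem.1 hl
    obtain ⟨j', m', hm', rfl⟩ := PcGlue_mem.1 hl'
    rw [m1 _ m hm, m2 _ m' hm'] at e
    obtain ⟨e1, rfl⟩ := me hm hm' e
    cases e1
    exact ⟨j, m, hm, rfl, rfl⟩
  have n1 : ∀ i, ∀ m ∈ M, m.map (ι (.inl (.inl i))) ∉ PcGlue_cp M fun j => ι (.inl (.inr j)) :=
    fun i m hm e => by
      obtain ⟨j, m', hm', e⟩ := PcGlue_mem.1 e
      exact nomatch (me hm' hm e).1
  have n2 : ∀ i, ∀ m ∈ M, m.map (ι (.inl (.inl i))) ∉ PcGlue_cp M fun j => ι (.inr j) :=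
    fun i m hm e => by
      obtain ⟨j, m', hm', e⟩ := PcGlue_mem.1 e
      exact nomatch (me hm' hm e).1
  have sz : ∀ i, ∀ m ∈ M, bz (Y.image (List.map q)) (gz Y q z) (m.map (ι (.inl (.inl i)))) =
      sg (.inl (.inl i)) * zM m := fun i m hm => by
    rw [bz_gz G, ← m1 _ m hm, gz_out G _ (mY _ m hm) (n1 i m hm) (n2 i m hm), h.sgn _ m hm]
  have hb : ∀ v, q v ∈ Bad ↔ v ∈ Bad := fun v => by
    rcases q0 v with ⟨j, a, ha, rfl⟩ | ⟨e, -⟩
    · rw [q2 j a ha]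
      exact iff_of_false (h.good _ a ha) (h.good _ a ha)
    · rw [e]
  obtain ⟨lc, ll⟩ := loc_copies hM (fun i => ι (.inl (.inl i))) i0 hs sz
  obtain ⟨k1, k2⟩ := glue_hm G h.hm h.cy uA uA' (B' := PcGlue_cp M fun i => ι (.inl (.inl i)))
    (Bad' := Bad)
    (fun l hl => by
      obtain ⟨j, m, hm, rfl⟩ := PcGlue_mem.1 hl
      simpa using (hM.2.2.2.1 m hm).1) lc
    (fun l hl => by
      obtain ⟨i, m, hm, rfl⟩ := PcGlue_mem.1 hl
      exact mem_image.2 ⟨_, mY _ m hm, m1 _ m hm⟩) (fun v _ => hb v)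
    (fun σ hσ _ h1 h2 => ⟨fun e => by
      obtain ⟨i, m, hm, e⟩ := PcGlue_mem.1 e
      rcases G.uq σ hσ _ (mY _ m hm) (List.Perm.of_eq (e.symm.trans (m1 _ m hm).symm)) with
        rfl | ⟨-, e | e⟩
      exacts [PcGlue_mem.2 ⟨_, m, hm, rfl⟩, (h1 e.1).elim, (h2 e.1).elim], fun e => by
      obtain ⟨(i | j) | j, m, hm, rfl⟩ := PcGlue_mem.1 e
      exacts [PcGlue_mem.2 ⟨i, m, hm, (m1 _ m hm).symm⟩, (h1 (PcGlue_mem.2 ⟨j, m, hm, rfl⟩)).elim,
        (h2 (PcGlue_mem.2 ⟨j, m, hm, rfl⟩)).elim]⟩)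
    (fun l hl l' hl' e _ => by
      obtain ⟨j, m, hm, rfl, rfl⟩ := pr l hl l' hl' e
      rw [h.sgn _ m hm, h.sgn _ m hm, ← add_mul, hsg, zero_mul])
    (fun σ hσ _ e => by
      obtain ⟨j, m, hm, rfl⟩ := PcGlue_mem.1 hσ
      obtain ⟨i, m', hm', e⟩ := PcGlue_mem.1 e
      exact nomatch (me hm' hm (e.trans (m1 _ m hm))).1)
    (fun σ hσ _ _ l hl => by
      obtain ⟨j, m, hm, rfl⟩ := PcGlue_mem.1 hσ
      obtain ⟨h1, h2⟩ := mem_St.1 hl
      obtain ⟨k, m', hm', rfl⟩ := PcGlue_mem.1 h1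
      obtain ⟨a, ha⟩ := List.exists_mem_of_ne_nil m (cM m hm).1
      obtain rfl := PcGlue_idx cM h.inj hm' (vert_mem cM hm ha)
        (h2.subset (List.mem_map_of_mem ha))
      exact PcGlue_mem.2 ⟨j, m', hm', rfl⟩)
    fun σ hσ _ => ll σ hσ
  obtain ⟨Ψ, p1, p2⟩ := gl_coc G h.coc fun u v u' v' h1 h2 e e' => by
    obtain ⟨j, m, hm, e1, e2⟩ := pr _ h1 _ h2 (by simp [e, e'])
    simp only [List.map_eq_cons_iff, List.map_eq_nil_iff] at e1
    obtain ⟨a, _, rfl, rfl, b, _, rfl, rfl, rfl⟩ := e1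
    simp only [List.map_cons, List.map_nil, List.cons.injEq, and_true] at e2
    rw [← e2.1, ← e2.2, h.phi _ a b hm, h.phi _ a b hm, hwt]
  refine ⟨Y.image (List.map q), gz Y q z, Ψ, k1, k2, p1, i0, fun i => h.good _, fun L hL hv => ?_,
    fun i a b hab => ?_, sz, (PcGlue_card q ?_).trans h.bad, fun E K _ _ _ s ht => ?_,
    fun i => (PcGlue_card q ?_).trans (h.deg _)⟩
  · obtain ⟨l, hl, rfl⟩ := mem_image.1 hL
    obtain ⟨i, m, hm, rfl⟩ := fu (fun i => .inl (.inl i)) l hl fun v hv' => by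
      obtain ⟨i, a, ha, e⟩ := hv _ (List.mem_map_of_mem hv')
      exact ⟨i, a, ha, qI v i a ha e⟩
    exact ⟨i, m, hm, m1 _ m hm⟩
  · rw [← h.phi _ a b hab, ← p2 _ _ (mY _ _ hab), q1 _ a (vert_mem cM hab (by simp)),
      q1 _ b (vert_mem cM hab (by simp))]
  · rintro l - ⟨_, hv, e⟩
    obtain ⟨v, hv', rfl⟩ := List.mem_map.1 hv
    exact ⟨v, hv', (hb v).1 e⟩
  · have b1 := betti_sep sA (φ := Φ) (fun u v t e => h.coc u v t (G.sA e)) s
    rw [sum_eq_zero fun j _ => by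
      rw [betti_map cM (fun a b ha hb e => (h.inj _ _ a b ha hb e).2) Subset.rfl
        (h.phi (.inl (.inr j))) s, betti_smul]
      exact Nat.le_zero.1 (h0 E K _ (trans_zpow ht (hwt j ▸ hw j)))] at b1
    have b2 := gl_betti G h.coc p1 p2 s
    have b3 := h.small E K s ht
    change betti (PcGlue_cp M fun j => ι (.inl (.inr j))) Φ s ≤ 0 at b1
    omega
  · rintro l - ⟨_, hv, a, ha, e⟩
    obtain ⟨v, hv', rfl⟩ := List.mem_map.1 hv
    exact ⟨v, hv', a, ha, qI v i a ha e⟩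

/-- Sketch: `Y = Y₁ ⊔ Y₂` on `V₁ ⊕ V₂` (`hm_mapB`, `hm_sep` with index `Bool`), `A` the union of
the copies `inr j` in `Y₁`, `A'` the whole boundary of `Y₂`, `q : V₁ ⊕ V₂ → V₁ ⊕ V₂` sends
`inr (ι₂ j a)` to `inl (ι₁ (inr j) a)` for `[a] ∈ M` and fixes all other vertices. `Gl` uses
the fullness clauses. `B'` is the union of the copies `inl i`. In `glue_hm` the clause `a1` is
void, `lb` is `loc_copies` with `bz_gz`. `betti A` vanishes by `betti_sep`, `betti_map`,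
`betti_smul`, `trans_zpow`. A simplex of the glued complex that meets the copy `inl i` comes from
`Y₁`. -/
theorem pc_glue (hM : HM 3 M ∅ ∅ zM) (h0 : Small M ψ 0) {I J : Type} [Fintype I] [Fintype J]
    {sg wt : I ⊕ J → ℤ} {sg' wt' : J → ℤ} {c c' D D' : ℕ} (h : Pc M ψ zM (I ⊕ J) sg wt c D)
    (h' : Pc M ψ zM J sg' wt' c' D') (hs : ∀ i, sg (.inl i) = 1 ∨ sg (.inl i) = -1)
    (hsg : ∀ j, sg (.inr j) + sg' j = 0) (hwt : ∀ j, wt (.inr j) = wt' j) (hw : ∀ j, wt' j ≠ 0) :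
    Pc M ψ zM I (fun i => sg (.inl i)) (fun i => wt (.inl i)) (c + c') D := by
  obtain ⟨V, Y, z, Φ, ι, Bad, a1, a2, a3, a4, a5, a6, a7, a8, a9, a10, a11⟩ := h
  obtain ⟨V', Y', z', Φ', ι', Bad', b1, b2, b3, b4, b5, b6, b7, b8, b9, b10, b11⟩ := h'
  obtain ⟨Z, w, k, s0⟩ := PcGlue_sum (D := fun _ => D) (D' := fun _ => D')
    ⟨a1, a2, a3, a4, a5, a6, a7, a8, a9, a10, a11⟩ ⟨b1, b2, b3, b4, b5, b6, b7, b8, b9, b10, b11⟩
    Sum.inl_injective Sum.inr_injective Sum.isRight (fun _ => rfl) (fun _ => rfl)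
    (Ψ := PcGlue_phi Φ Φ') (fun _ _ => rfl) (fun _ _ => rfl)
    (B := {v | Sum.elim (· ∈ Bad) (· ∈ Bad') v}) (fun _ => Iff.rfl) fun _ => Iff.rfl
  obtain ⟨Z', w', Ψ', k'⟩ := PcGlue_self hM h0 k Sum.isRight s0 (fun _ _ => rfl) (fun _ _ => rfl)
    hs hsg hwt hw
  exact ⟨_, Z', w', Ψ', _, _, k'.hm, k'.cy, k'.coc, k'.inj, k'.good, k'.full, k'.phi, k'.sgn,
    k'.bad, k'.small, k'.deg⟩

end Pool.Agent.HT
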