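import Pool.Agent.Lib.MP_dae8ad_gt.H.D3
import Pool.Agent.Lib.MP_dae8ad_gt.H.LocMV

/-! Dismantlable sets are acyclic. -/

open Finset Classical

noncomputable section

namespace Pool.Agent.HT

variable {V V' : Type}

/-- A vertex that can be toggled (`loc_tri` with constant weight). -/
theorem loc_cone {X S : Finset (List V)} (hX : Cx X) (hS : Cvx X S) (u : V)
    (h1 : ∀ l ∈ S, u ∈ l → l.erase u ∈ S)
    (h2 : ∀ l ∈ S, u ∉ l → ∃ l' ∈ S, u ∈ l' ∧ l'.erase u = l) : Loc S 0 := by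
  have h3 : ∀ l, ∃ l', l ∈ S → u ∉ l → l' ∈ S ∧ u ∈ l' ∧ l'.erase u = l := by
    intro l
    by_cases h : l ∈ S ∧ u ∉ l
    · obtain ⟨l', h'⟩ := h2 l h.1 h.2
      exact ⟨l', fun _ _ => h'⟩
    · exact ⟨l, fun a b => absurd ⟨a, b⟩ h⟩
  choose μ hμ using h3
  have hlen : ∀ a ∈ S, u ∉ a → a.length + 1 = (μ a).length := by
    intro a ha hu
    obtain ⟨-, e1, e2⟩ := hμ a ha hu
    have := List.length_erase_add_one e1
    rwa [e2] at this
  refine loc_tri (A := S.filter fun l => u ∉ l) (B := S.filter fun l => u ∈ l)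
    (sz_of_cvx hX hS) ?_ ?_ μ ⟨?_, ?_, ?_⟩ (fun _ => 0) ?_ ?_
  · ext l
    simp only [mem_union, mem_filter]
    tauto
  · rw [disjoint_left]
    intro l h h'
    exact (mem_filter.1 h).2 (mem_filter.1 h').2
  · intro a ha
    obtain ⟨ha, hu⟩ := mem_filter.1 (mem_coe.1 ha)
    exact mem_coe.2 (mem_filter.2 ⟨(hμ a ha hu).1, (hμ a ha hu).2.1⟩)
  · intro a ha a' ha' e
    obtain ⟨ha, hu⟩ := mem_filter.1 (mem_coe.1 ha)
    obtain ⟨ha', hu'⟩ := mem_filter.1 (mem_coe.1 ha')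
    rw [← (hμ a ha hu).2.2, e, (hμ a' ha' hu').2.2]
  · intro b hb
    obtain ⟨hb, hu⟩ := mem_filter.1 (mem_coe.1 hb)
    have ha := h1 b hb hu
    have hn : u ∉ b.erase u := (hX b (hS.1 hb)).2.1.not_mem_erase
    obtain ⟨e0, e1, e2⟩ := hμ _ ha hn
    refine ⟨b.erase u, mem_coe.2 (mem_filter.2 ⟨ha, hn⟩),
      (hX b (hS.1 hb)).2.2.2 _ (hS.1 e0) ?_⟩
    have p1 := List.perm_cons_erase e1
    rw [e2] at p1
    exact p1.trans (List.perm_cons_erase hu).symm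
  · intro a ha
    obtain ⟨ha, hu⟩ := mem_filter.1 ha
    obtain ⟨e0, -, e2⟩ := hμ a ha hu
    refine inc_of_sublist (hX _ (hS.1 e0)).2.1 ?_ (hlen a ha hu)
    have := List.erase_sublist (a := u) (l := μ a)
    rwa [e2] at this
  · intro a ha a' ha' hne hi
    obtain ⟨ha, hu⟩ := mem_filter.1 ha
    obtain ⟨ha', hu'⟩ := mem_filter.1 ha'
    obtain ⟨s1, s2⟩ := inc_sublist hi
    have s3 := s1.erase u
    rw [List.erase_of_not_mem hu, (hμ a' ha' hu').2.2] at s3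
    have := hlen a' ha' hu'
    exact absurd (s3.eq_of_length (by omega)) hne

variable {Q Q' : Type} {lt : Q → Q → Prop}

theorem ch_insert (tr : ∀ x y w, lt x y → lt y w → lt x w) {l : List Q} (hl : l.Pairwise lt)
    {u : Q} (hu : ∀ x ∈ l, lt x u ∨ lt u x) :
    ∃ α β, l = α ++ β ∧ (α ++ u :: β).Pairwise lt := by
  induction l with
  | nil => exact ⟨[], [], rfl, by simp⟩
  | cons x l ih =>
    obtain ⟨hx, hl'⟩ := List.pairwise_cons.1 hl
    rcases hu x List.mem_cons_self with h | h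
    · obtain ⟨α, β, rfl, e⟩ := ih hl' fun y hy => hu y (List.mem_cons_of_mem _ hy)
      refine ⟨x :: α, β, rfl, List.pairwise_cons.2 ⟨fun y hy => ?_, e⟩⟩
      rcases List.mem_append.1 hy with hy | hy
      · exact hx y (List.mem_append_left _ hy)
      · rcases List.mem_cons.1 hy with rfl | hy
        · exact h
        · exact hx y (List.mem_append_right _ hy)
    · refine ⟨[], x :: l, rfl, List.pairwise_cons.2 ⟨fun y hy => ?_, hl⟩⟩
      rcases List.mem_cons.1 hy with rfl | hy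
      · exact h
      · exact tr _ _ _ h (hx y hy)

theorem PoDis_nodup (irr : ∀ x, ¬lt x x) {l : List Q} (hl : l.Pairwise lt) : l.Nodup := by
  refine hl.imp ?_
  rintro a b hab rfl
  exact irr _ hab

theorem PoDis_perm (irr : ∀ x, ¬lt x x) (tr : ∀ x y w, lt x y → lt y w → lt x w) {l m : List Q}
    (hl : l.Pairwise lt) (hm : m.Pairwise lt) (h : m.Perm l) : m = l :=
  List.Perm.eq_of_pairwise (fun a _ _ _ h1 h2 => absurd (tr _ _ _ h1 h2) (irr a)) hm hl h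

theorem PoDis_cmp {l : List Q} (hl : l.Pairwise lt) :
    ∀ x ∈ l, ∀ y ∈ l, x = y ∨ lt x y ∨ lt y x := by
  induction l with
  | nil => simp
  | cons a l ih =>
    obtain ⟨ha, hl'⟩ := List.pairwise_cons.1 hl
    intro x hx y hy
    rcases List.mem_cons.1 hx with ex | hx' <;> rcases List.mem_cons.1 hy with ey | hy'
    · exact Or.inl (ex.trans ey.symm)
    · exact Or.inr (Or.inl (ex ▸ ha y hy'))
    · exact Or.inr (Or.inr (ey ▸ ha x hx'))
    · exact ih hl' x hx' y hy'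

/-- Chains are ordered by inclusion of their sets of entries. -/
theorem ch_sublist (irr : ∀ x, ¬lt x x) (tr : ∀ x y w, lt x y → lt y w → lt x w) {l m : List Q}
    (hl : l.Pairwise lt) (hm : m.Pairwise lt) (h : ∀ x ∈ m, x ∈ l) : m.Sublist l := by
  obtain ⟨k, hk, hs⟩ := List.subperm_of_subset (PoDis_nodup irr hm) h
  rw [← PoDis_perm irr tr hm (hl.sublist hs) hk]
  exact hs

theorem cx_Ch [Fintype Q] (irr : ∀ x, ¬lt x x) (tr : ∀ x y w, lt x y → lt y w → lt x w) :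
    Cx (Ch lt) := by
  intro l hl
  obtain ⟨h0, h1⟩ := (mem_Ch irr).1 hl
  exact ⟨h0, PoDis_nodup irr h1, fun m hm hs => (mem_Ch irr).2 ⟨hm, h1.sublist hs⟩,
    fun m hm hp => PoDis_perm irr tr h1 ((mem_Ch irr).1 hm).2 hp⟩

/-- `S` is a set of chains in which the part inside `J` is arbitrary. -/
def Sat [Fintype Q] (lt : Q → Q → Prop) (S : Finset (List Q)) (J : Set Q) : Prop :=
  Cvx (Ch lt) S ∧ (∀ l ∈ S, ∃ x ∈ l, x ∉ J) ∧
    (∀ l ∈ S, ∀ x ∈ l, x ∉ J → ∀ j ∈ J, lt x j ∨ lt j x) ∧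
    ∀ l ∈ S, ∀ m ∈ Ch lt, (∀ x, x ∉ J → (x ∈ m ↔ x ∈ l)) → m ∈ S

theorem PoDis_cone [Fintype Q] (irr : ∀ x, ¬lt x x) (tr : ∀ x y w, lt x y → lt y w → lt x w)
    {J : Set Q} {u : Q} (hu : u ∈ J) (h : ∀ x ∈ J, x = u ∨ lt x u ∨ lt u x)
    {S : Finset (List Q)} (hS : Sat lt S J) : Loc S 0 := by
  obtain ⟨c1, c2, c3, c4⟩ := hS
  have hne : ∀ x, x ∉ J → x ≠ u := fun x hx e => hx (e ▸ hu)
  refine loc_cone (cx_Ch irr tr) c1 u (fun l hl _ => ?_) fun l hl hn => ?_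
  · obtain ⟨x, hx, hxJ⟩ := c2 l hl
    refine c4 l hl _ ((mem_Ch irr).2 ⟨List.ne_nil_of_mem
      ((List.mem_erase_of_ne (hne x hxJ)).2 hx),
      ((mem_Ch irr).1 (c1.1 hl)).2.sublist List.erase_sublist⟩) fun y hy => ?_
    exact List.mem_erase_of_ne (hne y hy)
  · have hc : ∀ x ∈ l, lt x u ∨ lt u x := by
      intro x hx
      by_cases hxJ : x ∈ J
      · exact (h x hxJ).resolve_left fun e => hn (e ▸ hx)
      · exact c3 l hl x hx hxJ u hu
    obtain ⟨α, β, rfl, e⟩ := ch_insert tr ((mem_Ch irr).1 (c1.1 hl)).2 hc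
    refine ⟨α ++ u :: β, c4 _ hl _ ((mem_Ch irr).2 ⟨by simp, e⟩) fun y hy => ?_, by simp, ?_⟩
    · simp [hne y hy]
    · rw [List.erase_append_right _ fun h' => hn (List.mem_append_left _ h'),
        List.erase_cons_head]

theorem PoDis_rem [Fintype Q] (irr : ∀ x, ¬lt x x) (tr : ∀ x y w, lt x y → lt y w → lt x w)
    {J L : Set Q} {v : Q} (hL : L ⊆ J) (hv : v ∉ L)
    (hc : ∀ x ∈ J, x ∉ L → (x = v ∨ lt x v ∨ lt v x) → ∀ j ∈ L, lt x j ∨ lt j x)
    (h1 : ∀ S, Sat lt S (J \ {v}) → Loc S 0) (h2 : ∀ S, Sat lt S L → Loc S 0)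
    {S : Finset (List Q)} (hS : Sat lt S J) : Loc S 0 := by
  obtain ⟨c1, c2, c3, c4⟩ := hS
  have hm : ∀ l, l ∈ S \ (S.filter fun l => v ∉ l) ↔ l ∈ S ∧ v ∈ l := by
    intro l
    simp only [mem_sdiff, mem_filter]
    tauto
  refine loc_quot (S1 := S.filter fun l => v ∉ l) (sz_of_cvx (cx_Ch irr tr) c1)
    ⟨filter_subset _ _, fun l hl m hm hi => ?_⟩ (h1 _ ⟨⟨?_, ?_⟩, ?_, ?_, ?_⟩) (map_zero _)
    (h2 _ ⟨⟨?_, ?_⟩, ?_, ?_, ?_⟩)
  · exact mem_filter.2 ⟨hm, fun h => (mem_filter.1 hl).2 ((inc_sublist hi).1.subset h)⟩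
  · exact (filter_subset _ _).trans c1.1
  · intro l hl k hk m hm s1 s2
    exact mem_filter.2 ⟨c1.2 l (mem_filter.1 hl).1 k (mem_filter.1 hk).1 m hm s1 s2,
      fun h => (mem_filter.1 hl).2 (s2.subset h)⟩
  · intro l hl
    obtain ⟨x, hx, hxJ⟩ := c2 l (mem_filter.1 hl).1
    exact ⟨x, hx, fun h => hxJ h.1⟩
  · intro l hl x hx hxJ j hj
    obtain ⟨hl, hn⟩ := mem_filter.1 hl
    refine c3 l hl x hx (fun h => hxJ ⟨h, fun e => hn ?_⟩) j hj.1
    rw [← Set.mem_singleton_iff.1 e]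
    exact hx
  · intro l hl m hm e
    obtain ⟨hl, hn⟩ := mem_filter.1 hl
    exact mem_filter.2 ⟨c4 l hl m hm fun x hx => e x fun h => hx h.1,
      fun h => hn ((e v fun h' => h'.2 rfl).1 h)⟩
  · exact sdiff_subset.trans c1.1
  · intro l hl k hk m hm' s1 s2
    exact (hm m).2 ⟨c1.2 l ((hm l).1 hl).1 k ((hm k).1 hk).1 m hm' s1 s2,
      s1.subset ((hm k).1 hk).2⟩
  · intro l hl
    exact ⟨v, ((hm l).1 hl).2, hv⟩
  · intro l hl x hx hxL j hj
    obtain ⟨hl, hvl⟩ := (hm l).1 hl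
    by_cases hxJ : x ∈ J
    · exact hc x hxJ hxL (PoDis_cmp ((mem_Ch irr).1 (c1.1 hl)).2 x hx v hvl) j hj
    · exact c3 l hl x hx hxJ j (hL hj)
  · intro l hl m hm' e
    obtain ⟨hl, hvl⟩ := (hm l).1 hl
    exact (hm m).2 ⟨c4 l hl m hm' fun x hx => e x fun h => hx (hL h), (e v hv).2 hvl⟩

/-- Sketch: induction on `Dis`. Cone: `loc_cone`, `ch_insert`. Removal of `v`: `S1` = the lists
of `S` without `v` is `Sat` for `J \ {v}` and face-closed, `S \ S1` is `Sat` for the lower (upper)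
link of `v`; `loc_quot` with `z = 0`. -/
theorem dis_loc [Fintype Q] (irr : ∀ x, ¬lt x x) (tr : ∀ x y w, lt x y → lt y w → lt x w)
    {J : Set Q} (h : Dis lt J) : ∀ S, Sat lt S J → Loc S 0 := by
  induction h with
  | cone J u hu h => exact fun S hS => PoDis_cone irr tr hu h hS
  | down J v _ _ _ ih1 ih2 =>
    refine fun S hS => PoDis_rem irr tr (fun x hx => hx.1) (fun h => irr v h.2) ?_ ih1 ih2 hS
    rintro x hx hn (rfl | h | h) j hj
    · exact Or.inr hj.2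
    · exact absurd ⟨hx, h⟩ hn
    · exact Or.inr (tr _ _ _ hj.2 h)
  | up J v _ _ _ ih1 ih2 =>
    refine fun S hS => PoDis_rem irr tr (fun x hx => hx.1) (fun h => irr v h.2) ?_ ih1 ih2 hS
    rintro x hx hn (rfl | h | h) j hj
    · exact Or.inl hj.2
    · exact Or.inl (tr _ _ _ h hj.2)
    · exact absurd ⟨hx, h⟩ hn

theorem dis_congr {J J' : Set Q} (h : Dis lt J) (e : ∀ x, x ∈ J ↔ x ∈ J') : Dis lt J' := by
  rwa [← Set.ext e]

theorem dis_map {lt' : Q' → Q' → Prop} (f : Q → Q') (hf : Function.Injective f)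
    (h : ∀ x y, lt' (f x) (f y) ↔ lt x y) {J : Set Q} (hJ : Dis lt J) : Dis lt' (f '' J) := by
  have e1 : ∀ (J : Set Q) (v : Q) (y : Q'), y ∈ f '' (J \ {v}) ↔ y ∈ f '' J \ {f v} := by
    intro J v y
    rw [Set.image_sdiff hf, Set.image_singleton]
  induction hJ with
  | cone J u hu hc =>
    refine Dis.cone _ (f u) ⟨u, hu, rfl⟩ ?_
    rintro _ ⟨x, hx, rfl⟩
    rcases hc x hx with rfl | h' | h'
    · exact Or.inl rfl
    · exact Or.inr (Or.inl ((h _ _).2 h'))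
    · exact Or.inr (Or.inr ((h _ _).2 h'))
  | down J v hv _ _ ih1 ih2 =>
    refine Dis.down _ (f v) ⟨v, hv, rfl⟩ (dis_congr ih1 (e1 J v)) (dis_congr ih2 fun y => ⟨?_, ?_⟩)
    · rintro ⟨x, hx, rfl⟩
      exact ⟨⟨x, hx.1, rfl⟩, (h _ _).2 hx.2⟩
    · rintro ⟨⟨x, hx, rfl⟩, h'⟩
      exact ⟨x, ⟨hx, (h _ _).1 h'⟩, rfl⟩
  | up J v hv _ _ ih1 ih2 =>
    refine Dis.up _ (f v) ⟨v, hv, rfl⟩ (dis_congr ih1 (e1 J v)) (dis_congr ih2 fun y => ⟨?_, ?_⟩)
    · rintro ⟨x, hx, rfl⟩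
      exact ⟨⟨x, hx.1, rfl⟩, (h _ _).2 hx.2⟩
    · rintro ⟨⟨x, hx, rfl⟩, h'⟩
      exact ⟨x, ⟨hx, (h _ _).1 h'⟩, rfl⟩

theorem PoDis_set {r : Q → Q → Prop} (rk : Q → ℤ) (hrk : ∀ x y, r x y → rk x < rk y)
    (st : ∀ (J : Set Q) (v : Q), v ∈ J → Dis lt (J \ {v}) → Dis lt {x | x ∈ J ∧ r x v} → Dis lt J)
    (n : ℕ) : ∀ J K : Set Q, K.Finite → K.ncard = n → K ⊆ J →
      (∀ k ∈ K, Dis lt {x | x ∈ J \ K ∧ r x k}) → Dis lt (J \ K) → Dis lt J := by
  induction n with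
  | zero =>
    intro J K hK hn _ _ h0
    rw [(Set.ncard_eq_zero hK).1 hn, Set.sdiff_empty] at h0
    exact h0
  | succ n ih =>
    intro J K hK hn hs h h0
    obtain ⟨k, hk, hmin⟩ := Set.exists_min_image K rk hK
      (Set.nonempty_of_ncard_ne_zero (by omega))
    have e : (J \ {k}) \ (K \ {k}) = J \ K := by
      ext x
      simp only [Set.mem_sdiff, Set.mem_singleton_iff]
      constructor
      · rintro ⟨⟨h1, h2⟩, h3⟩
        exact ⟨h1, fun h4 => h3 ⟨h4, h2⟩⟩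
      · rintro ⟨h1, h2⟩
        exact ⟨⟨h1, fun h3 => h2 (h3 ▸ hk)⟩, fun h3 => h2 h3.1⟩
    refine st J k (hs hk) (ih _ (K \ {k}) hK.sdiff ?_ (Set.sdiff_subset_sdiff_left hs) ?_ ?_)
      (dis_congr (h k hk) fun x => ⟨fun hx => ⟨hx.1.1, hx.2⟩, fun hx => ⟨⟨hx.1, fun hx' => ?_⟩,
        hx.2⟩⟩)
    · rw [Set.ncard_sdiff_singleton_of_mem hk, hn]
      rfl
    · rw [e]
      exact fun k' hk' => h k' hk'.1
    · rw [e]
      exact h0
    · exact absurd (hrk _ _ hx.2) (not_lt.2 (hmin x hx'))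

/-- Removal of a finite set `K`, lowest elements first: for a minimal `k ∈ K` the lower link in
`J` is the lower link in `J \ K`. -/
theorem dis_down_set (rk : Q → ℕ) (hrk : ∀ x y, lt x y → rk x < rk y) {J K : Set Q}
    (hK : K.Finite) (hs : K ⊆ J) (h : ∀ k ∈ K, Dis lt {x | x ∈ J \ K ∧ lt x k})
    (h0 : Dis lt (J \ K)) : Dis lt J := by
  exact PoDis_set (r := lt) (fun x => (rk x : ℤ)) (fun x y h' => by exact_mod_cast hrk x y h')
    Dis.down _ J K hK rfl hs h h0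

theorem dis_up_set (rk : Q → ℕ) (hrk : ∀ x y, lt x y → rk x < rk y) {J K : Set Q}
    (hK : K.Finite) (hs : K ⊆ J) (h : ∀ k ∈ K, Dis lt {x | x ∈ J \ K ∧ lt k x})
    (h0 : Dis lt (J \ K)) : Dis lt J := by
  exact PoDis_set (r := fun x y => lt y x) (fun x => -(rk x : ℤ))
    (fun x y h' => neg_lt_neg (by exact_mod_cast hrk y x h')) Dis.up _ J K hK rfl hs h h0

/-- Certificates for `Dis`. -/
inductive Ct (Q : Type) where
  | c (u : Q) : Ct Q
  | d (v : Q) (r l : Ct Q) : Ct Q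
  | u (v : Q) (r l : Ct Q) : Ct Q

/-- The checker. -/
def chk [DecidableEq Q] (lb : Q → Q → Bool) : Ct Q → List Q → Bool
  | .c u, J => decide (u ∈ J) && J.all fun x => decide (x = u) || lb x u || lb u x
  | .d v r l, J => decide (v ∈ J) && chk lb r (J.filter fun x => !decide (x = v)) &&
      chk lb l (J.filter fun x => lb x v)
  | .u v r l, J => decide (v ∈ J) && chk lb r (J.filter fun x => !decide (x = v)) &&
      chk lb l (J.filter fun x => lb v x)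

theorem chk_dis [DecidableEq Q] (lb : Q → Q → Bool) (ct : Ct Q) :
    ∀ J : List Q, chk lb ct J = true → Dis (fun x y => lb x y = true) {x | x ∈ J} := by
  induction ct with
  | c u =>
    intro J h
    simp only [chk, Bool.and_eq_true, decide_eq_true_eq, List.all_eq_true, Bool.or_eq_true] at h
    exact Dis.cone _ u h.1 fun x hx => or_assoc.1 (h.2 x hx)
  | d v r l ih1 ih2 =>
    intro J h
    simp only [chk, Bool.and_eq_true, decide_eq_true_eq] at h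
    exact Dis.down _ v h.1.1 (dis_congr (ih1 _ h.1.2) fun x => by simp)
      (dis_congr (ih2 _ h.2) fun x => by simp)
  | u v r l ih1 ih2 =>
    intro J h
    simp only [chk, Bool.and_eq_true, decide_eq_true_eq] at h
    exact Dis.up _ v h.1.1 (dis_congr (ih1 _ h.1.2) fun x => by simp)
      (dis_congr (ih2 _ h.2) fun x => by simp)

end Pool.Agent.HT
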