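import Pool.Agent.Lib.MP_dae8ad_gt.H.PoHM0

/-! Face posets give homology manifolds. -/

open Finset Classical

noncomputable section

namespace Pool.Agent.HT

variable {V V' : Type}

variable {Q : Type} [Fintype Q] {lt : Q → Q → Prop} {rk : Q → ℕ} {s : Q → Q → ℤ} {b : Q → Prop}
  {n : ℕ}

omit [Fintype Q] in
theorem PoHM_cmp {l : List Q} (hl : l.Pairwise lt) {x y : Q} (hx : x ∈ l) (hy : y ∈ l) :
    x = y ∨ lt x y ∨ lt y x := by
  induction hl with
  | nil => cases hx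
  | cons h _ ih =>
    rcases List.mem_cons.1 hx with e | a <;> rcases List.mem_cons.1 hy with e' | c
    exacts [.inl (e.trans e'.symm), .inr (.inl (e ▸ h _ c)), .inr (.inr (e' ▸ h _ a)), ih a c]

omit [Fintype Q] in
theorem PoHM_iv (tr : ∀ x y w, lt x y → lt y w → lt x w) {α β : List Q}
    (h : (α ++ β).Pairwise lt) (u : Q) :
    u ∈ Iv lt α.getLast? β.head? ↔ (∀ a ∈ α, lt a u) ∧ ∀ c ∈ β, lt u c := by
  obtain ⟨h1, h2, -⟩ := List.pairwise_append.1 h
  refine and_congr ⟨fun h3 a ha => ?_, fun h3 a ha => h3 a (List.mem_of_mem_getLast? ha)⟩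
    ⟨fun h3 c hc => ?_, fun h3 c hc => h3 c (List.mem_of_mem_head? hc)⟩
  · rcases List.eq_nil_or_concat α with rfl | ⟨γ, x, rfl⟩
    · cases ha
    · rw [List.concat_eq_append] at h1 h3 ha
      have h4 := h3 x (by simp)
      rcases List.mem_append.1 ha with h5 | h5
      · exact tr _ _ _ ((List.pairwise_append.1 h1).2.2 a h5 x (by simp)) h4
      · rwa [List.mem_singleton.1 h5]
  · obtain _ | ⟨y, γ⟩ := β
    · cases hc
    · have h4 := h3 y rfl
      rcases List.mem_cons.1 hc with rfl | h5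
      · exact h4
      · exact tr _ _ _ h4 ((List.pairwise_cons.1 h2).1 c h5)

theorem PoHM_sat (irr : ∀ x, ¬lt x x) (tr : ∀ x y w, lt x y → lt y w → lt x w) {α β : List Q}
    (h : α ++ β ∈ Ch lt) {J : Set Q} (hJ : J ⊆ Iv lt α.getLast? β.head?) {S : Finset (List Q)}
    (hS : ∀ l, l ∈ S ↔ l ∈ St (Ch lt) (α ++ β) ∧ ∀ x ∈ l, x ∈ Iv lt α.getLast? β.head? → x ∈ J) :
    Sat lt S J := by
  obtain ⟨h1, h2⟩ := (mem_Ch irr).1 h
  have h3 : ∀ x ∈ α ++ β, x ∉ J := fun x hx hj => by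
    obtain ⟨h4, h5⟩ := (PoHM_iv tr h2 x).1 (hJ hj)
    exact irr x ((List.mem_append.1 hx).elim (h4 x) (h5 x))
  refine ⟨⟨fun l hl => (mem_St.1 ((hS l).1 hl).1).1, fun l hl k hk m hm a c => (hS m).2
    ⟨mem_St.2 ⟨hm, (mem_St.1 ((hS k).1 hk).1).2.trans a⟩,
      fun x hx => ((hS l).1 hl).2 x (c.subset hx)⟩⟩, fun l hl => ?_, fun l hl x hx hn j hj => ?_,
    fun l hl m hm e => ?_⟩
  · obtain ⟨x, hx⟩ := List.exists_mem_of_ne_nil _ h1
    exact ⟨x, (mem_St.1 ((hS l).1 hl).1).2.subset hx, h3 x hx⟩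
  · obtain ⟨h4, h5⟩ := (hS l).1 hl
    obtain ⟨h6, h7⟩ := mem_St.1 h4
    obtain ⟨h8, h9⟩ := (PoHM_iv tr h2 j).1 (hJ hj)
    by_contra h10
    rw [not_or] at h10
    refine hn (h5 x hx ((PoHM_iv tr h2 x).2 ⟨fun a ha => ?_, fun c hc => ?_⟩))
    · rcases PoHM_cmp ((mem_Ch irr).1 h6).2 (h7.subset (List.mem_append_left _ ha)) hx with
        rfl | e | e
      exacts [absurd (h8 _ ha) h10.1, e, absurd (tr _ _ _ e (h8 _ ha)) h10.1]
    · rcases PoHM_cmp ((mem_Ch irr).1 h6).2 (h7.subset (List.mem_append_right _ hc)) hx with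
        rfl | e | e
      exacts [absurd (h9 _ hc) h10.2, absurd (tr _ _ _ (h9 _ hc) e) h10.2, e]
  · obtain ⟨h4, h5⟩ := (hS l).1 hl
    exact (hS m).2 ⟨mem_St.2 ⟨hm, ch_sublist irr tr ((mem_Ch irr).1 hm).2 h2 fun x hx =>
      (e x (h3 x hx)).2 ((mem_St.1 h4).2.subset hx)⟩,
      fun x hx hg => by_contra fun hn => hn (h5 x ((e x hn).1 hx) hg)⟩

theorem PoHM_cyc (h : IC lt rk s b n) {σ : List Q} (hb : ∃ v ∈ σ, ¬b v) :
    bz (St (Ch lt) σ) (fz s n) = 0 := by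
  funext m
  by_cases hm : m ∈ St (Ch lt) σ
  · obtain ⟨v, h1, h2⟩ := hb
    rw [bz_St _ _ _ hm, h.cyc (mem_St.1 hm).1 ⟨v, (mem_St.1 hm).2.subset h1, h2⟩]
    rfl
  · exact LocMV_off _ hm

theorem PoHM_sph (h : IC lt rk s b n) {α β : List Q} (hσ : α ++ β ∈ Ch lt)
    (hb : ∃ v ∈ α ++ β, ¬b v) : Sph lt (Iv lt α.getLast? β.head?) := by
  obtain ⟨h1, h2⟩ := (mem_Ch h.irr).1 hσ
  cases e : α.getLast? with
  | none =>
    cases e' : β.head? with
    | none => simp [List.getLast?_eq_none_iff.1 e, List.head?_eq_none_iff.1 e'] at h1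
    | some y => exact h.s0 y
  | some x =>
    have hx : x ∈ α := List.mem_of_mem_getLast? e
    cases e' : β.head? with
    | none =>
      obtain rfl := List.head?_eq_none_iff.1 e'
      obtain ⟨v, h3, h4⟩ := hb
      rw [List.append_nil] at h2 h3
      refine h.s2 x fun h5 => h4 ?_
      obtain ⟨γ, rfl⟩ := List.getLast?_eq_some_iff.1 e
      rcases List.mem_append.1 h3 with h6 | h6
      · exact h.low _ _ ((List.pairwise_append.1 h2).2.2 v h6 x (by simp)) h5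
      · rwa [List.mem_singleton.1 h6]
    | some y => exact h.s1 x y ((List.pairwise_append.1 h2).2.2 x hx y (List.mem_of_mem_head? e'))

/-- Sketch: downward induction on the length. A full flag has the star `{σ}`. Otherwise
`σ = α ++ β` with a nonempty gap `J = Iv lt α.getLast? β.head?` (`IC.gap`); `s0`, `s1`, `s2` give
`v ∈ J` with `Dis lt (J \ {v})`. The lists of the star without `v` are `Sat` for `J \ {v}`, the
others form the star of `α ++ v :: β` (`ch_sublist`); `loc_quot` with `IC.cyc`, `bz_St`. -/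
theorem IC.loc_in (h : IC lt rk s b n) {σ : List Q} (hσ : σ ∈ Ch lt) (hb : ∃ v ∈ σ, ¬b v) :
    Loc (St (Ch lt) σ) (fz s n) := by
  induction hk : n + 1 - σ.length generalizing σ with
  | zero =>
    have h1 : σ.length = n + 1 := by have := h.len hσ; omega
    refine ⟨PoHM_cyc h hb, fun c _ => ⟨0, c σ * fz s n σ, fun m hm => ?_⟩⟩
    obtain rfl : σ = m := (mem_St.1 hm).2.eq_of_length_le (h1 ▸ h.len (mem_St.1 hm).1)
    have h2 := h.abs hσ
    rw [if_pos h1] at h2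
    rw [map_zero, Pi.zero_apply, zero_add, mul_assoc, ← abs_mul_abs_self, h2, mul_one, mul_one]
  | succ k ih =>
    obtain ⟨α, β, u, rfl, h1⟩ := h.gap hσ (by omega)
    have h2 := ((mem_Ch h.irr).1 hσ).2
    have h3 : ∀ v, v ∈ Iv lt α.getLast? β.head? ↔ (α ++ v :: β).Pairwise lt := fun v => by
      have h4 := List.pairwise_append.1 h2
      rw [PoHM_iv h.tr h2, List.pairwise_append, List.pairwise_cons]
      exact ⟨fun h5 => ⟨h4.1, ⟨h5.2, h4.2.1⟩, fun a ha c hc => (List.mem_cons.1 hc).elim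
        (fun e => e ▸ h5.1 a ha) (h4.2.2 a ha c)⟩,
        fun h5 => ⟨fun a ha => h5.2.2 a ha v List.mem_cons_self, h5.2.1.1⟩⟩
    obtain ⟨v, h4, h5⟩ := PoHM_sph h hσ hb ⟨u, (h3 u).2 ((mem_Ch h.irr).1 h1).2⟩
    have h6 : (α ++ β).Sublist (α ++ v :: β) := (List.sublist_cons_self v β).append_left α
    have h7 := ih ((mem_Ch h.irr).2 ⟨by simp, (h3 v).1 h4⟩)
      (hb.imp fun x hx => ⟨h6.subset hx.1, hx.2⟩) (by
        simp only [List.length_append, List.length_cons] at hk ⊢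
        omega)
    refine loc_quot (S1 := (St (Ch lt) (α ++ β)).filter fun l => v ∉ l)
      (sz_of_cvx h.cx (cvx_St _)) ⟨filter_subset _ _, fun l hl m hm e => mem_filter.2
        ⟨hm, fun h8 => (mem_filter.1 hl).2 ((inc_sublist e).1.subset h8)⟩⟩
      (dis_loc h.irr h.tr h5 _ (PoHM_sat h.irr h.tr hσ Set.sdiff_subset fun l => ?_))
      (PoHM_cyc h hb) (loc_ext (fun l => ?_) h7)
    · rw [mem_filter]
      exact and_congr_right fun _ => ⟨fun h8 x hx hg => ⟨hg, fun e => h8 (e ▸ hx)⟩,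
        fun h8 hv => (h8 v hv h4).2 rfl⟩
    · simp only [mem_sdiff, mem_filter, mem_St, not_and, not_not]
      refine ⟨fun h8 => ⟨⟨h8.1, h6.trans h8.2⟩, fun _ => h8.2.subset (by simp)⟩, fun h8 =>
        ⟨h8.1.1, ch_sublist h.irr h.tr ((mem_Ch h.irr).1 h8.1.1).2 ((h3 v).1 h4) fun x hx => ?_⟩⟩
      rcases List.mem_append.1 hx with e | e
      · exact h8.1.2.subset (List.mem_append_left _ e)
      · exact (List.mem_cons.1 e).elim (fun e => e ▸ h8.2 h8.1)
          fun e => h8.1.2.subset (List.mem_append_right _ e)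

/-- The star is `Sat` for the interval above the last entry. -/
theorem IC.loc_bd (h : IC lt rk s b n) {σ : List Q} (hσ : σ ∈ Ch lt) (hb : ∀ v ∈ σ, b v) :
    Loc (St (Ch lt) σ) 0 := by
  obtain ⟨x, hx⟩ := Option.ne_none_iff_exists'.1 fun e =>
    ((mem_Ch h.irr).1 hσ).1 (List.getLast?_eq_none_iff.1 e)
  have h1 := h.ball x (hb x (List.mem_of_mem_getLast? hx))
  rw [← hx] at h1
  exact dis_loc h.irr h.tr h1 _ (PoHM_sat (β := []) h.irr h.tr (by simpa using hσ) subset_rfl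
    fun l => by simp)

theorem IC.hm_closed (h : IC lt rk s (fun _ => False) n) : HM n (Ch lt) ∅ ∅ (fz s n) := by
  refine ⟨h.cx, fun l hl => absurd hl (notMem_empty l), empty_subset _,
    fun l hl => ⟨h.len hl, h.abs hl⟩, fun σ hσ _ => ⟨h.pure hσ, ?_⟩⟩
  rw [if_neg (notMem_empty σ)]
  obtain ⟨x, hx⟩ := List.exists_mem_of_ne_nil _ ((mem_Ch h.irr).1 hσ).1
  exact h.loc_in hσ ⟨x, hx, not_false⟩

theorem IC.hm_rel (h : IC lt rk s b (n + 1)) {B : Finset (List Q)}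
    (hB : ∀ l, l ∈ B ↔ l ∈ Ch lt ∧ ∀ v ∈ l, b v) {w : List Q → ℤ} (hw : HM n B ∅ ∅ w) :
    HM (n + 1) (Ch lt) B ∅ (fz s (n + 1)) := by
  refine hm_of h.cx (fun l hl => ((hB l).1 hl).1) (fun l hl => ⟨h.len hl, h.abs hl⟩)
    (fun σ hσ => h.pure hσ) hw (fun σ hσ hn => h.loc_in hσ ?_)
    fun σ hσ => h.loc_bd ((hB σ).1 hσ).1 ((hB σ).1 hσ).2
  by_contra h1
  exact hn ((hB σ).2 ⟨hσ, fun v hv => by_contra fun h2 => h1 ⟨v, hv, h2⟩⟩)

end Pool.Agent.HT
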