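import Pool.Agent.Lib.MP_dae8ad_gt.H.PoDis

/-! Face posets give homology manifolds. -/

open Finset Classical

noncomputable section

namespace Pool.Agent.HT

variable {V V' : Type}

variable {Q : Type} [Fintype Q] {lt : Q → Q → Prop} {rk : Q → ℕ} {s : Q → Q → ℤ} {b : Q → Prop}
  {n : ℕ}

theorem IC.irr (h : IC lt rk s b n) (x : Q) : ¬lt x x := fun hx => lt_irrefl _ (h.rk_lt x x hx)

theorem IC.cx (h : IC lt rk s b n) : Cx (Ch lt) := cx_Ch h.irr h.tr

theorem PoHM0_lo (h : IC lt rk s b n) {N : ℕ} {l : List Q} (hl : l.Pairwise lt) :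
    ∀ k ≤ N, (∀ x ∈ l, k ≤ rk x ∧ rk x < N) → k + l.length ≤ N := by
  induction hl with
  | nil => exact fun k hk _ => hk
  | @cons x l h1 _ ih =>
    intro k _ hx
    rw [List.forall_mem_cons] at hx
    have := ih (k + 1) (by omega) fun y hy =>
      ⟨hx.1.1.trans_lt (h.rk_lt _ _ (h1 y hy)), (hx.2 y hy).2⟩
    rw [List.length_cons]
    omega

/-- Ranks increase strictly along a chain. -/
theorem IC.len (h : IC lt rk s b n) {l : List Q} (hl : l ∈ Ch lt) : l.length ≤ n + 1 := by
  simpa using PoHM0_lo h ((mem_Ch h.irr).1 hl).2 0 (Nat.zero_le _) fun x _ =>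
    ⟨Nat.zero_le _, Nat.lt_succ_of_le (h.rk_le x)⟩

theorem IC.rk_full (h : IC lt rk s b n) {α β : List Q} {u : Q} (hl : α ++ u :: β ∈ Ch lt)
    (hn : (α ++ u :: β).length = n + 1) : rk u = α.length := by
  obtain ⟨h1, h2, h3⟩ := List.pairwise_append.1 ((mem_Ch h.irr).1 hl).2
  rw [List.pairwise_cons] at h2
  have a := PoHM0_lo h h1 0 (Nat.zero_le (rk u)) fun x hx =>
    ⟨Nat.zero_le _, h.rk_lt _ _ (h3 x hx u List.mem_cons_self)⟩
  have c := PoHM0_lo h h2.2 (rk u + 1) (Nat.succ_le_succ (h.rk_le u)) fun x hx =>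
    ⟨h.rk_lt _ _ (h2.1 x hx), Nat.lt_succ_of_le (h.rk_le x)⟩
  rw [List.length_append, List.length_cons] at hn
  omega

theorem PoHM0_lt (h : IC lt rk s b n) {α β : List Q} {x y : Q} (hl : α ++ x :: y :: β ∈ Ch lt) :
    lt x y :=
  List.rel_of_pairwise_cons (List.pairwise_append.1 ((mem_Ch h.irr).1 hl).2).2.1 List.mem_cons_self

theorem PoHM0_next (h : IC lt rk s b n) {α β : List Q} {x y : Q} (hl : α ++ x :: y :: β ∈ Ch lt)
    (hn : (α ++ x :: y :: β).length = n + 1) : rk y = α.length + 1 := by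
  rw [List.append_cons] at hl hn
  simpa using h.rk_full hl hn

theorem PoHM0_abs (h : IC lt rk s b n) : ∀ β α : List Q, α ++ β ∈ Ch lt →
    (α ++ β).length = n + 1 → |pr s β| = 1
  | [], _, _, _ => abs_one
  | [_], _, _, _ => abs_one
  | x :: y :: β, α, hl, hn => by
    rw [pr, abs_mul, PoHM0_abs h (y :: β) (α ++ [x]) (by simpa using hl) (by simpa using hn)]
    rcases h.unit x y (PoHM0_lt h hl) (by rw [PoHM0_next h hl hn, h.rk_full hl hn]) with e | e <;>
      simp [e]

theorem IC.abs (h : IC lt rk s b n) {l : List Q} (hl : l ∈ Ch lt) :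
    |fz s n l| = if l.length = n + 1 then 1 else 0 := by
  unfold fz
  split_ifs with e
  · exact PoHM0_abs h l [] hl e
  · exact abs_zero

theorem PoHM0_ins (h : IC lt rk s b n) {α β : List Q} (hl : α ++ β ∈ Ch lt) (u : Q) :
    α ++ u :: β ∈ Ch lt ↔ (∀ x ∈ α.getLast?, lt x u) ∧ ∀ y ∈ β.head?, lt u y := by
  have : IsTrans Q lt := ⟨h.tr⟩
  rw [mem_Ch h.irr, ← List.isChain_iff_pairwise] at hl ⊢
  simp only [List.isChain_append, List.isChain_cons] at hl ⊢
  simp [hl.2.1, hl.2.2.1, and_comm]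

theorem PoHM0_gap (h : IC lt rk s b n) : ∀ (β α : List Q) (x : Q), α ++ x :: β ∈ Ch lt →
    rk x = α.length → (α ++ x :: β).length ≠ n + 1 →
    ∃ α' β' u, α ++ x :: β = α' ++ β' ∧ α' ++ u :: β' ∈ Ch lt
  | [], α, x, hl, hx, hn => by
    obtain ⟨u, hu⟩ := h.p2 x ((h.rk_le x).lt_of_ne (by simpa [hx] using hn))
    exact ⟨_, [], u, (List.append_nil _).symm,
      (PoHM0_ins h (by simpa using hl) u).2 (by simpa using hu)⟩
  | y :: β, α, x, hl, hx, hn => by
    have a := PoHM0_lt h hl
    rw [List.append_cons] at hl hn ⊢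
    rcases (Nat.succ_le_of_lt (h.rk_lt _ _ a)).eq_or_lt with e | e
    · exact PoHM0_gap h β _ y hl (by simp [← e, hx]) hn
    · obtain ⟨u, hu⟩ := h.p1 x y a e
      exact ⟨_, _, u, rfl, (PoHM0_ins h hl u).2 (by simpa using hu)⟩

/-- A chain that is not a full flag has a nonempty gap (`p0`, `p1`, `p2`). -/
theorem IC.gap (h : IC lt rk s b n) {l : List Q} (hl : l ∈ Ch lt) (hn : l.length ≠ n + 1) :
    ∃ α β u, l = α ++ β ∧ α ++ u :: β ∈ Ch lt := by
  obtain ⟨x, β, rfl⟩ := List.exists_cons_of_ne_nil ((mem_Ch h.irr).1 hl).1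
  rcases (rk x).eq_zero_or_pos with e | e
  · exact PoHM0_gap h β [] x hl e hn
  · obtain ⟨u, hu⟩ := h.p0 x e
    exact ⟨[], _, u, rfl, (PoHM0_ins h (α := []) hl u).2 (by simpa using hu)⟩

theorem IC.pure (h : IC lt rk s b n) {σ : List Q} (hσ : σ ∈ Ch lt) :
    ∃ l ∈ St (Ch lt) σ, l.length = n + 1 := by
  induction hk : n + 1 - σ.length generalizing σ with
  | zero => exact ⟨σ, mem_St.2 ⟨hσ, .refl _⟩, by have := h.len hσ; omega⟩
  | succ k ih =>
    obtain ⟨α, β, u, rfl, hu⟩ := h.gap hσ (by omega)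
    obtain ⟨l, hl, e⟩ := ih hu (by simp at hk ⊢; omega)
    rw [mem_St] at hl
    exact ⟨l, mem_St.2 ⟨hl.1, ((List.sublist_cons_self u β).append_left α).trans hl.2⟩, e⟩

theorem PoHM0_inc (l m : List Q) : inc l m = ∑ j ∈ range (m.length + 1),
    ∑ u, if m.take j ++ u :: m.drop j = l then (-1) ^ j else 0 := by
  by_cases hl : l.length = m.length + 1
  · rw [inc, hl]
    refine sum_congr rfl fun j hj => ?_
    have hj' := Nat.le_of_lt_succ (mem_range.1 hj)
    have hjl : j < l.length := hl ▸ mem_range.1 hj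
    have key : ∀ u, m.take j ++ u :: m.drop j = l ↔ l.eraseIdx j = m ∧ l[j] = u := by
      refine fun u => ⟨?_, ?_⟩
      · rintro rfl
        simp [List.eraseIdx_append_of_length_le, hj']
      · rintro ⟨rfl, rfl⟩
        rw [List.eraseIdx_eq_take_drop_succ, List.take_left' (List.length_take_of_le hjl.le),
          List.drop_left' (List.length_take_of_le hjl.le), List.getElem_cons_drop,
          List.take_append_drop]
    simp [key, ite_and]
  · rw [by_contra fun e => hl (inc_sublist e).2.symm]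
    refine (sum_eq_zero fun j hj => sum_eq_zero fun u _ => if_neg fun e => hl ?_).symm
    have := congrArg List.length (List.take_append_drop j m)
    rw [← e]
    simp only [List.length_append, List.length_cons] at this ⊢
    omega

/-- The boundary as a sum over insertions. -/
theorem bz_insert (X : Finset (List Q)) (z : List Q → ℤ) {m : List Q} (hm : m ∈ X) :
    bz X z m = ∑ j ∈ range (m.length + 1), (-1) ^ j *
      ∑ u ∈ univ.filter (fun u => m.take j ++ u :: m.drop j ∈ X), z (m.take j ++ u :: m.drop j) := by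
  rw [bz_apply, if_pos hm]
  simp only [PoHM0_inc _ m, sum_mul, ite_mul, zero_mul, mul_sum]
  rw [sum_comm]
  refine sum_congr rfl fun j _ => ?_
  rw [sum_comm, sum_filter]
  exact sum_congr rfl fun u _ => sum_ite_eq _ _ _

omit [Fintype Q] in
theorem PoHM0_pr (s : Q → Q → ℤ) (x : Q) (β : List Q) :
    ∀ α : List Q, pr s (α ++ x :: β) = pr s (α ++ [x]) * pr s (x :: β)
  | [] => (one_mul _).symm
  | [_] => by simp [pr]
  | a :: c :: α => by
    have := PoHM0_pr s x β (c :: α)
    simp only [List.cons_append, pr] at this ⊢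
    rw [this, mul_assoc]

theorem PoHM0_cyc (h : IC lt rk s b n) {α β : List Q} (hm : α ++ β ∈ Ch lt)
    (hb : ∃ v ∈ α ++ β, ¬b v) :
    ∑ u ∈ univ.filter (fun u => α ++ u :: β ∈ Ch lt), fz s n (α ++ u :: β) = 0 := by
  by_contra hne
  obtain ⟨w, hw, e⟩ := exists_ne_zero_of_sum_ne_zero hne
  rw [mem_filter_univ] at hw
  have hn : ∀ u, (α ++ u :: β).length = n + 1 := fun u =>
    Eq.trans (by simp) (by_contra fun a => e (if_neg a) : (α ++ w :: β).length = n + 1)
  simp only [fz, hn, if_true, PoHM0_ins h hm] at hne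
  apply hne
  rcases α.eq_nil_or_concat' with rfl | ⟨α, x, rfl⟩ <;> rcases β with _ | ⟨y, β⟩
  · exact absurd rfl ((mem_Ch h.irr).1 hm).1
  · simpa [pr, ← sum_mul] using Or.inl (h.c0 y (PoHM0_next h hw (hn w)))
  · have a := hn w
    rw [← List.append_cons] at hw a
    have c := h.c2 x (fun c => by
      obtain ⟨v, hv, d⟩ := hb
      rw [List.append_nil] at hv hm
      rcases List.mem_append.1 hv with hv | hv
      · exact d (h.low v x ((List.pairwise_append.1 ((mem_Ch h.irr).1 hm).2).2.2 v hv x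
          List.mem_cons_self) c)
      · exact d (List.mem_singleton.1 hv ▸ c)) (by rw [h.rk_full hw a]; simpa using a)
    simpa [PoHM0_pr s x [_], pr, ← mul_sum] using Or.inr c
  · have a := PoHM0_next h hw (hn w)
    have a' := hn w
    rw [← List.append_cons] at hw a' hm
    have c := h.c1 x y (PoHM0_lt h hm) (by rw [h.rk_full hw a', a]; simp)
    simpa [PoHM0_pr s x (_ :: y :: β), pr, ← mul_sum, ← mul_assoc (s x _), ← sum_mul] using
      Or.inr (Or.inl c)

/-- Sketch: only `m.length = n` matters. For each `j` the inner sum of `bz_insert` vanishes: if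
it is not empty, `rk_full` gives the ranks of the neighbours of the gap, and the sum is a constant
times the sum in `c0`, `c1` or `c2` (the last entry of `m` is not in `b` by `low`). -/
theorem IC.cyc (h : IC lt rk s b n) {m : List Q} (hm : m ∈ Ch lt) (hb : ∃ v ∈ m, ¬b v) :
    bz (Ch lt) (fz s n) m = 0 := by
  rw [bz_insert _ _ hm]
  refine sum_eq_zero fun j _ => mul_eq_zero_of_right _ (PoHM0_cyc h ?_ ?_) <;>
    rwa [List.take_append_drop]

end Pool.Agent.HT
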