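import Pool.Agent.Lib.MP_dae8ad_gt.H.PoTor
import Pool.Agent.Lib.MP_dae8ad_gt.H.PoHM

/-! The surface `P` and the mapping torus `Tot`. -/

open Finset Classical

noncomputable section

namespace Pool.Agent.HT

variable {V V' : Type}

/-- All cells. -/
def PoP_all : List P :=
  ([false, true].flatMap fun ε => (List.finRange 3).map (P.a ε) ++ (List.finRange 5).map (P.b ε) ++
    (List.finRange 15).map (P.e ε)) ++ (List.finRange 30).map P.w ++ (List.finRange 30).map P.f

theorem PoP_mem (x : P) : x ∈ PoP_all := by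
  rcases x with ⟨_ | _, i⟩ | ⟨_ | _, i⟩ | ⟨_ | _, i⟩ | i | i <;> simp [PoP_all]

/-- The certificate of a path: remove an end point. -/
def PoP_ct : ℕ → List P → Ct P
  | 0, J => .c (J.headD (.w 0))
  | n + 1, J =>
    match J.find? (fun v => (J.filter fun x => x.lt v || v.lt x).length == 1) with
    | none => .c (J.headD (.w 0))
    | some v =>
      match J.find? (fun x => x.lt v) with
      | some u => .d v (PoP_ct n (J.filter fun x => !decide (x = v))) (.c u)
      | none => .u v (PoP_ct n (J.filter fun x => !decide (x = v)))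
          (.c ((J.find? fun x => v.lt x).getD v))

/-- The test for `Sph`. -/
def PoP_sph : List P → Bool
  | [] => true
  | v :: J => chk P.lt (PoP_ct 30 (J.filter fun x => !decide (x = v)))
      (J.filter fun x => !decide (x = v))

theorem PoP_sph_ok (p : P → Bool) (h : PoP_sph (PoP_all.filter p) = true) {S : Set P}
    (e : ∀ x, x ∈ S ↔ p x = true) : Sph ltP S := by
  have e' : ∀ x, x ∈ S ↔ x ∈ PoP_all.filter p := fun x => by simp [e, PoP_mem]
  generalize PoP_all.filter p = J at h e'
  rintro ⟨x, hx⟩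
  cases J with
  | nil => simp [e'] at hx
  | cons v J =>
    refine ⟨v, (e' v).2 (by simp), dis_congr (chk_dis P.lt _ _ h) fun y => ?_⟩
    simp only [Set.mem_ofPred_eq, List.mem_filter, Set.mem_sdiff, e', List.mem_cons,
      Set.mem_singleton_iff, Bool.not_eq_true', decide_eq_false_iff_not]
    tauto

theorem PoP_s0 : ∀ y : P, PoP_sph (PoP_all.filter fun x => x.lt y) = true := by decide +kernel

theorem PoP_s1 : ∀ x y : P, ltP x y →
    PoP_sph (PoP_all.filter fun u => x.lt u && u.lt y) = true := by decide +kernel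

theorem PoP_s2 : ∀ x : P, PoP_sph (PoP_all.filter fun y => x.lt y) = true := by decide +kernel

theorem PoP_c0 : ∀ y, rkP y = 1 → ∑ x, (if ltP x y then sP x y else 0) = 0 := by decide +kernel

theorem PoP_c1 : ∀ x y, ltP x y → rkP y = rkP x + 2 →
    ∑ u, (if ltP x u ∧ ltP u y then sP x u * sP u y else 0) = 0 := by decide +kernel

theorem PoP_c2 : ∀ x, rkP x + 1 = 2 → ∑ y, (if ltP x y then sP x y else 0) = 0 := by
  decide +kernel

theorem PoP_tr : ∀ x y, ltP x y → ∀ w, ltP y w → ltP x w := by decide +kernel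

/-- Finite checks. The fields `s0`, `s1`, `s2` are proved with certificates `Ct` and `chk_dis`
(generate them with /team-store/h71st_po.py: intervals are points, pairs of points or circles);
all other fields by `decide` (restate the sums with decidable filters or over an explicit list). -/
theorem ic_P : IC ltP rkP sP (fun _ => False) 2 := by
  refine ⟨fun x y w h => PoP_tr x y h w, by decide +kernel, by decide +kernel,
    fun _ _ _ h => h, by decide +kernel, by decide +kernel, by decide +kernel,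
    fun y => PoP_sph_ok _ (PoP_s0 y) fun x => by simp [Iv, ltP],
    fun x y h => PoP_sph_ok _ (PoP_s1 x y h) fun x => by simp [Iv, ltP],
    fun x _ => PoP_sph_ok _ (PoP_s2 x) fun x => by simp [Iv, ltP],
    fun _ h => h.elim, by decide +kernel, fun y h => ?_, fun x y h h' => ?_, fun x _ h => ?_⟩
  · rw [sum_filter]
    exact (sum_congr rfl fun x _ => by split_ifs <;> rfl).trans (PoP_c0 y h)
  · rw [sum_filter]
    exact (sum_congr rfl fun x _ => by split_ifs <;> rfl).trans (PoP_c1 x y h h')
  · rw [sum_filter]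
    exact (sum_congr rfl fun x _ => by split_ifs <;> rfl).trans (PoP_c2 x h)

theorem aut_P : Aut ltP rkP sP (fun _ => False) hP := by
  exact ⟨by decide +kernel, by decide +kernel, by decide +kernel, fun _ => Iff.rfl⟩

theorem hP_pow : hP ^ 15 = 1 := by
  have h : ∀ x : P, P.h^[15] x = x := by decide +kernel
  refine Equiv.ext fun x => ?_
  rw [Equiv.Perm.coe_pow]
  exact h x

/-- A spanning tree of the comparability graph. -/
def PoP_par : P → P
  | .a false i => if i = 0 then .a false 0 else .e false (Fin.ofNat 15 i.1)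
  | .a true i => .w (Fin.ofNat 30 (2 * i.1))
  | .b false j => .e false (Fin.ofNat 15 (6 * j.1))
  | .b true j => .w (Fin.ofNat 30 (2 * j.1 + 1))
  | .e false k => if k.1 % 3 = 0 then .a false 0 else .b false (Fin.ofNat 5 k.1)
  | .e true k => .a true (Fin.ofNat 3 k.1)
  | .w c => if c.1 % 2 = 0 then .a false (Fin.ofNat 3 (c.1 / 2)) else .b false (Fin.ofNat 5 (c.1 / 2))
  | .f c => .w c

theorem conn_P {β : Type} (g : P → β) (h : ∀ x y, ltP x y → g x = g y) (x y : P) : g x = g y := by
  have h1 : ∀ x, PoP_par x = x ∨ ltP x (PoP_par x) ∨ ltP (PoP_par x) x := by decide +kernel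
  have h2 : ∀ x, PoP_par^[8] x = .a false 0 := by decide +kernel
  have h3 : ∀ n x, g (PoP_par^[n] x) = g x := by
    intro n
    induction n with
    | zero => exact fun _ => rfl
    | succ n ih =>
      intro x
      rw [Function.iterate_succ_apply, ih]
      rcases h1 x with e | e | e
      exacts [congrArg g e, (h _ _ e).symm, h _ _ e]
  rw [← h3 8 x, ← h3 8 y, h2, h2]

theorem hm_P : HM 2 (Ch ltP) ∅ ∅ (fz sP 2) := ic_P.hm_closed

theorem lt6_iff (u v : P × Fin 6) : lt6 (.inl u) (.inl v) ↔ ltT ltP hP u v := by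
  obtain ⟨x, r⟩ := u
  obtain ⟨y, r'⟩ := v
  exact Iff.rfl

theorem mem_Tot {l : List A} : l ∈ Tot ↔ ∃ m ∈ Ch (ltT ltP hP), l = m.map Sum.inl := by
  have hi := ic_tor ic_P aut_P
  simp only [Tot, mem_filter, mem_image, Set.Finite.mem_toFinset, Set.mem_ofPred_eq]
  constructor
  · rintro ⟨⟨m, -, rfl⟩, h1, h2⟩
    refine ⟨m, (mem_Ch hi.irr).2 ⟨by simpa using h1, ?_⟩, rfl⟩
    exact (List.pairwise_map.1 h2).imp fun h => (lt6_iff _ _).1 h
  · rintro ⟨m, hm, rfl⟩
    obtain ⟨h1, h2⟩ := (mem_Ch hi.irr).1 hm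
    exact ⟨⟨m, hi.len hm, rfl⟩, by simpa using h1,
      List.pairwise_map.2 (h2.imp fun h => (lt6_iff _ _).2 h)⟩

theorem PoP_pr : ∀ m : List (P × Fin 6), pr sA (m.map Sum.inl) = pr (sT rkP sP) m
  | [] => rfl
  | [_] => rfl
  | x :: y :: m => congrArg (sT rkP sP x y * ·) (PoP_pr (y :: m))

theorem zTot_inl (m : List (P × Fin 6)) : zTot (m.map Sum.inl) = fz (sT rkP sP) 3 m := by
  rw [zTot, fz, fz, List.length_map, PoP_pr]

/-- `ic_tor`, `IC.hm_closed`, `hm_map`. -/
theorem hm_Tot : HM 3 Tot ∅ ∅ zTot := by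
  have hi := ic_tor ic_P aut_P
  have h := (hm_map (f := (Sum.inl : P × Fin 6 → A)) (fun _ _ _ _ e => Sum.inl_injective e) hi.cx
    (empty_subset _) (fun l _ => zTot_inl l)).1 hi.hm_closed
  refine hm_ext (fun l => ?_) (fun l => by simp) h
  simp only [mem_Tot, mem_image, eq_comm]

theorem coc_tau : Coc Tot tau := by
  intro u v w h
  obtain ⟨m, hm, e⟩ := mem_Tot.1 h
  obtain ⟨u', m, rfl, rfl, e1⟩ := List.map_eq_cons_iff.1 e.symm
  obtain ⟨v', m, rfl, rfl, e2⟩ := List.map_eq_cons_iff.1 e1
  obtain ⟨w', m, rfl, rfl, e3⟩ := List.map_eq_cons_iff.1 e2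
  obtain rfl := List.map_eq_nil_iff.1 e3
  exact coc_tauT ic_P aut_P u' v' w' hm

end Pool.Agent.HT
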