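import Pool.Agent.Lib.MP_dae8ad_gt.H.PoQ0

/-! The intervals of the handlebody. -/

open Finset Classical

noncomputable section

namespace Pool.Agent.HT

variable {V V' : Type}

/-- A greedy search for a dismantling. -/
def PoQ_dis {Q : Type} [DecidableEq Q] (lb : Q → Q → Bool) : ℕ → List Q → Bool
  | 0, _ => false
  | n + 1, J => (J.any fun u => J.all fun x => decide (x = u) || lb x u || lb u x) ||
      (J.find? fun v => PoQ_dis lb n (J.filter fun x => lb x v) ||
        PoQ_dis lb n (J.filter fun x => lb v x)).any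
        fun v => PoQ_dis lb n (J.filter fun x => !decide (x = v))

theorem PoQ_sound {Q : Type} [DecidableEq Q] (lb : Q → Q → Bool) (n : ℕ) :
    ∀ J : List Q, PoQ_dis lb n J = true → Dis (fun x y => lb x y = true) {x | x ∈ J} := by
  induction n with
  | zero => intro J h; simp [PoQ_dis] at h
  | succ n ih =>
    intro J h
    simp only [PoQ_dis, Bool.or_eq_true, List.any_eq_true, List.all_eq_true, decide_eq_true_eq,
      Option.any_eq_true] at h
    obtain ⟨u, hu, h⟩ | ⟨v, hv, h⟩ := h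
    · exact .cone _ u hu fun x hx => or_assoc.1 (h x hx)
    · have h1 := dis_congr (ih _ h) (J' := {x | x ∈ J} \ {v}) fun x => by simp
      have h2 := List.find?_some hv
      obtain h2 | h2 := Bool.or_eq_true_iff.1 h2
      · exact .down _ v (List.mem_of_find?_eq_some hv) h1 (dis_congr (ih _ h2) fun x => by simp)
      · exact .up _ v (List.mem_of_find?_eq_some hv) h1 (dis_congr (ih _ h2) fun x => by simp)

/-- The search for spheres. -/
def PoQ_sph (J : List Hb) : Bool :=
  J.isEmpty || J.any fun v => PoQ_dis Hb.lt 40 (J.filter fun x => !decide (x = v))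

theorem PoQ_sphS {J : List Hb} {K : Set Hb} (h : PoQ_sph J = true) (e : ∀ x, x ∈ J ↔ x ∈ K) :
    Sph ltH K := by
  rintro ⟨x, hx⟩
  simp only [PoQ_sph, Bool.or_eq_true, List.isEmpty_iff, List.any_eq_true] at h
  obtain rfl | ⟨v, hv, h⟩ := h
  · simpa using (e x).2 hx
  · exact ⟨v, (e v).1 hv, dis_congr (PoQ_sound _ _ _ h) fun x => by simp [e]⟩

/-- All cells. -/
def PoQ_all : List Hb :=
  let F (n : ℕ) [NeZero n] (f : Fin n → Hb) := (List.range n).map fun i => f (Fin.ofNat n i)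
  [F 3 (.p <| .a false ·), F 3 (.p <| .a true ·), F 5 (.p <| .b false ·), F 5 (.p <| .b true ·),
    F 15 (.p <| .e false ·), F 15 (.p <| .e true ·), F 30 (.p <| .w ·), F 30 (.p <| .f ·),
    F 15 (.g · false), F 15 (.g · true), F 15 .eb, F 3 .va, F 5 .vb].flatten

theorem PoQ_mem : ∀ x, x ∈ PoQ_all := by decide +kernel

theorem PoQ_0 : (PoQ_all.all fun y => PoQ_sph (PoQ_all.filter fun u => u.lt y)) = true := by
  decide +kernel

theorem PoQ_1 : (PoQ_all.all fun x => (PoQ_all.filter x.lt).all fun y =>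
    PoQ_sph ((PoQ_all.filter x.lt).filter fun u => u.lt y)) = true := by
  decide +kernel

theorem PoQ_2 : (PoQ_all.all fun x => match x with
    | .p _ => PoQ_dis Hb.lt 40 (PoQ_all.filter x.lt)
    | _ => PoQ_sph (PoQ_all.filter x.lt)) = true := by
  decide +kernel

theorem H_s0 : ∀ y, Sph ltH (Iv ltH none (some y)) := fun y =>
  PoQ_sphS (List.all_eq_true.1 PoQ_0 y (PoQ_mem y)) fun u => by simp [Iv, ltH, PoQ_mem]

theorem H_s1 : ∀ x y, ltH x y → Sph ltH (Iv ltH (some x) (some y)) := fun x y h =>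
  PoQ_sphS (List.all_eq_true.1 (List.all_eq_true.1 PoQ_1 x (PoQ_mem x)) y
    (List.mem_filter.2 ⟨PoQ_mem y, h⟩)) fun u => by simp [Iv, ltH, PoQ_mem, and_comm]

theorem H_s2 : ∀ x, ¬isP x → Sph ltH (Iv ltH (some x) none) := fun x hx => by
  have h := List.all_eq_true.1 PoQ_2 x (PoQ_mem x)
  cases x with
  | p y => exact absurd ⟨y, rfl⟩ hx
  | _ => exact PoQ_sphS h fun u => by simp [Iv, ltH, PoQ_mem]

theorem H_ball : ∀ x, isP x → Dis ltH (Iv ltH (some x) none) := by
  rintro _ ⟨y, rfl⟩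
  exact dis_congr (PoQ_sound _ _ _ (List.all_eq_true.1 PoQ_2 _ (PoQ_mem (.p y))))
    fun u => by simp [Iv, ltH, PoQ_mem]

theorem ic_H : IC ltH rkH sH isP 3 where
  tr := H_ord.1
  rk_lt := H_ord.2.1
  rk_le := H_ord.2.2.1
  low := H_ord.2.2.2.1
  p0 := H_ord.2.2.2.2.1
  p1 := H_ord.2.2.2.2.2.1
  p2 := H_ord.2.2.2.2.2.2
  s0 := H_s0
  s1 := H_s1
  s2 := H_s2
  ball := H_ball
  unit := H_sgn.1
  c0 := by
    intro y hy
    refine Eq.trans (Finset.sum_congr ?_ fun _ _ => rfl) (H_sgn.2.1 y hy)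
    ext x; simp
  c1 := by
    intro x y hxy hy
    refine Eq.trans (Finset.sum_congr ?_ fun _ _ => rfl) (H_sgn.2.2.1 x y hxy hy)
    ext x; simp
  c2 := by
    intro x hx hy
    refine Eq.trans (Finset.sum_congr ?_ fun _ _ => rfl) (H_sgn.2.2.2 x hx hy)
    ext x; simp

end Pool.Agent.HT
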