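import Pool.Agent.Lib.MP_dae8ad_gt.H.PoP

/-! The handlebody bounded by `P`. -/

open Finset Classical

noncomputable section

namespace Pool.Agent.HT

variable {V V' : Type}

/-- Cells of the handlebody: those of `P`, bigons, edge blocks and vertex blocks. -/
inductive Hb where
  | p (x : P) : Hb
  | g (k : Fin 15) (t : Bool) : Hb
  | eb (k : Fin 15) : Hb
  | va (i : Fin 3) : Hb
  | vb (j : Fin 5) : Hb
  deriving DecidableEq, Fintype

/-- The odd position of the boundary walk on the edge `k`. -/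
def cp (k : Fin 15) : ℕ := 2 * ((k.1 + 5) % 15) + 1

def Hb.lt : Hb → Hb → Bool
  | .p x, .p y => x.lt y
  | .p (.a _ i), .g k t => !t && i.1 == k.1 % 3
  | .p (.b _ j), .g k t => t && j.1 == k.1 % 5
  | .p (.w c), .g k t =>
      if t then c.1 == cp k || c.1 == 2 * k.1 + 1 else c.1 == 2 * k.1 || c.1 == (cp k + 1) % 30
  | .p (.a _ i), .eb k => i.1 == k.1 % 3
  | .p (.b _ j), .eb k => j.1 == k.1 % 5
  | .p (.e _ k'), .eb k => k' == k
  | .p (.w c), .eb k =>
      c.1 == 2 * k.1 || c.1 == 2 * k.1 + 1 || c.1 == cp k || c.1 == (cp k + 1) % 30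
  | .p (.f c), .eb k => side c == k.1
  | .g k' _, .eb k => k' == k
  | .p (.a _ i'), .va i => i' == i
  | .p (.w c), .va i => c.1 % 2 == 0 && c.1 / 2 % 3 == i.1
  | .g k t, .va i => !t && k.1 % 3 == i.1
  | .p (.b _ j'), .vb j => j' == j
  | .p (.w c), .vb j => c.1 % 2 == 1 && c.1 / 2 % 5 == j.1
  | .g k t, .vb j => t && k.1 % 5 == j.1
  | _, _ => false

def ltH (x y : Hb) : Prop := x.lt y = true

instance : DecidableRel ltH := fun x y => inferInstanceAs (Decidable (x.lt y = true))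

def rkH : Hb → ℕ
  | .p x => rkP x
  | .g _ _ => 2
  | _ => 3

def sH : Hb → Hb → ℤ
  | .p x, .p y => sP x y
  | .p (.w c), .g k t => if t then (if c.1 = cp k then 1 else -1) else
      if c.1 = 2 * k.1 then 1 else -1
  | .p (.f _), .eb _ => 1
  | .g _ _, .eb _ => 1
  | .g _ _, .va _ => -1
  | .g _ _, .vb _ => -1
  | _, _ => 0

def isP (x : Hb) : Prop := ∃ y, x = .p y

/-- The monodromy of the handlebody. -/
def hH : Equiv.Perm Hb where
  toFun
    | .p x => .p (hP x)
    | .g k t => .g (k + 1) t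
    | .eb k => .eb (k + 1)
    | .va i => .va (i + 1)
    | .vb j => .vb (j + 1)
  invFun
    | .p x => .p (hP.symm x)
    | .g k t => .g (k - 1) t
    | .eb k => .eb (k - 1)
    | .va i => .va (i - 1)
    | .vb j => .vb (j - 1)
  left_inv x := by cases x <;> simp
  right_inv x := by cases x <;> simp

/-- The list of all cells. -/
def PoQ0_L : List Hb :=
  [.p (.a false 0), .p (.a false 1), .p (.a false 2), .p (.a true 0), .p (.a true 1),
    .p (.a true 2), .p (.b false 0), .p (.b false 1), .p (.b false 2), .p (.b false 3),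
    .p (.b false 4), .p (.b true 0), .p (.b true 1), .p (.b true 2), .p (.b true 3),
    .p (.b true 4), .p (.e false 0), .p (.e false 1), .p (.e false 2), .p (.e false 3),
    .p (.e false 4), .p (.e false 5), .p (.e false 6), .p (.e false 7), .p (.e false 8),
    .p (.e false 9), .p (.e false 10), .p (.e false 11), .p (.e false 12), .p (.e false 13),
    .p (.e false 14), .p (.e true 0), .p (.e true 1), .p (.e true 2), .p (.e true 3),
    .p (.e true 4), .p (.e true 5), .p (.e true 6), .p (.e true 7), .p (.e true 8),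
    .p (.e true 9), .p (.e true 10), .p (.e true 11), .p (.e true 12), .p (.e true 13),
    .p (.e true 14), .p (.w 0), .p (.w 1), .p (.w 2), .p (.w 3), .p (.w 4), .p (.w 5), .p (.w 6),
    .p (.w 7), .p (.w 8), .p (.w 9), .p (.w 10), .p (.w 11), .p (.w 12), .p (.w 13), .p (.w 14),
    .p (.w 15), .p (.w 16), .p (.w 17), .p (.w 18), .p (.w 19), .p (.w 20), .p (.w 21),
    .p (.w 22), .p (.w 23), .p (.w 24), .p (.w 25), .p (.w 26), .p (.w 27), .p (.w 28),
    .p (.w 29), .p (.f 0), .p (.f 1), .p (.f 2), .p (.f 3), .p (.f 4), .p (.f 5), .p (.f 6),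
    .p (.f 7), .p (.f 8), .p (.f 9), .p (.f 10), .p (.f 11), .p (.f 12), .p (.f 13), .p (.f 14),
    .p (.f 15), .p (.f 16), .p (.f 17), .p (.f 18), .p (.f 19), .p (.f 20), .p (.f 21),
    .p (.f 22), .p (.f 23), .p (.f 24), .p (.f 25), .p (.f 26), .p (.f 27), .p (.f 28),
    .p (.f 29), .g 0 false, .g 1 false, .g 2 false, .g 3 false, .g 4 false, .g 5 false,
    .g 6 false, .g 7 false, .g 8 false, .g 9 false, .g 10 false, .g 11 false, .g 12 false,
    .g 13 false, .g 14 false, .g 0 true, .g 1 true, .g 2 true, .g 3 true, .g 4 true, .g 5 true,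
    .g 6 true, .g 7 true, .g 8 true, .g 9 true, .g 10 true, .g 11 true, .g 12 true, .g 13 true,
    .g 14 true, .eb 0, .eb 1, .eb 2, .eb 3, .eb 4, .eb 5, .eb 6, .eb 7, .eb 8, .eb 9, .eb 10,
    .eb 11, .eb 12, .eb 13, .eb 14, .va 0, .va 1, .va 2, .vb 0, .vb 1, .vb 2, .vb 3, .vb 4]

theorem PoQ0_mem (x : Hb) : x ∈ PoQ0_L := by
  revert x
  decide +kernel

theorem PoQ0_nodup : PoQ0_L.Nodup := by
  decide +kernel

/-- Boolean form of `isP`. -/
def PoQ0_isP : Hb → Bool
  | .p _ => true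
  | _ => false

theorem PoQ0_isP_iff (x : Hb) : isP x ↔ PoQ0_isP x = true := by
  cases x <;> simp [isP, PoQ0_isP]

theorem PoQ0_all {p : Hb → Bool} (h : PoQ0_L.all p = true) (x : Hb) : p x = true :=
  List.all_eq_true.1 h x (PoQ0_mem x)

theorem PoQ0_sum (p : Hb → Prop) [DecidablePred p] (q : Hb → Bool) (h : ∀ x, p x ↔ q x = true)
    (f : Hb → ℤ) :
    ∑ x ∈ univ.filter p, f x = (PoQ0_L.map fun x => bif q x then f x else 0).sum := by
  have e : (univ : Finset Hb) = PoQ0_L.toFinset := by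
    ext x
    simp [PoQ0_mem]
  rw [sum_filter, e, List.sum_toFinset _ PoQ0_nodup]
  refine congrArg List.sum (List.map_congr_left fun x _ => ?_)
  by_cases hx : p x
  · rw [if_pos hx, (h x).1 hx]
    rfl
  · have h1 : q x = false := by
      rw [← Bool.not_eq_true, ← h x]
      exact hx
    rw [if_neg hx, h1]
    rfl

theorem PoQ0_aut : (PoQ0_L.all fun x => PoQ0_L.all fun y =>
    (hH x).lt (hH y) == x.lt y && sH (hH x) (hH y) == sH x y) = true := by
  decide +kernel

theorem aut_H : Aut ltH rkH sH isP hH := by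
  refine ⟨fun x y => ?_, fun x => ?_, fun x y => ?_, fun x => ?_⟩
  · have h := (Bool.and_eq_true_iff.1 (PoQ0_all (PoQ0_all PoQ0_aut x) y)).1
    unfold ltH
    rw [eq_of_beq h]
  · rcases x with x | _ | _ | _ | _
    · cases x <;> rfl
    all_goals rfl
  · exact eq_of_beq (Bool.and_eq_true_iff.1 (PoQ0_all (PoQ0_all PoQ0_aut x) y)).2
  · rw [PoQ0_isP_iff, PoQ0_isP_iff]
    cases x <;> rfl

/-- The cells above `x`. -/
def PoQ0_up (x : Hb) : List Hb := PoQ0_L.filter fun u => x.lt u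

theorem PoQ0_mem_up {x u : Hb} : u ∈ PoQ0_up x ↔ ltH x u := by
  simp [PoQ0_up, PoQ0_mem, ltH]

theorem PoQ0_sum_filter (p q : Hb → Bool) (f : Hb → ℤ) (l : List Hb) :
    (l.map fun u => bif p u && q u then f u else 0).sum
      = ((l.filter p).map fun u => bif q u then f u else 0).sum := by
  induction l with
  | nil => rfl
  | cons a l ih =>
    rw [List.map_cons, List.sum_cons, ih, List.filter_cons]
    cases h : p a <;> simp

theorem PoQ0_chk : (PoQ0_L.all fun x => (decide (rkH x ≤ 3) &&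
    (!decide (0 < rkH x) || PoQ0_L.any fun u => u.lt x) &&
    (!decide (rkH x < 3) || (PoQ0_up x).any fun _ => true) &&
    (!decide (rkH x = 1) || (PoQ0_L.map fun u => bif u.lt x then sH u x else 0).sum == 0) &&
    (PoQ0_isP x || !decide (rkH x + 1 = 3) ||
      (PoQ0_L.map fun u => bif x.lt u then sH x u else 0).sum == 0)) &&
    (PoQ0_up x).all fun y => decide (rkH x < rkH y) && (!PoQ0_isP y || PoQ0_isP x) &&
      (!decide (rkH y = rkH x + 1) || sH x y == 1 || sH x y == -1) &&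
      (!decide (rkH x + 1 < rkH y) || (PoQ0_up x).any fun u => u.lt y) &&
      ((PoQ0_up y).all fun w => x.lt w) &&
      (!decide (rkH y = rkH x + 2) ||
        ((PoQ0_up x).map fun u => bif u.lt y then sH x u * sH u y else 0).sum == 0)) = true := by
  decide +kernel

theorem PoQ0_two {x y : Hb} (h : ltH x y) : rkH x < rkH y ∧ (isP y → isP x) ∧
    (rkH y = rkH x + 1 → sH x y = 1 ∨ sH x y = -1) ∧
    (rkH x + 1 < rkH y → ∃ u, ltH x u ∧ ltH u y) ∧ (∀ w, ltH y w → ltH x w) ∧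
    (rkH y = rkH x + 2 →
      ((PoQ0_up x).map fun u => bif u.lt y then sH x u * sH u y else 0).sum = 0) := by
  have h1 := List.all_eq_true.1 (Bool.and_eq_true_iff.1 (PoQ0_all PoQ0_chk x)).2 y
    (PoQ0_mem_up.2 h)
  simp only [Bool.and_eq_true, Bool.or_eq_true,
    Bool.not_eq_true', decide_eq_true_eq, decide_eq_false_iff_not, beq_iff_eq,
    List.any_eq_true, List.all_eq_true] at h1
  obtain ⟨⟨⟨⟨⟨a, b⟩, c⟩, d⟩, e⟩, f⟩ := h1
  refine ⟨a, fun hy => ?_, fun hy => ?_, fun hy => ?_, fun w hw => e w (PoQ0_mem_up.2 hw),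
    fun hy => f.resolve_left (not_not.2 hy)⟩
  · rw [PoQ0_isP_iff] at hy ⊢
    rcases b with b | b
    · rw [hy] at b
      exact absurd b (by decide)
    · exact b
  · rcases c with (c | c) | c
    · exact absurd hy c
    · exact Or.inl c
    · exact Or.inr c
  · rcases d with d | ⟨u, hu, d⟩
    · exact absurd hy d
    · exact ⟨u, PoQ0_mem_up.1 hu, d⟩

theorem PoQ0_one (x : Hb) : rkH x ≤ 3 ∧ (0 < rkH x → ∃ u, ltH u x) ∧
    (rkH x < 3 → ∃ u, ltH x u) ∧
    (rkH x = 1 → (PoQ0_L.map fun u => bif u.lt x then sH u x else 0).sum = 0) ∧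
    (¬isP x → rkH x + 1 = 3 →
      (PoQ0_L.map fun u => bif x.lt u then sH x u else 0).sum = 0) := by
  have h1 := (Bool.and_eq_true_iff.1 (PoQ0_all PoQ0_chk x)).1
  simp only [Bool.and_eq_true, Bool.or_eq_true, Bool.not_eq_true', decide_eq_true_eq,
    decide_eq_false_iff_not, beq_iff_eq, List.any_eq_true] at h1
  obtain ⟨⟨⟨⟨a, b⟩, c⟩, d⟩, e⟩ := h1
  refine ⟨a, fun hy => ?_, fun hy => ?_, fun hy => ?_, fun hy hz => ?_⟩
  · rcases b with b | ⟨u, -, b⟩
    · exact absurd hy b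
    · exact ⟨u, b⟩
  · rcases c with c | ⟨u, hu, -⟩
    · exact absurd hy c
    · exact ⟨u, PoQ0_mem_up.1 hu⟩
  · exact d.resolve_left (not_not.2 hy)
  · rcases e with (e | e) | e
    · exact absurd ((PoQ0_isP_iff x).2 e) hy
    · exact absurd hz e
    · exact e

/-- All fields without `Dis`: `decide`, split into several lemmas (159 cells). -/
theorem H_ord : (∀ x y w, ltH x y → ltH y w → ltH x w) ∧ (∀ x y, ltH x y → rkH x < rkH y) ∧
    (∀ x, rkH x ≤ 3) ∧ (∀ x y, ltH x y → isP y → isP x) ∧ (∀ y, 0 < rkH y → ∃ x, ltH x y) ∧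
    (∀ x y, ltH x y → rkH x + 1 < rkH y → ∃ u, ltH x u ∧ ltH u y) ∧
    ∀ x, rkH x < 3 → ∃ y, ltH x y := by
  exact ⟨fun x y w hxy hyw => (PoQ0_two hxy).2.2.2.2.1 w hyw, fun x y h => (PoQ0_two h).1,
    fun x => (PoQ0_one x).1, fun x y h => (PoQ0_two h).2.1, fun y => (PoQ0_one y).2.1,
    fun x y h => (PoQ0_two h).2.2.2.1, fun x => (PoQ0_one x).2.2.1⟩

theorem H_sgn : (∀ x y, ltH x y → rkH y = rkH x + 1 → sH x y = 1 ∨ sH x y = -1) ∧
    (∀ y, rkH y = 1 → ∑ x ∈ univ.filter (fun x => ltH x y), sH x y = 0) ∧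
    (∀ x y, ltH x y → rkH y = rkH x + 2 →
      ∑ u ∈ univ.filter (fun u => ltH x u ∧ ltH u y), sH x u * sH u y = 0) ∧
    ∀ x, ¬isP x → rkH x + 1 = 3 → ∑ y ∈ univ.filter (fun y => ltH x y), sH x y = 0 := by
  refine ⟨fun x y h => (PoQ0_two h).2.2.1, fun y hy => ?_, fun x y hxy hy => ?_,
    fun x hx hy => ?_⟩
  · exact (PoQ0_sum (fun u => ltH u y) (fun u => u.lt y) (fun _ => Iff.rfl) _).trans
      ((PoQ0_one y).2.2.2.1 hy)
  · exact (PoQ0_sum (fun u => ltH x u ∧ ltH u y) (fun u => x.lt u && u.lt y)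
      (fun _ => Bool.and_eq_true_iff.symm) _).trans
      ((PoQ0_sum_filter _ _ _ _).trans ((PoQ0_two hxy).2.2.2.2.2 hy))
  · exact (PoQ0_sum (fun u => ltH x u) (fun u => x.lt u) (fun _ => Iff.rfl) _).trans
      ((PoQ0_one x).2.2.2.2 hx hy)

end Pool.Agent.HT
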