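import Pool.Agent.Lib.MP_dae8ad_gt.H.PoTor0

/-! The mapping torus of a face poset: intervals. -/

open Finset Classical

noncomputable section

namespace Pool.Agent.HT

variable {V V' : Type}

variable {Q : Type} [Fintype Q] {lt : Q → Q → Prop} {rk : Q → ℕ} {s : Q → Q → ℤ} {b : Q → Prop}
  {n : ℕ} {θ : Equiv.Perm Q}

omit [Fintype Q] in
theorem PoTor_same (x y : Q) (r : Fin 6) : ltT lt θ (x, r) (y, r) ↔ lt x y := by
  rw [ltT_iff]
  exact ⟨fun h => h.elim And.right fun e => absurd rfl (ed_par _ _ e.1).2.2,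
    fun h => Or.inl ⟨rfl, h⟩⟩

omit [Fintype Q] in
theorem PoTor_ed {r r' : Fin 6} (e : Ed r r') (x y : Q) :
    ltT lt θ (x, r) (y, r') ↔ th θ r r' x = y ∨ lt (th θ r r' x) y := by
  rw [ltT_iff]
  exact ⟨fun h => h.elim (fun h => absurd h.1 (ed_par _ _ e).2.2) And.right,
    fun h => Or.inr ⟨e, h⟩⟩

omit [Fintype Q] in
theorem PoTor_lev {x y : Q} {r r' : Fin 6} (h : ltT lt θ (x, r) (y, r')) : r = r' ∨ Ed r r' :=
  ((ltT_iff lt θ x y r r').1 h).imp And.left And.left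

theorem PoTor_not {r r' r'' : Fin 6} (e : Ed r r') : ¬Ed r' r'' := fun e' => by
  have := (ed_par _ _ e).2.1
  have := (ed_par _ _ e').1
  omega

omit [Fintype Q] in
theorem PoTor_dis (r : Fin 6) {J : Set Q} {J' : Set (Q × Fin 6)} (h : Dis lt J)
    (e : ∀ x t, (x, t) ∈ J' ↔ t = r ∧ x ∈ J) : Dis (ltT lt θ) J' :=
  dis_congr (dis_map (fun x => (x, r)) (fun _ _ h => congrArg Prod.fst h)
    (fun x y => PoTor_same x y r) h) fun ⟨x, t⟩ => by simp [e, and_comm, eq_comm]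

omit [Fintype Q] in
theorem PoTor_sph (r : Fin 6) {J : Set Q} {J' : Set (Q × Fin 6)} (h : Sph lt J)
    (e : ∀ x t, (x, t) ∈ J' ↔ t = r ∧ x ∈ J) : Sph (ltT lt θ) J' := by
  rintro ⟨⟨x, t⟩, hx⟩
  obtain ⟨v, hv, h1⟩ := h ⟨x, ((e x t).1 hx).2⟩
  refine ⟨(v, r), (e v r).2 ⟨rfl, hv⟩, PoTor_dis r h1 fun y t => ?_⟩
  simp only [Set.mem_sdiff, e, Set.mem_singleton_iff, Prod.mk.injEq]
  tauto

omit [Fintype Q] in
/-- A set in the level `r` with a largest element. -/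
theorem PoTor_top (a : Aut lt rk s b θ) {r r' : Fin 6} (e : Ed r r') {J : Set (Q × Fin 6)} (y : Q)
    (h1 : ((th θ r r').symm y, r) ∈ J) (h2 : ∀ x t, (x, t) ∈ J → t = r ∧ ltT lt θ (x, t) (y, r')) :
    Dis (ltT lt θ) J := by
  refine Dis.cone J _ h1 ?_
  rintro ⟨x, t⟩ hx
  obtain ⟨rfl, h3⟩ := h2 x t hx
  rcases (PoTor_ed e x y).1 h3 with rfl | h3
  · exact Or.inl (by rw [Equiv.symm_apply_apply])
  · refine Or.inr (Or.inl ((PoTor_same _ _ _).2 (((a.th t r').lt _ _).1 ?_)))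
    rwa [Equiv.apply_symm_apply]

omit [Fintype Q] in
/-- A set in the level `r'` with a smallest element. -/
theorem PoTor_bot {r r' : Fin 6} (e : Ed r r') {J : Set (Q × Fin 6)} (x : Q)
    (h1 : (th θ r r' x, r') ∈ J) (h2 : ∀ y t, (y, t) ∈ J → t = r' ∧ ltT lt θ (x, r) (y, t)) :
    Dis (ltT lt θ) J := by
  refine Dis.cone J _ h1 ?_
  rintro ⟨y, t⟩ hy
  obtain ⟨rfl, h3⟩ := h2 y t hy
  rcases (PoTor_ed e x y).1 h3 with rfl | h3
  · exact Or.inl rfl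
  · exact Or.inr (Or.inr ((PoTor_same _ _ _).2 h3))

omit [Fintype Q] in
theorem PoTor_symm {r r' : Fin 6} (e : Ed r r') (y : Q) :
    ltT lt θ ((th θ r r').symm y, r) (y, r') :=
  (PoTor_ed e _ _).2 (Or.inl (Equiv.apply_symm_apply _ _))

/-- Sketch. `y = (y, r)` low: the interval is a copy of that of `Q` (`dis_map`). High, with low
neighbours `r₁`, `r₂`: remove `v = (th⁻¹ y, r₁)`; then remove the set at level `r₁` by
`dis_up_set` (the upper link of `(u, r₁)` has the cone point `(th u, r)`), then the set at level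
`r` by `dis_down_set` (the lower link of `(u, r)` has the cone point `(th⁻¹ u, r₂)`); the rest
has the cone point `(th⁻¹ y, r₂)`. -/
theorem tor_s0 (h : IC lt rk s b n) (a : Aut lt rk s b θ) :
    ∀ y, Sph (ltT lt θ) (Iv (ltT lt θ) none (some y)) := by
  rintro ⟨y, r⟩
  have hJ : ∀ p, p ∈ Iv (ltT lt θ) none (some (y, r)) ↔ ltT lt θ p (y, r) := by simp [Iv]
  rcases Nat.mod_two_eq_zero_or_one r.1 with hr | hr
  · refine PoTor_sph r (h.s0 y) fun x t => ?_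
    rw [hJ]
    refine ⟨fun h1 => ?_, fun h1 => ?_⟩
    · rcases PoTor_lev h1 with rfl | e
      · exact ⟨rfl, by simpa [Iv] using (PoTor_same _ _ _).1 h1⟩
      · have := (ed_par _ _ e).2.1
        omega
    · rw [h1.1, PoTor_same]
      simpa [Iv] using h1.2
  obtain ⟨r₁, r₂, hne, hd, -⟩ := ed_down r hr
  have e₁ := (hd r₁).2 (Or.inl rfl)
  have e₂ := (hd r₂).2 (Or.inr rfl)
  have tr := tor_tr h a
  refine fun _ => ⟨((th θ r₁ r).symm y, r₁), (hJ _).2 (PoTor_symm e₁ y), ?_⟩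
  set J := Iv (ltT lt θ) none (some (y, r)) \ {((th θ r₁ r).symm y, r₁)}
  refine dis_up_set (rkT rk) (tor_rk h a).1 (K := {p ∈ J | p.2 = r₁}) (Set.toFinite _)
    (Set.sep_subset _ _) ?_ ?_
  · rintro ⟨u, t⟩ ⟨⟨h1, h2⟩, rfl : t = r₁⟩
    have h3 : lt (th θ t r u) y := ((PoTor_ed e₁ _ _).1 ((hJ _).1 h1)).resolve_left fun e =>
      h2 (by rw [← e, Equiv.symm_apply_apply]; rfl)
    refine PoTor_bot e₁ u ⟨⟨⟨(hJ _).2 ((PoTor_same _ _ _).2 h3),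
      fun e => (ed_par _ _ e₁).2.2 (congrArg Prod.snd e).symm⟩,
      fun e => (ed_par _ _ e₁).2.2 e.2.symm⟩, (PoTor_ed e₁ _ _).2 (Or.inl rfl)⟩ ?_
    rintro w t' ⟨⟨h4, h5⟩, h6⟩
    refine ⟨?_, h6⟩
    rcases PoTor_lev h6 with e | e
    · exact absurd ⟨h4, e.symm⟩ h5
    · exact (PoTor_lev ((hJ _).1 h4.1)).resolve_right (PoTor_not e)
  set J' := J \ {p ∈ J | p.2 = r₁}
  have hm : ∀ w, ltT lt θ (w, r₂) (y, r) → (w, r₂) ∈ J' \ {p ∈ J' | p.2 = r} := fun w hw =>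
    ⟨⟨⟨(hJ _).2 hw, fun e => hne (congrArg Prod.snd e).symm⟩, fun e => hne e.2.symm⟩,
      fun e => (ed_par _ _ e₂).2.2 e.2⟩
  have hl : ∀ w t, (w, t) ∈ J' \ {p ∈ J' | p.2 = r} → t = r₂ := by
    rintro w t ⟨h1, h2⟩
    rcases PoTor_lev ((hJ _).1 h1.1.1) with e | e
    · exact absurd ⟨h1, e⟩ h2
    · exact ((hd t).1 e).resolve_left fun e => h1.2 ⟨h1.1, e⟩
  refine dis_down_set (rkT rk) (tor_rk h a).1 (K := {p ∈ J' | p.2 = r}) (Set.toFinite _)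
    (Set.sep_subset _ _) ?_ ?_
  · rintro ⟨u, t⟩ ⟨h1, rfl : t = r⟩
    exact PoTor_top a e₂ u ⟨hm _ (tr _ _ _ (PoTor_symm e₂ u) ((hJ _).1 h1.1.1)), PoTor_symm e₂ u⟩
      fun w t' hw => ⟨hl w t' hw.1, hw.2⟩
  · exact PoTor_top a e₂ y (hm _ (PoTor_symm e₂ y))
      fun w t' hw => ⟨hl w t' hw, (hJ _).1 hw.1.1.1⟩

/-- Sketch. Equal levels: a copy of the interval of `Q`. Otherwise `x = (x, r)`, `y = (y, r')`,
`Ed r r'`; if `th x = y` the interval is empty; if not remove `v = (th x, r')`, then the set at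
level `r'` by `dis_down_set` (cone point `(th⁻¹ u, r)`); the rest has the cone point
`(th⁻¹ y, r)`. -/
theorem tor_s1 (h : IC lt rk s b n) (a : Aut lt rk s b θ) :
    ∀ x y, ltT lt θ x y → Sph (ltT lt θ) (Iv (ltT lt θ) (some x) (some y)) := by
  rintro ⟨x, r⟩ ⟨y, r'⟩ hxy
  have hJ : ∀ p, p ∈ Iv (ltT lt θ) (some (x, r)) (some (y, r')) ↔
      ltT lt θ (x, r) p ∧ ltT lt θ p (y, r') := by simp [Iv]
  rcases PoTor_lev hxy with rfl | e
  · refine PoTor_sph r (h.s1 x y ((PoTor_same _ _ _).1 hxy)) fun u t => ?_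
    rw [hJ]
    refine ⟨fun h1 => ?_, fun h1 => ?_⟩
    · obtain rfl : r = t := by
        rcases PoTor_lev h1.1 with e | e
        · exact e
        · exact ((PoTor_lev h1.2).resolve_right (PoTor_not e)).symm
      exact ⟨rfl, by simpa [Iv, PoTor_same] using h1⟩
    · rw [h1.1, PoTor_same, PoTor_same]
      simpa [Iv] using h1.2
  have tr := tor_tr h a
  have hne := (ed_par _ _ e).2.2
  rintro ⟨p, hp⟩
  have h0 : lt (th θ r r' x) y := by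
    refine ((PoTor_ed e _ _).1 hxy).resolve_left ?_
    rintro rfl
    have h1 := (tor_rk h a).1 _ _ ((hJ p).1 hp).1
    have h2 := (tor_rk h a).1 _ _ ((hJ p).1 hp).2
    have h3 := ed_par _ _ e
    simp only [rkT, (a.th r r').rk] at h1 h2
    omega
  refine ⟨(th θ r r' x, r'), (hJ _).2 ⟨(PoTor_ed e _ _).2 (Or.inl rfl), (PoTor_same _ _ _).2 h0⟩,
    ?_⟩
  set J := Iv (ltT lt θ) (some (x, r)) (some (y, r')) \ {(th θ r r' x, r')}
  have hm : ∀ w, lt (th θ r r' x) w → ltT lt θ ((th θ r r').symm w, r) (y, r') →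
      ((th θ r r').symm w, r) ∈ J \ {p ∈ J | p.2 = r'} := fun w h1 h2 =>
    ⟨⟨(hJ _).2 ⟨(PoTor_same _ _ _).2 (((a.th r r').lt _ _).1 (by rwa [Equiv.apply_symm_apply])),
      h2⟩, fun e => hne (congrArg Prod.snd e)⟩, fun e => hne e.2⟩
  have hl : ∀ w t, (w, t) ∈ J \ {p ∈ J | p.2 = r'} → t = r := by
    rintro w t ⟨h1, h2⟩
    rcases PoTor_lev ((hJ _).1 h1.1).1 with e | e
    · exact e.symm
    · exact absurd ⟨h1, (PoTor_lev ((hJ _).1 h1.1).2).resolve_right (PoTor_not e)⟩ h2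
  refine dis_down_set (rkT rk) (tor_rk h a).1 (K := {p ∈ J | p.2 = r'}) (Set.toFinite _)
    (Set.sep_subset _ _) ?_ ?_
  · rintro ⟨u, t⟩ ⟨⟨h1, h2⟩, rfl : t = r'⟩
    have h3 : lt (th θ r t x) u := ((PoTor_ed e _ _).1 ((hJ _).1 h1).1).resolve_left fun e =>
      h2 (by rw [← e]; rfl)
    exact PoTor_top a e u ⟨hm u h3 (tr _ _ _ (PoTor_symm e u) ((hJ _).1 h1).2), PoTor_symm e u⟩
      fun w t' hw => ⟨hl w t' hw.1, hw.2⟩
  · exact PoTor_top a e y (hm y h0 (PoTor_symm e y))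
      fun w t' hw => ⟨hl w t' hw, ((hJ _).1 hw.1.1).2⟩

/-- The mirror image of `tor_s0`: for a low `x` with high neighbours `r₁`, `r₂` the interval above
`x` without `(th x, r₁)` is dismantlable. -/
theorem tor_up (h : IC lt rk s b n) (a : Aut lt rk s b θ) (x : Q) {r r₁ : Fin 6} (e : Ed r r₁) :
    Dis (ltT lt θ) (Iv (ltT lt θ) (some (x, r)) none \ {(th θ r r₁ x, r₁)}) := by
  have hJ : ∀ p, p ∈ Iv (ltT lt θ) (some (x, r)) none ↔ ltT lt θ (x, r) p := by simp [Iv]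
  obtain ⟨r₂, hne, hd⟩ : ∃ r₂, r₁ ≠ r₂ ∧ ∀ r', Ed r r' ↔ r' = r₁ ∨ r' = r₂ := by
    obtain ⟨t₁, t₂, h1, h2, -⟩ := ed_up r (ed_par _ _ e).1
    rcases (h2 r₁).1 e with rfl | rfl
    · exact ⟨t₂, h1, h2⟩
    · exact ⟨t₁, h1.symm, fun r' => (h2 r').trans or_comm⟩
  have e₂ := (hd r₂).2 (Or.inr rfl)
  have tr := tor_tr h a
  set J := Iv (ltT lt θ) (some (x, r)) none \ {(th θ r r₁ x, r₁)}
  refine dis_down_set (rkT rk) (tor_rk h a).1 (K := {p ∈ J | p.2 = r₁}) (Set.toFinite _)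
    (Set.sep_subset _ _) ?_ ?_
  · rintro ⟨u, t⟩ ⟨⟨h1, h2⟩, rfl : t = r₁⟩
    have h3 : lt (th θ r t x) u := ((PoTor_ed e _ _).1 ((hJ _).1 h1)).resolve_left fun e =>
      h2 (by rw [← e]; rfl)
    refine PoTor_top a e u ⟨⟨⟨(hJ _).2 ((PoTor_same _ _ _).2 (((a.th r t).lt _ _).1
      (by rwa [Equiv.apply_symm_apply]))), fun e' => (ed_par _ _ e).2.2 (congrArg Prod.snd e')⟩,
      fun e' => (ed_par _ _ e).2.2 e'.2⟩, PoTor_symm e u⟩ ?_
    rintro w t' ⟨⟨h4, h5⟩, h6⟩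
    refine ⟨?_, h6⟩
    rcases PoTor_lev h6 with e' | e'
    · exact absurd ⟨h4, e'⟩ h5
    · exact ((PoTor_lev ((hJ _).1 h4.1)).resolve_right fun e'' => PoTor_not e'' e').symm
  set J' := J \ {p ∈ J | p.2 = r₁}
  have hm : ∀ w, ltT lt θ (x, r) (w, r₂) → (w, r₂) ∈ J' \ {p ∈ J' | p.2 = r} := fun w hw =>
    ⟨⟨⟨(hJ _).2 hw, fun e => hne (congrArg Prod.snd e).symm⟩, fun e => hne e.2.symm⟩,
      fun e => (ed_par _ _ e₂).2.2 e.2.symm⟩
  have hl : ∀ w t, (w, t) ∈ J' \ {p ∈ J' | p.2 = r} → t = r₂ := by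
    rintro w t ⟨h1, h2⟩
    rcases PoTor_lev ((hJ _).1 h1.1.1) with e | e
    · exact absurd ⟨h1, e.symm⟩ h2
    · exact ((hd t).1 e).resolve_left fun e => h1.2 ⟨h1.1, e⟩
  have h0 : ∀ u, ltT lt θ (u, r) (th θ r r₂ u, r₂) := fun u => (PoTor_ed e₂ _ _).2 (Or.inl rfl)
  refine dis_up_set (rkT rk) (tor_rk h a).1 (K := {p ∈ J' | p.2 = r}) (Set.toFinite _)
    (Set.sep_subset _ _) ?_ ?_
  · rintro ⟨u, t⟩ ⟨h1, rfl : t = r⟩
    exact PoTor_bot e₂ u ⟨hm _ (tr _ _ _ ((hJ _).1 h1.1.1) (h0 u)), h0 u⟩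
      fun w t' hw => ⟨hl w t' hw.1, hw.2⟩
  · exact PoTor_bot e₂ x (hm _ (h0 x)) fun w t' hw => ⟨hl w t' hw, (hJ _).1 hw.1.1.1⟩

omit [Fintype Q] in
theorem PoTor_high {r : Fin 6} (hr : r.1 % 2 = 1) (x u : Q) (t : Fin 6) :
    ltT lt θ (x, r) (u, t) ↔ t = r ∧ u ∈ Iv lt (some x) none := by
  refine ⟨fun h1 => ?_, fun h1 => ?_⟩
  · rcases PoTor_lev h1 with rfl | e
    · exact ⟨rfl, by simpa [Iv] using (PoTor_same _ _ _).1 h1⟩
    · have := (ed_par _ _ e).1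
      omega
  · rw [h1.1, PoTor_same]
    simpa [Iv] using h1.2

theorem tor_s2 (h : IC lt rk s b n) (a : Aut lt rk s b θ) :
    ∀ x : Q × Fin 6, ¬b x.1 → Sph (ltT lt θ) (Iv (ltT lt θ) (some x) none) := by
  rintro ⟨x, r⟩ hx
  have hJ : ∀ p, p ∈ Iv (ltT lt θ) (some (x, r)) none ↔ ltT lt θ (x, r) p := by simp [Iv]
  rcases Nat.mod_two_eq_zero_or_one r.1 with hr | hr
  · obtain ⟨r₁, r₂, -, hd, -⟩ := ed_up r hr
    have e := (hd r₁).2 (Or.inl rfl)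
    exact fun _ => ⟨_, (hJ _).2 ((PoTor_ed e _ _).2 (Or.inl rfl)), tor_up h a x e⟩
  · exact PoTor_sph r (h.s2 x hx) fun u t => (hJ _).trans (PoTor_high hr x u t)

/-- For a low `x` use `Dis.up` with `tor_up`; the upper link is a copy of a ball of `Q`. -/
theorem tor_ball (h : IC lt rk s b n) (a : Aut lt rk s b θ) :
    ∀ x : Q × Fin 6, b x.1 → Dis (ltT lt θ) (Iv (ltT lt θ) (some x) none) := by
  rintro ⟨x, r⟩ hx
  have hJ : ∀ p, p ∈ Iv (ltT lt θ) (some (x, r)) none ↔ ltT lt θ (x, r) p := by simp [Iv]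
  rcases Nat.mod_two_eq_zero_or_one r.1 with hr | hr
  · obtain ⟨r₁, r₂, -, hd, -⟩ := ed_up r hr
    have e := (hd r₁).2 (Or.inl rfl)
    have h0 : ltT lt θ (x, r) (th θ r r₁ x, r₁) := (PoTor_ed e _ _).2 (Or.inl rfl)
    refine Dis.up _ _ ((hJ _).2 h0) (tor_up h a x e)
      (PoTor_dis r₁ (h.ball _ (((a.th r r₁).b x).2 hx)) fun u t => ?_)
    rw [← PoTor_high (θ := θ) (ed_par _ _ e).2.1]
    exact ⟨And.right, fun h1 => ⟨(hJ _).2 (tor_tr h a _ _ _ h0 h1), h1⟩⟩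
  · exact PoTor_dis r (h.ball x hx) fun u t => (hJ _).trans (PoTor_high hr x u t)

theorem ic_tor (h : IC lt rk s b n) (a : Aut lt rk s b θ) :
    IC (ltT lt θ) (rkT rk) (sT rk s) (fun u => b u.1) (n + 1) where
  tr := tor_tr h a
  rk_lt := (tor_rk h a).1
  rk_le := (tor_rk h a).2.1
  low := (tor_rk h a).2.2
  p0 := (tor_pure h a).1
  p1 := (tor_pure h a).2.1
  p2 := (tor_pure h a).2.2
  s0 := tor_s0 h a
  s1 := tor_s1 h a
  s2 := tor_s2 h a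
  ball := tor_ball h a
  unit := tor_unit h a
  c0 := by
    intro y hy
    refine Eq.trans (Finset.sum_congr ?_ fun _ _ => rfl) (tor_c0 h a y hy)
    ext x; simp
  c1 := by
    intro x y hxy hy
    refine Eq.trans (Finset.sum_congr ?_ fun _ _ => rfl) (tor_c1 h a x y hxy hy)
    ext x; simp
  c2 := by
    intro x hx hy
    refine Eq.trans (Finset.sum_congr ?_ fun _ _ => rfl) (tor_c2 h a x hx hy)
    ext x; simp

end Pool.Agent.HT
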