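import Pool.Agent.Lib.MP_dae8ad_gt.H.LocMV
import Pool.Agent.Lib.MP_dae8ad_gt.H.Ses

/-! Disjoint unions, change of sign, dropping boundary components. -/

open Finset Classical

noncomputable section

namespace Pool.Agent.HT

variable {V V' : Type}

/-- Transport of a homology manifold with singular set. -/
theorem hm_mapB {n : ℕ} {X B : Finset (List V)} {Bad : Set V} {z : List V → ℤ} {f : V → V'}
    (h : HM n X B Bad z) (hy : Cy X B Bad z) (hf : InjV X f) {Bad' : Set V'}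
    (hb : ∀ v, [v] ∈ X → f v ∉ Bad' → v ∉ Bad) {z' : List V' → ℤ}
    (hz : ∀ l ∈ X, z' (l.map f) = z l) :
    HM n (X.image (List.map f)) (B.image (List.map f)) Bad' z' ∧
      Cy (X.image (List.map f)) (B.image (List.map f)) Bad' z' := by
  obtain ⟨hX, cB, hB, h1, h2⟩ := h
  have good : ∀ σ ∈ X, ∀ v ∈ σ, f v ∉ Bad' → v ∉ Bad := fun σ hσ v hv =>
    hb v (vert_mem hX hσ hv)
  refine ⟨⟨cx_map hX hf, (Tr_cx hX hf hB).1 cB, image_subset_image hB, ?_, ?_⟩, ?_⟩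
  · rw [forall_mem_image]
    intro l hl
    rw [hz l hl, List.length_map]
    exact h1 l hl
  · rw [forall_mem_image]
    intro σ hσ hv
    obtain ⟨⟨l, a, b⟩, h3⟩ := h2 σ hσ fun v a => good σ hσ v a (hv _ (List.mem_map_of_mem a))
    refine ⟨⟨l.map f, mem_coe.1 ((st_map hX hf hσ).mapsTo (mem_coe.2 a)),
      (List.length_map f).trans b⟩, ?_⟩
    by_cases e : σ ∈ B
    · rw [if_pos e] at h3
      rw [if_pos (mem_image_of_mem _ e)]
      exact ⟨(loc_map hX hf hσ (z := 0) (z' := 0) fun _ _ => rfl).1 h3.1,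
        (loc_map cB (fun a b ha hb => hf a b (hB ha) (hB hb)) e
          fun m hm => bz_map hX hf hz (hB hm)).1 h3.2⟩
    · rw [if_neg e] at h3
      rw [if_neg fun a => e ((Tr_mem hX hf hB hσ).1 a)]
      exact (loc_map hX hf hσ hz).1 h3
  · intro m hm ⟨v, h3, h4⟩ h5
    obtain ⟨σ, hσ, rfl⟩ := mem_image.1 hm
    obtain ⟨u, h6, rfl⟩ := List.mem_map.1 h3
    rw [bz_map hX hf hz hσ]
    exact hy σ hσ ⟨u, h6, good σ hσ u h6 h4⟩ fun a => h5 (mem_image_of_mem _ a)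

section sep
variable {J : Type} {I : Finset J} {F : J → Finset (List V)}

/-- Complexes without common vertices. -/
def Sep (I : Finset J) (F : J → Finset (List V)) : Prop :=
  (∀ j ∈ I, Cx (F j)) ∧ ∀ i ∈ I, ∀ j ∈ I, ∀ v, [v] ∈ F i → [v] ∈ F j → i = j

theorem Sep_eq (h : Sep I F) {i j : J} (hi : i ∈ I) (hj : j ∈ I) {σ l m : List V} (hσ : σ ∈ F i)
    (hl : l ∈ F i) (hm : m ∈ F j) (h1 : σ ⊆ m) (h2 : σ ⊆ l) : i = j := by
  obtain ⟨v, hv⟩ := List.exists_mem_of_ne_nil σ (h.1 i hi σ hσ).1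
  exact h.2 i hi j hj v (vert_mem (h.1 i hi) hl (h2 hv)) (vert_mem (h.1 j hj) hm (h1 hv))

theorem cx_sep (h : Sep I F) : Cx (I.biUnion F) := by
  intro l hl
  obtain ⟨j, hj, hl⟩ := mem_biUnion.1 hl
  obtain ⟨h1, h2, h3, h4⟩ := h.1 j hj l hl
  refine ⟨h1, h2, fun m a b => mem_biUnion.2 ⟨j, hj, h3 m a b⟩, fun m a b => ?_⟩
  obtain ⟨i, hi, hm⟩ := mem_biUnion.1 a
  obtain rfl := Sep_eq h hi hj hm hm hl b.subset (List.Subset.refl _) |>.symm
  exact h4 m hm b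

theorem st_sep (h : Sep I F) {j : J} (hj : j ∈ I) {σ : List V} (hσ : σ ∈ F j) :
    St (I.biUnion F) σ = St (F j) σ := by
  ext l
  rw [mem_St, mem_St]
  refine and_congr_left fun a => ⟨fun b => ?_, fun b => mem_biUnion.2 ⟨j, hj, b⟩⟩
  obtain ⟨i, hi, hl⟩ := mem_biUnion.1 b
  rwa [Sep_eq h hj hi hσ hσ hl a.subset (List.Subset.refl _)]

theorem bz_sep (h : Sep I F) {j : J} (hj : j ∈ I) {σ : List V} (hσ : σ ∈ F j) (z : List V → ℤ) :
    bz (I.biUnion F) z σ = bz (F j) z σ := by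
  have a : ∀ X : Finset (List V), σ ∈ X → σ ∈ St X σ := fun X b =>
    mem_St.2 ⟨b, List.Sublist.refl σ⟩
  rw [← bz_St _ σ z (a _ (mem_biUnion.2 ⟨j, hj, hσ⟩)), st_sep h hj hσ, bz_St _ σ z (a _ hσ)]

theorem hm_sep (h : Sep I F) {n : ℕ} {B : J → Finset (List V)} {Bad : Set V} {z : List V → ℤ}
    (hm : ∀ j ∈ I, HM n (F j) (B j) Bad z ∧ Cy (F j) (B j) Bad z) :
    HM n (I.biUnion F) (I.biUnion B) Bad z ∧ Cy (I.biUnion F) (I.biUnion B) Bad z := by
  have sB : ∀ j ∈ I, B j ⊆ F j := fun j hj => (hm j hj).1.2.2.1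
  have hB : Sep I B := ⟨fun j hj => (hm j hj).1.2.1,
    fun i hi j hj v a b => h.2 i hi j hj v (sB i hi a) (sB j hj b)⟩
  have key : ∀ j ∈ I, ∀ σ ∈ F j, σ ∈ I.biUnion B → σ ∈ B j := fun j hj σ a b => by
    obtain ⟨i, hi, d⟩ := mem_biUnion.1 b
    rwa [Sep_eq h hj hi a a (sB i hi d) (List.Subset.refl _) (List.Subset.refl _)]
  refine ⟨⟨cx_sep h, cx_sep hB, biUnion_mono sB, fun l hl => ?_, fun σ hσ hv => ?_⟩,
    fun m a b d => ?_⟩
  · obtain ⟨j, hj, hl⟩ := mem_biUnion.1 hl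
    exact (hm j hj).1.2.2.2.1 l hl
  · obtain ⟨j, hj, hσ⟩ := mem_biUnion.1 hσ
    obtain ⟨h1, h2⟩ := (hm j hj).1.2.2.2.2 σ hσ hv
    rw [st_sep h hj hσ]
    refine ⟨h1, ?_⟩
    by_cases e : σ ∈ B j
    · rw [if_pos e] at h2
      rw [if_pos (mem_biUnion.2 ⟨j, hj, e⟩), st_sep hB hj e]
      exact ⟨h2.1, loc_congr 1 (Or.inl rfl)
        (fun l hl => by rw [one_mul, bz_sep h hj (sB j hj (mem_St.1 hl).1)]) h2.2⟩
    · rw [if_neg e] at h2
      rwa [if_neg fun a => e (key j hj σ hσ a)]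
  · obtain ⟨j, hj, a⟩ := mem_biUnion.1 a
    rw [bz_sep h hj a]
    exact (hm j hj).2 m a b fun e => d (mem_biUnion.2 ⟨j, hj, e⟩)

theorem betti_sep {K : Type} [Field K] (h : Sep I F) {φ : V → V → ℤ} (hφ : Coc (I.biUnion F) φ)
    (s : Kˣ) : betti (I.biUnion F) φ s ≤ ∑ j ∈ I, betti (F j) φ s := by
  have hX := cx_sep h
  refine betti_biUnion I F (sq_of_cvx hX hφ cvx_self s)
    (fun j hj => cl_sub (h.1 j hj) (subset_biUnion_of_mem F hj) fun l hl => (hX l hl).1)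
    fun i hi j hj e => disjoint_left.2 fun l a b =>
      e (Sep_eq h hi hj a a b (List.Subset.refl _) (List.Subset.refl _))

end sep

/-- The boundary copies: local homology of a disjoint union of copies of a closed homology
manifold, oriented by `± zM`. -/
theorem loc_copies {A I : Type} [Fintype I] {M : Finset (List A)} {zM : List A → ℤ} {n : ℕ}
    (hM : HM n M ∅ ∅ zM) (ι : I → A → V)
    (hi : ∀ i j a b, [a] ∈ M → [b] ∈ M → ι i a = ι j b → i = j ∧ a = b) {sg : I → ℤ}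
    (hs : ∀ i, sg i = 1 ∨ sg i = -1) {y : List V → ℤ}
    (hy : ∀ i, ∀ m ∈ M, y (m.map (ι i)) = sg i * zM m) :
    Cx (univ.biUnion fun i => M.image (List.map (ι i))) ∧
      ∀ σ ∈ univ.biUnion (fun i => M.image (List.map (ι i))),
        Loc (St (univ.biUnion fun i => M.image (List.map (ι i))) σ) y := by
  obtain ⟨hX, -, -, -, h2⟩ := hM
  have inj : ∀ i, InjV M (ι i) := fun i a b ha hb e => (hi i i a b ha hb e).2
  have one : ∀ i v, [v] ∈ M.image (List.map (ι i)) → ∃ a, [a] ∈ M ∧ ι i a = v := fun i v a => by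
    obtain ⟨m, b, d⟩ := mem_image.1 a
    obtain ⟨u, rfl, e⟩ := List.map_eq_singleton_iff.1 d
    exact ⟨u, b, e⟩
  have hS : Sep univ fun i => M.image (List.map (ι i)) :=
    ⟨fun i _ => cx_map hX (inj i), fun i _ j _ v a b => by
      obtain ⟨u, a1, a2⟩ := one i v a
      obtain ⟨w, b1, b2⟩ := one j v b
      exact (hi i j u w a1 b1 (a2.trans b2.symm)).1⟩
  refine ⟨cx_sep hS, fun σ hσ => ?_⟩
  obtain ⟨i, h3, hσ⟩ := mem_biUnion.1 hσ
  rw [st_sep hS h3 hσ]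
  obtain ⟨m, hm, rfl⟩ := mem_image.1 hσ
  have h4 := (h2 m hm fun _ _ => Set.notMem_empty _).2
  rw [if_neg (notMem_empty m)] at h4
  exact (loc_map hX (inj i) hm (z := fun l => sg i * zM l) (hy i)).1
    (loc_congr (sg i) (hs i) (fun _ _ => rfl) h4)

end Pool.Agent.HT
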