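import Pool.Agent.Lib.MP_dae8ad_gt.H.Tr

/-! Inequalities for total Betti numbers. -/

open Finset Classical

noncomputable section

namespace Pool.Agent.HT

variable {V V' : Type} {K : Type} [Field K]

theorem Ses0_rn {W W' : Type} [AddCommGroup W] [Module K W] [AddCommGroup W'] [Module K W']
    (f : W →ₗ[K] W') (U : Submodule K W) [FiniteDimensional K U] :
    Module.finrank K (U.map f) + Module.finrank K ↥(U ⊓ LinearMap.ker f) = Module.finrank K U := by
  have h := (f.domRestrict U).finrank_range_add_finrank_ker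
  rwa [LinearMap.range_domRestrict, LinearMap.ker_domRestrict,
    ← Submodule.finrank_map_subtype_eq U, Submodule.map_comap_subtype] at h

/-- The three rank inequalities for a block triangular map of square zero. -/
theorem Ses0_abs {W : Type} [AddCommGroup W] [Module K W] (d p q : W →ₗ[K] W)
    [FiniteDimensional K (LinearMap.range d)] [FiniteDimensional K (LinearMap.range p)]
    [FiniteDimensional K (LinearMap.range q)] (h1 : ∀ x, d (p x) + d (q x) = d x)
    (h2 : ∀ x, p (d x) + q (d x) = d x) (h0 : ∀ x, q (d (p x)) = 0) (dd : ∀ x, d (d x) = 0) :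
    Module.finrank K (LinearMap.range (d ∘ₗ p)) + Module.finrank K (LinearMap.range (q ∘ₗ d)) ≤
      Module.finrank K (LinearMap.range d) ∧
    Module.finrank K (LinearMap.range d) + Module.finrank K (LinearMap.range (q ∘ₗ d)) ≤
      Module.finrank K (LinearMap.range (d ∘ₗ p)) + Module.finrank K (LinearMap.range q) ∧
    Module.finrank K (LinearMap.range d) + Module.finrank K (LinearMap.range (d ∘ₗ p)) ≤
      Module.finrank K (LinearMap.range (q ∘ₗ d)) + Module.finrank K (LinearMap.range p) := by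
  have h3 : ∀ x, q (d (q x)) = q (d x) := fun x => by rw [← h1 x, map_add, h0, zero_add]
  have e1 := Ses0_rn q (LinearMap.range d)
  have e2 := Ses0_rn d (LinearMap.range p)
  have e3 := Ses0_rn (q ∘ₗ d) (LinearMap.range q)
  have e4 : (q ∘ₗ d) ∘ₗ q = q ∘ₗ d := LinearMap.ext h3
  rw [← LinearMap.range_comp] at e1 e2 e3
  rw [e4] at e3
  have l1 : LinearMap.range (d ∘ₗ p) ≤ LinearMap.range d ⊓ LinearMap.ker q := by
    rintro _ ⟨x, rfl⟩
    exact ⟨⟨p x, rfl⟩, h0 x⟩
  have l2 : LinearMap.range d ⊓ LinearMap.ker q ≤ LinearMap.range p ⊓ LinearMap.ker d := by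
    rintro _ ⟨⟨x, rfl⟩, hx⟩
    refine ⟨⟨d x, ?_⟩, dd x⟩
    have := h2 x
    rwa [show q (d x) = 0 from hx, add_zero] at this
  have m1 := Submodule.finrank_mono l1
  have m2 := Submodule.finrank_mono l2
  have : FiniteDimensional K (LinearMap.range (d ∘ₗ p)) := Submodule.finiteDimensional_of_le l1
  have e5 := Ses0_rn (LinearMap.range (d ∘ₗ p)).mkQ (LinearMap.range d ⊓ LinearMap.ker q)
  have e6 := Ses0_rn ((LinearMap.range (d ∘ₗ p)).mkQ ∘ₗ d)
    (LinearMap.range q ⊓ LinearMap.ker (q ∘ₗ d))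
  have l3 : (LinearMap.range d ⊓ LinearMap.ker q).map (LinearMap.range (d ∘ₗ p)).mkQ ≤
      (LinearMap.range q ⊓ LinearMap.ker (q ∘ₗ d)).map ((LinearMap.range (d ∘ₗ p)).mkQ ∘ₗ d) := by
    rintro _ ⟨_, ⟨⟨x, rfl⟩, hx⟩, rfl⟩
    refine ⟨q x, ⟨⟨x, rfl⟩, (h3 x).trans hx⟩, ?_⟩
    rw [← h1 x, map_add, LinearMap.comp_apply, Submodule.mkQ_apply _ (d (p x)),
      (Submodule.Quotient.mk_eq_zero (LinearMap.range (d ∘ₗ p)) (x := d (p x))).2 ⟨x, rfl⟩,
      zero_add]
  have l4 : LinearMap.range (q ∘ₗ d) ≤ (LinearMap.range q ⊓ LinearMap.ker (q ∘ₗ d)) ⊓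
      LinearMap.ker ((LinearMap.range (d ∘ₗ p)).mkQ ∘ₗ d) := by
    rintro _ ⟨x, rfl⟩
    refine ⟨⟨⟨d x, rfl⟩, (h3 (d x)).trans ?_⟩, (Submodule.Quotient.mk_eq_zero _).2 ⟨-d x, ?_⟩⟩
    · rw [dd, map_zero]
    · rw [map_neg]
      exact neg_eq_of_add_eq_zero_right ((h1 (d x)).trans (dd x))
  have l5 : (LinearMap.range d ⊓ LinearMap.ker q) ⊓ LinearMap.ker (LinearMap.range (d ∘ₗ p)).mkQ ≤
      LinearMap.range (d ∘ₗ p) := by
    rw [Submodule.ker_mkQ]
    exact inf_le_right
  have m3 := Submodule.finrank_mono l3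
  have m4 := Submodule.finrank_mono l4
  have m5 := Submodule.finrank_mono l5
  omega

section ring
variable {R : Type} [CommRing R]

/-- cut off outside `S` -/
def Ses0_cut (R : Type) [CommRing R] (S : Finset (List V)) : (List V → R) →ₗ[R] (List V → R) :=
  LinearMap.pi fun l => if l ∈ S then LinearMap.proj l else 0

theorem Ses0_cut_apply (S : Finset (List V)) (c : List V → R) (l : List V) :
    Ses0_cut R S c l = if l ∈ S then c l else 0 := by
  unfold Ses0_cut
  rw [LinearMap.pi_apply]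
  split_ifs <;> rfl

theorem Ses0_range (S : Finset (List V)) : LinearMap.range (Ses0_cut R S) = sup R S := by
  ext c
  rw [mem_sup]
  constructor
  · rintro ⟨x, rfl⟩ l hl
    rw [Ses0_cut_apply, if_neg hl]
  · refine fun h => ⟨c, funext fun l => ?_⟩
    rw [Ses0_cut_apply]
    split_ifs with hl
    exacts [rfl, (h l hl).symm]

theorem Ses0_sub {A X : Finset (List V)} (φ : V → V → ℤ) (t : Rˣ) (hA : Cl A X) (c : List V → R) :
    bd X φ t (Ses0_cut R A c) = bd A φ t c := by
  funext m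
  rw [bd_apply, bd_apply]
  by_cases h1 : m ∈ A
  · rw [if_pos h1, if_pos (hA.1 h1), ← Finset.sum_subset hA.1]
    · exact sum_congr rfl fun l hl => by rw [Ses0_cut_apply, if_pos hl]
    · intro l _ hl
      rw [Ses0_cut_apply, if_neg hl, mul_zero]
  · rw [if_neg h1]
    split_ifs with h2
    · refine sum_eq_zero fun l _ => ?_
      rw [Ses0_cut_apply]
      split_ifs with hl
      · have : inc l m = 0 := by_contra fun e => h1 (hA.2 l hl m h2 e)
        rw [this, Int.cast_zero, zero_mul, zero_mul]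
      · exact mul_zero _
    · rfl

theorem Ses0_quo {A X : Finset (List V)} (φ : V → V → ℤ) (t : Rˣ) (hA : Cl A X) (c : List V → R) :
    Ses0_cut R (X \ A) (bd X φ t c) = bd (X \ A) φ t c := by
  funext m
  rw [Ses0_cut_apply, bd_apply, bd_apply]
  by_cases h1 : m ∈ X \ A
  · have h2 := mem_sdiff.1 h1
    rw [if_pos h1, if_pos h1, if_pos h2.1]
    refine (Finset.sum_subset sdiff_subset fun l hl hn => ?_).symm
    have : inc l m = 0 := by_contra fun e =>
      h2.2 (hA.2 l (by_contra fun h => hn (mem_sdiff.2 ⟨hl, h⟩)) m h2.1 e)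
    rw [this, Int.cast_zero, zero_mul, zero_mul]
  · rw [if_neg h1, if_neg h1]

theorem Ses0_self (S : Finset (List V)) : Cl S S := ⟨Subset.rfl, fun _ _ _ h _ => h⟩

theorem Ses0_mem (S : Finset (List V)) (φ : V → V → ℤ) (t : Rˣ) (c : List V → R) :
    bd S φ t c ∈ sup R S := mem_sup.2 fun l hl => by rw [bd_apply, if_neg hl]

theorem Ses0_fix {S : Finset (List V)} {c : List V → R} (h : c ∈ sup R S) :
    Ses0_cut R S c = c := by
  funext l
  rw [Ses0_cut_apply]
  split_ifs with hl
  exacts [rfl, (mem_sup.1 h l hl).symm]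

theorem Ses0_add {A X : Finset (List V)} (h : A ⊆ X) (c : List V → R) :
    Ses0_cut R A c + Ses0_cut R (X \ A) c = Ses0_cut R X c := by
  funext l
  rw [Pi.add_apply, Ses0_cut_apply, Ses0_cut_apply, Ses0_cut_apply]
  by_cases h1 : l ∈ A
  · rw [if_pos h1, if_pos (h h1), if_neg fun e => (mem_sdiff.1 e).2 h1, add_zero]
  · rw [if_neg h1, zero_add]
    exact if_congr (by rw [mem_sdiff]; exact and_iff_left h1) rfl rfl

theorem Ses0_zero {A X : Finset (List V)} (φ : V → V → ℤ) (t : Rˣ) (hA : Cl A X)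
    (c : List V → R) : Ses0_cut R (X \ A) (bd X φ t (Ses0_cut R A c)) = 0 := by
  funext l
  rw [Ses0_sub φ t hA, Ses0_cut_apply]
  split_ifs with hl
  exacts [mem_sup.1 (Ses0_mem A φ t c) l (mem_sdiff.1 hl).2, rfl]

end ring

/-- coordinates -/
def Ses0_eqv (K : Type) [Field K] (S : Finset (List V)) : sup K S ≃ₗ[K] (↥(S : Set (List V)) → K) :=
  LinearMap.iInfKerProjEquiv K (fun _ : List V => K) (I := (S : Set (List V))) (J := {l | l ∉ S})
    (Set.disjoint_left.2 fun _ h h' => h' h) fun l _ => Classical.em (l ∈ S)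

theorem Ses0_fd (K : Type) [Field K] (S : Finset (List V)) : FiniteDimensional K (sup K S) :=
  (Ses0_eqv K S).symm.finiteDimensional

theorem Ses0_dim (K : Type) [Field K] (S : Finset (List V)) :
    Module.finrank K (sup K S) = S.card := by
  rw [(Ses0_eqv K S).finrank_eq, Module.finrank_fintype_fun_eq_card]
  exact Fintype.card_coe S

theorem Ses0_le {S : Finset (List V)} {φ : V → V → ℤ} {s : Kˣ} (h : Sq S φ s) :
    LinearMap.range (bd S φ s) ≤ sup K S ⊓ LinearMap.ker (bd S φ s) := by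
  rintro _ ⟨c, rfl⟩
  exact ⟨Ses0_mem S φ s c, h c⟩

/-- Rank and nullity: `betti = card - 2 * rank`. -/
theorem betti_eq {S : Finset (List V)} {φ : V → V → ℤ} {s : Kˣ} (h : Sq S φ s) :
    betti S φ s + 2 * Module.finrank K (LinearMap.range (bd S φ s)) = S.card := by
  have := Ses0_fd K S
  have e := Ses0_rn (bd S φ s) (sup K S)
  have e2 : (sup K S).map (bd S φ s) = LinearMap.range (bd S φ s) := by
    rw [← Ses0_range, ← LinearMap.range_comp]
    exact congrArg _ (LinearMap.ext (Ses0_sub φ s (Ses0_self S)))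
  rw [e2, Ses0_dim] at e
  have m := Submodule.finrank_mono (Ses0_le h)
  unfold betti dimK
  omega

theorem betti_le_card (S : Finset (List V)) (φ : V → V → ℤ) (s : Kˣ) :
    betti S φ s ≤ S.card := by
  have := Ses0_fd K S
  rw [← Ses0_dim K S]
  exact (Nat.sub_le _ _).trans (Submodule.finrank_mono inf_le_left)

theorem betti_zero_iff {S : Finset (List V)} {φ : V → V → ℤ} {s : Kˣ} (h : Sq S φ s) :
    betti S φ s = 0 ↔ Acy S φ s := by
  have := Ses0_fd K S
  unfold betti dimK
  rw [Nat.sub_eq_zero_iff_le]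
  constructor
  · intro h1 c hc
    have e := Submodule.eq_of_le_of_finrank_le (Ses0_le h) h1
    have : Ses0_cut K S c ∈ LinearMap.range (bd S φ s) := by
      rw [e]
      exact ⟨Ses0_range (R := K) S ▸ ⟨c, rfl⟩, (Ses0_sub φ s (Ses0_self S) c).trans hc⟩
    obtain ⟨b, hb⟩ := this
    exact ⟨b, fun m hm => by rw [hb, Ses0_cut_apply, if_pos hm]⟩
  · intro h1
    have : FiniteDimensional K (LinearMap.range (bd S φ s)) :=
      Submodule.finiteDimensional_of_le (Ses0_le h)
    refine Submodule.finrank_mono fun c hc => ?_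
    obtain ⟨b, hb⟩ := h1 c hc.2
    refine ⟨b, funext fun m => ?_⟩
    by_cases hm : m ∈ S
    · exact (hb m hm).symm
    · rw [mem_sup.1 hc.1 m hm, mem_sup.1 (Ses0_mem S φ s b) m hm]

theorem sq_cl {R : Type} [CommRing R] {A X : Finset (List V)} {φ : V → V → ℤ} {t : Rˣ}
    (h : Sq X φ t) (hA : Cl A X) : Sq A φ t ∧ Sq (X \ A) φ t := by
  refine ⟨fun c => ?_, fun c => ?_⟩
  · rw [← Ses0_sub φ t hA, Ses0_fix (Ses0_mem A φ t c), ← Ses0_sub φ t hA]
    exact h _
  · have e := Ses0_add hA.1 (bd X φ t c)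
    rw [Ses0_fix (Ses0_mem X φ t c), Ses0_quo φ t hA] at e
    rw [← Ses0_quo φ t hA, eq_sub_of_add_eq' e, map_sub, map_sub, h c, map_zero,
      Ses0_zero φ t hA, sub_zero]

/-- The three inequalities of the long exact sequence. With `r` for ranks and `Q = X \ A`:
`r A + r Q ≤ r X` (block triangular), `r X + r Q ≤ r A + card Q` (project the image to the
coordinates in `Q`; the part of the image inside `A` is the image of `sup A + ker bd Q`, and the
image of `bd Q` goes to the image of `bd A`), and symmetrically `r X + r A ≤ r Q + card A` (the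
image of `ker bd Q` lies in the cycles of `A`). -/
theorem betti_ses {A X : Finset (List V)} {φ : V → V → ℤ} {s : Kˣ} (h : Sq X φ s)
    (hA : Cl A X) :
    betti X φ s ≤ betti A φ s + betti (X \ A) φ s ∧
    betti A φ s ≤ betti X φ s + betti (X \ A) φ s ∧
    betti (X \ A) φ s ≤ betti X φ s + betti A φ s := by
  have f1 : FiniteDimensional K (LinearMap.range (Ses0_cut K A)) := by
    rw [Ses0_range]
    exact Ses0_fd K A
  have f2 : FiniteDimensional K (LinearMap.range (Ses0_cut K (X \ A))) := by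
    rw [Ses0_range]
    exact Ses0_fd K _
  have f0 := Ses0_fd K X
  have f3 : FiniteDimensional K (LinearMap.range (bd X φ s)) :=
    Submodule.finiteDimensional_of_le (Ses0_le h)
  have k := Ses0_abs (bd X φ s) (Ses0_cut K A) (Ses0_cut K (X \ A))
    (fun x => by rw [← map_add, Ses0_add hA.1, Ses0_sub φ s (Ses0_self X)])
    (fun x => by rw [Ses0_add hA.1, Ses0_fix (Ses0_mem X φ s x)]) (Ses0_zero φ s hA) h
  have e1 : bd X φ s ∘ₗ Ses0_cut K A = bd A φ s := LinearMap.ext (Ses0_sub φ s hA)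
  have e2 : Ses0_cut K (X \ A) ∘ₗ bd X φ s = bd (X \ A) φ s := LinearMap.ext (Ses0_quo φ s hA)
  rw [e1, e2, Ses0_range, Ses0_range, Ses0_dim, Ses0_dim] at k
  have b1 := betti_eq h
  have b2 := betti_eq (sq_cl h hA).1
  have b3 := betti_eq (sq_cl h hA).2
  have b4 := card_sdiff_add_card_eq_card hA.1
  omega

end Pool.Agent.HT
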