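import Pool.Agent.Lib.MP_dae8ad_gt.H.Tr0

/-! Transfer of local homology and Betti numbers along bijections. -/

open Finset Classical

noncomputable section

namespace Pool.Agent.HT

variable {V V' : Type}

section map
variable {X : Finset (List V)} {f : V → V'}

/-- `f` is injective on the vertices of `X`. -/
def InjV (X : Finset (List V)) (f : V → V') : Prop :=
  ∀ a b, [a] ∈ X → [b] ∈ X → f a = f b → a = b

theorem vert_mem (hX : Cx X) {l : List V} (hl : l ∈ X) {v : V} (hv : v ∈ l) : [v] ∈ X := by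
  exact (hX l hl).2.2.1 [v] (List.cons_ne_nil _ _) (List.singleton_sublist.2 hv)

theorem Tr_inj (hf : InjV X f) : ∀ l m : List V, (∀ v ∈ l, [v] ∈ X) → (∀ v ∈ m, [v] ∈ X) →
    l.map f = m.map f → l = m
  | [], m, _, _, h => (List.map_eq_nil_iff.1 h.symm).symm
  | _ :: _, [], _, _, h => absurd h (List.cons_ne_nil _ _)
  | a :: l, b :: m, h1, h2, h => by
    rw [List.map_cons, List.map_cons, List.cons.injEq] at h
    rw [hf a b (h1 a List.mem_cons_self) (h2 b List.mem_cons_self) h.1,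
      Tr_inj hf l m (fun v hv => h1 v (List.mem_cons_of_mem _ hv))
        (fun v hv => h2 v (List.mem_cons_of_mem _ hv)) h.2]

theorem map_inj (hX : Cx X) (hf : InjV X f) {l m : List V} (hl : l ∈ X) (hm : m ∈ X)
    (h : l.map f = m.map f) : l = m := by
  exact Tr_inj hf l m (fun _ => vert_mem hX hl) (fun _ => vert_mem hX hm) h

theorem cx_map (hX : Cx X) (hf : InjV X f) : Cx (X.image (List.map f)) := by
  intro L hL
  obtain ⟨l, hl, rfl⟩ := mem_image.1 hL
  obtain ⟨h1, h2, h3, h4⟩ := hX l hl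
  refine ⟨fun e => h1 (List.map_eq_nil_iff.1 e),
    h2.map_on fun a ha b hb => hf a b (vert_mem hX hl ha) (vert_mem hX hl hb), fun M hM hs => ?_,
    fun M hM hp => ?_⟩
  · obtain ⟨m, hm, rfl⟩ := List.sublist_map_iff.1 hs
    exact mem_image_of_mem _ (h3 m (fun e => hM (by rw [e, List.map_nil])) hm)
  · obtain ⟨m, hm, rfl⟩ := mem_image.1 hM
    have key : ∀ {a b : List V}, a ∈ X → b ∈ X → (a.map f).Perm (b.map f) → ∀ v ∈ a, v ∈ b := by
      intro a b ha hb h v hv
      obtain ⟨u, hu, e⟩ := List.mem_map.1 (h.subset (List.mem_map_of_mem hv))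
      exact hf u v (vert_mem hX hb hu) (vert_mem hX ha hv) e ▸ hu
    rw [h4 m hm ((List.perm_ext_iff_of_nodup (hX m hm).2.1 h2).2 fun v =>
      ⟨key hm hl hp v, key hl hm hp.symm v⟩)]

theorem inc_mapX (hX : Cx X) (hf : InjV X f) {l m : List V} (hl : l ∈ X) (hm : m ∈ X) :
    inc (l.map f) (m.map f) = inc l m := by
  exact inc_map f fun i _ h => Tr_inj hf _ _
    (fun _ hv => vert_mem hX hl (List.mem_of_mem_eraseIdx hv)) (fun _ => vert_mem hX hm) h

theorem sublist_map (hX : Cx X) (hf : InjV X f) {l m : List V} (hl : l ∈ X) (hm : m ∈ X) :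
    (m.map f).Sublist (l.map f) ↔ m.Sublist l := by
  refine ⟨fun h => ?_, fun h => h.map f⟩
  obtain ⟨k, hk, e⟩ := List.sublist_map_iff.1 h
  rwa [Tr_inj hf m k (fun _ => vert_mem hX hm) (fun _ hv => vert_mem hX hl (hk.subset hv)) e]

theorem Tr_bij (hX : Cx X) (hf : InjV X f) {S : Finset (List V)} (hS : S ⊆ X) :
    Set.BijOn (List.map f) S (S.image (List.map f)) :=
  ⟨fun _ hl => mem_coe.2 (mem_image_of_mem _ hl),
    fun _ hl _ hm e => map_inj hX hf (hS hl) (hS hm) e,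
    fun _ hL => by simpa using hL⟩

theorem st_map (hX : Cx X) (hf : InjV X f) {σ : List V} (hσ : σ ∈ X) :
    Set.BijOn (List.map f) (St X σ) (St (X.image (List.map f)) (σ.map f)) := by
  refine ⟨fun l hl => ?_, fun l hl m hm e => ?_, fun L hL => ?_⟩
  · have h := mem_St.1 (mem_coe.1 hl)
    exact mem_coe.2 (mem_St.2 ⟨mem_image_of_mem _ h.1, h.2.map f⟩)
  · exact map_inj hX hf (mem_St.1 (mem_coe.1 hl)).1 (mem_St.1 (mem_coe.1 hm)).1 e
  · obtain ⟨h1, h2⟩ := mem_St.1 (mem_coe.1 hL)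
    obtain ⟨l, hl, rfl⟩ := mem_image.1 h1
    exact ⟨l, mem_coe.2 (mem_St.2 ⟨hl, (sublist_map hX hf hl hσ).1 h2⟩), rfl⟩

theorem loc_map (hX : Cx X) (hf : InjV X f) {σ : List V} (hσ : σ ∈ X) {z : List V → ℤ}
    {z' : List V' → ℤ} (hz : ∀ l ∈ X, z' (l.map f) = z l) :
    Loc (St X σ) z ↔ Loc (St (X.image (List.map f)) (σ.map f)) z' := by
  exact loc_tr' (List.map f) (st_map hX hf hσ)
    (fun l hl m hm => inc_mapX hX hf (mem_St.1 hl).1 (mem_St.1 hm).1)
    fun l hl => hz l (mem_St.1 hl).1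

theorem bz_map (hX : Cx X) (hf : InjV X f) {z : List V → ℤ} {z' : List V' → ℤ}
    (hz : ∀ l ∈ X, z' (l.map f) = z l) {m : List V} (hm : m ∈ X) :
    bz (X.image (List.map f)) z' (m.map f) = bz X z m := by
  exact bz_tr (List.map f) (Tr_bij hX hf Subset.rfl) (fun l hl m hm => inc_mapX hX hf hl hm) hz hm

theorem betti_map {K : Type} [Field K] (hX : Cx X) (hf : InjV X f) {S : Finset (List V)} (hS : S ⊆ X)
    {φ : V → V → ℤ} {φ' : V' → V' → ℤ} (hφ : ∀ u v, [u, v] ∈ X → φ' (f u) (f v) = φ u v)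
    (s : Kˣ) : betti (S.image (List.map f)) φ' s = betti S φ s := by
  refine betti_tr (List.map f) (Tr_bij hX hf hS)
    (fun l hl m hm => inc_mapX hX hf (hS hl) (hS hm)) (fun l hl m hm hi => ?_) s
  have hs := (inc_sublist hi).1
  rcases l with _ | ⟨u, l⟩
  · rfl
  rcases m with _ | ⟨v, m⟩
  · rfl
  simp only [List.map_cons, ex]
  by_cases e : u = v
  · rw [if_pos e, if_pos (congrArg f e)]
  · have hv : v ∈ l := (List.mem_cons.1 (hs.subset List.mem_cons_self)).resolve_left (Ne.symm e)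
    rw [if_neg e, if_neg fun e' => e (hf u v (vert_mem hX (hS hl) List.mem_cons_self)
      (vert_mem hX (hS hm) List.mem_cons_self) e')]
    exact hφ u v ((hX _ (hS hl)).2.2.1 _ (List.cons_ne_nil _ _)
      ((List.singleton_sublist.2 hv).cons_cons u))

theorem Tr_mem (hX : Cx X) (hf : InjV X f) {B : Finset (List V)} (hB : B ⊆ X) {σ : List V}
    (hσ : σ ∈ X) : σ.map f ∈ B.image (List.map f) ↔ σ ∈ B := by
  refine ⟨fun h => ?_, mem_image_of_mem _⟩
  obtain ⟨m, hm, e⟩ := mem_image.1 h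
  exact map_inj hX hf (hB hm) hσ e ▸ hm

theorem Tr_cx (hX : Cx X) (hf : InjV X f) {B : Finset (List V)} (hB : B ⊆ X) :
    Cx B ↔ Cx (B.image (List.map f)) := by
  refine ⟨fun h => cx_map h fun a b ha hb => hf a b (hB ha) (hB hb), fun h l hl => ?_⟩
  obtain ⟨h1, h2, h3, h4⟩ := hX l (hB hl)
  refine ⟨h1, h2, fun m hm hs => ?_, fun m hm => h4 m (hB hm)⟩
  exact (Tr_mem hX hf hB (h3 m hm hs)).1 ((h _ (mem_image_of_mem _ hl)).2.2.1 _
    (fun e => hm (List.map_eq_nil_iff.1 e)) (hs.map f))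

/-- Homology manifolds without singular set are carried along. -/
theorem hm_map (hf : InjV X f) {n : ℕ} {B : Finset (List V)} {z : List V → ℤ}
    {z' : List V' → ℤ} (hX : Cx X) (hB : B ⊆ X) (hz : ∀ l ∈ X, z' (l.map f) = z l) :
    HM n X B ∅ z ↔ HM n (X.image (List.map f)) (B.image (List.map f)) ∅ z' := by
  unfold HM
  rw [and_iff_right hX, and_iff_right (cx_map hX hf), and_iff_right hB,
    and_iff_right (image_subset_image hB), ← Tr_cx hX hf hB, forall_mem_image, forall_mem_image]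
  refine and_congr_right fun cB => and_congr (forall₂_congr fun l hl => ?_)
    (forall₂_congr fun σ hσ => imp_congr (by simp) (and_congr ?_ ?_))
  · rw [hz l hl, List.length_map]
  · have h := st_map hX hf hσ
    refine ⟨fun ⟨l, hl, e⟩ => ⟨l.map f, mem_coe.1 (h.mapsTo (mem_coe.2 hl)), ?_⟩,
      fun ⟨L, hL, e⟩ => ?_⟩
    · rwa [List.length_map]
    · obtain ⟨l, hl, rfl⟩ := h.surjOn (mem_coe.2 hL)
      exact ⟨l, mem_coe.1 hl, by rwa [List.length_map] at e⟩
  · by_cases hs : σ ∈ B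
    · rw [if_pos hs, if_pos (mem_image_of_mem _ hs)]
      exact and_congr (loc_map hX hf hσ fun _ _ => rfl)
        (loc_map cB (fun a b ha hb => hf a b (hB ha) (hB hb)) hs
          fun l hl => bz_map hX hf hz (hB hl))
    · rw [if_neg hs, if_neg fun h => hs ((Tr_mem hX hf hB hσ).1 h)]
      exact loc_map hX hf hσ hz

end map

end Pool.Agent.HT
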