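import Pool.Agent.Lib.MP_dae8ad_gt.H.Inc

/-! Transfer of local homology and Betti numbers along bijections. -/

open Finset Classical

noncomputable section

namespace Pool.Agent.HT

variable {V V' : Type}

theorem Tr0_key {S : Finset (List V)} {S' : Finset (List V')} {e : List V → List V'}
    (he : Set.BijOn e S S') {sg : List V → ℤ} {ε : ℤ}
    (hi : ∀ l ∈ S, ∀ m ∈ S, inc (e l) (e m) * sg l = ε * sg m * inc l m)
    {c : List V → ℤ} {c' : List V' → ℤ} (hc : ∀ l ∈ S, c' (e l) = sg l * c l) {m : List V}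
    (hm : m ∈ S) : bz S' c' (e m) = ε * sg m * bz S c m := by
  rw [bz_apply, bz_apply, if_pos hm, if_pos (mem_coe.1 (he.mapsTo hm)), Finset.mul_sum]
  refine (Finset.sum_nbij e (fun l hl => he.mapsTo hl) he.injOn he.surjOn fun l hl => ?_).symm
  rw [hc l hl, ← mul_assoc, ← hi l hl m hm, mul_assoc]

theorem Tr0_zero {S : Finset (List V)} {c : List V → ℤ} (h : ∀ m ∈ S, bz S c m = 0) :
    bz S c = 0 := by
  funext m
  by_cases hm : m ∈ S
  · exact h m hm
  · rw [bz_apply, if_neg hm]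
    rfl

/-- Transfer along a bijection that keeps the incidence numbers up to signs. Sketch: to a chain
`c` on `S` associate `c' (e l) = sg l * c l` (use `Function.invFunOn e S`); then
`bz S' c' (e m) = ε * sg m * bz S c m`. -/
theorem loc_tr {S : Finset (List V)} {S' : Finset (List V')} (e : List V → List V')
    (he : Set.BijOn e S S') (sg : List V → ℤ) (hs : ∀ l ∈ S, sg l = 1 ∨ sg l = -1) (ε : ℤ)
    (hε : ε = 1 ∨ ε = -1)
    (hi : ∀ l ∈ S, ∀ m ∈ S, inc (e l) (e m) * sg l = ε * sg m * inc l m)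
    {z : List V → ℤ} {z' : List V' → ℤ} (hz : ∀ l ∈ S, z' (e l) = sg l * z l) :
    Loc S z ↔ Loc S' z' := by
  have s2 : ∀ l ∈ S, sg l * sg l = 1 := fun l hl => by rcases hs l hl with h | h <;> simp [h]
  have e2 : ε * ε = 1 := by rcases hε with h | h <;> simp [h]
  have hg : ∀ l ∈ S, Function.invFunOn e S (e l) = l := fun l hl =>
    he.injOn.leftInvOn_invFunOn hl
  have h0 : ∀ {c : List V → ℤ} {c' : List V' → ℤ}, (∀ l ∈ S, c' (e l) = sg l * c l) →
      (bz S c = 0 ↔ bz S' c' = 0) := fun {c c'} hc => by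
    refine ⟨fun h => Tr0_zero fun m' hm' => ?_, fun h => Tr0_zero fun m hm => ?_⟩
    · obtain ⟨m, hm, rfl⟩ := he.surjOn hm'
      rw [Tr0_key he hi hc hm, h, Pi.zero_apply, mul_zero]
    · have h1 := Tr0_key he hi hc hm
      rw [h, Pi.zero_apply] at h1
      linear_combination (-ε * sg m) * h1 - (sg m * sg m * bz S c m) * e2 - bz S c m * s2 m hm
  refine ⟨fun h => ⟨(h0 hz).1 h.1, fun c' hc' => ?_⟩, fun h => ⟨(h0 hz).2 h.1, fun c hc => ?_⟩⟩
  · have h1 : ∀ l ∈ S, c' (e l) = sg l * (sg l * c' (e l)) := fun l hl => by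
      rw [← mul_assoc, s2 l hl, one_mul]
    obtain ⟨b, k, hb⟩ := h.2 _ ((h0 h1).2 hc')
    refine ⟨ε • fun l' => sg (Function.invFunOn e S l') * b (Function.invFunOn e S l'), k,
      fun m' hm' => ?_⟩
    obtain ⟨m, hm, rfl⟩ := he.surjOn hm'
    rw [map_smul, Pi.smul_apply, Tr0_key (c := b) he hi (fun l hl => by rw [hg l hl]) hm, hz m hm,
      h1 m hm, hb m hm, smul_eq_mul]
    linear_combination (-sg m * bz S b m) * e2
  · obtain ⟨b', k, hb⟩ := h.2
      (fun l' => sg (Function.invFunOn e S l') * c (Function.invFunOn e S l'))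
      ((h0 fun l hl => by rw [hg l hl]).1 hc)
    refine ⟨ε • fun l => sg l * b' (e l), k, fun m hm => ?_⟩
    have h1 := hb _ (he.mapsTo hm)
    rw [hg m hm, hz m hm, Tr0_key (c := fun l => sg l * b' (e l)) he hi
      (fun l hl => by rw [← mul_assoc, s2 l hl, one_mul]) hm] at h1
    rw [map_smul, Pi.smul_apply, smul_eq_mul]
    linear_combination sg m * h1 -
      (c m - ε * bz S (fun l => sg l * b' (e l)) m - k * z m) * s2 m hm

theorem loc_tr' {S : Finset (List V)} {S' : Finset (List V')} (e : List V → List V')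
    (he : Set.BijOn e S S') (hi : ∀ l ∈ S, ∀ m ∈ S, inc (e l) (e m) = inc l m)
    {z : List V → ℤ} {z' : List V' → ℤ} (hz : ∀ l ∈ S, z' (e l) = z l) :
    Loc S z ↔ Loc S' z' :=
  loc_tr e he (fun _ => 1) (fun _ _ => Or.inl rfl) 1 (Or.inl rfl)
    (fun l hl m hm => by rw [hi l hl m hm, mul_one, mul_one, one_mul])
    fun l hl => by rw [hz l hl, one_mul]

theorem bz_tr {S : Finset (List V)} {S' : Finset (List V')} (e : List V → List V')
    (he : Set.BijOn e S S') (hi : ∀ l ∈ S, ∀ m ∈ S, inc (e l) (e m) = inc l m)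
    {z : List V → ℤ} {z' : List V' → ℤ} (hz : ∀ l ∈ S, z' (e l) = z l) {m : List V}
    (hm : m ∈ S) : bz S' z' (e m) = bz S z m := by
  rw [Tr0_key (sg := fun _ => 1) (ε := 1) (c := z) he
    (fun l hl m hm => by rw [hi l hl m hm, mul_one, mul_one, one_mul])
    (fun l hl => by rw [hz l hl, one_mul]) hm, mul_one, one_mul]

theorem loc_congr {S : Finset (List V)} {z z' : List V → ℤ} (u : ℤ) (hu : u = 1 ∨ u = -1)
    (h : ∀ l ∈ S, z' l = u * z l) (hz : Loc S z) : Loc S z' :=
  (loc_tr id (Set.bijOn_id _) (fun _ => u) (fun _ _ => hu) 1 (Or.inl rfl)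
    (fun l _ m _ => by rw [one_mul, mul_comm]; rfl) h).1 hz

/-- Pull back along `e`, cut off outside `S`. -/
def Tr0_T (K : Type) [Field K] (S : Finset (List V)) (e : List V → List V') :
    (List V' → K) →ₗ[K] (List V → K) :=
  LinearMap.pi fun l => if l ∈ S then LinearMap.proj (e l) else 0

theorem Tr0_T_apply {K : Type} [Field K] (S : Finset (List V)) (e : List V → List V')
    (c : List V' → K) (l : List V) : Tr0_T K S e c l = if l ∈ S then c (e l) else 0 := by
  unfold Tr0_T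
  rw [LinearMap.pi_apply]
  split_ifs <;> rfl

/-- Sketch: `c ↦ c ∘ e` (cut off outside `S`) is a linear equivalence `sup K S' ≃ sup K S` that
intertwines the two operators; note `range (bd S ..) = (sup K S).map (bd S ..)`. -/
theorem betti_tr {K : Type} [Field K] {S : Finset (List V)} {S' : Finset (List V')} (e : List V → List V')
    (he : Set.BijOn e S S') (hi : ∀ l ∈ S, ∀ m ∈ S, inc (e l) (e m) = inc l m)
    {φ : V → V → ℤ} {φ' : V' → V' → ℤ}
    (hφ : ∀ l ∈ S, ∀ m ∈ S, inc l m ≠ 0 → ex φ' (e l) (e m) = ex φ l m) (s : Kˣ) :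
    betti S' φ' s = betti S φ s := by
  have hg : ∀ l ∈ S, Function.invFunOn e S (e l) = l := fun l hl =>
    he.injOn.leftInvOn_invFunOn hl
  have h1 : ∀ c, bd S φ s (Tr0_T K S e c) = Tr0_T K S e (bd S' φ' s c) := fun c => by
    funext m
    rw [Tr0_T_apply, bd_apply]
    split_ifs with hm
    · rw [bd_apply, if_pos (mem_coe.1 (he.mapsTo hm))]
      refine Finset.sum_nbij e (fun l hl => he.mapsTo hl) he.injOn he.surjOn fun l hl => ?_
      rw [Tr0_T_apply, if_pos hl, hi l hl m hm]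
      by_cases h : inc l m = 0
      · simp [h]
      · rw [hφ l hl m hm h]
    · rfl
  have h2 : ∀ c ∈ sup K S', Tr0_T K S e c = 0 → c = 0 := fun c hc h => by
    funext m'
    by_cases hm' : m' ∈ S'
    · obtain ⟨m, hm, rfl⟩ := he.surjOn hm'
      have h3 := congrFun h m
      rwa [Tr0_T_apply, if_pos (mem_coe.1 hm)] at h3
    · exact mem_sup.1 hc m' hm'
  have h3 : ∀ W ≤ sup K S', Module.finrank K W = Module.finrank K (W.map (Tr0_T K S e)) :=
    fun W hW => by
      rw [← LinearMap.range_domRestrict]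
      exact (LinearEquiv.ofInjective _ ((injective_iff_map_eq_zero _).2
        fun c hc => Subtype.ext (h2 c (hW c.2) hc))).finrank_eq
  have h4 : ∀ c : List V → K, ∃ c' ∈ sup K S', ∀ l ∈ S, Tr0_T K S e c' l = c l := fun c =>
    ⟨fun l' => if l' ∈ S' then c (Function.invFunOn e S l') else 0,
      mem_sup.2 fun l' hl' => if_neg hl', fun l hl => by
        rw [Tr0_T_apply, if_pos hl, if_pos (mem_coe.1 (he.mapsTo hl)), hg l hl]⟩
  have h5 : LinearMap.range (bd S' φ' s) ≤ sup K S' := by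
    rintro _ ⟨c, rfl⟩
    exact mem_sup.2 fun l hl => by rw [bd_apply, if_neg hl]
  have h6 : (LinearMap.range (bd S' φ' s)).map (Tr0_T K S e) = LinearMap.range (bd S φ s) := by
    refine le_antisymm ?_ ?_
    · rintro _ ⟨_, ⟨c, rfl⟩, rfl⟩
      exact ⟨_, h1 c⟩
    · rintro _ ⟨c, rfl⟩
      obtain ⟨c', -, hc⟩ := h4 c
      refine ⟨_, ⟨c', rfl⟩, (h1 c').symm.trans (funext fun m => ?_)⟩
      rw [bd_apply, bd_apply, Finset.sum_congr rfl fun l hl => by rw [hc l hl]]
  have h7 : (sup K S' ⊓ LinearMap.ker (bd S' φ' s)).map (Tr0_T K S e) =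
      sup K S ⊓ LinearMap.ker (bd S φ s) := by
    refine le_antisymm ?_ fun c hc => ?_
    · rintro _ ⟨c, hc, rfl⟩
      refine ⟨mem_sup.2 fun l hl => by rw [Tr0_T_apply, if_neg hl], LinearMap.mem_ker.2 ?_⟩
      rw [h1, LinearMap.mem_ker.1 hc.2, map_zero]
    · obtain ⟨c', h8, h9⟩ := h4 c
      have h10 : Tr0_T K S e c' = c := funext fun l => by
        by_cases hl : l ∈ S
        · exact h9 l hl
        · rw [Tr0_T_apply, if_neg hl, mem_sup.1 hc.1 l hl]
      refine ⟨c', ⟨h8, LinearMap.mem_ker.2 (h2 _ (h5 ⟨c', rfl⟩) ?_)⟩, h10⟩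
      rw [← h1, h10]
      exact hc.2
  rw [betti, betti, dimK, dimK, dimK, dimK, h3 _ inf_le_left, h3 _ h5, h6, h7]

end Pool.Agent.HT
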